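import Pool.Agent.H12.DM.Bb
import Pool.Agent.H17.PNT

/-!
# Bh: the third moment forces concentration

`L = log x`, `N = ⌊x⌋₊ + 1`, `I = Icc 1 H`, `t_n = nf I La n ≥ 0`, `L ≤ H ≤ L^2`, `δ = ε/100 ≤ 1/100` (assume `ε ≤ 1`), `x` large.
* `∑_{n∈rgH} t_n = H ∑_{m<N} La m` (each `d ∈ I` contributes `∑_m La m`, as `La` vanishes outside `[0,N)`) and `∑ La m = L #{x^(1/4) < p ≤ x} ≥ (1 - δ) N` (`pi_tendsto`: `π(x) L/x → 1`; `L (x^(1/4)+1) ≤ (δ/4) x`).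
* For `t ≥ 0`: `t^3 - 3H^2 t + 2H^3 = (t-H)^2 (t+2H) ≥ 2H (t-H)^2`. Sum over `n ∈ rgH` (`N + H ≤ (1+δ) N` elements):
  `2H ∑ (t_n - H)^2 ≤ (1+δ) N H^3 - 3H^2 * H (1-δ) N + 2H^3 (1+δ) N = 6 δ N H^3`, so `∑ (t_n - H)^2 ≤ 3 δ N H^2`.
* `nf I fB n = t_n - nf I Mi n` (`nf` is additive). For `H ≤ n < N`: `|nf I Mi n - H| ≤ W ≤ √L` (`Mi_win`), `(nf I fB)^2 ≤ 2 (t_n - H)^2 + 2 W^2`; `∑ 2W^2 ≤ 2 L N ≤ δ N H^2` for `x` large (`H ≥ L`). For the other `n` (at most `2H`): `|nf I fB n| ≤ t_n + H + W ≤ H L + 2H ≤ 3 H L`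
  (`t_n ≤ H L`, `Mi_win_le`), total `≤ 2H * 9 H^2 L^2 ≤ δ N H^2` for `x` large. Sum: `≤ (6δ + 2δ) N H^2 ≤ ε N H^2`.
-/

set_option autoImplicit false

namespace Pool.Agent.H12.DM

open Finset Pool.Agent.H17 Pool.Agent.H6.MF Pool.Agent.H6.MB

lemma Bh_W {x : ℝ} (hL : 1 ≤ Real.log x) :
    1 ≤ (WW (yy x) : ℝ) ∧ (WW (yy x) : ℝ) ^ 2 ≤ Real.log x ∧ (WW (yy x) : ℝ) ≤ Real.log x := by
  have hW1 : (1 : ℝ) ≤ (WW (yy x) : ℝ) := by exact_mod_cast WW_pos (yy x)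
  have h1 := WW_yy_pow_le hL
  have h2 : Real.sqrt (Real.log x) ≤ Real.log x := by
    rw [Real.sqrt_le_left (by linarith)]
    nlinarith
  have h3 : (WW (yy x) : ℝ) ^ 2 ≤ (WW (yy x) : ℝ) ^ 34 := pow_le_pow_right₀ hW1 (by norm_num)
  have h4 : (WW (yy x) : ℝ) ≤ (WW (yy x) : ℝ) ^ 34 := le_self_pow₀ hW1 (by norm_num)
  exact ⟨hW1, h3.trans (h1.trans h2), h4.trans (h1.trans h2)⟩

/-- the total mass of the windows -/
lemma Bh_mass {x : ℝ} (hx : 1 ≤ x) (H : ℕ) :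
    (H : ℝ) * ∑ m ∈ Finset.range (⌊x⌋₊ + 1), La x (m : ℤ) ≤
      ∑ n ∈ rgH x H, nf (Finset.Icc 1 (H : ℤ)) (La x) (n : ℤ) := by
  unfold nf
  rw [Finset.sum_comm]
  have h1 : ∀ d ∈ Finset.Icc 1 (H : ℤ), ∑ m ∈ Finset.range (⌊x⌋₊ + 1), La x (m : ℤ) ≤
      ∑ n ∈ rgH x H, La x ((n : ℤ) - d) := by
    intro d hd
    rw [Finset.mem_Icc] at hd
    obtain ⟨e, rfl⟩ : ∃ e : ℕ, d = (e : ℤ) := ⟨d.toNat, by omega⟩
    have h2 : ∑ m ∈ Finset.range (⌊x⌋₊ + 1), La x (m : ℤ) =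
        ∑ n ∈ (Finset.range (⌊x⌋₊ + 1)).image (fun m => m + e), La x ((n : ℤ) - e) := by
      rw [Finset.sum_image (fun a _ b _ hab => by simpa using hab)]
      refine Finset.sum_congr rfl fun m _ => ?_
      congr 1
      push_cast
      ring
    rw [h2]
    refine Finset.sum_le_sum_of_subset_of_nonneg ?_ fun n _ _ => La_nonneg hx _
    intro n hn
    rw [Finset.mem_image] at hn
    obtain ⟨m, hm, rfl⟩ := hn
    rw [Finset.mem_range] at hm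
    unfold rgH
    rw [Finset.mem_range]
    have := hd.2
    omega
  calc (H : ℝ) * ∑ m ∈ Finset.range (⌊x⌋₊ + 1), La x (m : ℤ)
      = ∑ d ∈ Finset.Icc 1 (H : ℤ), ∑ m ∈ Finset.range (⌊x⌋₊ + 1), La x (m : ℤ) := by
        rw [Finset.sum_const, Int.card_Icc, nsmul_eq_mul]
        congr 2
        simp
    _ ≤ _ := Finset.sum_le_sum h1

lemma Bh_count {x : ℝ} (hx : 1 ≤ x) :
    Real.log x * (Nat.primeCounting ⌊x⌋₊ : ℝ) - Real.log x * (x ^ (1 / 4 : ℝ) + 1) ≤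
      ∑ m ∈ Finset.range (⌊x⌋₊ + 1), La x (m : ℤ) := by
  have hL : 0 ≤ Real.log x := Real.log_nonneg hx
  have hx0 : 0 ≤ x ^ (1 / 4 : ℝ) := by positivity
  have h1 : ∀ m ∈ Finset.range (⌊x⌋₊ + 1),
      (if m.Prime then Real.log x else 0) - (if (m : ℝ) ≤ x ^ (1 / 4 : ℝ) then Real.log x else 0) ≤
        La x (m : ℤ) := by
    intro m hm
    rw [Finset.mem_range] at hm
    have hmx : (m : ℝ) ≤ x := by
      have : m ≤ ⌊x⌋₊ := by omega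
      exact (Nat.le_floor_iff (by linarith)).1 this
    have h0 := La_nonneg hx (m : ℤ)
    by_cases h2 : m.Prime
    · by_cases h3 : (m : ℝ) ≤ x ^ (1 / 4 : ℝ)
      · rw [if_pos h2, if_pos h3, sub_self]
        exact h0
      · rw [if_pos h2, if_neg h3, sub_zero]
        unfold La
        rw [if_pos]
        refine ⟨?_, ?_, ?_⟩
        · unfold isP
          rw [Int.toNat_natCast]
          exact h2
        · push Not at h3
          exact_mod_cast h3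
        · exact_mod_cast hmx
    · rw [if_neg h2]
      split_ifs
      · linarith
      · linarith
  refine le_trans ?_ (Finset.sum_le_sum h1)
  rw [Finset.sum_sub_distrib, ← Finset.sum_filter, ← Finset.sum_filter, Finset.sum_const,
    Finset.sum_const, nsmul_eq_mul, nsmul_eq_mul]
  have h2 : ((Finset.filter (fun m => m.Prime) (Finset.range (⌊x⌋₊ + 1))).card : ℝ) =
      Nat.primeCounting ⌊x⌋₊ := by
    rw [Nat.primeCounting, Nat.primeCounting', Nat.count_eq_card_filter_range]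
  have h3 : ((Finset.filter (fun m : ℕ => (m : ℝ) ≤ x ^ (1 / 4 : ℝ))
      (Finset.range (⌊x⌋₊ + 1))).card : ℝ) ≤ x ^ (1 / 4 : ℝ) + 1 := by
    have h4 : Finset.filter (fun m : ℕ => (m : ℝ) ≤ x ^ (1 / 4 : ℝ))
        (Finset.range (⌊x⌋₊ + 1)) ⊆ Finset.range (⌊x ^ (1 / 4 : ℝ)⌋₊ + 1) := by
      intro m hm
      rw [Finset.mem_filter] at hm
      rw [Finset.mem_range]
      have := Nat.le_floor hm.2
      omega
    have h5 := Finset.card_le_card h4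
    rw [Finset.card_range] at h5
    have h6 : ((⌊x ^ (1 / 4 : ℝ)⌋₊ : ℕ) : ℝ) ≤ x ^ (1 / 4 : ℝ) := Nat.floor_le hx0
    have h7 : ((Finset.filter (fun m : ℕ => (m : ℝ) ≤ x ^ (1 / 4 : ℝ))
      (Finset.range (⌊x⌋₊ + 1))).card : ℝ) ≤ ((⌊x ^ (1 / 4 : ℝ)⌋₊ + 1 : ℕ) : ℝ) := by
      exact_mod_cast h5
    push_cast at h7
    linarith
  rw [h2]
  nlinarith [mul_le_mul_of_nonneg_right h3 hL]

/-- everything needed for large `x` -/
lemma Bh_large {δ : ℝ} (hδ : 0 < δ) (hδ1 : δ ≤ 1 / 100) : ∃ X : ℝ, ∀ x : ℝ, X ≤ x →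
    1 ≤ x ∧ 1 ≤ Real.log x ∧ 4 ≤ δ * Real.log x ∧
    (1 - δ) * ((⌊x⌋₊ : ℝ) + 1) ≤ ∑ m ∈ Finset.range (⌊x⌋₊ + 1), La x (m : ℤ) ∧
    Real.log x ^ 2 ≤ δ * ((⌊x⌋₊ : ℝ) + 1) ∧ 18 * Real.log x ^ 4 ≤ δ * ((⌊x⌋₊ : ℝ) + 1) := by
  have e1 : ∀ᶠ x : ℝ in Filter.atTop, (1 - δ / 4) <
      (Nat.primeCounting ⌊x⌋₊ : ℝ) * Real.log x / x :=
    pi_tendsto.eventually_const_lt (by linarith)
  have e2 : ∀ᶠ x : ℝ in Filter.atTop, Real.log x ≤ (δ / 8) * x ^ (3 / 4 : ℝ) := by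
    have h := (isLittleO_log_rpow_atTop (r := 3 / 4) (by norm_num)).def
      (c := δ / 8) (by positivity)
    filter_upwards [h, Filter.eventually_ge_atTop 1] with x hx hx1
    rw [Real.norm_of_nonneg (Real.log_nonneg hx1), Real.norm_of_nonneg (by positivity)] at hx
    exact hx
  have e3 : ∀ᶠ x : ℝ in Filter.atTop, Real.log x ^ 2 ≤ δ * x := by
    have h := (Real.isLittleO_pow_log_id_atTop (n := 2)).def (c := δ) hδ
    filter_upwards [h, Filter.eventually_ge_atTop 1] with x hx hx1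
    rw [Real.norm_of_nonneg (by have := Real.log_nonneg hx1; positivity), id,
      Real.norm_of_nonneg (by linarith)] at hx
    exact hx
  have e4 : ∀ᶠ x : ℝ in Filter.atTop, Real.log x ^ 4 ≤ (δ / 18) * x := by
    have h := (Real.isLittleO_pow_log_id_atTop (n := 4)).def (c := δ / 18) (by positivity)
    filter_upwards [h, Filter.eventually_ge_atTop 1] with x hx hx1
    rw [Real.norm_of_nonneg (by have := Real.log_nonneg hx1; positivity), id,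
      Real.norm_of_nonneg (by linarith)] at hx
    exact hx
  have e5 : ∀ᶠ x : ℝ in Filter.atTop, 1 + 4 / δ ≤ Real.log x :=
    Real.tendsto_log_atTop.eventually_ge_atTop _
  obtain ⟨X, hX⟩ := Filter.eventually_atTop.1 ((e1.and e2).and ((e3.and e4).and
    (e5.and ((Filter.eventually_ge_atTop (1 : ℝ)).and (Filter.eventually_ge_atTop (2 / δ))))))
  refine ⟨X, fun x hx => ?_⟩
  obtain ⟨⟨h1, h2⟩, ⟨h3, h4⟩, h5, h6, h7⟩ := hX x hx
  have hfl : (⌊x⌋₊ : ℝ) ≤ x := Nat.floor_le (by linarith)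
  have hfl2 : x < (⌊x⌋₊ : ℝ) + 1 := Nat.lt_floor_add_one x
  have hd : 0 < 4 / δ := by positivity
  have hL1 : 1 ≤ Real.log x := by linarith
  refine ⟨h6, hL1, ?_, ?_, ?_, ?_⟩
  · have h8 : 4 / δ ≤ Real.log x := by linarith
    rw [div_le_iff₀ hδ] at h8
    linarith
  · refine le_trans ?_ (Bh_count h6)
    have hx0 : 0 < x := by linarith
    rw [lt_div_iff₀ hx0] at h1
    have h8 : Real.log x * x ^ (1 / 4 : ℝ) ≤ (δ / 8) * x := by
      have h9 : x ^ (3 / 4 : ℝ) * x ^ (1 / 4 : ℝ) = x := by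
        rw [← Real.rpow_add hx0]
        norm_num
      calc Real.log x * x ^ (1 / 4 : ℝ) ≤ ((δ / 8) * x ^ (3 / 4 : ℝ)) * x ^ (1 / 4 : ℝ) := by
            gcongr
        _ = (δ / 8) * (x ^ (3 / 4 : ℝ) * x ^ (1 / 4 : ℝ)) := by ring
        _ = _ := by rw [h9]
    have h10 : Real.log x ≤ (δ / 8) * x := by
      refine h2.trans ?_
      have h11 : x ^ (3 / 4 : ℝ) ≤ x := by
        calc x ^ (3 / 4 : ℝ) ≤ x ^ (1 : ℝ) := Real.rpow_le_rpow_of_exponent_le h6 (by norm_num)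
          _ = x := Real.rpow_one x
      gcongr
    have h12 : (1 - δ) * ((⌊x⌋₊ : ℝ) + 1) ≤ (1 - δ) * (x + 1) := by
      gcongr
      linarith
    have h13 : 2 ≤ δ * x := by
      rw [div_le_iff₀ hδ] at h7
      linarith
    nlinarith
  · refine h3.trans ?_
    gcongr
  · have h8 : 18 * Real.log x ^ 4 ≤ δ * x := by linarith
    refine h8.trans ?_
    gcongr

theorem Bh (ε : ℝ) (hε : 0 < ε) : ∃ δ X : ℝ, 0 < δ ∧ ∀ x : ℝ, X ≤ x → ∀ H : ℕ, Real.log x ≤ (H : ℝ) →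
    (H : ℝ) ≤ (Real.log x) ^ 2 →
    ∑ n ∈ rgH x H, (nf (Finset.Icc 1 (H : ℤ)) (La x) (n : ℤ)) ^ 3 ≤ (1 + δ) * ((⌊x⌋₊ : ℝ) + 1) * (H : ℝ) ^ 3 →
    SW x H ε (Finset.Icc 1 (H : ℤ)) := by
  obtain ⟨ε', hε'⟩ : ∃ ε', ε' = min ε 1 := ⟨_, rfl⟩
  have hε'0 : 0 < ε' := by rw [hε']; exact lt_min hε one_pos
  have hε'1 : ε' ≤ 1 := by rw [hε']; exact min_le_right _ _
  have hε'2 : ε' ≤ ε := by rw [hε']; exact min_le_left _ _
  obtain ⟨δ, hδd⟩ : ∃ δ, δ = ε' / 100 := ⟨_, rfl⟩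
  have hδ : 0 < δ := by rw [hδd]; positivity
  have hδ1 : δ ≤ 1 / 100 := by rw [hδd]; linarith
  obtain ⟨X, hX⟩ := Bh_large hδ hδ1
  refine ⟨δ, X, hδ, fun x hx H hH1 hH2 h3 => ?_⟩
  obtain ⟨hx1, hL1, hL4, hcount, hLN, hL4N⟩ := hX x hx
  obtain ⟨hW1, hW2, hWL⟩ := Bh_W hL1
  obtain ⟨L, hL⟩ : ∃ L, L = Real.log x := ⟨_, rfl⟩
  obtain ⟨N, hN⟩ : ∃ N, N = (⌊x⌋₊ : ℝ) + 1 := ⟨_, rfl⟩
  obtain ⟨W, hW⟩ : ∃ W : ℝ, W = (WW (yy x) : ℝ) := ⟨_, rfl⟩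
  have hN0 : 0 < N := by rw [hN]; positivity
  have hmass := Bh_mass hx1 H
  rw [← hL] at hH1 hH2 hL1 hL4 hLN hL4N hW2 hWL
  rw [← hN] at h3 hcount hLN hL4N
  rw [← hW] at hW1 hW2 hWL
  have hH0 : (0 : ℝ) < H := by linarith
  obtain ⟨I, hI⟩ : ∃ I, I = Finset.Icc 1 (H : ℤ) := ⟨_, rfl⟩
  rw [← hI] at h3 hmass ⊢
  obtain ⟨t, ht⟩ : ∃ t : ℕ → ℝ, ∀ n, t n = nf I (La x) (n : ℤ) := ⟨fun n => _, fun n => rfl⟩
  simp only [← ht] at h3 hmass
  have ht0 : ∀ n, 0 ≤ t n := by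
    intro n
    rw [ht]
    exact nf_nonneg (fun m => La_nonneg hx1 m) _
  have htH : ∀ n, t n ≤ H * L := by
    intro n
    rw [ht, nf]
    calc ∑ d ∈ I, La x ((n : ℤ) - d) ≤ ∑ d ∈ I, L := by
          refine Finset.sum_le_sum fun d _ => ?_
          rw [hL]
          exact La_le hx1 _
      _ = H * L := by
          rw [Finset.sum_const, hI, Int.card_Icc, nsmul_eq_mul]
          congr 2
          simp
  have hcard : ((rgH x H).card : ℝ) ≤ (1 + δ) * N := by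
    unfold rgH
    rw [Finset.card_range]
    push_cast
    rw [← hN]
    have : (H : ℝ) ≤ δ * N := hH2.trans hLN
    linarith
  -- the second moment of t - H
  have hsq : ∑ n ∈ rgH x H, (t n - H) ^ 2 ≤ 3 * δ * N * (H : ℝ) ^ 2 := by
    have h5 : ∑ n ∈ rgH x H, 2 * (H : ℝ) * (t n - H) ^ 2 ≤
        ∑ n ∈ rgH x H, (t n ^ 3 - 3 * (H : ℝ) ^ 2 * t n + 2 * (H : ℝ) ^ 3) := by
      refine Finset.sum_le_sum fun n _ => ?_
      have h6 : t n ^ 3 - 3 * (H : ℝ) ^ 2 * t n + 2 * (H : ℝ) ^ 3 -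
          2 * (H : ℝ) * (t n - H) ^ 2 = t n * (t n - H) ^ 2 := by ring
      have h7 : 0 ≤ t n * (t n - H) ^ 2 := mul_nonneg (ht0 n) (sq_nonneg _)
      linarith
    rw [← Finset.mul_sum, Finset.sum_add_distrib, Finset.sum_sub_distrib, ← Finset.mul_sum,
      Finset.sum_const, nsmul_eq_mul] at h5
    have h8 : (H : ℝ) * ((1 - δ) * N) ≤ ∑ n ∈ rgH x H, t n :=
      le_trans (mul_le_mul_of_nonneg_left hcount hH0.le) hmass
    have h9 : ((rgH x H).card : ℝ) * (2 * (H : ℝ) ^ 3) ≤ (1 + δ) * N * (2 * (H : ℝ) ^ 3) := by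
      gcongr
    have h10 : 3 * (H : ℝ) ^ 2 * ((H : ℝ) * ((1 - δ) * N)) ≤
        3 * (H : ℝ) ^ 2 * ∑ n ∈ rgH x H, t n := by gcongr
    have h11 : 2 * (H : ℝ) * ∑ n ∈ rgH x H, (t n - H) ^ 2 ≤
        2 * (H : ℝ) * (3 * δ * N * (H : ℝ) ^ 2) := by
      refine h5.trans ?_
      nlinarith
    exact le_of_mul_le_mul_left h11 (by positivity)
  -- pointwise bound
  have hpt : ∀ n ∈ rgH x H, (nf I (fB x) (n : ℤ)) ^ 2 ≤ 2 * (t n - H) ^ 2 + 2 * W ^ 2 +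
      (if n < H ∨ ⌊x⌋₊ + 1 < n then 9 * (H : ℝ) ^ 2 * L ^ 2 else 0) := by
    intro n hn
    have h5 : nf I (fB x) (n : ℤ) = t n - nf I (Mi x) (n : ℤ) := by
      rw [ht, nf, nf, nf, ← Finset.sum_sub_distrib]
      rfl
    rw [h5]
    split_ifs with hc
    · obtain ⟨h6, h7⟩ := Mi_win_le x H I (by rw [hI]) (n : ℤ)
      rw [← hW] at h7
      have h8 : |t n - nf I (Mi x) (n : ℤ)| ≤ 3 * (H : ℝ) * L := by
        have h9 := ht0 n
        have h10 := htH n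
        have h11 : (H : ℝ) ≤ H * L := by nlinarith
        have h12 : W ≤ H * L := hWL.trans (by nlinarith)
        have h13 : 0 ≤ (H : ℝ) * L := by positivity
        rw [abs_le]
        constructor
        · linarith
        · linarith
      have h9 : (t n - nf I (Mi x) (n : ℤ)) ^ 2 ≤ (3 * (H : ℝ) * L) ^ 2 := by
        rw [← sq_abs]
        gcongr
      have h10 : 0 ≤ (t n - H) ^ 2 := sq_nonneg _
      have h11 : 0 ≤ W ^ 2 := sq_nonneg _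
      nlinarith
    · push Not at hc
      have h6 := Mi_win x H (n := (n : ℤ)) (by exact_mod_cast hc.1) (by exact_mod_cast hc.2)
      rw [← hW, ← hI] at h6
      have h7 : (nf I (Mi x) (n : ℤ) - H) ^ 2 ≤ W ^ 2 := by
        rw [← sq_abs]
        gcongr
      have h8 : t n - nf I (Mi x) (n : ℤ) = (t n - H) - (nf I (Mi x) (n : ℤ) - H) := by ring
      rw [h8]
      nlinarith [sq_nonneg ((t n - H) + (nf I (Mi x) (n : ℤ) - H))]
  unfold SW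
  rw [← hN]
  refine (Finset.sum_le_sum hpt).trans ?_
  rw [Finset.sum_add_distrib, Finset.sum_add_distrib, ← Finset.mul_sum, Finset.sum_const,
    nsmul_eq_mul, ← Finset.sum_filter, Finset.sum_const, nsmul_eq_mul]
  have hbad : (((rgH x H).filter (fun n => n < H ∨ ⌊x⌋₊ + 1 < n)).card : ℝ) ≤ 2 * H := by
    have h5 : (rgH x H).filter (fun n => n < H ∨ ⌊x⌋₊ + 1 < n) ⊆
        Finset.range H ∪ Finset.Ico (⌊x⌋₊ + 1) (⌊x⌋₊ + 1 + H) := by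
      intro n hn
      unfold rgH at hn
      rw [Finset.mem_filter, Finset.mem_range] at hn
      rw [Finset.mem_union, Finset.mem_range, Finset.mem_Ico]
      omega
    have h6 := (Finset.card_le_card h5).trans (Finset.card_union_le _ _)
    rw [Finset.card_range, Nat.card_Ico] at h6
    have h7 : ((rgH x H).filter (fun n => n < H ∨ ⌊x⌋₊ + 1 < n)).card ≤ 2 * H := by omega
    exact_mod_cast h7
  have h5 : (((rgH x H).filter (fun n => n < H ∨ ⌊x⌋₊ + 1 < n)).card : ℝ) *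
      (9 * (H : ℝ) ^ 2 * L ^ 2) ≤ δ * N * (H : ℝ) ^ 2 := by
    calc _ ≤ 2 * (H : ℝ) * (9 * (H : ℝ) ^ 2 * L ^ 2) := by gcongr
      _ ≤ 2 * L ^ 2 * (9 * (H : ℝ) ^ 2 * L ^ 2) := by gcongr
      _ = (18 * L ^ 4) * (H : ℝ) ^ 2 := by ring
      _ ≤ δ * N * (H : ℝ) ^ 2 := by gcongr
  have h6 : ((rgH x H).card : ℝ) * (2 * W ^ 2) ≤ δ * N * (H : ℝ) ^ 2 := by
    have h7 : 4 * L ≤ δ * (H : ℝ) ^ 2 := by
      have h8 : L ^ 2 ≤ (H : ℝ) ^ 2 := by gcongr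
      nlinarith
    calc ((rgH x H).card : ℝ) * (2 * W ^ 2) ≤ ((1 + δ) * N) * (2 * L) := by gcongr
      _ ≤ (2 * N) * (2 * L) := by
          gcongr
          linarith
      _ = N * (4 * L) := by ring
      _ ≤ N * (δ * (H : ℝ) ^ 2) := by gcongr
      _ = δ * N * (H : ℝ) ^ 2 := by ring
  have h7 : 8 * δ * N * (H : ℝ) ^ 2 ≤ ε * N * (H : ℝ) ^ 2 := by
    gcongr
    rw [hδd]
    linarith
  linarith

end Pool.Agent.H12.DM
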