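import Pool.Agent.H12.DM.Bd
import Pool.Agent.H6.MB.MAJ
import Pool.Agent.H6.MF.SNG

/-!
# Bs: the truncated singular series `sW`

`c_p = (1 - 1/p)⁻¹`, `S = (range (yy x + 1)).filter Nat.Prime = PP (yy x)`, `WW (yy x) = ∏ p ∈ S, p`.

* `sW_eq`: `Mm w n = ∏_{p ∈ S} (if p ∣ n then 0 else c_p)` (`wp w = ∏ c_p`: `totient_WW`, `WW`; `Int.gcd n (WW w) = 1` iff no `p ∈ S` divides `n`: `coprime_WW`). So
  `∏_{h∈s} Mm w (m-h) = ∏_{p∈S} g_p m`, `g_p m = ∏_{h∈s} (if p ∣ m - h then 0 else c_p) = c_p^{|s|} * (if ∃ a ∈ s.image Neg.neg, p ∣ m + a then 0 else 1)`. `BLK_avg_prod` and `BLK_avg0`: the average is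
  `∏_p c_p^{|s|} (1 - hit_p/p)` and `hit_p`, the number of `m < p` with `p ∣ m - h` for some `h ∈ s`, is `nuH s p` (`m = h % p`). This is `loc s p`.
* `loc_up`: if `s` is nonempty with `|s| ≤ 3`, `p` prime: `nuH s p ≥ 1` so `loc s p ≤ (1 - 1/p)^{1-|s|} ≤ (1-1/p)^{-2} ≤ 1 + 14/p` (`(1+14u)(1-u)^2 ≥ 1` for `0 ≤ u ≤ 1/2`), and if
  `nuH s p = |s|` then `loc s p ≤ 1` (`loc_le_one`). `nuH s p ≠ |s|` iff `p` divides a difference of two distinct elements of `s`.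
* `sW_le2`, `sW_le3`: `sW_eq`, `loc_up`: the product over the `p ∈ S` dividing a difference of `1 + 14/p` is at most the product over the (one resp. three) differences `δ` of
  `gf 1 δ` (every prime is `> 1`; all factors are `≥ 1`).
* `cmp2`, `cmp3` (`k = 2, 3`; `w = yy x ≥ 2k`): lower bound: `SNG_gen` with `y = w`, `S`: `(1 - k^2/w) * sW ≤ sing`. Upper bound: `sing_le_prod` with `S ∪ {p : p ∣ some difference}`: `sing ≤ sW * ∏_{p > w, p ∣ some difference} loc s p`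
  `≤ sW * (product of the gf y δ)` as `y ≤ w`. So `|sing - sW| ≤ sW * (k^2/w + (∏ gf y δ - 1))`, and `sW_le2`, `sW_le3`.
* `sW_tr`, `sW_neg`: the average over a full period is invariant under `m ↦ m - r` and `m ↦ -m` (`Mm (-n) = Mm n`); or use `sW_eq` (`nuH` is invariant).
-/

set_option autoImplicit false

namespace Pool.Agent.H12.DM

open Finset Pool.Agent.H17 Pool.Agent.H6.MF Pool.Agent.H6.MB

/-- the local factor of the bounds -/
noncomputable def Bs_e (p : ℕ) (δ : ℤ) : ℝ := if (p : ℤ) ∣ δ then 1 + 14 / (p : ℝ) else 1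

theorem Bs_e_one (p : ℕ) (δ : ℤ) : 1 ≤ Bs_e p δ := by
  unfold Bs_e
  split_ifs
  · have : (0 : ℝ) ≤ 14 / p := by positivity
    linarith
  · exact le_rfl

theorem Bs_gcd (y : ℕ) (n : ℤ) : Int.gcd n (WW y : ℤ) = 1 ↔ ∀ p ∈ PP y, ¬ (p : ℤ) ∣ n := by
  have h1 : Int.gcd n (WW y : ℤ) = Nat.gcd n.natAbs (WW y) := by
    rw [Int.gcd_def, Int.natAbs_natCast]
  rw [h1]
  have h2 := coprime_WW (n := n.natAbs) (y := y)
  unfold Nat.Coprime at h2
  rw [h2]
  constructor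
  · intro h p hp hd
    exact h p hp (Int.natCast_dvd.1 hd)
  · intro h p hp hd
    exact h p hp (Int.natCast_dvd.2 hd)

theorem Bs_wp (y : ℕ) : wp y = ∏ p ∈ PP y, (1 - 1 / (p : ℝ))⁻¹ := by
  unfold wp
  rw [totient_WW]
  unfold WW
  rw [Nat.cast_prod, ← Finset.prod_div_distrib]
  apply Finset.prod_congr rfl
  intro p hp
  have hpp := (mem_PP.mp hp).2
  have h0 : (p : ℝ) ≠ 0 := by exact_mod_cast hpp.ne_zero
  have h1 : (1 : ℝ) < p := by exact_mod_cast hpp.one_lt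
  have h2 : (p : ℝ) - 1 ≠ 0 := by linarith
  have h3 : 1 - 1 / (p : ℝ) = (p - 1) / p := by field_simp
  rw [h3, inv_div]

theorem Bs_Mm (y : ℕ) (n : ℤ) :
    Mm y n = ∏ p ∈ PP y, (if (p : ℤ) ∣ n then 0 else (1 - 1 / (p : ℝ))⁻¹) := by
  unfold Mm
  by_cases h : Int.gcd n (WW y : ℤ) = 1
  · rw [if_pos h, Bs_wp]
    rw [Bs_gcd] at h
    apply Finset.prod_congr rfl
    intro p hp
    rw [if_neg (h p hp)]
  · rw [if_neg h]
    rw [Bs_gcd] at h
    push Not at h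
    obtain ⟨p, hp, hd⟩ := h
    symm
    apply Finset.prod_eq_zero hp
    rw [if_pos hd]

theorem Bs_hit {p : ℕ} (hp : 0 < p) (s : Finset ℤ) :
    ((Finset.range p).filter (fun m : ℕ => ∃ a ∈ s.image Neg.neg, (p : ℤ) ∣ (m : ℤ) + a)).card
      = nuH s p := by
  unfold nuH
  have hp0 : (p : ℤ) ≠ 0 := by exact_mod_cast hp.ne'
  have hpp : (0 : ℤ) < p := by exact_mod_cast hp
  have h1 : s.image (fun h => h % (p : ℤ)) =
      ((Finset.range p).filter (fun m : ℕ => ∃ a ∈ s.image Neg.neg, (p : ℤ) ∣ (m : ℤ) + a)).image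
        (fun m : ℕ => (m : ℤ)) := by
    ext c
    rw [Finset.mem_image, Finset.mem_image]
    constructor
    · rintro ⟨h, hh, rfl⟩
      have h0 := Int.emod_nonneg h hp0
      have h2 := Int.emod_lt_of_pos h hpp
      refine ⟨(h % (p : ℤ)).toNat, ?_, Int.toNat_of_nonneg h0⟩
      rw [Finset.mem_filter, Finset.mem_range]
      refine ⟨by omega, -h, Finset.mem_image_of_mem _ hh, ?_⟩
      rw [Int.toNat_of_nonneg h0]
      have h3 : h % (p : ℤ) + -h = -((p : ℤ) * (h / p)) := by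
        have := Int.emod_add_mul_ediv h p
        linarith
      rw [h3]
      exact (dvd_mul_right _ _).neg_right
    · rintro ⟨m, hm, rfl⟩
      rw [Finset.mem_filter, Finset.mem_range] at hm
      obtain ⟨hm, a, ha, hd⟩ := hm
      rw [Finset.mem_image] at ha
      obtain ⟨h, hh, rfl⟩ := ha
      refine ⟨h, hh, ?_⟩
      have h2 : (m : ℤ) % p = h % p := by
        have h3 : (h : ℤ) ≡ m [ZMOD p] := by
          rw [Int.modEq_iff_dvd]
          exact hd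
        exact h3.symm
      rw [← h2, Int.emod_eq_of_lt (Int.natCast_nonneg m) (by exact_mod_cast hm)]
  rw [h1, Finset.card_image_of_injective _ Nat.cast_injective]

theorem Bs_avg {p : ℕ} (hp : p.Prime) (s : Finset ℤ) :
    avgP p (fun n => ∏ h ∈ s, (if (p : ℤ) ∣ n - h then 0 else (1 - 1 / (p : ℝ))⁻¹)) = loc s p := by
  have h1 : (fun n : ℤ => ∏ h ∈ s, (if (p : ℤ) ∣ n - h then 0 else (1 - 1 / (p : ℝ))⁻¹)) =
      fun n => ((1 - 1 / (p : ℝ))⁻¹) ^ s.card *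
        (if ∃ a ∈ s.image Neg.neg, (p : ℤ) ∣ n + a then (0 : ℝ) else 1) := by
    funext n
    by_cases h : ∃ a ∈ s.image Neg.neg, (p : ℤ) ∣ n + a
    · rw [if_pos h, mul_zero]
      obtain ⟨a, ha, hd⟩ := h
      rw [Finset.mem_image] at ha
      obtain ⟨b, hb, rfl⟩ := ha
      exact Finset.prod_eq_zero hb (if_pos hd)
    · rw [if_neg h, mul_one, ← Finset.prod_const]
      apply Finset.prod_congr rfl
      intro b hb
      rw [if_neg]
      intro hd
      exact h ⟨-b, Finset.mem_image_of_mem _ hb, hd⟩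
  rw [h1, BLK_smul, BLK_avg0 hp.pos, Bs_hit hp.pos]
  unfold loc
  rw [inv_pow, mul_comm]
  exact (div_eq_mul_inv _ _).symm

theorem sW_eq (x : ℝ) (s : Finset ℤ) :
    sW x s = ∏ p ∈ (Finset.range (yy x + 1)).filter Nat.Prime, loc s p := by
  have hPP : (Finset.range (yy x + 1)).filter Nat.Prime = PP (yy x) := rfl
  rw [hPP]
  unfold sW
  have h1 : (fun m : ℤ => ∏ h ∈ s, Mm (yy x) (m - h)) = fun m : ℤ => ∏ p ∈ PP (yy x),
      (fun (p : ℕ) (n : ℤ) => ∏ h ∈ s, (if (p : ℤ) ∣ n - h then 0 else (1 - 1 / (p : ℝ))⁻¹)) p m := by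
    funext m
    rw [Finset.prod_congr rfl (fun h _ => Bs_Mm (yy x) (m - h)), Finset.prod_comm]
  rw [h1]
  unfold WW
  rw [BLK_avg_prod (PP (yy x)) (fun p hp => (mem_PP.mp hp).2)]
  · apply Finset.prod_congr rfl
    intro p hp
    exact Bs_avg (mem_PP.mp hp).2 s
  · intro p _ n k
    apply Finset.prod_congr rfl
    intro h _
    have h2 : (p : ℤ) ∣ n + k * p - h ↔ (p : ℤ) ∣ n - h := by
      have h3 : n + k * (p : ℤ) - h = (n - h) + k * p := by ring
      rw [h3]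
      exact (Int.dvd_add_left (dvd_mul_left _ _))
    simp only [h2]

theorem Bs_loc {s : Finset ℤ} (hs : 1 ≤ s.card) (hs3 : s.card ≤ 3) {p : ℕ} (hp : p.Prime) :
    loc s p ≤ 1 + 14 / (p : ℝ) := by
  have hnu : 1 ≤ nuH s p := by
    unfold nuH
    rw [Nat.one_le_iff_ne_zero, Finset.card_ne_zero]
    exact (Finset.card_pos.1 hs).image _
  have hp2 : (2 : ℝ) ≤ p := by exact_mod_cast hp.two_le
  have hp0 : (0 : ℝ) < p := by linarith
  obtain ⟨u, hu⟩ : ∃ u : ℝ, u = 1 / (p : ℝ) := ⟨_, rfl⟩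
  have hu0 : 0 < u := by rw [hu]; positivity
  have hu1 : u ≤ 1 / 2 := by
    rw [hu]
    exact one_div_le_one_div_of_le (by norm_num) hp2
  have h14 : (14 : ℝ) / p = 14 * u := by rw [hu]; ring
  have hnum : 1 - (nuH s p : ℝ) / p ≤ 1 - u := by
    have h1 : (1 : ℝ) ≤ nuH s p := by exact_mod_cast hnu
    have h2 : (1 : ℝ) / p ≤ (nuH s p : ℝ) / p := div_le_div_of_nonneg_right h1 hp0.le
    rw [← hu] at h2
    linarith
  unfold loc
  rw [h14, ← hu]
  have ht : 0 < 1 - u := by linarith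
  have hkey : 1 ≤ (1 + 14 * u) * (1 - u) ^ 2 := by
    nlinarith [mul_pos hu0 hu0, mul_nonneg hu0.le (by linarith : (0 : ℝ) ≤ 1 / 2 - u),
      mul_nonneg (mul_pos hu0 hu0).le (by linarith : (0 : ℝ) ≤ 1 / 2 - u)]
  rw [div_le_iff₀ (pow_pos ht _)]
  refine hnum.trans ?_
  have hc : s.card = 1 ∨ s.card = 2 ∨ s.card = 3 := by omega
  have h14n : 0 ≤ 14 * u := by positivity
  rcases hc with hc | hc | hc
  · rw [hc, pow_one]
    nlinarith [mul_nonneg h14n ht.le]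
  · rw [hc]
    have h1 : (1 - u) ^ 2 * (1 + 14 * u) = (1 - u) * ((1 - u) * (1 + 14 * u)) := by ring
    have h2 : 1 ≤ (1 - u) * (1 + 14 * u) := by
      have h3 : (1 + 14 * u) * (1 - u) ^ 2 ≤ (1 - u) * (1 + 14 * u) := by
        have h4 : (1 + 14 * u) * (1 - u) ^ 2 = (1 - u) * ((1 - u) * (1 + 14 * u)) := by ring
        rw [h4]
        exact mul_le_of_le_one_left (by positivity) (by linarith)
      linarith
    calc 1 - u = (1 - u) * 1 := (mul_one _).symm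
      _ ≤ (1 - u) * ((1 - u) * (1 + 14 * u)) := mul_le_mul_of_nonneg_left h2 ht.le
      _ = (1 + 14 * u) * (1 - u) ^ 2 := by ring
  · rw [hc]
    calc 1 - u = (1 - u) * 1 := (mul_one _).symm
      _ ≤ (1 - u) * ((1 + 14 * u) * (1 - u) ^ 2) := mul_le_mul_of_nonneg_left hkey ht.le
      _ = (1 + 14 * u) * (1 - u) ^ 3 := by ring

theorem Bs_nu {s : Finset ℤ} {p : ℕ} (h : nuH s p ≠ s.card) :
    ∃ a ∈ s, ∃ b ∈ s, a ≠ b ∧ (p : ℤ) ∣ a - b := by
  by_contra hcon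
  push Not at hcon
  apply h
  unfold nuH
  apply Finset.card_image_of_injOn
  intro a ha b hb hab
  by_contra hne
  refine hcon a ha b hb hne ?_
  have h1 : (b : ℤ) ≡ a [ZMOD p] := hab.symm
  exact Int.ModEq.dvd h1

theorem Bs_prod_gf (y : ℕ) {δ : ℤ} (hδ : δ ≠ 0) (S : Finset ℕ)
    (hS : ∀ p ∈ S, p.Prime ∧ y < p) : ∏ p ∈ S, Bs_e p δ ≤ gf y δ := by
  have h1 : ∏ p ∈ S, Bs_e p δ = ∏ p ∈ S.filter (fun p : ℕ => (p : ℤ) ∣ δ), (1 + 14 / (p : ℝ)) := by
    rw [Finset.prod_filter]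
    rfl
  rw [h1]
  unfold gf
  have hsub : S.filter (fun p : ℕ => (p : ℤ) ∣ δ) ⊆ δ.natAbs.primeFactors.filter (fun p => y < p) := by
    intro p hp
    rw [Finset.mem_filter] at hp
    rw [Finset.mem_filter, Nat.mem_primeFactors]
    obtain ⟨h2, h3⟩ := hS p hp.1
    exact ⟨⟨h2, Int.natCast_dvd.1 hp.2, Int.natAbs_ne_zero.2 hδ⟩, h3⟩
  rw [← Finset.prod_sdiff hsub]
  refine le_mul_of_one_le_left (Finset.prod_nonneg fun p _ => by positivity) ?_
  refine Finset.one_le_prod fun p _ => ?_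
  have : (0 : ℝ) ≤ 14 / p := by positivity
  linarith

theorem Bs_card2 {d : ℤ} (hd : d ≠ 0) : ({0, d} : Finset ℤ).card = 2 :=
  Finset.card_pair (fun h => hd h.symm)

theorem Bs_card3 {d' d : ℤ} (hd' : d' ≠ 0) (hd : d ≠ 0) (h : d' ≠ d) :
    ({0, d', d} : Finset ℤ).card = 3 :=
  Finset.card_eq_three.2 ⟨0, d', d, fun h1 => hd' h1.symm, fun h1 => hd h1.symm, h, rfl⟩

theorem Bs_nu2 {d : ℤ} {p : ℕ} (h : nuH {0, d} p ≠ ({0, d} : Finset ℤ).card) :
    (p : ℤ) ∣ d := by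
  obtain ⟨a, ha, b, hb, hab, hdv⟩ := Bs_nu h
  simp only [Finset.mem_insert, Finset.mem_singleton] at ha hb
  rcases ha with rfl | rfl
  · rcases hb with rfl | rfl
    · exact absurd rfl hab
    · rw [zero_sub] at hdv
      exact (dvd_neg).1 hdv
  · rcases hb with rfl | rfl
    · rw [sub_zero] at hdv
      exact hdv
    · exact absurd rfl hab

theorem Bs_nu3 {d' d : ℤ} {p : ℕ} (h : nuH {0, d', d} p ≠ ({0, d', d} : Finset ℤ).card) :
    (p : ℤ) ∣ d' ∨ (p : ℤ) ∣ d ∨ (p : ℤ) ∣ d' - d := by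
  obtain ⟨a, ha, b, hb, hab, hdv⟩ := Bs_nu h
  simp only [Finset.mem_insert, Finset.mem_singleton] at ha hb
  rcases ha with rfl | rfl | rfl
  · rcases hb with rfl | rfl | rfl
    · exact absurd rfl hab
    · rw [zero_sub] at hdv
      exact Or.inl ((dvd_neg).1 hdv)
    · rw [zero_sub] at hdv
      exact Or.inr (Or.inl ((dvd_neg).1 hdv))
  · rcases hb with rfl | rfl | rfl
    · rw [sub_zero] at hdv
      exact Or.inl hdv
    · exact absurd rfl hab
    · exact Or.inr (Or.inr hdv)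
  · rcases hb with rfl | rfl | rfl
    · rw [sub_zero] at hdv
      exact Or.inr (Or.inl hdv)
    · refine Or.inr (Or.inr ?_)
      rw [← neg_sub]
      exact (dvd_neg).2 hdv
    · exact absurd rfl hab

theorem Bs_loc2 {d : ℤ} (hd : d ≠ 0) {p : ℕ} (hp : p.Prime) : loc {0, d} p ≤ Bs_e p d := by
  by_cases h : nuH {0, d} p = ({0, d} : Finset ℤ).card
  · exact (loc_le_one hp h).trans (Bs_e_one p d)
  · have h1 := Bs_nu2 h
    unfold Bs_e
    rw [if_pos h1]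
    exact Bs_loc (by rw [Bs_card2 hd]; norm_num) (by rw [Bs_card2 hd]; norm_num) hp

theorem Bs_loc3 {d' d : ℤ} (hd' : d' ≠ 0) (hd : d ≠ 0) (h : d' ≠ d) {p : ℕ} (hp : p.Prime) :
    loc {0, d', d} p ≤ Bs_e p d' * Bs_e p d * Bs_e p (d' - d) := by
  have e1 := Bs_e_one p d'
  have e2 := Bs_e_one p d
  have e3 := Bs_e_one p (d' - d)
  have e12 := one_le_mul_of_one_le_of_one_le e1 e2
  by_cases hn : nuH {0, d', d} p = ({0, d', d} : Finset ℤ).card
  · exact (loc_le_one hp hn).trans (one_le_mul_of_one_le_of_one_le e12 e3)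
  · have h0 := Bs_loc (s := {0, d', d}) (by rw [Bs_card3 hd' hd h]; norm_num)
      (by rw [Bs_card3 hd' hd h]) hp
    refine h0.trans ?_
    rcases Bs_nu3 hn with h1 | h1 | h1
    · have h2 : 1 + 14 / (p : ℝ) = Bs_e p d' := by
        unfold Bs_e
        rw [if_pos h1]
      rw [h2, mul_assoc]
      exact le_mul_of_one_le_right (by linarith) (one_le_mul_of_one_le_of_one_le e2 e3)
    · have h2 : 1 + 14 / (p : ℝ) = Bs_e p d := by
        unfold Bs_e
        rw [if_pos h1]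
      rw [h2, mul_comm (Bs_e p d') (Bs_e p d), mul_assoc]
      exact le_mul_of_one_le_right (by linarith) (one_le_mul_of_one_le_of_one_le e1 e3)
    · have h2 : 1 + 14 / (p : ℝ) = Bs_e p (d' - d) := by
        unfold Bs_e
        rw [if_pos h1]
      rw [h2]
      exact le_mul_of_one_le_left (by linarith) e12

theorem Bs_pr2 {y : ℕ} {d : ℤ} (hd : d ≠ 0) (S : Finset ℕ) (hS : ∀ p ∈ S, p.Prime ∧ y < p) :
    ∏ p ∈ S, loc {0, d} p ≤ gf y d :=
  (Finset.prod_le_prod (fun p hp => loc_nonneg _ (hS p hp).1)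
    (fun p hp => Bs_loc2 hd (hS p hp).1)).trans (Bs_prod_gf y hd S hS)

theorem Bs_pr3 {y : ℕ} {d' d : ℤ} (hd' : d' ≠ 0) (hd : d ≠ 0) (h : d' ≠ d) (S : Finset ℕ)
    (hS : ∀ p ∈ S, p.Prime ∧ y < p) :
    ∏ p ∈ S, loc {0, d', d} p ≤ gf y d' * gf y d * gf y (d' - d) := by
  refine (Finset.prod_le_prod (fun p hp => loc_nonneg _ (hS p hp).1)
    (fun p hp => Bs_loc3 hd' hd h (hS p hp).1)).trans ?_
  rw [Finset.prod_mul_distrib, Finset.prod_mul_distrib]
  have n : ∀ δ, 0 ≤ ∏ p ∈ S, Bs_e p δ := fun δ =>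
    Finset.prod_nonneg fun p _ => zero_le_one.trans (Bs_e_one p δ)
  have g : ∀ δ, 0 ≤ gf y δ := fun δ => zero_le_one.trans (one_le_gf y δ)
  exact mul_le_mul (mul_le_mul (Bs_prod_gf y hd' S hS) (Bs_prod_gf y hd S hS) (n _) (g _))
    (Bs_prod_gf y (sub_ne_zero.2 h) S hS) (n _) (mul_nonneg (g _) (g _))

theorem sW_le2 (x : ℝ) {d : ℤ} (hd : d ≠ 0) : sW x {0, d} ≤ gf 1 d := by
  rw [sW_eq]
  apply Bs_pr2 hd
  intro p hp
  rw [Finset.mem_filter] at hp
  exact ⟨hp.2, hp.2.one_lt⟩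

theorem sW_le3 (x : ℝ) {d' d : ℤ} (hd' : d' ≠ 0) (hd : d ≠ 0) (h : d' ≠ d) :
    sW x {0, d', d} ≤ gf 1 d' * gf 1 d * gf 1 (d' - d) := by
  rw [sW_eq]
  apply Bs_pr3 hd' hd h
  intro p hp
  rw [Finset.mem_filter] at hp
  exact ⟨hp.2, hp.2.one_lt⟩

theorem Bs_cmp {x : ℝ} {s : Finset ℤ} (hs3 : s.card ≤ 3) (hx : 6 ≤ yy x)
    (D : Finset ℕ) (hD : ∀ p ∈ D, p.Prime)
    (h2 : ∀ p : ℕ, p.Prime → nuH s p ≠ s.card → p ∈ D) {B1 By : ℝ} (hB1 : sW x s ≤ B1)
    (hBy : ∏ p ∈ D.filter (fun p => yy x < p), loc s p ≤ By) (hBy1 : 1 ≤ By) :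
    |sing s - sW x s| ≤ B1 * (9 / (yy x : ℝ) + (By - 1)) := by
  have hw : (0 : ℝ) < yy x := by
    have : 0 < yy x := by omega
    exact_mod_cast this
  have hs0 := sW_nonneg x s
  have hlow := SNG_gen s (yy x) (by omega) (by omega) ((Finset.range (yy x + 1)).filter Nat.Prime)
    (fun p hp => (Finset.mem_filter.1 hp).2) (fun p hp hle => by
      rw [Finset.mem_filter, Finset.mem_range]
      exact ⟨by omega, hp⟩)
  rw [← sW_eq] at hlow
  have hup := sing_le_prod s (((Finset.range (yy x + 1)).filter Nat.Prime) ∪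
    D.filter (fun p => yy x < p)) (fun p hp => by
      rw [Finset.mem_union, Finset.mem_filter, Finset.mem_filter] at hp
      rcases hp with hp | hp
      · exact hp.2
      · exact hD p hp.1) (fun p hp hn => by
      rw [Finset.mem_union, Finset.mem_filter, Finset.mem_filter, Finset.mem_range]
      by_cases hle : p ≤ yy x
      · exact Or.inl ⟨by omega, hp⟩
      · exact Or.inr ⟨h2 p hp hn, by omega⟩)
  rw [Finset.prod_union (by
    rw [Finset.disjoint_left]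
    intro p hp hp'
    rw [Finset.mem_filter, Finset.mem_range] at hp
    rw [Finset.mem_filter] at hp'
    omega), ← sW_eq] at hup
  have hup2 : sing s ≤ sW x s * By := hup.trans (mul_le_mul_of_nonneg_left hBy hs0)
  have hk : (s.card : ℝ) ^ 2 ≤ 9 := by
    have h3 : (s.card : ℝ) ≤ 3 := by exact_mod_cast hs3
    have h4 : (0 : ℝ) ≤ s.card := by positivity
    nlinarith
  have hk2 : (s.card : ℝ) ^ 2 / (yy x : ℝ) ≤ 9 / (yy x : ℝ) := div_le_div_of_nonneg_right hk hw.le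
  have h9 : (0 : ℝ) ≤ 9 / (yy x : ℝ) := by positivity
  have hB0 : 0 ≤ B1 := hs0.trans hB1
  rw [abs_le]
  constructor
  · have h5 : sW x s * ((s.card : ℝ) ^ 2 / (yy x : ℝ)) ≤ B1 * (9 / (yy x : ℝ)) :=
      mul_le_mul hB1 hk2 (by positivity) hB0
    have h6 : 0 ≤ B1 * (By - 1) := mul_nonneg hB0 (by linarith)
    nlinarith
  · have h5 : sW x s * (By - 1) ≤ B1 * (By - 1) := mul_le_mul_of_nonneg_right hB1 (by linarith)
    have h6 : 0 ≤ B1 * (9 / (yy x : ℝ)) := mul_nonneg hB0 h9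
    nlinarith

theorem cmp2 {x : ℝ} {y : ℕ} (hy : y ≤ yy x) (hx : 6 ≤ yy x) {d : ℤ} (hd : d ≠ 0) :
    |sing {0, d} - sW x {0, d}| ≤ gf 1 d * (9 / (yy x : ℝ) + (gf y d - 1)) := by
  refine Bs_cmp (by rw [Bs_card2 hd]; norm_num) hx d.natAbs.primeFactors
    (fun p hp => Nat.prime_of_mem_primeFactors hp) (fun p hp hn => ?_) (sW_le2 x hd)
    (Bs_pr2 hd _ (fun p hp => ?_)) (one_le_gf y d)
  · rw [Nat.mem_primeFactors]
    exact ⟨hp, Int.natCast_dvd.1 (Bs_nu2 hn), Int.natAbs_ne_zero.2 hd⟩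
  · rw [Finset.mem_filter] at hp
    exact ⟨Nat.prime_of_mem_primeFactors hp.1, by omega⟩

theorem cmp3 {x : ℝ} {y : ℕ} (hy : y ≤ yy x) (hx : 6 ≤ yy x) {d' d : ℤ} (hd' : d' ≠ 0) (hd : d ≠ 0) (h : d' ≠ d) :
    |sing {0, d', d} - sW x {0, d', d}|
      ≤ gf 1 d' * gf 1 d * gf 1 (d' - d) * (9 / (yy x : ℝ) + (gf y d' * gf y d * gf y (d' - d) - 1)) := by
  have hpr : ∀ p ∈ d'.natAbs.primeFactors ∪ d.natAbs.primeFactors ∪ (d' - d).natAbs.primeFactors,
      p.Prime := by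
    intro p hp
    rw [Finset.mem_union, Finset.mem_union] at hp
    rcases hp with (hp | hp) | hp
    · exact Nat.prime_of_mem_primeFactors hp
    · exact Nat.prime_of_mem_primeFactors hp
    · exact Nat.prime_of_mem_primeFactors hp
  refine Bs_cmp (by rw [Bs_card3 hd' hd h]) hx
    (d'.natAbs.primeFactors ∪ d.natAbs.primeFactors ∪ (d' - d).natAbs.primeFactors)
    hpr (fun p hp hn => ?_) (sW_le3 x hd' hd h)
    (Bs_pr3 hd' hd h _ (fun p hp => ?_)) ?_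
  · rw [Finset.mem_union, Finset.mem_union, Nat.mem_primeFactors, Nat.mem_primeFactors,
      Nat.mem_primeFactors]
    rcases Bs_nu3 hn with h1 | h1 | h1
    · exact Or.inl (Or.inl ⟨hp, Int.natCast_dvd.1 h1, Int.natAbs_ne_zero.2 hd'⟩)
    · exact Or.inl (Or.inr ⟨hp, Int.natCast_dvd.1 h1, Int.natAbs_ne_zero.2 hd⟩)
    · exact Or.inr ⟨hp, Int.natCast_dvd.1 h1, Int.natAbs_ne_zero.2 (sub_ne_zero.2 h)⟩
  · rw [Finset.mem_filter] at hp
    exact ⟨hpr p hp.1, by omega⟩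
  · exact one_le_mul_of_one_le_of_one_le
      (one_le_mul_of_one_le_of_one_le (one_le_gf _ _) (one_le_gf _ _)) (one_le_gf _ _)

theorem sW_tr (x : ℝ) (s : Finset ℤ) (r : ℤ) : sW x (tr s r) = sW x s := by
  rw [sW_eq, sW_eq]
  apply Finset.prod_congr rfl
  intro p _
  unfold loc
  rw [nuH_tr, card_tr]

theorem sW_neg (x : ℝ) (e : ℤ) : sW x {0, -e} = sW x {0, e} := by
  have h : tr {0, -e} e = ({0, e} : Finset ℤ) := by
    unfold tr
    rw [Finset.image_insert, Finset.image_singleton, zero_add, neg_add_cancel, Finset.pair_comm]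
  rw [← sW_tr x {0, -e} e, h]

end Pool.Agent.H12.DM
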