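import Pool.Agent.H12.DM.Bd

/-!
# Bn: small windows in `L¹` at a scale are small at every larger scale

For `D ⊆ Icc 1 H₂` and `k < m`, `m = ⌈H₂/H₁⌉` (`m H₁ ≥ H₂`, `m H₁ ≤ H₂ + H₁ ≤ 2 H₂`) let `D_k = D ∩ Ioc (k H₁) ((k+1) H₁)` and `E_k = D_k - k H₁ ⊆ Icc 1 H₁`. Then
`nf D f n = ∑_{k<m} nf D_k f n = ∑_{k<m} nf E_k f (n - k H₁)`. `f = fB x` vanishes outside `[0,N)` (`fB_out`), so `nf E_k f` vanishes outside `[1, N + H₁)` and `∑_{n ∈ rgH x H₂} |nf E_k f (n - k H₁)| ≤ ∑_{n ∈ rgH x H₁} |nf E_k f n| ≤ δ N H₁`.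
Sum over `k < m`: `≤ m H₁ δ N ≤ 2 δ N H₂` (`δ ≥ 0` by the hypothesis for `D = ∅`, `H₁ ≥ 1`).
-/

set_option autoImplicit false

namespace Pool.Agent.H12.DM

open Finset Pool.Agent.H17 Pool.Agent.H6.MF Pool.Agent.H6.MB

/-- translates -/
lemma Bn_shift (G : ℤ → ℝ) (hG : ∀ n, 0 ≤ G n) (M R s : ℕ) (h0 : ∀ n : ℤ, n < 0 ∨ (M : ℤ) ≤ n → G n = 0) :
    ∑ n ∈ Finset.range R, G ((n : ℤ) - s) ≤ ∑ n ∈ Finset.range M, G (n : ℤ) := by
  classical
  have h1 : ∑ n ∈ Finset.range R, G ((n : ℤ) - s) =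
      ∑ n ∈ (Finset.range R).filter (fun n : ℕ => s ≤ n ∧ n < s + M), G ((n : ℤ) - s) := by
    symm
    apply Finset.sum_subset (Finset.filter_subset _ _)
    intro n hn hn'
    rw [Finset.mem_filter] at hn'
    apply h0
    by_contra hcon
    push Not at hcon
    exact hn' ⟨hn, by omega, by omega⟩
  have h2 : ∑ n ∈ (Finset.range R).filter (fun n : ℕ => s ≤ n ∧ n < s + M), G ((n : ℤ) - s) =
      ∑ n ∈ ((Finset.range R).filter (fun n : ℕ => s ≤ n ∧ n < s + M)).image (fun n => n - s), G (n : ℤ) := by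
    rw [Finset.sum_image]
    · refine Finset.sum_congr rfl fun n hn => ?_
      rw [Finset.mem_filter] at hn
      congr 1
      push_cast [hn.2.1]
      ring
    · intro a ha b hb hab
      rw [Finset.mem_coe, Finset.mem_filter] at ha hb
      have hab' : a - s = b - s := hab
      omega
  rw [h1, h2]
  refine Finset.sum_le_sum_of_subset_of_nonneg ?_ (fun n _ _ => hG n)
  intro n hn
  rw [Finset.mem_image] at hn
  obtain ⟨a, ha, rfl⟩ := hn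
  rw [Finset.mem_filter] at ha
  rw [Finset.mem_range]
  omega

theorem Bn (x : ℝ) (hx : 1 ≤ x) (H₁ H₂ : ℕ) (h1 : 1 ≤ H₁) (h12 : H₁ ≤ H₂) (δ : ℝ)
    (h : ∀ D : Finset ℤ, D ⊆ Finset.Icc 1 (H₁ : ℤ) → FL x H₁ δ D) :
    ∀ D : Finset ℤ, D ⊆ Finset.Icc 1 (H₂ : ℤ) → FL x H₂ (2 * δ) D := by
  classical
  intro D hD
  have hN0 : (0 : ℝ) < (⌊x⌋₊ : ℝ) + 1 := by positivity
  have hH1 : (0 : ℝ) < (H₁ : ℝ) := by exact_mod_cast h1
  have hδ : 0 ≤ δ := by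
    have e := h ∅ (Finset.empty_subset _)
    unfold FL at e
    have e2 : (0 : ℝ) ≤ δ * ((⌊x⌋₊ : ℝ) + 1) * (H₁ : ℝ) := le_trans (Finset.sum_nonneg fun n _ => abs_nonneg _) e
    by_contra hcon
    push Not at hcon
    have e3 : δ * ((⌊x⌋₊ : ℝ) + 1) * (H₁ : ℝ) < 0 := by
      apply mul_neg_of_neg_of_pos _ hH1
      exact mul_neg_of_neg_of_pos hcon hN0
    linarith
  set f := fB x with hf
  set m : ℕ := (H₂ + H₁ - 1) / H₁ with hm
  have hm1 : H₂ ≤ m * H₁ := by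
    have e := Nat.div_add_mod (H₂ + H₁ - 1) H₁
    have e2 := Nat.mod_lt (H₂ + H₁ - 1) h1
    rw [← hm] at e
    rw [mul_comm m H₁]
    omega
  have hm2 : m * H₁ ≤ 2 * H₂ := by
    have e := Nat.div_mul_le_self (H₂ + H₁ - 1) H₁
    rw [← hm] at e
    omega
  -- the blocks
  have hmap : ∀ d ∈ D, ((d - 1) / (H₁ : ℤ)).toNat ∈ Finset.range m := by
    intro d hd
    have hd' := Finset.mem_Icc.1 (hD hd)
    rw [Finset.mem_range]
    have e1 : 0 ≤ (d - 1) / (H₁ : ℤ) := Int.ediv_nonneg (by omega) (by omega)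
    have e2 : (d - 1) / (H₁ : ℤ) < (m : ℤ) := by
      apply Int.ediv_lt_of_lt_mul (by omega)
      have : (H₂ : ℤ) ≤ (m : ℤ) * (H₁ : ℤ) := by exact_mod_cast hm1
      omega
    omega
  set Dk : ℕ → Finset ℤ := fun k => D.filter (fun d => ((d - 1) / (H₁ : ℤ)).toNat = k) with hDk
  set E : ℕ → Finset ℤ := fun k => (Dk k).image (fun d => d - (k * H₁ : ℕ)) with hE
  have hbl : ∀ k, ∀ d ∈ Dk k, ((k * H₁ : ℕ) : ℤ) < d ∧ d ≤ ((k * H₁ : ℕ) : ℤ) + H₁ := by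
    intro k d hd
    rw [hDk, Finset.mem_filter] at hd
    obtain ⟨hd1, hd2⟩ := hd
    have hd' := Finset.mem_Icc.1 (hD hd1)
    have e1 : 0 ≤ (d - 1) / (H₁ : ℤ) := Int.ediv_nonneg (by omega) (by omega)
    have e2 : (d - 1) / (H₁ : ℤ) = k := by omega
    have e3 := Int.emod_add_mul_ediv (d - 1) (H₁ : ℤ)
    have e4 := Int.emod_nonneg (d - 1) (show (H₁ : ℤ) ≠ 0 by omega)
    have e5 := Int.emod_lt_of_pos (d - 1) (show (0 : ℤ) < (H₁ : ℤ) by omega)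
    rw [e2] at e3
    push_cast
    have e6 : (H₁ : ℤ) * (k : ℤ) = (k : ℤ) * (H₁ : ℤ) := mul_comm _ _
    constructor <;> linarith
  have hEs : ∀ k, E k ⊆ Finset.Icc 1 (H₁ : ℤ) := by
    intro k e he
    rw [hE, Finset.mem_image] at he
    obtain ⟨d, hd, rfl⟩ := he
    have := hbl k d hd
    rw [Finset.mem_Icc]
    omega
  have hnf : ∀ n : ℤ, nf D f n = ∑ k ∈ Finset.range m, nf (E k) f (n - (k * H₁ : ℕ)) := by
    intro n
    unfold nf
    rw [← Finset.sum_fiberwise_of_maps_to hmap]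
    refine Finset.sum_congr rfl fun k _ => ?_
    rw [hE]
    simp only
    rw [Finset.sum_image]
    · refine Finset.sum_congr rfl fun d _ => ?_
      congr 1
      ring
    · intro a _ b _ hab
      have hab' : a - ((k * H₁ : ℕ) : ℤ) = b - ((k * H₁ : ℕ) : ℤ) := hab
      omega
  have hsup : ∀ k, ∀ n : ℤ, n < 0 ∨ ((⌊x⌋₊ + 1 + H₁ : ℕ) : ℤ) ≤ n → |nf (E k) f n| = 0 := by
    intro k n hn
    rw [abs_eq_zero]
    unfold nf
    apply Finset.sum_eq_zero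
    intro d hd
    have hd' := Finset.mem_Icc.1 (hEs k hd)
    apply fB_out (by linarith)
    rcases hn with hn | hn
    · left
      omega
    · right
      push_cast at hn ⊢
      omega
  unfold FL
  calc ∑ n ∈ rgH x H₂, |nf D (fB x) (n : ℤ)|
      ≤ ∑ n ∈ rgH x H₂, ∑ k ∈ Finset.range m, |nf (E k) f ((n : ℤ) - (k * H₁ : ℕ))| := by
        refine Finset.sum_le_sum fun n _ => ?_
        rw [← hf, hnf]
        exact Finset.abs_sum_le_sum_abs _ _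
    _ = ∑ k ∈ Finset.range m, ∑ n ∈ rgH x H₂, |nf (E k) f ((n : ℤ) - (k * H₁ : ℕ))| := Finset.sum_comm
    _ ≤ ∑ k ∈ Finset.range m, δ * ((⌊x⌋₊ : ℝ) + 1) * (H₁ : ℝ) := by
        refine Finset.sum_le_sum fun k _ => ?_
        refine le_trans ?_ (h (E k) (hEs k))
        unfold rgH
        exact Bn_shift (fun n => |nf (E k) f n|) (fun n => abs_nonneg _) (⌊x⌋₊ + 1 + H₁)
          (⌊x⌋₊ + 1 + H₂) (k * H₁) (hsup k)
    _ = ((m * H₁ : ℕ) : ℝ) * (δ * ((⌊x⌋₊ : ℝ) + 1)) := by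
        rw [Finset.sum_const, Finset.card_range, nsmul_eq_mul]
        push_cast
        ring
    _ ≤ ((2 * H₂ : ℕ) : ℝ) * (δ * ((⌊x⌋₊ : ℝ) + 1)) := by
        apply mul_le_mul_of_nonneg_right _ (by positivity)
        exact_mod_cast hm2
    _ = 2 * δ * ((⌊x⌋₊ : ℝ) + 1) * (H₂ : ℝ) := by
        push_cast
        ring

end Pool.Agent.H12.DM
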