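import Pool.Agent.H12.DM.Bd

/-!
# Bb: sums of `sW` over boxes, windows of `Mi`

`w = yy x`, `W = WW w`, `M = Mm w`, `φ = wp w`, `1 ≤ φ ≤ W`; `M` is periodic mod `W` (`Mm_period`), `0 ≤ M ≤ φ`, `∑_{i<W} M i = φ * φ(W) = W`; so for a set of `j` consecutive integers the sum of `M`
is between `j - W` and `j + W` (`⌊j/W⌋` resp. `⌊j/W⌋+1` full periods), the same for `M (t - ·)`. (`Mm_le_sum`, `Mm_ge_sum`.)

* `sW_sum2`: `∑_{d'} ∑_{d ≠ d'} sW {0,d',d} = avg_m M(m) ∑_{d'} M(m-d') ∑_{d≠d'} M(m-d) ≤ avg_m M(m) (j'+W)(j+W) = (j'+W)(j+W)` (exchange the sums; the elements `0, d', d` are distinct, so the product over the finset is the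
  product of three factors; all terms are `≥ 0`; `avg_m M(m) = 1`). `sW_sum1` similarly.
* `sW_sum3`: `d ≠ 0`, `d ∈ Icc 1 H`: `∑_{d' ∈ (Icc 1 H).erase d} sW {0,d',d} = avg_m M(m) M(m-d) (∑_{d'∈Icc 1 H} M(m-d') - M(m-d))` and the bracket is within `W + φ ≤ 2W` of `H`.
* `Mi_win`: `nf (Icc 1 H) Mi n = ∑_{d=1}^H M(n-d)` if `0 ≤ n - d < N` for all `1 ≤ d ≤ H`. `Mi_win_le`: `Mi ≤ M`.
* `Mi_corr`: `∑_{n<N} Mi(n) Mi(n-e) = ∑_{e ≤ n < N} M(n) M(n-e)` (`1 ≤ e ≤ H`); the function `M(n) M(n-e)` has period `W`, mean `sW {0,e}` and is `≤ φ^2`; the sum over `[0,N)` is within `W φ^2` of `N * sW {0,e}`, and the terms with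
  `n < e` are at most `H φ^2`.
-/

set_option autoImplicit false

namespace Pool.Agent.H12.DM

open Finset Pool.Agent.H17 Pool.Agent.H6.MF Pool.Agent.H6.MB

/-! ### periodic functions -/

lemma Bb_Ioc_succ (f : ℤ → ℝ) {u v : ℤ} (huv : u ≤ v) :
    ∑ i ∈ Finset.Ioc u (v + 1), f i = ∑ i ∈ Finset.Ioc u v, f i + f (v + 1) := by
  have h : Finset.Ioc u (v + 1) = insert (v + 1) (Finset.Ioc u v) := by
    ext i
    simp only [Finset.mem_Ioc, Finset.mem_insert]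
    omega
  rw [h, Finset.sum_insert (by simp), add_comm]

lemma Bb_Ioc_add (f : ℤ → ℝ) {u v w : ℤ} (huv : u ≤ v) (hvw : v ≤ w) :
    ∑ i ∈ Finset.Ioc u w, f i = ∑ i ∈ Finset.Ioc u v, f i + ∑ i ∈ Finset.Ioc v w, f i := by
  have h : Finset.Ioc u w = Finset.Ioc u v ∪ Finset.Ioc v w := by
    ext i
    simp only [Finset.mem_Ioc, Finset.mem_union]
    omega
  have hd : Disjoint (Finset.Ioc u v) (Finset.Ioc v w) := by
    rw [Finset.disjoint_left]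
    intro i hi hi'
    simp only [Finset.mem_Ioc] at hi hi'
    omega
  rw [h, Finset.sum_union hd]

lemma Bb_range (f : ℤ → ℝ) (n : ℕ) :
    ∑ i ∈ Finset.range n, f (i : ℤ) = ∑ i ∈ Finset.Ioc (-1 : ℤ) ((n : ℤ) - 1), f i := by
  induction n with
  | zero => simp
  | succ n ih =>
    rw [Finset.sum_range_succ, ih]
    have h1 : (((n + 1 : ℕ) : ℤ) - 1) = ((n : ℤ) - 1) + 1 := by push_cast; ring
    rw [h1, Bb_Ioc_succ f (by omega)]
    congr 2
    ring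

lemma Bb_full (f : ℤ → ℝ) (P : ℕ) (hf : ∀ n, f (n + P) = f n) (u : ℤ) :
    ∑ i ∈ Finset.Ioc u (u + P), f i = ∑ i ∈ Finset.range P, f (i : ℤ) := by
  have step : ∀ u : ℤ, ∑ i ∈ Finset.Ioc (u + 1) (u + 1 + P), f i = ∑ i ∈ Finset.Ioc u (u + P), f i := by
    intro u
    have h1 := Bb_Ioc_succ f (u := u) (v := u + P) (by omega)
    have h2 := Bb_Ioc_add f (u := u) (v := u + 1) (w := u + 1 + P) (by omega) (by omega)
    have h3 : ∑ i ∈ Finset.Ioc u (u + 1), f i = f (u + 1) := by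
      have : Finset.Ioc u (u + 1) = {u + 1} := by
        ext i
        simp only [Finset.mem_Ioc, Finset.mem_singleton]
        omega
      rw [this, Finset.sum_singleton]
    have h4 : u + P + 1 = u + 1 + P := by ring
    rw [h4, hf (u + 1)] at h1
    linarith
  have hc : ∀ u : ℤ, ∑ i ∈ Finset.Ioc u (u + P), f i = ∑ i ∈ Finset.Ioc (-1 : ℤ) (-1 + P), f i := by
    intro u
    induction u using Int.induction_on with
    | zero => rw [← step (-1)]; norm_num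
    | succ k ih => rw [step, ih]
    | pred k ih => rw [← step, sub_add_cancel, ih]
  rw [hc, Bb_range, show (-1 : ℤ) + P = P - 1 by ring]

lemma Bb_mult (f : ℤ → ℝ) (P : ℕ) (hf : ∀ n, f (n + P) = f n) (u : ℤ) (k : ℕ) :
    ∑ i ∈ Finset.Ioc u (u + k * P), f i = k * ∑ i ∈ Finset.range P, f (i : ℤ) := by
  induction k with
  | zero => simp
  | succ k ih =>
    rw [Bb_Ioc_add f (v := u + k * P) (by nlinarith [Int.natCast_nonneg P, Int.natCast_nonneg k]) (by push_cast; nlinarith [Int.natCast_nonneg P]), ih]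
    have h1 : u + ((k + 1 : ℕ) : ℤ) * P = (u + k * P) + P := by push_cast; ring
    rw [h1, Bb_full f P hf]
    push_cast
    ring

lemma Bb_bounds (f : ℤ → ℝ) (P : ℕ) (hP : 0 < P) (hf : ∀ n, f (n + P) = f n) (h0 : ∀ n, 0 ≤ f n)
    {u v : ℤ} (huv : u ≤ v) :
    (((v : ℝ) - u) - P) * ((∑ i ∈ Finset.range P, f (i : ℤ)) / P) ≤ ∑ i ∈ Finset.Ioc u v, f i ∧
    ∑ i ∈ Finset.Ioc u v, f i ≤ (((v : ℝ) - u) + P) * ((∑ i ∈ Finset.range P, f (i : ℤ)) / P) := by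
  set S := ∑ i ∈ Finset.range P, f (i : ℤ) with hS
  have hS0 : 0 ≤ S := Finset.sum_nonneg fun i _ => h0 _
  obtain ⟨n, hn⟩ : ∃ n : ℕ, v = u + n := ⟨(v - u).toNat, by omega⟩
  have hPr : (0 : ℝ) < P := by exact_mod_cast hP
  set k := n / P with hk
  have hk1 : k * P ≤ n := Nat.div_mul_le_self n P
  have hk2 : n < (k + 1) * P := by
    have := Nat.lt_div_mul_add (a := n) (b := P) hP
    rw [add_mul, one_mul]
    exact this
  have e1 : (v : ℝ) - u = n := by rw [hn]; push_cast; ring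
  have hk1' : (k : ℝ) * P ≤ n := by exact_mod_cast hk1
  have hk2' : (n : ℝ) ≤ (k + 1) * P := by exact_mod_cast hk2.le
  have low : (k : ℝ) * S ≤ ∑ i ∈ Finset.Ioc u v, f i := by
    rw [← Bb_mult f P hf u k]
    refine Finset.sum_le_sum_of_subset_of_nonneg ?_ (fun i _ _ => h0 i)
    refine Finset.Ioc_subset_Ioc_right ?_
    rw [hn]
    have : ((k * P : ℕ) : ℤ) ≤ n := by exact_mod_cast hk1
    push_cast at this
    linarith
  have upp : ∑ i ∈ Finset.Ioc u v, f i ≤ ((k : ℝ) + 1) * S := by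
    have h := Bb_mult f P hf u (k + 1)
    push_cast at h
    rw [← h]
    refine Finset.sum_le_sum_of_subset_of_nonneg ?_ (fun i _ _ => h0 i)
    refine Finset.Ioc_subset_Ioc_right ?_
    rw [hn]
    have : (n : ℤ) ≤ (((k + 1) * P : ℕ) : ℤ) := by exact_mod_cast hk2.le
    push_cast at this
    linarith
  rw [e1]
  constructor
  · refine le_trans ?_ low
    rw [mul_div_assoc', div_le_iff₀ hPr]
    nlinarith
  · refine le_trans upp ?_
    rw [mul_div_assoc', le_div_iff₀ hPr]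
    nlinarith

lemma Bb_refl (f : ℤ → ℝ) (P : ℕ) (hf : ∀ n, f (n + P) = f n) (t : ℤ) :
    ∑ i ∈ Finset.range P, f (t - (i : ℤ)) = ∑ i ∈ Finset.range P, f (i : ℤ) := by
  rw [← Bb_full f P hf (t - P)]
  have h1 : t - P + P = t := by ring
  rw [h1]
  refine Finset.sum_nbij' (fun i : ℕ => t - (i : ℤ)) (fun j : ℤ => (t - j).toNat) ?_ ?_ ?_ ?_ ?_
  · intro i hi
    simp only [Finset.mem_range, Finset.mem_Ioc] at hi ⊢
    omega
  · intro j hj
    simp only [Finset.mem_range, Finset.mem_Ioc] at hj ⊢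
    omega
  · intro i hi
    simp
  · intro j hj
    simp only [Finset.mem_Ioc] at hj
    omega
  · intro i hi
    rfl

lemma Bb_per_refl (f : ℤ → ℝ) (P : ℕ) (hf : ∀ n, f (n + P) = f n) (t : ℤ) (n : ℤ) :
    f (t - (n + P)) = f (t - n) := by
  have h := hf (t - (n + P))
  rw [← h]
  congr 1
  ring

lemma Bb_Mper (y : ℕ) (n : ℤ) : Mm y (n + (WW y : ℕ)) = Mm y n := by
  have h := Mm_period y n 1
  rwa [one_mul] at h

lemma Bb_Msum (y : ℕ) : ∑ i ∈ Finset.range (WW y), Mm y (i : ℤ) = (WW y : ℝ) := by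
  have h1 : ∀ i ∈ Finset.range (WW y), Mm y (i : ℤ) = if (WW y).Coprime i then wp y else 0 := by
    intro i _
    unfold Mm
    have e : Int.gcd (i : ℤ) (WW y : ℤ) = Nat.gcd i (WW y) := Int.gcd_natCast_natCast _ _
    rw [e, Nat.gcd_comm]
  rw [Finset.sum_congr rfl h1, ← Finset.sum_filter, Finset.sum_const, nsmul_eq_mul,
    ← Nat.totient_eq_card_coprime]
  unfold wp
  have := tot_pos_real y
  field_simp

lemma Bb_Mmean (y : ℕ) (t : ℤ) :
    (∑ i ∈ Finset.range (WW y), Mm y (t - (i : ℤ))) / (WW y : ℝ) = 1 := by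
  rw [Bb_refl (Mm y) (WW y) (Bb_Mper y), Bb_Msum, div_self (WW_pos_real y).ne']

lemma Bb_avgM (y : ℕ) : avgP (WW y) (fun m => Mm y m) = 1 := by
  unfold avgP
  rw [Bb_Msum, div_self (WW_pos_real y).ne']

lemma Bb_avg_sum {ι : Type} (P : ℕ) (s : Finset ι) (F : ι → ℤ → ℝ) :
    ∑ d ∈ s, avgP P (F d) = avgP P (fun m => ∑ d ∈ s, F d m) := by
  unfold avgP
  rw [← Finset.sum_div, Finset.sum_comm]

lemma Bb_avg_mono {P : ℕ} {F G : ℤ → ℝ} (h : ∀ n, F n ≤ G n) : avgP P F ≤ avgP P G := by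
  unfold avgP
  exact div_le_div_of_nonneg_right (Finset.sum_le_sum fun n _ => h _) (Nat.cast_nonneg _)

lemma Bb_avg_smul (P : ℕ) (c : ℝ) (F : ℤ → ℝ) : avgP P (fun n => F n * c) = avgP P F * c := by
  unfold avgP
  rw [← Finset.sum_mul, div_mul_eq_mul_div]

lemma Bb_avg_abs {P : ℕ} (F G : ℤ → ℝ) (h : ∀ n, |F n| ≤ G n) : |avgP P F| ≤ avgP P G := by
  unfold avgP
  rw [abs_div, abs_of_nonneg (Nat.cast_nonneg P : (0 : ℝ) ≤ P)]
  exact div_le_div_of_nonneg_right ((Finset.abs_sum_le_sum_abs _ _).trans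
    (Finset.sum_le_sum fun n _ => h _)) (Nat.cast_nonneg _)

lemma Bb_avg_sub {P : ℕ} (F G : ℤ → ℝ) : avgP P F - avgP P G = avgP P (fun m => F m - G m) := by
  unfold avgP
  rw [Finset.sum_sub_distrib, sub_div]

lemma Bb_sW2 (x : ℝ) {d : ℤ} (hd : d ≠ 0) :
    sW x {0, d} = avgP (WW (yy x)) (fun m => Mm (yy x) m * Mm (yy x) (m - d)) := by
  unfold sW
  congr 1
  funext m
  rw [Finset.prod_insert (by simpa using hd.symm), Finset.prod_singleton, sub_zero]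

lemma Bb_sW3 (x : ℝ) {d' d : ℤ} (hd : d ≠ 0) (hd' : d' ≠ 0) (hdd : d' ≠ d) :
    sW x {0, d', d} = avgP (WW (yy x)) (fun m => Mm (yy x) m * Mm (yy x) (m - d') * Mm (yy x) (m - d)) := by
  unfold sW
  congr 1
  funext m
  rw [Finset.prod_insert (by simp [hd.symm, hd'.symm]), Finset.prod_insert (by simpa using hdd),
    Finset.prod_singleton, sub_zero]
  ring

lemma Bb_wp_le (y : ℕ) : wp y ≤ (WW y : ℝ) := by
  unfold wp
  rw [div_le_iff₀ (tot_pos_real y)]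
  have h1 : (1 : ℝ) ≤ ((WW y).totient : ℝ) := by
    exact_mod_cast Nat.totient_pos.mpr (WW_pos y)
  have := WW_pos_real y
  nlinarith

theorem Mm_le_sum (y : ℕ) (t u v : ℤ) (huv : u ≤ v) :
    ∑ i ∈ Finset.Ioc u v, Mm y (t - i) ≤ (v : ℝ) - u + (WW y : ℝ) := by
  have h := (Bb_bounds (fun i => Mm y (t - i)) (WW y) (WW_pos y)
    (Bb_per_refl (Mm y) (WW y) (Bb_Mper y) t) (fun n => Mm_nonneg y _) huv).2
  rw [Bb_Mmean, mul_one] at h
  exact h

theorem Mm_ge_sum (y : ℕ) (t u v : ℤ) (huv : u ≤ v) :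
    (v : ℝ) - u - (WW y : ℝ) ≤ ∑ i ∈ Finset.Ioc u v, Mm y (t - i) := by
  have h := (Bb_bounds (fun i => Mm y (t - i)) (WW y) (WW_pos y)
    (Bb_per_refl (Mm y) (WW y) (Bb_Mper y) t) (fun n => Mm_nonneg y _) huv).1
  rw [Bb_Mmean, mul_one] at h
  exact h

theorem sW_sum1 (x : ℝ) (u v : ℤ) (huv : u ≤ v) (hu : 0 ≤ u) :
    ∑ d ∈ Finset.Ioc u v, sW x {0, d} ≤ (v : ℝ) - u + (WW (yy x) : ℝ) := by
  have h1 : ∀ d ∈ Finset.Ioc u v, sW x {0, d} =
      avgP (WW (yy x)) (fun m => Mm (yy x) m * Mm (yy x) (m - d)) := by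
    intro d hd
    rw [Finset.mem_Ioc] at hd
    exact Bb_sW2 x (by omega)
  rw [Finset.sum_congr rfl h1, Bb_avg_sum]
  calc avgP (WW (yy x)) (fun m => ∑ d ∈ Finset.Ioc u v, Mm (yy x) m * Mm (yy x) (m - d))
      ≤ avgP (WW (yy x)) (fun m => Mm (yy x) m * ((v : ℝ) - u + (WW (yy x) : ℝ))) := by
        refine Bb_avg_mono fun m => ?_
        rw [← Finset.mul_sum]
        exact mul_le_mul_of_nonneg_left (Mm_le_sum _ _ _ _ huv) (Mm_nonneg _ _)
    _ = (v : ℝ) - u + (WW (yy x) : ℝ) := by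
        rw [Bb_avg_smul, Bb_avgM, one_mul]

theorem sW_sum2 (x : ℝ) (u' v' u v : ℤ) (huv' : u' ≤ v') (hu' : 0 ≤ u') (huv : u ≤ v) (hu : 0 ≤ u) :
    ∑ d' ∈ Finset.Ioc u' v', ∑ d ∈ (Finset.Ioc u v).erase d', sW x {0, d', d}
      ≤ ((v' : ℝ) - u' + (WW (yy x) : ℝ)) * ((v : ℝ) - u + (WW (yy x) : ℝ)) := by
  have h1 : ∀ d' ∈ Finset.Ioc u' v', ∑ d ∈ (Finset.Ioc u v).erase d', sW x {0, d', d} =
      avgP (WW (yy x)) (fun m => ∑ d ∈ (Finset.Ioc u v).erase d',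
        Mm (yy x) m * Mm (yy x) (m - d') * Mm (yy x) (m - d)) := by
    intro d' hd'
    rw [Finset.mem_Ioc] at hd'
    rw [← Bb_avg_sum]
    refine Finset.sum_congr rfl fun d hd => ?_
    rw [Finset.mem_erase, Finset.mem_Ioc] at hd
    exact Bb_sW3 x (by omega) (by omega) (fun h => hd.1 h.symm)
  have hA : 0 ≤ (v : ℝ) - u + (WW (yy x) : ℝ) := by
    have : (u : ℝ) ≤ v := by exact_mod_cast huv
    have := (WW_pos_real (yy x)).le
    linarith
  rw [Finset.sum_congr rfl h1, Bb_avg_sum]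
  calc avgP (WW (yy x)) (fun m => ∑ d' ∈ Finset.Ioc u' v', ∑ d ∈ (Finset.Ioc u v).erase d',
        Mm (yy x) m * Mm (yy x) (m - d') * Mm (yy x) (m - d))
      ≤ avgP (WW (yy x)) (fun m => Mm (yy x) m *
          (((v' : ℝ) - u' + (WW (yy x) : ℝ)) * ((v : ℝ) - u + (WW (yy x) : ℝ)))) := by
        refine Bb_avg_mono fun m => ?_
        have e1 : ∀ d' ∈ Finset.Ioc u' v', ∑ d ∈ (Finset.Ioc u v).erase d',
            Mm (yy x) m * Mm (yy x) (m - d') * Mm (yy x) (m - d) ≤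
            Mm (yy x) m * Mm (yy x) (m - d') * ((v : ℝ) - u + (WW (yy x) : ℝ)) := by
          intro d' _
          rw [← Finset.mul_sum]
          refine mul_le_mul_of_nonneg_left ?_ (mul_nonneg (Mm_nonneg _ _) (Mm_nonneg _ _))
          exact (Finset.sum_le_sum_of_subset_of_nonneg (Finset.erase_subset _ _)
            (fun i _ _ => Mm_nonneg _ _)).trans (Mm_le_sum _ _ _ _ huv)
        refine (Finset.sum_le_sum e1).trans ?_
        rw [← Finset.sum_mul, ← Finset.mul_sum, mul_assoc]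
        refine mul_le_mul_of_nonneg_left ?_ (Mm_nonneg _ _)
        exact mul_le_mul_of_nonneg_right (Mm_le_sum _ _ _ _ huv') hA
    _ = ((v' : ℝ) - u' + (WW (yy x) : ℝ)) * ((v : ℝ) - u + (WW (yy x) : ℝ)) := by
        rw [Bb_avg_smul, Bb_avgM, one_mul]

lemma Bb_Icc (H : ℕ) : Finset.Icc 1 (H : ℤ) = Finset.Ioc 0 (H : ℤ) := by
  ext i
  simp only [Finset.mem_Icc, Finset.mem_Ioc]
  omega

lemma Bb_win (y : ℕ) (H : ℕ) (t : ℤ) :
    |∑ d ∈ Finset.Icc 1 (H : ℤ), Mm y (t - d) - (H : ℝ)| ≤ (WW y : ℝ) := by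
  rw [Bb_Icc]
  have h1 := Mm_le_sum y t 0 (H : ℤ) (by positivity)
  have h2 := Mm_ge_sum y t 0 (H : ℤ) (by positivity)
  push_cast at h1 h2
  rw [abs_le]
  constructor <;> linarith

theorem sW_sum3 (x : ℝ) (H : ℕ) {d : ℤ} (hd : d ∈ Finset.Icc 1 (H : ℤ)) :
    |∑ d' ∈ (Finset.Icc 1 (H : ℤ)).erase d, sW x {0, d', d} - (H : ℝ) * sW x {0, d}|
      ≤ 2 * (WW (yy x) : ℝ) * sW x {0, d} := by
  have hd1 := (Finset.mem_Icc.1 hd).1
  have h1 : ∀ d' ∈ (Finset.Icc 1 (H : ℤ)).erase d, sW x {0, d', d} =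
      avgP (WW (yy x)) (fun m => Mm (yy x) m * Mm (yy x) (m - d') * Mm (yy x) (m - d)) := by
    intro d' hd'
    rw [Finset.mem_erase, Finset.mem_Icc] at hd'
    exact Bb_sW3 x (by omega) (by omega) hd'.1
  rw [Finset.sum_congr rfl h1, Bb_avg_sum, Bb_sW2 x (by omega : d ≠ 0), mul_comm (H : ℝ),
    ← Bb_avg_smul, Bb_avg_sub, mul_comm (2 * (WW (yy x) : ℝ)), ← Bb_avg_smul]
  refine Bb_avg_abs _ _ fun m => ?_
  have e1 : ∑ d' ∈ (Finset.Icc 1 (H : ℤ)).erase d,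
      Mm (yy x) m * Mm (yy x) (m - d') * Mm (yy x) (m - d) =
      Mm (yy x) m * Mm (yy x) (m - d) *
        (∑ d' ∈ Finset.Icc 1 (H : ℤ), Mm (yy x) (m - d') - Mm (yy x) (m - d)) := by
    rw [← Finset.sum_erase_add _ _ hd, add_sub_cancel_right, Finset.mul_sum]
    exact Finset.sum_congr rfl fun d' _ => by ring
  rw [e1, ← mul_sub, abs_mul, abs_of_nonneg (mul_nonneg (Mm_nonneg _ _) (Mm_nonneg _ _))]
  refine mul_le_mul_of_nonneg_left ?_ (mul_nonneg (Mm_nonneg _ _) (Mm_nonneg _ _))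
  have h2 := abs_le.1 (Bb_win (yy x) H m)
  have h3 := Mm_nonneg (yy x) (m - d)
  have h4 := (Mm_le (yy x) (m - d)).trans (Bb_wp_le (yy x))
  have h5 := WW_pos_real (yy x)
  rw [abs_le]
  constructor <;> linarith

theorem Mi_win (x : ℝ) (H : ℕ) {n : ℤ} (h1 : (H : ℤ) ≤ n) (h2 : n ≤ ((⌊x⌋₊ + 1 : ℕ) : ℤ)) :
    |nf (Finset.Icc 1 (H : ℤ)) (Mi x) n - (H : ℝ)| ≤ (WW (yy x) : ℝ) := by
  have e : nf (Finset.Icc 1 (H : ℤ)) (Mi x) n = ∑ d ∈ Finset.Icc 1 (H : ℤ), Mm (yy x) (n - d) := by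
    unfold nf
    refine Finset.sum_congr rfl fun d hd => ?_
    rw [Finset.mem_Icc] at hd
    exact Mi_of_mem (by omega) (by omega)
  rw [e]
  exact Bb_win _ _ _

theorem Mi_win_le (x : ℝ) (H : ℕ) (D : Finset ℤ) (hD : D ⊆ Finset.Icc 1 (H : ℤ)) (n : ℤ) :
    0 ≤ nf D (Mi x) n ∧ nf D (Mi x) n ≤ (H : ℝ) + (WW (yy x) : ℝ) := by
  refine ⟨nf_nonneg (fun n => Mi_nonneg x n) n, ?_⟩
  have h1 : nf D (Mi x) n ≤ ∑ d ∈ Finset.Icc 1 (H : ℤ), Mm (yy x) (n - d) :=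
    (Finset.sum_le_sum fun d _ => Mi_le x _).trans
      (Finset.sum_le_sum_of_subset_of_nonneg hD (fun i _ _ => Mm_nonneg _ _))
  have h2 := (abs_le.1 (Bb_win (yy x) H n)).2
  linarith

theorem Mi_corr (x : ℝ) (H : ℕ) {e : ℤ} (he : 1 ≤ e) (heH : e ≤ (H : ℤ)) :
    |∑ n ∈ Finset.range (⌊x⌋₊ + 1), Mi x (n : ℤ) * Mi x ((n : ℤ) - e) - ((⌊x⌋₊ : ℝ) + 1) * sW x {0, e}|
      ≤ ((WW (yy x) : ℝ) + (H : ℝ)) * (wp (yy x)) ^ 2 := by
  set g : ℤ → ℝ := fun m => Mm (yy x) m * Mm (yy x) (m - e) with hg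
  have hg0 : ∀ m, 0 ≤ g m := fun m => mul_nonneg (Mm_nonneg _ _) (Mm_nonneg _ _)
  have hg1 : ∀ m, g m ≤ wp (yy x) ^ 2 := by
    intro m
    rw [sq]
    exact mul_le_mul (Mm_le _ _) (Mm_le _ _) (Mm_nonneg _ _) (wp_pos _).le
  have hgp : ∀ m, g (m + (WW (yy x) : ℕ)) = g m := by
    intro m
    simp only [hg]
    rw [Bb_Mper, show m + ((WW (yy x) : ℕ) : ℤ) - e = (m - e) + ((WW (yy x) : ℕ) : ℤ) by ring, Bb_Mper]
  have hsW : sW x {0, e} = (∑ i ∈ Finset.range (WW (yy x)), g (i : ℤ)) / (WW (yy x) : ℝ) := by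
    rw [Bb_sW2 x (by omega)]
    rfl
  have hsW1 : sW x {0, e} ≤ wp (yy x) ^ 2 := by
    rw [hsW, div_le_iff₀ (WW_pos_real _)]
    refine (Finset.sum_le_card_nsmul _ _ _ fun i _ => hg1 _).trans ?_
    rw [Finset.card_range, nsmul_eq_mul, mul_comm]
  have hfull : |∑ n ∈ Finset.range (⌊x⌋₊ + 1), g (n : ℤ) - ((⌊x⌋₊ : ℝ) + 1) * sW x {0, e}|
      ≤ (WW (yy x) : ℝ) * wp (yy x) ^ 2 := by
    rw [Bb_range g (⌊x⌋₊ + 1)]
    obtain ⟨h1, h2⟩ := Bb_bounds g (WW (yy x)) (WW_pos _) hgp hg0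
      (u := -1) (v := ((⌊x⌋₊ + 1 : ℕ) : ℤ) - 1) (by push_cast; have := Int.natCast_nonneg ⌊x⌋₊; linarith)
    rw [← hsW] at h1 h2
    push_cast at h1 h2 ⊢
    have h3 : (WW (yy x) : ℝ) * sW x {0, e} ≤ (WW (yy x) : ℝ) * wp (yy x) ^ 2 :=
      mul_le_mul_of_nonneg_left hsW1 (WW_pos_real _).le
    rw [abs_le]
    constructor <;> nlinarith
  have hdiff : |∑ n ∈ Finset.range (⌊x⌋₊ + 1), Mi x (n : ℤ) * Mi x ((n : ℤ) - e)
      - ∑ n ∈ Finset.range (⌊x⌋₊ + 1), g (n : ℤ)| ≤ (H : ℝ) * wp (yy x) ^ 2 := by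
    rw [← Finset.sum_sub_distrib]
    have e1 : ∀ n ∈ Finset.range (⌊x⌋₊ + 1), Mi x (n : ℤ) * Mi x ((n : ℤ) - e) - g (n : ℤ) =
        if (n : ℤ) < e then - g (n : ℤ) else 0 := by
      intro n hn
      rw [Finset.mem_range] at hn
      split_ifs with h
      · have : Mi x ((n : ℤ) - e) = 0 := by
          unfold Mi
          rw [if_neg (by omega)]
        rw [this, mul_zero, zero_sub]
      · rw [Mi_of_mem (by omega) (by exact_mod_cast hn), Mi_of_mem (by omega) (by push_cast; omega)]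
        simp only [hg]
        ring
    rw [Finset.sum_congr rfl e1, ← Finset.sum_filter]
    refine (Finset.abs_sum_le_sum_abs _ _).trans ?_
    refine (Finset.sum_le_card_nsmul _ _ (wp (yy x) ^ 2) fun n _ => ?_).trans ?_
    · rw [abs_neg, abs_of_nonneg (hg0 _)]
      exact hg1 _
    · rw [nsmul_eq_mul]
      refine mul_le_mul_of_nonneg_right ?_ (sq_nonneg _)
      have hsub : (Finset.range (⌊x⌋₊ + 1)).filter (fun n : ℕ => (n : ℤ) < e) ⊆ Finset.range H := by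
        intro n hn
        rw [Finset.mem_filter] at hn
        rw [Finset.mem_range]
        have := hn.2
        omega
      have hcard := Finset.card_le_card hsub
      rw [Finset.card_range] at hcard
      exact_mod_cast hcard
  have h5 := abs_add_le (∑ n ∈ Finset.range (⌊x⌋₊ + 1), Mi x (n : ℤ) * Mi x ((n : ℤ) - e)
      - ∑ n ∈ Finset.range (⌊x⌋₊ + 1), g (n : ℤ))
    (∑ n ∈ Finset.range (⌊x⌋₊ + 1), g (n : ℤ) - ((⌊x⌋₊ : ℝ) + 1) * sW x {0, e})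
  rw [sub_add_sub_cancel] at h5
  refine h5.trans ((add_le_add hdiff hfull).trans (le_of_eq ?_))
  ring

end Pool.Agent.H12.DM
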