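import Pool.Agent.H12.DM.Bj
import Pool.Agent.H12.DM.Bb

/-!
# Bjc (Equi): conversions between counts and sums of `La`

`L = log x`, `N = ⌊x⌋₊ + 1`, `φ = wp (yy x) ≤ W ≤ √L`, `L ≤ H ≤ L^2`, `x` large; `|N - x| ≤ 1`. A finset `D ⊆ Icc 1 H` of natural numbers corresponds to the finset `D.image (fun d => (d:ℤ)) ⊆ Icc 1 H` of integers, and conversely
(`D.image Int.toNat`); sums over `D` are equal.

* `Equi`: for `x^(1/4) + H < n < N`: `nf D fB n = L #{d ∈ D : n - d prime} - φ #{d ∈ D : gcd(n-d, W) = 1}` (`x^(1/4) < n - d ≤ x`, `Mi(n-d) = Mm(n-d)`), i.e. `|nf D fB n| = L * |…|` with the expression `…` in `Equi`. For the other `n ∈ rgH` (at most `x^(1/4) + 2H + 2`) both sides are at most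
  `H (L + φ) ≤ 2 H L`. So the two sums (`∑_{rgH} |nf D fB|` and `L * ∑_{n<N} |…|`) differ by at most `(x^(1/4) + 2H + 2) 4 H L ≤ (ε/4) N H`.
-/

set_option autoImplicit false

namespace Pool.Agent.H12.DM

open Finset Pool.Agent.H17 Pool.Agent.H6.MF Pool.Agent.H6.MB

/-- the expression in `Equi` -/
noncomputable def eqT (x : ℝ) (D : Finset ℕ) (n : ℕ) : ℝ :=
  ((D.filter (fun d : ℕ => isP ((n : ℤ) - (d : ℤ)))).card : ℝ)
    - wp (yy x) / Real.log x * ((D.filter (fun d : ℕ => Int.gcd ((n : ℤ) - (d : ℤ)) (WW (yy x) : ℤ) = 1)).card : ℝ)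

lemma Bjc_nf (D : Finset ℕ) (f : ℤ → ℝ) (n : ℤ) :
    nf (D.image (fun d : ℕ => (d : ℤ))) f n = ∑ d ∈ D, f (n - (d : ℤ)) := by
  unfold nf
  rw [Finset.sum_image]
  intro a _ b _ h
  exact Nat.cast_injective h

lemma Bjc_eqT {x : ℝ} (hL : 1 ≤ Real.log x) (D : Finset ℕ) (n : ℕ) :
    Real.log x * eqT x D n = ∑ d ∈ D, ((if isP ((n : ℤ) - (d : ℤ)) then Real.log x else 0)
      - Mm (yy x) ((n : ℤ) - (d : ℤ))) := by
  have hL0 : Real.log x ≠ 0 := by linarith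
  unfold eqT Mm
  rw [Finset.sum_sub_distrib, ← Finset.sum_filter, ← Finset.sum_filter, Finset.sum_const, Finset.sum_const,
    nsmul_eq_mul, nsmul_eq_mul]
  field_simp

lemma Bjc_wp {x : ℝ} (hL : 1 ≤ Real.log x) : wp (yy x) ≤ Real.log x := by
  have h1 := WW_yy_pow_le (x := x) hL
  have hW1 : (1 : ℝ) ≤ (WW (yy x) : ℝ) := by exact_mod_cast WW_pos (yy x)
  have h2 : (WW (yy x) : ℝ) ≤ (WW (yy x) : ℝ) ^ 34 := le_self_pow₀ hW1 (by norm_num)
  have h3 : Real.sqrt (Real.log x) ≤ Real.log x := by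
    rw [Real.sqrt_le_left (by linarith)]
    nlinarith
  have h4 : wp (yy x) ≤ (WW (yy x) : ℝ) := by
    unfold wp
    refine div_le_self (by linarith) ?_
    exact_mod_cast Nat.totient_pos.mpr (WW_pos (yy x))
  linarith

lemma Bjc_fB {x : ℝ} (hx : 1 ≤ x) (hL : 1 ≤ Real.log x) (m : ℤ) : |fB x m| ≤ 2 * Real.log x := by
  have h1 := La_nonneg hx m
  have h2 := La_le hx m
  have h3 := Mi_nonneg x m
  have h4 := Mi_le x m
  have h5 := Mm_le (yy x) m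
  have h6 := Bjc_wp hL
  unfold fB
  rw [abs_le]
  constructor <;> linarith

lemma Bjc_term {x : ℝ} (hx : 1 ≤ x) (hL : 1 ≤ Real.log x) {n d H : ℕ} (hd : d ≤ H)
    (hn : n < ⌊x⌋₊ + 1) :
    |fB x ((n : ℤ) - (d : ℤ)) - ((if isP ((n : ℤ) - (d : ℤ)) then Real.log x else 0)
      - Mm (yy x) ((n : ℤ) - (d : ℤ)))|
      ≤ if (n : ℝ) ≤ x ^ (1 / 4 : ℝ) + H then 2 * Real.log x else 0 := by
  set m : ℤ := (n : ℤ) - (d : ℤ) with hm
  have hmn : m ≤ (n : ℤ) := by omega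
  have hnx : (n : ℝ) ≤ x := by
    have h1 : n ≤ ⌊x⌋₊ := by omega
    exact le_trans (by exact_mod_cast h1) (Nat.floor_le (by linarith))
  have hmx : (m : ℝ) ≤ x := le_trans (by exact_mod_cast hmn) hnx
  have hmr : (m : ℝ) = (n : ℝ) - (d : ℝ) := by rw [hm]; push_cast; ring
  have hdr : (d : ℝ) ≤ (H : ℝ) := by exact_mod_cast hd
  have hx4 : (0 : ℝ) ≤ x ^ (1 / 4 : ℝ) := Real.rpow_nonneg (by linarith) _
  have h5 := Mm_le (yy x) m
  have h5' := Mm_nonneg (yy x) m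
  have h6 := Bjc_wp hL
  by_cases h : (n : ℝ) ≤ x ^ (1 / 4 : ℝ) + H
  · rw [if_pos h]
    have e1 : |La x m - (if isP m then Real.log x else 0)| ≤ Real.log x := by
      unfold La
      by_cases hp : isP m
      · rw [if_pos hp]
        split_ifs
        · rw [sub_self, abs_zero]; linarith
        · rw [zero_sub, abs_neg, abs_of_nonneg (by linarith)]
      · rw [if_neg hp, if_neg (fun h => hp h.1), sub_zero, abs_zero]; linarith
    have e2 : |Mm (yy x) m - Mi x m| ≤ Real.log x := by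
      have h3 := Mi_nonneg x m
      have h4 := Mi_le x m
      rw [abs_le]
      constructor <;> linarith
    have e3 : fB x m - ((if isP m then Real.log x else 0) - Mm (yy x) m)
        = (La x m - (if isP m then Real.log x else 0)) + (Mm (yy x) m - Mi x m) := by
      unfold fB; ring
    rw [e3]
    refine le_trans (abs_add_le _ _) ?_
    linarith
  · rw [if_neg h]
    push Not at h
    have hm4 : x ^ (1 / 4 : ℝ) < (m : ℝ) := by rw [hmr]; linarith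
    have hm0 : 0 ≤ m := by
      have h1 : (0 : ℝ) < (m : ℝ) := by linarith
      have h2 : 0 < m := by exact_mod_cast h1
      omega
    have e1 : La x m = if isP m then Real.log x else 0 := by
      unfold La
      by_cases hp : isP m
      · rw [if_pos hp, if_pos ⟨hp, hm4, hmx⟩]
      · rw [if_neg hp, if_neg (fun h => hp h.1)]
    have e2 : Mi x m = Mm (yy x) m := Mi_of_mem hm0 (by push_cast; omega)
    unfold fB
    rw [e1, e2, sub_self, abs_zero]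

lemma Bjc_card {D : Finset ℕ} {H : ℕ} (hD : D ⊆ Finset.Icc 1 H) : (D.card : ℝ) ≤ H := by
  have h1 := Finset.card_le_card hD
  rw [Nat.card_Icc] at h1
  have h2 : D.card ≤ H := by omega
  exact_mod_cast h2

lemma Bjc_pt {x : ℝ} (hx : 1 ≤ x) (hL : 1 ≤ Real.log x) {H : ℕ} {D : Finset ℕ} (hD : D ⊆ Finset.Icc 1 H)
    {n : ℕ} (hn : n < ⌊x⌋₊ + 1) :
    |nf (D.image (fun d : ℕ => (d : ℤ))) (fB x) (n : ℤ) - Real.log x * eqT x D n|
      ≤ if (n : ℝ) ≤ x ^ (1 / 4 : ℝ) + H then (H : ℝ) * (2 * Real.log x) else 0 := by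
  rw [Bjc_nf, Bjc_eqT hL, ← Finset.sum_sub_distrib]
  refine le_trans (Finset.abs_sum_le_sum_abs _ _) ?_
  refine le_trans (Finset.sum_le_sum fun d hd => Bjc_term hx hL
    (Finset.mem_Icc.1 (hD hd)).2 hn) ?_
  rw [Finset.sum_const, nsmul_eq_mul]
  split_ifs
  · exact mul_le_mul_of_nonneg_right (Bjc_card hD) (by linarith)
  · rw [mul_zero]

lemma Bjc_out {x : ℝ} (hx : 1 ≤ x) (hL : 1 ≤ Real.log x) {H : ℕ} {D : Finset ℕ} (hD : D ⊆ Finset.Icc 1 H)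
    (n : ℤ) : |nf (D.image (fun d : ℕ => (d : ℤ))) (fB x) n| ≤ (H : ℝ) * (2 * Real.log x) := by
  rw [Bjc_nf]
  refine le_trans (Finset.abs_sum_le_sum_abs _ _) ?_
  refine le_trans (Finset.sum_le_sum fun d _ => Bjc_fB hx hL _) ?_
  rw [Finset.sum_const, nsmul_eq_mul]
  exact mul_le_mul_of_nonneg_right (Bjc_card hD) (by linarith)

lemma Bjc_sum_if {N : ℕ} {a C : ℝ} (ha : 0 ≤ a) (hC : 0 ≤ C) :
    ∑ n ∈ Finset.range N, (if (n : ℝ) ≤ a then C else 0) ≤ (a + 1) * C := by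
  rw [← Finset.sum_filter, Finset.sum_const, nsmul_eq_mul]
  refine mul_le_mul_of_nonneg_right ?_ hC
  have h1 : (Finset.range N).filter (fun n : ℕ => (n : ℝ) ≤ a) ⊆ Finset.range (⌊a⌋₊ + 1) := by
    intro n hn
    rw [Finset.mem_filter] at hn
    rw [Finset.mem_range]
    have := Nat.le_floor hn.2
    omega
  have h2 := Finset.card_le_card h1
  rw [Finset.card_range] at h2
  have h3 : (((Finset.range N).filter (fun n : ℕ => (n : ℝ) ≤ a)).card : ℝ) ≤ ((⌊a⌋₊ + 1 : ℕ) : ℝ) := by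
    exact_mod_cast h2
  have h4 := Nat.floor_le ha
  push_cast at h3
  linarith

lemma Bjc_main {x : ℝ} (hx : 1 ≤ x) (hL : 1 ≤ Real.log x) {H : ℕ} {D : Finset ℕ} (hD : D ⊆ Finset.Icc 1 H) :
    |∑ n ∈ rgH x H, |nf (D.image (fun d : ℕ => (d : ℤ))) (fB x) (n : ℤ)|
      - Real.log x * (∑ n ∈ Finset.range (⌊x⌋₊ + 1), |eqT x D n|)|
      ≤ (x ^ (1 / 4 : ℝ) + 2 * H + 1) * ((H : ℝ) * (2 * Real.log x)) := by
  have hx4 : (0 : ℝ) ≤ x ^ (1 / 4 : ℝ) := Real.rpow_nonneg (by linarith) _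
  have hH0 : (0 : ℝ) ≤ H := Nat.cast_nonneg _
  have hC : (0 : ℝ) ≤ (H : ℝ) * (2 * Real.log x) := by positivity
  unfold rgH
  rw [Finset.sum_range_add, Finset.mul_sum]
  set F : ℕ → ℝ := fun n => |nf (D.image (fun d : ℕ => (d : ℤ))) (fB x) (n : ℤ)| with hF
  have h1 : |∑ n ∈ Finset.range (⌊x⌋₊ + 1), F n - (∑ n ∈ Finset.range (⌊x⌋₊ + 1), Real.log x * |eqT x D n|)|
      ≤ (x ^ (1 / 4 : ℝ) + H + 1) * ((H : ℝ) * (2 * Real.log x)) := by
    rw [← Finset.sum_sub_distrib]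
    refine le_trans (Finset.abs_sum_le_sum_abs _ _) ?_
    refine le_trans (Finset.sum_le_sum fun n hn => ?_) (Bjc_sum_if (a := x ^ (1 / 4 : ℝ) + H)
      (N := ⌊x⌋₊ + 1) (by linarith) hC)
    have h2 := Bjc_pt hx hL hD (Finset.mem_range.1 hn)
    have h3 : Real.log x * |eqT x D n| = |Real.log x * eqT x D n| := by
      rw [abs_mul, abs_of_nonneg (show (0 : ℝ) ≤ Real.log x by linarith)]
    rw [h3]
    exact le_trans (abs_abs_sub_abs_le_abs_sub _ _) h2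
  have h2 : |∑ i ∈ Finset.range H, F (⌊x⌋₊ + 1 + i)| ≤ (H : ℝ) * ((H : ℝ) * (2 * Real.log x)) := by
    refine le_trans (Finset.abs_sum_le_sum_abs _ _) ?_
    refine le_trans (Finset.sum_le_sum (g := fun _ => (H : ℝ) * (2 * Real.log x)) fun i _ => ?_) ?_
    · rw [hF]
      simp only [abs_abs]
      exact Bjc_out hx hL hD _
    · rw [Finset.sum_const, Finset.card_range, nsmul_eq_mul]
  have h3 : ∑ n ∈ Finset.range (⌊x⌋₊ + 1), F n + ∑ i ∈ Finset.range H, F (⌊x⌋₊ + 1 + i)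
      - ∑ n ∈ Finset.range (⌊x⌋₊ + 1), Real.log x * |eqT x D n|
      = (∑ n ∈ Finset.range (⌊x⌋₊ + 1), F n - ∑ n ∈ Finset.range (⌊x⌋₊ + 1), Real.log x * |eqT x D n|)
        + ∑ i ∈ Finset.range H, F (⌊x⌋₊ + 1 + i) := by ring
  rw [h3]
  refine le_trans (abs_add_le _ _) ?_
  nlinarith

lemma Bjc_large {η : ℝ} (hη : 0 < η) : ∃ X : ℝ, ∀ x : ℝ, X ≤ x → 1 ≤ x ∧ 1 ≤ Real.log x ∧
    (x ^ (1 / 4 : ℝ) + 2 * (Real.log x) ^ 2 + 1) * (2 * Real.log x) ≤ η * x := by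
  have h1 := eventually_log_pow_le 3 (δ := η / 12) (by positivity)
  have h2 := (isLittleO_log_rpow_atTop (r := 3 / 4) (by norm_num)).bound (c := η / 4) (by positivity)
  have h3 := Real.tendsto_log_atTop.eventually_ge_atTop 1
  obtain ⟨X, hX⟩ := Filter.eventually_atTop.1 (h1.and (h2.and (h3.and (Filter.eventually_ge_atTop (1 : ℝ)))))
  refine ⟨X, fun x hx => ?_⟩
  obtain ⟨e1, e2, e3, e4⟩ := hX x hx
  refine ⟨e4, e3, ?_⟩
  have hx0 : (0 : ℝ) < x := by linarith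
  rw [Real.norm_of_nonneg (by linarith), Real.norm_of_nonneg (Real.rpow_nonneg hx0.le _)] at e2
  have h4 : x ^ (1 / 4 : ℝ) * x ^ (3 / 4 : ℝ) = x := by
    rw [← Real.rpow_add hx0]
    norm_num
  have h5 : (0 : ℝ) ≤ x ^ (1 / 4 : ℝ) := Real.rpow_nonneg hx0.le _
  have h6 : x ^ (1 / 4 : ℝ) * Real.log x ≤ η / 4 * x := by
    calc x ^ (1 / 4 : ℝ) * Real.log x ≤ x ^ (1 / 4 : ℝ) * (η / 4 * x ^ (3 / 4 : ℝ)) :=
          mul_le_mul_of_nonneg_left e2 h5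
      _ = η / 4 * (x ^ (1 / 4 : ℝ) * x ^ (3 / 4 : ℝ)) := by ring
      _ = η / 4 * x := by rw [h4]
  have h7 : Real.log x ≤ (Real.log x) ^ 3 := le_self_pow₀ e3 (by norm_num)
  nlinarith

lemma Bjc_err {x η : ℝ} (hx : 1 ≤ x) (hL : 1 ≤ Real.log x)
    (h : (x ^ (1 / 4 : ℝ) + 2 * (Real.log x) ^ 2 + 1) * (2 * Real.log x) ≤ η * x) {H : ℕ}
    (hH : (H : ℝ) ≤ (Real.log x) ^ 2) :
    (x ^ (1 / 4 : ℝ) + 2 * H + 1) * ((H : ℝ) * (2 * Real.log x)) ≤ η * ((H : ℝ) * x) := by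
  have hH0 : (0 : ℝ) ≤ H := Nat.cast_nonneg _
  have h1 : (x ^ (1 / 4 : ℝ) + 2 * H + 1) * (2 * Real.log x)
      ≤ (x ^ (1 / 4 : ℝ) + 2 * (Real.log x) ^ 2 + 1) * (2 * Real.log x) :=
    mul_le_mul_of_nonneg_right (by linarith) (by linarith)
  have h2 := mul_le_mul_of_nonneg_left (le_trans h1 h) hH0
  calc (x ^ (1 / 4 : ℝ) + 2 * H + 1) * ((H : ℝ) * (2 * Real.log x))
      = (H : ℝ) * ((x ^ (1 / 4 : ℝ) + 2 * H + 1) * (2 * Real.log x)) := by ring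
    _ ≤ (H : ℝ) * (η * x) := h2
    _ = η * ((H : ℝ) * x) := by ring

theorem Bj5 (ε : ℝ) (hε : 0 < ε) : ∃ δ X : ℝ, 0 < δ ∧ ∀ x : ℝ, X ≤ x → ∀ H : ℕ, Real.log x ≤ (H : ℝ) →
    (H : ℝ) ≤ (Real.log x) ^ 2 → Equi x H δ → ∀ D : Finset ℤ, D ⊆ Finset.Icc 1 (H : ℤ) → FL x H ε D := by
  obtain ⟨X, hX⟩ := Bjc_large (η := ε / 2) (by positivity)
  refine ⟨ε / 2, X, by positivity, fun x hx H hH1 hH2 hE D hD => ?_⟩
  obtain ⟨h1, h2, h3⟩ := hX x hx
  set D' : Finset ℕ := D.image Int.toNat with hD'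
  have hDD : D'.image (fun d : ℕ => (d : ℤ)) = D := by
    rw [hD', Finset.image_image]
    conv_rhs => rw [← Finset.image_id (s := D)]
    refine Finset.image_congr fun d hd => ?_
    have := (Finset.mem_Icc.1 (hD hd)).1
    simp only [Function.comp_apply, id_eq]
    exact Int.toNat_of_nonneg (by omega)
  have hD2 : D' ⊆ Finset.Icc 1 H := by
    intro d hd
    rw [hD', Finset.mem_image] at hd
    obtain ⟨e, he, rfl⟩ := hd
    have := Finset.mem_Icc.1 (hD he)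
    rw [Finset.mem_Icc]
    omega
  have h4 := Bjc_main h1 h2 hD2
  rw [hDD] at h4
  have h5 := Bjc_err h1 h2 h3 hH2
  have h6 : ∑ n ∈ Finset.range (⌊x⌋₊ + 1), |eqT x D' n| ≤ ε / 2 * ((H : ℝ) * x / Real.log x) := hE D' hD2
  have hL0 : (0 : ℝ) < Real.log x := by linarith
  have h7 : Real.log x * ∑ n ∈ Finset.range (⌊x⌋₊ + 1), |eqT x D' n| ≤ ε / 2 * ((H : ℝ) * x) := by
    calc _ ≤ Real.log x * (ε / 2 * ((H : ℝ) * x / Real.log x)) := mul_le_mul_of_nonneg_left h6 hL0.le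
      _ = ε / 2 * ((H : ℝ) * x) := by field_simp
  have h8 := (abs_le.1 h4).2
  unfold FL
  have h9 : x ≤ (⌊x⌋₊ : ℝ) + 1 := (Nat.lt_floor_add_one x).le
  have hH0 : (0 : ℝ) ≤ H := Nat.cast_nonneg _
  have h10 : ε * ((H : ℝ) * x) ≤ ε * ((⌊x⌋₊ : ℝ) + 1) * (H : ℝ) := by
    calc ε * ((H : ℝ) * x) = ε * (H : ℝ) * x := by ring
      _ ≤ ε * (H : ℝ) * ((⌊x⌋₊ : ℝ) + 1) := mul_le_mul_of_nonneg_left h9 (by positivity)
      _ = _ := by ring
  linarith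

theorem Bj6 (ε : ℝ) (hε : 0 < ε) : ∃ δ X : ℝ, 0 < δ ∧ ∀ x : ℝ, X ≤ x → ∀ H : ℕ, Real.log x ≤ (H : ℝ) →
    (H : ℝ) ≤ (Real.log x) ^ 2 → (∀ D : Finset ℤ, D ⊆ Finset.Icc 1 (H : ℤ) → FL x H δ D) → Equi x H ε := by
  obtain ⟨X, hX⟩ := Bjc_large (η := ε / 4) (by positivity)
  refine ⟨ε / 4, X, by positivity, fun x hx H hH1 hH2 hF D hD => ?_⟩
  obtain ⟨h1, h2, h3⟩ := hX x hx
  have hD2 : D.image (fun d : ℕ => (d : ℤ)) ⊆ Finset.Icc 1 (H : ℤ) := by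
    intro d hd
    rw [Finset.mem_image] at hd
    obtain ⟨e, he, rfl⟩ := hd
    have := Finset.mem_Icc.1 (hD he)
    rw [Finset.mem_Icc]
    omega
  have h4 := Bjc_main h1 h2 hD
  have h5 := Bjc_err h1 h2 h3 hH2
  have h6 := hF _ hD2
  unfold FL at h6
  have hL0 : (0 : ℝ) < Real.log x := by linarith
  have h8 := (abs_le.1 h4).1
  have h9 : (⌊x⌋₊ : ℝ) ≤ x := Nat.floor_le (by linarith)
  have hH0 : (0 : ℝ) ≤ H := Nat.cast_nonneg _
  have h10 : ε / 4 * ((⌊x⌋₊ : ℝ) + 1) * (H : ℝ) ≤ ε / 2 * ((H : ℝ) * x) := by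
    calc ε / 4 * ((⌊x⌋₊ : ℝ) + 1) * (H : ℝ) = ε / 4 * (H : ℝ) * ((⌊x⌋₊ : ℝ) + 1) := by ring
      _ ≤ ε / 4 * (H : ℝ) * (2 * x) := mul_le_mul_of_nonneg_left (by linarith) (by positivity)
      _ = _ := by ring
  have hHx : 0 ≤ ε * ((H : ℝ) * x) := by positivity
  have h11 : Real.log x * ∑ n ∈ Finset.range (⌊x⌋₊ + 1), |eqT x D n| ≤ ε * ((H : ℝ) * x) := by
    linarith
  have h12 : ∑ n ∈ Finset.range (⌊x⌋₊ + 1), |eqT x D n| ≤ ε * ((H : ℝ) * x / Real.log x) := by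
    rw [mul_comm (Real.log x), ← le_div_iff₀ hL0] at h11
    rwa [mul_div_assoc] at h11
  exact h12

end Pool.Agent.H12.DM
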