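import Pool.Agent.H12.DM.Df
import Pool.Agent.H6.MB.NUA
import Pool.Agent.H6.MF.SNG

/-!
# Nu: existence of the weight `V` (`GoodV`): a variant of `Pool.Agent.H6.MB.NUA`

Copy the proof of `NUA` (`Pool/Agent/H6/MB/NUA.lean`) with the following changes. `L` is the constant of `mer1`, `b₁` the
number from `BLK` for `L`. Let `b ≥ b₁ + 3` (enlarge `b₁`), `δ = dl b = 1/(40 (4b+8))`, `z = x^δ`, `w = yy x`,
`nu n = ∏_{j<J} gb (b + j) (om B_j n)` and `V = (EP w z)⁻¹ * nu`.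

* nonnegative; `V n = (EP w z)⁻¹` if no prime of `PI w z` divides `n`: as in `NUA`.
* `TD`: as in `NUA` the `TD` bound of `nu` is `∏_j z_j^{2(b+j)} ≤ x^{δ (4b+4)} ≤ x^{1/40}`. Multiplication by the constant
  `(EP w z)⁻¹ ≤ C log x` (`mer2` for `EP 0 z = EP 0 w * EP w z ≤ EP w z`, `z ≤ x`) gives `TD` with
  `C log x * x^{1/40} ≤ x^{1/30}` for large `x` (if `TD P B F` then `TD P (c*B) (c*F)` for `c ≥ 0`: scale the coefficients).
* upper bound: as in `NUA` (`avg_mul` over the blocks, `BLK`) but keep the product over the primes dividing a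
  difference:
  `avgP (PR w z) (∏_{a∈s} nu(m+a)^{e a}) ≤ ∏_j (1 + (1/2)^{b+j}) * (EP w z)^{|s|} * ∏_{p ∈ PI w z, p ∣ some difference} (1 + 14/p)`
  and `∏_j (1 + (1/2)^{b+j}) ≤ exp (2 * (1/2)^b) ≤ 1 + 4 * (1/2)^b` (`2 (1/2)^b ≤ 1`). (In `BLK` the filter is over the
  block; the product of the block products is the product over `PI w z`, `NUA_prod`.) Multiply by `(EP w z)⁻¹ ^ ∑ e a`
  and use `∑ e a = |s| + ∑ (e a - 1)`. Note: in `GoodV` the hypothesis is `1 ≤ e a ≤ 4` for all `a`, as in `NUA`.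
* lower bound (new): for `|s| ≤ 3`: `∏_{a∈s} gb b' (om B (m+a)) ≥ ∏_{p ∈ B} (if ∃ a ∈ s, p ∣ m + a then 0 else 1)` (if all
  `om B (m+a) = 0` the left side is `1`, otherwise the right side is `0` and the left is `≥ 0`), as in the proof of
  `BLK_lower`. So by `BLK_avg_prod`, `BLK_avg0`, `BLK_hit_le` (`hit ≤ |s|`): `avgP (PR w z) (∏ nu(m+a)) ≥ ∏_{p ∈ PI w z} (1 - k/p)`,
  `k = |s| ≤ 3` (either block by block, or in one step for `PI w z`: `nu(m) ≥ 1` if no prime of `PI w z` divides `m`,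
  `BLK_mono`). Multiplying by `(EP w z)⁻¹^k`: `∏_p (1-k/p)/(1-1/p)^k ≥ ∏_p (1 - 6/p^2) ≥ 1 - 6/w ≥ 1 - 100/w` (`w ≥ 3`, `p ≥ 5`;
  `k=1`: `1`; `k=2`: `1 - 1/(p-1)^2`; `k=3`: `1 - (3p-1)/(p-1)^3 ≥ 1 - 6/p^2`; `SNG_one_sub`, `SNG_inv_sq` in
  `Pool/Agent/H6/MF/SNG.lean`).
-/

set_option autoImplicit false

namespace Pool.Agent.H12.DM

open Finset Pool.Agent.H17 Pool.Agent.H6.MF Pool.Agent.H6.MB Filter

/-- the product of the block functions -/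
noncomputable def Nu_f (b J : ℕ) (w z : ℝ) (n : ℤ) : ℝ :=
  ∏ j ∈ range J, gb (b + j) (om (NUA_B w z j) n)

theorem Nu_nonneg (b J : ℕ) (w z : ℝ) (n : ℤ) : 0 ≤ Nu_f b J w z n :=
  Finset.prod_nonneg fun j _ => gb_nonneg _ _

theorem Nu_one {b J : ℕ} {w z : ℝ} (hz : 1 ≤ z) {n : ℤ}
    (hn : ∀ p ∈ PI w z, ¬ (p : ℤ) ∣ n) : Nu_f b J w z n = 1 := by
  refine Finset.prod_eq_one fun j _ => ?_
  have h1 : om (NUA_B w z j) n = 0 := by
    refine NUA_om fun p hp => hn p ?_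
    have hp1 := (NUA_memB hz).1 hp
    rw [NUA_mem (by linarith)]
    refine ⟨hp1.1, hp1.2.1, hp1.2.2.2.trans ?_⟩
    have h2 := NUA_anti hz (Nat.zero_le j)
    rwa [NUA_z_zero] at h2
  rw [h1, gb, if_pos rfl]

theorem Nu_smul {P : ℕ} (hP : 0 < P) {B : ℝ} {F : ℤ → ℝ} (h : TD P B F) {c : ℝ} (hc : 0 ≤ c) :
    TD P (c * B) (fun n => c * F n) := by
  have h1 := TD_ind (P := P) (q := 1) one_pos (one_dvd P) 0 c
  have h2 := TD_mul hP h1 h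
  rw [abs_of_nonneg hc] at h2
  have h3 : (fun n : ℤ => (if ((1 : ℕ) : ℤ) ∣ n - 0 then c else 0) * F n) = fun n => c * F n := by
    funext n
    rw [if_pos (by simp)]
  rwa [h3] at h2

theorem Nu_PRpos {w z : ℝ} (hz : 1 ≤ z) : 0 < PR w z :=
  Finset.prod_pos fun p hp => ((NUA_mem (by linarith)).1 hp).1.pos

theorem Nu_TD {b J : ℕ} {w z : ℝ} (hz : 1 ≤ z) (hJ : NUA_z z J < 2) :
    TD (PR w z) (∏ j ∈ range J, NUA_z z j ^ (2 * (b + j))) (Nu_f b J w z) := by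
  have hPR : PR w z = ∏ j ∈ range J, ∏ p ∈ NUA_B w z j, p := NUA_prod hz (fun p => p) hJ
  have hBp : ∀ j, ∀ p ∈ NUA_B w z j, p.Prime := fun j p hp => ((NUA_memB hz).1 hp).1
  have h1 : ∀ j ∈ range J, TD (PR w z) (NUA_z z j ^ (2 * (b + j)))
      (fun n => gb (b + j) (om (NUA_B w z j) n)) := by
    intro j hj
    refine TD_mono (gb_TD (b + j) (hBp j) (NUA_one_le hz j)
      (fun p hp => ((NUA_memB hz).1 hp).2.2.2)) ?_ le_rfl
    rw [hPR]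
    exact Finset.dvd_prod_of_mem (fun j => ∏ p ∈ NUA_B w z j, p) hj
  exact TD_prod (range J) (Nu_PRpos hz) h1

theorem Nu_lev {b J : ℕ} {x : ℝ} (hx1 : 1 ≤ x) :
    ∏ j ∈ range J, NUA_z (x ^ dl b) j ^ (2 * (b + j)) ≤ x ^ (1 / 40 : ℝ) := by
  have hx0 : (0 : ℝ) < x := by linarith
  have hδ := dl_pos b
  have hz : 1 ≤ x ^ dl b := Real.one_le_rpow hx1 hδ.le
  have h2 : ∏ j ∈ range J, NUA_z (x ^ dl b) j ^ (2 * (b + j)) =
      x ^ (∑ j ∈ range J, 2 * dl b * ((1 / 2 : ℝ) ^ j * ((b : ℝ) + j))) := by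
    rw [Real.rpow_sum_of_pos hx0]
    refine Finset.prod_congr rfl fun j _ => ?_
    rw [NUA_z, ← Real.rpow_natCast, ← Real.rpow_mul (by linarith), ← Real.rpow_mul hx0.le]
    congr 1
    push_cast
    ring
  rw [h2]
  refine Real.rpow_le_rpow_of_exponent_le hx1 ?_
  rw [← Finset.mul_sum]
  have h3 := NUA_sumj (b : ℝ) J
  have h4 : (0 : ℝ) ≤ 2 * ((b : ℝ) + J + 1) * (1 / 2 : ℝ) ^ J := by positivity
  have h5 : ∑ j ∈ range J, (1 / 2 : ℝ) ^ j * ((b : ℝ) + j) ≤ 2 * b + 2 := by linarith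
  have h6 : 2 * dl b * ∑ j ∈ range J, (1 / 2 : ℝ) ^ j * ((b : ℝ) + j) ≤ 2 * dl b * (2 * b + 2) :=
    mul_le_mul_of_nonneg_left h5 (by positivity)
  refine h6.trans ?_
  have hb : (0 : ℝ) ≤ b := Nat.cast_nonneg b
  unfold dl
  rw [mul_one_div, div_mul_eq_mul_div, div_le_div_iff₀ (by positivity) (by norm_num)]
  nlinarith

theorem Nu_upper {L : ℝ} {b₁ b J : ℕ} {w z : ℝ} (hz : 1 ≤ z) (hJ : NUA_z z J < 2)
    (hmer : ∀ z : ℝ, 1 ≤ z → ∑ p ∈ PI (Real.sqrt z) z, 1 / (p : ℝ) ≤ L)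
    (hb₁ : ∀ b : ℕ, b₁ ≤ b → ∀ B : Finset ℕ, (∀ p ∈ B, p.Prime) →
    ∑ p ∈ B, 1 / (p : ℝ) ≤ L → ∀ s : Finset ℤ, 1 ≤ s.card → s.card ≤ 4 → ∀ e : ℤ → ℕ, (∀ a, 1 ≤ e a ∧ e a ≤ 4) →
    avgP (∏ p ∈ B, p) (fun m => ∏ a ∈ s, gb b (om B (m + a)) ^ e a)
      ≤ (1 + (1 / 2) ^ b) * (∏ p ∈ B, (1 - 1 / (p : ℝ))) ^ s.card *
          ∏ p ∈ B.filter (fun p : ℕ => ∃ a ∈ s, ∃ a' ∈ s, a ≠ a' ∧ (p : ℤ) ∣ a - a'), (1 + 14 / (p : ℝ)))
    (hb : b₁ ≤ b) (s : Finset ℤ) (hs1 : 1 ≤ s.card) (hs4 : s.card ≤ 4) (e : ℤ → ℕ)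
    (he : ∀ a, 1 ≤ e a ∧ e a ≤ 4) :
    avgP (PR w z) (fun m => ∏ a ∈ s, Nu_f b J w z (m + a) ^ e a) ≤
      Real.exp (2 * (1 / 2 : ℝ) ^ b) * EP w z ^ s.card *
      ∏ p ∈ (PI w z).filter (fun p : ℕ => ∃ a ∈ s, ∃ a' ∈ s, a ≠ a' ∧ (p : ℤ) ∣ a - a'),
        (1 + 14 / (p : ℝ)) := by
  classical
  have hPR : PR w z = ∏ j ∈ range J, ∏ p ∈ NUA_B w z j, p := NUA_prod hz (fun p => p) hJ
  have hEP : EP w z = ∏ j ∈ range J, ∏ p ∈ NUA_B w z j, (1 - 1 / (p : ℝ)) := NUA_prod hz _ hJ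
  have hBp : ∀ j, ∀ p ∈ NUA_B w z j, p.Prime := fun j p hp => ((NUA_memB hz).1 hp).1
  have hBsum : ∀ j, ∑ p ∈ NUA_B w z j, 1 / (p : ℝ) ≤ L := by
    intro j
    refine le_trans ?_ (hmer (NUA_z z j) (NUA_one_le hz j))
    refine Finset.sum_le_sum_of_subset_of_nonneg (fun p hp => ?_) fun _ _ _ => by positivity
    rw [NUA_memB hz] at hp
    rw [NUA_mem (by linarith [NUA_one_le hz j]), NUA_z_succ (by linarith)]
    exact ⟨hp.1, hp.2.2.1, hp.2.2.2⟩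
  have h1 : (fun m : ℤ => ∏ a ∈ s, Nu_f b J w z (m + a) ^ e a) =
      fun m => ∏ j ∈ range J, ∏ a ∈ s, gb (b + j) (om (NUA_B w z j) (m + a)) ^ e a := by
    funext m
    rw [Finset.prod_comm]
    exact Finset.prod_congr rfl fun a _ => (Finset.prod_pow _ _ _).symm
  rw [h1, hPR, NUA_avg (fun j => ∏ p ∈ NUA_B w z j, p)
    (fun j m => ∏ a ∈ s, gb (b + j) (om (NUA_B w z j) (m + a)) ^ e a) (NUA_pos w z hz)
    (fun j n k => by
      refine Finset.prod_congr rfl fun a _ => ?_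
      rw [show n + k * ((∏ p ∈ NUA_B w z j, p : ℕ) : ℤ) + a =
        (n + a) + k * ((∏ p ∈ NUA_B w z j, p : ℕ) : ℤ) by ring, NUA_om_per]) (NUA_cop hz)]
  have h2 : ∀ j ∈ range J, avgP (∏ p ∈ NUA_B w z j, p)
      (fun m => ∏ a ∈ s, gb (b + j) (om (NUA_B w z j) (m + a)) ^ e a) ≤
      (1 + (1 / 2) ^ (b + j)) * (∏ p ∈ NUA_B w z j, (1 - 1 / (p : ℝ))) ^ s.card *
        ∏ p ∈ NUA_B w z j, (if ∃ a ∈ s, ∃ a' ∈ s, a ≠ a' ∧ (p : ℤ) ∣ a - a' then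
          (1 + 14 / (p : ℝ)) else 1) := by
    intro j _
    rw [← Finset.prod_filter]
    exact hb₁ (b + j) (hb.trans (Nat.le_add_right _ _))
      (NUA_B w z j) (hBp j) (hBsum j) s hs1 hs4 e he
  refine (Finset.prod_le_prod (fun j _ => ?_) h2).trans ?_
  · refine div_nonneg (Finset.sum_nonneg fun m _ => Finset.prod_nonneg fun a _ => ?_)
      (Nat.cast_nonneg _)
    exact pow_nonneg (gb_nonneg _ _) _
  rw [Finset.prod_mul_distrib, Finset.prod_mul_distrib, Finset.prod_pow, ← hEP,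
    ← NUA_prod hz _ hJ, Finset.prod_filter]
  have hEP0 : 0 ≤ EP w z := (EP_pos w z).le
  refine mul_le_mul_of_nonneg_right ?_ (Finset.prod_nonneg fun _ _ => by split_ifs <;> positivity)
  exact mul_le_mul_of_nonneg_right (NUA_geom b J) (pow_nonneg hEP0 _)

theorem Nu_u (k : ℕ) (hk3 : k ≤ 3) (u : ℝ) (hu0 : 0 ≤ u) (hu : u ≤ 1 / 5) :
    (1 - 6 * u ^ 2) * (1 - u) ^ k ≤ 1 - k * u := by
  interval_cases k
  · simp
    positivity
  · push_cast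
    nlinarith [mul_nonneg (sq_nonneg u) (by linarith : (0:ℝ) ≤ 1 - u)]
  · push_cast
    have h1 : 0 ≤ u ^ 2 * (6 * (1 - u) ^ 2 - 1) := by
      refine mul_nonneg (sq_nonneg u) ?_
      nlinarith
    nlinarith
  · push_cast
    have h2 : (4 / 5 : ℝ) ^ 3 ≤ (1 - u) ^ 3 := pow_le_pow_left₀ (by norm_num) (by linarith) 3
    have h1 : 0 ≤ u ^ 2 * (6 * (1 - u) ^ 3 - (3 - u)) := by
      refine mul_nonneg (sq_nonneg u) ?_
      norm_num at h2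
      nlinarith [h2]
    nlinarith

theorem Nu_lower {b J : ℕ} {y : ℕ} {z : ℝ} (hy : 5 ≤ y) (hz : 1 ≤ z)
    (s : Finset ℤ) (hs3 : s.card ≤ 3) :
    1 - 6 / (y : ℝ) ≤ (EP (y : ℝ) z)⁻¹ ^ s.card *
      avgP (PR (y : ℝ) z) (fun m => ∏ a ∈ s, Nu_f b J (y : ℝ) z (m + a)) := by
  classical
  have hmem : ∀ p ∈ PI (y : ℝ) z, p.Prime ∧ y < p := by
    intro p hp
    rw [NUA_mem (by linarith)] at hp
    exact ⟨hp.1, by exact_mod_cast hp.2.1⟩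
  have h1 : ∀ n : ℤ, (∏ p ∈ PI (y : ℝ) z, if ∃ a ∈ s, (p : ℤ) ∣ n + a then (0 : ℝ) else 1) ≤
      ∏ a ∈ s, Nu_f b J (y : ℝ) z (n + a) := by
    intro n
    by_cases h0 : ∃ p ∈ PI (y : ℝ) z, ∃ a ∈ s, (p : ℤ) ∣ n + a
    · obtain ⟨p, hp, ha⟩ := h0
      have h2 : (∏ p ∈ PI (y : ℝ) z, if ∃ a ∈ s, (p : ℤ) ∣ n + a then (0 : ℝ) else 1) = 0 :=
        Finset.prod_eq_zero hp (if_pos ha)
      rw [h2]
      exact Finset.prod_nonneg fun a _ => Nu_nonneg _ _ _ _ _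
    · push Not at h0
      have h2 : ∏ a ∈ s, Nu_f b J (y : ℝ) z (n + a) = 1 :=
        Finset.prod_eq_one fun a ha => Nu_one hz fun p hp => h0 p hp a ha
      rw [h2]
      exact Finset.prod_le_one (fun p _ => by split_ifs <;> norm_num)
        (fun p _ => by split_ifs <;> norm_num)
  have h2 : avgP (PR (y : ℝ) z) (fun n => ∏ p ∈ PI (y : ℝ) z,
      if ∃ a ∈ s, (p : ℤ) ∣ n + a then (0 : ℝ) else 1) =
      ∏ p ∈ PI (y : ℝ) z, avgP p (fun n => if ∃ a ∈ s, (p : ℤ) ∣ n + a then (0 : ℝ) else 1) := by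
    refine BLK_avg_prod (PI (y : ℝ) z) (fun p hp => (hmem p hp).1)
      (fun p n => if ∃ a ∈ s, (p : ℤ) ∣ n + a then (0 : ℝ) else 1) ?_
    intro p _ n k
    simp only [BLK_dvd_shift]
  have h3 : ∏ p ∈ PI (y : ℝ) z, avgP p (fun n => if ∃ a ∈ s, (p : ℤ) ∣ n + a then (0 : ℝ) else 1)
      ≤ avgP (PR (y : ℝ) z) (fun m => ∏ a ∈ s, Nu_f b J (y : ℝ) z (m + a)) := by
    rw [← h2]
    exact BLK_mono h1
  have hE : 0 ≤ (EP (y : ℝ) z)⁻¹ ^ s.card := pow_nonneg (inv_nonneg.2 (EP_pos _ _).le) _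
  refine le_trans ?_ (mul_le_mul_of_nonneg_left h3 hE)
  unfold EP
  rw [← Finset.prod_inv_distrib, ← Finset.prod_pow, ← Finset.prod_mul_distrib]
  have h4 := SNG_one_sub (PI (y : ℝ) z)
    (fun p : ℕ => (1 - 1 / (p : ℝ))⁻¹ ^ s.card *
      avgP p (fun n => if ∃ a ∈ s, (p : ℤ) ∣ n + a then (0 : ℝ) else 1))
    (fun p : ℕ => 6 / (p : ℝ) ^ 2) (fun p _ => by positivity) ?_ ?_
  · refine le_trans ?_ h4
    have h5 := SNG_inv_sq (K := 6) (by norm_num) (y := y) (by omega) (PI (y : ℝ) z)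
      (fun p hp => (hmem p hp).2)
    linarith
  · intro p hp
    have h6 : (6 : ℝ) ≤ p := by
      have := (hmem p hp).2
      exact_mod_cast (by omega : 6 ≤ p)
    rw [div_le_one (by positivity)]
    nlinarith
  · intro p hp
    have h6 : (6 : ℝ) ≤ p := by
      have := (hmem p hp).2
      exact_mod_cast (by omega : 6 ≤ p)
    have hp0 : (0 : ℝ) < p := by linarith
    have hu : 1 / (p : ℝ) ≤ 1 / 5 := one_div_le_one_div_of_le (by norm_num) (by linarith)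
    have hu0 : 0 ≤ 1 / (p : ℝ) := by positivity
    rw [BLK_avg0 (hmem p hp).1.pos]
    have h7 := Nu_u s.card hs3 (1 / (p : ℝ)) hu0 hu
    have h8 : (((Finset.range p).filter (fun m : ℕ => ∃ a ∈ s, (p : ℤ) ∣ (m : ℤ) + a)).card : ℝ) / p ≤
        s.card * (1 / (p : ℝ)) := by
      rw [mul_one_div]
      exact div_le_div_of_nonneg_right (by exact_mod_cast BLK_hit_le (hmem p hp).1.pos s) hp0.le
    have h9 : 0 < (1 - 1 / (p : ℝ)) ^ s.card := pow_pos (by linarith) _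
    rw [inv_pow, inv_mul_eq_div, le_div_iff₀ h9]
    have h10 : (6 : ℝ) / (p : ℝ) ^ 2 = 6 * (1 / (p : ℝ)) ^ 2 := by
      rw [one_div_pow, mul_one_div]
    rw [h10]
    linarith

theorem Nu_ev (c : ℝ) (hc : 0 < c) : ∃ X : ℝ, ∀ x : ℝ, X ≤ x → 2 ≤ x ∧ 5 ≤ yy x ∧ (yy x : ℝ) ≤ x ∧
    Real.log x / c * x ^ (1 / 40 : ℝ) ≤ x ^ (1 / 30 : ℝ) := by
  have h1 : ∀ᶠ x : ℝ in atTop, Real.log x ≤ c * x ^ (1 / 120 : ℝ) := by
    have h2 := isLittleO_log_rpow_atTop (show (0 : ℝ) < 1 / 120 by norm_num)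
    have h3 := h2.bound hc
    filter_upwards [h3, eventually_ge_atTop 1] with x hx hx1
    rw [Real.norm_eq_abs, Real.norm_eq_abs, abs_of_nonneg (Real.log_nonneg hx1),
      abs_of_nonneg (by positivity)] at hx
    exact hx
  have h4 : ∀ᶠ x : ℝ in atTop, (yy x : ℝ) ≤ x := by
    filter_upwards [eventually_ge_atTop (Real.exp 1)] with x hx
    have hx0 : 0 < x := lt_of_lt_of_le (Real.exp_pos 1) hx
    have hl : 1 ≤ Real.log x := by rwa [Real.le_log_iff_exp_le hx0]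
    have hll : 0 ≤ Real.log (Real.log x) := Real.log_nonneg hl
    have h5 : ((yy x : ℕ) : ℝ) ≤ Real.log (Real.log x) / 100 := Nat.floor_le (by positivity)
    have h6 := Real.log_le_self (x := Real.log x) (by linarith)
    have h7 := Real.log_le_self (x := x) hx0.le
    linarith
  obtain ⟨X, hX⟩ := Filter.eventually_atTop.1 ((h1.and h4).and ((eventually_ge_atTop 2).and
    (tendsto_yy.eventually_ge_atTop 5)))
  refine ⟨X, fun x hx => ?_⟩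
  obtain ⟨⟨ha, hb⟩, hc', hd⟩ := hX x hx
  refine ⟨hc', hd, hb, ?_⟩
  have hx0 : 0 < x := by linarith
  have h5 : x ^ (1 / 30 : ℝ) = x ^ (1 / 120 : ℝ) * x ^ (1 / 40 : ℝ) := by
    rw [← Real.rpow_add hx0]
    norm_num
  rw [h5]
  refine mul_le_mul_of_nonneg_right ?_ (by positivity)
  rw [div_le_iff₀ hc]
  linarith

theorem Nu_exp {b : ℕ} (hb : 1 ≤ b) :
    Real.exp (2 * (1 / 2 : ℝ) ^ b) ≤ 1 + 4 * (1 / 2 : ℝ) ^ b := by
  have h0 : (0 : ℝ) < (1 / 2 : ℝ) ^ b := by positivity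
  have h1 : (1 / 2 : ℝ) ^ b ≤ 1 / 2 := by
    calc (1 / 2 : ℝ) ^ b ≤ (1 / 2 : ℝ) ^ 1 := pow_le_pow_of_le_one (by norm_num) (by norm_num) hb
      _ = 1 / 2 := pow_one _
  have h2 := Real.abs_exp_sub_one_sub_id_le (x := 2 * (1 / 2 : ℝ) ^ b)
    (by rw [abs_of_nonneg (by positivity)]; linarith)
  have h3 := (abs_le.1 h2).2
  nlinarith

theorem Nu : ∃ b₁ : ℕ, ∀ b : ℕ, b₁ ≤ b → ∃ X : ℝ, ∀ x : ℝ, X ≤ x → ∃ V : ℤ → ℝ, GoodV b x V := by
  classical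
  obtain ⟨L, hL, hmer⟩ := mer1
  obtain ⟨b₁, hb₁⟩ := BLK L hL
  obtain ⟨c, hc, hmer2⟩ := mer2
  obtain ⟨X, hX⟩ := Nu_ev c hc
  refine ⟨b₁ + 3, fun b hb => ⟨X, fun x hx => ?_⟩⟩
  obtain ⟨hx2, hy5, hyx, hpow⟩ := hX x hx
  have hδ := dl_pos b
  have hδ1 : dl b ≤ 1 := by
    unfold dl
    have : (0 : ℝ) ≤ b := Nat.cast_nonneg b
    rw [div_le_one (by positivity)]
    linarith
  have hx1 : 1 ≤ x := by linarith
  have hx0 : 0 < x := by linarith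
  obtain ⟨z, hzdef⟩ : ∃ z : ℝ, z = x ^ dl b := ⟨_, rfl⟩
  have hz : 1 ≤ z := by
    rw [hzdef]
    exact Real.one_le_rpow hx1 hδ.le
  have hzx : z ≤ x := by
    rw [hzdef]
    calc x ^ dl b ≤ x ^ (1 : ℝ) := Real.rpow_le_rpow_of_exponent_le hx1 hδ1
      _ = x := Real.rpow_one x
  obtain ⟨J, hJ⟩ := NUA_exJ hz
  have hlog : 0 < Real.log x := Real.log_pos (by linarith)
  have hE0 := EP_pos (yy x : ℝ) z
  have hEinv : (EP (yy x : ℝ) z)⁻¹ ≤ Real.log x / c := by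
    have h1 : EP 0 x ≤ EP (yy x : ℝ) z := by
      rcases le_total (yy x : ℝ) z with h | h
      · rw [EP_mul (Nat.cast_nonneg (yy x)) hyx, EP_mul h hzx]
        have h2 := EP_le_one 0 (yy x : ℝ)
        have h3 := EP_le_one z x
        have h4 := EP_pos 0 (yy x : ℝ)
        have h5 := EP_pos z x
        have h6 : EP (yy x : ℝ) z * EP z x ≤ EP (yy x : ℝ) z := mul_le_of_le_one_right hE0.le h3
        calc EP 0 (yy x : ℝ) * (EP (yy x : ℝ) z * EP z x) ≤ 1 * (EP (yy x : ℝ) z * EP z x) :=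
              mul_le_mul_of_nonneg_right h2 (by positivity)
          _ ≤ EP (yy x : ℝ) z := by rw [one_mul]; exact h6
      · have h2 : PI (yy x : ℝ) z = ∅ := by
          rw [Finset.eq_empty_iff_forall_notMem]
          intro p hp
          rw [NUA_mem (by linarith)] at hp
          linarith [hp.2.1, hp.2.2]
        have h3 : EP (yy x : ℝ) z = 1 := by
          unfold EP
          rw [h2, Finset.prod_empty]
        rw [h3]
        exact EP_le_one 0 x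
    have h2 := (hmer2 x hx2).trans h1
    rw [inv_le_comm₀ hE0 (by positivity), inv_div]
    exact h2
  have hEi0 : 0 < (EP (yy x : ℝ) z)⁻¹ := inv_pos.2 hE0
  refine ⟨fun n => (EP (yy x : ℝ) z)⁻¹ * Nu_f b J (yy x : ℝ) z n, ?_⟩
  unfold GoodV
  rw [← hzdef]
  refine ⟨fun n => mul_nonneg hEi0.le (Nu_nonneg _ _ _ _ _), fun n hn => ?_, ?_,
    fun s hs1 hs4 e he => ?_, fun s hs1 hs3 => ?_⟩
  · show (EP (yy x : ℝ) z)⁻¹ * Nu_f b J (yy x : ℝ) z n = (EP (yy x : ℝ) z)⁻¹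
    rw [Nu_one hz hn, mul_one]
  · have h1 := Nu_smul (Nu_PRpos hz) (Nu_TD (b := b) (w := (yy x : ℝ)) hz hJ) hEi0.le
    refine TD_mono h1 dvd_rfl ?_
    have h2 := Nu_lev (b := b) (J := J) hx1
    rw [← hzdef] at h2
    refine le_trans (mul_le_mul hEinv h2 (Finset.prod_nonneg fun j _ => ?_) (by positivity)) hpow
    have := NUA_one_le hz j
    positivity
  · have h1 := Nu_upper (w := (yy x : ℝ)) (b := b) hz hJ hmer hb₁ (by omega) s hs1 hs4 e he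
    have h2 : (fun m : ℤ => ∏ a ∈ s, ((EP (yy x : ℝ) z)⁻¹ * Nu_f b J (yy x : ℝ) z (m + a)) ^ e a) =
        fun m => (EP (yy x : ℝ) z)⁻¹ ^ (∑ a ∈ s, e a) *
          ∏ a ∈ s, Nu_f b J (yy x : ℝ) z (m + a) ^ e a := by
      funext m
      rw [← Finset.prod_pow_eq_pow_sum, ← Finset.prod_mul_distrib]
      exact Finset.prod_congr rfl fun a _ => mul_pow _ _ _
    rw [h2, BLK_smul]
    have h3 : ∑ a ∈ s, e a = s.card + ∑ a ∈ s, (e a - 1) := by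
      rw [Finset.card_eq_sum_ones, ← Finset.sum_add_distrib]
      refine Finset.sum_congr rfl fun a _ => ?_
      have := (he a).1
      omega
    have h4 : (EP (yy x : ℝ) z)⁻¹ ^ (∑ a ∈ s, e a) * EP (yy x : ℝ) z ^ s.card =
        (EP (yy x : ℝ) z)⁻¹ ^ (∑ a ∈ s, (e a - 1)) := by
      rw [h3, pow_add, mul_right_comm, ← mul_pow, inv_mul_cancel₀ hE0.ne', one_pow, one_mul]
    have h5 := Nu_exp (b := b) (by omega)
    set Q := ∏ p ∈ (PI (yy x : ℝ) z).filter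
      (fun p : ℕ => ∃ a ∈ s, ∃ a' ∈ s, a ≠ a' ∧ (p : ℤ) ∣ a - a'), (1 + 14 / (p : ℝ)) with hQ
    have hQ0 : 0 ≤ Q := Finset.prod_nonneg fun _ _ => by positivity
    calc (EP (yy x : ℝ) z)⁻¹ ^ (∑ a ∈ s, e a) *
          avgP (PR (yy x : ℝ) z) (fun m => ∏ a ∈ s, Nu_f b J (yy x : ℝ) z (m + a) ^ e a)
        ≤ (EP (yy x : ℝ) z)⁻¹ ^ (∑ a ∈ s, e a) *
          (Real.exp (2 * (1 / 2 : ℝ) ^ b) * EP (yy x : ℝ) z ^ s.card * Q) :=
          mul_le_mul_of_nonneg_left h1 (by positivity)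
      _ = Real.exp (2 * (1 / 2 : ℝ) ^ b) *
          ((EP (yy x : ℝ) z)⁻¹ ^ (∑ a ∈ s, e a) * EP (yy x : ℝ) z ^ s.card) * Q := by ring
      _ = Real.exp (2 * (1 / 2 : ℝ) ^ b) * (EP (yy x : ℝ) z)⁻¹ ^ (∑ a ∈ s, (e a - 1)) * Q := by
          rw [h4]
      _ ≤ (1 + 4 * (1 / 2 : ℝ) ^ b) * (EP (yy x : ℝ) z)⁻¹ ^ (∑ a ∈ s, (e a - 1)) * Q := by
          refine mul_le_mul_of_nonneg_right (mul_le_mul_of_nonneg_right h5 (by positivity)) hQ0
  · have h1 := Nu_lower (b := b) (J := J) (y := yy x) (z := z) hy5 hz s hs3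
    have h2 : (fun m : ℤ => ∏ a ∈ s, ((EP (yy x : ℝ) z)⁻¹ * Nu_f b J (yy x : ℝ) z (m + a))) =
        fun m => (EP (yy x : ℝ) z)⁻¹ ^ s.card *
          ∏ a ∈ s, Nu_f b J (yy x : ℝ) z (m + a) := by
      funext m
      rw [Finset.prod_mul_distrib, Finset.prod_const]
    rw [h2, BLK_smul]
    refine le_trans ?_ h1
    have h3 : (0 : ℝ) < yy x := by exact_mod_cast (by omega : 0 < yy x)
    have h4 : (6 : ℝ) / (yy x : ℝ) ≤ 100 / (yy x : ℝ) :=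
      div_le_div_of_nonneg_right (by norm_num) h3.le
    linarith

end Pool.Agent.H12.DM
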