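import Pool.Agent.H12.DM.Vb
import Pool.Agent.H12.DM.Nu

/-!
# Vc: the window inequality with the majorant

Let `C` be the constant of `Vb`, `b₁` from `Nu`. Choose `b ≥ b₁`, `b ≥ 2` and `y = 2^b` such that with `C₂ = 1/dl b + 5 = 40 (4b+8) + 5`:
`C * C₂^2 * (wp y)^4 * √(3 * (1/2)^b) ≤ ε * (dl b)^2`. This is possible: `wp y = (EP 0 y)⁻¹ ≤ log y/c ≤ b/c` (`wp_eq`, `mer2`), so the left side divided
by `(dl b)^2` is at most a polynomial in `b` times `(1/2)^{b/2}`, which tends to `0`. Put `K = 2^b`: for `H ≥ K log x` we have `log x/H ≤ (1/2)^b`, hence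
`(1/2)^b + 1/y + log x/H ≤ 3 (1/2)^b`.
`Mm (yy x) n * V n = Mm y n + Dd x y V n` and `Mm y n ≤ wp y`:
`∑ Mm V (nf)^2 ≤ wp y * ∑ (nf)^2 + ∑ Dd * (nf)^2`, then `Vb`.

`Vmaj` (the majorant): let `La x n ≠ 0`, so `n` is a prime with `x^(1/4) < n ≤ x`. For large `x`: `w = yy x ≤ x^(dl b) = z ≤ x^(1/4)` (`dl b ≤ 1/320`), so `n` is
coprime to `WW w` and no prime of `PI w z` divides `n`: `Mm w n = wp w`, `V n = (EP w z)⁻¹`, and `wp w * (EP w z)⁻¹ = (EP 0 z)⁻¹ ≥ log z = dl b * log x` (`wp_eq`, `EP_mul`,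
`mer3`). So `La x n = log x ≤ (1/dl b) * (Mm w n * V n)`.
-/

set_option autoImplicit false

namespace Pool.Agent.H12.DM

open Finset Pool.Agent.H17 Pool.Agent.H6.MF Pool.Agent.H6.MB

lemma Vc_dl_le (b : ℕ) : dl b ≤ 1 / 4 := by
  unfold dl
  have hb : (0 : ℝ) ≤ (b : ℝ) := Nat.cast_nonneg b
  apply one_div_le_one_div_of_le (by norm_num)
  nlinarith

lemma Vc_memPI {w z : ℝ} {p : ℕ} (hz : 0 ≤ z) (hp : p ∈ PI w z) : p.Prime ∧ (p : ℝ) ≤ z := by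
  unfold PI at hp
  rw [Finset.mem_filter, Finset.mem_range] at hp
  refine ⟨hp.2.1, ?_⟩
  exact (Nat.le_floor_iff hz).1 (by omega)

lemma Vc_large (b : ℕ) : ∃ X : ℝ, ∀ x : ℝ, X ≤ x → 1 ≤ x ∧ 1 ≤ Real.log x ∧ 2 ≤ x ^ dl b ∧ (yy x : ℝ) ≤ x ^ dl b := by
  have hd := dl_pos b
  have h1 : ∀ᶠ x : ℝ in Filter.atTop, 1 ≤ x := Filter.eventually_ge_atTop 1
  have h2 : ∀ᶠ x : ℝ in Filter.atTop, 1 ≤ Real.log x := Real.tendsto_log_atTop.eventually_ge_atTop 1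
  have h3 : ∀ᶠ x : ℝ in Filter.atTop, 2 ≤ x ^ dl b := (tendsto_rpow_atTop hd).eventually_ge_atTop 2
  have h4 : ∀ᶠ t : ℝ in Filter.atTop, ‖Real.log t‖ ≤ dl b * ‖id t‖ := Real.isLittleO_log_id_atTop.bound hd
  have h5 : ∀ᶠ x : ℝ in Filter.atTop, ‖Real.log (Real.log x)‖ ≤ dl b * ‖id (Real.log x)‖ :=
    Real.tendsto_log_atTop.eventually h4
  obtain ⟨X, hX⟩ := Filter.eventually_atTop.1 (h1.and (h2.and (h3.and h5)))
  refine ⟨X, fun x hx => ?_⟩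
  obtain ⟨a1, a2, a3, a4⟩ := hX x hx
  refine ⟨a1, a2, a3, ?_⟩
  have e1 : 0 ≤ Real.log (Real.log x) := Real.log_nonneg a2
  have e2 : Real.log (Real.log x) ≤ dl b * Real.log x := by
    simp only [id, Real.norm_eq_abs] at a4
    rw [abs_of_nonneg e1, abs_of_nonneg (by linarith)] at a4
    exact a4
  have e3 : ((yy x : ℕ) : ℝ) ≤ Real.log (Real.log x) / 100 := by
    unfold yy
    exact Nat.floor_le (by positivity)
  have e4 : x ^ dl b = Real.exp (Real.log x * dl b) := Real.rpow_def_of_pos (by linarith) _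
  rw [e4]
  have e5 := Real.add_one_le_exp (Real.log x * dl b)
  linarith

theorem Vmaj (b : ℕ) : ∃ X : ℝ, ∀ x : ℝ, X ≤ x → ∀ V : ℤ → ℝ, GoodV b x V → ∀ n : ℤ,
    La x n ≤ 1 / dl b * (Mm (yy x) n * V n) := by
  obtain ⟨X, hX⟩ := Vc_large b
  refine ⟨X, fun x hx V hV n => ?_⟩
  obtain ⟨a1, a2, a3, a4⟩ := hX x hx
  have hd := dl_pos b
  by_cases h : isP n ∧ x ^ (1 / 4 : ℝ) < (n : ℝ) ∧ (n : ℝ) ≤ x
  · obtain ⟨hp, hn1, hn2⟩ := h
    have hz4 : x ^ dl b ≤ x ^ (1 / 4 : ℝ) := Real.rpow_le_rpow_of_exponent_le a1 (Vc_dl_le b)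
    have hp' : n.toNat.Prime := hp
    have hnn : ((n.toNat : ℕ) : ℤ) = n := by
      apply Int.toNat_of_nonneg
      by_contra hneg
      have : n.toNat = 0 := Int.toNat_of_nonpos (by omega)
      rw [this] at hp'
      exact Nat.not_prime_zero hp'
    set m := n.toNat with hm
    have hmn : (m : ℝ) = (n : ℝ) := by
      rw [← hnn]; simp
    have hndvd : ∀ p : ℕ, p.Prime → (p : ℝ) ≤ x ^ dl b → ¬ p ∣ m := by
      intro p hpp hle hdv
      have : p = m := (Nat.prime_dvd_prime_iff_eq hpp hp').1 hdv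
      rw [this, hmn] at hle
      linarith
    have hMm : Mm (yy x) n = wp (yy x) := by
      unfold Mm
      rw [if_pos]
      rw [← hnn, Int.gcd_natCast_natCast]
      show m.Coprime (WW (yy x))
      rw [coprime_WW]
      intro p hpm
      have hpm' := mem_PP.mp hpm
      refine hndvd p hpm'.2 ?_
      have : (p : ℝ) ≤ (yy x : ℝ) := by exact_mod_cast hpm'.1
      linarith
    have hVn : V n = (EP (yy x : ℝ) (x ^ dl b))⁻¹ := by
      apply hV.2.1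
      intro p hpp hdv
      have hq := Vc_memPI (by linarith) hpp
      refine hndvd p hq.1 hq.2 ?_
      rw [← hnn] at hdv
      exact_mod_cast hdv
    have hLa : La x n = Real.log x := by
      unfold La
      rw [if_pos ⟨hp, hn1, hn2⟩]
    rw [hLa, hMm, hVn, wp_eq, ← mul_inv, ← EP_mul (by positivity) a4]
    have h3 := mer3 (x ^ dl b) a3
    have hpos := EP_pos 0 (x ^ dl b)
    have hlog : Real.log (x ^ dl b) = dl b * Real.log x := Real.log_rpow (by linarith) _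
    rw [hlog] at h3
    have hL : 0 < dl b * Real.log x := by
      apply mul_pos hd
      linarith
    have h4 : dl b * Real.log x ≤ (EP 0 (x ^ dl b))⁻¹ := by
      rw [le_inv_comm₀ hL hpos, inv_eq_one_div]
      exact h3
    calc Real.log x = 1 / dl b * (dl b * Real.log x) := by
          field_simp
      _ ≤ 1 / dl b * (EP 0 (x ^ dl b))⁻¹ := by
          apply mul_le_mul_of_nonneg_left h4
          positivity
  · have hLa : La x n = 0 := by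
      unfold La
      rw [if_neg h]
    rw [hLa]
    have e1 := hV.1 n
    have e2 := Mm_nonneg (yy x) n
    positivity

lemma Vc_choose (C c ε : ℝ) (hC : 0 < C) (hc : 0 < c) (hε : 0 < ε) (b₁ : ℕ) : ∃ b : ℕ, b₁ ≤ b ∧ 2 ≤ b ∧
    C * (1 / dl b + 5) ^ 2 * ((b : ℝ) / c) ^ 4 * Real.sqrt (3 * (1 / 2 : ℝ) ^ b) ≤ ε * (dl b) ^ 2 := by
  have hr0 : (0 : ℝ) ≤ Real.sqrt (1 / 2) := Real.sqrt_nonneg _
  have hr1 : Real.sqrt (1 / 2 : ℝ) < 1 := by
    rw [Real.sqrt_lt' one_pos]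
    norm_num
  have hlim : Filter.Tendsto (fun n : ℕ => (C * 485 ^ 2 / c ^ 4 * 2 * 480 ^ 2) * ((n : ℝ) ^ 8 * (Real.sqrt (1 / 2)) ^ n))
      Filter.atTop (nhds ((C * 485 ^ 2 / c ^ 4 * 2 * 480 ^ 2) * 0)) := by
    apply Filter.Tendsto.const_mul
    apply tendsto_pow_const_mul_const_pow_of_abs_lt_one
    rw [abs_of_nonneg hr0]
    exact hr1
  rw [mul_zero] at hlim
  have h1 := hlim.eventually (gt_mem_nhds hε)
  obtain ⟨b, hb, hb1, hb2⟩ := (h1.and ((Filter.eventually_ge_atTop b₁).and (Filter.eventually_ge_atTop 2))).exists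
  refine ⟨b, hb1, hb2, ?_⟩
  have hbR : (2 : ℝ) ≤ b := by exact_mod_cast hb2
  have hd := dl_pos b
  have hinv : 1 / dl b ≤ 480 * b := by
    unfold dl
    rw [one_div_one_div]
    nlinarith
  have hinv0 : 0 < 1 / dl b := by positivity
  have hD1 : 1 ≤ (480 * (b : ℝ)) ^ 2 * (dl b) ^ 2 := by
    rw [← mul_pow]
    apply one_le_pow₀
    rw [div_le_iff₀ hd] at hinv
    exact hinv
  have hsq : Real.sqrt (3 * (1 / 2 : ℝ) ^ b) ≤ 2 * (Real.sqrt (1 / 2)) ^ b := by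
    rw [Real.sqrt_le_left (by positivity)]
    have : (Real.sqrt (1 / 2 : ℝ) ^ b) ^ 2 = (1 / 2 : ℝ) ^ b := by
      rw [← pow_mul, mul_comm, pow_mul, Real.sq_sqrt (by norm_num)]
    rw [mul_pow, this]
    have : (0 : ℝ) < (1 / 2 : ℝ) ^ b := by positivity
    linarith
  have hC2 : (1 / dl b + 5) ^ 2 ≤ (485 * (b : ℝ)) ^ 2 := by
    apply pow_le_pow_left₀ (by positivity)
    linarith
  calc C * (1 / dl b + 5) ^ 2 * ((b : ℝ) / c) ^ 4 * Real.sqrt (3 * (1 / 2 : ℝ) ^ b)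
      ≤ C * (485 * (b : ℝ)) ^ 2 * ((b : ℝ) / c) ^ 4 * (2 * (Real.sqrt (1 / 2)) ^ b) := by
        apply mul_le_mul _ hsq (Real.sqrt_nonneg _) (by positivity)
        apply mul_le_mul_of_nonneg_right _ (by positivity)
        exact mul_le_mul_of_nonneg_left hC2 hC.le
    _ ≤ C * (485 * (b : ℝ)) ^ 2 * ((b : ℝ) / c) ^ 4 * (2 * (Real.sqrt (1 / 2)) ^ b) * ((480 * (b : ℝ)) ^ 2 * (dl b) ^ 2) := by
        apply le_mul_of_one_le_right (by positivity) hD1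
    _ = ((C * 485 ^ 2 / c ^ 4 * 2 * 480 ^ 2) * ((b : ℝ) ^ 8 * (Real.sqrt (1 / 2)) ^ b)) * (dl b) ^ 2 := by
        field_simp
    _ ≤ ε * (dl b) ^ 2 := by
        apply mul_le_mul_of_nonneg_right hb.le (by positivity)

theorem Vc (ε : ℝ) (hε : 0 < ε) : ∃ b y : ℕ, ∃ K X : ℝ, ∀ x : ℝ, X ≤ x → ∃ V : ℤ → ℝ, GoodV b x V ∧
    ∀ H : ℕ, K * Real.log x ≤ (H : ℝ) → (H : ℝ) ≤ (Real.log x) ^ 2 → ∀ D : Finset ℤ, D ⊆ Finset.Icc 1 (H : ℤ) →
    ∀ f : ℤ → ℝ, (∀ n, |f n| ≤ (1 / dl b + 5) * Uu x V n) →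
    (∀ n : ℤ, n < 0 ∨ ((⌊x⌋₊ + 1 : ℕ) : ℤ) ≤ n → f n = 0) →
    ∑ n ∈ rgH x H, Mm (yy x) (n : ℤ) * V (n : ℤ) * (nf D f (n : ℤ)) ^ 2
      ≤ wp y * ∑ n ∈ rgH x H, (nf D f (n : ℤ)) ^ 2 + ε * (dl b) ^ 2 * ((⌊x⌋₊ : ℝ) + 1) * (H : ℝ) ^ 2 := by
  obtain ⟨C, hC, hVb⟩ := Vb
  obtain ⟨b₁, hNu⟩ := Nu
  obtain ⟨c, hc, hmer⟩ := mer2
  obtain ⟨b, hb1, hb2, hbε⟩ := Vc_choose C c ε hC hc hε b₁
  set y : ℕ := 2 ^ b with hy
  have hy4 : 4 ≤ y := by
    calc 4 = 2 ^ 2 := by norm_num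
      _ ≤ 2 ^ b := Nat.pow_le_pow_right (by norm_num) hb2
  have hyR : (y : ℝ) = 2 ^ b := by rw [hy]; push_cast; rfl
  have hwp : wp y ≤ (b : ℝ) / c := by
    rw [wp_eq]
    have h1 := hmer (y : ℝ) (by exact_mod_cast (by omega : 2 ≤ y))
    have h2 : Real.log (y : ℝ) ≤ (b : ℝ) := by
      rw [hyR, Real.log_pow]
      have : Real.log 2 ≤ 1 := by
        have := Real.log_two_lt_d9
        linarith
      have hb0 : (0 : ℝ) ≤ b := Nat.cast_nonneg b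
      nlinarith
    have h3 : 0 < Real.log (y : ℝ) := Real.log_pos (by exact_mod_cast (by omega : 1 < y))
    have h4 : 0 < c / Real.log (y : ℝ) := div_pos hc h3
    calc (EP 0 (y : ℝ))⁻¹ ≤ (c / Real.log (y : ℝ))⁻¹ := inv_anti₀ h4 h1
      _ = Real.log (y : ℝ) / c := inv_div _ _
      _ ≤ (b : ℝ) / c := by
          exact div_le_div_of_nonneg_right h2 hc.le
  obtain ⟨X₁, hX₁⟩ := hNu b hb1
  obtain ⟨X₂, hX₂⟩ := hVb b y (by omega)
  obtain ⟨X₃, hX₃⟩ := Vc_large b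
  refine ⟨b, y, 2 ^ b, max X₁ (max X₂ X₃), fun x hx => ?_⟩
  obtain ⟨V, hV⟩ := hX₁ x ((le_max_left _ _).trans hx)
  refine ⟨V, hV, fun H hH1 hH2 D hD f hf hf0 => ?_⟩
  obtain ⟨a1, a2, a3, a4⟩ := hX₃ x (((le_max_right _ _).trans (le_max_right _ _)).trans hx)
  have hK1 : (1 : ℝ) ≤ 2 ^ b := one_le_pow₀ (by norm_num)
  have hHlog : Real.log x ≤ (H : ℝ) := by
    refine le_trans ?_ hH1
    nlinarith
  have hHpos : (0 : ℝ) < H := by linarith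
  have hC₂ : (0 : ℝ) ≤ 1 / dl b + 5 := by
    have := dl_pos b
    positivity
  have key := hX₂ x (((le_max_left _ _).trans (le_max_right _ _)).trans hx) V hV H hHlog hH2 D hD (1 / dl b + 5) hC₂ f hf hf0
  have hsq : Real.sqrt ((1 / 2 : ℝ) ^ b + 1 / (y : ℝ) + Real.log x / (H : ℝ)) ≤ Real.sqrt (3 * (1 / 2 : ℝ) ^ b) := by
    apply Real.sqrt_le_sqrt
    have e1 : 1 / (y : ℝ) = (1 / 2 : ℝ) ^ b := by
      rw [hyR, one_div, one_div, inv_pow]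
    have e2 : Real.log x / (H : ℝ) ≤ (1 / 2 : ℝ) ^ b := by
      rw [div_le_iff₀ hHpos]
      have e3 : (1 / 2 : ℝ) ^ b * (2 ^ b * Real.log x) ≤ (1 / 2 : ℝ) ^ b * (H : ℝ) :=
        mul_le_mul_of_nonneg_left hH1 (by positivity)
      have e4 : (1 / 2 : ℝ) ^ b * (2 ^ b * Real.log x) = Real.log x := by
        rw [← mul_assoc, ← mul_pow]
        norm_num
      linarith
    rw [e1]
    linarith
  have hwp0 := wp_pos y
  have hwp4 : (wp y) ^ 4 ≤ ((b : ℝ) / c) ^ 4 := pow_le_pow_left₀ hwp0.le hwp 4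
  have hmain : C * (1 / dl b + 5) ^ 2 * (wp y) ^ 4 *
      Real.sqrt ((1 / 2 : ℝ) ^ b + 1 / (y : ℝ) + Real.log x / (H : ℝ)) ≤ ε * (dl b) ^ 2 := by
    refine le_trans ?_ hbε
    apply mul_le_mul _ hsq (Real.sqrt_nonneg _) (by positivity)
    apply mul_le_mul_of_nonneg_left hwp4 (by positivity)
  have hsplit : ∑ n ∈ rgH x H, Mm (yy x) (n : ℤ) * V (n : ℤ) * (nf D f (n : ℤ)) ^ 2
      = ∑ n ∈ rgH x H, Mm y (n : ℤ) * (nf D f (n : ℤ)) ^ 2 + ∑ n ∈ rgH x H, Dd x y V (n : ℤ) * (nf D f (n : ℤ)) ^ 2 := by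
    rw [← Finset.sum_add_distrib]
    apply Finset.sum_congr rfl
    intro n _
    unfold Dd
    ring
  rw [hsplit]
  apply add_le_add
  · rw [Finset.mul_sum]
    apply Finset.sum_le_sum
    intro n _
    exact mul_le_mul_of_nonneg_right (Mm_le y _) (sq_nonneg _)
  · refine key.trans ?_
    have hN : (0 : ℝ) ≤ (⌊x⌋₊ : ℝ) + 1 := by positivity
    exact mul_le_mul_of_nonneg_right (mul_le_mul_of_nonneg_right hmain hN) (by positivity)

end Pool.Agent.H12.DM
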