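import Pool.Agent.H12.DM.Df
import Pool.Agent.H6.MF.AVG
import Pool.Agent.H6.MF.SMB

/-!
# Ga: averages of `gf`
-/

set_option autoImplicit false

namespace Pool.Agent.H12.DM

open Finset Pool.Agent.H17 Pool.Agent.H6.MF Pool.Agent.H6.MB

lemma Ga_exp {t B : ℝ} (ht : 0 ≤ t) (htB : t ≤ B) : Real.exp t - 1 ≤ t * Real.exp B := by
  have h1 : Real.exp t - 1 ≤ t * Real.exp t := by
    have h0 := Real.add_one_le_exp (-t)
    have h2 := Real.exp_pos t
    have h3 : Real.exp (-t) * Real.exp t = 1 := by rw [← Real.exp_add]; simp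
    nlinarith
  exact h1.trans (mul_le_mul_of_nonneg_left (Real.exp_le_exp.2 htB) ht)

theorem Ga0 (B : ℝ) (hB : 0 ≤ B) : ∃ C : ℝ, 0 < C ∧ ∀ y : ℕ, 1 ≤ y → ∃ X : ℝ, ∀ x : ℝ, X ≤ x → ∀ u v : ℤ,
    |(u : ℝ)| ≤ (Real.log x) ^ 3 → |(v : ℝ)| ≤ (Real.log x) ^ 3 → Real.log x ≤ (v : ℝ) - u →
    ∑ n ∈ (Finset.Ioc u v).erase 0,
      (∏ p ∈ n.natAbs.primeFactors.filter (fun p => y < p), (1 + B / (p : ℝ)) - 1) ≤ C / (y : ℝ) * ((v : ℝ) - u) := by
  refine ⟨B * Real.exp B + 2, by positivity, ?_⟩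
  intro y hy
  have hy' : (1 : ℝ) ≤ y := by exact_mod_cast hy
  obtain ⟨Y₀, hY₀1, hY₀⟩ := avg_main B hB 3 y (by omega) (1 / (y : ℝ)) (by positivity)
  refine ⟨Real.exp (max Y₀ y), ?_⟩
  intro x hx u v hu hv huv
  have hx0 : 0 < x := (Real.exp_pos _).trans_le hx
  have hL : max Y₀ y ≤ Real.log x := (Real.le_log_iff_exp_le hx0).2 hx
  have h1 := hY₀ (Real.log x) ((le_max_left _ _).trans hL) u v hu hv huv
  have hLy : (y : ℝ) ≤ v - u := (le_max_right _ _).trans (hL.trans huv)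
  have huv' : u ≤ v := by
    have : (u : ℝ) ≤ v := by linarith
    exact_mod_cast this
  have h2 := (avg_card u v huv').1
  rw [Finset.sum_sub_distrib, Finset.sum_const, nsmul_eq_mul, mul_one]
  have h3 : Real.exp (B / y) - 1 ≤ B / y * Real.exp B :=
    Ga_exp (by positivity) (div_le_self hB hy')
  have h4 : 1 ≤ 1 / (y : ℝ) * (v - u) := by
    rw [div_mul_eq_mul_div, one_mul, one_le_div (by linarith)]
    exact hLy
  have h5 : (Real.exp (B / y) - 1) * ((v : ℝ) - u) ≤ B / y * Real.exp B * ((v : ℝ) - u) :=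
    mul_le_mul_of_nonneg_right h3 (by linarith)
  have h6 : (B * Real.exp B + 2) / (y : ℝ) * ((v : ℝ) - u) =
      B / y * Real.exp B * ((v : ℝ) - u) + 2 * (1 / y * ((v : ℝ) - u)) := by ring
  have h7 : (Real.exp (B / y) + 1 / y) * ((v : ℝ) - u) =
      (Real.exp (B / y) - 1) * ((v : ℝ) - u) + 1 / y * ((v : ℝ) - u) + ((v : ℝ) - u) := by ring
  rw [h6]
  rw [h7] at h1
  linarith

lemma Ga_pow (y : ℕ) (n : ℤ) (K : ℕ) :
    gf y n ^ K ≤ ∏ p ∈ n.natAbs.primeFactors.filter (fun p => y < p),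
      (1 + ((1 + 14 : ℝ) ^ K - 1) / (p : ℝ)) := by
  unfold gf
  rw [← Finset.prod_pow]
  refine Finset.prod_le_prod (fun p _ => by positivity) (fun p hp => ?_)
  have hp1 : (1 : ℝ) ≤ (p : ℝ) := by
    exact_mod_cast (Nat.prime_of_mem_primeFactors (Finset.mem_filter.1 hp).1).one_le
  have := SMB_pow 14 (by norm_num) K (t := 1 / (p : ℝ)) (by positivity)
    (by rw [div_le_one (by linarith)]; exact hp1)
  rw [mul_one_div, mul_one_div] at this
  exact this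

lemma Ga_key : ∃ C : ℝ, 0 < C ∧ ∀ y : ℕ, 1 ≤ y → ∃ X : ℝ, ∀ x : ℝ, X ≤ x → ∀ H : ℕ,
    Real.log x ≤ (H : ℝ) → (H : ℝ) ≤ (Real.log x) ^ 2 → 1 ≤ H ∧
    ∀ a ∈ Finset.Icc (-(H : ℤ)) (H : ℤ),
      ∑ k ∈ (Finset.Icc (-(H : ℤ)) (H : ℤ)).erase a, (gf y (k - a) ^ 6 - 1) ≤
        C / (y : ℝ) * (H : ℝ) := by
  obtain ⟨C, hC, hmain⟩ := Ga0 ((1 + 14) ^ 6 - 1) (by norm_num)
  refine ⟨3 * C, by positivity, ?_⟩
  intro y hy
  obtain ⟨X, hX⟩ := hmain y hy
  refine ⟨max X (Real.exp 3), ?_⟩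
  intro x hx H hH1 hH2
  have hx0 : 0 < x := (Real.exp_pos _).trans_le ((le_max_right _ _).trans hx)
  have hL : 3 ≤ Real.log x := (Real.le_log_iff_exp_le hx0).2 ((le_max_right _ _).trans hx)
  have hHR : (3 : ℝ) ≤ H := hL.trans hH1
  refine ⟨by exact_mod_cast (by linarith : (1 : ℝ) ≤ H), ?_⟩
  intro a ha
  have ha' := Finset.mem_Icc.1 ha
  have ha1 : -(H : ℝ) ≤ a := by exact_mod_cast ha'.1
  have ha2 : (a : ℝ) ≤ H := by exact_mod_cast ha'.2
  have hH3 : 3 * (H : ℝ) ≤ Real.log x ^ 3 := by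
    have h0 : 0 ≤ Real.log x ^ 2 := by positivity
    nlinarith
  have h1 := hX x ((le_max_left _ _).trans hx) (-(H : ℤ) - a - 1) (H - a) (by
      push_cast
      rw [abs_le]
      constructor <;> linarith) (by
      push_cast
      rw [abs_le]
      constructor <;> linarith) (by
      push_cast
      linarith)
  set F : ℤ → ℝ := fun n => ∏ p ∈ n.natAbs.primeFactors.filter (fun p => y < p),
      (1 + ((1 + 14 : ℝ) ^ 6 - 1) / (p : ℝ)) - 1 with hF
  have hF0 : ∀ n, 0 ≤ F n := by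
    intro n
    have : (1 : ℝ) ≤ ∏ p ∈ n.natAbs.primeFactors.filter (fun p => y < p),
      (1 + ((1 + 14 : ℝ) ^ 6 - 1) / (p : ℝ)) := by
      refine Finset.one_le_prod fun p _ => ?_
      have : (0 : ℝ) ≤ ((1 + 14 : ℝ) ^ 6 - 1) / (p : ℝ) := by
        apply div_nonneg
        · norm_num
        · positivity
      linarith
    simp only [hF]
    linarith
  have h2 : ∑ k ∈ (Finset.Icc (-(H : ℤ)) (H : ℤ)).erase a, (gf y (k - a) ^ 6 - 1) ≤
      ∑ n ∈ (Finset.Ioc (-(H : ℤ) - a - 1) (H - a)).erase 0, F n := by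
    calc ∑ k ∈ (Finset.Icc (-(H : ℤ)) (H : ℤ)).erase a, (gf y (k - a) ^ 6 - 1)
        ≤ ∑ k ∈ (Finset.Icc (-(H : ℤ)) (H : ℤ)).erase a, F (k - a) := by
          refine Finset.sum_le_sum fun k _ => ?_
          have := Ga_pow y (k - a) 6
          simp only [hF]
          linarith
      _ = ∑ n ∈ ((Finset.Icc (-(H : ℤ)) (H : ℤ)).erase a).image (fun k => k - a), F n := by
          rw [Finset.sum_image]
          intro i _ j _ hij
          simpa using hij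
      _ ≤ _ := by
          refine Finset.sum_le_sum_of_subset_of_nonneg ?_ (fun i _ _ => hF0 i)
          intro n hn
          obtain ⟨k, hk, rfl⟩ := Finset.mem_image.1 hn
          rw [Finset.mem_erase, Finset.mem_Icc] at hk
          rw [Finset.mem_erase, Finset.mem_Ioc]
          refine ⟨sub_ne_zero.2 hk.1, ?_, ?_⟩ <;> omega
  refine h2.trans (h1.trans ?_)
  push_cast
  have h3 : ((H : ℝ) - a - (-(H : ℝ) - a - 1)) ≤ 3 * H := by linarith
  have h4 : 0 ≤ C / (y : ℝ) := by positivity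
  calc C / (y : ℝ) * ((H : ℝ) - a - (-(H : ℝ) - a - 1)) ≤ C / (y : ℝ) * (3 * H) :=
        mul_le_mul_of_nonneg_left h3 h4
    _ = _ := by ring

lemma Ga_cardT (H : ℕ) (hH : 1 ≤ H) :
    ((Finset.Icc (-(H : ℤ)) (H : ℤ)).card : ℝ) ≤ 3 * H := by
  rw [Int.card_Icc]
  have : ((H : ℤ) + 1 - -(H : ℤ)).toNat = 2 * H + 1 := by omega
  rw [this]
  push_cast
  have : (1 : ℝ) ≤ H := by exact_mod_cast hH
  linarith

/-- sums of sixth powers -/
lemma Ga_key2 : ∃ C : ℝ, 0 < C ∧ ∀ y : ℕ, 1 ≤ y → ∃ X : ℝ, ∀ x : ℝ, X ≤ x → ∀ H : ℕ,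
    Real.log x ≤ (H : ℝ) → (H : ℝ) ≤ (Real.log x) ^ 2 → 1 ≤ H ∧
    ∀ a ∈ Finset.Icc (-(H : ℤ)) (H : ℤ),
      ∑ k ∈ (Finset.Icc (-(H : ℤ)) (H : ℤ)).erase a, gf y (k - a) ^ 6 ≤ C * (H : ℝ) := by
  obtain ⟨C, hC, hmain⟩ := Ga_key
  refine ⟨C + 3, by positivity, ?_⟩
  intro y hy
  obtain ⟨X, hX⟩ := hmain y hy
  refine ⟨X, ?_⟩
  intro x hx H hH1 hH2
  obtain ⟨h1, h2⟩ := hX x hx H hH1 hH2
  refine ⟨h1, fun a ha => ?_⟩
  have h3 := h2 a ha
  rw [Finset.sum_sub_distrib, Finset.sum_const, nsmul_eq_mul, mul_one] at h3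
  have h4 : (((Finset.Icc (-(H : ℤ)) (H : ℤ)).erase a).card : ℝ) ≤ 3 * H := by
    refine le_trans ?_ (Ga_cardT H h1)
    exact_mod_cast Finset.card_le_card (Finset.erase_subset _ _)
  have hy' : (1 : ℝ) ≤ y := by exact_mod_cast hy
  have h5 : C / (y : ℝ) ≤ C := div_le_self hC.le hy'
  have h6 : C / (y : ℝ) * H ≤ C * H := mul_le_mul_of_nonneg_right h5 (by positivity)
  linarith

theorem Ga1 : ∃ C : ℝ, 0 < C ∧ ∀ y : ℕ, 1 ≤ y → ∃ X : ℝ, ∀ x : ℝ, X ≤ x → ∀ H : ℕ, Real.log x ≤ (H : ℝ) →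
    (H : ℝ) ≤ (Real.log x) ^ 2 →
    ∑ h ∈ (Finset.Ioo (-(H : ℤ)) (H : ℤ)).erase 0, gf y h ^ 2 ≤ C * (H : ℝ) ∧
    ∑ h ∈ Finset.Icc (1 : ℤ) (H : ℤ), gf y h ^ 2 ≤ C * (H : ℝ) := by
  obtain ⟨C, hC, hmain⟩ := Ga_key2
  refine ⟨C, hC, ?_⟩
  intro y hy
  obtain ⟨X, hX⟩ := hmain y hy
  refine ⟨X, ?_⟩
  intro x hx H hH1 hH2
  obtain ⟨h1, h2⟩ := hX x hx H hH1 hH2
  have h3 := h2 0 (Finset.mem_Icc.2 ⟨by omega, by omega⟩)
  simp only [sub_zero] at h3
  have h4 : ∀ s : Finset ℤ, s ⊆ (Finset.Icc (-(H : ℤ)) (H : ℤ)).erase 0 →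
      ∑ h ∈ s, gf y h ^ 2 ≤ C * (H : ℝ) := by
    intro s hs
    refine le_trans ?_ h3
    calc ∑ h ∈ s, gf y h ^ 2 ≤ ∑ h ∈ s, gf y h ^ 6 :=
          Finset.sum_le_sum fun i _ => pow_le_pow_right₀ (one_le_gf y i) (by norm_num)
      _ ≤ _ := Finset.sum_le_sum_of_subset_of_nonneg hs fun i _ _ => by
          have := one_le_gf y i
          positivity
  refine ⟨h4 _ ?_, h4 _ ?_⟩
  · intro n hn
    rw [Finset.mem_erase, Finset.mem_Ioo] at hn
    rw [Finset.mem_erase, Finset.mem_Icc]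
    omega
  · intro n hn
    rw [Finset.mem_Icc] at hn
    rw [Finset.mem_erase, Finset.mem_Icc]
    omega

lemma Ga_three {a b c : ℝ} (ha : 1 ≤ a) (hb : 1 ≤ b) (hc : 1 ≤ c) :
    (a * b * c) ^ 2 ≤ a ^ 6 + b ^ 6 + c ^ 6 := by
  have h1 : ∀ m : ℝ, a ≤ m → b ≤ m → c ≤ m → (a * b * c) ^ 2 ≤ m ^ 6 := by
    intro m h1 h2 h3
    have hm : 0 ≤ m := by linarith
    calc (a * b * c) ^ 2 ≤ (m * m * m) ^ 2 := by gcongr
      _ = m ^ 6 := by ring
  have ha6 : 0 ≤ a ^ 6 := by positivity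
  have hb6 : 0 ≤ b ^ 6 := by positivity
  have hc6 : 0 ≤ c ^ 6 := by positivity
  rcases le_total a b with hab | hab
  · rcases le_total b c with hbc | hbc
    · have := h1 c (hab.trans hbc) hbc le_rfl
      linarith
    · have := h1 b hab le_rfl hbc
      linarith
  · rcases le_total a c with hac | hac
    · have := h1 c hac (hab.trans hac) le_rfl
      linarith
    · have := h1 a le_rfl hab hac
      linarith

theorem Ga2 : ∃ C : ℝ, 0 < C ∧ ∀ y : ℕ, 1 ≤ y → ∃ X : ℝ, ∀ x : ℝ, X ≤ x → ∀ H : ℕ, Real.log x ≤ (H : ℝ) →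
    (H : ℝ) ≤ (Real.log x) ^ 2 →
    ∑ a ∈ (Finset.Icc (-(H : ℤ)) (H : ℤ)).erase 0, ∑ c ∈ (Finset.Icc (1 : ℤ) (H : ℤ)).erase a,
      (gf y a * gf y c * gf y (a - c)) ^ 2 ≤ C * (H : ℝ) ^ 2 := by
  obtain ⟨C, hC, hmain⟩ := Ga_key2
  refine ⟨9 * C, by positivity, ?_⟩
  intro y hy
  obtain ⟨X, hX⟩ := hmain y hy
  refine ⟨X, ?_⟩
  intro x hx H hH1 hH2
  obtain ⟨h1, h2⟩ := hX x hx H hH1 hH2
  set T := Finset.Icc (-(H : ℤ)) (H : ℤ) with hT
  have h0T : (0 : ℤ) ∈ T := Finset.mem_Icc.2 ⟨by omega, by omega⟩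
  have h3 := h2 0 h0T
  simp only [sub_zero] at h3
  have hTc : (T.card : ℝ) ≤ 3 * H := Ga_cardT H h1
  have hH0 : (0 : ℝ) ≤ H := by positivity
  have hg : ∀ n, 0 ≤ gf y n ^ 6 := fun n => by
    have := one_le_gf y n
    positivity
  have hD : 0 ≤ C * (H : ℝ) := by positivity
  have hsub : ∀ a, (Finset.Icc (1 : ℤ) (H : ℤ)).erase a ⊆ T := by
    intro a n hn
    rw [Finset.mem_erase, Finset.mem_Icc] at hn
    rw [hT, Finset.mem_Icc]
    omega
  have hsub0 : ∀ a, (Finset.Icc (1 : ℤ) (H : ℤ)).erase a ⊆ T.erase 0 := by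
    intro a n hn
    rw [Finset.mem_erase, Finset.mem_Icc] at hn
    rw [hT, Finset.mem_erase, Finset.mem_Icc]
    omega
  have hsuba : ∀ a, (Finset.Icc (1 : ℤ) (H : ℤ)).erase a ⊆ T.erase a := by
    intro a n hn
    rw [Finset.mem_erase, Finset.mem_Icc] at hn
    rw [hT, Finset.mem_erase, Finset.mem_Icc]
    omega
  have hcard : ∀ s : Finset ℤ, s ⊆ T → (s.card : ℝ) ≤ 3 * H := by
    intro s hs
    exact (by exact_mod_cast Finset.card_le_card hs : (s.card : ℝ) ≤ T.card).trans hTc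
  have hstep : ∀ a ∈ T.erase 0, ∑ c ∈ (Finset.Icc (1 : ℤ) (H : ℤ)).erase a,
      (gf y a * gf y c * gf y (a - c)) ^ 2 ≤ 3 * H * gf y a ^ 6 + C * H + C * H := by
    intro a ha
    have haT : a ∈ T := Finset.mem_of_mem_erase ha
    calc ∑ c ∈ (Finset.Icc (1 : ℤ) (H : ℤ)).erase a, (gf y a * gf y c * gf y (a - c)) ^ 2
        ≤ ∑ c ∈ (Finset.Icc (1 : ℤ) (H : ℤ)).erase a,
          (gf y a ^ 6 + gf y c ^ 6 + gf y (c - a) ^ 6) := by
          refine Finset.sum_le_sum fun c _ => ?_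
          have := Ga_three (one_le_gf y a) (one_le_gf y c) (one_le_gf y (a - c))
          rw [← gf_neg y (c - a), neg_sub]
          exact this
      _ = ((Finset.Icc (1 : ℤ) (H : ℤ)).erase a).card * gf y a ^ 6 +
          ∑ c ∈ (Finset.Icc (1 : ℤ) (H : ℤ)).erase a, gf y c ^ 6 +
          ∑ c ∈ (Finset.Icc (1 : ℤ) (H : ℤ)).erase a, gf y (c - a) ^ 6 := by
          rw [Finset.sum_add_distrib, Finset.sum_add_distrib, Finset.sum_const, nsmul_eq_mul]
      _ ≤ _ := by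
          have e1 : (((Finset.Icc (1 : ℤ) (H : ℤ)).erase a).card : ℝ) * gf y a ^ 6 ≤
              3 * H * gf y a ^ 6 :=
            mul_le_mul_of_nonneg_right (hcard _ (hsub a)) (hg a)
          have e2 : ∑ c ∈ (Finset.Icc (1 : ℤ) (H : ℤ)).erase a, gf y c ^ 6 ≤ C * H :=
            (Finset.sum_le_sum_of_subset_of_nonneg (hsub0 a) fun i _ _ => hg i).trans h3
          have e3 : ∑ c ∈ (Finset.Icc (1 : ℤ) (H : ℤ)).erase a, gf y (c - a) ^ 6 ≤ C * H :=
            (Finset.sum_le_sum_of_subset_of_nonneg (hsuba a) fun i _ _ => hg _).trans (h2 a haT)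
          linarith
  refine (Finset.sum_le_sum hstep).trans ?_
  rw [Finset.sum_add_distrib, Finset.sum_add_distrib, ← Finset.mul_sum, Finset.sum_const,
    nsmul_eq_mul]
  have e1 : 3 * (H : ℝ) * ∑ i ∈ T.erase 0, gf y i ^ 6 ≤ 3 * H * (C * H) :=
    mul_le_mul_of_nonneg_left h3 (by positivity)
  have e2 : ((T.erase 0).card : ℝ) * (C * H) ≤ 3 * H * (C * H) :=
    mul_le_mul_of_nonneg_right (hcard _ (Finset.erase_subset _ _)) hD
  calc _ ≤ 3 * (H : ℝ) * (C * H) + 3 * H * (C * H) + 3 * H * (C * H) := by linarith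
    _ = _ := by ring

lemma Ga_six {a b c d e f : ℝ} (ha : 1 ≤ a) (hb : 1 ≤ b) (hc : 1 ≤ c) (hd : 1 ≤ d) (he : 1 ≤ e)
    (hf : 1 ≤ f) : a * b * c * d * e * f - 1 ≤
      (a ^ 6 - 1) + (b ^ 6 - 1) + (c ^ 6 - 1) + (d ^ 6 - 1) + (e ^ 6 - 1) + (f ^ 6 - 1) := by
  have h1 : ∀ t : ℝ, 1 ≤ t → 0 ≤ t ^ 6 - 1 := by
    intro t ht
    have : (1 : ℝ) ≤ t ^ 6 := one_le_pow₀ ht
    linarith
  have h2 : ∀ m : ℝ, a ≤ m → b ≤ m → c ≤ m → d ≤ m → e ≤ m → f ≤ m →
      a * b * c * d * e * f ≤ m ^ 6 := by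
    intro m h1 h2 h3 h4 h5 h6
    have hm : 0 ≤ m := by linarith
    calc a * b * c * d * e * f ≤ m * m * m * m * m * m := by gcongr
      _ = m ^ 6 := by ring
  have h3 := h1 a ha
  have h4 := h1 b hb
  have h5 := h1 c hc
  have h6 := h1 d hd
  have h7 := h1 e he
  have h8 := h1 f hf
  have h9 := h2 (max a (max b (max c (max d (max e f))))) (by simp) (by simp) (by simp)
    (by simp) (by simp) (by simp)
  have h10 : max a (max b (max c (max d (max e f)))) ∈ ({a, b, c, d, e, f} : Set ℝ) := by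
    rcases max_choice a (max b (max c (max d (max e f)))) with h | h <;> rw [h]
    · simp
    rcases max_choice b (max c (max d (max e f))) with h | h <;> rw [h]
    · simp
    rcases max_choice c (max d (max e f)) with h | h <;> rw [h]
    · simp
    rcases max_choice d (max e f) with h | h <;> rw [h]
    · simp
    rcases max_choice e f with h | h <;> rw [h] <;> simp
  rcases h10 with h | h | h | h | h | h <;> rw [h] at h9 <;> linarith

theorem Ga3 : ∃ C : ℝ, 0 < C ∧ ∀ y : ℕ, 1 ≤ y → ∃ X : ℝ, ∀ x : ℝ, X ≤ x → ∀ H : ℕ, Real.log x ≤ (H : ℝ) →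
    (H : ℝ) ≤ (Real.log x) ^ 2 →
    ∑ h ∈ (Finset.Ioo (-(H : ℤ)) (H : ℤ)).erase 0, ∑ k ∈ (Finset.Icc (1 : ℤ) (H : ℤ)).erase h,
      ∑ l ∈ ((Finset.Icc (1 : ℤ) (H : ℤ)).erase h).erase k, (GG y h k l - 1) ≤ C / (y : ℝ) * (H : ℝ) ^ 3 := by
  obtain ⟨C, hC, hmain⟩ := Ga_key
  refine ⟨54 * C, by positivity, ?_⟩
  intro y hy
  obtain ⟨X, hX⟩ := hmain y hy
  refine ⟨X, ?_⟩
  intro x hx H hH1 hH2
  obtain ⟨h1, h2⟩ := hX x hx H hH1 hH2
  set T := Finset.Icc (-(H : ℤ)) (H : ℤ) with hT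
  have h0T : (0 : ℤ) ∈ T := Finset.mem_Icc.2 ⟨by omega, by omega⟩
  have h3 := h2 0 h0T
  simp only [sub_zero] at h3
  set D := C / (y : ℝ) * (H : ℝ) with hD
  have hD0 : 0 ≤ D := by positivity
  have hTc : (T.card : ℝ) ≤ 3 * H := Ga_cardT H h1
  have hH0 : (0 : ℝ) ≤ H := by positivity
  set g : ℤ → ℝ := fun n => gf y n ^ 6 - 1 with hgd
  have hg : ∀ n, 0 ≤ g n := fun n => by
    have : (1 : ℝ) ≤ gf y n ^ 6 := one_le_pow₀ (one_le_gf y n)
    simp only [hgd]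
    linarith
  have hgn : ∀ n m, g (n - m) = g (m - n) := fun n m => by
    simp only [hgd]
    rw [← gf_neg y (n - m), neg_sub]
  have hcard : ∀ s : Finset ℤ, s ⊆ T → (s.card : ℝ) ≤ 3 * H := by
    intro s hs
    exact (by exact_mod_cast Finset.card_le_card hs : (s.card : ℝ) ≤ T.card).trans hTc
  have hI : Finset.Icc (1 : ℤ) (H : ℤ) ⊆ T.erase 0 := by
    intro n hn
    rw [Finset.mem_Icc] at hn
    rw [hT, Finset.mem_erase, Finset.mem_Icc]
    omega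
  have hJ : (Finset.Ioo (-(H : ℤ)) (H : ℤ)).erase 0 ⊆ T.erase 0 := by
    intro n hn
    rw [Finset.mem_erase, Finset.mem_Ioo] at hn
    rw [hT, Finset.mem_erase, Finset.mem_Icc]
    omega
  have hsum : ∀ s : Finset ℤ, ∀ a ∈ T, s ⊆ T.erase a → ∑ k ∈ s, g (k - a) ≤ D := by
    intro s a ha hs
    exact (Finset.sum_le_sum_of_subset_of_nonneg hs fun i _ _ => hg _).trans (h2 a ha)
  have hsum0 : ∀ s : Finset ℤ, s ⊆ T.erase 0 → ∑ k ∈ s, g k ≤ D := by
    intro s hs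
    exact (Finset.sum_le_sum_of_subset_of_nonneg hs fun i _ _ => hg _).trans h3
  have hIa : ∀ a, (Finset.Icc (1 : ℤ) (H : ℤ)).erase a ⊆ T.erase a := fun a =>
    Finset.erase_subset_erase _ (hI.trans (Finset.erase_subset _ _))
  -- the inner sum
  have hin : ∀ h ∈ (Finset.Ioo (-(H : ℤ)) (H : ℤ)).erase 0, ∀ k ∈ (Finset.Icc (1 : ℤ) (H : ℤ)).erase h,
      ∑ l ∈ ((Finset.Icc (1 : ℤ) (H : ℤ)).erase h).erase k, (GG y h k l - 1) ≤
        3 * H * (g h + g k + g (k - h)) + 3 * D := by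
    intro h hh k hk
    have hhT : h ∈ T := Finset.mem_of_mem_erase (hJ hh)
    have hkT : k ∈ T := Finset.mem_of_mem_erase (hI (Finset.mem_of_mem_erase hk))
    set s := ((Finset.Icc (1 : ℤ) (H : ℤ)).erase h).erase k with hs
    have hs0 : s ⊆ T.erase 0 :=
      ((Finset.erase_subset _ _).trans (Finset.erase_subset _ _)).trans hI
    have hsh : s ⊆ T.erase h := (Finset.erase_subset _ _).trans (hIa h)
    have hsk : s ⊆ T.erase k := by
      rw [hs, Finset.erase_right_comm]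
      exact (Finset.erase_subset _ _).trans (hIa k)
    have hsT : s ⊆ T := hs0.trans (Finset.erase_subset _ _)
    calc ∑ l ∈ s, (GG y h k l - 1)
        ≤ ∑ l ∈ s, ((g h + g k + g (k - h)) + (g l + g (l - h) + g (l - k))) := by
          refine Finset.sum_le_sum fun l _ => ?_
          have e1 := Ga_six (one_le_gf y h) (one_le_gf y k) (one_le_gf y l) (one_le_gf y (h - k))
            (one_le_gf y (h - l)) (one_le_gf y (k - l))
          rw [hgn k h, hgn l h, hgn l k]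
          unfold GG
          simp only [hgd]
          linarith
      _ = s.card * (g h + g k + g (k - h)) +
          (∑ l ∈ s, g l + ∑ l ∈ s, g (l - h) + ∑ l ∈ s, g (l - k)) := by
          rw [Finset.sum_add_distrib, Finset.sum_const, nsmul_eq_mul, Finset.sum_add_distrib,
            Finset.sum_add_distrib]
      _ ≤ _ := by
          have e1 := hsum0 s hs0
          have e2 := hsum s h hhT hsh
          have e3 := hsum s k hkT hsk
          have e4 : (s.card : ℝ) * (g h + g k + g (k - h)) ≤ 3 * H * (g h + g k + g (k - h)) :=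
            mul_le_mul_of_nonneg_right (hcard s hsT) (by
              have := hg h
              have := hg k
              have := hg (k - h)
              linarith)
          linarith
  have hmid : ∀ h ∈ (Finset.Ioo (-(H : ℤ)) (H : ℤ)).erase 0,
      ∑ k ∈ (Finset.Icc (1 : ℤ) (H : ℤ)).erase h,
      ∑ l ∈ ((Finset.Icc (1 : ℤ) (H : ℤ)).erase h).erase k, (GG y h k l - 1) ≤
        3 * H * (3 * H * g h) + 15 * H * D := by
    intro h hh
    have hhT : h ∈ T := Finset.mem_of_mem_erase (hJ hh)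
    set s := (Finset.Icc (1 : ℤ) (H : ℤ)).erase h with hs
    have hs0 : s ⊆ T.erase 0 := (Finset.erase_subset _ _).trans hI
    have hsT : s ⊆ T := hs0.trans (Finset.erase_subset _ _)
    refine (Finset.sum_le_sum (hin h hh)).trans ?_
    have e0 : ∑ k ∈ s, (3 * (H : ℝ) * (g h + g k + g (k - h)) + 3 * D) =
        s.card * (3 * H * g h) + 3 * H * ∑ k ∈ s, g k + 3 * H * ∑ k ∈ s, g (k - h) +
          s.card * (3 * D) := by
      rw [Finset.sum_add_distrib, Finset.sum_const, nsmul_eq_mul, ← Finset.mul_sum,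
        Finset.sum_add_distrib, Finset.sum_add_distrib, Finset.sum_const, nsmul_eq_mul]
      ring
    rw [e0]
    have e1 : (s.card : ℝ) * (3 * H * g h) ≤ 3 * H * (3 * H * g h) :=
      mul_le_mul_of_nonneg_right (hcard s hsT) (by
        have := hg h
        positivity)
    have e2 : 3 * (H : ℝ) * ∑ k ∈ s, g k ≤ 3 * H * D :=
      mul_le_mul_of_nonneg_left (hsum0 s hs0) (by positivity)
    have e3 : 3 * (H : ℝ) * ∑ k ∈ s, g (k - h) ≤ 3 * H * D :=
      mul_le_mul_of_nonneg_left (hsum s h hhT (hIa h)) (by positivity)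
    have e4 : (s.card : ℝ) * (3 * D) ≤ 3 * H * (3 * D) :=
      mul_le_mul_of_nonneg_right (hcard s hsT) (by positivity)
    calc _ ≤ 3 * (H : ℝ) * (3 * H * g h) + 3 * H * D + 3 * H * D + 3 * H * (3 * D) := by linarith
      _ = _ := by ring
  refine (Finset.sum_le_sum hmid).trans ?_
  rw [Finset.sum_add_distrib, ← Finset.mul_sum, ← Finset.mul_sum, Finset.sum_const, nsmul_eq_mul]
  have e1 : 3 * (H : ℝ) * (3 * H * ∑ i ∈ (Finset.Ioo (-(H : ℤ)) (H : ℤ)).erase 0, g i) ≤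
      3 * (H : ℝ) * (3 * H * D) := by
    have := hsum0 _ hJ
    gcongr
  have e2 : (((Finset.Ioo (-(H : ℤ)) (H : ℤ)).erase 0).card : ℝ) * (15 * H * D) ≤
      3 * H * (15 * H * D) :=
    mul_le_mul_of_nonneg_right (hcard _ (hJ.trans (Finset.erase_subset _ _))) (by positivity)
  calc _ ≤ 3 * (H : ℝ) * (3 * H * D) + 3 * H * (15 * H * D) := by linarith
    _ = 54 * C / (y : ℝ) * (H : ℝ) ^ 3 := by
        rw [hD]
        ring

end Pool.Agent.H12.DM
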