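import Pool.Agent.H12.DM.Df

/-!
# Ob: products over the primes dividing a difference

`gf y h` is the product of `1 + 14/p` over the primes `p > y` dividing `h`. All factors are `≥ 1`.
The two filtered sets of primes on the left are disjoint (`p ≤ u` and `p > u`), all their elements are `> y` (as `y ≤ u`), and every such `p` divides a nonzero
difference `a - a'` with `a, a' ∈ s` (`s' ⊆ s`). So the left side is the product of `1 + 14/p` over a finite set `T` of primes `p > y`, each of which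
lies in `(a - a').natAbs.primeFactors` for some `(a, a') ∈ s.offDiag`. Choose for each `p ∈ T` such a pair; then
`∏_{p∈T} (1+14/p) ≤ ∏_{q∈s.offDiag} ∏_{p∈T, p ∣ q.1-q.2} (1 + 14/p) ≤ ∏_q gf y (q.1-q.2)` (every factor `≥ 1`; e.g. induction, or `T ⊆ biUnion` and
'the product over a `biUnion` is at most the product of the products' for factors `≥ 1`).
For `GG_bound` every difference of two distinct elements of `{0, h, k, l}` is `±` one of `h, k, l, h-k, h-l, k-l` (`Int.natAbs_neg`), which are the arguments in `GG`; the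
differences dividing: `a - a' ≠ 0`. Use the same lemma 'product over `T` at most the product over a covering family' with the six sets of prime factors.
-/

set_option autoImplicit false

namespace Pool.Agent.H12.DM

open Finset Pool.Agent.H17 Pool.Agent.H6.MF Pool.Agent.H6.MB

private lemma ob_cover {ι : Type*} [DecidableEq ι] (I : Finset ι) (A : ι → Finset ℕ) (T : Finset ℕ) (c : ℕ → ℝ)
    (hc : ∀ p, 1 ≤ c p) (h : ∀ p ∈ T, ∃ i ∈ I, p ∈ A i) :
    ∏ p ∈ T, c p ≤ ∏ i ∈ I, ∏ p ∈ A i, c p := by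
  have h1 : ∏ p ∈ T, c p ≤ ∏ p ∈ T, ∏ i ∈ I, (if p ∈ A i then c p else 1) := by
    refine Finset.prod_le_prod (fun p _ => le_trans zero_le_one (hc p)) fun p hp => ?_
    obtain ⟨i, hi, hpi⟩ := h p hp
    rw [← Finset.mul_prod_erase I _ hi, if_pos hpi]
    have h2 : (1 : ℝ) ≤ ∏ j ∈ I.erase i, (if p ∈ A j then c p else 1) := by
      refine Finset.one_le_prod fun j _ => ?_
      split_ifs
      · exact hc p
      · exact le_rfl
    have h3 : 0 ≤ c p := le_trans zero_le_one (hc p)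
    nlinarith
  refine h1.trans ?_
  rw [Finset.prod_comm]
  refine Finset.prod_le_prod (fun i _ => Finset.prod_nonneg fun p _ => ?_) fun i _ => ?_
  · split_ifs
    · exact le_trans zero_le_one (hc p)
    · exact zero_le_one
  · rw [← Finset.prod_filter]
    have hsub : T.filter (fun p => p ∈ A i) ⊆ A i := fun p hp => (Finset.mem_filter.1 hp).2
    rw [← Finset.prod_sdiff hsub]
    have h4 : (1 : ℝ) ≤ ∏ p ∈ A i \ T.filter (fun p => p ∈ A i), c p := Finset.one_le_prod fun p _ => hc p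
    have h5 : (0 : ℝ) ≤ ∏ p ∈ T.filter (fun p => p ∈ A i), c p :=
      Finset.prod_nonneg fun p _ => le_trans zero_le_one (hc p)
    nlinarith

private lemma ob_mem {w z : ℝ} (hz : 0 ≤ z) {p : ℕ} : p ∈ PI w z ↔ p.Prime ∧ w < (p : ℝ) ∧ (p : ℝ) ≤ z := by
  unfold PI
  rw [Finset.mem_filter, Finset.mem_range, Nat.lt_succ_iff, Nat.le_floor_iff hz]
  tauto

private lemma ob_main (y : ℕ) {u v : ℝ} (hu : (y : ℝ) ≤ u) (hv : 0 ≤ v) (P P' : ℕ → Prop)
    [DecidablePred P] [DecidablePred P'] {ι : Type*} [DecidableEq ι] (I : Finset ι) (d : ι → ℤ)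
    (h1 : ∀ p, P p → ∃ i ∈ I, d i ≠ 0 ∧ (p : ℤ) ∣ d i) (h2 : ∀ p, P' p → ∃ i ∈ I, d i ≠ 0 ∧ (p : ℤ) ∣ d i) :
    (∏ p ∈ (PI (y : ℝ) u).filter P, (1 + 14 / (p : ℝ))) * (∏ p ∈ (PI u v).filter P', (1 + 14 / (p : ℝ)))
      ≤ ∏ i ∈ I, gf y (d i) := by
  have hu0 : 0 ≤ u := le_trans (Nat.cast_nonneg y) hu
  have hdis : Disjoint ((PI (y : ℝ) u).filter P) ((PI u v).filter P') := by
    rw [Finset.disjoint_left]
    intro p hp hp'
    have a := (ob_mem hu0).1 (Finset.mem_filter.1 hp).1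
    have b := (ob_mem hv).1 (Finset.mem_filter.1 hp').1
    exact absurd a.2.2 (not_le.2 b.2.1)
  rw [← Finset.prod_union hdis]
  have hy : ∀ p ∈ (PI (y : ℝ) u).filter P ∪ (PI u v).filter P', p.Prime ∧ y < p ∧
      ∃ i ∈ I, d i ≠ 0 ∧ (p : ℤ) ∣ d i := by
    intro p hp
    rcases Finset.mem_union.1 hp with hp | hp
    · have a := (ob_mem hu0).1 (Finset.mem_filter.1 hp).1
      exact ⟨a.1, by exact_mod_cast a.2.1, h1 p (Finset.mem_filter.1 hp).2⟩
    · have a := (ob_mem hv).1 (Finset.mem_filter.1 hp).1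
      exact ⟨a.1, by exact_mod_cast lt_of_le_of_lt hu a.2.1, h2 p (Finset.mem_filter.1 hp).2⟩
  unfold gf
  refine ob_cover I (fun i => (d i).natAbs.primeFactors.filter (fun p => y < p)) _ (fun p => 1 + 14 / (p : ℝ)) ?_ ?_
  · intro p
    have : (0 : ℝ) ≤ 14 / p := by positivity
    linarith
  · intro p hp
    obtain ⟨hpp, hyp, i, hi, hd0, hdiv⟩ := hy p hp
    refine ⟨i, hi, ?_⟩
    rw [Finset.mem_filter, Nat.mem_primeFactors]
    exact ⟨⟨hpp, Int.natCast_dvd.1 hdiv, Int.natAbs_ne_zero.2 hd0⟩, hyp⟩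

/-- the primes dividing a difference, for general finite sets: the product over unordered pairs is at most the product over
`offDiag` -/
theorem off_bound (y : ℕ) {u v : ℝ} (hu : (y : ℝ) ≤ u) (hv : 0 ≤ v) (s s' : Finset ℤ) (hs : s' ⊆ s) :
    (∏ p ∈ (PI (y : ℝ) u).filter (fun p : ℕ => ∃ a ∈ s, ∃ a' ∈ s, a ≠ a' ∧ (p : ℤ) ∣ a - a'), (1 + 14 / (p : ℝ))) *
      (∏ p ∈ (PI u v).filter (fun p : ℕ => ∃ a ∈ s', ∃ a' ∈ s', a ≠ a' ∧ (p : ℤ) ∣ a - a'), (1 + 14 / (p : ℝ)))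
      ≤ ∏ q ∈ s.offDiag, gf y (q.1 - q.2) := by
  refine ob_main y hu hv _ _ s.offDiag (fun q => q.1 - q.2) ?_ ?_
  · rintro p ⟨a, ha, a', ha', hne, hd⟩
    exact ⟨(a, a'), Finset.mem_offDiag.2 ⟨ha, ha', hne⟩, sub_ne_zero.2 hne, hd⟩
  · rintro p ⟨a, ha, a', ha', hne, hd⟩
    exact ⟨(a, a'), Finset.mem_offDiag.2 ⟨hs ha, hs ha', hne⟩, sub_ne_zero.2 hne, hd⟩

theorem GG_bound (y : ℕ) {u v : ℝ} (hu : (y : ℝ) ≤ u) (hv : 0 ≤ v) (h k l : ℤ) (s s' : Finset ℤ)
    (hs : s ⊆ {0, h, k, l}) (hs' : s' ⊆ {0, h, k, l}) :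
    (∏ p ∈ (PI (y : ℝ) u).filter (fun p : ℕ => ∃ a ∈ s, ∃ a' ∈ s, a ≠ a' ∧ (p : ℤ) ∣ a - a'), (1 + 14 / (p : ℝ))) *
      (∏ p ∈ (PI u v).filter (fun p : ℕ => ∃ a ∈ s', ∃ a' ∈ s', a ≠ a' ∧ (p : ℤ) ∣ a - a'), (1 + 14 / (p : ℝ)))
      ≤ GG y h k l := by
  have hG : GG y h k l = ∏ i : Fin 6, gf y (![h, k, l, h - k, h - l, k - l] i) := by
    unfold GG
    simp only [Fin.prod_univ_succ, Fin.prod_univ_zero]
    simp [Matrix.cons_val_zero]
    ring
  have key : ∀ a ∈ ({0, h, k, l} : Finset ℤ), ∀ a' ∈ ({0, h, k, l} : Finset ℤ), a ≠ a' → ∀ p : ℕ, (p : ℤ) ∣ a - a' →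
      ∃ i ∈ (Finset.univ : Finset (Fin 6)), (![h, k, l, h - k, h - l, k - l] : Fin 6 → ℤ) i ≠ 0 ∧
        (p : ℤ) ∣ (![h, k, l, h - k, h - l, k - l] : Fin 6 → ℤ) i := by
    intro a ha a' ha' hne p hp
    have hw : ∀ i : Fin 6, (a - a' = (![h, k, l, h - k, h - l, k - l] : Fin 6 → ℤ) i ∨
        a - a' = - (![h, k, l, h - k, h - l, k - l] : Fin 6 → ℤ) i) →
        ∃ i ∈ (Finset.univ : Finset (Fin 6)), (![h, k, l, h - k, h - l, k - l] : Fin 6 → ℤ) i ≠ 0 ∧
        (p : ℤ) ∣ (![h, k, l, h - k, h - l, k - l] : Fin 6 → ℤ) i := by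
      intro i hi
      refine ⟨i, Finset.mem_univ _, ?_, ?_⟩
      · intro h0
        rcases hi with hi | hi
        · exact hne (sub_eq_zero.1 (hi.trans h0))
        · rw [h0, neg_zero] at hi
          exact hne (sub_eq_zero.1 hi)
      · rcases hi with hi | hi
        · rwa [← hi]
        · rw [← dvd_neg, ← hi]
          exact hp
    simp only [Finset.mem_insert, Finset.mem_singleton] at ha ha'
    rcases ha with rfl | rfl | rfl | rfl <;> rcases ha' with rfl | rfl | rfl | rfl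
    · exact absurd rfl hne
    · exact hw 0 (Or.inr (by simp))
    · exact hw 1 (Or.inr (by simp))
    · exact hw 2 (Or.inr (by simp))
    · exact hw 0 (Or.inl (by simp))
    · exact absurd rfl hne
    · exact hw 3 (Or.inl (by simp))
    · exact hw 4 (Or.inl (by simp))
    · exact hw 1 (Or.inl (by simp))
    · exact hw 3 (Or.inr (by simp))
    · exact absurd rfl hne
    · exact hw 5 (Or.inl (by simp))
    · exact hw 2 (Or.inl (by simp))
    · exact hw 4 (Or.inr (by simp))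
    · exact hw 5 (Or.inr (by simp))
    · exact absurd rfl hne
  rw [hG]
  refine ob_main y hu hv _ _ Finset.univ _ ?_ ?_
  · rintro p ⟨a, ha, a', ha', hne, hd⟩
    exact key a (hs ha) a' (hs ha') hne p hd
  · rintro p ⟨a, ha, a', ha', hne, hd⟩
    exact key a (hs' ha) a' (hs' ha') hne p hd

end Pool.Agent.H12.DM
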