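import Pool.Agent.H12.DM.Df
import Pool.Agent.H6.MB.MAJ
import Pool.Agent.H6.MF.SNG

/-!
# Rr: the weight `rr y w` of the primes in `(y, w]`

`c_p = (1 - 1/p)⁻¹`, `PI y w` the primes in `(y, w]`.

* `wp_eq`: `wp y = (EP 0 y)⁻¹`: exactly as `Pool.Agent.H6.MB.wphi_eq` (use `MAJ_PI0`, `totient_WW`).
* `wp_mul`: `wp w = wp y * ∏_{p ∈ PI y w} c_p` from `wp_eq` and `EP_mul` (`EP 0 w = EP 0 y * EP y w`).
* `Mm_split`: `Int.gcd n (WW w) = 1` iff no prime `p ≤ w` divides `n` (e.g. via `n.natAbs` and `coprime_WW`,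
  `Int.gcd n m = Nat.gcd n.natAbs m.natAbs`). If this holds then `Mm y n = wp y`, `rr y w n = ∏ c_p`: use `wp_mul`.
  Otherwise some prime `p ≤ w` divides `n`; if `p ≤ y` then `Mm y n = 0`, else `p ∈ PI y w` and `rr y w n = 0`.
* `rr_le`: every factor is `≤ c_p` and `≥ 0`; `∏ c_p = wp w / wp y ≤ wp w`.
* `rr_period`: `p ∣ PR y w` for `p ∈ PI y w`.
* `rr_upper`: exchange the products: `∏_{a ∈ s} rr (m+a)^{e a} = ∏_{p ∈ PI y w} g_p m`,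
  `g_p m = ∏_{a ∈ s} (if p ∣ m + a then 0 else c_p)^{e a} = (if ∃ a ∈ s, p ∣ m + a then 0 else 1) * c_p^{E}`,
  `E = ∑_{a ∈ s} e a` (all `e a ≥ 1`). `BLK_avg_prod` (with `PR y w = ∏ p ∈ PI y w, p`): the average is
  `∏_p avgP p g_p`, and by `BLK_avg0` `avgP p g_p = c_p^E (1 - hit/p)`, where `hit` is the number of residues `m < p` with
  `p ∣ m + a` for some `a ∈ s`. Let `k = s.card`, so `E - k = ∑ (e a - 1)`.
  - If `p` divides no difference `a - a'` (`a ≠ a'` in `s`): `hit = k` (`BLK_hit_eq`) and `1 - k/p ≤ (1-1/p)^k` (Bernoulli,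
    `one_add_mul_le_pow`), so `avgP p g_p ≤ c_p^{E-k}`.
  - Otherwise `hit ≥ 1` (`BLK_hit_pos`): `avgP p g_p ≤ c_p^{E-1} = c_p^{E-k} c_p^{k-1} ≤ c_p^{E-k} (1 + 14/p)`, because
    `c_p^{k-1} ≤ c_p^3 ≤ 1 + 14/p` (`BLK_real` with `u = 1/p ≤ 1/2`).
  Product over `p`: `∏ c_p^{E-k} = (wp w/wp y)^{E-k}`.
* `rr_lower`: here `e = 1`, `k ≤ 3`, `hit ≤ k` (`BLK_hit_le`), all `p ≥ 5` (as `y ≥ 3`), so
  `avgP p g_p ≥ c_p^k (1 - k/p) ≥ 1 - 6/p^2`: equality `1` for `k = 1`; `k = 2`: `(1-2/p)/(1-1/p)^2 = 1 - 1/(p-1)^2`; `k = 3`: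
  `(1-3/p)/(1-1/p)^3 = 1 - (3p-1)/(p-1)^3` and `(3p-1) p^2 ≤ 6 (p-1)^3` for `p ≥ 5`. Then
  `∏ (1 - 6/p^2) ≥ 1 - ∑_{n > y} 6/n^2 ≥ 1 - 6/y` (all factors in `[0,1]`; `Finset.prod_one_sub...`-type inequality, e.g.
  `SNG_one_sub` in `Pool/Agent/H6/MF/SNG.lean`, and `SNG_inv_sq` there for the sum).
-/

set_option autoImplicit false

namespace Pool.Agent.H12.DM

open Finset Pool.Agent.H17 Pool.Agent.H6.MF Pool.Agent.H6.MB

theorem wp_eq (y : ℕ) : wp y = (EP 0 (y : ℝ))⁻¹ := by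
  rw [wp, EP, MAJ_PI0, totient_WW, ← Finset.prod_inv_distrib, WW, Nat.cast_prod,
    ← Finset.prod_div_distrib]
  apply Finset.prod_congr rfl
  intro p hp
  have h := (mem_PP.mp hp).2
  have h1 : (2 : ℝ) ≤ p := by exact_mod_cast h.two_le
  have h3 : (p : ℝ) ≠ 0 := by linarith
  rw [one_sub_div h3, inv_div]

theorem wp_mul {y w : ℕ} (h : y ≤ w) : wp w = wp y * ∏ p ∈ PI (y : ℝ) (w : ℝ), (1 - 1 / (p : ℝ))⁻¹ := by
  rw [wp_eq, wp_eq, EP_mul (w := 0) (y := (y : ℝ)) (z := (w : ℝ)) (by positivity) (by exact_mod_cast h), mul_inv]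
  congr 1
  rw [EP, Finset.prod_inv_distrib]

theorem Rr_gcd (n : ℤ) (y : ℕ) : Int.gcd n (WW y : ℤ) = 1 ↔ ∀ p ∈ PP y, ¬ (p : ℤ) ∣ n := by
  have h1 : Int.gcd n (WW y : ℤ) = Nat.gcd n.natAbs (WW y) := by
    simp [Int.gcd]
  rw [h1]
  change n.natAbs.Coprime (WW y) ↔ _
  rw [coprime_WW]
  refine forall₂_congr fun p _ => ?_
  rw [Int.natCast_dvd]

theorem Rr_mem {p y w : ℕ} : p ∈ PI (y : ℝ) (w : ℝ) ↔ p.Prime ∧ y < p ∧ p ≤ w := by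
  rw [MAJ_mem (by positivity)]
  constructor
  · rintro ⟨a, b, c⟩
    exact ⟨a, by exact_mod_cast b, by exact_mod_cast c⟩
  · rintro ⟨a, b, c⟩
    exact ⟨a, by exact_mod_cast b, by exact_mod_cast c⟩

theorem Rr_fac {p : ℕ} (hp : p.Prime) : 0 < 1 - 1 / (p : ℝ) ∧ 0 < (1 - 1 / (p : ℝ))⁻¹ := by
  have h2 : (2 : ℝ) ≤ p := by exact_mod_cast hp.two_le
  have h3 : 1 / (p : ℝ) ≤ 1 / 2 := one_div_le_one_div_of_le (by norm_num) h2
  have h4 : 0 < 1 - 1 / (p : ℝ) := by linarith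
  exact ⟨h4, inv_pos.mpr h4⟩

theorem Mm_split {y w : ℕ} (h : y ≤ w) (n : ℤ) : Mm w n = Mm y n * rr y w n := by
  by_cases h1 : Int.gcd n (WW w : ℤ) = 1
  · have h2 := (Rr_gcd n w).mp h1
    have h3 : Int.gcd n (WW y : ℤ) = 1 := by
      rw [Rr_gcd]
      intro p hp
      exact h2 p (mem_PP.mpr ⟨(mem_PP.mp hp).1.trans h, (mem_PP.mp hp).2⟩)
    have h4 : rr y w n = ∏ p ∈ PI (y : ℝ) (w : ℝ), (1 - 1 / (p : ℝ))⁻¹ := by
      unfold rr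
      refine Finset.prod_congr rfl fun p hp => ?_
      have hp' := Rr_mem.mp hp
      rw [if_neg (h2 p (mem_PP.mpr ⟨hp'.2.2, hp'.1⟩))]
    rw [Mm, if_pos h1, Mm, if_pos h3, h4, wp_mul h]
  · have h2 := h1
    rw [Rr_gcd] at h2
    push Not at h2
    obtain ⟨p, hp, hd⟩ := h2
    rw [Mm, if_neg h1]
    rcases le_or_gt p y with h3 | h3
    · have h4 : ¬ Int.gcd n (WW y : ℤ) = 1 := by
        rw [Rr_gcd]
        push Not
        exact ⟨p, mem_PP.mpr ⟨h3, (mem_PP.mp hp).2⟩, hd⟩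
      rw [Mm, if_neg h4, zero_mul]
    · have h4 : rr y w n = 0 := by
        unfold rr
        refine Finset.prod_eq_zero (Rr_mem.mpr ⟨(mem_PP.mp hp).2, h3, (mem_PP.mp hp).1⟩) ?_
        rw [if_pos hd]
      rw [h4, mul_zero]

theorem rr_nonneg (y w : ℕ) (n : ℤ) : 0 ≤ rr y w n := by
  unfold rr
  refine Finset.prod_nonneg fun p hp => ?_
  split_ifs
  · exact le_rfl
  · exact (Rr_fac (Rr_mem.mp hp).1).2.le

theorem Rr_div {y w : ℕ} (h : y ≤ w) : wp w / wp y = ∏ p ∈ PI (y : ℝ) (w : ℝ), (1 - 1 / (p : ℝ))⁻¹ := by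
  rw [wp_mul h, mul_div_assoc, mul_comm, div_mul_cancel₀]
  exact (wp_pos y).ne'

theorem rr_le {y w : ℕ} (h : y ≤ w) (n : ℤ) : rr y w n ≤ wp w / wp y := by
  rw [Rr_div h]
  unfold rr
  refine Finset.prod_le_prod (fun p hp => ?_) (fun p hp => ?_)
  · split_ifs
    · exact le_rfl
    · exact (Rr_fac (Rr_mem.mp hp).1).2.le
  · split_ifs
    · exact (Rr_fac (Rr_mem.mp hp).1).2.le
    · exact le_rfl

theorem rr_period (y w : ℕ) (n k : ℤ) : rr y w (n + k * (PR (y : ℝ) (w : ℝ) : ℤ)) = rr y w n := by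
  unfold rr
  refine Finset.prod_congr rfl fun p hp => ?_
  have h1 : p ∣ PR (y : ℝ) (w : ℝ) := Finset.dvd_prod_of_mem (fun p => p) hp
  have h2 : (p : ℤ) ∣ k * (PR (y : ℝ) (w : ℝ) : ℤ) := (Int.natCast_dvd_natCast.mpr h1).mul_left k
  have h3 : (p : ℤ) ∣ n + k * (PR (y : ℝ) (w : ℝ) : ℤ) ↔ (p : ℤ) ∣ n := Int.dvd_add_left h2
  simp only [h3]

/-- the average of the product over `s` as a product of local averages -/
theorem Rr_avg (y w : ℕ) (s : Finset ℤ) (e : ℤ → ℕ) (he : ∀ a ∈ s, 1 ≤ e a) :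
    avgP (PR (y : ℝ) (w : ℝ)) (fun m => ∏ a ∈ s, rr y w (m + a) ^ e a)
      = ∏ p ∈ PI (y : ℝ) (w : ℝ), ((1 - 1 / (p : ℝ))⁻¹ ^ (∑ a ∈ s, e a) *
          avgP p (fun n => if ∃ a ∈ s, (p : ℤ) ∣ n + a then (0 : ℝ) else 1)) := by
  classical
  have h1 : (fun m => ∏ a ∈ s, rr y w (m + a) ^ e a) = fun m => ∏ p ∈ PI (y : ℝ) (w : ℝ),
      (fun (p : ℕ) (n : ℤ) => (1 - 1 / (p : ℝ))⁻¹ ^ (∑ a ∈ s, e a) *
        (if ∃ a ∈ s, (p : ℤ) ∣ n + a then (0 : ℝ) else 1)) p m := by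
    funext m
    have h2 : ∀ a ∈ s, rr y w (m + a) ^ e a =
        ∏ p ∈ PI (y : ℝ) (w : ℝ), (if (p : ℤ) ∣ m + a then 0 else (1 - 1 / (p : ℝ))⁻¹) ^ e a := by
      intro a _
      unfold rr
      rw [Finset.prod_pow]
    rw [Finset.prod_congr rfl h2, Finset.prod_comm]
    refine Finset.prod_congr rfl fun p _ => ?_
    show _ = (1 - 1 / (p : ℝ))⁻¹ ^ (∑ a ∈ s, e a) * (if ∃ a ∈ s, (p : ℤ) ∣ m + a then (0 : ℝ) else 1)
    by_cases h3 : ∃ a ∈ s, (p : ℤ) ∣ m + a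
    · rw [if_pos h3, mul_zero]
      obtain ⟨a, ha, hd⟩ := h3
      refine Finset.prod_eq_zero ha ?_
      rw [if_pos hd, zero_pow]
      have := he a ha
      omega
    · rw [if_neg h3, mul_one]
      push Not at h3
      rw [← Finset.prod_pow_eq_pow_sum]
      refine Finset.prod_congr rfl fun a ha => ?_
      rw [if_neg (h3 a ha)]
  rw [h1, PR, BLK_avg_prod (PI (y : ℝ) (w : ℝ)) (fun p hp => (Rr_mem.mp hp).1)
    (fun (p : ℕ) (n : ℤ) => (1 - 1 / (p : ℝ))⁻¹ ^ (∑ a ∈ s, e a) *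
        (if ∃ a ∈ s, (p : ℤ) ∣ n + a then (0 : ℝ) else 1)) (fun p _ n k => by simp only [BLK_dvd_shift])]
  refine Finset.prod_congr rfl fun p _ => ?_
  rw [BLK_smul]

theorem rr_upper {y w : ℕ} (h : y ≤ w) (s : Finset ℤ) (hs1 : 1 ≤ s.card) (hs4 : s.card ≤ 4) (e : ℤ → ℕ)
    (he : ∀ a ∈ s, 1 ≤ e a) :
    avgP (PR (y : ℝ) (w : ℝ)) (fun m => ∏ a ∈ s, rr y w (m + a) ^ e a)
      ≤ (wp w / wp y) ^ (∑ a ∈ s, (e a - 1)) *
        ∏ p ∈ (PI (y : ℝ) (w : ℝ)).filter (fun p : ℕ => ∃ a ∈ s, ∃ a' ∈ s, a ≠ a' ∧ (p : ℤ) ∣ a - a'),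
          (1 + 14 / (p : ℝ)) := by
  classical
  rw [Rr_avg y w s e he]
  have hE : ∑ a ∈ s, e a = ∑ a ∈ s, (e a - 1) + s.card := by
    rw [Finset.card_eq_sum_ones, ← Finset.sum_add_distrib]
    refine Finset.sum_congr rfl fun a ha => ?_
    have := he a ha
    omega
  have hR : (wp w / wp y) ^ (∑ a ∈ s, (e a - 1)) *
        ∏ p ∈ (PI (y : ℝ) (w : ℝ)).filter (fun p : ℕ => ∃ a ∈ s, ∃ a' ∈ s, a ≠ a' ∧ (p : ℤ) ∣ a - a'),
          (1 + 14 / (p : ℝ))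
      = ∏ p ∈ PI (y : ℝ) (w : ℝ), ((1 - 1 / (p : ℝ))⁻¹ ^ (∑ a ∈ s, (e a - 1)) *
          (if ∃ a ∈ s, ∃ a' ∈ s, a ≠ a' ∧ (p : ℤ) ∣ a - a' then (1 + 14 / (p : ℝ)) else 1)) := by
    rw [Rr_div h, Finset.prod_mul_distrib, Finset.prod_pow, Finset.prod_filter]
  rw [hR]
  refine Finset.prod_le_prod (fun p hp => ?_) (fun p hp => ?_)
  · have hf := Rr_fac (Rr_mem.mp hp).1
    exact mul_nonneg (pow_nonneg hf.2.le _) (MAJ_avg_nonneg fun n => by split_ifs <;> norm_num)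
  · have hpp := (Rr_mem.mp hp).1
    have hf := Rr_fac hpp
    have hm := BLK_main_factor hpp s hs1 hs4
    have hc : (1 - 1 / (p : ℝ))⁻¹ ^ s.card * (1 - 1 / (p : ℝ)) ^ s.card = 1 := by
      rw [← mul_pow, inv_mul_cancel₀ hf.1.ne', one_pow]
    rw [hE, pow_add, mul_assoc]
    refine mul_le_mul_of_nonneg_left ?_ (pow_nonneg hf.2.le _)
    calc (1 - 1 / (p : ℝ))⁻¹ ^ s.card * avgP p (fun n => if ∃ a ∈ s, (p : ℤ) ∣ n + a then (0 : ℝ) else 1)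
        ≤ (1 - 1 / (p : ℝ))⁻¹ ^ s.card * ((1 - 1 / (p : ℝ)) ^ s.card *
          (if ∃ a ∈ s, ∃ a' ∈ s, a ≠ a' ∧ (p : ℤ) ∣ a - a' then (1 + 14 / (p : ℝ)) else 1)) :=
          mul_le_mul_of_nonneg_left hm (pow_nonneg hf.2.le _)
      _ = _ := by rw [← mul_assoc, hc, one_mul]

theorem Rr_poly {u : ℝ} (hu0 : 0 ≤ u) (hu : u ≤ 1 / 5) {k : ℕ} (hk1 : 1 ≤ k) (hk3 : k ≤ 3) :
    (1 - 6 * u ^ 2) * (1 - u) ^ k ≤ 1 - k * u := by
  have hcase : k = 1 ∨ k = 2 ∨ k = 3 := by omega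
  rcases hcase with rfl | rfl | rfl
  · have : 0 ≤ u ^ 2 * (1 - u) := mul_nonneg (sq_nonneg u) (by linarith)
    push_cast
    nlinarith
  · have h1 : 0 ≤ u ^ 2 * (6 * (1 - u) ^ 2 - 1) := by
      refine mul_nonneg (sq_nonneg u) ?_
      nlinarith
    push_cast
    nlinarith
  · have h0 : (16 / 25 : ℝ) ≤ (1 - u) ^ 2 := by nlinarith
    have h00 : (16 / 25 : ℝ) * (1 - u) ≤ (1 - u) ^ 2 * (1 - u) := mul_le_mul_of_nonneg_right h0 (by linarith)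
    have h1 : 0 ≤ u ^ 2 * (6 * (1 - u) ^ 3 - 3 + u) := by
      refine mul_nonneg (sq_nonneg u) ?_
      have : (1 - u) ^ 3 = (1 - u) ^ 2 * (1 - u) := by ring
      rw [this]
      linarith
    push_cast
    nlinarith

theorem rr_lower {y w : ℕ} (hy : 3 ≤ y) (h : y ≤ w) (s : Finset ℤ) (hs1 : 1 ≤ s.card) (hs3 : s.card ≤ 3) :
    1 - 100 / (y : ℝ) ≤ avgP (PR (y : ℝ) (w : ℝ)) (fun m => ∏ a ∈ s, rr y w (m + a)) := by
  classical
  have _ := h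
  have h1 : (fun m => ∏ a ∈ s, rr y w (m + a)) = fun m => ∏ a ∈ s, rr y w (m + a) ^ (fun _ : ℤ => 1) a := by
    funext m
    simp
  rw [h1, Rr_avg y w s (fun _ => 1) (fun _ _ => le_rfl)]
  have hy0 : (0 : ℝ) < y := by exact_mod_cast (by omega : 0 < y)
  have h5 : ∀ p ∈ PI (y : ℝ) (w : ℝ), (5 : ℝ) ≤ p := by
    intro p hp
    have h2 := Rr_mem.mp hp
    have h3 : 5 ≤ p := by
      by_contra hlt
      have h4 : p = 4 := by omega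
      rw [h4] at h2
      exact absurd h2.1 (by norm_num)
    exact_mod_cast h3
  have hprod : 1 - ∑ p ∈ PI (y : ℝ) (w : ℝ), 6 / (p : ℝ) ^ 2 ≤
      ∏ p ∈ PI (y : ℝ) (w : ℝ), ((1 - 1 / (p : ℝ))⁻¹ ^ (∑ a ∈ s, (fun _ : ℤ => 1) a) *
          avgP p (fun n => if ∃ a ∈ s, (p : ℤ) ∣ n + a then (0 : ℝ) else 1)) := by
    refine SNG_one_sub _ _ _ (fun p _ => by positivity) (fun p hp => ?_) (fun p hp => ?_)
    · have := h5 p hp
      rw [div_le_one (by positivity)]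
      nlinarith
    · have hp5 := h5 p hp
      have hpp := (Rr_mem.mp hp).1
      have hf := Rr_fac hpp
      have hp0 : (0 : ℝ) < p := by linarith
      rw [BLK_avg0 hpp.pos s]
      have hk : ∑ a ∈ s, (fun _ : ℤ => 1) a = s.card := by simp
      rw [hk]
      have hhit : (((Finset.range p).filter (fun m : ℕ => ∃ a ∈ s, (p : ℤ) ∣ (m : ℤ) + a)).card : ℝ) ≤ s.card := by
        exact_mod_cast BLK_hit_le hpp.pos s
      have hu : 1 / (p : ℝ) ≤ 1 / 5 := one_div_le_one_div_of_le (by norm_num) hp5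
      have hpoly := Rr_poly (u := 1 / (p : ℝ)) (by positivity) hu hs1 hs3
      have h6 : (1 : ℝ) - s.card * (1 / (p : ℝ)) ≤
          1 - ((Finset.range p).filter (fun m : ℕ => ∃ a ∈ s, (p : ℤ) ∣ (m : ℤ) + a)).card / (p : ℝ) := by
        have := div_le_div_of_nonneg_right hhit hp0.le
        have h7 : (s.card : ℝ) * (1 / (p : ℝ)) = s.card / p := by ring
        rw [h7]
        linarith
      have hc : (1 - 1 / (p : ℝ))⁻¹ ^ s.card * (1 - 1 / (p : ℝ)) ^ s.card = 1 := by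
        rw [← mul_pow, inv_mul_cancel₀ hf.1.ne', one_pow]
      calc 1 - 6 / (p : ℝ) ^ 2 = (1 - 6 * (1 / (p : ℝ)) ^ 2) * 1 := by ring
        _ = (1 - 6 * (1 / (p : ℝ)) ^ 2) * ((1 - 1 / (p : ℝ))⁻¹ ^ s.card * (1 - 1 / (p : ℝ)) ^ s.card) := by
          rw [hc]
        _ = (1 - 1 / (p : ℝ))⁻¹ ^ s.card * ((1 - 6 * (1 / (p : ℝ)) ^ 2) * (1 - 1 / (p : ℝ)) ^ s.card) := by
          ring
        _ ≤ (1 - 1 / (p : ℝ))⁻¹ ^ s.card *
            (1 - ((Finset.range p).filter (fun m : ℕ => ∃ a ∈ s, (p : ℤ) ∣ (m : ℤ) + a)).card / (p : ℝ)) :=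
          mul_le_mul_of_nonneg_left (hpoly.trans h6) (pow_nonneg hf.2.le _)
  have hsum : ∑ p ∈ PI (y : ℝ) (w : ℝ), 6 / (p : ℝ) ^ 2 ≤ 6 / (y : ℝ) :=
    SNG_inv_sq (by norm_num) (by omega) _ (fun n hn => (Rr_mem.mp hn).2.1)
  have h100 : 6 / (y : ℝ) ≤ 100 / (y : ℝ) := div_le_div_of_nonneg_right (by norm_num) hy0.le
  linarith

end Pool.Agent.H12.DM
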