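import Pool.Agent.H12.DM.Bd
import Pool.Agent.H6.MB.PAU
import Pool.Agent.H17.UPNT

/-!
# Ba: the primes against products of shifts of `Mm`

`L = log x`, `N = ⌊x⌋₊ + 1`, `w = yy x`, `W = WW w`, `W^68 ≤ L` (`WW_yy_pow_le`), `φ = wp w = W/φ(W)`.
Let `T n = ∏_{h∈s} Mm w (n - h) ≥ 0`; it has period `W` (`Mm_period`). If `La x n ≠ 0` then `n` is a prime `> x^(1/4) > w` (`x` large), so coprime to `W`.
For `a < W` coprime to `W` let `S_a = ∑_{n<N, n%W=a} La x n = L * #{p ≤ x prime, p ≡ a (W), p > x^(1/4)}`. By `piAP_lower`, `piAP_upper` (for `ε₁ = ε/4`, `q = W`) and `#{p ≤ x^(1/4)} ≤ x^(1/4) + 1`: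
`|S_a - x/φ(W)| ≤ ε₁ x/φ(W) + L (x^(1/4) + 1)`, and `|x - N| ≤ 1`, `φ(W) ≤ L`, so `|S_a - N/φ(W)| ≤ ε N/φ(W)` for large `x`. Hence
`|∑_n La x n * T n - (N/φ(W)) ∑_{a<W, coprime} T a| ≤ ε (N/φ(W)) ∑_{a<W, coprime} T a`, and `(1/φ(W)) ∑_{a coprime} T a = (1/W) ∑_{a<W} Mm w a * T a = sW x (insert 0 s)` (`Mm w a = W/φ(W)` if `a` is coprime to `W`, otherwise `0`;
`0 ∉ s`; `Mm w (a - 0) = Mm w a`).
-/

set_option autoImplicit false

namespace Pool.Agent.H12.DM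

open Finset Pool.Agent.H17 Pool.Agent.H6.MF Pool.Agent.H6.MB

private lemma Ba_pow {ε x : ℝ} (hε : 0 < ε) (hx1 : 1 ≤ x) (hx : (258 / ε) ^ 2 ≤ x) :
    Real.log x * Real.log x * (x ^ (1 / 4 : ℝ) + 1) + 1 ≤ ε / 2 * x := by
  have hx0 : 0 ≤ x := by linarith
  have h1 : Real.log x ≤ x ^ (1 / 8 : ℝ) / (1 / 8 : ℝ) := Real.log_le_rpow_div hx0 (by norm_num)
  have hlog : 0 ≤ Real.log x := Real.log_nonneg hx1
  have e1 : x ^ (1 / 8 : ℝ) * x ^ (1 / 8 : ℝ) = x ^ (1 / 4 : ℝ) := by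
    rw [← Real.rpow_add (by linarith)]; norm_num
  have e2 : x ^ (1 / 4 : ℝ) * x ^ (1 / 4 : ℝ) = Real.sqrt x := by
    rw [← Real.rpow_add (by linarith), Real.sqrt_eq_rpow]; norm_num
  have g1 : 1 ≤ x ^ (1 / 4 : ℝ) := Real.one_le_rpow hx1 (by norm_num)
  have g2 : 1 ≤ Real.sqrt x := by
    rw [← e2]; nlinarith
  have h2 : Real.log x * Real.log x ≤ 64 * x ^ (1 / 4 : ℝ) := by
    have : Real.log x * Real.log x ≤
        (x ^ (1 / 8 : ℝ) / (1 / 8 : ℝ)) * (x ^ (1 / 8 : ℝ) / (1 / 8 : ℝ)) :=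
      mul_le_mul h1 h1 hlog (hlog.trans h1)
    refine this.trans (le_of_eq ?_)
    rw [← e1]; ring
  have h3 : Real.log x * Real.log x * (x ^ (1 / 4 : ℝ) + 1) ≤
      64 * x ^ (1 / 4 : ℝ) * (2 * x ^ (1 / 4 : ℝ)) :=
    mul_le_mul h2 (by linarith) (by linarith) (by linarith)
  have h4 : Real.log x * Real.log x * (x ^ (1 / 4 : ℝ) + 1) ≤ 128 * Real.sqrt x := by
    refine h3.trans (le_of_eq ?_)
    rw [← e2]; ring
  have h5 : 258 / ε ≤ Real.sqrt x := by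
    rw [Real.le_sqrt (by positivity) hx0]
    exact hx
  have h6 : 258 ≤ ε * Real.sqrt x := by
    rw [div_le_iff₀ hε] at h5
    linarith
  have h7 : Real.sqrt x * Real.sqrt x = x := Real.mul_self_sqrt hx0
  have h8 : 258 * Real.sqrt x ≤ ε * x := by
    calc 258 * Real.sqrt x ≤ (ε * Real.sqrt x) * Real.sqrt x :=
          mul_le_mul_of_nonneg_right h6 (by linarith)
      _ = ε * x := by rw [mul_assoc, h7]
  linarith

private lemma Ba_isP (n : ℕ) : isP (n : ℤ) ↔ n.Prime := by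
  unfold isP
  rw [Int.toNat_natCast]

private lemma Ba_class {ε x : ℝ} (hε : 0 < ε) (hx3 : 3 ≤ x) (hL1 : 1 ≤ Real.log x)
    (hpow : Real.log x * Real.log x * (x ^ (1 / 4 : ℝ) + 1) + 1 ≤ ε / 2 * x)
    {W : ℕ} (hW : 0 < W) (hφL : (W.totient : ℝ) ≤ Real.log x) {a : ℕ} (haW : a < W)
    (hup : ((piAP (a : ZMod W) x : ℕ) : ℝ) ≤ (1 + ε / 4) * x / (W.totient * Real.log x))
    (hlo : (1 - ε / 4) * x / (W.totient * Real.log x) ≤ ((piAP (a : ZMod W) x : ℕ) : ℝ)) :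
    |∑ n ∈ (Finset.range (⌊x⌋₊ + 1)).filter (fun n => n % W = a), La x (n : ℤ)
        - ((⌊x⌋₊ : ℝ) + 1) / (W.totient : ℝ)| ≤
      ε * (((⌊x⌋₊ : ℝ) + 1) / (W.totient : ℝ)) := by
  have hx0 : 0 ≤ x := by linarith
  have hφ0 : (0 : ℝ) < (W.totient : ℝ) := by exact_mod_cast Nat.totient_pos.mpr hW
  have hL0 : 0 < Real.log x := by linarith
  set F : Finset ℕ := (Finset.range (⌊x⌋₊ + 1)).filter
    (fun n => n % W = a ∧ n.Prime ∧ x ^ (1 / 4 : ℝ) < (n : ℝ)) with hF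
  have hS : ∑ n ∈ (Finset.range (⌊x⌋₊ + 1)).filter (fun n => n % W = a), La x (n : ℤ) =
      (F.card : ℝ) * Real.log x := by
    have e1 : ∀ n ∈ (Finset.range (⌊x⌋₊ + 1)).filter (fun n => n % W = a), La x (n : ℤ) =
        if n.Prime ∧ x ^ (1 / 4 : ℝ) < (n : ℝ) then Real.log x else 0 := by
      intro n hn
      rw [Finset.mem_filter, Finset.mem_range] at hn
      have hnx : (n : ℝ) ≤ x := by
        have h1 : n ≤ ⌊x⌋₊ := by omega
        exact (Nat.cast_le.mpr h1).trans (Nat.floor_le hx0)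
      unfold La
      have hc : (((n : ℤ) : ℤ) : ℝ) = (n : ℝ) := by push_cast; rfl
      by_cases h : n.Prime ∧ x ^ (1 / 4 : ℝ) < (n : ℝ)
      · rw [if_pos h, if_pos ⟨(Ba_isP n).2 h.1, by rw [hc]; exact h.2, by rw [hc]; exact hnx⟩]
      · rw [if_neg h, if_neg]
        rintro ⟨h1, h2, _⟩
        rw [hc] at h2
        exact h ⟨(Ba_isP n).1 h1, h2⟩
    rw [Finset.sum_congr rfl e1, ← Finset.sum_filter, Finset.filter_filter, Finset.sum_const,
      nsmul_eq_mul]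
  have hmod : ∀ p : ℕ, ((p : ZMod W) = (a : ZMod W)) ↔ p % W = a := by
    intro p
    rw [ZMod.natCast_eq_natCast_iff', Nat.mod_eq_of_lt haW]
  have hle : F.card ≤ piAP (a : ZMod W) x := by
    unfold piAP
    apply Finset.card_le_card
    intro n hn
    rw [hF, Finset.mem_filter, Finset.mem_range] at hn
    rw [Finset.mem_filter, Finset.mem_Icc]
    exact ⟨⟨hn.2.2.1.one_lt.le, by omega⟩, hn.2.2.1, (hmod n).2 hn.2.1⟩
  have hge : piAP (a : ZMod W) x ≤ F.card + (⌊x ^ (1 / 4 : ℝ)⌋₊ + 1) := by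
    have h1 : piAP (a : ZMod W) x ≤ (F ∪ Finset.range (⌊x ^ (1 / 4 : ℝ)⌋₊ + 1)).card := by
      unfold piAP
      apply Finset.card_le_card
      intro n hn
      rw [Finset.mem_filter, Finset.mem_Icc] at hn
      rw [Finset.mem_union, Finset.mem_range, hF, Finset.mem_filter, Finset.mem_range]
      by_cases h : x ^ (1 / 4 : ℝ) < (n : ℝ)
      · left
        exact ⟨by omega, (hmod n).1 hn.2.2, hn.2.1, h⟩
      · right
        push Not at h
        have := Nat.le_floor h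
        omega
    refine h1.trans ((Finset.card_union_le _ _).trans ?_)
    rw [Finset.card_range]
  have hge' : ((piAP (a : ZMod W) x : ℕ) : ℝ) ≤ (F.card : ℝ) + (x ^ (1 / 4 : ℝ) + 1) := by
    have h1 : ((piAP (a : ZMod W) x : ℕ) : ℝ) ≤
        ((F.card + (⌊x ^ (1 / 4 : ℝ)⌋₊ + 1) : ℕ) : ℝ) := by exact_mod_cast hge
    push_cast at h1
    have h2 : (⌊x ^ (1 / 4 : ℝ)⌋₊ : ℝ) ≤ x ^ (1 / 4 : ℝ) :=
      Nat.floor_le (Real.rpow_nonneg hx0 _)
    linarith
  have hle' : (F.card : ℝ) ≤ ((piAP (a : ZMod W) x : ℕ) : ℝ) := by exact_mod_cast hle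
  have hN1 : (⌊x⌋₊ : ℝ) + 1 ≤ x + 1 := by
    have := Nat.floor_le hx0
    linarith
  have hN2 : x ≤ (⌊x⌋₊ : ℝ) + 1 := (Nat.lt_floor_add_one x).le
  rw [hS]
  set φ : ℝ := (W.totient : ℝ) with hφ
  set L : ℝ := Real.log x with hL
  set N : ℝ := (⌊x⌋₊ : ℝ) + 1 with hN
  set P : ℝ := ((piAP (a : ZMod W) x : ℕ) : ℝ) with hP
  set q : ℝ := x ^ (1 / 4 : ℝ) with hq
  have hq0 : 0 ≤ q := Real.rpow_nonneg hx0 _
  rw [le_div_iff₀ (by positivity)] at hup
  rw [div_le_iff₀ (by positivity)] at hlo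
  -- multiply by φ
  have hmul : φ * (F.card * L) ≤ (1 + ε / 4) * x := by
    calc φ * (F.card * L) = F.card * (φ * L) := by ring
      _ ≤ P * (φ * L) := mul_le_mul_of_nonneg_right hle' (by positivity)
      _ ≤ _ := hup
  have hmul2 : (1 - ε / 4) * x - L * L * (q + 1) ≤ φ * (F.card * L) := by
    have h1 : P * (φ * L) ≤ (F.card + (q + 1)) * (φ * L) :=
      mul_le_mul_of_nonneg_right hge' (by positivity)
    have h2 : (q + 1) * (φ * L) ≤ (q + 1) * (L * L) :=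
      mul_le_mul_of_nonneg_left (mul_le_mul_of_nonneg_right hφL hL0.le) (by linarith)
    nlinarith
  have hNφ : N / φ * φ = N := div_mul_cancel₀ N hφ0.ne'
  rw [abs_le]
  constructor
  · apply le_of_mul_le_mul_right _ hφ0
    have e1 : -(ε * (N / φ)) * φ = -(ε * N) := by
      rw [neg_mul, mul_assoc, hNφ]
    have e2 : (↑F.card * L - N / φ) * φ = φ * (F.card * L) - N := by
      rw [sub_mul, hNφ]; ring
    rw [e1, e2]
    have h3 : ε * x ≤ ε * N := mul_le_mul_of_nonneg_left hN2 hε.le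
    linarith
  · apply le_of_mul_le_mul_right _ hφ0
    have e1 : (ε * (N / φ)) * φ = ε * N := by
      rw [mul_assoc, hNφ]
    have e2 : (↑F.card * L - N / φ) * φ = φ * (F.card * L) - N := by
      rw [sub_mul, hNφ]; ring
    rw [e1, e2]
    have h3 : ε * x ≤ ε * N := mul_le_mul_of_nonneg_left hN2 hε.le
    have h4 : 0 ≤ ε * x := by positivity
    linarith

theorem Ba (ε : ℝ) (hε : 0 < ε) : ∃ X : ℝ, ∀ x : ℝ, X ≤ x → ∀ s : Finset ℤ, 0 ∉ s →
    |∑ n ∈ Finset.range (⌊x⌋₊ + 1), La x (n : ℤ) * ∏ h ∈ s, Mm (yy x) ((n : ℤ) - h)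
        - ((⌊x⌋₊ : ℝ) + 1) * sW x (insert 0 s)| ≤ ε * ((⌊x⌋₊ : ℝ) + 1) * sW x (insert 0 s) := by
  obtain ⟨X1, hX1⟩ := piAP_upper (ε := ε / 4) (by positivity)
  obtain ⟨X2, hX2⟩ := piAP_lower (ε := ε / 4) (by positivity)
  refine ⟨max (max X1 X2) (max 3 ((258 / ε) ^ 2)), fun x hx s hs => ?_⟩
  have hx1 : X1 ≤ x := (le_max_left _ _).trans ((le_max_left _ _).trans hx)
  have hx2 : X2 ≤ x := (le_max_right _ _).trans ((le_max_left _ _).trans hx)
  have hx3 : 3 ≤ x := (le_max_left _ _).trans ((le_max_right _ _).trans hx)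
  have hx4 : (258 / ε) ^ 2 ≤ x := (le_max_right _ _).trans ((le_max_right _ _).trans hx)
  have hx0 : 0 ≤ x := by linarith
  have hL1 : 1 ≤ Real.log x := by
    rw [Real.le_log_iff_exp_le (by linarith)]
    have := Real.exp_one_lt_d9
    linarith
  have hpow := Ba_pow hε (by linarith : (1 : ℝ) ≤ x) hx4
  set w : ℕ := yy x with hw
  set W : ℕ := WW w with hWdef
  have hWpos : 0 < W := WW_pos w
  have hWne : NeZero W := ⟨hWpos.ne'⟩
  have hW1 : (1 : ℝ) ≤ (W : ℝ) := by exact_mod_cast hWpos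
  have h34 : (W : ℝ) ^ 34 ≤ Real.sqrt (Real.log x) := WW_yy_pow_le hL1
  have hW68 : (W : ℝ) ^ 68 ≤ Real.log x := by
    have h1 : (W : ℝ) ^ 68 = (W : ℝ) ^ 34 * (W : ℝ) ^ 34 := by rw [← pow_add]
    rw [h1, ← Real.mul_self_sqrt (by linarith : (0 : ℝ) ≤ Real.log x)]
    exact mul_le_mul h34 h34 (by positivity) (by positivity)
  have hW34 : (W : ℝ) ^ 34 ≤ Real.log x :=
    (pow_le_pow_right₀ hW1 (by norm_num)).trans hW68
  have hφL : (W.totient : ℝ) ≤ Real.log x := by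
    have h1 : (W.totient : ℝ) ≤ (W : ℝ) := by exact_mod_cast Nat.totient_le W
    have h2 : (W : ℝ) ≤ (W : ℝ) ^ 68 := le_self_pow₀ hW1 (by norm_num)
    linarith
  have hφ0 : (0 : ℝ) < (W.totient : ℝ) := by exact_mod_cast Nat.totient_pos.mpr hWpos
  -- small primes
  have hwq : (w : ℝ) < x ^ (1 / 4 : ℝ) := by
    have h1 : (w : ℝ) ≤ Real.log (Real.log x) / 100 := by
      rw [hw]
      unfold yy
      apply Nat.floor_le
      have := Real.log_nonneg hL1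
      positivity
    have h2 : Real.log (Real.log x) ≤ Real.log x := (Real.log_le_self (by linarith))
    have h3 : Real.log x ≤ x ^ (1 / 4 : ℝ) / (1 / 4 : ℝ) := Real.log_le_rpow_div hx0 (by norm_num)
    have h4 : 0 < x ^ (1 / 4 : ℝ) := Real.rpow_pos_of_pos (by linarith) _
    linarith
  set T : ℤ → ℝ := fun n => ∏ h ∈ s, Mm w (n - h) with hT
  have hT0 : ∀ n, 0 ≤ T n := fun n => Finset.prod_nonneg fun h _ => Mm_nonneg _ _
  have hTper : ∀ n k : ℤ, T (n + k * (W : ℤ)) = T n := by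
    intro n k
    rw [hT]
    apply Finset.prod_congr rfl
    intro h _
    have : n + k * (W : ℤ) - h = (n - h) + k * (W : ℤ) := by ring
    rw [this]
    exact Mm_period w _ _
  have hcop : ∀ n : ℕ, n ∈ Finset.range (⌊x⌋₊ + 1) → ¬ (n % W).Coprime W → La x (n : ℤ) = 0 := by
    intro n _ hnc
    unfold La
    rw [if_neg]
    rintro ⟨h1, h2, _⟩
    rw [Ba_isP] at h1
    rw [Int.cast_natCast] at h2
    apply hnc
    have h3 : n.Coprime W := by
      rw [hWdef, coprime_WW]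
      intro p hp hpn
      rw [mem_PP] at hp
      have h4 : p = n := (Nat.prime_dvd_prime_iff_eq hp.2 h1).mp hpn
      have h5 : (p : ℝ) ≤ (w : ℝ) := by exact_mod_cast hp.1
      rw [h4] at h5
      linarith
    unfold Nat.Coprime at h3 ⊢
    rw [← Nat.gcd_rec, Nat.gcd_comm]
    exact h3
  -- the sum over classes
  have hsum : ∑ n ∈ Finset.range (⌊x⌋₊ + 1), La x (n : ℤ) * ∏ h ∈ s, Mm w ((n : ℤ) - h) =
      ∑ a ∈ Finset.range W, T (a : ℤ) *
        ∑ n ∈ (Finset.range (⌊x⌋₊ + 1)).filter (fun n => n % W = a), La x (n : ℤ) := by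
    rw [← Finset.sum_fiberwise_of_maps_to (s := Finset.range (⌊x⌋₊ + 1)) (t := Finset.range W)
      (g := fun n => n % W) (fun n _ => Finset.mem_range.mpr (Nat.mod_lt n hWpos))]
    apply Finset.sum_congr rfl
    intro a _
    rw [Finset.mul_sum]
    apply Finset.sum_congr rfl
    intro n hn
    rw [Finset.mem_filter] at hn
    have h1 : T (n : ℤ) = T (a : ℤ) := by
      rw [← hTper (a : ℤ) ((n / W : ℕ) : ℤ)]
      congr 1
      have h2 := Nat.mod_add_div n W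
      rw [hn.2] at h2
      have h3 : (n : ℤ) = (a : ℤ) + (W : ℤ) * ((n / W : ℕ) : ℤ) := by exact_mod_cast h2.symm
      rw [h3]
      ring
    have h2 : ∏ h ∈ s, Mm w ((n : ℤ) - h) = T (a : ℤ) := h1
    rw [h2]
    ring
  have hsW : sW x (insert 0 s) = ∑ a ∈ Finset.range W, Mm w (a : ℤ) * T (a : ℤ) / (W : ℝ) := by
    unfold sW avgP
    rw [← hw, ← hWdef, Finset.sum_div]
    apply Finset.sum_congr rfl
    intro a _
    beta_reduce
    rw [Finset.prod_insert hs, sub_zero]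
  rw [hsum, hsW, Finset.mul_sum, ← Finset.sum_sub_distrib, Finset.mul_sum]
  refine (Finset.abs_sum_le_sum_abs _ _).trans (Finset.sum_le_sum fun a ha => ?_)
  rw [Finset.mem_range] at ha
  by_cases hac : a.Coprime W
  · have hM : Mm w (a : ℤ) = (W : ℝ) / (W.totient : ℝ) := by
      unfold Mm
      rw [if_pos]
      · rfl
      · rw [← hWdef, Int.gcd_natCast_natCast]
        exact hac
    have hu : IsUnit (a : ZMod W) := (ZMod.isUnit_iff_coprime a W).mpr hac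
    have hcl := Ba_class hε hx3 hL1 hpow hWpos hφL ha (hX1 x hx1 W (a : ZMod W) hu hW68)
      (hX2 x hx2 W (a : ZMod W) hu hW34)
    have hWR : (W : ℝ) ≠ 0 := by positivity
    have e1 : Mm w (a : ℤ) * T (a : ℤ) / (W : ℝ) = T (a : ℤ) / (W.totient : ℝ) := by
      rw [hM]
      field_simp
    rw [e1]
    have e2 : T (a : ℤ) * ∑ n ∈ (Finset.range (⌊x⌋₊ + 1)).filter (fun n => n % W = a), La x (n : ℤ) -
        ((⌊x⌋₊ : ℝ) + 1) * (T (a : ℤ) / (W.totient : ℝ)) =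
        T (a : ℤ) * (∑ n ∈ (Finset.range (⌊x⌋₊ + 1)).filter (fun n => n % W = a), La x (n : ℤ) -
          ((⌊x⌋₊ : ℝ) + 1) / (W.totient : ℝ)) := by ring
    rw [e2, abs_mul, abs_of_nonneg (hT0 _)]
    calc _ ≤ T (a : ℤ) * (ε * (((⌊x⌋₊ : ℝ) + 1) / (W.totient : ℝ))) :=
          mul_le_mul_of_nonneg_left hcl (hT0 _)
      _ = _ := by ring
  · have hM : Mm w (a : ℤ) = 0 := by
      unfold Mm
      rw [if_neg]
      rw [← hWdef, Int.gcd_natCast_natCast]
      exact hac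
    have hS0 : ∑ n ∈ (Finset.range (⌊x⌋₊ + 1)).filter (fun n => n % W = a), La x (n : ℤ) = 0 := by
      apply Finset.sum_eq_zero
      intro n hn
      rw [Finset.mem_filter] at hn
      apply hcop n hn.1
      rw [hn.2]
      exact hac
    rw [hM, hS0]
    simp

end Pool.Agent.H12.DM
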