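import Pool.Agent.H12.DM.Mo

/-!
# Mp: third and first moments

`L = log x`, `N = ⌊x⌋₊ + 1`.

* `Mo3`. For `n < N` and `d, d' ∈ Icc 1 H` the numbers `n, n-d, n-d'` are all of the form `m - c` with `c ∈ Icc 1 (2H)`, for each of the `H` values `m = n + j`,
  `j = 1, ..., H` (`c = j, j + d, j + d'`). So `H * ∑_{n<N} La n * (nf (Icc 1 H) La n)^2 ≤ ∑_{m ∈ rgH x (2H)} (nf (Icc 1 (2H)) La m)^3`: for fixed `j` and `m = n + j`,
  sum over `n`: `La n ≤` the term `c = j` of `nf (Icc 1 (2H)) La m`; precisely `∑_j La(m - j) (nf (Icc 1 H) La (m-j))^2 ≤ ∑_j La(m-j) (nf (Icc 1 (2H)) La m)^2 ≤ (nf (Icc 1 (2H)) La m)^3`.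
  Then `t^3 ≤ H^3 + t^4/H` for `t ≥ 0` and `Mo4` for `2H` (`2H ≤ 2 L^2`): `≤ 2N * H^3 + C N (2H)^4/H` (`rgH x (2H)` has `N + 2H ≤ 2N` elements).
* `Mo1`: `∑_{n<N} La x n ≤ L * π(x) ≤ 2 x ≤ 2N` for large `x` (`Pool.Agent.H17.pi_tendsto`; or any Chebyshev bound).
-/

set_option autoImplicit false

namespace Pool.Agent.H12.DM

open Finset Pool.Agent.H17 Pool.Agent.H6.MF Pool.Agent.H6.MB

private lemma Mp_cast (H : ℕ) (f : ℤ → ℝ) :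
    ∑ j ∈ Finset.Icc 1 H, f (j : ℤ) = ∑ d ∈ Finset.Icc (1 : ℤ) (H : ℤ), f d := by
  refine Finset.sum_nbij' (fun b : ℕ => (b : ℤ)) (fun b : ℤ => b.toNat) ?_ ?_ ?_ ?_ ?_
  · intro b hb
    rw [Finset.mem_Icc] at hb ⊢
    constructor
    · exact_mod_cast hb.1
    · exact_mod_cast hb.2
  · intro b hb
    rw [Finset.mem_Icc] at hb ⊢
    omega
  · intro b _
    simp
  · intro b hb
    rw [Finset.mem_Icc] at hb
    exact Int.toNat_of_nonneg (by omega)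
  · intro b _
    rfl

private lemma Mp_sub {x : ℝ} (hx : 1 ≤ x) (H j : ℕ) (hj : j ≤ H) (n : ℤ) :
    nf (Finset.Icc 1 (H : ℤ)) (La x) n ≤ nf (Finset.Icc 1 ((2 * H : ℕ) : ℤ)) (La x) (n + j) := by
  unfold nf
  have h1 : ∑ d ∈ Finset.Icc 1 (H : ℤ), La x (n - d)
      = ∑ e ∈ (Finset.Icc 1 (H : ℤ)).image (fun d => d + (j : ℤ)), La x (n + j - e) := by
    rw [Finset.sum_image]
    · refine Finset.sum_congr rfl fun d _ => ?_
      congr 1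
      ring
    · intro a _ b _ h
      have h' : a + (j : ℤ) = b + (j : ℤ) := h
      omega
  rw [h1]
  refine Finset.sum_le_sum_of_subset_of_nonneg ?_ (fun e _ _ => La_nonneg hx _)
  intro e he
  rw [Finset.mem_image] at he
  obtain ⟨d, hd, rfl⟩ := he
  rw [Finset.mem_Icc] at hd ⊢
  push_cast
  omega

private lemma Mp_half {x : ℝ} (hx : 1 ≤ x) (H : ℕ) (m : ℤ) :
    ∑ j ∈ Finset.Icc 1 H, La x (m - (j : ℤ)) ≤ nf (Finset.Icc 1 ((2 * H : ℕ) : ℤ)) (La x) m := by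
  rw [Mp_cast H (fun d => La x (m - d))]
  unfold nf
  refine Finset.sum_le_sum_of_subset_of_nonneg ?_ (fun e _ _ => La_nonneg hx _)
  intro e he
  rw [Finset.mem_Icc] at he ⊢
  push_cast
  omega

private lemma Mp_shift (N H j : ℕ) (hj : j ≤ H) (g : ℕ → ℝ) (hg : ∀ m, 0 ≤ g m) :
    ∑ n ∈ Finset.range N, g (n + j) ≤ ∑ m ∈ Finset.range (N + 2 * H), g m := by
  rw [Finset.range_eq_Ico, Finset.sum_Ico_add' g 0 N j, Finset.range_eq_Ico]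
  refine Finset.sum_le_sum_of_subset_of_nonneg ?_ (fun e _ _ => hg _)
  intro e he
  rw [Finset.mem_Ico] at he ⊢
  omega

private lemma Mp_main {x : ℝ} (hx : 1 ≤ x) (H : ℕ) :
    (H : ℝ) * ∑ n ∈ Finset.range (⌊x⌋₊ + 1), La x (n : ℤ) * (nf (Finset.Icc 1 (H : ℤ)) (La x) (n : ℤ)) ^ 2
      ≤ ∑ m ∈ rgH x (2 * H), (nf (Finset.Icc 1 ((2 * H : ℕ) : ℤ)) (La x) (m : ℤ)) ^ 3 := by
  have hLa : ∀ n, 0 ≤ La x n := La_nonneg hx
  have h1 : (H : ℝ) * ∑ n ∈ Finset.range (⌊x⌋₊ + 1), La x (n : ℤ) * (nf (Finset.Icc 1 (H : ℤ)) (La x) (n : ℤ)) ^ 2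
      = ∑ j ∈ Finset.Icc 1 H, ∑ n ∈ Finset.range (⌊x⌋₊ + 1),
          La x (n : ℤ) * (nf (Finset.Icc 1 (H : ℤ)) (La x) (n : ℤ)) ^ 2 := by
    rw [Finset.sum_const, Nat.card_Icc, nsmul_eq_mul, Nat.add_sub_cancel]
  rw [h1]
  have h2 : ∀ j ∈ Finset.Icc 1 H, ∑ n ∈ Finset.range (⌊x⌋₊ + 1),
          La x (n : ℤ) * (nf (Finset.Icc 1 (H : ℤ)) (La x) (n : ℤ)) ^ 2
        ≤ ∑ m ∈ rgH x (2 * H), La x ((m : ℤ) - (j : ℤ))
            * (nf (Finset.Icc 1 ((2 * H : ℕ) : ℤ)) (La x) (m : ℤ)) ^ 2 := by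
    intro j hj
    rw [Finset.mem_Icc] at hj
    have h3 := Mp_shift (⌊x⌋₊ + 1) H j hj.2 (fun m => La x ((m : ℤ) - (j : ℤ))
            * (nf (Finset.Icc 1 ((2 * H : ℕ) : ℤ)) (La x) (m : ℤ)) ^ 2)
      (fun m => mul_nonneg (hLa _) (sq_nonneg _))
    refine le_trans (Finset.sum_le_sum fun n _ => ?_) h3
    have e : (((n + j : ℕ) : ℤ)) = (n : ℤ) + j := by push_cast; rfl
    show La x (n : ℤ) * (nf (Finset.Icc 1 (H : ℤ)) (La x) (n : ℤ)) ^ 2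
      ≤ La x (((n + j : ℕ) : ℤ) - (j : ℤ)) * (nf (Finset.Icc 1 ((2 * H : ℕ) : ℤ)) (La x) ((n + j : ℕ) : ℤ)) ^ 2
    rw [e, add_sub_cancel_right]
    refine mul_le_mul_of_nonneg_left ?_ (hLa _)
    exact pow_le_pow_left₀ (nf_nonneg hLa _) (Mp_sub hx H j hj.2 _) 2
  refine (Finset.sum_le_sum h2).trans ?_
  rw [Finset.sum_comm]
  refine Finset.sum_le_sum fun m _ => ?_
  rw [← Finset.sum_mul]
  have h4 := Mp_half hx H (m : ℤ)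
  have h5 : 0 ≤ nf (Finset.Icc 1 ((2 * H : ℕ) : ℤ)) (La x) (m : ℤ) := nf_nonneg hLa _
  calc (∑ j ∈ Finset.Icc 1 H, La x ((m : ℤ) - (j : ℤ))) * (nf (Finset.Icc 1 ((2 * H : ℕ) : ℤ)) (La x) (m : ℤ)) ^ 2
      ≤ nf (Finset.Icc 1 ((2 * H : ℕ) : ℤ)) (La x) (m : ℤ)
          * (nf (Finset.Icc 1 ((2 * H : ℕ) : ℤ)) (La x) (m : ℤ)) ^ 2 :=
        mul_le_mul_of_nonneg_right h4 (sq_nonneg _)
    _ = _ := by ring

private lemma Mp_cube (t H : ℝ) (ht : 0 ≤ t) (hH : 0 < H) : t ^ 3 ≤ H ^ 3 + t ^ 4 / H := by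
  rcases le_total t H with h | h
  · have h1 : t ^ 3 ≤ H ^ 3 := pow_le_pow_left₀ ht h 3
    have h2 : 0 ≤ t ^ 4 / H := by positivity
    linarith
  · have h1 : t ^ 3 ≤ t ^ 4 / H := by
      rw [le_div_iff₀ hH]
      have h3 : 0 ≤ t ^ 3 := by positivity
      nlinarith
    have h2 : 0 < H ^ 3 := by positivity
    linarith

theorem Mo3 : ∃ C X : ℝ, 0 < C ∧ ∀ x : ℝ, X ≤ x → ∀ H : ℕ, Real.log x ≤ (H : ℝ) →
    (H : ℝ) ≤ (Real.log x) ^ 2 →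
    ∑ n ∈ Finset.range (⌊x⌋₊ + 1), La x (n : ℤ) * (nf (Finset.Icc 1 (H : ℤ)) (La x) (n : ℤ)) ^ 2
      ≤ C * ((⌊x⌋₊ : ℝ) + 1) * (H : ℝ) ^ 2 := by
  obtain ⟨C, X, hC, h⟩ := Mo4
  have e1 := (Real.isLittleO_pow_log_id_atTop (n := 2)).def (show (0 : ℝ) < 1 / 2 by norm_num)
  obtain ⟨X1, hX1⟩ := Filter.eventually_atTop.mp e1
  refine ⟨2 + 16 * C, max X (max X1 (Real.exp 1)), by positivity, fun x hx H hH1 hH2 => ?_⟩
  have hxX : X ≤ x := (le_max_left _ _).trans hx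
  have hxX1 : X1 ≤ x := (le_max_left _ _).trans ((le_max_right _ _).trans hx)
  have hxe : Real.exp 1 ≤ x := (le_max_right _ _).trans ((le_max_right _ _).trans hx)
  have hx0 : 0 < x := lt_of_lt_of_le (Real.exp_pos 1) hxe
  have hx1 : 1 ≤ x := by
    have h1 : (1 : ℝ) ≤ Real.exp 1 := Real.one_le_exp (by norm_num)
    linarith
  have hL : 1 ≤ Real.log x := by
    have h1 := Real.log_le_log (Real.exp_pos 1) hxe
    rwa [Real.log_exp] at h1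
  have hH0 : (0 : ℝ) < H := by linarith
  have hlog : 2 * (Real.log x) ^ 2 ≤ x := by
    have h1 := hX1 x hxX1
    rw [Real.norm_of_nonneg (by positivity), id, Real.norm_of_nonneg hx0.le] at h1
    linarith
  have hN : x ≤ (⌊x⌋₊ : ℝ) + 1 := (Nat.lt_floor_add_one x).le
  have h1 := Mp_main hx1 H
  have h2 := h x hxX (2 * H) (by push_cast; linarith) (by push_cast; linarith)
  have h3 : ∑ m ∈ rgH x (2 * H), (nf (Finset.Icc 1 ((2 * H : ℕ) : ℤ)) (La x) (m : ℤ)) ^ 3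
      ≤ ∑ m ∈ rgH x (2 * H), ((H : ℝ) ^ 3 + (nf (Finset.Icc 1 ((2 * H : ℕ) : ℤ)) (La x) (m : ℤ)) ^ 4 / (H : ℝ)) :=
    Finset.sum_le_sum fun m _ => Mp_cube _ _ (nf_nonneg (La_nonneg hx1) _) hH0
  rw [Finset.sum_add_distrib, Finset.sum_const, nsmul_eq_mul, ← Finset.sum_div] at h3
  have hcard : ((rgH x (2 * H)).card : ℝ) ≤ 2 * ((⌊x⌋₊ : ℝ) + 1) := by
    unfold rgH
    rw [Finset.card_range]
    push_cast
    linarith
  have h4 : ((rgH x (2 * H)).card : ℝ) * (H : ℝ) ^ 3 ≤ 2 * ((⌊x⌋₊ : ℝ) + 1) * (H : ℝ) ^ 3 :=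
    mul_le_mul_of_nonneg_right hcard (by positivity)
  have h5 : (∑ m ∈ rgH x (2 * H), (nf (Finset.Icc 1 ((2 * H : ℕ) : ℤ)) (La x) (m : ℤ)) ^ 4) / (H : ℝ)
      ≤ 16 * C * ((⌊x⌋₊ : ℝ) + 1) * (H : ℝ) ^ 3 := by
    rw [div_le_iff₀ hH0]
    refine h2.trans (le_of_eq ?_)
    push_cast
    ring
  have h6 : (H : ℝ) * ∑ n ∈ Finset.range (⌊x⌋₊ + 1), La x (n : ℤ) * (nf (Finset.Icc 1 (H : ℤ)) (La x) (n : ℤ)) ^ 2
      ≤ (H : ℝ) * ((2 + 16 * C) * ((⌊x⌋₊ : ℝ) + 1) * (H : ℝ) ^ 2) := by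
    have e : (H : ℝ) * ((2 + 16 * C) * ((⌊x⌋₊ : ℝ) + 1) * (H : ℝ) ^ 2)
        = 2 * ((⌊x⌋₊ : ℝ) + 1) * (H : ℝ) ^ 3 + 16 * C * ((⌊x⌋₊ : ℝ) + 1) * (H : ℝ) ^ 3 := by ring
    rw [e]
    linarith
  exact le_of_mul_le_mul_left h6 hH0

theorem Mo1 : ∃ X : ℝ, ∀ x : ℝ, X ≤ x →
    ∑ n ∈ Finset.range (⌊x⌋₊ + 1), La x (n : ℤ) ≤ 2 * ((⌊x⌋₊ : ℝ) + 1) := by
  have e1 := pi_tendsto.eventually_le_const (show (1 : ℝ) < 2 by norm_num)
  obtain ⟨X, hX⟩ := Filter.eventually_atTop.mp e1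
  refine ⟨max X 1, fun x hx => ?_⟩
  have hxX : X ≤ x := (le_max_left _ _).trans hx
  have hx1 : 1 ≤ x := (le_max_right _ _).trans hx
  have hx0 : 0 < x := by linarith
  have h1 := hX x hxX
  rw [div_le_iff₀ hx0] at h1
  have h2 : ∑ n ∈ Finset.range (⌊x⌋₊ + 1), La x (n : ℤ)
      ≤ ∑ n ∈ Finset.range (⌊x⌋₊ + 1), (if n.Prime then Real.log x else 0) := by
    refine Finset.sum_le_sum fun n _ => ?_
    by_cases hp : n.Prime
    · rw [if_pos hp]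
      exact La_le hx1 _
    · rw [if_neg hp]
      unfold La
      rw [if_neg]
      rintro ⟨h3, -⟩
      apply hp
      unfold isP at h3
      rwa [Int.toNat_natCast] at h3
  refine h2.trans ?_
  rw [← Finset.sum_filter, Finset.sum_const, nsmul_eq_mul]
  have h3 : ((Finset.range (⌊x⌋₊ + 1)).filter (fun n => n.Prime)).card = Nat.primeCounting ⌊x⌋₊ := by
    unfold Nat.primeCounting Nat.primeCounting'
    rw [Nat.count_eq_card_filter_range]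
  rw [h3]
  refine h1.trans ?_
  have hN : x ≤ (⌊x⌋₊ : ℝ) + 1 := (Nat.lt_floor_add_one x).le
  linarith

end Pool.Agent.H12.DM
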