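import Pool.Agent.H12.DM.Bb
import Pool.Agent.H12.DM.Ba
import Pool.Agent.H12.DM.Bs
import Pool.Agent.H12.DM.Mp

/-!
# Bc: the pairs determine the windows in `L²`

`L = log x`, `N = ⌊x⌋₊ + 1`, `M = Mm (yy x)`, `f = fB x = La - Mi`, `φ = wp (yy x) ≤ W`, `W^34 ≤ √L`, `K L ≤ H ≤ L^2`, `D ⊆ Icc 1 H`, `x` large. `C₀` an absolute constant.
`∑_{n∈rgH} (nf D f n)^2 = ∑_{k,d∈D} ∑_{n∈rgH} f(n-k) f(n-d)`.
* `k = d`: `∑_{n∈rgH} f(n-d)^2 = ∑_{m<N} f(m)^2` (`f` vanishes outside `[0,N)`, `n = m + d < N + H`), `f^2 ≤ 2 La^2 + 2 Mi^2 ≤ 2 L La + 2 φ Mi`; `∑ La ≤ 2N` (`Mo1`), `∑_{m<N} Mi ≤ N + W ≤ 2N`, `φ ≤ L`: the sum is `≤ 8 L N`, in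
  total `≤ 8 L N H ≤ (8/K) N H^2`.
* `k ≠ d`: put `e = d - k`. With `m = n - k`: `∑_{n∈rgH} f(n-k) f(n-d) = ∑_{m<N} f(m) f(m-e)` (`n = m + k ∈ [0, N+H)`), which equals
  `A(e) - B(e) - B(-e) + E(e)`, `A(e) = ∑_{m<N} La(m) La(m-e)`, `B(e) = ∑_{m<N} La(m) Mi(m-e)` (`∑_m Mi(m) La(m-e) = ∑_m La(m) Mi(m+e)`, substituting `m - e`; both functions vanish outside `[0,N)`), `E(e) = ∑_{m<N} Mi(m) Mi(m-e)`. `A` and
  `E` are even. So with `r(e) = #{k ∈ D : k + e ∈ D} ≤ H` (`1 ≤ e ≤ H`):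
  `∑_{k≠d} = 2 ∑_{e=1}^{H} r(e) (A(e) - B(e) - B(-e) + E(e))`.
  - `A`: let `u(e) = A(e) - N sW{0,e}`. By `PL x H δ` for `D₁ = {e ∈ Icc 1 H : u(e) > 0}` and for `{u(e) < 0}`: `|∑ r(e) u(e)| ≤ H δ N H` (`nf D₁ La n = ∑_{e∈D₁} La(n-e)`, exchange sums).
  - `B(±e)`: for `La m ≠ 0`: `m > x^(1/4) > H`, so `m ∓ e ≥ 0` and `m ∓ e < N` except for `m ≥ N - H`: `|B(±e) - ∑_m La(m) M(m∓e)| ≤ H L φ` and by `Ba` (`s = {±e}`) and `sW_neg`: `|B(±e) - N sW{0,e}| ≤ ε₁ N sW{0,e} + H L φ`.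
  - `E(e)`: `Mi_corr`: `|E(e) - N sW{0,e}| ≤ (W+H) φ^2`.
  The main terms cancel. With `∑_{e ≤ H} sW{0,e} ≤ H + W ≤ 2H` (`sW_sum1`): `|∑_{k≠d}| ≤ 2 (H δ N H + 2 H ε₁ N 2H + H^2 (2 H L φ + (W+H) φ^2)) ≤ (2δ + 8ε₁ + ε/8) N H^2` for `x` large.
Choose `ε₁ = ε/64`, `δ = ε/8`, `K = 32/ε + 1`.
-/

set_option autoImplicit false

namespace Pool.Agent.H12.DM

open Finset Pool.Agent.H17 Pool.Agent.H6.MF Pool.Agent.H6.MB

private lemma Bc_toInt (N : ℕ) (F : ℤ → ℝ) :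
    ∑ m ∈ Finset.range N, F (m : ℤ) = ∑ m ∈ Finset.Ico (0 : ℤ) (N : ℤ), F m := by
  refine Finset.sum_nbij' (fun b : ℕ => (b : ℤ)) (fun b : ℤ => b.toNat) ?_ ?_ ?_ ?_ ?_
  · intro b hb
    have h1 := Finset.mem_range.1 hb
    rw [Finset.mem_Ico]
    omega
  · intro b hb
    rw [Finset.mem_Ico] at hb
    rw [Finset.mem_range]
    omega
  · intro b _
    simp
  · intro b hb
    rw [Finset.mem_Ico] at hb
    exact Int.toNat_of_nonneg hb.1
  · intro b _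
    rfl

private lemma Bc_add (u v e : ℤ) (F : ℤ → ℝ) :
    ∑ m ∈ Finset.Ico u v, F (m + e) = ∑ m ∈ Finset.Ico (u + e) (v + e), F m := by
  refine Finset.sum_nbij' (fun b : ℤ => b + e) (fun b : ℤ => b - e) ?_ ?_ ?_ ?_ ?_
  · intro b hb
    rw [Finset.mem_Ico] at hb ⊢
    omega
  · intro b hb
    rw [Finset.mem_Ico] at hb ⊢
    omega
  · intro b _
    show b + e - e = b
    ring
  · intro b _
    show b - e + e = b
    ring
  · intro b _
    rfl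

private lemma Bc_sh (N : ℕ) (h : ℤ → ℝ) (e : ℤ)
    (h0 : ∀ m : ℤ, m < 0 ∨ (N : ℤ) ≤ m → h m = 0)
    (h1 : ∀ m : ℤ, m < 0 ∨ (N : ℤ) ≤ m → h (m + e) = 0) :
    ∑ m ∈ Finset.range N, h (m : ℤ) = ∑ m ∈ Finset.range N, h ((m : ℤ) + e) := by
  rw [Bc_toInt N h, Bc_toInt N (fun m => h (m + e)), Bc_add 0 N e h]
  have a1 : ∑ m ∈ Finset.Ico (0 : ℤ) (N : ℤ) ∩ Finset.Ico (0 + e) ((N : ℤ) + e), h m =
      ∑ m ∈ Finset.Ico (0 : ℤ) (N : ℤ), h m := by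
    refine Finset.sum_subset Finset.inter_subset_left ?_
    intro m hm hm2
    have h2 : m ∉ Finset.Ico (0 + e) ((N : ℤ) + e) :=
      fun h3 => hm2 (Finset.mem_inter.2 ⟨hm, h3⟩)
    rw [Finset.mem_Ico] at h2
    have h3 := h1 (m - e) (by omega)
    rwa [sub_add_cancel] at h3
  have a2 : ∑ m ∈ Finset.Ico (0 : ℤ) (N : ℤ) ∩ Finset.Ico (0 + e) ((N : ℤ) + e), h m =
      ∑ m ∈ Finset.Ico (0 + e) ((N : ℤ) + e), h m := by
    refine Finset.sum_subset Finset.inter_subset_right ?_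
    intro m hm hm2
    have h2 : m ∉ Finset.Ico (0 : ℤ) (N : ℤ) :=
      fun h3 => hm2 (Finset.mem_inter.2 ⟨h3, hm⟩)
    rw [Finset.mem_Ico] at h2
    exact h0 m (by omega)
  rw [← a1, ← a2]

private lemma Bc_win (N H : ℕ) (g : ℤ → ℝ) (hg : ∀ m : ℤ, m < 0 ∨ (N : ℤ) ≤ m → g m = 0)
    (k : ℤ) (hk1 : 0 ≤ k) (hk2 : k ≤ (H : ℤ)) :
    ∑ n ∈ Finset.range (N + H), g ((n : ℤ) - k) = ∑ m ∈ Finset.range N, g (m : ℤ) := by
  rw [Bc_toInt (N + H) (fun m => g (m - k)), Bc_toInt N g]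
  have e2 := Bc_add 0 ((N + H : ℕ) : ℤ) (-k) g
  have e3 : ∑ m ∈ Finset.Ico (0 : ℤ) ((N + H : ℕ) : ℤ), g (m - k) =
      ∑ m ∈ Finset.Ico (0 : ℤ) ((N + H : ℕ) : ℤ), g (m + -k) := by
    refine Finset.sum_congr rfl fun m _ => ?_
    rw [sub_eq_add_neg]
  rw [e3, e2]
  symm
  refine Finset.sum_subset ?_ ?_
  · intro m hm
    rw [Finset.mem_Ico] at hm ⊢
    push_cast
    omega
  · intro m _ hm2
    rw [Finset.mem_Ico] at hm2
    exact hg m (by omega)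

/-- correlations on `[0, N)` -/
private noncomputable def Bc_C (N : ℕ) (f g : ℤ → ℝ) (e : ℤ) : ℝ :=
  ∑ m ∈ Finset.range N, f (m : ℤ) * g ((m : ℤ) - e)

private lemma Bc_sym (N : ℕ) (f g : ℤ → ℝ) (hf : ∀ m : ℤ, m < 0 ∨ (N : ℤ) ≤ m → f m = 0)
    (hg : ∀ m : ℤ, m < 0 ∨ (N : ℤ) ≤ m → g m = 0) (e : ℤ) :
    Bc_C N f g e = Bc_C N g f (-e) := by
  unfold Bc_C
  have h := Bc_sh N (fun m => f m * g (m - e)) e
    (fun m hm => by
      show f m * g (m - e) = 0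
      rw [hf m hm, zero_mul])
    (fun m hm => by
      show f (m + e) * g (m + e - e) = 0
      rw [add_sub_cancel_right, hg m hm, mul_zero])
  refine h.trans (Finset.sum_congr rfl fun m _ => ?_)
  show f ((m : ℤ) + e) * g ((m : ℤ) + e - e) = g (m : ℤ) * f ((m : ℤ) - -e)
  rw [add_sub_cancel_right, sub_neg_eq_add, mul_comm]

private lemma Bc_exp (N H : ℕ) (f : ℤ → ℝ) (hf : ∀ m : ℤ, m < 0 ∨ (N : ℤ) ≤ m → f m = 0)
    (D : Finset ℤ) (hD : D ⊆ Finset.Icc 1 (H : ℤ)) :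
    ∑ n ∈ Finset.range (N + H), (nf D f (n : ℤ)) ^ 2 =
      ∑ k ∈ D, ∑ d ∈ D, Bc_C N f f (d - k) := by
  have h1 : ∀ n ∈ Finset.range (N + H), (nf D f (n : ℤ)) ^ 2 =
      ∑ k ∈ D, ∑ d ∈ D, f ((n : ℤ) - k) * f ((n : ℤ) - d) := by
    intro n _
    unfold nf
    rw [sq, Finset.sum_mul_sum]
  rw [Finset.sum_congr rfl h1, Finset.sum_comm]
  refine Finset.sum_congr rfl fun k hk => ?_
  rw [Finset.sum_comm]
  refine Finset.sum_congr rfl fun d _ => ?_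
  have hk1 := Finset.mem_Icc.1 (hD hk)
  have h2 := Bc_win N H (fun m => f m * f (m - (d - k)))
    (fun m hm => by
      show f m * f (m - (d - k)) = 0
      rw [hf m hm, zero_mul]) k (by omega) hk1.2
  unfold Bc_C
  refine Eq.trans (Finset.sum_congr rfl fun n _ => ?_) h2
  show f ((n : ℤ) - k) * f ((n : ℤ) - d) = f ((n : ℤ) - k) * f ((n : ℤ) - k - (d - k))
  rw [show (n : ℤ) - k - (d - k) = (n : ℤ) - d by ring]

private lemma Bc_dbl (H : ℕ) (C v : ℤ → ℝ) (hv : ∀ e, 0 ≤ v e)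
    (hC : ∀ e : ℤ, 1 ≤ e → e ≤ (H : ℤ) → C e ≤ v e) (hCn : ∀ e : ℤ, C (-e) = C e) (h0 : 0 ≤ C 0)
    (D : Finset ℤ) (hD : D ⊆ Finset.Icc 1 (H : ℤ)) :
    ∑ k ∈ D, ∑ d ∈ D, C (d - k) ≤
      (H : ℝ) * (C 0 + 2 * ∑ e ∈ Finset.Icc 1 (H : ℤ), v e) := by
  have hcard : (D.card : ℝ) ≤ H := by
    have h1 := Finset.card_le_card hD
    rw [Int.card_Icc] at h1
    have h2 : D.card ≤ H := by omega
    exact_mod_cast h2
  have hV : 0 ≤ ∑ e ∈ Finset.Icc 1 (H : ℤ), v e := Finset.sum_nonneg fun e _ => hv e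
  have hk : ∀ k ∈ D, ∑ d ∈ D, C (d - k) ≤ C 0 + 2 * ∑ e ∈ Finset.Icc 1 (H : ℤ), v e := by
    intro k hk
    have hk1 := Finset.mem_Icc.1 (hD hk)
    have s1 : ∑ d ∈ D, C (d - k) = ∑ d ∈ D, ((if d = k then C 0 else 0) +
        ((if k < d then C (d - k) else 0) + (if d < k then C (k - d) else 0))) := by
      refine Finset.sum_congr rfl fun d _ => ?_
      rcases lt_trichotomy d k with h | h | h
      · rw [if_neg h.ne, if_neg (not_lt.2 h.le), if_pos h, zero_add, zero_add, ← hCn, neg_sub]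
      · subst h
        rw [if_pos rfl, if_neg (lt_irrefl _), sub_self, add_zero, add_zero]
      · rw [if_neg h.ne', if_pos h, if_neg (not_lt.2 h.le), zero_add, add_zero]
    have s2 : ∑ d ∈ D, (if d = k then C 0 else 0) = C 0 := by
      rw [Finset.sum_ite_eq' D k (fun _ => C 0), if_pos hk]
    have s3 : ∑ d ∈ D, (if k < d then C (d - k) else 0) ≤ ∑ e ∈ Finset.Icc 1 (H : ℤ), v e := by
      rw [← Finset.sum_filter]
      have t1 : ∑ d ∈ D.filter (fun d => k < d), C (d - k) ≤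
          ∑ d ∈ D.filter (fun d => k < d), v (d - k) := by
        refine Finset.sum_le_sum fun d hd => ?_
        have hd1 := Finset.mem_filter.1 hd
        have hd2 := Finset.mem_Icc.1 (hD hd1.1)
        have hd3 := hd1.2
        exact hC _ (by omega) (by omega)
      have t2 : ∑ e ∈ (D.filter (fun d => k < d)).image (fun d => d - k), v e =
          ∑ d ∈ D.filter (fun d => k < d), v (d - k) := by
        refine Finset.sum_image ?_
        intro a _ b _ h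
        have h' : a - k = b - k := h
        omega
      refine t1.trans (t2.symm.le.trans ?_)
      refine Finset.sum_le_sum_of_subset_of_nonneg ?_ (fun e _ _ => hv e)
      intro e he
      obtain ⟨d, hd, rfl⟩ := Finset.mem_image.1 he
      have hd1 := Finset.mem_filter.1 hd
      have hd2 := Finset.mem_Icc.1 (hD hd1.1)
      have hd3 := hd1.2
      rw [Finset.mem_Icc]
      omega
    have s4 : ∑ d ∈ D, (if d < k then C (k - d) else 0) ≤ ∑ e ∈ Finset.Icc 1 (H : ℤ), v e := by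
      rw [← Finset.sum_filter]
      have t1 : ∑ d ∈ D.filter (fun d => d < k), C (k - d) ≤
          ∑ d ∈ D.filter (fun d => d < k), v (k - d) := by
        refine Finset.sum_le_sum fun d hd => ?_
        have hd1 := Finset.mem_filter.1 hd
        have hd2 := Finset.mem_Icc.1 (hD hd1.1)
        have hd3 := hd1.2
        exact hC _ (by omega) (by omega)
      have t2 : ∑ e ∈ (D.filter (fun d => d < k)).image (fun d => k - d), v e =
          ∑ d ∈ D.filter (fun d => d < k), v (k - d) := by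
        refine Finset.sum_image ?_
        intro a _ b _ h
        have h' : k - a = k - b := h
        omega
      refine t1.trans (t2.symm.le.trans ?_)
      refine Finset.sum_le_sum_of_subset_of_nonneg ?_ (fun e _ _ => hv e)
      intro e he
      obtain ⟨d, hd, rfl⟩ := Finset.mem_image.1 he
      have hd1 := Finset.mem_filter.1 hd
      have hd2 := Finset.mem_Icc.1 (hD hd1.1)
      have hd3 := hd1.2
      rw [Finset.mem_Icc]
      omega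
    rw [s1, Finset.sum_add_distrib, Finset.sum_add_distrib, s2]
    linarith
  calc ∑ k ∈ D, ∑ d ∈ D, C (d - k)
      ≤ ∑ k ∈ D, (C 0 + 2 * ∑ e ∈ Finset.Icc 1 (H : ℤ), v e) := Finset.sum_le_sum hk
    _ = (D.card : ℝ) * (C 0 + 2 * ∑ e ∈ Finset.Icc 1 (H : ℤ), v e) := by
        rw [Finset.sum_const, nsmul_eq_mul]
    _ ≤ (H : ℝ) * (C 0 + 2 * ∑ e ∈ Finset.Icc 1 (H : ℤ), v e) :=
        mul_le_mul_of_nonneg_right hcard (by linarith)

private lemma Bc_bad (N H : ℕ) (e : ℤ) (h1 : -(H : ℤ) ≤ e) (h2 : e ≤ (H : ℤ)) :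
    ((Finset.range N).filter
      (fun m : ℕ => ¬ (0 ≤ (m : ℤ) - e ∧ (m : ℤ) - e < (N : ℤ)))).card ≤ H := by
  rcases le_total 0 e with h | h
  · have h3 : (Finset.range N).filter
        (fun m : ℕ => ¬ (0 ≤ (m : ℤ) - e ∧ (m : ℤ) - e < (N : ℤ))) ⊆ Finset.range e.toNat := by
      intro m hm
      have h4 := Finset.mem_filter.1 hm
      have h5 := Finset.mem_range.1 h4.1
      have h6 := h4.2
      rw [Finset.mem_range]
      omega
    have h4 := Finset.card_le_card h3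
    rw [Finset.card_range] at h4
    omega
  · have h3 : (Finset.range N).filter
        (fun m : ℕ => ¬ (0 ≤ (m : ℤ) - e ∧ (m : ℤ) - e < (N : ℤ))) ⊆
        Finset.Ico (N - (-e).toNat) N := by
      intro m hm
      have h4 := Finset.mem_filter.1 hm
      have h5 := Finset.mem_range.1 h4.1
      have h6 := h4.2
      rw [Finset.mem_Ico]
      omega
    have h4 := Finset.card_le_card h3
    rw [Nat.card_Ico] at h4
    omega

private lemma Bc_B {x ε : ℝ} (hx : 1 ≤ x) (H : ℕ)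
    (hBa : ∀ s : Finset ℤ, 0 ∉ s →
      |∑ n ∈ Finset.range (⌊x⌋₊ + 1), La x (n : ℤ) * ∏ h ∈ s, Mm (yy x) ((n : ℤ) - h)
        - ((⌊x⌋₊ : ℝ) + 1) * sW x (insert 0 s)| ≤
        ε * ((⌊x⌋₊ : ℝ) + 1) * sW x (insert 0 s))
    (e : ℤ) (he : e ≠ 0) (h1 : -(H : ℤ) ≤ e) (h2 : e ≤ (H : ℤ)) :
    |Bc_C (⌊x⌋₊ + 1) (La x) (Mi x) e - ((⌊x⌋₊ : ℝ) + 1) * sW x {0, e}| ≤
      ε * ((⌊x⌋₊ : ℝ) + 1) * sW x {0, e} + H * (Real.log x * wp (yy x)) := by
  have a1 := hBa {e} (by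
    rw [Finset.mem_singleton]
    exact he.symm)
  simp only [Finset.prod_singleton] at a1
  have hL : 0 ≤ Real.log x := Real.log_nonneg hx
  have hφ : 0 < wp (yy x) := wp_pos _
  have a2 : |∑ n ∈ Finset.range (⌊x⌋₊ + 1), La x (n : ℤ) * Mm (yy x) ((n : ℤ) - e) -
      Bc_C (⌊x⌋₊ + 1) (La x) (Mi x) e| ≤ H * (Real.log x * wp (yy x)) := by
    unfold Bc_C
    rw [← Finset.sum_sub_distrib]
    have b1 : ∀ n ∈ Finset.range (⌊x⌋₊ + 1),
        0 ≤ La x (n : ℤ) * Mm (yy x) ((n : ℤ) - e) - La x (n : ℤ) * Mi x ((n : ℤ) - e) := by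
      intro n _
      have c1 := Mi_le x ((n : ℤ) - e)
      have c2 := La_nonneg hx (n : ℤ)
      nlinarith
    rw [abs_of_nonneg (Finset.sum_nonneg b1)]
    have b2 : ∀ n ∈ Finset.range (⌊x⌋₊ + 1),
        La x (n : ℤ) * Mm (yy x) ((n : ℤ) - e) - La x (n : ℤ) * Mi x ((n : ℤ) - e) ≠ 0 →
        ¬ (0 ≤ (n : ℤ) - e ∧ (n : ℤ) - e < ((⌊x⌋₊ + 1 : ℕ) : ℤ)) := by
      intro n _ hn hg
      apply hn
      rw [Mi_of_mem hg.1 hg.2, sub_self]
    rw [← Finset.sum_filter_of_ne b2]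
    refine (Finset.sum_le_card_nsmul _ _ (Real.log x * wp (yy x)) ?_).trans ?_
    · intro n _
      have c1 := La_le hx (n : ℤ)
      have c2 := La_nonneg hx (n : ℤ)
      have c3 := Mm_le (yy x) ((n : ℤ) - e)
      have c4 := Mm_nonneg (yy x) ((n : ℤ) - e)
      have c5 := Mi_nonneg x ((n : ℤ) - e)
      have c6 : 0 ≤ La x (n : ℤ) * Mi x ((n : ℤ) - e) := mul_nonneg c2 c5
      have c7 : La x (n : ℤ) * Mm (yy x) ((n : ℤ) - e) ≤ Real.log x * wp (yy x) :=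
        mul_le_mul c1 c3 c4 hL
      linarith
    · rw [nsmul_eq_mul]
      refine mul_le_mul_of_nonneg_right ?_ (by positivity)
      exact_mod_cast Bc_bad (⌊x⌋₊ + 1) H e h1 h2
  rw [abs_le] at a1 a2 ⊢
  constructor
  · linarith [a1.1, a2.2]
  · linarith [a1.2, a2.1]

private lemma Bc_wp (y : ℕ) : wp y ≤ (WW y : ℝ) := by
  unfold wp
  have h1 : (1 : ℝ) ≤ ((WW y).totient : ℝ) := by
    exact_mod_cast Nat.totient_pos.mpr (WW_pos y)
  exact div_le_self (WW_pos_real y).le h1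

theorem Bc (ε : ℝ) (hε : 0 < ε) : ∃ δ K X : ℝ, 0 < δ ∧ ∀ x : ℝ, X ≤ x → ∀ H : ℕ, K * Real.log x ≤ (H : ℝ) →
    (H : ℝ) ≤ (Real.log x) ^ 2 → (∀ D : Finset ℤ, D ⊆ Finset.Icc 1 (H : ℤ) → PL x H δ D) →
    ∀ D : Finset ℤ, D ⊆ Finset.Icc 1 (H : ℤ) → SW x H ε D := by
  obtain ⟨X1, hBa⟩ := Ba (ε / 32) (by positivity)
  obtain ⟨X2, hMo⟩ := Mo1
  have e1 := (Real.isLittleO_pow_log_id_atTop (n := 4)).def (show (0 : ℝ) < ε / 32 by positivity)
  obtain ⟨X3, hX3⟩ := Filter.eventually_atTop.mp e1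
  refine ⟨ε / 8, 12 / ε + 1, max X1 (max X2 (max X3 (Real.exp 1))), by positivity, ?_⟩
  intro x hx H hH1 hH2 hPL D hD
  have hx1 : X1 ≤ x := (le_max_left _ _).trans hx
  have hx2 : X2 ≤ x := (le_max_left _ _).trans ((le_max_right _ _).trans hx)
  have hx3 : X3 ≤ x :=
    (le_max_left _ _).trans ((le_max_right _ _).trans ((le_max_right _ _).trans hx))
  have hxe : Real.exp 1 ≤ x :=
    (le_max_right _ _).trans ((le_max_right _ _).trans ((le_max_right _ _).trans hx))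
  have hx0 : 0 < x := lt_of_lt_of_le (Real.exp_pos 1) hxe
  have hxx : 1 ≤ x := by
    have h1 : (1 : ℝ) ≤ Real.exp 1 := Real.one_le_exp (by norm_num)
    linarith
  obtain ⟨L, hLd⟩ : ∃ L : ℝ, L = Real.log x := ⟨_, rfl⟩
  have hL : 1 ≤ L := by
    have h1 := Real.log_le_log (Real.exp_pos 1) hxe
    rw [Real.log_exp] at h1
    rw [hLd]
    exact h1
  have hlog : 32 * L ^ 4 ≤ ε * x := by
    have h1 := hX3 x hx3
    rw [Real.norm_of_nonneg (by positivity), id, Real.norm_of_nonneg hx0.le] at h1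
    rw [hLd]
    linarith
  obtain ⟨φ, hφd⟩ : ∃ φ : ℝ, φ = wp (yy x) := ⟨_, rfl⟩
  obtain ⟨W, hWd⟩ : ∃ W : ℝ, W = (WW (yy x) : ℝ) := ⟨_, rfl⟩
  have hφ0 : 0 < φ := by rw [hφd]; exact wp_pos _
  have hW1 : 1 ≤ W := by
    rw [hWd]
    exact_mod_cast WW_pos (yy x)
  have hφW : φ ≤ W := by rw [hφd, hWd]; exact Bc_wp _
  have hW2 : W ^ 2 ≤ L := by
    have h1 : W ^ 34 ≤ Real.sqrt L := by
      rw [hWd, hLd]
      exact WW_yy_pow_le (by rw [← hLd]; exact hL)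
    have h2 : W ^ 2 ≤ W ^ 34 := pow_le_pow_right₀ hW1 (by norm_num)
    have h3 : Real.sqrt L ≤ L := by
      rw [Real.sqrt_le_left (by linarith)]
      nlinarith
    linarith
  have hWL : W ≤ L := by nlinarith
  have hφL : φ ≤ L := hφW.trans hWL
  have hφ2 : φ ^ 2 ≤ L := by nlinarith
  rw [← hLd] at hH1 hH2
  have hH0 : 0 ≤ (H : ℝ) := Nat.cast_nonneg _
  have hLH : L ≤ (H : ℝ) := by
    have h1 : 0 ≤ 12 / ε * L := by positivity
    have h2 : (12 / ε + 1) * L = 12 / ε * L + L := by ring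
    linarith
  have hLH2 : 12 * L ≤ ε * H := by
    have h2 : (12 / ε + 1) * L = 12 / ε * L + L := by ring
    have h1 : 12 / ε * L ≤ H := by linarith
    have h3 := mul_le_mul_of_nonneg_left h1 hε.le
    have h4 : ε * (12 / ε * L) = 12 * L := by
      field_simp
    linarith
  have hHL : (H : ℝ) ≤ L ^ 2 := hH2
  obtain ⟨N, hNd⟩ : ∃ N : ℝ, N = (⌊x⌋₊ : ℝ) + 1 := ⟨_, rfl⟩
  have hNx : x ≤ N := by
    rw [hNd]
    exact (Nat.lt_floor_add_one x).le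
  have hN0 : 0 < N := by linarith
  -- the functions
  have hLaS : ∀ m : ℤ, m < 0 ∨ ((⌊x⌋₊ + 1 : ℕ) : ℤ) ≤ m → La x m = 0 :=
    fun m hm => La_out hx0.le hm
  have hMiS : ∀ m : ℤ, m < 0 ∨ ((⌊x⌋₊ + 1 : ℕ) : ℤ) ≤ m → Mi x m = 0 := by
    intro m hm
    unfold Mi
    rw [if_neg (by omega)]
  have hfS : ∀ m : ℤ, m < 0 ∨ ((⌊x⌋₊ + 1 : ℕ) : ℤ) ≤ m → fB x m = 0 :=
    fun m hm => fB_out hx0.le hm
  obtain ⟨u, hu⟩ : ∃ u : ℤ → ℝ, u = fun e => Bc_C (⌊x⌋₊ + 1) (La x) (La x) e - N * sW x {0, e} :=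
    ⟨_, rfl⟩
  obtain ⟨v, hv⟩ : ∃ v : ℤ → ℝ, v = fun e => max (u e) 0 +
      2 * (ε / 32 * N * sW x {0, e} + H * (L * φ)) + (W + H) * φ ^ 2 := ⟨_, rfl⟩
  have hs0 : ∀ e, 0 ≤ sW x {0, e} := fun e => sW_nonneg x _
  have hv0 : ∀ e, 0 ≤ v e := by
    intro e
    rw [hv]
    have h1 := hs0 e
    have h2 : 0 ≤ max (u e) 0 := le_max_right _ _
    have h3 : 0 ≤ ε / 32 * N * sW x {0, e} := by positivity
    have h4 : 0 ≤ (H : ℝ) * (L * φ) := by positivity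
    have h5 : 0 ≤ (W + H) * φ ^ 2 := by positivity
    show 0 ≤ max (u e) 0 + 2 * (ε / 32 * N * sW x {0, e} + H * (L * φ)) + (W + H) * φ ^ 2
    linarith
  have hBa' := hBa x hx1
  have hC : ∀ e : ℤ, 1 ≤ e → e ≤ (H : ℤ) → Bc_C (⌊x⌋₊ + 1) (fB x) (fB x) e ≤ v e := by
    intro e he1 he2
    have h1 : Bc_C (⌊x⌋₊ + 1) (fB x) (fB x) e =
        Bc_C (⌊x⌋₊ + 1) (La x) (La x) e - Bc_C (⌊x⌋₊ + 1) (La x) (Mi x) e -
          Bc_C (⌊x⌋₊ + 1) (Mi x) (La x) e + Bc_C (⌊x⌋₊ + 1) (Mi x) (Mi x) e := by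
      unfold Bc_C fB
      rw [← Finset.sum_sub_distrib, ← Finset.sum_sub_distrib, ← Finset.sum_add_distrib]
      refine Finset.sum_congr rfl fun m _ => ?_
      ring
    have h2 := Bc_B hxx H hBa' e (by omega) (by omega) he2
    have h3 := Bc_B hxx H hBa' (-e) (by omega) (by omega) (by omega)
    rw [sW_neg x e] at h3
    have h4 := Bc_sym (⌊x⌋₊ + 1) (Mi x) (La x) hMiS hLaS e
    have h5 := Mi_corr x H he1 he2
    have h6 : |Bc_C (⌊x⌋₊ + 1) (Mi x) (Mi x) e - N * sW x {0, e}| ≤ (W + H) * φ ^ 2 := by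
      rw [hNd, hWd, hφd]
      exact h5
    rw [← h4] at h3
    rw [← hNd, ← hLd, ← hφd] at h2 h3
    rw [abs_le] at h2 h3 h6
    have h7 : u e ≤ max (u e) 0 := le_max_left _ _
    have h8 : u e = Bc_C (⌊x⌋₊ + 1) (La x) (La x) e - N * sW x {0, e} := by rw [hu]
    rw [hv, h1]
    show _ ≤ max (u e) 0 + 2 * (ε / 32 * N * sW x {0, e} + H * (L * φ)) + (W + H) * φ ^ 2
    linarith [h2.1, h3.1, h6.2]
  have hCn : ∀ e : ℤ, Bc_C (⌊x⌋₊ + 1) (fB x) (fB x) (-e) = Bc_C (⌊x⌋₊ + 1) (fB x) (fB x) e :=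
    fun e => (Bc_sym (⌊x⌋₊ + 1) (fB x) (fB x) hfS hfS e).symm
  have hC0 : 0 ≤ Bc_C (⌊x⌋₊ + 1) (fB x) (fB x) 0 := by
    unfold Bc_C
    refine Finset.sum_nonneg fun m _ => ?_
    rw [sub_zero]
    exact mul_self_nonneg _
  have hC0u : Bc_C (⌊x⌋₊ + 1) (fB x) (fB x) 0 ≤ 3 * L * N := by
    have h1 : Bc_C (⌊x⌋₊ + 1) (fB x) (fB x) 0 ≤
        ∑ m ∈ Finset.range (⌊x⌋₊ + 1), (L * La x (m : ℤ) + L) := by
      unfold Bc_C fB
      refine Finset.sum_le_sum fun m _ => ?_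
      rw [sub_zero]
      have c1 := La_le hxx (m : ℤ)
      have c2 := La_nonneg hxx (m : ℤ)
      have c3 : Mi x (m : ℤ) ≤ φ := (Mi_le x _).trans (by rw [hφd]; exact Mm_le _ _)
      have c4 := Mi_nonneg x (m : ℤ)
      rw [← hLd] at c1
      have c5 : Mi x (m : ℤ) * Mi x (m : ℤ) ≤ L := by nlinarith
      have c6 : 0 ≤ La x (m : ℤ) * Mi x (m : ℤ) := mul_nonneg c2 c4
      have c7 : La x (m : ℤ) * La x (m : ℤ) ≤ L * La x (m : ℤ) :=
        mul_le_mul_of_nonneg_right c1 c2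
      have c8 : (La x (m : ℤ) - Mi x (m : ℤ)) * (La x (m : ℤ) - Mi x (m : ℤ)) =
          La x (m : ℤ) * La x (m : ℤ) - 2 * (La x (m : ℤ) * Mi x (m : ℤ)) +
            Mi x (m : ℤ) * Mi x (m : ℤ) := by ring
      rw [c8]
      linarith
    rw [Finset.sum_add_distrib, ← Finset.mul_sum, Finset.sum_const, Finset.card_range,
      nsmul_eq_mul] at h1
    have h2 := hMo x hx2
    push_cast at h1
    rw [← hNd] at h1 h2
    have h3 := mul_le_mul_of_nonneg_left h2 (show 0 ≤ L by linarith)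
    linarith
  -- the sum of v
  have hV : ∑ e ∈ Finset.Icc 1 (H : ℤ), v e ≤
      ε / 8 * N * H + 2 * (ε / 32 * N * (2 * H)) + H * (2 * (H * (L * φ)) + (W + H) * φ ^ 2) := by
    have h1 : ∑ e ∈ Finset.Icc 1 (H : ℤ), v e = ∑ e ∈ Finset.Icc 1 (H : ℤ), max (u e) 0 +
        2 * (ε / 32 * N) * ∑ e ∈ Finset.Icc 1 (H : ℤ), sW x {0, e} +
          H * (2 * (H * (L * φ)) + (W + H) * φ ^ 2) := by
      have h2 : ∀ e ∈ Finset.Icc 1 (H : ℤ), v e = max (u e) 0 +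
          2 * (ε / 32 * N) * sW x {0, e} + (2 * (H * (L * φ)) + (W + H) * φ ^ 2) := by
        intro e _
        rw [hv]
        ring
      rw [Finset.sum_congr rfl h2, Finset.sum_add_distrib, Finset.sum_add_distrib,
        ← Finset.mul_sum, Finset.sum_const, Int.card_Icc, nsmul_eq_mul]
      congr 2
      rw [show ((H : ℤ) + 1 - 1).toNat = H by omega]
    have h2 : ∑ e ∈ Finset.Icc 1 (H : ℤ), max (u e) 0 ≤ ε / 8 * N * H := by
      have h3 : ∑ e ∈ Finset.Icc 1 (H : ℤ), max (u e) 0 =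
          ∑ e ∈ (Finset.Icc 1 (H : ℤ)).filter (fun e => 0 < u e), u e := by
        rw [Finset.sum_filter]
        refine Finset.sum_congr rfl fun e _ => ?_
        by_cases h : 0 < u e
        · rw [if_pos h, max_eq_left h.le]
        · rw [if_neg h, max_eq_right (not_lt.1 h)]
      have h4 := hPL ((Finset.Icc 1 (H : ℤ)).filter (fun e => 0 < u e)) (Finset.filter_subset _ _)
      unfold PL at h4
      have h5 : ∑ n ∈ Finset.range (⌊x⌋₊ + 1), La x (n : ℤ) *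
          nf ((Finset.Icc 1 (H : ℤ)).filter (fun e => 0 < u e)) (La x) (n : ℤ) =
          ∑ e ∈ (Finset.Icc 1 (H : ℤ)).filter (fun e => 0 < u e),
            Bc_C (⌊x⌋₊ + 1) (La x) (La x) e := by
        unfold Bc_C nf
        rw [Finset.sum_comm]
        refine Finset.sum_congr rfl fun n _ => ?_
        rw [Finset.mul_sum]
      have h6 : ∑ e ∈ (Finset.Icc 1 (H : ℤ)).filter (fun e => 0 < u e), u e =
          ∑ n ∈ Finset.range (⌊x⌋₊ + 1), La x (n : ℤ) *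
            nf ((Finset.Icc 1 (H : ℤ)).filter (fun e => 0 < u e)) (La x) (n : ℤ) -
          ((⌊x⌋₊ : ℝ) + 1) * ∑ d ∈ (Finset.Icc 1 (H : ℤ)).filter (fun e => 0 < u e),
            sW x {0, d} := by
        rw [h5, Finset.mul_sum, ← Finset.sum_sub_distrib]
        refine Finset.sum_congr rfl fun e _ => ?_
        rw [hu, hNd]
      rw [h3, h6]
      refine (le_abs_self _).trans (h4.trans (le_of_eq ?_))
      rw [hNd]
    have h3 : ∑ e ∈ Finset.Icc 1 (H : ℤ), sW x {0, e} ≤ 2 * H := by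
      have h4 := sW_sum1 x 0 (H : ℤ) (by positivity) le_rfl
      have h5 : Finset.Ioc (0 : ℤ) (H : ℤ) = Finset.Icc 1 (H : ℤ) := by
        ext a
        rw [Finset.mem_Ioc, Finset.mem_Icc]
        omega
      rw [h5, ← hWd] at h4
      push_cast at h4
      linarith
    rw [h1]
    have h4 : 0 ≤ 2 * (ε / 32 * N) := by positivity
    have h5 := mul_le_mul_of_nonneg_left h3 h4
    linarith
  -- conclusion
  have hmain := Bc_dbl H (Bc_C (⌊x⌋₊ + 1) (fB x) (fB x)) v hv0 hC hCn hC0 D hD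
  unfold SW rgH
  rw [Bc_exp (⌊x⌋₊ + 1) H (fB x) hfS D hD, ← hNd]
  refine hmain.trans ?_
  have g1 : (H : ℝ) * (L * φ) * 4 + 2 * ((W + H) * φ ^ 2) ≤ 8 * L ^ 4 := by
    have k1 : (H : ℝ) * (L * φ) ≤ L ^ 2 * (L * L) := by
      refine mul_le_mul hHL ?_ (by positivity) (by positivity)
      exact mul_le_mul_of_nonneg_left hφL (by linarith)
    have k2 : (W + H) * φ ^ 2 ≤ (L + L ^ 2) * L := by
      refine mul_le_mul (by linarith) hφ2 (by positivity) (by positivity)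
    have k3 : L ^ 2 ≤ L ^ 4 := pow_le_pow_right₀ hL (by norm_num)
    have k4 : L ^ 3 ≤ L ^ 4 := pow_le_pow_right₀ hL (by norm_num)
    have k5 : L ^ 2 * (L * L) = L ^ 4 := by ring
    have k6 : (L + L ^ 2) * L = L ^ 2 + L ^ 3 := by ring
    rw [k5] at k1
    rw [k6] at k2
    linarith
  have g2 : 8 * L ^ 4 ≤ ε / 4 * N := by
    have k1 := mul_le_mul_of_nonneg_left hNx hε.le
    linarith
  have g3 : (H : ℝ) ^ 2 * ((H : ℝ) * (L * φ) * 4 + 2 * ((W + H) * φ ^ 2)) ≤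
      (H : ℝ) ^ 2 * (ε / 4 * N) :=
    mul_le_mul_of_nonneg_left (g1.trans g2) (by positivity)
  have g4 : (H : ℝ) * (3 * L * N) ≤ ε / 4 * N * (H : ℝ) ^ 2 := by
    have k1 := mul_le_mul_of_nonneg_left hLH2 (show 0 ≤ (H : ℝ) * N by positivity)
    have k2 : (H : ℝ) * N * (12 * L) = 4 * ((H : ℝ) * (3 * L * N)) := by ring
    have k3 : (H : ℝ) * N * (ε * H) = 4 * (ε / 4 * N * (H : ℝ) ^ 2) := by ring
    linarith
  have g5 : (H : ℝ) * (Bc_C (⌊x⌋₊ + 1) (fB x) (fB x) 0 + 2 * ∑ e ∈ Finset.Icc 1 (H : ℤ), v e) ≤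
      (H : ℝ) * (3 * L * N + 2 * (ε / 8 * N * H + 2 * (ε / 32 * N * (2 * H)) +
        H * (2 * (H * (L * φ)) + (W + H) * φ ^ 2))) :=
    mul_le_mul_of_nonneg_left (by linarith) hH0
  refine g5.trans ?_
  have g6 : (H : ℝ) * (3 * L * N + 2 * (ε / 8 * N * H + 2 * (ε / 32 * N * (2 * H)) +
        H * (2 * (H * (L * φ)) + (W + H) * φ ^ 2))) =
      (H : ℝ) * (3 * L * N) + ε / 4 * N * (H : ℝ) ^ 2 + ε / 4 * N * (H : ℝ) ^ 2 +
        (H : ℝ) ^ 2 * ((H : ℝ) * (L * φ) * 4 + 2 * ((W + H) * φ ^ 2)) := by ring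
  rw [g6]
  linarith

end Pool.Agent.H12.DM
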