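import Pool.Agent.H12.DM.Df

/-!
# B: equivalence of mean values of pairs and triples (MP_1039f5_nt). Definitions.

Notation used in all headers: `L = log x`, `N = ⌊x⌋₊ + 1`, `w = yy x`, `W = WW w`, `M = Mm w`, `φ = wp w = W / φ(W)`, `La = La x`,
`Mi = Mi x` (`M` cut off to `[0, N)`), `fB = fB x = La - Mi`, `I = Icc 1 H`; `W^68 ≤ L` (`WW_yy_pow_le`), `1 ≤ φ ≤ W`.
-/

set_option autoImplicit false

namespace Pool.Agent.H12.DM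

open Finset Pool.Agent.H17 Pool.Agent.H6.MF Pool.Agent.H6.MB

/-- `Mm (yy x)` cut off to `[0, ⌊x⌋₊ + 1)` -/
noncomputable def Mi (x : ℝ) (n : ℤ) : ℝ := if 0 ≤ n ∧ n < ((⌊x⌋₊ + 1 : ℕ) : ℤ) then Mm (yy x) n else 0

/-- primes minus model -/
noncomputable def fB (x : ℝ) (n : ℤ) : ℝ := La x n - Mi x n

/-- the part of the singular series belonging to the primes `≤ yy x` -/
noncomputable def sW (x : ℝ) (s : Finset ℤ) : ℝ := avgP (WW (yy x)) (fun m => ∏ h ∈ s, Mm (yy x) (m - h))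

/-- small windows in `L²` for the set `D` -/
def SW (x : ℝ) (H : ℕ) (δ : ℝ) (D : Finset ℤ) : Prop :=
  ∑ n ∈ rgH x H, (nf D (fB x) (n : ℤ)) ^ 2 ≤ δ * ((⌊x⌋₊ : ℝ) + 1) * (H : ℝ) ^ 2

/-- small windows in `L²` with respect to the primes, for the set `D` -/
def SP (x : ℝ) (H : ℕ) (δ : ℝ) (D : Finset ℤ) : Prop :=
  ∑ n ∈ rgH x H, La x (n : ℤ) * (nf D (fB x) (n : ℤ)) ^ 2 ≤ δ * ((⌊x⌋₊ : ℝ) + 1) * (H : ℝ) ^ 2

/-- small windows in `L¹` for the set `D` -/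
def FL (x : ℝ) (H : ℕ) (δ : ℝ) (D : Finset ℤ) : Prop :=
  ∑ n ∈ rgH x H, |nf D (fB x) (n : ℤ)| ≤ δ * ((⌊x⌋₊ : ℝ) + 1) * (H : ℝ)

/-- the pairs with difference in `D` -/
def PL (x : ℝ) (H : ℕ) (δ : ℝ) (D : Finset ℤ) : Prop :=
  |∑ n ∈ Finset.range (⌊x⌋₊ + 1), La x (n : ℤ) * nf D (La x) (n : ℤ)
      - ((⌊x⌋₊ : ℝ) + 1) * ∑ d ∈ D, sW x {0, d}| ≤ δ * ((⌊x⌋₊ : ℝ) + 1) * (H : ℝ)

/-- the triples with differences in `D'` and `D` -/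
def TL (x : ℝ) (H : ℕ) (δ : ℝ) (D' D : Finset ℤ) : Prop :=
  |∑ n ∈ Finset.range (⌊x⌋₊ + 1), La x (n : ℤ) * nf D' (La x) (n : ℤ) * nf D (La x) (n : ℤ)
      - ((⌊x⌋₊ : ℝ) + 1) * ∑ d' ∈ D', ∑ d ∈ D.erase d', sW x {0, d', d}| ≤ δ * ((⌊x⌋₊ : ℝ) + 1) * (H : ℝ) ^ 2

/-! ### basic facts -/

lemma Mi_nonneg (x : ℝ) (n : ℤ) : 0 ≤ Mi x n := by
  unfold Mi
  split_ifs
  · exact Mm_nonneg _ _
  · exact le_rfl

lemma Mi_le (x : ℝ) (n : ℤ) : Mi x n ≤ Mm (yy x) n := by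
  unfold Mi
  split_ifs
  · exact le_rfl
  · exact Mm_nonneg _ _

lemma Mi_of_mem {x : ℝ} {n : ℤ} (h0 : 0 ≤ n) (h1 : n < ((⌊x⌋₊ + 1 : ℕ) : ℤ)) : Mi x n = Mm (yy x) n := by
  unfold Mi
  rw [if_pos ⟨h0, h1⟩]

lemma sW_nonneg (x : ℝ) (s : Finset ℤ) : 0 ≤ sW x s := by
  unfold sW avgP
  refine div_nonneg (Finset.sum_nonneg fun m _ => Finset.prod_nonneg fun h _ => Mm_nonneg _ _) ?_
  positivity

lemma La_out {x : ℝ} (hx : 0 ≤ x) {n : ℤ} (h : n < 0 ∨ ((⌊x⌋₊ + 1 : ℕ) : ℤ) ≤ n) : La x n = 0 := by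
  unfold La
  rw [if_neg]
  rintro ⟨h1, h2, h3⟩
  rcases h with h | h
  · have : (n : ℝ) < 0 := by exact_mod_cast h
    have h4 : (0 : ℝ) ≤ x ^ (1 / 4 : ℝ) := Real.rpow_nonneg hx _
    linarith
  · have h4 : (((⌊x⌋₊ + 1 : ℕ) : ℤ) : ℝ) ≤ (n : ℝ) := by exact_mod_cast h
    have h5 := Nat.lt_floor_add_one x
    push_cast at h4
    linarith

lemma fB_out {x : ℝ} (hx : 0 ≤ x) {n : ℤ} (h : n < 0 ∨ ((⌊x⌋₊ + 1 : ℕ) : ℤ) ≤ n) : fB x n = 0 := by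
  unfold fB Mi
  rw [La_out hx h, if_neg (by omega), sub_zero]

end Pool.Agent.H12.DM
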