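import Pool.Agent.H12.DM.Df
import Pool.Agent.H6.MB.FOU

/-!
# Mo: moments of the number of primes in windows

`L = log x`, `N = ⌊x⌋₊ + 1`, `W = WW (yy x)`, `φ = wp (yy x) = wphi x`.

* `Mo4`. Substitute `n = m + H`: for `n = m + H`, `nf (Icc 1 H) (La x) n = ∑_{a<H} La x (m + a)` (`a = H - d`). The `n < H` contribute `0`: `n - d < H ≤ 2 L^2 < x^(1/4)`
  for large `x`, so `La x (n-d) = 0`. The other `n ∈ rgH x H` are `n = m + H` with `m < N`. So the sum is `∑_{m<N} (∑_{a<H} La x (m+a))^4`.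
  For `m` in the class `t` mod `W`: `La x (m+a) ≠ 0` implies that `m + a` is a prime `> x^(1/4) > yy x`, so coprime to `W`, i.e. `a ∈ A_t = {a < H : (t+a).Coprime W}`. So
  `∑_{a<H} La x (m+a) ≤ L * NN A_t m`. `FOU` (with `SA x t A_t`, `a < H ≤ 3 L^2`): the sum over `cls x t` is `≤ C L^4 (N/W) (mA^4 + mA)`, `mA = |A_t| φ/L`, and
  `|A_t| φ ≤ H + W ≤ 2H` (an interval of length `H` contains at most `(H/W + 1) φ(W)` numbers coprime to `W`; `W ≤ L ≤ H`; `FOU_W`). So `L^4 mA^4 ≤ 16 H^4` and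
  `L^4 mA ≤ 2 L^3 H ≤ 2 H^4`. Sum over the `W` classes.
-/

set_option autoImplicit false

namespace Pool.Agent.H12.DM

open Finset Pool.Agent.H17 Pool.Agent.H6.MF Pool.Agent.H6.MB

/-- the admissible shifts for the class `t` -/
noncomputable def MoA (x : ℝ) (H t : ℕ) : Finset ℕ :=
  (Finset.range H).filter (fun a => (t + a).Coprime (WW (yy x)))

theorem Mo_card (x : ℝ) (H t : ℕ) :
    ((MoA x H t).card : ℝ) * wphi x ≤ (H : ℝ) + (WW (yy x) : ℝ) := by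
  have hW := WW_pos (yy x)
  have h1 : (MoA x H t).card ≤ ((Finset.Ico t (t + H)).filter (Nat.Coprime (WW (yy x)))).card := by
    refine Finset.card_le_card_of_injOn (fun a => t + a) ?_ ?_
    · intro a ha
      unfold MoA at ha
      rw [Finset.mem_coe, Finset.mem_filter, Finset.mem_range] at ha
      rw [Finset.mem_coe, Finset.mem_filter, Finset.mem_Ico]
      exact ⟨⟨by change t ≤ t + a; omega, by change t + a < t + H; omega⟩, ha.2.symm⟩
    · intro a _ b _ hab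
      have : t + a = t + b := hab
      omega
  have h2 := Nat.Ico_filter_coprime_le t H hW.ne'
  have h3 : ((MoA x H t).card : ℝ) ≤ ((WW (yy x)).totient : ℝ) * ((H / WW (yy x) + 1 : ℕ) : ℝ) := by
    exact_mod_cast h1.trans h2
  have hφ := tot_pos_real (yy x)
  have hWr := WW_pos_real (yy x)
  have h4 : ((H / WW (yy x) : ℕ) : ℝ) ≤ (H : ℝ) / (WW (yy x) : ℝ) := Nat.cast_div_le
  unfold wphi
  rw [mul_div_assoc', div_le_iff₀ hφ]
  push_cast at h3
  have h5 : ((WW (yy x)).totient : ℝ) * (((H / WW (yy x) : ℕ) : ℝ) + 1) ≤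
      ((WW (yy x)).totient : ℝ) * ((H : ℝ) / (WW (yy x) : ℝ) + 1) :=
    mul_le_mul_of_nonneg_left (by linarith) hφ.le
  have h6 : ((MoA x H t).card : ℝ) * (WW (yy x) : ℝ) ≤
      ((WW (yy x)).totient : ℝ) * ((H : ℝ) / (WW (yy x) : ℝ) + 1) * (WW (yy x) : ℝ) :=
    mul_le_mul_of_nonneg_right (h3.trans h5) hWr.le
  have h7 : ((WW (yy x)).totient : ℝ) * ((H : ℝ) / (WW (yy x) : ℝ) + 1) * (WW (yy x) : ℝ) =
      ((H : ℝ) + (WW (yy x) : ℝ)) * ((WW (yy x)).totient : ℝ) := by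
    field_simp
  linarith

/-- a term of the window sum -/
theorem Mo_term {x : ℝ} (hx : 1 ≤ x) (hy : (yy x : ℝ) ≤ x ^ (1 / 4 : ℝ)) {t H m : ℕ}
    (hm : m % WW (yy x) = t) :
    nf (Finset.Icc 1 (H : ℤ)) (La x) (((H + m : ℕ) : ℤ)) ≤ Real.log x * (NN (MoA x H t) m : ℝ) := by
  have hL : 0 ≤ Real.log x := Real.log_nonneg hx
  unfold nf
  set D : Finset ℤ := (Finset.Icc 1 (H : ℤ)).filter (fun d => isP (((H + m : ℕ) : ℤ) - d) ∧
    x ^ (1 / 4 : ℝ) < (((((H + m : ℕ) : ℤ) - d : ℤ)) : ℝ) ∧ (((((H + m : ℕ) : ℤ) - d : ℤ)) : ℝ) ≤ x) with hD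
  have h1 : ∑ d ∈ Finset.Icc 1 (H : ℤ), La x (((H + m : ℕ) : ℤ) - d) = Real.log x * (D.card : ℝ) := by
    unfold La
    rw [← Finset.sum_filter, ← hD, Finset.sum_const, nsmul_eq_mul, mul_comm]
  rw [h1]
  refine mul_le_mul_of_nonneg_left ?_ hL
  have h2 : D.card ≤ NN (MoA x H t) m := by
    unfold NN
    refine Finset.card_le_card_of_injOn (fun d : ℤ => ((H : ℤ) - d).toNat) ?_ ?_
    · intro d hd
      rw [Finset.mem_coe, hD, Finset.mem_filter, Finset.mem_Icc] at hd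
      obtain ⟨⟨hd1, hd2⟩, hp, hlow, -⟩ := hd
      have ha : ((((H : ℤ) - d).toNat : ℕ) : ℤ) = (H : ℤ) - d := Int.toNat_of_nonneg (by omega)
      set a : ℕ := ((H : ℤ) - d).toNat with hadef
      have hma : (((H + m : ℕ) : ℤ) - d) = ((m + a : ℕ) : ℤ) := by
        push_cast
        omega
      rw [hma] at hp hlow
      have hpr : (m + a).Prime := by
        unfold isP at hp
        rwa [Int.toNat_natCast] at hp
      have hlow' : x ^ (1 / 4 : ℝ) < ((m + a : ℕ) : ℝ) := by exact_mod_cast hlow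
      have hcop : (m + a).Coprime (WW (yy x)) := by
        rw [coprime_WW]
        intro q hq hdvd
        have h3 := mem_PP.mp hq
        have h4 : q = m + a := (Nat.prime_dvd_prime_iff_eq h3.2 hpr).1 hdvd
        have h5 : ((m + a : ℕ) : ℝ) ≤ (yy x : ℝ) := by
          rw [← h4]
          exact_mod_cast h3.1
        linarith
      rw [Finset.mem_coe, Finset.mem_filter]
      refine ⟨?_, hpr⟩
      unfold MoA
      rw [Finset.mem_filter, Finset.mem_range]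
      refine ⟨by change a < H; omega, ?_⟩
      change (t + a).Coprime (WW (yy x))
      have h6 : (m + a) % WW (yy x) = (t + a) % WW (yy x) := by
        rw [← hm, Nat.mod_add_mod]
      rw [Nat.Coprime, Nat.gcd_comm, Nat.gcd_rec, ← h6, ← Nat.gcd_rec, Nat.gcd_comm]
      exact hcop
    · intro d hd d' hd' hdd
      rw [Finset.mem_coe, hD, Finset.mem_filter, Finset.mem_Icc] at hd hd'
      have h3 : ((H : ℤ) - d).toNat = ((H : ℤ) - d').toNat := hdd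
      omega
  exact_mod_cast h2

theorem Mo_event : ∀ᶠ x : ℝ in Filter.atTop,
    1 ≤ x ∧ 1 ≤ Real.log x ∧ 2 * (Real.log x) ^ 2 ≤ x ^ (1 / 4 : ℝ) ∧ (yy x : ℝ) ≤ x ^ (1 / 4 : ℝ) := by
  have h1 : ∀ᶠ x : ℝ in Filter.atTop, 1 ≤ x := Filter.eventually_ge_atTop 1
  have h2 : ∀ᶠ x : ℝ in Filter.atTop, 1 ≤ Real.log x :=
    Real.tendsto_log_atTop.eventually_ge_atTop 1
  have h5 := (isLittleO_log_rpow_rpow_atTop (2 : ℝ) (s := 1 / 4) (by norm_num)).bound
    (by norm_num : (0 : ℝ) < 1 / 2)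
  filter_upwards [h1, h2, h5] with x g1 g2 g5
  have g7 : 2 * (Real.log x) ^ 2 ≤ x ^ (1 / 4 : ℝ) := by
    rw [Real.norm_of_nonneg (by positivity), Real.norm_of_nonneg (by positivity)] at g5
    have g6 : Real.log x ^ (2 : ℝ) = Real.log x ^ 2 := by
      rw [← Real.rpow_natCast]
      norm_num
    rw [g6] at g5
    linarith
  refine ⟨g1, g2, g7, ?_⟩
  have h3 : (yy x : ℝ) ≤ Real.log (Real.log x) / 100 := Nat.floor_le (by
    have := Real.log_nonneg g2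
    positivity)
  have h4 : Real.log (Real.log x) ≤ Real.log x :=
    (Real.log_le_sub_one_of_pos (by linarith)).trans (by linarith)
  nlinarith

theorem Mo4 : ∃ C X : ℝ, 0 < C ∧ ∀ x : ℝ, X ≤ x → ∀ H : ℕ, Real.log x ≤ (H : ℝ) →
    (H : ℝ) ≤ 2 * (Real.log x) ^ 2 →
    ∑ n ∈ rgH x H, (nf (Finset.Icc 1 (H : ℤ)) (La x) (n : ℤ)) ^ 4 ≤ C * ((⌊x⌋₊ : ℝ) + 1) * (H : ℝ) ^ 4 := by
  obtain ⟨C, X₀, hC, hF⟩ := FOU
  obtain ⟨X₁, hX₁⟩ := Filter.eventually_atTop.1 Mo_event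
  refine ⟨18 * C, max X₀ X₁, by positivity, ?_⟩
  intro x hx H hH1 hH2
  obtain ⟨hx1, hL, hx14, hyy⟩ := hX₁ x ((le_max_right _ _).trans hx)
  have hFx := hF x ((le_max_left _ _).trans hx)
  set Λ : ℝ := Real.log x with hΛ
  have hW0 := WW_pos (yy x)
  have hW1 : (0 : ℝ) < (WW (yy x) : ℝ) := WW_pos_real (yy x)
  have hWΛ : (WW (yy x) : ℝ) ≤ Λ := FOU_W hL
  have hH0 : (0 : ℝ) < (H : ℝ) := by linarith
  have hN0 : (0 : ℝ) < (⌊x⌋₊ : ℝ) + 1 := by positivity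
  -- the range
  have h1 : rgH x H = Finset.range (H + (⌊x⌋₊ + 1)) := by
    unfold rgH
    rw [add_comm]
  rw [h1, Finset.sum_range_add]
  have h2 : ∑ n ∈ Finset.range H, (nf (Finset.Icc 1 (H : ℤ)) (La x) (n : ℤ)) ^ 4 = 0 := by
    refine Finset.sum_eq_zero fun n hn => ?_
    rw [Finset.mem_range] at hn
    have h3 : nf (Finset.Icc 1 (H : ℤ)) (La x) (n : ℤ) = 0 := by
      unfold nf
      refine Finset.sum_eq_zero fun d hd => ?_
      rw [Finset.mem_Icc] at hd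
      unfold La
      rw [if_neg]
      rintro ⟨-, h4, -⟩
      have h5 : (((n : ℤ) - d : ℤ) : ℝ) ≤ (H : ℝ) := by
        have : (n : ℤ) - d ≤ (H : ℤ) := by omega
        exact_mod_cast this
      linarith
    rw [h3]
    norm_num
  rw [h2, zero_add]
  have h3 : ∑ m ∈ Finset.range (⌊x⌋₊ + 1), (nf (Finset.Icc 1 (H : ℤ)) (La x) (((H + m : ℕ) : ℤ))) ^ 4 =
      ∑ t ∈ Finset.range (WW (yy x)), ∑ m ∈ cls x t,
        (nf (Finset.Icc 1 (H : ℤ)) (La x) (((H + m : ℕ) : ℤ))) ^ 4 := by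
    unfold cls
    rw [Finset.sum_fiberwise_of_maps_to]
    intro m _
    rw [Finset.mem_range]
    exact Nat.mod_lt _ hW0
  rw [h3]
  have h4 : ∀ t ∈ Finset.range (WW (yy x)), ∑ m ∈ cls x t,
      (nf (Finset.Icc 1 (H : ℤ)) (La x) (((H + m : ℕ) : ℤ))) ^ 4 ≤
      18 * C * (((⌊x⌋₊ : ℝ) + 1) / (WW (yy x) : ℝ)) * (H : ℝ) ^ 4 := by
    intro t ht
    rw [Finset.mem_range] at ht
    have hSA : SA x t (MoA x H t) := by
      intro a ha
      unfold MoA at ha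
      rw [Finset.mem_filter, Finset.mem_range] at ha
      refine ⟨?_, ha.2⟩
      have : (a : ℝ) ≤ (H : ℝ) := by exact_mod_cast ha.1.le
      nlinarith [sq_nonneg (Real.log x)]
    have h5 := hFx t ht (MoA x H t) hSA
    have h6 : ∑ m ∈ cls x t, (nf (Finset.Icc 1 (H : ℤ)) (La x) (((H + m : ℕ) : ℤ))) ^ 4 ≤
        ∑ m ∈ cls x t, Λ ^ 4 * (NN (MoA x H t) m : ℝ) ^ 4 := by
      refine Finset.sum_le_sum fun m hm => ?_
      unfold cls at hm
      rw [Finset.mem_filter] at hm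
      rw [← mul_pow]
      exact pow_le_pow_left₀ (nf_nonneg (fun n => La_nonneg hx1 n) _) (Mo_term hx1 hyy hm.2) 4
    refine h6.trans ?_
    rw [← Finset.mul_sum]
    have h7 : Λ ^ 4 * ∑ m ∈ cls x t, (NN (MoA x H t) m : ℝ) ^ 4 ≤
        Λ ^ 4 * (C * (((⌊x⌋₊ : ℝ) + 1) / (WW (yy x) : ℝ) * ((mA x (MoA x H t)) ^ 4 + mA x (MoA x H t)))) :=
      mul_le_mul_of_nonneg_left h5 (by positivity)
    refine h7.trans ?_
    have h8 : Λ * mA x (MoA x H t) ≤ 2 * (H : ℝ) := by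
      unfold mA
      rw [← hΛ, mul_div_assoc', mul_div_cancel_left₀ _ (by positivity : Λ ≠ 0)]
      have := Mo_card x H t
      linarith
    have hm0 : 0 ≤ mA x (MoA x H t) := by
      unfold mA
      rw [← hΛ]
      have : 0 ≤ wphi x := by unfold wphi; positivity
      positivity
    have h9 : Λ ^ 4 * (mA x (MoA x H t)) ^ 4 ≤ 16 * (H : ℝ) ^ 4 := by
      rw [← mul_pow]
      have := pow_le_pow_left₀ (by positivity) h8 4
      calc (Λ * mA x (MoA x H t)) ^ 4 ≤ (2 * (H : ℝ)) ^ 4 := this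
        _ = 16 * (H : ℝ) ^ 4 := by ring
    have h10 : Λ ^ 4 * mA x (MoA x H t) ≤ 2 * (H : ℝ) ^ 4 := by
      have h11 : Λ ^ 3 ≤ (H : ℝ) ^ 3 := pow_le_pow_left₀ (by positivity) hH1 3
      calc Λ ^ 4 * mA x (MoA x H t) = Λ ^ 3 * (Λ * mA x (MoA x H t)) := by ring
        _ ≤ (H : ℝ) ^ 3 * (2 * (H : ℝ)) := mul_le_mul h11 h8 (by positivity) (by positivity)
        _ = 2 * (H : ℝ) ^ 4 := by ring
    have hNW : 0 ≤ C * (((⌊x⌋₊ : ℝ) + 1) / (WW (yy x) : ℝ)) := by positivity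
    calc Λ ^ 4 * (C * (((⌊x⌋₊ : ℝ) + 1) / (WW (yy x) : ℝ) * ((mA x (MoA x H t)) ^ 4 + mA x (MoA x H t))))
        = C * (((⌊x⌋₊ : ℝ) + 1) / (WW (yy x) : ℝ)) *
          (Λ ^ 4 * (mA x (MoA x H t)) ^ 4 + Λ ^ 4 * mA x (MoA x H t)) := by ring
      _ ≤ C * (((⌊x⌋₊ : ℝ) + 1) / (WW (yy x) : ℝ)) * (16 * (H : ℝ) ^ 4 + 2 * (H : ℝ) ^ 4) :=
          mul_le_mul_of_nonneg_left (by linarith) hNW
      _ = 18 * C * (((⌊x⌋₊ : ℝ) + 1) / (WW (yy x) : ℝ)) * (H : ℝ) ^ 4 := by ring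
  refine (Finset.sum_le_sum h4).trans (le_of_eq ?_)
  rw [Finset.sum_const, Finset.card_range, nsmul_eq_mul]
  field_simp

end Pool.Agent.H12.DM
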