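import Pool.Agent.H12.DM.Bb
import Pool.Agent.H12.DM.Vc
import Pool.Agent.H12.DM.Mo

/-!
# Be: windows in `L¹`, in `L²` and in `L²` with respect to the primes

`L = log x`, `N = ⌊x⌋₊ + 1`, `f = fB x = La - Mi`, `#rgH x H = N + H ≤ 2N`.

* `Be1`: apply `Vc` with `ε/2`: `b, y, K, V`. By `Vmaj`, `La x n ≤ (1/dl b) M n V n`, so `|f n| ≤ La x n + M n ≤ (1/dl b + 5) Uu x V n` (`1/dl b ≥ 1`, `V ≥ 0`, `Mi_le`), and `f` vanishes outside `[0,N)` (`fB_out`). Hence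
  `∑ La (nf D f)^2 ≤ (1/dl b) ∑ M V (nf D f)^2 ≤ (1/dl b) (wp y * ∑ (nf D f)^2 + (ε/2) (dl b)^2 N H^2) ≤ (1/dl b) wp y δ N H^2 + (ε/2) dl b N H^2`, `dl b ≤ 1`; `δ = ε dl b/(2 wp y)`.
* `Be2`: `|nf D f n| ≤ nf (Icc 1 H) La n + 2H` (`nf D La ≤ nf (Icc 1 H) La`; `Mi_win_le`, `W ≤ L ≤ H`), so `∑_{rgH} |nf D f|^4 ≤ 8 C N H^4 + 8 (2H)^4 * 2N =: C₁ N H^4` (`Mo4`, `(a+b)^4 ≤ 8(a^4 + b^4)`). For `t ≥ 0`, `T > 0`: `t^2 ≤ T t + t^4/T^2`.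
  With `T = A H`: `∑ (nf D f)^2 ≤ A H δ N H + C₁ N H^2/A^2`. Choose `A = √(2C₁/ε)`, `δ = ε/(2A)`.
* `Be3`: Cauchy-Schwarz: `(∑_{rgH} |nf D f|)^2 ≤ 2N * δ N H^2`, `δ = ε^2/2`.
-/

set_option autoImplicit false

namespace Pool.Agent.H12.DM

open Finset Pool.Agent.H17 Pool.Agent.H6.MF Pool.Agent.H6.MB

private theorem Be_event : ∃ X : ℝ, ∀ x : ℝ, X ≤ x → 1 ≤ x ∧ 1 ≤ Real.log x ∧ (Real.log x) ^ 2 ≤ x := by
  have h1 : ∀ᶠ x : ℝ in Filter.atTop, 1 ≤ x := Filter.eventually_ge_atTop 1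
  have h2 : ∀ᶠ x : ℝ in Filter.atTop, 1 ≤ Real.log x := Real.tendsto_log_atTop.eventually_ge_atTop 1
  have h5 := (isLittleO_log_rpow_rpow_atTop (2 : ℝ) (s := 1) (by norm_num)).bound
    (by norm_num : (0 : ℝ) < 1)
  obtain ⟨X, hX⟩ := Filter.eventually_atTop.1 (h1.and (h2.and h5))
  refine ⟨X, fun x hx => ?_⟩
  obtain ⟨g1, g2, g5⟩ := hX x hx
  refine ⟨g1, g2, ?_⟩
  rw [Real.norm_of_nonneg (by positivity), Real.norm_of_nonneg (by positivity)] at g5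
  have g6 : Real.log x ^ (2 : ℝ) = Real.log x ^ 2 := by
    rw [← Real.rpow_natCast]
    norm_num
  rw [g6, Real.rpow_one] at g5
  linarith

private theorem Be_W {x : ℝ} (hL : 1 ≤ Real.log x) : (WW (yy x) : ℝ) ≤ Real.log x := by
  have h1 : (1 : ℝ) ≤ (WW (yy x) : ℝ) := by exact_mod_cast WW_pos (yy x)
  calc (WW (yy x) : ℝ) ≤ (WW (yy x) : ℝ) ^ 34 := le_self_pow₀ h1 (by norm_num)
    _ ≤ Real.sqrt (Real.log x) := WW_yy_pow_le hL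
    _ ≤ Real.log x := by
      rw [Real.sqrt_le_left (by linarith)]
      nlinarith

private theorem Be_card {x : ℝ} {H : ℕ} (hH : (H : ℝ) ≤ (Real.log x) ^ 2) (h : (Real.log x) ^ 2 ≤ x) :
    ((rgH x H).card : ℝ) ≤ 2 * ((⌊x⌋₊ : ℝ) + 1) := by
  unfold rgH
  rw [Finset.card_range]
  have h1 := Nat.lt_floor_add_one x
  push_cast
  linarith

private theorem Be_abs {x : ℝ} (hx : 1 ≤ x) (n : ℤ) : |fB x n| ≤ La x n + Mi x n := by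
  unfold fB
  have h1 := La_nonneg hx n
  have h2 := Mi_nonneg x n
  rw [abs_le]
  constructor <;> linarith

theorem Be1 (ε : ℝ) (hε : 0 < ε) : ∃ δ K X : ℝ, 0 < δ ∧ ∀ x : ℝ, X ≤ x → ∀ H : ℕ, K * Real.log x ≤ (H : ℝ) →
    (H : ℝ) ≤ (Real.log x) ^ 2 → ∀ D : Finset ℤ, D ⊆ Finset.Icc 1 (H : ℤ) → SW x H δ D → SP x H ε D := by
  obtain ⟨b, y, K, X₁, hVc⟩ := Vc (ε / 2) (by positivity)
  obtain ⟨X₂, hV2⟩ := Vmaj b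
  have hdl := dl_pos b
  have hwp := wp_pos y
  have hdl1 : dl b ≤ 1 := by
    unfold dl
    rw [div_le_one (by positivity)]
    have hb : (0 : ℝ) ≤ (b : ℝ) := Nat.cast_nonneg b
    nlinarith
  refine ⟨ε * dl b / (2 * wp y), K, max (max X₁ X₂) 1, by positivity, ?_⟩
  intro x hx H hH1 hH2 D hD hSW
  have hx1 : 1 ≤ x := (le_max_right _ _).trans hx
  have hxa : X₁ ≤ x := (le_max_left _ _).trans ((le_max_left _ _).trans hx)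
  have hxb : X₂ ≤ x := (le_max_right _ _).trans ((le_max_left _ _).trans hx)
  obtain ⟨V, hV, hVx⟩ := hVc x hxa
  have hmaj := hV2 x hxb V hV
  have hinv : 0 < 1 / dl b := by positivity
  have hf1 : ∀ n, |fB x n| ≤ (1 / dl b + 5) * Uu x V n := by
    intro n
    have h1 := Be_abs hx1 n
    have h2 := hmaj n
    have h3 := Mi_le x n
    have h4 := hV.1 n
    have h5 := Mm_nonneg (yy x) n
    have h6 : 0 ≤ Mm (yy x) n * V n := mul_nonneg h5 h4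
    have h7 : (1 / dl b + 5) * Uu x V n = 1 / dl b * (Mm (yy x) n * V n) + 5 * (Mm (yy x) n * V n) +
        (1 / dl b) * Mm (yy x) n + 5 * Mm (yy x) n := by
      unfold Uu
      ring
    have h8 : 0 ≤ (1 / dl b) * Mm (yy x) n := mul_nonneg hinv.le h5
    rw [h7]
    linarith
  have h1 := hVx H hH1 hH2 D hD (fB x) hf1 (fun n hn => fB_out (by linarith) hn)
  unfold SP
  unfold SW at hSW
  have h2 : ∑ n ∈ rgH x H, La x (n : ℤ) * (nf D (fB x) (n : ℤ)) ^ 2 ≤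
      1 / dl b * ∑ n ∈ rgH x H, Mm (yy x) (n : ℤ) * V (n : ℤ) * (nf D (fB x) (n : ℤ)) ^ 2 := by
    rw [Finset.mul_sum]
    refine Finset.sum_le_sum fun n _ => ?_
    rw [← mul_assoc]
    exact mul_le_mul_of_nonneg_right (hmaj _) (sq_nonneg _)
  have hNH : 0 ≤ ((⌊x⌋₊ : ℝ) + 1) * (H : ℝ) ^ 2 := by positivity
  have h3 : wp y * ∑ n ∈ rgH x H, (nf D (fB x) (n : ℤ)) ^ 2 ≤
      wp y * (ε * dl b / (2 * wp y) * ((⌊x⌋₊ : ℝ) + 1) * (H : ℝ) ^ 2) :=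
    mul_le_mul_of_nonneg_left hSW hwp.le
  have h4 : 1 / dl b * (wp y * (ε * dl b / (2 * wp y) * ((⌊x⌋₊ : ℝ) + 1) * (H : ℝ) ^ 2)) =
      ε / 2 * (((⌊x⌋₊ : ℝ) + 1) * (H : ℝ) ^ 2) := by
    field_simp
  have h5 : 1 / dl b * (ε / 2 * (dl b) ^ 2 * ((⌊x⌋₊ : ℝ) + 1) * (H : ℝ) ^ 2) =
      dl b * (ε / 2 * (((⌊x⌋₊ : ℝ) + 1) * (H : ℝ) ^ 2)) := by
    field_simp
  have h6 : dl b * (ε / 2 * (((⌊x⌋₊ : ℝ) + 1) * (H : ℝ) ^ 2)) ≤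
      1 * (ε / 2 * (((⌊x⌋₊ : ℝ) + 1) * (H : ℝ) ^ 2)) :=
    mul_le_mul_of_nonneg_right hdl1 (by positivity)
  have h7 := mul_le_mul_of_nonneg_left (h1.trans (add_le_add_left h3 _)) hinv.le
  rw [mul_add, h4, h5] at h7
  calc _ ≤ _ := h2
    _ ≤ _ := h7
    _ ≤ ε / 2 * (((⌊x⌋₊ : ℝ) + 1) * (H : ℝ) ^ 2) + 1 * (ε / 2 * (((⌊x⌋₊ : ℝ) + 1) * (H : ℝ) ^ 2)) := by
      linarith
    _ = ε * ((⌊x⌋₊ : ℝ) + 1) * (H : ℝ) ^ 2 := by ring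

theorem Be2 (ε : ℝ) (hε : 0 < ε) : ∃ δ X : ℝ, 0 < δ ∧ ∀ x : ℝ, X ≤ x → ∀ H : ℕ, Real.log x ≤ (H : ℝ) →
    (H : ℝ) ≤ (Real.log x) ^ 2 → ∀ D : Finset ℤ, D ⊆ Finset.Icc 1 (H : ℤ) → FL x H δ D → SW x H ε D := by
  obtain ⟨C, X₁, hC, hMo⟩ := Mo4
  obtain ⟨X₂, hX₂⟩ := Be_event
  obtain ⟨C₁, hC₁⟩ : ∃ C₁ : ℝ, C₁ = 8 * C + 256 := ⟨_, rfl⟩
  have hC₁0 : 0 < C₁ := by rw [hC₁]; positivity
  obtain ⟨A, hA⟩ : ∃ A : ℝ, A = Real.sqrt (2 * C₁ / ε) := ⟨_, rfl⟩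
  have hA0 : 0 < A := by rw [hA]; exact Real.sqrt_pos.2 (by positivity)
  have hA2 : A ^ 2 = 2 * C₁ / ε := by rw [hA]; exact Real.sq_sqrt (by positivity)
  refine ⟨ε / (2 * A), max X₁ X₂, by positivity, ?_⟩
  intro x hx H hH1 hH2 D hD hFL
  obtain ⟨hx1, hL, hLx⟩ := hX₂ x ((le_max_right _ _).trans hx)
  have hM := hMo x ((le_max_left _ _).trans hx) H hH1 (by nlinarith [sq_nonneg (Real.log x)])
  have hH0 : (0 : ℝ) < H := by linarith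
  have hW : (WW (yy x) : ℝ) ≤ (H : ℝ) := (Be_W hL).trans hH1
  have hcard := Be_card hH2 hLx
  unfold FL at hFL
  unfold SW
  have habs : ∀ n : ℤ, |nf D (fB x) n| ≤ nf (Finset.Icc 1 (H : ℤ)) (La x) n + 2 * (H : ℝ) := by
    intro n
    have h1 : |nf D (fB x) n| ≤ nf D (La x) n + nf D (Mi x) n := by
      unfold nf
      rw [← Finset.sum_add_distrib]
      exact (Finset.abs_sum_le_sum_abs _ _).trans (Finset.sum_le_sum fun d _ => Be_abs hx1 _)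
    have h2 : nf D (La x) n ≤ nf (Finset.Icc 1 (H : ℤ)) (La x) n := by
      unfold nf
      exact Finset.sum_le_sum_of_subset_of_nonneg hD fun d _ _ => La_nonneg hx1 _
    have h3 := (Mi_win_le x H D hD n).2
    linarith
  have h4 : ∑ n ∈ rgH x H, |nf D (fB x) (n : ℤ)| ^ 4 ≤ C₁ * ((⌊x⌋₊ : ℝ) + 1) * (H : ℝ) ^ 4 := by
    have h5 : ∀ n ∈ rgH x H, |nf D (fB x) (n : ℤ)| ^ 4 ≤
        8 * (nf (Finset.Icc 1 (H : ℤ)) (La x) (n : ℤ)) ^ 4 + 128 * (H : ℝ) ^ 4 := by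
      intro n _
      have h6 := habs (n : ℤ)
      have h7 : |nf D (fB x) (n : ℤ)| ^ 4 ≤ (nf (Finset.Icc 1 (H : ℤ)) (La x) (n : ℤ) + 2 * (H : ℝ)) ^ 4 :=
        pow_le_pow_left₀ (abs_nonneg _) h6 4
      refine h7.trans ?_
      have h8 : ∀ a c : ℝ, (a + c) ^ 4 ≤ 8 * (a ^ 4 + c ^ 4) := by
        intro a c
        nlinarith [sq_nonneg (a ^ 2 - c ^ 2), sq_nonneg (a - c), sq_nonneg ((a - c) * (a + c)),
          mul_nonneg (sq_nonneg (a - c)) (sq_nonneg (a + c)), mul_nonneg (sq_nonneg (a - c)) (sq_nonneg (a - c)),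
          sq_nonneg (a ^ 2 + c ^ 2 - 2 * a * c)]
      refine (h8 _ _).trans (le_of_eq ?_)
      ring
    refine (Finset.sum_le_sum h5).trans ?_
    rw [Finset.sum_add_distrib, ← Finset.mul_sum, Finset.sum_const, nsmul_eq_mul]
    have h9 : ((rgH x H).card : ℝ) * (128 * (H : ℝ) ^ 4) ≤ 2 * ((⌊x⌋₊ : ℝ) + 1) * (128 * (H : ℝ) ^ 4) :=
      mul_le_mul_of_nonneg_right hcard (by positivity)
    calc _ ≤ 8 * (C * ((⌊x⌋₊ : ℝ) + 1) * (H : ℝ) ^ 4) + 2 * ((⌊x⌋₊ : ℝ) + 1) * (128 * (H : ℝ) ^ 4) := by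
          linarith
      _ = C₁ * ((⌊x⌋₊ : ℝ) + 1) * (H : ℝ) ^ 4 := by rw [hC₁]; ring
  obtain ⟨T, hT⟩ : ∃ T : ℝ, T = A * (H : ℝ) := ⟨_, rfl⟩
  have hT0 : 0 < T := by rw [hT]; positivity
  have hpt : ∀ n ∈ rgH x H, (nf D (fB x) (n : ℤ)) ^ 2 ≤
      T * |nf D (fB x) (n : ℤ)| + |nf D (fB x) (n : ℤ)| ^ 4 / T ^ 2 := by
    intro n _
    obtain ⟨s, hs⟩ : ∃ s, s = |nf D (fB x) (n : ℤ)| := ⟨_, rfl⟩
    have hs0 : 0 ≤ s := by rw [hs]; exact abs_nonneg _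
    rw [← sq_abs, ← hs]
    rcases le_total s T with h | h
    · have h1 : s ^ 2 ≤ T * s := by nlinarith
      have h2 : 0 ≤ s ^ 4 / T ^ 2 := by positivity
      linarith
    · have h1 : s ^ 2 ≤ s ^ 4 / T ^ 2 := by
        rw [le_div_iff₀ (by positivity)]
        have h3 : T ^ 2 ≤ s ^ 2 := pow_le_pow_left₀ hT0.le h 2
        nlinarith [sq_nonneg s]
      have h2 : 0 ≤ T * s := by positivity
      linarith
  refine (Finset.sum_le_sum hpt).trans ?_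
  rw [Finset.sum_add_distrib, ← Finset.mul_sum, ← Finset.sum_div]
  have e1 : T * ∑ n ∈ rgH x H, |nf D (fB x) (n : ℤ)| ≤ T * (ε / (2 * A) * ((⌊x⌋₊ : ℝ) + 1) * (H : ℝ)) :=
    mul_le_mul_of_nonneg_left hFL hT0.le
  have e2 : (∑ n ∈ rgH x H, |nf D (fB x) (n : ℤ)| ^ 4) / T ^ 2 ≤
      C₁ * ((⌊x⌋₊ : ℝ) + 1) * (H : ℝ) ^ 4 / T ^ 2 :=
    div_le_div_of_nonneg_right h4 (by positivity)
  refine (add_le_add e1 e2).trans (le_of_eq ?_)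
  have e3 : T ^ 2 = 2 * C₁ / ε * (H : ℝ) ^ 2 := by rw [hT, mul_pow, hA2]
  have e4 : C₁ * ((⌊x⌋₊ : ℝ) + 1) * (H : ℝ) ^ 4 / T ^ 2 = ε / 2 * (((⌊x⌋₊ : ℝ) + 1) * (H : ℝ) ^ 2) := by
    rw [e3]
    field_simp
  have e5 : T * (ε / (2 * A) * ((⌊x⌋₊ : ℝ) + 1) * (H : ℝ)) = ε / 2 * (((⌊x⌋₊ : ℝ) + 1) * (H : ℝ) ^ 2) := by
    rw [hT]
    field_simp
  rw [e4, e5]
  ring

theorem Be3 (ε : ℝ) (hε : 0 < ε) : ∃ δ X : ℝ, 0 < δ ∧ ∀ x : ℝ, X ≤ x → ∀ H : ℕ, Real.log x ≤ (H : ℝ) →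
    (H : ℝ) ≤ (Real.log x) ^ 2 → ∀ D : Finset ℤ, D ⊆ Finset.Icc 1 (H : ℤ) → SW x H δ D → FL x H ε D := by
  obtain ⟨X₂, hX₂⟩ := Be_event
  refine ⟨ε ^ 2 / 2, X₂, by positivity, ?_⟩
  intro x hx H hH1 hH2 D hD hSW
  obtain ⟨hx1, hL, hLx⟩ := hX₂ x hx
  have hcard := Be_card hH2 hLx
  unfold SW at hSW
  unfold FL
  have h1 : (∑ n ∈ rgH x H, |nf D (fB x) (n : ℤ)|) ^ 2 ≤
      ((rgH x H).card : ℝ) * ∑ n ∈ rgH x H, |nf D (fB x) (n : ℤ)| ^ 2 := sq_sum_le_card_mul_sum_sq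
  have h2 : ∑ n ∈ rgH x H, |nf D (fB x) (n : ℤ)| ^ 2 = ∑ n ∈ rgH x H, (nf D (fB x) (n : ℤ)) ^ 2 :=
    Finset.sum_congr rfl fun n _ => sq_abs _
  rw [h2] at h1
  have h3 : ((rgH x H).card : ℝ) * ∑ n ∈ rgH x H, (nf D (fB x) (n : ℤ)) ^ 2 ≤
      (2 * ((⌊x⌋₊ : ℝ) + 1)) * (ε ^ 2 / 2 * ((⌊x⌋₊ : ℝ) + 1) * (H : ℝ) ^ 2) :=
    mul_le_mul hcard hSW (Finset.sum_nonneg fun n _ => sq_nonneg _) (by positivity)
  have h4 : (2 * ((⌊x⌋₊ : ℝ) + 1)) * (ε ^ 2 / 2 * ((⌊x⌋₊ : ℝ) + 1) * (H : ℝ) ^ 2) =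
      (ε * ((⌊x⌋₊ : ℝ) + 1) * (H : ℝ)) ^ 2 := by ring
  rw [h4] at h3
  exact le_of_sq_le_sq (h1.trans h3) (by positivity)

end Pool.Agent.H12.DM
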