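import Pool.Agent.H12.DM.Bb
import Pool.Agent.H12.DM.Ba
import Pool.Agent.H12.DM.Mp

/-!
# Bf: small windows determine pairs and triples

`L = log x`, `N = ⌊x⌋₊ + 1`, `M = Mm (yy x)`, `f = fB x = La - Mi`, `I = Icc 1 H`, `K L ≤ H ≤ L^2` (here `K = 1`), `W ≤ L ≤ H`, `φ = wp (yy x)`, `φ^2 ≤ W^2 ≤ L^(1/2)`. `range N ⊆ rgH x H`. For `D ⊆ I`:
`0 ≤ nf D La ≤ nf I La`, `0 ≤ nf D Mi ≤ 2H` (`Mi_win_le`). If `La x n ≠ 0` then `x^(1/4) < n ≤ x`, so for `d ∈ I`: `0 ≤ n - d < N` (`H < x^(1/4)`) and `Mi(n-d) = M(n-d)`.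

* `Bf1`: `∑ La nf D La = ∑ La nf D Mi + ∑ La nf D f` (sums over `n < N`). Second: `≤ (∑ La)^{1/2} (∑ La (nf D f)^2)^{1/2} ≤ (2N)^{1/2} (δ N H^2)^{1/2}` (Cauchy-Schwarz, `Mo1`). First: `= ∑_{d∈D} ∑_n La(n) M(n-d)`, by `Ba` (`s = {d}`) within
  `ε₁ N ∑_{d∈D} sW{0,d} ≤ ε₁ N (H + W) ≤ 2 ε₁ N H` (`sW_sum1` for `Ioc 0 H = Icc 1 H`) of `N ∑_{d∈D} sW{0,d}`.
* `Bf2`: `∑ La nf D' La nf D La - ∑ La nf D' Mi nf D Mi = ∑ La (nf D' f)(nf D La) + ∑ La (nf D' Mi)(nf D f)`. First: `≤ (∑ La (nf D' f)^2)^{1/2} (∑ La (nf I La)^2)^{1/2} ≤ (δ N H^2)^{1/2} (C N H^2)^{1/2}` (`Mo3`). Second: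
  `≤ (∑ La (2H)^2)^{1/2} (∑ La (nf D f)^2)^{1/2} ≤ (8 N H^2)^{1/2} (δ N H^2)^{1/2}`. Main term: `∑ La nf D' Mi nf D Mi = ∑_{d'∈D'} ∑_{d∈D} ∑_n La(n) M(n-d') M(n-d)`. For `d ≠ d'` by `Ba` (`s = {d',d}`; `insert 0 {d',d} = {0,d',d}`) within
  `ε₁ N sW{0,d',d}` of `N sW{0,d',d}`, total error `≤ ε₁ N (H+W)^2 ≤ 4 ε₁ N H^2` (`sW_sum2`, nonneg. terms). For `d = d'`: `≤ φ^2 ∑ La ≤ 2 φ^2 N`, total `≤ 2 φ^2 N H ≤ (ε/8) N H^2` for large `x` (`H ≥ L`).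
-/

set_option autoImplicit false

namespace Pool.Agent.H12.DM

open Finset Pool.Agent.H17 Pool.Agent.H6.MF Pool.Agent.H6.MB

lemma Bf_cs (s : Finset ℕ) (a f g : ℕ → ℝ) (ha : ∀ n, 0 ≤ a n) :
    (∑ n ∈ s, a n * f n * g n) ^ 2 ≤ (∑ n ∈ s, a n * f n ^ 2) * ∑ n ∈ s, a n * g n ^ 2 := by
  have h := Finset.sum_mul_sq_le_sq_mul_sq s (fun n => Real.sqrt (a n) * f n)
    (fun n => Real.sqrt (a n) * g n)
  have e1 : ∀ n ∈ s, Real.sqrt (a n) * f n * (Real.sqrt (a n) * g n) = a n * f n * g n := by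
    intro n _
    have := Real.mul_self_sqrt (ha n)
    calc _ = (Real.sqrt (a n) * Real.sqrt (a n)) * f n * g n := by ring
      _ = _ := by rw [this]
  have e2 : ∀ f : ℕ → ℝ, ∀ n ∈ s, (Real.sqrt (a n) * f n) ^ 2 = a n * f n ^ 2 := by
    intro f n _
    rw [mul_pow, Real.sq_sqrt (ha n)]
  rw [Finset.sum_congr rfl e1, Finset.sum_congr rfl (e2 f), Finset.sum_congr rfl (e2 g)] at h
  exact h

lemma Bf_LaMi {x : ℝ} {H : ℕ} (hH : (H : ℝ) < x ^ (1 / 4 : ℝ)) {d : ℤ}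
    (hd : d ∈ Finset.Icc 1 (H : ℤ)) (n : ℤ) :
    La x n * Mi x (n - d) = La x n * Mm (yy x) (n - d) := by
  by_cases h : La x n = 0
  · rw [h, zero_mul, zero_mul]
  · have h' : isP n ∧ x ^ (1 / 4 : ℝ) < (n : ℝ) ∧ (n : ℝ) ≤ x := by
      by_contra hc
      exact h (by unfold La; rw [if_neg hc])
    rw [Finset.mem_Icc] at hd
    have h1 : (H : ℤ) < n := by
      have : (H : ℝ) < (n : ℝ) := hH.trans h'.2.1
      exact_mod_cast this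
    have h0 : 0 ≤ n := by omega
    have h2 : n ≤ (⌊x⌋₊ : ℤ) := by
      have h3 : ((n.toNat : ℕ) : ℤ) = n := Int.toNat_of_nonneg h0
      have h4 : ((n.toNat : ℕ) : ℝ) = (n : ℝ) := by exact_mod_cast congrArg (fun z : ℤ => (z : ℝ)) h3
      have h5 : n.toNat ≤ ⌊x⌋₊ := Nat.le_floor (by rw [h4]; exact h'.2.2)
      omega
    rw [Mi_of_mem (by omega) (by push_cast; omega)]

lemma Bf_nf_add (x : ℝ) (D : Finset ℤ) (n : ℤ) : nf D (La x) n = nf D (Mi x) n + nf D (fB x) n := by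
  unfold nf
  rw [← Finset.sum_add_distrib]
  refine Finset.sum_congr rfl fun d _ => ?_
  unfold fB
  ring

lemma Bf_SP {x : ℝ} (hx : 1 ≤ x) {H : ℕ} {δ : ℝ} {D : Finset ℤ} (h : SP x H δ D) :
    ∑ n ∈ Finset.range (⌊x⌋₊ + 1), La x (n : ℤ) * (nf D (fB x) (n : ℤ)) ^ 2
      ≤ δ * ((⌊x⌋₊ : ℝ) + 1) * (H : ℝ) ^ 2 := by
  refine le_trans ?_ h
  refine Finset.sum_le_sum_of_subset_of_nonneg ?_ ?_
  · unfold rgH
    intro n hn
    rw [Finset.mem_range] at hn ⊢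
    omega
  · intro n _ _
    exact mul_nonneg (La_nonneg hx _) (sq_nonneg _)

lemma Bf_Ioc (H : ℕ) : Finset.Icc 1 (H : ℤ) = Finset.Ioc 0 (H : ℤ) := by
  ext a
  rw [Finset.mem_Icc, Finset.mem_Ioc]
  omega

theorem Bf1 (ε : ℝ) (hε : 0 < ε) : ∃ δ X : ℝ, 0 < δ ∧ ∀ x : ℝ, X ≤ x → ∀ H : ℕ, Real.log x ≤ (H : ℝ) →
    (H : ℝ) ≤ (Real.log x) ^ 2 → ∀ D : Finset ℤ, D ⊆ Finset.Icc 1 (H : ℤ) → SP x H δ D → PL x H ε D := by
  obtain ⟨X1, h1⟩ := Ba (ε / 4) (by positivity)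
  obtain ⟨X2, h2⟩ := Mo1
  obtain ⟨X3, h3⟩ := Filter.eventually_atTop.1 Mo_event
  refine ⟨ε ^ 2 / 32, max X1 (max X2 X3), by positivity, ?_⟩
  intro x hx H hH1 hH2 D hD hSP
  have hx1 : X1 ≤ x := (le_max_left _ _).trans hx
  have hx2 : X2 ≤ x := ((le_max_left _ _).trans (le_max_right _ _)).trans hx
  have hx3 : X3 ≤ x := ((le_max_right _ _).trans (le_max_right _ _)).trans hx
  obtain ⟨hx1', hL, hx14, -⟩ := h3 x hx3
  have hBa := h1 x hx1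
  have hMo := h2 x hx2
  have hSP' := Bf_SP hx1' hSP
  have hW : (WW (yy x) : ℝ) ≤ H := (FOU_W hL).trans hH1
  have hHlt : (H : ℝ) < x ^ (1 / 4 : ℝ) := by nlinarith
  have hLa : ∀ n : ℤ, 0 ≤ La x n := La_nonneg hx1'
  set N : ℝ := (⌊x⌋₊ : ℝ) + 1 with hN
  have hN0 : 0 < N := by positivity
  have hH0 : (0 : ℝ) < H := by linarith
  -- second sum
  have hcs := Bf_cs (Finset.range (⌊x⌋₊ + 1)) (fun n => La x (n : ℤ)) (fun _ => 1)
    (fun n => nf D (fB x) (n : ℤ)) (fun _ => hLa _)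
  simp only [mul_one, one_pow] at hcs
  have hsum0 : 0 ≤ ∑ n ∈ Finset.range (⌊x⌋₊ + 1), La x (n : ℤ) * (nf D (fB x) (n : ℤ)) ^ 2 :=
    Finset.sum_nonneg fun n _ => mul_nonneg (hLa _) (sq_nonneg _)
  have hb : (∑ n ∈ Finset.range (⌊x⌋₊ + 1), La x (n : ℤ) * nf D (fB x) (n : ℤ)) ^ 2
      ≤ (ε / 4 * N * H) ^ 2 := by
    refine hcs.trans ?_
    calc _ ≤ (2 * N) * (ε ^ 2 / 32 * N * (H : ℝ) ^ 2) := mul_le_mul hMo hSP' hsum0 (by positivity)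
      _ = (ε / 4 * N * H) ^ 2 := by ring
  have hb' := abs_le_of_sq_le_sq hb (by positivity)
  -- first sum
  have hfirst : |∑ n ∈ Finset.range (⌊x⌋₊ + 1), La x (n : ℤ) * nf D (Mi x) (n : ℤ)
      - N * ∑ d ∈ D, sW x {0, d}| ≤ ε / 2 * N * H := by
    have e1 : ∑ n ∈ Finset.range (⌊x⌋₊ + 1), La x (n : ℤ) * nf D (Mi x) (n : ℤ)
        = ∑ d ∈ D, ∑ n ∈ Finset.range (⌊x⌋₊ + 1), La x (n : ℤ) * ∏ h ∈ ({d} : Finset ℤ), Mm (yy x) ((n : ℤ) - h) := by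
      rw [Finset.sum_comm]
      refine Finset.sum_congr rfl fun n _ => ?_
      unfold nf
      rw [Finset.mul_sum]
      refine Finset.sum_congr rfl fun d hd => ?_
      rw [Finset.prod_singleton]
      exact Bf_LaMi hHlt (hD hd) _
    rw [e1, Finset.mul_sum, ← Finset.sum_sub_distrib]
    refine (Finset.abs_sum_le_sum_abs _ _).trans ?_
    calc _ ≤ ∑ d ∈ D, ε / 4 * N * sW x {0, d} := by
          refine Finset.sum_le_sum fun d hd => ?_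
          have hd0 : (0 : ℤ) ∉ ({d} : Finset ℤ) := by
            have := Finset.mem_Icc.1 (hD hd)
            rw [Finset.mem_singleton]
            omega
          exact hBa {d} hd0
      _ ≤ ∑ d ∈ Finset.Ioc 0 (H : ℤ), ε / 4 * N * sW x {0, d} := by
          rw [← Bf_Ioc]
          exact Finset.sum_le_sum_of_subset_of_nonneg hD
            (fun d _ _ => mul_nonneg (by positivity) (sW_nonneg _ _))
      _ = ε / 4 * N * ∑ d ∈ Finset.Ioc 0 (H : ℤ), sW x {0, d} := by rw [Finset.mul_sum]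
      _ ≤ ε / 4 * N * (2 * H) := by
          refine mul_le_mul_of_nonneg_left ?_ (by positivity)
          have := sW_sum1 x 0 (H : ℤ) (by positivity) le_rfl
          push_cast at this
          linarith
      _ = _ := by ring
  unfold PL
  have esum : ∑ n ∈ Finset.range (⌊x⌋₊ + 1), La x (n : ℤ) * nf D (La x) (n : ℤ)
      = ∑ n ∈ Finset.range (⌊x⌋₊ + 1), La x (n : ℤ) * nf D (Mi x) (n : ℤ)
        + ∑ n ∈ Finset.range (⌊x⌋₊ + 1), La x (n : ℤ) * nf D (fB x) (n : ℤ) := by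
    rw [← Finset.sum_add_distrib]
    refine Finset.sum_congr rfl fun n _ => ?_
    rw [Bf_nf_add, mul_add]
  rw [esum, ← hN]
  have h0 : 0 ≤ ε * N * H := by positivity
  have h4 := abs_le.1 hb'
  have h5 := abs_le.1 hfirst
  rw [abs_le]
  constructor <;> nlinarith [h4.1, h4.2, h5.1, h5.2]

/-- the double sum over the model -/
noncomputable def BfG (x : ℝ) (d' d : ℤ) : ℝ :=
  ∑ n ∈ Finset.range (⌊x⌋₊ + 1), La x (n : ℤ) * (Mm (yy x) ((n : ℤ) - d') * Mm (yy x) ((n : ℤ) - d))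

lemma BfG_nonneg {x : ℝ} (hx : 1 ≤ x) (d' d : ℤ) : 0 ≤ BfG x d' d :=
  Finset.sum_nonneg fun n _ => mul_nonneg (La_nonneg hx _) (mul_nonneg (Mm_nonneg _ _) (Mm_nonneg _ _))

lemma BfG_le {x : ℝ} (hx : 1 ≤ x) (d' d : ℤ) :
    BfG x d' d ≤ (wp (yy x)) ^ 2 * ∑ n ∈ Finset.range (⌊x⌋₊ + 1), La x (n : ℤ) := by
  unfold BfG
  rw [Finset.mul_sum]
  refine Finset.sum_le_sum fun n _ => ?_
  have h1 : Mm (yy x) ((n : ℤ) - d') * Mm (yy x) ((n : ℤ) - d) ≤ wp (yy x) * wp (yy x) :=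
    mul_le_mul (Mm_le _ _) (Mm_le _ _) (Mm_nonneg _ _) (wp_pos _).le
  have := mul_le_mul_of_nonneg_left h1 (La_nonneg hx (n : ℤ))
  calc _ ≤ La x (n : ℤ) * (wp (yy x) * wp (yy x)) := this
    _ = _ := by ring

lemma Bf_wp {x : ℝ} (hL : 1 ≤ Real.log x) : (wp (yy x)) ^ 2 ≤ Real.sqrt (Real.log x) := by
  have h1 := WW_yy_pow_le hL
  have h2 : (1 : ℝ) ≤ (WW (yy x) : ℝ) := by exact_mod_cast WW_pos (yy x)
  have h3 : wp (yy x) ≤ (WW (yy x) : ℝ) := by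
    unfold wp
    refine div_le_self (by linarith) ?_
    exact_mod_cast Nat.totient_pos.mpr (WW_pos (yy x))
  calc (wp (yy x)) ^ 2 ≤ (WW (yy x) : ℝ) ^ 2 := pow_le_pow_left₀ (wp_pos _).le h3 2
    _ ≤ (WW (yy x) : ℝ) ^ 34 := pow_le_pow_right₀ h2 (by norm_num)
    _ ≤ _ := h1

lemma Bf_main {x : ℝ} {H : ℕ} {ε : ℝ} (hε : 0 < ε) (hx : 1 ≤ x)
    (hL : 1 ≤ Real.log x) (hLε : (16 / ε) ^ 2 ≤ Real.log x) (hHL : Real.log x ≤ (H : ℝ))
    (hHlt : (H : ℝ) < x ^ (1 / 4 : ℝ))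
    (hBa : ∀ s : Finset ℤ, 0 ∉ s →
      |∑ n ∈ Finset.range (⌊x⌋₊ + 1), La x (n : ℤ) * ∏ h ∈ s, Mm (yy x) ((n : ℤ) - h)
        - ((⌊x⌋₊ : ℝ) + 1) * sW x (insert 0 s)| ≤ ε / 16 * ((⌊x⌋₊ : ℝ) + 1) * sW x (insert 0 s))
    (hMo : ∑ n ∈ Finset.range (⌊x⌋₊ + 1), La x (n : ℤ) ≤ 2 * ((⌊x⌋₊ : ℝ) + 1))
    (D' D : Finset ℤ) (hD' : D' ⊆ Finset.Icc 1 (H : ℤ)) (hD : D ⊆ Finset.Icc 1 (H : ℤ)) :
    |∑ n ∈ Finset.range (⌊x⌋₊ + 1), La x (n : ℤ) * nf D' (Mi x) (n : ℤ) * nf D (Mi x) (n : ℤ)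
      - ((⌊x⌋₊ : ℝ) + 1) * ∑ d' ∈ D', ∑ d ∈ D.erase d', sW x {0, d', d}|
      ≤ 3 * ε / 8 * ((⌊x⌋₊ : ℝ) + 1) * (H : ℝ) ^ 2 := by
  have hW : (WW (yy x) : ℝ) ≤ H := (FOU_W hL).trans hHL
  set N : ℝ := (⌊x⌋₊ : ℝ) + 1 with hN
  have hN0 : 0 < N := by positivity
  have hH0 : (0 : ℝ) < H := by linarith
  have e1 : ∑ n ∈ Finset.range (⌊x⌋₊ + 1), La x (n : ℤ) * nf D' (Mi x) (n : ℤ) * nf D (Mi x) (n : ℤ)
      = ∑ d' ∈ D', ∑ d ∈ D, BfG x d' d := by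
    unfold BfG
    have : ∀ n ∈ Finset.range (⌊x⌋₊ + 1), La x (n : ℤ) * nf D' (Mi x) (n : ℤ) * nf D (Mi x) (n : ℤ)
        = ∑ d' ∈ D', ∑ d ∈ D, La x (n : ℤ) * (Mm (yy x) ((n : ℤ) - d') * Mm (yy x) ((n : ℤ) - d)) := by
      intro n _
      unfold nf
      rw [mul_assoc, Finset.sum_mul_sum, Finset.mul_sum]
      refine Finset.sum_congr rfl fun d' hd' => ?_
      rw [Finset.mul_sum]
      refine Finset.sum_congr rfl fun d hd => ?_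
      have a1 := Bf_LaMi hHlt (hD' hd') (n : ℤ)
      have a2 := Bf_LaMi hHlt (hD hd) (n : ℤ)
      calc La x (n : ℤ) * (Mi x ((n : ℤ) - d') * Mi x ((n : ℤ) - d))
          = (La x (n : ℤ) * Mi x ((n : ℤ) - d')) * Mi x ((n : ℤ) - d) := by ring
        _ = (La x (n : ℤ) * Mi x ((n : ℤ) - d)) * Mm (yy x) ((n : ℤ) - d') := by rw [a1]; ring
        _ = _ := by rw [a2]; ring
    rw [Finset.sum_congr rfl this, Finset.sum_comm]
    refine Finset.sum_congr rfl fun d' _ => ?_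
    rw [Finset.sum_comm]
  rw [e1]
  -- the diagonal
  have hdiag : ∀ d' ∈ D', |∑ d ∈ D, BfG x d' d - ∑ d ∈ D.erase d', BfG x d' d|
      ≤ 2 * (wp (yy x)) ^ 2 * N := by
    intro d' _
    have hg : |BfG x d' d'| ≤ 2 * (wp (yy x)) ^ 2 * N := by
      rw [abs_of_nonneg (BfG_nonneg hx _ _)]
      refine (BfG_le hx _ _).trans ?_
      have := mul_le_mul_of_nonneg_left hMo (sq_nonneg (wp (yy x)))
      linarith
    by_cases hm : d' ∈ D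
    · rw [← Finset.add_sum_erase D _ hm, add_sub_cancel_right]
      exact hg
    · rw [Finset.erase_eq_of_notMem hm, sub_self, abs_zero]
      positivity
  have hoff : ∀ d' ∈ D', |∑ d ∈ D.erase d', BfG x d' d - N * ∑ d ∈ D.erase d', sW x {0, d', d}|
      ≤ ε / 16 * N * ∑ d ∈ D.erase d', sW x {0, d', d} := by
    intro d' hd'
    rw [Finset.mul_sum, ← Finset.sum_sub_distrib, Finset.mul_sum]
    refine (Finset.abs_sum_le_sum_abs _ _).trans (Finset.sum_le_sum fun d hd => ?_)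
    have hdd := Finset.mem_erase.1 hd
    have hne : d' ≠ d := Ne.symm hdd.1
    have h0 : (0 : ℤ) ∉ ({d', d} : Finset ℤ) := by
      have u1 := Finset.mem_Icc.1 (hD' hd')
      have u2 := Finset.mem_Icc.1 (hD hdd.2)
      rw [Finset.mem_insert, Finset.mem_singleton]
      omega
    have := hBa {d', d} h0
    have e2 : ∑ n ∈ Finset.range (⌊x⌋₊ + 1), La x (n : ℤ) * ∏ h ∈ ({d', d} : Finset ℤ), Mm (yy x) ((n : ℤ) - h)
        = BfG x d' d := by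
      unfold BfG
      refine Finset.sum_congr rfl fun n _ => ?_
      rw [Finset.prod_pair hne]
    rw [e2] at this
    exact this
  have hcard : (D'.card : ℝ) ≤ H := by
    have h1 := Finset.card_le_card hD'
    rw [Int.card_Icc] at h1
    have h2 : D'.card ≤ H := by omega
    exact_mod_cast h2
  have hS : ∑ d' ∈ D', ∑ d ∈ D.erase d', sW x {0, d', d} ≤ 4 * (H : ℝ) ^ 2 := by
    calc ∑ d' ∈ D', ∑ d ∈ D.erase d', sW x {0, d', d}
        ≤ ∑ d' ∈ Finset.Ioc 0 (H : ℤ), ∑ d ∈ (Finset.Ioc 0 (H : ℤ)).erase d', sW x {0, d', d} := by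
          rw [← Bf_Ioc]
          refine (Finset.sum_le_sum fun d' _ => ?_).trans (Finset.sum_le_sum_of_subset_of_nonneg hD'
            (fun d' _ _ => Finset.sum_nonneg fun d _ => sW_nonneg _ _))
          exact Finset.sum_le_sum_of_subset_of_nonneg (Finset.erase_subset_erase _ hD)
            (fun d _ _ => sW_nonneg _ _)
      _ ≤ _ := sW_sum2 x 0 H 0 H (by positivity) le_rfl (by positivity) le_rfl
      _ ≤ (2 * H) * (2 * H) := by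
          push_cast
          refine mul_le_mul (by linarith) (by linarith) (by positivity) (by positivity)
      _ = 4 * (H : ℝ) ^ 2 := by ring
  have hwp : 2 * (wp (yy x)) ^ 2 ≤ ε / 8 * H := by
    have h1 := Bf_wp hL
    have h2 : 16 / ε ≤ Real.sqrt (Real.log x) := Real.le_sqrt_of_sq_le hLε
    have h3 : Real.sqrt (Real.log x) * Real.sqrt (Real.log x) = Real.log x :=
      Real.mul_self_sqrt (by linarith)
    have h4 : 16 ≤ ε * Real.sqrt (Real.log x) := by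
      rw [div_le_iff₀ hε] at h2
      linarith
    have h5 : 0 ≤ Real.sqrt (Real.log x) := Real.sqrt_nonneg _
    have h6 : 16 * Real.sqrt (Real.log x) ≤ ε * Real.log x := by
      calc 16 * Real.sqrt (Real.log x) ≤ (ε * Real.sqrt (Real.log x)) * Real.sqrt (Real.log x) :=
            mul_le_mul_of_nonneg_right h4 h5
        _ = ε * (Real.sqrt (Real.log x) * Real.sqrt (Real.log x)) := by ring
        _ = ε * Real.log x := by rw [h3]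
    have h7 : ε * Real.log x ≤ ε * H := mul_le_mul_of_nonneg_left hHL hε.le
    linarith
  have hA : |∑ d' ∈ D', ∑ d ∈ D, BfG x d' d - ∑ d' ∈ D', ∑ d ∈ D.erase d', BfG x d' d|
      ≤ ε / 8 * N * (H : ℝ) ^ 2 := by
    rw [← Finset.sum_sub_distrib]
    refine (Finset.abs_sum_le_sum_abs _ _).trans ((Finset.sum_le_sum hdiag).trans ?_)
    rw [Finset.sum_const, nsmul_eq_mul]
    calc (D'.card : ℝ) * (2 * wp (yy x) ^ 2 * N) ≤ (H : ℝ) * (ε / 8 * H * N) := by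
          refine mul_le_mul hcard (mul_le_mul_of_nonneg_right hwp hN0.le) (by positivity) hH0.le
      _ = _ := by ring
  have hB : |∑ d' ∈ D', ∑ d ∈ D.erase d', BfG x d' d - N * ∑ d' ∈ D', ∑ d ∈ D.erase d', sW x {0, d', d}|
      ≤ ε / 4 * N * (H : ℝ) ^ 2 := by
    rw [Finset.mul_sum, ← Finset.sum_sub_distrib]
    refine (Finset.abs_sum_le_sum_abs _ _).trans ((Finset.sum_le_sum hoff).trans ?_)
    rw [← Finset.mul_sum]
    have := mul_le_mul_of_nonneg_left hS (show 0 ≤ ε / 16 * N by positivity)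
    linarith
  have a1 := abs_le.1 hA
  have a2 := abs_le.1 hB
  rw [abs_le]
  constructor <;> linarith [a1.1, a1.2, a2.1, a2.2]

theorem Bf2 (ε : ℝ) (hε : 0 < ε) : ∃ δ X : ℝ, 0 < δ ∧ ∀ x : ℝ, X ≤ x → ∀ H : ℕ, Real.log x ≤ (H : ℝ) →
    (H : ℝ) ≤ (Real.log x) ^ 2 → ∀ D' D : Finset ℤ, D' ⊆ Finset.Icc 1 (H : ℤ) → D ⊆ Finset.Icc 1 (H : ℤ) →
    SP x H δ D' → SP x H δ D → TL x H ε D' D := by
  obtain ⟨X1, h1⟩ := Ba (ε / 16) (by positivity)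
  obtain ⟨X2, h2⟩ := Mo1
  obtain ⟨X3, h3⟩ := Filter.eventually_atTop.1 Mo_event
  obtain ⟨C, X4, hC, h4⟩ := Mo3
  obtain ⟨X5, h5⟩ := Filter.eventually_atTop.1 (Real.tendsto_log_atTop.eventually_ge_atTop ((16 / ε) ^ 2))
  refine ⟨ε ^ 2 / (64 * (C + 8)), max X1 (max X2 (max X3 (max X4 X5))), by positivity, ?_⟩
  intro x hx H hH1 hH2 D' D hD' hD hSP' hSP
  have hx1 : X1 ≤ x := (le_max_left _ _).trans hx
  have hxr1 := (le_max_right _ _).trans hx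
  have hx2 : X2 ≤ x := (le_max_left _ _).trans hxr1
  have hxr2 := (le_max_right _ _).trans hxr1
  have hx3 : X3 ≤ x := (le_max_left _ _).trans hxr2
  have hxr3 := (le_max_right _ _).trans hxr2
  have hx4 : X4 ≤ x := (le_max_left _ _).trans hxr3
  have hx5 : X5 ≤ x := (le_max_right _ _).trans hxr3
  obtain ⟨hx1', hL, hx14, -⟩ := h3 x hx3
  have hBa := h1 x hx1
  have hMo := h2 x hx2
  have hMo3 := h4 x hx4 H hH1 hH2
  have hLε := h5 x hx5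
  have hSq' := Bf_SP hx1' hSP'
  have hSq := Bf_SP hx1' hSP
  have hW : (WW (yy x) : ℝ) ≤ H := (FOU_W hL).trans hH1
  have hHlt : (H : ℝ) < x ^ (1 / 4 : ℝ) := by nlinarith
  have hLa : ∀ n : ℤ, 0 ≤ La x n := La_nonneg hx1'
  have hmain := Bf_main hε hx1' hL hLε hH1 hHlt hBa hMo D' D hD' hD
  set N : ℝ := (⌊x⌋₊ : ℝ) + 1 with hN
  have hN0 : 0 < N := by positivity
  have hH0 : (0 : ℝ) < H := by linarith
  set δ : ℝ := ε ^ 2 / (64 * (C + 8)) with hδ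
  have hδ0 : 0 < δ := by positivity
  have hδ1 : δ * (64 * (C + 8)) = ε ^ 2 := div_mul_cancel₀ _ (by positivity)
  have hδC : δ * C ≤ (ε / 8) ^ 2 := by nlinarith
  have hδ8 : δ * 8 ≤ (ε / 8) ^ 2 := by nlinarith
  -- the first error
  have hcs1 := Bf_cs (Finset.range (⌊x⌋₊ + 1)) (fun n => La x (n : ℤ)) (fun n => nf D' (fB x) (n : ℤ))
    (fun n => nf D (La x) (n : ℤ)) (fun n => hLa _)
  have hLaD : ∑ n ∈ Finset.range (⌊x⌋₊ + 1), La x (n : ℤ) * (nf D (La x) (n : ℤ)) ^ 2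
      ≤ C * N * (H : ℝ) ^ 2 := by
    refine le_trans (Finset.sum_le_sum fun n _ => ?_) hMo3
    refine mul_le_mul_of_nonneg_left ?_ (hLa _)
    refine pow_le_pow_left₀ (nf_nonneg hLa _) ?_ 2
    unfold nf
    exact Finset.sum_le_sum_of_subset_of_nonneg hD (fun d _ _ => hLa _)
  have hE1 : |∑ n ∈ Finset.range (⌊x⌋₊ + 1), La x (n : ℤ) * nf D' (fB x) (n : ℤ) * nf D (La x) (n : ℤ)|
      ≤ ε / 8 * N * (H : ℝ) ^ 2 := by
    refine abs_le_of_sq_le_sq (hcs1.trans ?_) (by positivity)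
    calc _ ≤ (δ * N * (H : ℝ) ^ 2) * (C * N * (H : ℝ) ^ 2) :=
          mul_le_mul hSq' hLaD (Finset.sum_nonneg fun n _ => mul_nonneg (hLa _) (sq_nonneg _)) (by positivity)
      _ = (δ * C) * (N * (H : ℝ) ^ 2) ^ 2 := by ring
      _ ≤ (ε / 8) ^ 2 * (N * (H : ℝ) ^ 2) ^ 2 := mul_le_mul_of_nonneg_right hδC (sq_nonneg _)
      _ = _ := by ring
  -- the second error
  have hcs2 := Bf_cs (Finset.range (⌊x⌋₊ + 1)) (fun n => La x (n : ℤ)) (fun n => nf D' (Mi x) (n : ℤ))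
    (fun n => nf D (fB x) (n : ℤ)) (fun n => hLa _)
  have hMiD : ∑ n ∈ Finset.range (⌊x⌋₊ + 1), La x (n : ℤ) * (nf D' (Mi x) (n : ℤ)) ^ 2
      ≤ 8 * N * (H : ℝ) ^ 2 := by
    calc _ ≤ ∑ n ∈ Finset.range (⌊x⌋₊ + 1), La x (n : ℤ) * (2 * H) ^ 2 := by
          refine Finset.sum_le_sum fun n _ => mul_le_mul_of_nonneg_left ?_ (hLa _)
          have := Mi_win_le x H D' hD' (n : ℤ)
          exact pow_le_pow_left₀ this.1 (by linarith) 2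
      _ = (∑ n ∈ Finset.range (⌊x⌋₊ + 1), La x (n : ℤ)) * (2 * H) ^ 2 := by rw [Finset.sum_mul]
      _ ≤ (2 * N) * (2 * H) ^ 2 := mul_le_mul_of_nonneg_right hMo (by positivity)
      _ = _ := by ring
  have hE2 : |∑ n ∈ Finset.range (⌊x⌋₊ + 1), La x (n : ℤ) * nf D' (Mi x) (n : ℤ) * nf D (fB x) (n : ℤ)|
      ≤ ε / 8 * N * (H : ℝ) ^ 2 := by
    refine abs_le_of_sq_le_sq (hcs2.trans ?_) (by positivity)
    calc _ ≤ (8 * N * (H : ℝ) ^ 2) * (δ * N * (H : ℝ) ^ 2) :=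
          mul_le_mul hMiD hSq (Finset.sum_nonneg fun n _ => mul_nonneg (hLa _) (sq_nonneg _)) (by positivity)
      _ = (δ * 8) * (N * (H : ℝ) ^ 2) ^ 2 := by ring
      _ ≤ (ε / 8) ^ 2 * (N * (H : ℝ) ^ 2) ^ 2 := mul_le_mul_of_nonneg_right hδ8 (sq_nonneg _)
      _ = _ := by ring
  unfold TL
  have esum : ∑ n ∈ Finset.range (⌊x⌋₊ + 1), La x (n : ℤ) * nf D' (La x) (n : ℤ) * nf D (La x) (n : ℤ)
      = ∑ n ∈ Finset.range (⌊x⌋₊ + 1), La x (n : ℤ) * nf D' (Mi x) (n : ℤ) * nf D (Mi x) (n : ℤ)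
        + ∑ n ∈ Finset.range (⌊x⌋₊ + 1), La x (n : ℤ) * nf D' (fB x) (n : ℤ) * nf D (La x) (n : ℤ)
        + ∑ n ∈ Finset.range (⌊x⌋₊ + 1), La x (n : ℤ) * nf D' (Mi x) (n : ℤ) * nf D (fB x) (n : ℤ) := by
    rw [← Finset.sum_add_distrib, ← Finset.sum_add_distrib]
    refine Finset.sum_congr rfl fun n _ => ?_
    rw [Bf_nf_add x D' (n : ℤ), Bf_nf_add x D (n : ℤ)]
    ring
  rw [esum, ← hN]
  have h0 : 0 ≤ ε * N * (H : ℝ) ^ 2 := by positivity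
  have b1 := abs_le.1 hE1
  have b2 := abs_le.1 hE2
  have b3 := abs_le.1 hmain
  rw [abs_le]
  constructor <;> linarith [b1.1, b1.2, b2.1, b2.2, b3.1, b3.2]

end Pool.Agent.H12.DM
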