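import Pool.Agent.H12.DM.Df

/-!
# Bg0: third moment of a window count (pure finite sums)

`I = Icc 1 H`. Expand: `∑_{n<N+H} (∑_{a∈I} f(n-a))^3 = ∑_{a,b,c∈I} ∑_{n<N+H} f(n-a) f(n-b) f(n-c)`.
* Triples with two equal entries: for `a = b`: `∑_{a,c} ∑_n f(n-a)^2 f(n-c) ≤ B ∑_n ∑_{a,c} f(n-a) f(n-c) = B ∑_n (nf I f n)^2` (`f ≤ B`), the same for `b = c`, `a = c`: the sum over all triples that are not
  pairwise distinct is at most the sum of the three.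
* Pairwise distinct triples: 6 orderings, each contributes `∑_{a<b<c} ∑_n f(n-a) f(n-b) f(n-c)`. For `a < b < c` put `m = n - a`, `d' = b - a`, `d = c - a`, `0 < d' < d < H`: as `f` vanishes outside `[0,N)`,
  `∑_{n<N+H} f(n-a) f(n-b) f(n-c) = ∑_{m<N} f(m) f(m-d') f(m-d)` (for `0 ≤ m < N`: `n = m + a ∈ [0,N+H)`), and for given `(d',d)` there are `H - d` values of `a` (`1 ≤ a ≤ H - d`). (Reindex
  `(a,b,c) ↦ (a, b-a, c-a)`.) Only `≤` is needed.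
-/

set_option autoImplicit false

namespace Pool.Agent.H12.DM

open Finset

lemma bg0_Icc_succ (H : ℕ) (F : ℤ → ℝ) :
    ∑ x ∈ Finset.Icc (1 : ℤ) ((H + 1 : ℕ) : ℤ), F x =
      ∑ x ∈ Finset.Icc (1 : ℤ) (H : ℤ), F x + F ((H : ℤ) + 1) := by
  have h1 : Finset.Icc (1 : ℤ) ((H + 1 : ℕ) : ℤ) =
      insert ((H : ℤ) + 1) (Finset.Icc (1 : ℤ) (H : ℤ)) := by
    ext z
    rw [Finset.mem_insert, Finset.mem_Icc, Finset.mem_Icc]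
    push_cast
    omega
  rw [h1, Finset.sum_insert, add_comm]
  rw [Finset.mem_Icc]
  omega

lemma bg0_Ico (H : ℕ) : Finset.Ico (1 : ℤ) ((H : ℤ) + 1) = Finset.Icc (1 : ℤ) (H : ℤ) := by
  ext z
  rw [Finset.mem_Ico, Finset.mem_Icc]
  omega

lemma bg0_two (g : ℤ → ℝ) (H : ℕ) :
    (∑ a ∈ Finset.Icc (1 : ℤ) (H : ℤ), g a) ^ 2 =
      2 * (∑ b ∈ Finset.Icc (1 : ℤ) (H : ℤ), ∑ a ∈ Finset.Ico (1 : ℤ) b, g a * g b) +
      ∑ a ∈ Finset.Icc (1 : ℤ) (H : ℤ), g a ^ 2 := by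
  induction H with
  | zero => simp
  | succ H ih =>
    rw [bg0_Icc_succ, bg0_Icc_succ, bg0_Icc_succ, bg0_Ico, ← Finset.sum_mul]
    linear_combination ih

lemma bg0_three (g : ℤ → ℝ) (H : ℕ) :
    (∑ a ∈ Finset.Icc (1 : ℤ) (H : ℤ), g a) ^ 3 =
      6 * (∑ c ∈ Finset.Icc (1 : ℤ) (H : ℤ), ∑ b ∈ Finset.Ico (1 : ℤ) c,
        ∑ a ∈ Finset.Ico (1 : ℤ) b, g a * g b * g c) +
      3 * (∑ a ∈ Finset.Icc (1 : ℤ) (H : ℤ), g a ^ 2) * (∑ a ∈ Finset.Icc (1 : ℤ) (H : ℤ), g a)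
      - 2 * ∑ a ∈ Finset.Icc (1 : ℤ) (H : ℤ), g a ^ 3 := by
  induction H with
  | zero => simp
  | succ H ih =>
    have h2 := bg0_two g H
    rw [bg0_Icc_succ, bg0_Icc_succ, bg0_Icc_succ, bg0_Icc_succ, bg0_Ico]
    have h3 : ∑ b ∈ Finset.Icc (1 : ℤ) (H : ℤ), ∑ a ∈ Finset.Ico (1 : ℤ) b,
        g a * g b * g ((H : ℤ) + 1) =
        (∑ b ∈ Finset.Icc (1 : ℤ) (H : ℤ), ∑ a ∈ Finset.Ico (1 : ℤ) b, g a * g b) *
          g ((H : ℤ) + 1) := by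
      rw [Finset.sum_mul]
      refine Finset.sum_congr rfl fun b _ => ?_
      rw [Finset.sum_mul]
    rw [h3]
    linear_combination ih + 3 * g ((H : ℤ) + 1) * h2

lemma bg0_pt (g : ℤ → ℝ) (B : ℝ) (hg : ∀ a, 0 ≤ g a) (hB : ∀ a, g a ≤ B) (H : ℕ) :
    (∑ a ∈ Finset.Icc (1 : ℤ) (H : ℤ), g a) ^ 3 ≤
      6 * (∑ c ∈ Finset.Icc (1 : ℤ) (H : ℤ), ∑ b ∈ Finset.Ico (1 : ℤ) c,
        ∑ a ∈ Finset.Ico (1 : ℤ) b, g a * g b * g c) +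
      3 * B * (∑ a ∈ Finset.Icc (1 : ℤ) (H : ℤ), g a) ^ 2 := by
  rw [bg0_three]
  have h1 : ∑ a ∈ Finset.Icc (1 : ℤ) (H : ℤ), g a ^ 2 ≤
      B * ∑ a ∈ Finset.Icc (1 : ℤ) (H : ℤ), g a := by
    rw [Finset.mul_sum]
    refine Finset.sum_le_sum fun a _ => ?_
    rw [pow_two]
    exact mul_le_mul_of_nonneg_right (hB a) (hg a)
  have h2 : 0 ≤ ∑ a ∈ Finset.Icc (1 : ℤ) (H : ℤ), g a := Finset.sum_nonneg fun a _ => hg a
  have h3 : 0 ≤ ∑ a ∈ Finset.Icc (1 : ℤ) (H : ℤ), g a ^ 3 :=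
    Finset.sum_nonneg fun a _ => pow_nonneg (hg a) 3
  have h4 := mul_le_mul_of_nonneg_right h1 h2
  nlinarith

lemma bg0_range (M : ℕ) (G : ℤ → ℝ) :
    ∑ n ∈ Finset.range M, G (n : ℤ) = ∑ z ∈ Finset.Ico (0 : ℤ) (M : ℤ), G z := by
  refine Finset.sum_nbij' (fun n : ℕ => (n : ℤ)) (fun z : ℤ => z.toNat) ?_ ?_ ?_ ?_ ?_
  · intro n hn
    rw [Finset.mem_range] at hn
    rw [Finset.mem_Ico]
    omega
  · intro z hz
    rw [Finset.mem_Ico] at hz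
    rw [Finset.mem_range]
    omega
  · intro n _
    exact Int.toNat_natCast n
  · intro z hz
    rw [Finset.mem_Ico] at hz
    exact Int.toNat_of_nonneg hz.1
  · intro n _
    rfl

lemma bg0_shift (N H : ℕ) (F : ℤ → ℝ) (hF : ∀ n : ℤ, n < 0 ∨ (N : ℤ) ≤ n → F n = 0)
    (a : ℤ) (ha0 : 0 ≤ a) (haH : a ≤ H) :
    ∑ n ∈ Finset.range (N + H), F ((n : ℤ) - a) = ∑ n ∈ Finset.range N, F (n : ℤ) := by
  rw [bg0_range (N + H) (fun z => F (z - a)), bg0_range N F]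
  have h1 : ∑ z ∈ Finset.Ico (0 : ℤ) ((N + H : ℕ) : ℤ), F (z - a) =
      ∑ z ∈ Finset.Ico (-a) ((N + H : ℕ) - a : ℤ), F z := by
    refine Finset.sum_nbij' (fun z => z - a) (fun z => z + a) ?_ ?_ ?_ ?_ ?_
    · intro z hz
      rw [Finset.mem_Ico] at hz ⊢
      omega
    · intro z hz
      rw [Finset.mem_Ico] at hz ⊢
      omega
    · intro z _
      exact sub_add_cancel z a
    · intro z _
      exact add_sub_cancel_right z a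
    · intro z _
      rfl
  rw [h1]
  symm
  refine Finset.sum_subset ?_ ?_
  · intro z hz
    rw [Finset.mem_Ico] at hz ⊢
    push_cast
    omega
  · intro z _ hz2
    apply hF
    rw [Finset.mem_Ico] at hz2
    omega

lemma bg0_reindex (H : ℕ) (T : ℤ → ℤ → ℝ) :
    ∑ c ∈ Finset.Icc (1 : ℤ) (H : ℤ), ∑ b ∈ Finset.Ico (1 : ℤ) c,
        ∑ a ∈ Finset.Ico (1 : ℤ) b, T (b - a) (c - a) =
      ∑ d ∈ Finset.Icc (1 : ℤ) (H : ℤ), ∑ d' ∈ Finset.Ico (1 : ℤ) d, ((H : ℝ) - d) * T d' d := by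
  have h1 : ∀ d ∈ Finset.Icc (1 : ℤ) (H : ℤ), ∀ d' ∈ Finset.Ico (1 : ℤ) d,
      ((H : ℝ) - d) * T d' d = ∑ _a ∈ Finset.Icc (1 : ℤ) ((H : ℤ) - d), T d' d := by
    intro d hd d' _
    rw [Finset.mem_Icc] at hd
    rw [Finset.sum_const, Int.card_Icc, nsmul_eq_mul]
    congr 1
    have h2 : ((((H : ℤ) - d + 1 - 1).toNat : ℕ) : ℤ) = (H : ℤ) - d := by
      rw [Int.toNat_of_nonneg] <;> omega
    have h3 : ((((H : ℤ) - d + 1 - 1).toNat : ℕ) : ℝ) = ((((H : ℤ) - d + 1 - 1).toNat : ℤ) : ℝ) := by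
      rw [Int.cast_natCast]
    rw [h3, h2]
    push_cast
    ring
  rw [Finset.sum_congr rfl fun d hd => Finset.sum_congr rfl fun d' hd' => h1 d hd d' hd']
  simp only [Finset.sum_sigma']
  refine Finset.sum_nbij'
    (fun x : (_ : ℤ) × (_ : ℤ) × ℤ => ⟨x.1 - x.2.2, ⟨x.2.1 - x.2.2, x.2.2⟩⟩)
    (fun x : (_ : ℤ) × (_ : ℤ) × ℤ => ⟨x.1 + x.2.2, ⟨x.2.1 + x.2.2, x.2.2⟩⟩) ?_ ?_ ?_ ?_ ?_
  · rintro ⟨c, ⟨b, a⟩⟩ hx
    simp only [Finset.mem_sigma, Finset.mem_Icc, Finset.mem_Ico] at hx ⊢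
    omega
  · rintro ⟨c, ⟨b, a⟩⟩ hx
    simp only [Finset.mem_sigma, Finset.mem_Icc, Finset.mem_Ico] at hx ⊢
    omega
  · rintro ⟨c, ⟨b, a⟩⟩ _
    simp
  · rintro ⟨c, ⟨b, a⟩⟩ _
    simp
  · rintro ⟨c, ⟨b, a⟩⟩ _
    rfl

theorem Bg0 (N H : ℕ) (f : ℤ → ℝ) (B : ℝ) (hf : ∀ n, 0 ≤ f n) (hB : ∀ n, f n ≤ B)
    (hout : ∀ n : ℤ, n < 0 ∨ (N : ℤ) ≤ n → f n = 0) :
    ∑ n ∈ Finset.range (N + H), (nf (Finset.Icc 1 (H : ℤ)) f (n : ℤ)) ^ 3 ≤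
      6 * (∑ d ∈ Finset.Icc 1 (H : ℤ), ∑ d' ∈ Finset.Ico 1 d, ((H : ℝ) - d) *
        ∑ n ∈ Finset.range N, f (n : ℤ) * f ((n : ℤ) - d') * f ((n : ℤ) - d)) +
      3 * B * ∑ n ∈ Finset.range (N + H), (nf (Finset.Icc 1 (H : ℤ)) f (n : ℤ)) ^ 2 := by
  have h1 : ∀ n ∈ Finset.range (N + H), (nf (Finset.Icc 1 (H : ℤ)) f (n : ℤ)) ^ 3 ≤
      6 * (∑ c ∈ Finset.Icc (1 : ℤ) (H : ℤ), ∑ b ∈ Finset.Ico (1 : ℤ) c,
        ∑ a ∈ Finset.Ico (1 : ℤ) b, f ((n : ℤ) - a) * f ((n : ℤ) - b) * f ((n : ℤ) - c)) +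
      3 * B * (nf (Finset.Icc 1 (H : ℤ)) f (n : ℤ)) ^ 2 := by
    intro n _
    exact bg0_pt (fun a => f ((n : ℤ) - a)) B (fun a => hf _) (fun a => hB _) H
  refine le_trans (Finset.sum_le_sum h1) ?_
  rw [Finset.sum_add_distrib, ← Finset.mul_sum, ← Finset.mul_sum]
  refine add_le_add (le_of_eq ?_) le_rfl
  congr 1
  rw [Finset.sum_comm]
  have h2 : ∑ c ∈ Finset.Icc (1 : ℤ) (H : ℤ), ∑ n ∈ Finset.range (N + H),
      ∑ b ∈ Finset.Ico (1 : ℤ) c, ∑ a ∈ Finset.Ico (1 : ℤ) b,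
        f ((n : ℤ) - a) * f ((n : ℤ) - b) * f ((n : ℤ) - c) =
      ∑ c ∈ Finset.Icc (1 : ℤ) (H : ℤ), ∑ b ∈ Finset.Ico (1 : ℤ) c,
        ∑ a ∈ Finset.Ico (1 : ℤ) b, ∑ n ∈ Finset.range N,
          f (n : ℤ) * f ((n : ℤ) - (b - a)) * f ((n : ℤ) - (c - a)) := by
    refine Finset.sum_congr rfl fun c hc => ?_
    rw [Finset.sum_comm]
    refine Finset.sum_congr rfl fun b hb => ?_
    rw [Finset.sum_comm]
    refine Finset.sum_congr rfl fun a ha => ?_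
    rw [Finset.mem_Icc] at hc
    rw [Finset.mem_Ico] at hb ha
    rw [← bg0_shift N H (fun m => f m * f (m - (b - a)) * f (m - (c - a)))
      (fun m hm => by rw [hout m hm, zero_mul, zero_mul]) a (by omega) (by omega)]
    refine Finset.sum_congr rfl fun n _ => ?_
    have e1 : (n : ℤ) - a - (b - a) = (n : ℤ) - b := by ring
    have e2 : (n : ℤ) - a - (c - a) = (n : ℤ) - c := by ring
    rw [e1, e2]
  rw [h2]
  exact bg0_reindex H (fun d' d => ∑ n ∈ Finset.range N,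
    f (n : ℤ) * f ((n : ℤ) - d') * f ((n : ℤ) - d))

end Pool.Agent.H12.DM
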