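import Pool.Agent.H12.DM.Bb
import Pool.Agent.H12.DM.Bg0
import Pool.Agent.H12.DM.Mo

/-!
# Bg: the triples determine the third moment of the window count

`L = log x`, `N = ⌊x⌋₊ + 1`, `I = Icc 1 H`, `W ≤ L`, `T(d',d) = ∑_{n<N} La(n) La(n-d') La(n-d) ≥ 0`. We may assume `ε ≤ 1`. Let `r ≥ 2` be a natural number (`r ≥ 100/ε`).
By `Bg0` (`f = La x`, `B = L`; `La_le`, `La_out`) the third moment is at most
`6 ∑_{d∈I} ∑_{1≤d'<d} (H - d) T(d',d) + 3 L ∑_{rgH} (nf I La)^2`.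
* Second term: `(nf I La)^2 ≤ (H^4 + (nf I La)^4)/H^2`, so by `Mo4` the sum is `≤ (2 + C) N H^2` (`#rgH ≤ 2N`), the term is `≤ 3 (2+C) L N H^2 ≤ (3(2+C)/K) N H^3 ≤ (ε/4) N H^3` for `K` large.
* First term: let `q = ⌈H/r⌉` (`H ≥ L` large, so `q ≤ 2H/r` and `q ≤ H/r + 1`); block `j ∈ {0..r-1}`: `I_j = Ioc (j q) (min ((j+1) q) H)` (an interval in `I`, possibly empty: then use `Ioc u u`; so put `u_j = min (jq) H`, `I_j = Ioc u_j u_{j+1}`). For `d' < d`, `d' ∈ I_i`, `d ∈ I_j` we have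
  `i ≤ j` and `H - d ≤ H - u_j`. So the first term is `≤ 6 ∑_{i ≤ j < r} (H - u_j) ∑_{d'∈I_i} ∑_{d∈I_j} T(d',d)` (`T ≥ 0`), and
  `∑_{d'∈I_i} ∑_{d∈I_j} T(d',d) = ∑_{n<N} La nf I_i La nf I_j La ≤ N ∑_{d'∈I_i} ∑_{d∈I_j, ≠d'} sW{0,d',d} + δ N H^2 ≤ N (q + W)^2 + δ N H^2` (`TL`, `sW_sum2`). So the first term is
  `≤ 6 N (q+W)^2 ∑_{j<r} (j+1)(H - u_j) + 6 r^2 H δ N H^2`, `H - u_j ≤ H - j H/r = H (r-j)/r` (as `jq ≥ jH/r`), `∑_{j<r} (j+1)(r-j) = r(r+1)(r+2)/6`: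
  `≤ N (q+W)^2 H (r+1)(r+2) + 6 r^2 δ N H^3`. Here `q + W ≤ (H/r)(1 + η)` for `x` large (`W + 1 ≤ η H/r`, `W ≤ √L`), so this is `≤ N H^3 (1+η)^2 (1 + 1/r)(1 + 2/r) + 6 r^2 δ N H^3 ≤ (1 + ε/2) N H^3` for suitable `r`, `η`, then `δ`.
-/

set_option autoImplicit false

namespace Pool.Agent.H12.DM

open Finset Pool.Agent.H17 Pool.Agent.H6.MF Pool.Agent.H6.MB

lemma Bg_icc (H : ℕ) : Finset.Icc 1 (H : ℤ) = Finset.Ioc 0 (H : ℤ) := by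
  ext a
  rw [Finset.mem_Icc, Finset.mem_Ioc]
  omega

lemma Bg_blocks (u : ℕ → ℤ) (hu : Monotone u) (F : ℤ → ℝ) (m : ℕ) :
    ∑ d ∈ Finset.Ioc (u 0) (u m), F d
      = ∑ j ∈ Finset.range m, ∑ d ∈ Finset.Ioc (u j) (u (j + 1)), F d := by
  induction m with
  | zero => simp
  | succ m ih =>
    rw [Finset.sum_range_succ, ← ih, ← Finset.sum_union,
      Finset.Ioc_union_Ioc_eq_Ioc (hu (Nat.zero_le _)) (hu (Nat.le_succ _))]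
    rw [Finset.disjoint_left]
    intro a ha hb
    rw [Finset.mem_Ioc] at ha hb
    omega

lemma Bg_sumjr (R : ℝ) (m : ℕ) : ∑ j ∈ Finset.range m, ((j : ℝ) + 1) * (R - j)
    = R * m * (m + 1) / 2 - (m - 1) * m * (m + 1) / 3 := by
  induction m with
  | zero => simp
  | succ m ih =>
    rw [Finset.sum_range_succ, ih]
    push_cast
    ring

lemma Bg_T (N : ℕ) (f : ℤ → ℝ) (D' D : Finset ℤ) :
    ∑ d ∈ D, ∑ d' ∈ D', ∑ n ∈ Finset.range N, f (n : ℤ) * f ((n : ℤ) - d') * f ((n : ℤ) - d)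
      = ∑ n ∈ Finset.range N, f (n : ℤ) * nf D' f (n : ℤ) * nf D f (n : ℤ) := by
  have h1 : ∀ n : ℕ, f (n : ℤ) * nf D' f (n : ℤ) * nf D f (n : ℤ)
      = ∑ d ∈ D, ∑ d' ∈ D', f (n : ℤ) * f ((n : ℤ) - d') * f ((n : ℤ) - d) := by
    intro n
    unfold nf
    rw [Finset.mul_sum]
    apply Finset.sum_congr rfl
    intro d _
    rw [Finset.mul_sum, Finset.sum_mul]
  calc ∑ d ∈ D, ∑ d' ∈ D', ∑ n ∈ Finset.range N, f (n : ℤ) * f ((n : ℤ) - d') * f ((n : ℤ) - d)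
      = ∑ d ∈ D, ∑ n ∈ Finset.range N, ∑ d' ∈ D', f (n : ℤ) * f ((n : ℤ) - d') * f ((n : ℤ) - d) :=
        Finset.sum_congr rfl (fun d _ => Finset.sum_comm)
    _ = ∑ n ∈ Finset.range N, ∑ d ∈ D, ∑ d' ∈ D', f (n : ℤ) * f ((n : ℤ) - d') * f ((n : ℤ) - d) :=
        Finset.sum_comm
    _ = _ := Finset.sum_congr rfl (fun n _ => (h1 n).symm)

/-- one block -/
lemma Bg_block (x : ℝ) (hx : 1 ≤ x) (H r q j : ℕ) (hr : 1 ≤ r) (hj : j < r) (hq : (H : ℝ) ≤ (r : ℝ) * q) (δ : ℝ)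
    (hδ : 0 ≤ δ) (u : ℕ → ℤ) (hu : ∀ i, u i = ((min (i * q) H : ℕ) : ℤ))
    (hTL : ∀ D' D : Finset ℤ, D' ⊆ Finset.Icc 1 (H : ℤ) → D ⊆ Finset.Icc 1 (H : ℤ) → TL x H δ D' D) :
    ∑ d ∈ Finset.Ioc (u j) (u (j + 1)), ∑ d' ∈ Finset.Ico 1 d, ((H : ℝ) - d) *
        ∑ n ∈ Finset.range (⌊x⌋₊ + 1), La x (n : ℤ) * La x ((n : ℤ) - d') * La x ((n : ℤ) - d) ≤
      (((⌊x⌋₊ : ℝ) + 1) * ((q : ℝ) + (WW (yy x) : ℝ)) ^ 2 * ((H : ℝ) / r)) * (((j : ℝ) + 1) * ((r : ℝ) - j)) +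
        (H : ℝ) * (δ * ((⌊x⌋₊ : ℝ) + 1) * (H : ℝ) ^ 2) := by
  have hrR : (0 : ℝ) < r := by exact_mod_cast hr
  have hjR : (j : ℝ) ≤ r := by exact_mod_cast hj.le
  have hH0 : (0 : ℝ) ≤ H := Nat.cast_nonneg H
  have hW0 : (0 : ℝ) < (WW (yy x) : ℝ) := WW_pos_real _
  have hq0 : (0 : ℝ) ≤ q := Nat.cast_nonneg q
  have hN0 : (0 : ℝ) < (⌊x⌋₊ : ℝ) + 1 := by positivity
  -- the numbers `u j`, `u (j+1)`
  have huR : ∀ i, ((u i : ℤ) : ℝ) = min ((i : ℝ) * q) H := by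
    intro i
    rw [hu i]
    push_cast
    rfl
  have hu0 : ∀ i, 0 ≤ u i := fun i => by rw [hu i]; exact Int.natCast_nonneg _
  have huH : ∀ i, u i ≤ H := fun i => by rw [hu i]; exact_mod_cast min_le_right _ _
  have humono : u j ≤ u (j + 1) := by
    rw [hu, hu]
    exact_mod_cast min_le_min_right H (Nat.mul_le_mul_right q (Nat.le_succ j))
  have huj1 : ((u j : ℤ) : ℝ) ≤ H := by rw [huR]; exact min_le_right _ _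
  have huj2 : (j : ℝ) * H / r ≤ ((u j : ℤ) : ℝ) := by
    rw [huR, le_min_iff]
    constructor
    · rw [div_le_iff₀ hrR]
      have := mul_le_mul_of_nonneg_left hq (Nat.cast_nonneg (α := ℝ) j)
      linarith
    · rw [div_le_iff₀ hrR]
      have := mul_le_mul_of_nonneg_left hjR hH0
      linarith
  have huj3 : ((u (j + 1) : ℤ) : ℝ) ≤ ((j : ℝ) + 1) * q := by
    rw [huR]
    refine (min_le_left _ _).trans ?_
    push_cast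
    exact le_refl _
  have huj4 : ((u (j + 1) : ℤ) : ℝ) - ((u j : ℤ) : ℝ) ≤ q := by
    rw [huR, huR]
    rcases le_total ((j : ℝ) * q) H with h | h
    · rw [min_eq_left h]
      have h1 : min (((j + 1 : ℕ) : ℝ) * q) (H : ℝ) ≤ ((j + 1 : ℕ) : ℝ) * q := min_le_left _ _
      push_cast at h1 ⊢
      linarith
    · rw [min_eq_right h]
      have h1 : min (((j + 1 : ℕ) : ℝ) * q) (H : ℝ) ≤ (H : ℝ) := min_le_right _ _
      linarith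
  have hmonoR : ((u j : ℤ) : ℝ) ≤ ((u (j + 1) : ℤ) : ℝ) := by exact_mod_cast humono
  have hu1R : (0 : ℝ) ≤ ((u (j + 1) : ℤ) : ℝ) := by exact_mod_cast hu0 (j + 1)
  -- the sum
  have hT0 : ∀ d' d : ℤ, 0 ≤ ∑ n ∈ Finset.range (⌊x⌋₊ + 1), La x (n : ℤ) * La x ((n : ℤ) - d') * La x ((n : ℤ) - d) := by
    intro d' d
    apply Finset.sum_nonneg
    intro n _
    exact mul_nonneg (mul_nonneg (La_nonneg hx _) (La_nonneg hx _)) (La_nonneg hx _)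
  have h1 : ∑ d ∈ Finset.Ioc (u j) (u (j + 1)), ∑ d' ∈ Finset.Ico 1 d, ((H : ℝ) - d) *
        ∑ n ∈ Finset.range (⌊x⌋₊ + 1), La x (n : ℤ) * La x ((n : ℤ) - d') * La x ((n : ℤ) - d) ≤
      ((H : ℝ) - u j) * ∑ d ∈ Finset.Ioc (u j) (u (j + 1)), ∑ d' ∈ Finset.Ioc 0 (u (j + 1)),
        ∑ n ∈ Finset.range (⌊x⌋₊ + 1), La x (n : ℤ) * La x ((n : ℤ) - d') * La x ((n : ℤ) - d) := by
    rw [Finset.mul_sum]
    apply Finset.sum_le_sum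
    intro d hd
    rw [Finset.mem_Ioc] at hd
    rw [Finset.mul_sum]
    have hdu : ((u j : ℤ) : ℝ) ≤ (d : ℝ) := by exact_mod_cast hd.1.le
    calc ∑ d' ∈ Finset.Ico 1 d, ((H : ℝ) - d) *
          ∑ n ∈ Finset.range (⌊x⌋₊ + 1), La x (n : ℤ) * La x ((n : ℤ) - d') * La x ((n : ℤ) - d)
        ≤ ∑ d' ∈ Finset.Ico 1 d, ((H : ℝ) - u j) *
          ∑ n ∈ Finset.range (⌊x⌋₊ + 1), La x (n : ℤ) * La x ((n : ℤ) - d') * La x ((n : ℤ) - d) := by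
          apply Finset.sum_le_sum
          intro d' _
          exact mul_le_mul_of_nonneg_right (by linarith) (hT0 d' d)
      _ ≤ _ := by
          apply Finset.sum_le_sum_of_subset_of_nonneg
          · intro a ha
            rw [Finset.mem_Ico] at ha
            rw [Finset.mem_Ioc]
            omega
          · intro d' _ _
            exact mul_nonneg (by linarith) (hT0 d' d)
  refine h1.trans ?_
  rw [Bg_T]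
  have hsub1 : Finset.Ioc 0 (u (j + 1)) ⊆ Finset.Icc 1 (H : ℤ) := by
    intro a ha
    rw [Finset.mem_Ioc] at ha
    rw [Finset.mem_Icc]
    have := huH (j + 1)
    omega
  have hsub2 : Finset.Ioc (u j) (u (j + 1)) ⊆ Finset.Icc 1 (H : ℤ) := by
    intro a ha
    rw [Finset.mem_Ioc] at ha
    rw [Finset.mem_Icc]
    have := huH (j + 1)
    have := hu0 j
    omega
  have h2 := (abs_le.1 (hTL _ _ hsub1 hsub2)).2
  have h3 := sW_sum2 x 0 (u (j + 1)) (u j) (u (j + 1)) (hu0 _) le_rfl humono (hu0 _)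
  have h4 : ((u (j + 1) : ℝ) - ((0 : ℤ) : ℝ) + (WW (yy x) : ℝ)) * ((u (j + 1) : ℝ) - (u j : ℝ) + (WW (yy x) : ℝ))
      ≤ (((j : ℝ) + 1) * ((q : ℝ) + (WW (yy x) : ℝ))) * ((q : ℝ) + (WW (yy x) : ℝ)) := by
    have hj0 : (0 : ℝ) ≤ j := Nat.cast_nonneg j
    apply mul_le_mul
    · have : 0 ≤ (j : ℝ) * (WW (yy x) : ℝ) := by positivity
      push_cast
      linarith
    · linarith
    · linarith
    · positivity
  have h5 : ∑ n ∈ Finset.range (⌊x⌋₊ + 1), La x (n : ℤ) * nf (Finset.Ioc 0 (u (j + 1))) (La x) (n : ℤ) *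
      nf (Finset.Ioc (u j) (u (j + 1))) (La x) (n : ℤ) ≤
      ((⌊x⌋₊ : ℝ) + 1) * ((((j : ℝ) + 1) * ((q : ℝ) + (WW (yy x) : ℝ))) * ((q : ℝ) + (WW (yy x) : ℝ))) +
        δ * ((⌊x⌋₊ : ℝ) + 1) * (H : ℝ) ^ 2 := by
    have h6 := mul_le_mul_of_nonneg_left (h3.trans h4) hN0.le
    linarith
  have h7 : 0 ≤ (H : ℝ) - u j := by linarith
  have h8 : (H : ℝ) - u j ≤ (H : ℝ) / r * ((r : ℝ) - j) := by
    have : (H : ℝ) / r * ((r : ℝ) - j) = H - (j : ℝ) * H / r := by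
      field_simp
    linarith
  have h9 : (H : ℝ) - u j ≤ H := by
    have : (0 : ℝ) ≤ (u j : ℝ) := by exact_mod_cast hu0 j
    linarith
  have hA : 0 ≤ ((⌊x⌋₊ : ℝ) + 1) * ((((j : ℝ) + 1) * ((q : ℝ) + (WW (yy x) : ℝ))) * ((q : ℝ) + (WW (yy x) : ℝ))) := by
    positivity
  have hB : 0 ≤ δ * ((⌊x⌋₊ : ℝ) + 1) * (H : ℝ) ^ 2 := by positivity
  calc ((H : ℝ) - u j) * ∑ n ∈ Finset.range (⌊x⌋₊ + 1), La x (n : ℤ) * nf (Finset.Ioc 0 (u (j + 1))) (La x) (n : ℤ) *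
      nf (Finset.Ioc (u j) (u (j + 1))) (La x) (n : ℤ)
      ≤ ((H : ℝ) - u j) * (((⌊x⌋₊ : ℝ) + 1) * ((((j : ℝ) + 1) * ((q : ℝ) + (WW (yy x) : ℝ))) * ((q : ℝ) + (WW (yy x) : ℝ))) +
        δ * ((⌊x⌋₊ : ℝ) + 1) * (H : ℝ) ^ 2) := mul_le_mul_of_nonneg_left h5 h7
    _ = ((H : ℝ) - u j) * (((⌊x⌋₊ : ℝ) + 1) * ((((j : ℝ) + 1) * ((q : ℝ) + (WW (yy x) : ℝ))) * ((q : ℝ) + (WW (yy x) : ℝ)))) +
        ((H : ℝ) - u j) * (δ * ((⌊x⌋₊ : ℝ) + 1) * (H : ℝ) ^ 2) := by ring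
    _ ≤ ((H : ℝ) / r * ((r : ℝ) - j)) * (((⌊x⌋₊ : ℝ) + 1) * ((((j : ℝ) + 1) * ((q : ℝ) + (WW (yy x) : ℝ))) * ((q : ℝ) + (WW (yy x) : ℝ)))) +
        (H : ℝ) * (δ * ((⌊x⌋₊ : ℝ) + 1) * (H : ℝ) ^ 2) :=
        add_le_add (mul_le_mul_of_nonneg_right h8 hA) (mul_le_mul_of_nonneg_right h9 hB)
    _ = _ := by ring

/-- the first term -/
lemma Bg_first (x : ℝ) (hx : 1 ≤ x) (H r : ℕ) (hr : 1 ≤ r) (δ : ℝ) (hδ : 0 ≤ δ)
    (hTL : ∀ D' D : Finset ℤ, D' ⊆ Finset.Icc 1 (H : ℤ) → D ⊆ Finset.Icc 1 (H : ℤ) → TL x H δ D' D)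
    (hWr : (1 + (WW (yy x) : ℝ)) * (r : ℝ) ^ 2 ≤ H) :
    6 * ∑ d ∈ Finset.Icc 1 (H : ℤ), ∑ d' ∈ Finset.Ico 1 d, ((H : ℝ) - d) *
        ∑ n ∈ Finset.range (⌊x⌋₊ + 1), La x (n : ℤ) * La x ((n : ℤ) - d') * La x ((n : ℤ) - d) ≤
      ((1 + 1 / (r : ℝ)) ^ 3 * (1 + 2 / (r : ℝ)) + 6 * r * δ) * ((⌊x⌋₊ : ℝ) + 1) * (H : ℝ) ^ 3 := by
  set q : ℕ := H / r + 1 with hqd
  have hrR : (0 : ℝ) < r := by exact_mod_cast hr
  have hHr : H < r * q := Nat.lt_mul_div_succ H hr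
  have hq : (H : ℝ) ≤ (r : ℝ) * q := by exact_mod_cast hHr.le
  have hH0 : (0 : ℝ) ≤ H := Nat.cast_nonneg H
  have hN0 : (0 : ℝ) < (⌊x⌋₊ : ℝ) + 1 := by positivity
  have hW0 : (0 : ℝ) < (WW (yy x) : ℝ) := WW_pos_real _
  set u : ℕ → ℤ := fun i => ((min (i * q) H : ℕ) : ℤ) with hu
  have humono : Monotone u := by
    intro a b hab
    show ((min (a * q) H : ℕ) : ℤ) ≤ ((min (b * q) H : ℕ) : ℤ)
    exact_mod_cast min_le_min_right H (Nat.mul_le_mul_right q hab)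
  have hu0 : u 0 = 0 := by
    show ((min (0 * q) H : ℕ) : ℤ) = 0
    rw [Nat.zero_mul, Nat.zero_min]
    rfl
  have hur : u r = H := by
    show ((min (r * q) H : ℕ) : ℤ) = H
    rw [Nat.min_eq_right hHr.le]
  rw [Bg_icc]
  have e1 := Bg_blocks u humono (fun d => ∑ d' ∈ Finset.Ico 1 d, ((H : ℝ) - d) *
        ∑ n ∈ Finset.range (⌊x⌋₊ + 1), La x (n : ℤ) * La x ((n : ℤ) - d') * La x ((n : ℤ) - d)) r
  rw [hu0, hur] at e1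
  have e2 : ∑ j ∈ Finset.range r, ∑ d ∈ Finset.Ioc (u j) (u (j + 1)), ∑ d' ∈ Finset.Ico 1 d, ((H : ℝ) - d) *
        ∑ n ∈ Finset.range (⌊x⌋₊ + 1), La x (n : ℤ) * La x ((n : ℤ) - d') * La x ((n : ℤ) - d) ≤
      ∑ j ∈ Finset.range r, ((((⌊x⌋₊ : ℝ) + 1) * ((q : ℝ) + (WW (yy x) : ℝ)) ^ 2 * ((H : ℝ) / r)) *
        (((j : ℝ) + 1) * ((r : ℝ) - j)) + (H : ℝ) * (δ * ((⌊x⌋₊ : ℝ) + 1) * (H : ℝ) ^ 2)) := by
    apply Finset.sum_le_sum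
    intro j hj
    exact Bg_block x hx H r q j hr (Finset.mem_range.1 hj) hq δ hδ u (fun _ => rfl) hTL
  rw [Finset.sum_add_distrib, ← Finset.mul_sum, Bg_sumjr, Finset.sum_const, Finset.card_range, nsmul_eq_mul] at e2
  have hqr : (q : ℝ) ≤ (H : ℝ) / r + 1 := by
    rw [hqd]
    push_cast
    have := @Nat.cast_div_le ℝ _ _ _ H r
    linarith
  have hqW : (q : ℝ) + (WW (yy x) : ℝ) ≤ (H : ℝ) / r * (1 + 1 / r) := by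
    have h1 : 1 + (WW (yy x) : ℝ) ≤ (H : ℝ) / (r : ℝ) ^ 2 := by
      rw [le_div_iff₀ (by positivity)]
      exact hWr
    have h2 : (H : ℝ) / r * (1 + 1 / r) = (H : ℝ) / r + (H : ℝ) / (r : ℝ) ^ 2 := by
      field_simp
    linarith
  have hqW2 : ((q : ℝ) + (WW (yy x) : ℝ)) ^ 2 ≤ ((H : ℝ) / r * (1 + 1 / r)) ^ 2 :=
    pow_le_pow_left₀ (by positivity) hqW 2
  have e3 : 6 * ((((⌊x⌋₊ : ℝ) + 1) * ((q : ℝ) + (WW (yy x) : ℝ)) ^ 2 * ((H : ℝ) / r)) *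
      ((r : ℝ) * r * (r + 1) / 2 - (r - 1) * r * (r + 1) / 3)) =
      ((q : ℝ) + (WW (yy x) : ℝ)) ^ 2 * (((⌊x⌋₊ : ℝ) + 1) * H * ((r + 1) * (r + 2))) := by
    field_simp
    ring
  have e4 : ((H : ℝ) / r * (1 + 1 / r)) ^ 2 * (((⌊x⌋₊ : ℝ) + 1) * H * ((r + 1) * (r + 2))) =
      (1 + 1 / (r : ℝ)) ^ 3 * (1 + 2 / (r : ℝ)) * ((⌊x⌋₊ : ℝ) + 1) * (H : ℝ) ^ 3 := by
    field_simp
  have e5 : ((q : ℝ) + (WW (yy x) : ℝ)) ^ 2 * (((⌊x⌋₊ : ℝ) + 1) * H * ((r + 1) * (r + 2))) ≤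
      ((H : ℝ) / r * (1 + 1 / r)) ^ 2 * (((⌊x⌋₊ : ℝ) + 1) * H * ((r + 1) * (r + 2))) :=
    mul_le_mul_of_nonneg_right hqW2 (by positivity)
  have e6 : 6 * ((r : ℝ) * ((H : ℝ) * (δ * ((⌊x⌋₊ : ℝ) + 1) * (H : ℝ) ^ 2))) =
      6 * r * δ * ((⌊x⌋₊ : ℝ) + 1) * (H : ℝ) ^ 3 := by ring
  rw [e1]
  calc 6 * ∑ j ∈ Finset.range r, ∑ d ∈ Finset.Ioc (u j) (u (j + 1)), ∑ d' ∈ Finset.Ico 1 d, ((H : ℝ) - d) *
        ∑ n ∈ Finset.range (⌊x⌋₊ + 1), La x (n : ℤ) * La x ((n : ℤ) - d') * La x ((n : ℤ) - d)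
      ≤ 6 * ((((⌊x⌋₊ : ℝ) + 1) * ((q : ℝ) + (WW (yy x) : ℝ)) ^ 2 * ((H : ℝ) / r)) *
      ((r : ℝ) * r * (r + 1) / 2 - (r - 1) * r * (r + 1) / 3) +
        (r : ℝ) * ((H : ℝ) * (δ * ((⌊x⌋₊ : ℝ) + 1) * (H : ℝ) ^ 2))) :=
        mul_le_mul_of_nonneg_left e2 (by norm_num)
    _ ≤ _ := by
        rw [mul_add, e3, e6]
        have := e5.trans (le_of_eq e4)
        linarith

lemma Bg_event (r : ℕ) : ∃ X : ℝ, ∀ x : ℝ, X ≤ x → 1 ≤ x ∧ 1 ≤ Real.log x ∧ (Real.log x) ^ 2 ≤ x ∧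
    (1 + (WW (yy x) : ℝ)) * (r : ℝ) ^ 2 ≤ Real.log x := by
  have h1 : ∀ᶠ x : ℝ in Filter.atTop, 1 ≤ x := Filter.eventually_ge_atTop 1
  have h2 : ∀ᶠ x : ℝ in Filter.atTop, 1 ≤ Real.log x :=
    Real.tendsto_log_atTop.eventually_ge_atTop 1
  have h3 : ∀ᶠ x : ℝ in Filter.atTop, 4 * (r : ℝ) ^ 4 ≤ Real.log x :=
    Real.tendsto_log_atTop.eventually_ge_atTop _
  have h5 := (isLittleO_log_rpow_rpow_atTop (2 : ℝ) (s := 1) (by norm_num)).bound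
    (by norm_num : (0 : ℝ) < 1)
  obtain ⟨X, hX⟩ := Filter.eventually_atTop.1 (h1.and (h2.and (h3.and h5)))
  refine ⟨X, fun x hx => ?_⟩
  obtain ⟨g1, g2, g3, g5⟩ := hX x hx
  refine ⟨g1, g2, ?_, ?_⟩
  · rw [Real.norm_of_nonneg (by positivity), Real.norm_of_nonneg (by positivity)] at g5
    have g6 : Real.log x ^ (2 : ℝ) = Real.log x ^ 2 := by
      rw [← Real.rpow_natCast]
      norm_num
    rw [g6, Real.rpow_one, one_mul] at g5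
    exact g5
  · have hW1 : (1 : ℝ) ≤ (WW (yy x) : ℝ) := by exact_mod_cast WW_pos (yy x)
    have hW : (WW (yy x) : ℝ) ≤ Real.sqrt (Real.log x) := by
      refine le_trans ?_ (WW_yy_pow_le g2)
      exact le_self_pow₀ hW1 (by norm_num)
    have hs0 : 0 ≤ Real.sqrt (Real.log x) := Real.sqrt_nonneg _
    have hss : Real.sqrt (Real.log x) * Real.sqrt (Real.log x) = Real.log x :=
      Real.mul_self_sqrt (by linarith)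
    have hsr : 2 * (r : ℝ) ^ 2 ≤ Real.sqrt (Real.log x) := by
      apply Real.le_sqrt_of_sq_le
      calc (2 * (r : ℝ) ^ 2) ^ 2 = 4 * (r : ℝ) ^ 4 := by ring
        _ ≤ Real.log x := g3
    have hr2 : (0 : ℝ) ≤ (r : ℝ) ^ 2 := by positivity
    calc (1 + (WW (yy x) : ℝ)) * (r : ℝ) ^ 2 ≤ (2 * Real.sqrt (Real.log x)) * (r : ℝ) ^ 2 := by
          apply mul_le_mul_of_nonneg_right _ hr2
          linarith
      _ = Real.sqrt (Real.log x) * (2 * (r : ℝ) ^ 2) := by ring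
      _ ≤ Real.sqrt (Real.log x) * Real.sqrt (Real.log x) := mul_le_mul_of_nonneg_left hsr hs0
      _ = Real.log x := hss

theorem Bg (ε : ℝ) (hε : 0 < ε) : ∃ δ K X : ℝ, 0 < δ ∧ ∀ x : ℝ, X ≤ x → ∀ H : ℕ, K * Real.log x ≤ (H : ℝ) →
    (H : ℝ) ≤ (Real.log x) ^ 2 →
    (∀ D' D : Finset ℤ, D' ⊆ Finset.Icc 1 (H : ℤ) → D ⊆ Finset.Icc 1 (H : ℤ) → TL x H δ D' D) →
    ∑ n ∈ rgH x H, (nf (Finset.Icc 1 (H : ℤ)) (La x) (n : ℤ)) ^ 3 ≤ (1 + ε) * ((⌊x⌋₊ : ℝ) + 1) * (H : ℝ) ^ 3 := by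
  obtain ⟨C, X₁, hC, hMo⟩ := Mo4
  set e : ℝ := min ε 1 with he
  have he0 : 0 < e := lt_min hε one_pos
  have he1 : e ≤ 1 := min_le_right _ _
  have heε : e ≤ ε := min_le_left _ _
  obtain ⟨r, hr⟩ := exists_nat_ge (100 / e)
  have hr100 : (100 : ℝ) ≤ r := by
    refine le_trans ?_ hr
    rw [le_div_iff₀ he0]
    linarith
  have hrpos : (0 : ℝ) < r := by linarith
  have hr1 : 1 ≤ r := by exact_mod_cast (by linarith : (1 : ℝ) ≤ r)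
  have hre : 1 / (r : ℝ) ≤ e / 100 := by
    rw [div_le_iff₀ he0] at hr
    rw [div_le_div_iff₀ hrpos (by norm_num)]
    linarith
  obtain ⟨X₂, hX₂⟩ := Bg_event r
  refine ⟨e / (24 * r), 12 * (2 + C) / e, max X₁ X₂, by positivity, ?_⟩
  intro x hx H hH1 hH2 hTL
  obtain ⟨hx1, hL, hLx, hWr⟩ := hX₂ x ((le_max_right _ _).trans hx)
  have hLpos : 0 < Real.log x := by linarith
  have hK : 1 ≤ 12 * (2 + C) / e := by
    rw [le_div_iff₀ he0]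
    linarith
  have hHL : Real.log x ≤ H := by
    refine le_trans ?_ hH1
    exact le_mul_of_one_le_left hLpos.le hK
  have hH0 : (0 : ℝ) < H := by linarith
  have hN0 : (0 : ℝ) < (⌊x⌋₊ : ℝ) + 1 := by positivity
  have hmo := hMo x ((le_max_left _ _).trans hx) H hHL (by nlinarith [sq_nonneg (Real.log x)])
  have h1 := Bg0 (⌊x⌋₊ + 1) H (La x) (Real.log x) (fun n => La_nonneg hx1 n) (fun n => La_le hx1 n)
    (fun n hn => La_out (by linarith) hn)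
  have h2 := Bg_first x hx1 H r hr1 (e / (24 * r)) (by positivity) hTL (hWr.trans hHL)
  -- second term
  have h3 : ∑ n ∈ Finset.range (⌊x⌋₊ + 1 + H), (nf (Finset.Icc 1 (H : ℤ)) (La x) (n : ℤ)) ^ 2 ≤
      (2 + C) * ((⌊x⌋₊ : ℝ) + 1) * (H : ℝ) ^ 2 := by
    have h4 : ∀ n ∈ Finset.range (⌊x⌋₊ + 1 + H), (nf (Finset.Icc 1 (H : ℤ)) (La x) (n : ℤ)) ^ 2 ≤
        ((H : ℝ) ^ 4 + (nf (Finset.Icc 1 (H : ℤ)) (La x) (n : ℤ)) ^ 4) / (H : ℝ) ^ 2 := by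
      intro n _
      rw [le_div_iff₀ (by positivity)]
      nlinarith [sq_nonneg ((H : ℝ) ^ 2 - (nf (Finset.Icc 1 (H : ℤ)) (La x) (n : ℤ)) ^ 2),
        sq_nonneg ((H : ℝ) ^ 2), sq_nonneg ((nf (Finset.Icc 1 (H : ℤ)) (La x) (n : ℤ)) ^ 2)]
    refine (Finset.sum_le_sum h4).trans ?_
    rw [← Finset.sum_div, Finset.sum_add_distrib, Finset.sum_const, Finset.card_range, nsmul_eq_mul,
      div_le_iff₀ (by positivity)]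
    have h5 : (H : ℝ) ≤ (⌊x⌋₊ : ℝ) + 1 := by
      have := Nat.lt_floor_add_one x
      linarith
    have h6 : ((⌊x⌋₊ + 1 + H : ℕ) : ℝ) * (H : ℝ) ^ 4 ≤ 2 * ((⌊x⌋₊ : ℝ) + 1) * (H : ℝ) ^ 4 := by
      apply mul_le_mul_of_nonneg_right _ (by positivity)
      push_cast
      linarith
    have h7 : ∑ n ∈ Finset.range (⌊x⌋₊ + 1 + H), (nf (Finset.Icc 1 (H : ℤ)) (La x) (n : ℤ)) ^ 4 ≤
        C * ((⌊x⌋₊ : ℝ) + 1) * (H : ℝ) ^ 4 := hmo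
    calc ((⌊x⌋₊ + 1 + H : ℕ) : ℝ) * (H : ℝ) ^ 4 +
        ∑ n ∈ Finset.range (⌊x⌋₊ + 1 + H), (nf (Finset.Icc 1 (H : ℤ)) (La x) (n : ℤ)) ^ 4
        ≤ 2 * ((⌊x⌋₊ : ℝ) + 1) * (H : ℝ) ^ 4 + C * ((⌊x⌋₊ : ℝ) + 1) * (H : ℝ) ^ 4 := add_le_add h6 h7
      _ = (2 + C) * ((⌊x⌋₊ : ℝ) + 1) * (H : ℝ) ^ 2 * (H : ℝ) ^ 2 := by ring
  have h8 : 3 * Real.log x * ∑ n ∈ Finset.range (⌊x⌋₊ + 1 + H), (nf (Finset.Icc 1 (H : ℤ)) (La x) (n : ℤ)) ^ 2 ≤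
      e / 4 * ((⌊x⌋₊ : ℝ) + 1) * (H : ℝ) ^ 3 := by
    have h9 : 3 * Real.log x * ∑ n ∈ Finset.range (⌊x⌋₊ + 1 + H), (nf (Finset.Icc 1 (H : ℤ)) (La x) (n : ℤ)) ^ 2 ≤
        3 * Real.log x * ((2 + C) * ((⌊x⌋₊ : ℝ) + 1) * (H : ℝ) ^ 2) :=
      mul_le_mul_of_nonneg_left h3 (by positivity)
    refine h9.trans ?_
    have h10 : 3 * (2 + C) * Real.log x ≤ e / 4 * H := by
      have : e / 4 * (12 * (2 + C) / e * Real.log x) ≤ e / 4 * H := mul_le_mul_of_nonneg_left hH1 (by positivity)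
      have h11 : e / 4 * (12 * (2 + C) / e * Real.log x) = 3 * (2 + C) * Real.log x := by
        field_simp
        ring
      linarith
    calc 3 * Real.log x * ((2 + C) * ((⌊x⌋₊ : ℝ) + 1) * (H : ℝ) ^ 2)
        = (3 * (2 + C) * Real.log x) * (((⌊x⌋₊ : ℝ) + 1) * (H : ℝ) ^ 2) := by ring
      _ ≤ (e / 4 * H) * (((⌊x⌋₊ : ℝ) + 1) * (H : ℝ) ^ 2) := mul_le_mul_of_nonneg_right h10 (by positivity)
      _ = _ := by ring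
  have h12 : (1 + 1 / (r : ℝ)) ^ 3 * (1 + 2 / (r : ℝ)) ≤ 1 + e / 4 := by
    have ht : 2 / (r : ℝ) = 2 * (1 / r) := by ring
    rw [ht]
    set t : ℝ := 1 / (r : ℝ) with htd
    have ht0 : 0 < t := by positivity
    have ht1 : t ≤ 1 / 100 := by linarith
    have h13 : (1 + t) ^ 3 * (1 + 2 * t) ≤ 1 + 6 * t := by
      nlinarith [mul_pos ht0 ht0, mul_pos (mul_pos ht0 ht0) ht0, mul_pos (mul_pos (mul_pos ht0 ht0) ht0) ht0,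
        mul_le_mul_of_nonneg_left ht1 ht0.le, mul_le_mul_of_nonneg_left ht1 (mul_pos ht0 ht0).le,
        mul_le_mul_of_nonneg_left ht1 (mul_pos (mul_pos ht0 ht0) ht0).le]
    linarith
  have h14 : 6 * (r : ℝ) * (e / (24 * r)) = e / 4 := by
    field_simp
    ring
  have h15 : (1 + 1 / (r : ℝ)) ^ 3 * (1 + 2 / (r : ℝ)) + 6 * r * (e / (24 * r)) + e / 4 ≤ 1 + ε := by
    rw [h14]
    linarith
  calc ∑ n ∈ rgH x H, (nf (Finset.Icc 1 (H : ℤ)) (La x) (n : ℤ)) ^ 3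
      ≤ ((1 + 1 / (r : ℝ)) ^ 3 * (1 + 2 / (r : ℝ)) + 6 * r * (e / (24 * r))) * ((⌊x⌋₊ : ℝ) + 1) * (H : ℝ) ^ 3 +
        e / 4 * ((⌊x⌋₊ : ℝ) + 1) * (H : ℝ) ^ 3 := by
        refine h1.trans (add_le_add ?_ h8)
        exact h2
    _ = ((1 + 1 / (r : ℝ)) ^ 3 * (1 + 2 / (r : ℝ)) + 6 * r * (e / (24 * r)) + e / 4) * (((⌊x⌋₊ : ℝ) + 1) * (H : ℝ) ^ 3) := by ring
    _ ≤ (1 + ε) * (((⌊x⌋₊ : ℝ) + 1) * (H : ℝ) ^ 3) := mul_le_mul_of_nonneg_right h15 (by positivity)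
    _ = _ := by ring

end Pool.Agent.H12.DM
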