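import Pool.Agent.H12.DM.Bb
import Pool.Agent.H12.DM.Mp

/-!
# Bi: triples and the full window determine the pairs

`L = log x`, `N = ⌊x⌋₊ + 1`, `I = Icc 1 H`, `f = fB x = La - Mi`, `W ≤ √L`, `L ≤ H ≤ L^2`, `x` large, `D ⊆ I`; sums over `n < N` (`range N ⊆ rgH x H`). Let `P = ∑ La nf D La` and `A = ∑ La (nf I La)(nf D La)`.
* `nf I La n = H + nf I f n + (nf I Mi n - H)`, and for `La n ≠ 0` (`x^(1/4) < n ≤ x`, `H < x^(1/4)`) `|nf I Mi n - H| ≤ W` (`Mi_win`). So `|A - H P| ≤ |∑ La (nf I f)(nf D La)| + W P`. First: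
  `≤ (∑ La (nf I f)^2)^{1/2} (∑ La (nf I La)^2)^{1/2} ≤ (δ N H^2)^{1/2} (C N H^2)^{1/2}` (`SP x H δ I`, `Mo3`, `0 ≤ nf D La ≤ nf I La`); second: `P ≤ (∑ La)^{1/2} (∑ La (nf I La)^2)^{1/2} ≤ (2N)^{1/2} (C N H^2)^{1/2}`, `W P ≤ √L √(2C) N H ≤ (ε/8) N H^2`.
* `TL x H δ I D`: `|A - N ∑_{d'∈I} ∑_{d∈D, d≠d'} sW{0,d',d}| ≤ δ N H^2`. Exchange: `∑_{d'∈I} ∑_{d∈D.erase d'} = ∑_{d∈D} ∑_{d'∈I.erase d}`, and by `sW_sum3` it is within `2W ∑_{d∈D} sW{0,d} ≤ 2W (H + W) ≤ 4 W H` of `H ∑_{d∈D} sW{0,d}` (`sW_sum1`).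
So `|H P - N H ∑_{d∈D} sW{0,d}| ≤ (√(C δ) + ε/8 + δ + 4W/H) N H^2`; divide by `H`.
-/

set_option autoImplicit false

namespace Pool.Agent.H12.DM

open Finset Pool.Agent.H17 Pool.Agent.H6.MF Pool.Agent.H6.MB

theorem Bi (ε : ℝ) (hε : 0 < ε) : ∃ δ X : ℝ, 0 < δ ∧ ∀ x : ℝ, X ≤ x → ∀ H : ℕ, Real.log x ≤ (H : ℝ) →
    (H : ℝ) ≤ (Real.log x) ^ 2 → SP x H δ (Finset.Icc 1 (H : ℤ)) →
    ∀ D : Finset ℤ, D ⊆ Finset.Icc 1 (H : ℤ) → TL x H δ (Finset.Icc 1 (H : ℤ)) D → PL x H ε D := by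
  obtain ⟨C, X1, hC, hMo3⟩ := Mo3
  obtain ⟨X2, hMo1⟩ := Mo1
  obtain ⟨X3, hX3⟩ := Filter.eventually_atTop.1 Mo_event
  obtain ⟨X4, hX4⟩ := Filter.eventually_atTop.1
    (Real.tendsto_log_atTop.eventually_ge_atTop (((8 * (2 + C) + 32) / ε) ^ 2 + 1))
  obtain ⟨t, ht⟩ : ∃ t : ℝ, t = 4 * C / ε := ⟨_, rfl⟩
  have htpos : 0 < t := by rw [ht]; positivity
  have hδ0 : 0 < min (ε / (4 * t)) (ε / 8) := lt_min (by positivity) (by positivity)
  refine ⟨min (ε / (4 * t)) (ε / 8), max (max X1 X2) (max X3 X4), hδ0, ?_⟩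
  intro x hx H hH1 hH2 hSP D hD hTL
  generalize hδ : min (ε / (4 * t)) (ε / 8) = δ at hδ0 hSP hTL
  have hδ1 : δ ≤ ε / (4 * t) := by rw [← hδ]; exact min_le_left _ _
  have hδ2 : δ ≤ ε / 8 := by rw [← hδ]; exact min_le_right _ _
  have hx1 : X1 ≤ x := ((le_max_left _ _).trans (le_max_left _ _)).trans hx
  have hx2 : X2 ≤ x := ((le_max_right _ _).trans (le_max_left _ _)).trans hx
  have hx3 : X3 ≤ x := ((le_max_left _ _).trans (le_max_right _ _)).trans hx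
  have hx4 : X4 ≤ x := ((le_max_right _ _).trans (le_max_right _ _)).trans hx
  obtain ⟨h1x, hlog1, hlog4, _⟩ := hX3 x hx3
  have hLbig := hX4 x hx4
  have h3 := hMo3 x hx1 H hH1 hH2
  have h1 := hMo1 x hx2
  obtain ⟨N, hN⟩ : ∃ N : ℝ, N = (⌊x⌋₊ : ℝ) + 1 := ⟨_, rfl⟩
  have hNpos : 0 < N := by rw [hN]; positivity
  rw [← hN] at h3 h1
  have hHpos : (0 : ℝ) < H := by linarith
  have hH1' : (1 : ℝ) ≤ H := by linarith
  obtain ⟨W, hW⟩ : ∃ W : ℝ, W = (WW (yy x) : ℝ) := ⟨_, rfl⟩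
  have hW0 : 1 ≤ W := by
    rw [hW]
    exact_mod_cast WW_pos (yy x)
  have hWL : W ≤ Real.sqrt (Real.log x) := by
    have h := WW_yy_pow_le (x := x) hlog1
    rw [← hW] at h
    exact (le_self_pow₀ hW0 (by norm_num)).trans h
  obtain ⟨K, hK⟩ : ∃ K : ℝ, K = (8 * (2 + C) + 32) / ε := ⟨_, rfl⟩
  have hKpos : 0 < K := by rw [hK]; positivity
  rw [← hK] at hLbig
  have hsq : Real.sqrt (Real.log x) * Real.sqrt (Real.log x) = Real.log x :=
    Real.mul_self_sqrt (by linarith)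
  have hKs : K ≤ Real.sqrt (Real.log x) := Real.le_sqrt_of_sq_le (by linarith)
  have hKW : K * W ≤ H := by
    calc K * W ≤ Real.sqrt (Real.log x) * Real.sqrt (Real.log x) :=
          mul_le_mul hKs hWL (by linarith) (Real.sqrt_nonneg _)
      _ = Real.log x := hsq
      _ ≤ H := hH1
  have hKε : ε * K = 8 * (2 + C) + 32 := by
    rw [hK]
    field_simp
  have hWH : (8 * (2 + C) + 32) * W ≤ ε * H := by
    rw [← hKε]
    calc ε * K * W = ε * (K * W) := by ring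
      _ ≤ ε * H := mul_le_mul_of_nonneg_left hKW hε.le
  have hWleH : W ≤ H := by
    refine hWL.trans (le_trans ?_ hH1)
    rw [Real.sqrt_le_left (by linarith)]
    nlinarith
  obtain ⟨I, hI⟩ : ∃ I : Finset ℤ, I = Finset.Icc 1 (H : ℤ) := ⟨_, rfl⟩
  have hLa : ∀ n, 0 ≤ La x n := La_nonneg h1x
  obtain ⟨R, hR⟩ : ∃ R : Finset ℕ, R = Finset.range (⌊x⌋₊ + 1) := ⟨_, rfl⟩
  have hSP' : ∑ n ∈ R, La x (n : ℤ) * (nf I (fB x) (n : ℤ)) ^ 2 ≤ δ * N * (H : ℝ) ^ 2 := by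
    unfold SP at hSP
    rw [← hN, ← hI] at hSP
    refine le_trans (Finset.sum_le_sum_of_subset_of_nonneg ?_ fun n _ _ =>
      mul_nonneg (hLa _) (sq_nonneg _)) hSP
    intro n hn
    rw [hR, Finset.mem_range] at hn
    unfold rgH
    rw [Finset.mem_range]
    omega
  unfold TL at hTL
  rw [← hN, ← hI, ← hR] at hTL
  rw [← hR, ← hI] at h3
  rw [← hR] at h1
  rw [← hI] at hD
  -- the window of D is at most the window of I
  have hDI : ∀ n : ℤ, 0 ≤ nf D (La x) n ∧ nf D (La x) n ≤ nf I (La x) n := by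
    intro n
    refine ⟨nf_nonneg hLa n, ?_⟩
    unfold nf
    exact Finset.sum_le_sum_of_subset_of_nonneg hD fun d _ _ => hLa _
  obtain ⟨P, hP⟩ : ∃ P : ℝ, P = ∑ n ∈ R, La x (n : ℤ) * nf D (La x) (n : ℤ) := ⟨_, rfl⟩
  obtain ⟨A, hA⟩ : ∃ A : ℝ, A = ∑ n ∈ R, La x (n : ℤ) * nf I (La x) (n : ℤ) * nf D (La x) (n : ℤ) :=
    ⟨_, rfl⟩
  obtain ⟨S, hS⟩ : ∃ S : ℝ, S = ∑ d ∈ D, sW x {0, d} := ⟨_, rfl⟩
  have hP0 : 0 ≤ P := by
    rw [hP]
    exact Finset.sum_nonneg fun n _ => mul_nonneg (hLa _) (hDI _).1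
  -- bound for P
  have hPle : P ≤ (2 + C) * N * H := by
    have g1 : P ≤ ∑ n ∈ R, (La x (n : ℤ) * H + La x (n : ℤ) * (nf I (La x) (n : ℤ)) ^ 2 / H) := by
      rw [hP]
      refine Finset.sum_le_sum fun n _ => ?_
      have g2 : nf D (La x) (n : ℤ) ≤ H + (nf I (La x) (n : ℤ)) ^ 2 / H := by
        refine (hDI _).2.trans ?_
        have g3 : 0 ≤ nf I (La x) (n : ℤ) := nf_nonneg hLa _
        have g4 : (H : ℝ) + (nf I (La x) (n : ℤ)) ^ 2 / H - nf I (La x) (n : ℤ) =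
            ((H : ℝ) ^ 2 + (nf I (La x) (n : ℤ)) ^ 2 - nf I (La x) (n : ℤ) * H) / H := by
          field_simp
        have g5 : 0 ≤ ((H : ℝ) ^ 2 + (nf I (La x) (n : ℤ)) ^ 2 - nf I (La x) (n : ℤ) * H) / H := by
          refine div_nonneg ?_ hHpos.le
          nlinarith [sq_nonneg ((H : ℝ) - nf I (La x) (n : ℤ)), sq_nonneg ((H : ℝ) + nf I (La x) (n : ℤ))]
        linarith
      calc La x (n : ℤ) * nf D (La x) (n : ℤ) ≤ La x (n : ℤ) * (H + (nf I (La x) (n : ℤ)) ^ 2 / H) :=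
            mul_le_mul_of_nonneg_left g2 (hLa _)
        _ = _ := by ring
    rw [Finset.sum_add_distrib, ← Finset.sum_mul, ← Finset.sum_div] at g1
    have g2 : (∑ n ∈ R, La x (n : ℤ)) * (H : ℝ) ≤ 2 * N * H := mul_le_mul_of_nonneg_right h1 hHpos.le
    have g3 : (∑ n ∈ R, La x (n : ℤ) * (nf I (La x) (n : ℤ)) ^ 2) / (H : ℝ) ≤ C * N * H := by
      rw [div_le_iff₀ hHpos]
      refine h3.trans (le_of_eq ?_)
      ring
    calc P ≤ _ := g1
      _ ≤ 2 * N * H + C * N * H := add_le_add g2 g3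
      _ = _ := by ring
  -- A and H P
  have hAP : |A - H * P| ≤ ε / 8 * N * (H : ℝ) ^ 2 + ε / 8 * N * (H : ℝ) ^ 2 + W * P := by
    have g1 : A - H * P = ∑ n ∈ R, La x (n : ℤ) * (nf I (La x) (n : ℤ) - H) * nf D (La x) (n : ℤ) := by
      rw [hA, hP, Finset.mul_sum, ← Finset.sum_sub_distrib]
      refine Finset.sum_congr rfl fun n _ => ?_
      ring
    have g2 : ∀ n ∈ R, |La x (n : ℤ) * (nf I (La x) (n : ℤ) - H) * nf D (La x) (n : ℤ)| ≤
        t / 2 * (La x (n : ℤ) * (nf I (fB x) (n : ℤ)) ^ 2) +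
        1 / (2 * t) * (La x (n : ℤ) * (nf I (La x) (n : ℤ)) ^ 2) +
        W * (La x (n : ℤ) * nf D (La x) (n : ℤ)) := by
      intro n hn
      by_cases h0 : La x (n : ℤ) = 0
      · rw [h0]
        simp
      · have g3 : (H : ℤ) ≤ n ∧ (n : ℤ) ≤ ((⌊x⌋₊ + 1 : ℕ) : ℤ) := by
          unfold La at h0
          have g4 : isP (n : ℤ) ∧ x ^ (1 / 4 : ℝ) < ((n : ℤ) : ℝ) ∧ ((n : ℤ) : ℝ) ≤ x := by
            by_contra hc
            exact h0 (if_neg hc)
          refine ⟨?_, ?_⟩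
          · have g5 : (H : ℝ) ≤ ((n : ℤ) : ℝ) := by
              have g6 : (0 : ℝ) ≤ Real.log x ^ 2 := sq_nonneg _
              linarith [g4.2.1]
            exact_mod_cast g5
          · rw [hR, Finset.mem_range] at hn
            exact_mod_cast hn.le
        have g4 := Mi_win x H g3.1 g3.2
        rw [← hW, ← hI] at g4
        have g5 : nf I (La x) (n : ℤ) - H = nf I (fB x) (n : ℤ) + (nf I (Mi x) (n : ℤ) - H) := by
          have g6 : nf I (fB x) (n : ℤ) = nf I (La x) (n : ℤ) - nf I (Mi x) (n : ℤ) := by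
            unfold nf fB
            rw [Finset.sum_sub_distrib]
          rw [g6]
          ring
        obtain ⟨a, ha⟩ : ∃ a : ℝ, a = nf I (fB x) (n : ℤ) := ⟨_, rfl⟩
        obtain ⟨r, hr⟩ : ∃ r : ℝ, r = nf I (Mi x) (n : ℤ) - H := ⟨_, rfl⟩
        obtain ⟨u, hu⟩ : ∃ u : ℝ, u = nf D (La x) (n : ℤ) := ⟨_, rfl⟩
        obtain ⟨v, hv⟩ : ∃ v : ℝ, v = nf I (La x) (n : ℤ) := ⟨_, rfl⟩
        obtain ⟨l, hl⟩ : ∃ l : ℝ, l = La x (n : ℤ) := ⟨_, rfl⟩
        have hl0 : 0 ≤ l := by rw [hl]; exact hLa _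
        have hu0 : 0 ≤ u := by rw [hu]; exact (hDI _).1
        have huv : u ≤ v := by rw [hu, hv]; exact (hDI _).2
        rw [g5, ← ha, ← hr, ← hu, ← hv, ← hl]
        rw [← hr] at g4
        have g6 : |l * (a + r) * u| ≤ l * (|a| * u) + W * (l * u) := by
          rw [abs_mul, abs_mul, abs_of_nonneg hl0, abs_of_nonneg hu0]
          have g7 : |a + r| ≤ |a| + W := (abs_add_le _ _).trans (by linarith)
          calc l * |a + r| * u ≤ l * (|a| + W) * u :=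
                mul_le_mul_of_nonneg_right (mul_le_mul_of_nonneg_left g7 hl0) hu0
            _ = _ := by ring
        have g8 : |a| * u ≤ t / 2 * a ^ 2 + 1 / (2 * t) * v ^ 2 := by
          have g9 : |a| * u ≤ |a| * v := mul_le_mul_of_nonneg_left huv (abs_nonneg _)
          have g10 : t / 2 * a ^ 2 + 1 / (2 * t) * v ^ 2 - |a| * v = (t * |a| - v) ^ 2 / (2 * t) := by
            rw [← sq_abs a]
            field_simp
            ring
          have g11 : 0 ≤ (t * |a| - v) ^ 2 / (2 * t) := by positivity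
          linarith
        have g12 := mul_le_mul_of_nonneg_left g8 hl0
        have g13 : l * (t / 2 * a ^ 2 + 1 / (2 * t) * v ^ 2) =
            t / 2 * (l * a ^ 2) + 1 / (2 * t) * (l * v ^ 2) := by ring
        linarith
    have g3 : |A - H * P| ≤ t / 2 * ∑ n ∈ R, La x (n : ℤ) * (nf I (fB x) (n : ℤ)) ^ 2 +
        1 / (2 * t) * ∑ n ∈ R, La x (n : ℤ) * (nf I (La x) (n : ℤ)) ^ 2 + W * P := by
      rw [g1, hP, Finset.mul_sum, Finset.mul_sum, Finset.mul_sum, ← Finset.sum_add_distrib,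
        ← Finset.sum_add_distrib]
      exact (Finset.abs_sum_le_sum_abs _ _).trans (Finset.sum_le_sum g2)
    have g4 : t / 2 * ∑ n ∈ R, La x (n : ℤ) * (nf I (fB x) (n : ℤ)) ^ 2 ≤ ε / 8 * N * (H : ℝ) ^ 2 := by
      have g5 := mul_le_mul_of_nonneg_left hSP' (by positivity : (0 : ℝ) ≤ t / 2)
      refine g5.trans ?_
      have g6 : t / 2 * δ ≤ ε / 8 := by
        calc t / 2 * δ ≤ t / 2 * (ε / (4 * t)) := mul_le_mul_of_nonneg_left hδ1 (by positivity)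
          _ = ε / 8 := by
            field_simp
            norm_num
      calc t / 2 * (δ * N * (H : ℝ) ^ 2) = (t / 2 * δ) * (N * (H : ℝ) ^ 2) := by ring
        _ ≤ ε / 8 * (N * (H : ℝ) ^ 2) := mul_le_mul_of_nonneg_right g6 (by positivity)
        _ = _ := by ring
    have g5 : 1 / (2 * t) * ∑ n ∈ R, La x (n : ℤ) * (nf I (La x) (n : ℤ)) ^ 2 ≤
        ε / 8 * N * (H : ℝ) ^ 2 := by
      have g6 := mul_le_mul_of_nonneg_left h3 (by positivity : (0 : ℝ) ≤ 1 / (2 * t))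
      refine g6.trans (le_of_eq ?_)
      rw [ht]
      field_simp
      ring
    linarith
  -- the sum over triples
  obtain ⟨T, hT⟩ : ∃ T : ℝ, T = ∑ d' ∈ I, ∑ d ∈ D.erase d', sW x {0, d', d} := ⟨_, rfl⟩
  rw [← hT, ← hA] at hTL
  have hTS : |T - H * S| ≤ 2 * W * S := by
    have g1 : T = ∑ d ∈ D, ∑ d' ∈ I.erase d, sW x {0, d', d} := by
      rw [hT]
      refine Finset.sum_comm' fun a b => ?_
      rw [Finset.mem_erase, Finset.mem_erase]
      constructor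
      · rintro ⟨p1, p2, p3⟩
        exact ⟨⟨fun h => p2 h.symm, p1⟩, p3⟩
      · rintro ⟨⟨p1, p2⟩, p3⟩
        exact ⟨p2, fun h => p1 h.symm, p3⟩
    rw [g1, hS, Finset.mul_sum, Finset.mul_sum, ← Finset.sum_sub_distrib]
    refine (Finset.abs_sum_le_sum_abs _ _).trans (Finset.sum_le_sum fun d hd => ?_)
    have hd' : d ∈ Finset.Icc 1 (H : ℤ) := by
      rw [← hI]
      exact hD hd
    have g2 := sW_sum3 x H hd'
    rw [← hI, ← hW] at g2
    exact g2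
  have hS0 : 0 ≤ S := by
    rw [hS]
    exact Finset.sum_nonneg fun d _ => sW_nonneg _ _
  have hSle : S ≤ H + W := by
    have g1 := sW_sum1 x 0 (H : ℤ) (Int.natCast_nonneg H) le_rfl
    have g2 : Finset.Ioc 0 (H : ℤ) = I := by
      rw [hI]
      ext a
      rw [Finset.mem_Ioc, Finset.mem_Icc]
      omega
    rw [g2, ← hW] at g1
    have g3 : S ≤ ∑ d ∈ I, sW x {0, d} := by
      rw [hS]
      exact Finset.sum_le_sum_of_subset_of_nonneg hD fun d _ _ => sW_nonneg _ _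
    push_cast at g1
    linarith
  -- conclusion
  unfold PL
  rw [← hN, ← hR, ← hP, ← hS]
  have k1 : W * P ≤ W * ((2 + C) * N * H) := mul_le_mul_of_nonneg_left hPle (by linarith)
  have k2 : |N * (T - H * S)| ≤ N * (2 * W * (2 * H)) := by
    rw [abs_mul, abs_of_pos hNpos]
    refine mul_le_mul_of_nonneg_left (hTS.trans ?_) hNpos.le
    exact mul_le_mul_of_nonneg_left (by linarith) (by linarith)
  have k3 : (H : ℝ) * (P - N * S) = -(A - H * P) + (A - N * T) + N * (T - H * S) := by ring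
  have k4 : (H : ℝ) * |P - N * S| ≤ |A - H * P| + |A - N * T| + |N * (T - H * S)| := by
    calc (H : ℝ) * |P - N * S| = |(H : ℝ) * (P - N * S)| := by rw [abs_mul, abs_of_pos hHpos]
      _ = |-(A - H * P) + (A - N * T) + N * (T - H * S)| := by rw [k3]
      _ ≤ |-(A - H * P) + (A - N * T)| + |N * (T - H * S)| := abs_add_le _ _
      _ ≤ |-(A - H * P)| + |A - N * T| + |N * (T - H * S)| := by
          have := abs_add_le (-(A - H * P)) (A - N * T)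
          linarith
      _ = _ := by rw [abs_neg]
  have k5 : δ * N * (H : ℝ) ^ 2 ≤ ε / 8 * N * (H : ℝ) ^ 2 := by
    calc δ * N * (H : ℝ) ^ 2 = δ * (N * (H : ℝ) ^ 2) := by ring
      _ ≤ ε / 8 * (N * (H : ℝ) ^ 2) := mul_le_mul_of_nonneg_right hδ2 (by positivity)
      _ = _ := by ring
  have k6 : W * ((2 + C) * N * H) + N * (2 * W * (2 * H)) ≤ ε / 8 * N * (H : ℝ) ^ 2 := by
    have e1 : W * ((2 + C) * N * H) + N * (2 * W * (2 * H)) =
        (((8 * (2 + C) + 32) * W) * (N * H)) / 8 := by ring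
    rw [e1]
    have e2 : ((8 * (2 + C) + 32) * W) * (N * H) ≤ (ε * H) * (N * H) :=
      mul_le_mul_of_nonneg_right hWH (by positivity)
    have e3 : ε / 8 * N * (H : ℝ) ^ 2 = (ε * H) * (N * H) / 8 := by ring
    rw [e3]
    linarith
  have k7 : (H : ℝ) * |P - N * S| ≤ H * (ε * N * H) := by
    have e1 : 0 ≤ ε / 8 * N * (H : ℝ) ^ 2 := by positivity
    have e2 : (H : ℝ) * (ε * N * H) = 8 * (ε / 8 * N * (H : ℝ) ^ 2) := by ring
    rw [e2]
    linarith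
  exact le_of_mul_le_mul_left k7 hHpos

end Pool.Agent.H12.DM
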