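import Pool.Agent.H12.DM.Bd

/-!
# Bj: the three mean statements
-/

set_option autoImplicit false

namespace Pool.Agent.H12.DM

open Finset Pool.Agent.H17 Pool.Agent.H6.MF Pool.Agent.H6.MB

/-- Hardy-Littlewood for pairs in the mean over `d ∈ D`, for all `D ⊆ [1,H]` -/
def MeanPairs (x : ℝ) (H : ℕ) (δ : ℝ) : Prop :=
  ∀ D : Finset ℕ, D ⊆ Finset.Icc 1 H →
    |∑ d ∈ D, ((cnt x {0, (d : ℤ)} : ℝ) - sing {0, (d : ℤ)} * x / (Real.log x) ^ 2)|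
      ≤ δ * ((H : ℝ) * x / (Real.log x) ^ 2)

/-- Hardy-Littlewood for triples in the mean over `(d', d) ∈ D' × D`, for all `D', D ⊆ [1,H]` -/
def MeanTriples (x : ℝ) (H : ℕ) (δ : ℝ) : Prop :=
  ∀ D' D : Finset ℕ, D' ⊆ Finset.Icc 1 H → D ⊆ Finset.Icc 1 H →
    |∑ d' ∈ D', ∑ d ∈ D.erase d', ((cnt x {0, (d' : ℤ), (d : ℤ)} : ℝ)
        - sing {0, (d' : ℤ), (d : ℤ)} * x / (Real.log x) ^ 3)|
      ≤ δ * ((H : ℝ) ^ 2 * x / (Real.log x) ^ 3)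

/-- for all `D ⊆ [1,H]` and most `n ≤ x` the number of primes among `n - d`, `d ∈ D`, is the expected one -/
def Equi (x : ℝ) (H : ℕ) (δ : ℝ) : Prop :=
  ∀ D : Finset ℕ, D ⊆ Finset.Icc 1 H →
    ∑ n ∈ Finset.range (⌊x⌋₊ + 1),
      |((D.filter (fun d : ℕ => isP ((n : ℤ) - (d : ℤ)))).card : ℝ)
        - wp (yy x) / Real.log x * ((D.filter (fun d : ℕ => Int.gcd ((n : ℤ) - (d : ℤ)) (WW (yy x) : ℤ) = 1)).card : ℝ)|
      ≤ δ * ((H : ℝ) * x / Real.log x)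

end Pool.Agent.H12.DM
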