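import Pool.Agent.H12.DM.Bs
import Pool.Agent.H12.DM.Ga

/-!
# Bt: the averages of `|sing - sW|` are small

`L = log x`, `L ≤ H ≤ L^2`, `w = yy x → ∞`. We may take `y` fixed (depending on `ε`) and `x` large with `y ≤ w`, `6 ≤ w`.
For `a ≥ 0`, `g ≥ 1`, `η > 0`: `a (g - 1) ≤ η a^2 + (g-1)^2/(4η) ≤ η a^2 + (g^2 - 1)/η` (as `(g-1)^2 ≤ g^2 - 1`).

* `Bt2`: `cmp2`: `|sing - sW| ≤ (9/w) gf 1 d + η gf 1 d^2 + (1/η) (gf y d^2 - 1)`. `gf 1 d ≤ gf 1 d^2`, `∑_{d ≤ H} gf 1 d^2 ≤ C H` (`Ga1` with `y = 1`); `gf y d^2 ≤ ∏_{p ∣ d, p > y} (1 + (15^2-1)/p)` (`SMB_pow`, `t = 1/p`) and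
  `Ga0` with `B = 15^2 - 1` on `Ioc 0 H`: `∑ (gf y d^2 - 1) ≤ (C₀/y) H`. Choose `η = ε/(4(C+1))`, then `y` with `C₀/(η y) ≤ ε/4`, then `x` with `9 C/w ≤ ε/4`.
* `Bt3`: `cmp3` with `a = gf 1 d' gf 1 d gf 1 (d'-d)`, `g = gf y d' gf y d gf y (d'-d)`: `∑∑ a ≤ ∑∑ a^2 ≤ C H^2` by `Ga2` with `y = 1` (enlarge the range of `d'` to `(Icc (-H) H).erase 0`; `c = d`, `(Icc 1 H).erase d'`), and
  `g^2 - 1 ≤ ∑_δ (gf y δ^6 - 1)` over the three differences `δ` (for `x_i ≥ 1`: `x₁x₂x₃ ≤ max x_i^3`, so `x₁x₂x₃ - 1 ≤ ∑ (x_i^3 - 1)`, with `x_i = gf^2`), `gf y δ^6 ≤ ∏_{p ∣ δ, p > y} (1 + (15^6 - 1)/p)`; sum over `d'`, resp. `d`, resp.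
  for fixed `d'` over `d` (`d' - d` runs through distinct nonzero integers in `Ioc (d'-H-1) (d'-1)`): `Ga0` with `B = 15^6 - 1` gives `≤ (C₀/y) * H` each, times `H` values of the other variable.
-/

set_option autoImplicit false

namespace Pool.Agent.H12.DM

open Finset Pool.Agent.H17 Pool.Agent.H6.MF Pool.Agent.H6.MB

lemma Bt_pow (y : ℕ) (n : ℤ) (K : ℕ) :
    gf y n ^ K ≤ ∏ p ∈ n.natAbs.primeFactors.filter (fun p => y < p),
      (1 + ((1 + 14 : ℝ) ^ K - 1) / (p : ℝ)) := by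
  unfold gf
  rw [← Finset.prod_pow]
  refine Finset.prod_le_prod (fun p _ => by positivity) (fun p hp => ?_)
  have hp1 : (1 : ℝ) ≤ (p : ℝ) := by
    exact_mod_cast (Nat.prime_of_mem_primeFactors (Finset.mem_filter.1 hp).1).one_le
  have := SMB_pow 14 (by norm_num) K (t := 1 / (p : ℝ)) (by positivity)
    (by rw [div_le_one (by linarith)]; exact hp1)
  rw [mul_one_div, mul_one_div] at this
  exact this

lemma Bt_key : ∃ C : ℝ, 0 < C ∧ ∀ y : ℕ, 1 ≤ y → ∃ X : ℝ, ∀ x : ℝ, X ≤ x → ∀ H : ℕ,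
    Real.log x ≤ (H : ℝ) → (H : ℝ) ≤ (Real.log x) ^ 2 → 1 ≤ H ∧
    ∀ a ∈ Finset.Icc (0 : ℤ) (H : ℤ),
      ∑ k ∈ (Finset.Icc (1 : ℤ) (H : ℤ)).erase a, (gf y (k - a) ^ 6 - 1) ≤
        C / (y : ℝ) * (H : ℝ) := by
  obtain ⟨C, hC, hmain⟩ := Ga0 ((1 + 14) ^ 6 - 1) (by norm_num)
  refine ⟨3 * C, by positivity, ?_⟩
  intro y hy
  obtain ⟨X, hX⟩ := hmain y hy
  refine ⟨max X (Real.exp 3), ?_⟩
  intro x hx H hH1 hH2
  have hx0 : 0 < x := (Real.exp_pos _).trans_le ((le_max_right _ _).trans hx)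
  have hL : 3 ≤ Real.log x := (Real.le_log_iff_exp_le hx0).2 ((le_max_right _ _).trans hx)
  have hHR : (3 : ℝ) ≤ H := hL.trans hH1
  refine ⟨by exact_mod_cast (by linarith : (1 : ℝ) ≤ H), ?_⟩
  intro a ha
  have ha' := Finset.mem_Icc.1 ha
  have ha1 : (0 : ℝ) ≤ a := by exact_mod_cast ha'.1
  have ha2 : (a : ℝ) ≤ H := by exact_mod_cast ha'.2
  have hH3 : 3 * (H : ℝ) ≤ Real.log x ^ 3 := by
    have h0 : 0 ≤ Real.log x ^ 2 := by positivity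
    nlinarith
  have h1 := hX x ((le_max_left _ _).trans hx) (-(H : ℤ) - a - 1) (H - a) (by
      push_cast
      rw [abs_le]
      constructor <;> linarith) (by
      push_cast
      rw [abs_le]
      constructor <;> linarith) (by
      push_cast
      linarith)
  obtain ⟨F, hF⟩ : ∃ F : ℤ → ℝ, ∀ n, F n = ∏ p ∈ n.natAbs.primeFactors.filter (fun p => y < p),
      (1 + ((1 + 14 : ℝ) ^ 6 - 1) / (p : ℝ)) - 1 := ⟨_, fun _ => rfl⟩
  have hF0 : ∀ n, 0 ≤ F n := by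
    intro n
    have : (1 : ℝ) ≤ ∏ p ∈ n.natAbs.primeFactors.filter (fun p => y < p),
      (1 + ((1 + 14 : ℝ) ^ 6 - 1) / (p : ℝ)) := by
      refine Finset.one_le_prod fun p _ => ?_
      have : (0 : ℝ) ≤ ((1 + 14 : ℝ) ^ 6 - 1) / (p : ℝ) := by
        apply div_nonneg
        · norm_num
        · positivity
      linarith
    rw [hF]
    linarith
  have h2 : ∑ k ∈ (Finset.Icc (1 : ℤ) (H : ℤ)).erase a, (gf y (k - a) ^ 6 - 1) ≤
      ∑ n ∈ (Finset.Ioc (-(H : ℤ) - a - 1) (H - a)).erase 0, F n := by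
    calc ∑ k ∈ (Finset.Icc (1 : ℤ) (H : ℤ)).erase a, (gf y (k - a) ^ 6 - 1)
        ≤ ∑ k ∈ (Finset.Icc (1 : ℤ) (H : ℤ)).erase a, F (k - a) := by
          refine Finset.sum_le_sum fun k _ => ?_
          have := Bt_pow y (k - a) 6
          rw [hF]
          linarith
      _ = ∑ n ∈ ((Finset.Icc (1 : ℤ) (H : ℤ)).erase a).image (fun k => k - a), F n := by
          rw [Finset.sum_image]
          intro i _ j _ hij
          simpa using hij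
      _ ≤ _ := by
          refine Finset.sum_le_sum_of_subset_of_nonneg ?_ (fun i _ _ => hF0 i)
          intro n hn
          obtain ⟨k, hk, rfl⟩ := Finset.mem_image.1 hn
          rw [Finset.mem_erase, Finset.mem_Icc] at hk
          rw [Finset.mem_erase, Finset.mem_Ioc]
          refine ⟨sub_ne_zero.2 hk.1, ?_, ?_⟩ <;> omega
  rw [Finset.sum_congr rfl fun n _ => hF n] at h2
  refine h2.trans (h1.trans ?_)
  push_cast
  have h3 : ((H : ℝ) - a - (-(H : ℝ) - a - 1)) ≤ 3 * H := by linarith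
  have h4 : 0 ≤ C / (y : ℝ) := by positivity
  calc C / (y : ℝ) * ((H : ℝ) - a - (-(H : ℝ) - a - 1)) ≤ C / (y : ℝ) * (3 * H) :=
        mul_le_mul_of_nonneg_left h3 h4
    _ = _ := by ring

lemma Bt_am {a s η : ℝ} (hη : 0 < η) : a * s ≤ η * a ^ 2 + s ^ 2 / η := by
  have h1 := sq_nonneg (η * a - s)
  have h3 := sq_nonneg (η * a)
  have h4 := sq_nonneg s
  have h2 : η * (a * s) ≤ η * (η * a ^ 2 + s ^ 2 / η) := by
    have e : η * (η * a ^ 2 + s ^ 2 / η) = (η * a) ^ 2 + s ^ 2 := by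
      field_simp
    rw [e]
    nlinarith
  exact le_of_mul_le_mul_left h2 hη

lemma Bt_pt {a g η κ : ℝ} (ha : 1 ≤ a) (hg : 1 ≤ g) (hη : 0 < η) (hκ : 0 ≤ κ) :
    a * (κ + (g - 1)) ≤ (κ + η) * a ^ 2 + (g ^ 2 - 1) / η := by
  have h1 := Bt_am (a := a) (s := g - 1) hη
  have h2 : a * κ ≤ κ * a ^ 2 := by nlinarith [mul_nonneg hκ (mul_nonneg (sub_nonneg.2 ha) (zero_le_one.trans ha))]
  have h3 : (g - 1) ^ 2 / η ≤ (g ^ 2 - 1) / η := by
    apply div_le_div_of_nonneg_right _ hη.le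
    nlinarith
  nlinarith

lemma Bt_three {a b c : ℝ} (ha : 1 ≤ a) (hb : 1 ≤ b) (hc : 1 ≤ c) :
    (a * b * c) ^ 2 - 1 ≤ (a ^ 6 - 1) + (b ^ 6 - 1) + (c ^ 6 - 1) := by
  have h1 : ∀ m : ℝ, a ≤ m → b ≤ m → c ≤ m → (a * b * c) ^ 2 ≤ m ^ 6 := by
    intro m h1 h2 h3
    have hm : 0 ≤ m := by linarith
    calc (a * b * c) ^ 2 ≤ (m * m * m) ^ 2 := by gcongr
      _ = m ^ 6 := by ring
  have ha6 : 1 ≤ a ^ 6 := one_le_pow₀ ha
  have hb6 : 1 ≤ b ^ 6 := one_le_pow₀ hb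
  have hc6 : 1 ≤ c ^ 6 := one_le_pow₀ hc
  rcases le_total a b with hab | hab
  · rcases le_total b c with hbc | hbc
    · have := h1 c (hab.trans hbc) hbc le_rfl
      linarith
    · have := h1 b hab le_rfl hbc
      linarith
  · rcases le_total a c with hac | hac
    · have := h1 c hac (hab.trans hac) le_rfl
      linarith
    · have := h1 a le_rfl hab hac
      linarith

/-- the choice of the parameters -/
lemma Bt_par (ε C₁ C₀ : ℝ) (hε : 0 < ε) (hC₁ : 0 < C₁) (hC₀ : 0 < C₀) :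
    ∃ η : ℝ, 0 < η ∧ ∃ y : ℕ, 1 ≤ y ∧ ∃ w₀ : ℕ, 1 ≤ w₀ ∧ ∀ w : ℕ, w₀ ≤ w → 
      (9 / (w : ℝ) + η) * C₁ + (3 * (C₀ / (y : ℝ))) / η ≤ ε := by
  refine ⟨ε / (4 * C₁), by positivity, ?_⟩
  obtain ⟨y, hy⟩ := exists_nat_ge (3 * C₀ / (ε / (4 * C₁)) / (ε / 4))
  obtain ⟨w₀, hw₀⟩ := exists_nat_ge (9 * C₁ / (ε / 4))
  refine ⟨y + 1, by omega, w₀ + 1, by omega, ?_⟩
  intro w hw
  have hw1 : (w₀ : ℝ) + 1 ≤ w := by exact_mod_cast hw
  have hw0 : (0 : ℝ) < w := by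
    have : (0 : ℝ) ≤ w₀ := by positivity
    linarith
  have e1 : 9 / (w : ℝ) * C₁ ≤ ε / 4 := by
    rw [div_mul_eq_mul_div, div_le_iff₀ hw0]
    rw [div_le_iff₀ (by positivity)] at hw₀
    nlinarith
  have e2 : ε / (4 * C₁) * C₁ = ε / 4 := by
    field_simp
  have e3 : (3 * (C₀ / ((y + 1 : ℕ) : ℝ))) / (ε / (4 * C₁)) ≤ ε / 4 := by
    have h1 : (3 * (C₀ / ((y + 1 : ℕ) : ℝ))) / (ε / (4 * C₁)) =
        (3 * C₀ / (ε / (4 * C₁))) / ((y + 1 : ℕ) : ℝ) := by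
      have : ((y + 1 : ℕ) : ℝ) ≠ 0 := by positivity
      field_simp
    rw [h1, div_le_iff₀ (by positivity)]
    rw [div_le_iff₀ (by positivity)] at hy
    push_cast
    nlinarith
  have e4 : (9 / (w : ℝ) + ε / (4 * C₁)) * C₁ = 9 / (w : ℝ) * C₁ + ε / (4 * C₁) * C₁ := by ring
  rw [e4, e2]
  linarith

theorem Bt2 (ε : ℝ) (hε : 0 < ε) : ∃ X : ℝ, ∀ x : ℝ, X ≤ x → ∀ H : ℕ, Real.log x ≤ (H : ℝ) → (H : ℝ) ≤ (Real.log x) ^ 2 →
    ∑ d ∈ Finset.Icc (1 : ℤ) (H : ℤ), |sing {0, d} - sW x {0, d}| ≤ ε * (H : ℝ) := by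
  obtain ⟨C₀, hC₀, hkey⟩ := Bt_key
  obtain ⟨C₁, hC₁, hGa⟩ := Ga1
  obtain ⟨η, hη, y, hy, w₀, hw₀, hpar⟩ := Bt_par ε C₁ C₀ hε hC₁ hC₀
  obtain ⟨X₁, hX₁⟩ := hkey y hy
  obtain ⟨X₂, hX₂⟩ := hGa 1 le_rfl
  obtain ⟨X₃, hX₃⟩ := Filter.eventually_atTop.1 (tendsto_yy.eventually_ge_atTop (w₀ + y + 6))
  refine ⟨max X₁ (max X₂ X₃), ?_⟩
  intro x hx H hH1 hH2
  obtain ⟨h1, h2⟩ := hX₁ x ((le_max_left _ _).trans hx) H hH1 hH2
  have h3 := (hX₂ x (((le_max_left _ _).trans (le_max_right _ _)).trans hx) H hH1 hH2).2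
  have h4 := hX₃ x (((le_max_right _ _).trans (le_max_right _ _)).trans hx)
  have h5 := h2 0 (Finset.mem_Icc.2 ⟨le_rfl, by omega⟩)
  have h6 : (Finset.Icc (1 : ℤ) (H : ℤ)).erase 0 = Finset.Icc (1 : ℤ) (H : ℤ) :=
    Finset.erase_eq_of_notMem (by simp)
  rw [h6] at h5
  simp only [sub_zero] at h5
  have h7 := hpar (yy x) (by omega)
  have hκ : (0 : ℝ) ≤ 9 / (yy x : ℝ) := by positivity
  have hH : (0 : ℝ) < H := by exact_mod_cast h1
  calc ∑ d ∈ Finset.Icc (1 : ℤ) (H : ℤ), |sing {0, d} - sW x {0, d}|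
      ≤ ∑ d ∈ Finset.Icc (1 : ℤ) (H : ℤ),
        ((9 / (yy x : ℝ) + η) * gf 1 d ^ 2 + (gf y d ^ 6 - 1) / η) := by
        refine Finset.sum_le_sum fun d hd => ?_
        have hd0 : d ≠ 0 := by
          have := (Finset.mem_Icc.1 hd).1
          omega
        refine (cmp2 (by omega) (by omega) hd0).trans
          ((Bt_pt (one_le_gf 1 d) (one_le_gf y d) hη hκ).trans ?_)
        have h8 : gf y d ^ 2 ≤ gf y d ^ 6 := pow_le_pow_right₀ (one_le_gf y d) (by norm_num)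
        have h9 : (gf y d ^ 2 - 1) / η ≤ (gf y d ^ 6 - 1) / η :=
          div_le_div_of_nonneg_right (by linarith) hη.le
        linarith
    _ = (9 / (yy x : ℝ) + η) * ∑ d ∈ Finset.Icc (1 : ℤ) (H : ℤ), gf 1 d ^ 2 +
        (∑ d ∈ Finset.Icc (1 : ℤ) (H : ℤ), (gf y d ^ 6 - 1)) / η := by
        rw [Finset.sum_add_distrib, ← Finset.mul_sum, Finset.sum_div]
    _ ≤ (9 / (yy x : ℝ) + η) * (C₁ * H) + (C₀ / (y : ℝ) * H) / η := by
        have e1 := mul_le_mul_of_nonneg_left h3 (add_nonneg hκ hη.le)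
        have e2 := div_le_div_of_nonneg_right h5 hη.le
        linarith
    _ ≤ ((9 / (yy x : ℝ) + η) * C₁ + (3 * (C₀ / (y : ℝ))) / η) * H := by
        have e1 : (C₀ / (y : ℝ)) / η ≤ (3 * (C₀ / (y : ℝ))) / η := by
          apply div_le_div_of_nonneg_right _ hη.le
          have : 0 ≤ C₀ / (y : ℝ) := by positivity
          linarith
        have e2 := mul_le_mul_of_nonneg_right e1 hH.le
        have e3 : (C₀ / (y : ℝ) * H) / η = (C₀ / (y : ℝ)) / η * H := by ring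
        have e4 : (9 / (yy x : ℝ) + η) * (C₁ * H) = (9 / (yy x : ℝ) + η) * C₁ * H := by ring
        have e5 : ((9 / (yy x : ℝ) + η) * C₁ + (3 * (C₀ / (y : ℝ))) / η) * H =
          (9 / (yy x : ℝ) + η) * C₁ * H + (3 * (C₀ / (y : ℝ))) / η * H := by ring
        rw [e3, e4, e5]
        linarith
    _ ≤ ε * H := mul_le_mul_of_nonneg_right h7 hH.le

theorem Bt3 (ε : ℝ) (hε : 0 < ε) : ∃ X : ℝ, ∀ x : ℝ, X ≤ x → ∀ H : ℕ, Real.log x ≤ (H : ℝ) → (H : ℝ) ≤ (Real.log x) ^ 2 →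
    ∑ d' ∈ Finset.Icc (1 : ℤ) (H : ℤ), ∑ d ∈ (Finset.Icc (1 : ℤ) (H : ℤ)).erase d',
      |sing {0, d', d} - sW x {0, d', d}| ≤ ε * (H : ℝ) ^ 2 := by
  obtain ⟨C₀, hC₀, hkey⟩ := Bt_key
  obtain ⟨C₁, hC₁, hGa⟩ := Ga2
  obtain ⟨η, hη, y, hy, w₀, hw₀, hpar⟩ := Bt_par ε C₁ C₀ hε hC₁ hC₀
  obtain ⟨X₁, hX₁⟩ := hkey y hy
  obtain ⟨X₂, hX₂⟩ := hGa 1 le_rfl
  obtain ⟨X₃, hX₃⟩ := Filter.eventually_atTop.1 (tendsto_yy.eventually_ge_atTop (w₀ + y + 6))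
  refine ⟨max X₁ (max X₂ X₃), ?_⟩
  intro x hx H hH1 hH2
  obtain ⟨h1, h2⟩ := hX₁ x ((le_max_left _ _).trans hx) H hH1 hH2
  have h3 := hX₂ x (((le_max_left _ _).trans (le_max_right _ _)).trans hx) H hH1 hH2
  have h4 := hX₃ x (((le_max_right _ _).trans (le_max_right _ _)).trans hx)
  have h5 := h2 0 (Finset.mem_Icc.2 ⟨le_rfl, by omega⟩)
  have h6 : (Finset.Icc (1 : ℤ) (H : ℤ)).erase 0 = Finset.Icc (1 : ℤ) (H : ℤ) :=
    Finset.erase_eq_of_notMem (by simp)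
  rw [h6] at h5
  simp only [sub_zero] at h5
  have h7 := hpar (yy x) (by omega)
  have hκ : (0 : ℝ) ≤ 9 / (yy x : ℝ) := by positivity
  have hH : (0 : ℝ) < H := by exact_mod_cast h1
  obtain ⟨D, hD⟩ : ∃ D : ℝ, D = C₀ / (y : ℝ) * H := ⟨_, rfl⟩
  rw [← hD] at h5
  have hD0 : 0 ≤ D := by rw [hD]; positivity
  obtain ⟨g, hg⟩ : ∃ g : ℤ → ℝ, ∀ n, g n = gf y n ^ 6 - 1 := ⟨_, fun _ => rfl⟩
  have hg0 : ∀ n, 0 ≤ g n := fun n => by
    have : (1 : ℝ) ≤ gf y n ^ 6 := one_le_pow₀ (one_le_gf y n)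
    rw [hg]
    linarith
  obtain ⟨I, hI⟩ : ∃ I : Finset ℤ, I = Finset.Icc (1 : ℤ) (H : ℤ) := ⟨_, rfl⟩
  rw [← hI] at h5 ⊢
  have hIc : (I.card : ℝ) = H := by
    rw [hI, Int.card_Icc]
    simp
  have h5' : ∑ k ∈ I, g k ≤ D := by
    rw [Finset.sum_congr rfl fun n _ => hg n]
    exact h5
  -- the pointwise bound
  have hpt : ∀ d' ∈ I, ∀ d ∈ I.erase d', |sing {0, d', d} - sW x {0, d', d}| ≤
      (9 / (yy x : ℝ) + η) * (gf 1 d' * gf 1 d * gf 1 (d' - d)) ^ 2 +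
        (g d' + g d + g (d - d')) / η := by
    intro d' hd' d hd
    rw [hI, Finset.mem_Icc] at hd'
    rw [hI, Finset.mem_erase, Finset.mem_Icc] at hd
    have a1 := one_le_gf 1 d'
    have a2 := one_le_gf 1 d
    have a3 := one_le_gf 1 (d' - d)
    have b1 := one_le_gf y d'
    have b2 := one_le_gf y d
    have b3 := one_le_gf y (d' - d)
    have a4 := one_le_mul_of_one_le_of_one_le (one_le_mul_of_one_le_of_one_le a1 a2) a3
    have b4 := one_le_mul_of_one_le_of_one_le (one_le_mul_of_one_le_of_one_le b1 b2) b3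
    refine (cmp3 (by omega) (by omega) (by omega) (by omega) (by omega)).trans
      ((Bt_pt a4 b4 hη hκ).trans ?_)
    have c1 := div_le_div_of_nonneg_right (Bt_three b1 b2 b3) hη.le
    have c2 : gf y (d' - d) = gf y (d - d') := by
      rw [← gf_neg y (d - d'), neg_sub]
    rw [hg, hg, hg, ← c2]
    linarith
  -- the sums of `g`
  have hs : ∀ d' ∈ I, ∑ d ∈ I.erase d', (g d' + g d + g (d - d')) ≤ H * g d' + D + D := by
    intro d' hd'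
    rw [Finset.sum_add_distrib, Finset.sum_add_distrib, Finset.sum_const, nsmul_eq_mul]
    have c1 : ((I.erase d').card : ℝ) * g d' ≤ H * g d' := by
      apply mul_le_mul_of_nonneg_right _ (hg0 _)
      rw [← hIc]
      exact_mod_cast Finset.card_le_card (Finset.erase_subset _ _)
    have c2 : ∑ d ∈ I.erase d', g d ≤ D :=
      (Finset.sum_le_sum_of_subset_of_nonneg (Finset.erase_subset _ _) fun i _ _ => hg0 i).trans h5'
    have c3 : ∑ d ∈ I.erase d', g (d - d') ≤ D := by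
      rw [hI] at hd' ⊢
      have hd2 := Finset.mem_Icc.1 hd'
      have := h2 d' (Finset.mem_Icc.2 ⟨by omega, by omega⟩)
      rw [← hD] at this
      rw [Finset.sum_congr rfl fun n _ => hg (n - d')]
      exact this
    linarith
  have hA : ∑ d' ∈ I, ∑ d ∈ I.erase d', (gf 1 d' * gf 1 d * gf 1 (d' - d)) ^ 2 ≤
      C₁ * (H : ℝ) ^ 2 := by
    refine le_trans ?_ h3
    rw [← hI]
    refine Finset.sum_le_sum_of_subset_of_nonneg ?_ fun i _ _ =>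
      Finset.sum_nonneg fun j _ => sq_nonneg _
    intro n hn
    rw [hI, Finset.mem_Icc] at hn
    rw [Finset.mem_erase, Finset.mem_Icc]
    omega
  calc ∑ d' ∈ I, ∑ d ∈ I.erase d', |sing {0, d', d} - sW x {0, d', d}|
      ≤ ∑ d' ∈ I, ∑ d ∈ I.erase d',
        ((9 / (yy x : ℝ) + η) * (gf 1 d' * gf 1 d * gf 1 (d' - d)) ^ 2 +
        (g d' + g d + g (d - d')) / η) :=
        Finset.sum_le_sum fun d' hd' => Finset.sum_le_sum fun d hd => hpt d' hd' d hd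
    _ = (9 / (yy x : ℝ) + η) * (∑ d' ∈ I, ∑ d ∈ I.erase d',
          (gf 1 d' * gf 1 d * gf 1 (d' - d)) ^ 2) +
        (∑ d' ∈ I, ∑ d ∈ I.erase d', (g d' + g d + g (d - d'))) / η := by
        rw [Finset.mul_sum, Finset.sum_div, ← Finset.sum_add_distrib]
        refine Finset.sum_congr rfl fun d' _ => ?_
        rw [Finset.sum_add_distrib, ← Finset.mul_sum, Finset.sum_div]
    _ ≤ (9 / (yy x : ℝ) + η) * (C₁ * (H : ℝ) ^ 2) + (3 * (C₀ / (y : ℝ)) * (H : ℝ) ^ 2) / η := by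
        have e1 := mul_le_mul_of_nonneg_left hA (add_nonneg hκ hη.le)
        have e3 : ∑ d' ∈ I, ∑ d ∈ I.erase d', (g d' + g d + g (d - d')) ≤
            3 * (C₀ / (y : ℝ)) * (H : ℝ) ^ 2 := by
          refine (Finset.sum_le_sum hs).trans ?_
          rw [Finset.sum_add_distrib, Finset.sum_add_distrib, ← Finset.mul_sum, Finset.sum_const,
            nsmul_eq_mul, hIc]
          have c1 := mul_le_mul_of_nonneg_left h5' hH.le
          have c2 : 3 * (C₀ / (y : ℝ)) * (H : ℝ) ^ 2 = H * D + H * D + H * D := by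
            rw [hD]
            ring
          linarith
        have e2 := div_le_div_of_nonneg_right e3 hη.le
        linarith
    _ = ((9 / (yy x : ℝ) + η) * C₁ + (3 * (C₀ / (y : ℝ))) / η) * (H : ℝ) ^ 2 := by ring
    _ ≤ ε * (H : ℝ) ^ 2 := mul_le_mul_of_nonneg_right h7 (by positivity)

end Pool.Agent.H12.DM
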