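import Pool.Agent.H12.DM.Bj
import Pool.Agent.H12.DM.Bt
import Pool.Agent.H12.DM.Bb

/-!
# Bja (pairs): conversions between counts and sums of `La`

`L = log x`, `N = ⌊x⌋₊ + 1`, `φ = wp (yy x) ≤ W ≤ √L`, `L ≤ H ≤ L^2`, `x` large; `|N - x| ≤ 1`. A finset `D ⊆ Icc 1 H` of natural numbers corresponds to the finset `D.image (fun d => (d:ℤ)) ⊆ Icc 1 H` of integers, and conversely
(`D.image Int.toNat`); sums over `D` are equal.

* Pairs. For `d ∈ Icc 1 H`: `∑_{n<N} La(n) La(n-d) = L^2 #{n < N : n, n-d prime, n-d > x^(1/4)}` (`n > x^(1/4)` follows, `n ≤ x`), which differs from `L^2 * cnt x {0,d}` by at most `L^2 (x^(1/4)+1)` (at most `x^(1/4) + 1` values of `n` with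
  `0 < n - d ≤ x^(1/4)`). Sum over `d ∈ D`: `∑_n La nf D La` differs from `L^2 ∑_{d∈D} cnt x {0,d}` by `≤ H L^2 (x^(1/4)+1) ≤ ε' N H`. And `|N ∑_{d∈D} sW{0,d} - x ∑_{d∈D} sing{0,d}| ≤ N ∑ |sW - sing| + ∑ |sing| ≤ ε' N H + 3H` (`Bt2`, `sW_sum1`). So
  `PL` and `MeanPairs` imply each other with constants `δ = ε/2` (`x ≤ N ≤ 2x`), for `x` large (`L^2 * (H x/L^2) = H x`; for the direction to `PL`: `δ H x ≤ (ε/2) H N`).
-/

set_option autoImplicit false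

namespace Pool.Agent.H12.DM

open Finset Pool.Agent.H17 Pool.Agent.H6.MF Pool.Agent.H6.MB

theorem Bja_isP_pos {m : ℤ} (h : isP m) : 0 < m := by
  have h1 : 0 < m.toNat := Nat.Prime.pos h
  omega

theorem Bja_one {x : ℝ} (hx : 1 ≤ x) {d : ℤ} (hd : 1 ≤ d) :
    |∑ n ∈ Finset.range (⌊x⌋₊ + 1), La x (n : ℤ) * La x ((n : ℤ) - d)
      - (Real.log x) ^ 2 * (cnt x {0, d} : ℝ)| ≤ (Real.log x) ^ 2 * (x ^ (1 / 4 : ℝ) + 1) := by
  classical
  have hc : (cnt x {0, d} : ℝ) = ∑ n ∈ Finset.range (⌊x⌋₊ + 1),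
      (if isP (n : ℤ) ∧ isP ((n : ℤ) - d) then (1 : ℝ) else 0) := by
    have h1 : (Finset.range (⌊x⌋₊ + 1)).filter
        (fun n : ℕ => ∀ h ∈ ({0, d} : Finset ℤ), isP ((n : ℤ) - h)) =
        (Finset.range (⌊x⌋₊ + 1)).filter (fun n : ℕ => isP (n : ℤ) ∧ isP ((n : ℤ) - d)) :=
      Finset.filter_congr (fun n _ => by simp)
    rw [Finset.sum_boole]
    unfold cnt
    rw [h1]
  have hB : (((Finset.range (⌊x⌋₊ + 1)).filter (fun n : ℕ => isP (n : ℤ) ∧ isP ((n : ℤ) - d) ∧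
      (((n : ℤ) - d : ℤ) : ℝ) ≤ x ^ (1 / 4 : ℝ))).card : ℝ) ≤ x ^ (1 / 4 : ℝ) + 1 := by
    have hu : (0 : ℝ) ≤ x ^ (1 / 4 : ℝ) := Real.rpow_nonneg (by linarith) _
    have h1 : ((Finset.range (⌊x⌋₊ + 1)).filter (fun n : ℕ => isP (n : ℤ) ∧ isP ((n : ℤ) - d) ∧
        (((n : ℤ) - d : ℤ) : ℝ) ≤ x ^ (1 / 4 : ℝ))).card ≤
        (Finset.range (⌊x ^ (1 / 4 : ℝ)⌋₊ + 1)).card := by
      apply Finset.card_le_card_of_injOn (fun n : ℕ => ((n : ℤ) - d).toNat)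
      · intro n hn
        rw [Finset.mem_coe, Finset.mem_filter] at hn
        obtain ⟨_, _, h2, h3⟩ := hn
        rw [Finset.mem_coe, Finset.mem_range]
        apply Nat.lt_succ_of_le
        apply Nat.le_floor
        have h4 := Bja_isP_pos h2
        have h5 : ((((n : ℤ) - d).toNat : ℕ) : ℝ) = (((n : ℤ) - d : ℤ) : ℝ) := by
          have h6 : ((((n : ℤ) - d).toNat : ℕ) : ℤ) = (n : ℤ) - d := Int.toNat_of_nonneg h4.le
          exact_mod_cast congrArg (fun z : ℤ => (z : ℝ)) h6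
        show ((((n : ℤ) - d).toNat : ℕ) : ℝ) ≤ _
        rw [h5]
        exact h3
      · intro a ha b hb hab
        rw [Finset.mem_coe, Finset.mem_filter] at ha hb
        have h4 := Bja_isP_pos ha.2.2.1
        have h5 := Bja_isP_pos hb.2.2.1
        have h6 : ((a : ℤ) - d).toNat = ((b : ℤ) - d).toNat := hab
        omega
    rw [Finset.card_range] at h1
    have h2 : (((Finset.range (⌊x⌋₊ + 1)).filter (fun n : ℕ => isP (n : ℤ) ∧ isP ((n : ℤ) - d) ∧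
        (((n : ℤ) - d : ℤ) : ℝ) ≤ x ^ (1 / 4 : ℝ))).card : ℝ) ≤
        ((⌊x ^ (1 / 4 : ℝ)⌋₊ + 1 : ℕ) : ℝ) := by exact_mod_cast h1
    rw [Nat.cast_add, Nat.cast_one] at h2
    have h3 := Nat.floor_le hu
    linarith
  have hterm : ∀ n ∈ Finset.range (⌊x⌋₊ + 1), La x (n : ℤ) * La x ((n : ℤ) - d) =
      (Real.log x) ^ 2 * (if isP (n : ℤ) ∧ isP ((n : ℤ) - d) then (1 : ℝ) else 0) -
      (Real.log x) ^ 2 * (if isP (n : ℤ) ∧ isP ((n : ℤ) - d) ∧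
        (((n : ℤ) - d : ℤ) : ℝ) ≤ x ^ (1 / 4 : ℝ) then (1 : ℝ) else 0) := by
    intro n hn
    have hnx : ((n : ℤ) : ℝ) ≤ x := by
      rw [Finset.mem_range] at hn
      have h1 : n ≤ ⌊x⌋₊ := by omega
      have h2 : (n : ℝ) ≤ ⌊x⌋₊ := by exact_mod_cast h1
      have h3 := Nat.floor_le (show 0 ≤ x by linarith)
      have h4 : ((n : ℤ) : ℝ) = (n : ℝ) := Int.cast_natCast n
      rw [h4]
      linarith
    have hd' : (1 : ℝ) ≤ d := by exact_mod_cast hd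
    have hsub : (((n : ℤ) - d : ℤ) : ℝ) = ((n : ℤ) : ℝ) - (d : ℝ) := Int.cast_sub _ _
    have hndx : (((n : ℤ) - d : ℤ) : ℝ) ≤ x := by rw [hsub]; linarith
    by_cases h1 : isP (n : ℤ)
    · by_cases h2 : isP ((n : ℤ) - d)
      · by_cases h3 : (((n : ℤ) - d : ℤ) : ℝ) ≤ x ^ (1 / 4 : ℝ)
        · have e1 : La x ((n : ℤ) - d) = 0 := by
            unfold La
            exact if_neg (fun h => absurd h.2.1 (not_lt.2 h3))
          rw [e1, if_pos ⟨h1, h2⟩, if_pos ⟨h1, h2, h3⟩]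
          ring
        · rw [not_le] at h3
          have e1 : La x ((n : ℤ) - d) = Real.log x := by
            unfold La
            exact if_pos ⟨h2, h3, hndx⟩
          have e2 : La x (n : ℤ) = Real.log x := by
            unfold La
            exact if_pos ⟨h1, by rw [hsub] at h3; linarith, hnx⟩
          rw [e1, e2, if_pos ⟨h1, h2⟩, if_neg (fun h => absurd h.2.2 (not_le.2 h3))]
          ring
      · have e1 : La x ((n : ℤ) - d) = 0 := by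
          unfold La
          exact if_neg (fun h => h2 h.1)
        rw [e1, if_neg (fun h => h2 h.2), if_neg (fun h => h2 h.2.1)]
        ring
    · have e1 : La x (n : ℤ) = 0 := by
        unfold La
        exact if_neg (fun h => h1 h.1)
      rw [e1, if_neg (fun h => h1 h.1), if_neg (fun h => h1 h.1)]
      ring
  rw [Finset.sum_congr rfl hterm, Finset.sum_sub_distrib, ← Finset.mul_sum, ← Finset.mul_sum, ← hc,
    Finset.sum_boole]
  have hL2 : (0 : ℝ) ≤ (Real.log x) ^ 2 := sq_nonneg _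
  rw [sub_sub_cancel_left, abs_neg, abs_of_nonneg (mul_nonneg hL2 (Nat.cast_nonneg _))]
  exact mul_le_mul_of_nonneg_left hB hL2

theorem Bja_key (ε : ℝ) (hε : 0 < ε) : ∃ X : ℝ, ∀ x : ℝ, X ≤ x → 1 ≤ x ∧ 1 ≤ Real.log x ∧
    ∀ H : ℕ, Real.log x ≤ (H : ℝ) → (H : ℝ) ≤ (Real.log x) ^ 2 →
    ∀ D : Finset ℤ, D ⊆ Finset.Icc 1 (H : ℤ) →
    |(∑ n ∈ Finset.range (⌊x⌋₊ + 1), La x (n : ℤ) * nf D (La x) (n : ℤ)
      - ((⌊x⌋₊ : ℝ) + 1) * ∑ d ∈ D, sW x {0, d}) -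
      ((Real.log x) ^ 2 * ∑ d ∈ D, (cnt x {0, d} : ℝ) - x * ∑ d ∈ D, sing {0, d})|
        ≤ ε * (x * (H : ℝ)) := by
  obtain ⟨ε', hε', hε1, hε2⟩ : ∃ ε' : ℝ, 0 < ε' ∧ ε' ≤ ε / 8 ∧ ε' ≤ 1 :=
    ⟨min (ε / 8) 1, lt_min (by positivity) one_pos, min_le_left _ _, min_le_right _ _⟩
  obtain ⟨X1, hX1⟩ := Bt2 ε' hε'
  have e1 : ∀ᶠ x : ℝ in Filter.atTop, 1 ≤ Real.log x :=
    Real.tendsto_log_atTop.eventually_ge_atTop 1
  have e2 : ∀ᶠ x : ℝ in Filter.atTop, (Real.log x) ^ 2 ≤ ε / 8 * x ^ (3 / 4 : ℝ) := by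
    have h3 := (isLittleO_log_rpow_rpow_atTop (2 : ℝ)
      (s := 3 / 4) (by norm_num)).tendsto_div_nhds_zero
    filter_upwards [h3.eventually_lt_const (show (0 : ℝ) < ε / 8 by positivity),
      Filter.eventually_gt_atTop 0] with x h1 h2
    rw [div_lt_iff₀ (Real.rpow_pos_of_pos h2 _), Real.rpow_two] at h1
    exact h1.le
  obtain ⟨X, hX⟩ := Filter.eventually_atTop.1 (e1.and (e2.and ((Filter.eventually_ge_atTop 1).and
    ((Filter.eventually_ge_atTop X1).and (Filter.eventually_ge_atTop (12 / ε))))))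
  refine ⟨X, fun x hx => ?_⟩
  obtain ⟨hL, h2, hx1, hxX1, hx12⟩ := hX x hx
  refine ⟨hx1, hL, fun H hH1 hH2 D hD => ?_⟩
  have hx0 : (0 : ℝ) < x := by linarith
  have hH0 : (1 : ℝ) ≤ H := by linarith
  have hA : ∑ n ∈ Finset.range (⌊x⌋₊ + 1), La x (n : ℤ) * nf D (La x) (n : ℤ) =
      ∑ d ∈ D, ∑ n ∈ Finset.range (⌊x⌋₊ + 1), La x (n : ℤ) * La x ((n : ℤ) - d) := by
    unfold nf
    simp_rw [Finset.mul_sum]
    exact Finset.sum_comm
  have hu1 : (1 : ℝ) ≤ x ^ (1 / 4 : ℝ) := Real.one_le_rpow hx1 (by norm_num)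
  have hA2 : |∑ d ∈ D, ∑ n ∈ Finset.range (⌊x⌋₊ + 1), La x (n : ℤ) * La x ((n : ℤ) - d)
      - (Real.log x) ^ 2 * ∑ d ∈ D, (cnt x {0, d} : ℝ)| ≤
        (H : ℝ) * ((Real.log x) ^ 2 * (x ^ (1 / 4 : ℝ) + 1)) := by
    rw [Finset.mul_sum, ← Finset.sum_sub_distrib]
    refine (Finset.abs_sum_le_sum_abs _ _).trans ?_
    refine (Finset.sum_le_card_nsmul D _ _
      fun d hd => Bja_one hx1 (Finset.mem_Icc.1 (hD hd)).1).trans ?_
    rw [nsmul_eq_mul]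
    apply mul_le_mul_of_nonneg_right
    · have h3 := Finset.card_le_card hD
      rw [Int.card_Icc] at h3
      have h4 : D.card ≤ H := by omega
      exact_mod_cast h4
    · positivity
  have hA3 : (H : ℝ) * ((Real.log x) ^ 2 * (x ^ (1 / 4 : ℝ) + 1)) ≤ ε / 4 * (x * H) := by
    have h3 : (Real.log x) ^ 2 * (x ^ (1 / 4 : ℝ) + 1) ≤ ε / 4 * x := by
      calc (Real.log x) ^ 2 * (x ^ (1 / 4 : ℝ) + 1)
          ≤ (ε / 8 * x ^ (3 / 4 : ℝ)) * (2 * x ^ (1 / 4 : ℝ)) :=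
            mul_le_mul h2 (by linarith) (by linarith) (by positivity)
        _ = ε / 4 * (x ^ (3 / 4 : ℝ) * x ^ (1 / 4 : ℝ)) := by ring
        _ = ε / 4 * x := by
          rw [← Real.rpow_add hx0]
          norm_num
    have h4 := mul_le_mul_of_nonneg_left h3 (show (0 : ℝ) ≤ H by linarith)
    linarith
  have hdiff : ∀ D' : Finset ℤ, D' ⊆ Finset.Icc 1 (H : ℤ) →
      |∑ d ∈ D', sing {0, d} - ∑ d ∈ D', sW x {0, d}| ≤ ε' * H := by
    intro D' hD'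
    rw [← Finset.sum_sub_distrib]
    refine (Finset.abs_sum_le_sum_abs _ _).trans ?_
    refine le_trans ?_ (hX1 x hxX1 H hH1 hH2)
    exact Finset.sum_le_sum_of_subset_of_nonneg hD' fun _ _ _ => abs_nonneg _
  have hsing0 : 0 ≤ ∑ d ∈ D, sing {0, d} := Finset.sum_nonneg fun _ _ => sing_nonneg _
  have hsing1 : ∑ d ∈ D, sing {0, d} ≤ 3 * H := by
    have h3 : ∑ d ∈ D, sing {0, d} ≤ ∑ d ∈ Finset.Icc 1 (H : ℤ), sing {0, d} :=
      Finset.sum_le_sum_of_subset_of_nonneg hD fun _ _ _ => sing_nonneg _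
    have h4 := (abs_le.1 (hdiff _ (Finset.Subset.refl _))).2
    have h5 := sW_sum1 x 0 (H : ℤ) (Int.natCast_nonneg H) le_rfl
    have h6 : Finset.Ioc 0 (H : ℤ) = Finset.Icc 1 (H : ℤ) := by
      ext z
      rw [Finset.mem_Ioc, Finset.mem_Icc]
      omega
    rw [h6] at h5
    have h7 : (WW (yy x) : ℝ) ≤ H := by
      have h8 := WW_yy_pow_le (x := x) hL
      have hW1 : (1 : ℝ) ≤ (WW (yy x) : ℝ) := by exact_mod_cast WW_pos (yy x)
      have h9 : (WW (yy x) : ℝ) ≤ (WW (yy x) : ℝ) ^ 34 := le_self_pow₀ hW1 (by norm_num)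
      have h10 : Real.sqrt (Real.log x) ≤ Real.log x := by
        rw [Real.sqrt_le_left (by linarith)]
        nlinarith
      linarith
    have h11 : ε' * (H : ℝ) ≤ 1 * H := mul_le_mul_of_nonneg_right hε2 (by linarith)
    push_cast at h5
    linarith
  have hfl1 := Nat.floor_le hx0.le
  have hfl2 := Nat.lt_floor_add_one x
  have h3 := hdiff D hD
  set A := ∑ d ∈ D, ∑ n ∈ Finset.range (⌊x⌋₊ + 1), La x (n : ℤ) * La x ((n : ℤ) - d) with hAdef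
  set C := ∑ d ∈ D, (cnt x {0, d} : ℝ) with hCdef
  set S := ∑ d ∈ D, sing {0, d} with hSdef
  set T := ∑ d ∈ D, sW x {0, d} with hTdef
  set N : ℝ := (⌊x⌋₊ : ℝ) with hNdef
  have h4 : |(N + 1) * (S - T)| ≤ ε / 4 * (x * H) := by
    rw [abs_mul, abs_of_nonneg (by linarith : (0 : ℝ) ≤ N + 1)]
    calc (N + 1) * |S - T| ≤ (2 * x) * (ε' * H) :=
          mul_le_mul (by linarith) h3 (abs_nonneg _) (by linarith)
      _ ≤ (2 * x) * (ε / 8 * H) := by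
          apply mul_le_mul_of_nonneg_left _ (by linarith)
          exact mul_le_mul_of_nonneg_right hε1 (by linarith)
      _ = ε / 4 * (x * H) := by ring
  have h5 : |(x - (N + 1)) * S| ≤ ε / 4 * (x * H) := by
    rw [abs_mul, abs_of_nonneg hsing0]
    have h6 : |x - (N + 1)| ≤ 1 := by
      rw [abs_le]
      constructor <;> linarith
    have h7 : (3 : ℝ) ≤ ε / 4 * x := by
      rw [div_le_iff₀ hε] at hx12
      linarith
    calc |x - (N + 1)| * S ≤ 1 * (3 * H) := mul_le_mul h6 hsing1 hsing0 (by norm_num)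
      _ = 3 * H := one_mul _
      _ ≤ (ε / 4 * x) * H := mul_le_mul_of_nonneg_right h7 (by linarith)
      _ = ε / 4 * (x * H) := by ring
  rw [hA]
  have h6 : (A - (N + 1) * T) - ((Real.log x) ^ 2 * C - x * S) =
      (A - (Real.log x) ^ 2 * C) + (N + 1) * (S - T) + (x - (N + 1)) * S := by ring
  rw [h6]
  have h7 := abs_add_le (A - (Real.log x) ^ 2 * C + (N + 1) * (S - T)) ((x - (N + 1)) * S)
  have h8 := abs_add_le (A - (Real.log x) ^ 2 * C) ((N + 1) * (S - T))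
  have h9 : 0 ≤ ε * (x * H) := by positivity
  linarith

theorem Bja_scale {x : ℝ} (hL : 1 ≤ Real.log x) (D : Finset ℤ) :
    ∑ d ∈ D, ((cnt x {0, d} : ℝ) - sing {0, d} * x / (Real.log x) ^ 2) =
      ((Real.log x) ^ 2 * ∑ d ∈ D, (cnt x {0, d} : ℝ) - x * ∑ d ∈ D, sing {0, d}) /
        (Real.log x) ^ 2 := by
  have hL2 : (Real.log x) ^ 2 ≠ 0 := by positivity
  rw [Finset.mul_sum, Finset.mul_sum, ← Finset.sum_sub_distrib, Finset.sum_div]
  refine Finset.sum_congr rfl fun d _ => ?_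
  field_simp

theorem Bj1 (ε : ℝ) (hε : 0 < ε) : ∃ δ X : ℝ, 0 < δ ∧ ∀ x : ℝ, X ≤ x → ∀ H : ℕ, Real.log x ≤ (H : ℝ) →
    (H : ℝ) ≤ (Real.log x) ^ 2 → MeanPairs x H δ → ∀ D : Finset ℤ, D ⊆ Finset.Icc 1 (H : ℤ) → PL x H ε D := by
  obtain ⟨X, hX⟩ := Bja_key (ε / 2) (by positivity)
  refine ⟨ε / 2, X, by positivity, fun x hx H hH1 hH2 hM D hD => ?_⟩
  obtain ⟨hx1, hL, hkey⟩ := hX x hx
  have hk := hkey H hH1 hH2 D hD
  have hmaps : D.image Int.toNat ⊆ Finset.Icc 1 H := by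
    intro a ha
    rw [Finset.mem_image] at ha
    obtain ⟨d, hd, rfl⟩ := ha
    have h1 := Finset.mem_Icc.1 (hD hd)
    rw [Finset.mem_Icc]
    omega
  have h1 := hM (D.image Int.toNat) hmaps
  rw [Finset.sum_image (fun a ha b hb hab => by
    have ha1 := Finset.mem_Icc.1 (hD ha)
    have hb1 := Finset.mem_Icc.1 (hD hb)
    omega)] at h1
  have h2 : ∑ d ∈ D, ((cnt x {0, ((d.toNat : ℕ) : ℤ)} : ℝ)
      - sing {0, ((d.toNat : ℕ) : ℤ)} * x / (Real.log x) ^ 2) =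
      ∑ d ∈ D, ((cnt x {0, d} : ℝ) - sing {0, d} * x / (Real.log x) ^ 2) := by
    refine Finset.sum_congr rfl fun d hd => ?_
    have h3 := Finset.mem_Icc.1 (hD hd)
    rw [Int.toNat_of_nonneg (by omega)]
  rw [h2, Bja_scale hL, abs_div] at h1
  have hL2 : (0 : ℝ) < (Real.log x) ^ 2 := by positivity
  rw [abs_of_pos hL2, ← mul_div_assoc, div_le_div_iff_of_pos_right hL2] at h1
  have hH0 : (1 : ℝ) ≤ H := by linarith
  have hfl2 := Nat.lt_floor_add_one x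
  unfold PL
  have h3 := abs_sub_abs_le_abs_sub
    (∑ n ∈ Finset.range (⌊x⌋₊ + 1), La x (n : ℤ) * nf D (La x) (n : ℤ)
      - ((⌊x⌋₊ : ℝ) + 1) * ∑ d ∈ D, sW x {0, d})
    ((Real.log x) ^ 2 * ∑ d ∈ D, (cnt x {0, d} : ℝ) - x * ∑ d ∈ D, sing {0, d})
  have h4 : ε * (x * (H : ℝ)) ≤ ε * ((⌊x⌋₊ : ℝ) + 1) * (H : ℝ) := by
    rw [mul_assoc]
    apply mul_le_mul_of_nonneg_left _ hε.le
    exact mul_le_mul_of_nonneg_right hfl2.le (by linarith)
  linarith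

theorem Bj2 (ε : ℝ) (hε : 0 < ε) : ∃ δ X : ℝ, 0 < δ ∧ ∀ x : ℝ, X ≤ x → ∀ H : ℕ, Real.log x ≤ (H : ℝ) →
    (H : ℝ) ≤ (Real.log x) ^ 2 → (∀ D : Finset ℤ, D ⊆ Finset.Icc 1 (H : ℤ) → PL x H δ D) → MeanPairs x H ε := by
  obtain ⟨X, hX⟩ := Bja_key (ε / 2) (by positivity)
  refine ⟨ε / 4, X, by positivity, fun x hx H hH1 hH2 hM D hD => ?_⟩
  obtain ⟨hx1, hL, hkey⟩ := hX x hx
  have hmaps : D.image (fun d : ℕ => (d : ℤ)) ⊆ Finset.Icc 1 (H : ℤ) := by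
    intro a ha
    rw [Finset.mem_image] at ha
    obtain ⟨d, hd, rfl⟩ := ha
    have h1 := Finset.mem_Icc.1 (hD hd)
    rw [Finset.mem_Icc]
    omega
  have hk := hkey H hH1 hH2 _ hmaps
  have h1 := hM _ hmaps
  have h2 : ∑ d ∈ D, ((cnt x {0, (d : ℤ)} : ℝ) - sing {0, (d : ℤ)} * x / (Real.log x) ^ 2) =
      ∑ d ∈ D.image (fun d : ℕ => (d : ℤ)),
        ((cnt x {0, d} : ℝ) - sing {0, d} * x / (Real.log x) ^ 2) := by
    rw [Finset.sum_image (fun a _ b _ hab => by exact_mod_cast hab)]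
  have hL2 : (0 : ℝ) < (Real.log x) ^ 2 := by positivity
  rw [h2, Bja_scale hL, abs_div, abs_of_pos hL2, ← mul_div_assoc,
    div_le_div_iff_of_pos_right hL2]
  have hH0 : (1 : ℝ) ≤ H := by linarith
  have hfl1 := Nat.floor_le (show 0 ≤ x by linarith)
  unfold PL at h1
  set D' := D.image (fun d : ℕ => (d : ℤ)) with hD'
  have h3 := abs_sub_abs_le_abs_sub
    ((Real.log x) ^ 2 * ∑ d ∈ D', (cnt x {0, d} : ℝ) - x * ∑ d ∈ D', sing {0, d})
    (∑ n ∈ Finset.range (⌊x⌋₊ + 1), La x (n : ℤ) * nf D' (La x) (n : ℤ)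
      - ((⌊x⌋₊ : ℝ) + 1) * ∑ d ∈ D', sW x {0, d})
  have h3' := abs_sub_comm
    ((Real.log x) ^ 2 * ∑ d ∈ D', (cnt x {0, d} : ℝ) - x * ∑ d ∈ D', sing {0, d})
    (∑ n ∈ Finset.range (⌊x⌋₊ + 1), La x (n : ℤ) * nf D' (La x) (n : ℤ)
      - ((⌊x⌋₊ : ℝ) + 1) * ∑ d ∈ D', sW x {0, d})
  have h4 : ε / 4 * ((⌊x⌋₊ : ℝ) + 1) * (H : ℝ) ≤ ε / 2 * (x * (H : ℝ)) := by
    have h5 : ((⌊x⌋₊ : ℝ) + 1) * (H : ℝ) ≤ (2 * x) * H :=
      mul_le_mul_of_nonneg_right (by linarith) (by linarith)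
    have h6 := mul_le_mul_of_nonneg_left h5 (show (0 : ℝ) ≤ ε / 4 by positivity)
    linarith
  linarith

end Pool.Agent.H12.DM
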