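import Pool.Agent.H12.DM.Bj
import Pool.Agent.H12.DM.Bt
import Pool.Agent.H12.DM.Bb
import Pool.Agent.H12.DM.Mp

/-!
# Bjb (triples): conversions between counts and sums of `La`

`L = log x`, `N = ⌊x⌋₊ + 1`, `φ = wp (yy x) ≤ W ≤ √L`, `L ≤ H ≤ L^2`, `x` large; `|N - x| ≤ 1`. A finset `D ⊆ Icc 1 H` of natural numbers corresponds to the finset `D.image (fun d => (d:ℤ)) ⊆ Icc 1 H` of integers, and conversely
(`D.image Int.toNat`); sums over `D` are equal.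

* (For comparison: pairs, not part of this row.) For `d ∈ Icc 1 H`: `∑_{n<N} La(n) La(n-d) = L^2 #{n < N : n, n-d prime, n-d > x^(1/4)}` (`n > x^(1/4)` follows, `n ≤ x`), which differs from `L^2 * cnt x {0,d}` by at most `L^2 (x^(1/4)+1)` (at most `x^(1/4) + 1` values of `n` with
  `0 < n - d ≤ x^(1/4)`). Sum over `d ∈ D`: `∑_n La nf D La` differs from `L^2 ∑_{d∈D} cnt x {0,d}` by `≤ H L^2 (x^(1/4)+1) ≤ ε' N H`. And `|N ∑_{d∈D} sW{0,d} - x ∑_{d∈D} sing{0,d}| ≤ N ∑ |sW - sing| + ∑ |sing| ≤ ε' N H + 3H` (`Bt2`, `sW_sum1`). So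
  `PL` and `MeanPairs` imply each other with constants `δ = ε/2` (`x ≤ N ≤ 2x`), for `x` large (`L^2 * (H x/L^2) = H x`; for the direction to `PL`: `δ H x ≤ (ε/2) H N`).
* Triples. The same with `L^3` and `Bt3`, `sW_sum2` for `d' ≠ d`: the error is `≤ H^2 L^3 (2x^(1/4) + 2)`. The sum in `TL` contains in addition the terms with `d = d'`, which are `≥ 0` and at most
  `∑_{d∈D∩D'} ∑_n La(n) La(n-d)^2 ≤ L ∑_n La nf I La ≤ L (∑ La)^{1/2} (∑ La (nf I La)^2)^{1/2} ≤ L (2N)^{1/2} (C N H^2)^{1/2} = √(2C) L N H ≤ (√(2C)/K) N H^2` (`Mo1`, `Mo3`, `H ≥ K L`).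
-/

set_option autoImplicit false

namespace Pool.Agent.H12.DM

open Finset Pool.Agent.H17 Pool.Agent.H6.MF Pool.Agent.H6.MB

/-- the sum over `n` for two shifts -/
private noncomputable def BjbT (x : ℝ) (d' d : ℤ) : ℝ :=
  ∑ n ∈ Finset.range (⌊x⌋₊ + 1), La x (n : ℤ) * La x ((n : ℤ) - d') * La x ((n : ℤ) - d)

private lemma Bjb_F (x : ℝ) (hx : 0 ≤ x) (e : ℤ) (S : Finset ℕ)
    (hS : ∀ n ∈ S, isP ((n : ℤ) - e) ∧ (((n : ℤ) - e : ℤ) : ℝ) ≤ x ^ (1 / 4 : ℝ)) :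
    (S.card : ℝ) ≤ x ^ (1 / 4 : ℝ) := by
  have h0 : (0 : ℝ) ≤ x ^ (1 / 4 : ℝ) := Real.rpow_nonneg hx _
  have hpos : ∀ n ∈ S, 0 < ((n : ℤ) - e).toNat := fun n hn => Nat.Prime.pos (hS n hn).1
  have h1 : S.card ≤ (Finset.Icc 1 ⌊x ^ (1 / 4 : ℝ)⌋₊).card := by
    refine Finset.card_le_card_of_injOn (fun n : ℕ => ((n : ℤ) - e).toNat) ?_ ?_
    · intro n hn
      obtain ⟨h2, h3⟩ := hS n hn
      have h4 := hpos n hn
      have h5 : ((((n : ℤ) - e).toNat : ℕ) : ℤ) = (n : ℤ) - e := Int.toNat_of_nonneg (by omega)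
      rw [Finset.mem_coe, Finset.mem_Icc]
      refine ⟨h4, Nat.le_floor ?_⟩
      have h6 : ((((n : ℤ) - e).toNat : ℕ) : ℝ) = (((n : ℤ) - e : ℤ) : ℝ) := by
        rw [← h5]
        rfl
      show ((((n : ℤ) - e).toNat : ℕ) : ℝ) ≤ _
      rw [h6]
      exact h3
    · intro n hn m hm h
      have h4 := hpos n hn
      have h5 := hpos m hm
      have h6 : ((n : ℤ) - e).toNat = ((m : ℤ) - e).toNat := h
      omega
  rw [Nat.card_Icc] at h1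
  have h2 : S.card ≤ ⌊x ^ (1 / 4 : ℝ)⌋₊ := by omega
  have h3 : (S.card : ℝ) ≤ (⌊x ^ (1 / 4 : ℝ)⌋₊ : ℝ) := by exact_mod_cast h2
  exact h3.trans (Nat.floor_le h0)

private lemma Bjb_T {x : ℝ} (hx : 1 ≤ x) {d' d : ℤ} (hd' : 1 ≤ d') (hd : 1 ≤ d) :
    |BjbT x d' d - (Real.log x) ^ 3 * (cnt x {0, d', d} : ℝ)|
      ≤ (Real.log x) ^ 3 * (2 * x ^ (1 / 4 : ℝ)) := by
  classical
  have hx0 : (0 : ℝ) ≤ x := by linarith
  have hL : 0 ≤ Real.log x := Real.log_nonneg hx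
  obtain ⟨c, hc⟩ : ∃ c : ℤ → Prop, c = fun m => isP m ∧ x ^ (1 / 4 : ℝ) < (m : ℝ) ∧ (m : ℝ) ≤ x :=
    ⟨_, rfl⟩
  have hLa : ∀ m, La x m = if c m then Real.log x else 0 := by
    intro m
    unfold La
    by_cases h : c m
    · rw [if_pos h, if_pos]
      rw [hc] at h
      exact h
    · rw [if_neg h, if_neg]
      intro h'
      apply h
      rw [hc]
      exact h'
  obtain ⟨SC, hSC⟩ : ∃ SC : Finset ℕ, SC = (Finset.range (⌊x⌋₊ + 1)).filter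
    (fun n : ℕ => c (n : ℤ) ∧ c ((n : ℤ) - d') ∧ c ((n : ℤ) - d)) := ⟨_, rfl⟩
  obtain ⟨SP1, hSP1⟩ : ∃ S : Finset ℕ, S = (Finset.range (⌊x⌋₊ + 1)).filter
    (fun n : ℕ => isP ((n : ℤ) - d') ∧ (((n : ℤ) - d' : ℤ) : ℝ) ≤ x ^ (1 / 4 : ℝ)) := ⟨_, rfl⟩
  obtain ⟨SP2, hSP2⟩ : ∃ S : Finset ℕ, S = (Finset.range (⌊x⌋₊ + 1)).filter
    (fun n : ℕ => isP ((n : ℤ) - d) ∧ (((n : ℤ) - d : ℤ) : ℝ) ≤ x ^ (1 / 4 : ℝ)) := ⟨_, rfl⟩
  have hT : BjbT x d' d = (Real.log x) ^ 3 * (SC.card : ℝ) := by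
    unfold BjbT
    have h1 : ∀ n ∈ Finset.range (⌊x⌋₊ + 1),
        La x (n : ℤ) * La x ((n : ℤ) - d') * La x ((n : ℤ) - d)
          = if (c (n : ℤ) ∧ c ((n : ℤ) - d') ∧ c ((n : ℤ) - d)) then (Real.log x) ^ 3 else 0 := by
      intro n _
      rw [hLa, hLa, hLa]
      by_cases e1 : c (n : ℤ)
      · by_cases e2 : c ((n : ℤ) - d')
        · by_cases e3 : c ((n : ℤ) - d)
          · rw [if_pos e1, if_pos e2, if_pos e3, if_pos ⟨e1, e2, e3⟩]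
            ring
          · rw [if_neg e3, if_neg (show ¬ (c (n : ℤ) ∧ c ((n : ℤ) - d') ∧ c ((n : ℤ) - d)) from
              fun h => e3 h.2.2), mul_zero]
        · rw [if_neg e2, if_neg (show ¬ (c (n : ℤ) ∧ c ((n : ℤ) - d') ∧ c ((n : ℤ) - d)) from
              fun h => e2 h.2.1), mul_zero, zero_mul]
      · rw [if_neg e1, if_neg (show ¬ (c (n : ℤ) ∧ c ((n : ℤ) - d') ∧ c ((n : ℤ) - d)) from
              fun h => e1 h.1), zero_mul, zero_mul]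
    rw [Finset.sum_congr rfl h1, ← Finset.sum_filter, Finset.sum_const, nsmul_eq_mul, mul_comm, hSC]
  have hcnt : ∀ n : ℕ, (∀ h ∈ ({0, d', d} : Finset ℤ), isP ((n : ℤ) - h)) ↔
      (isP (n : ℤ) ∧ isP ((n : ℤ) - d') ∧ isP ((n : ℤ) - d)) := by
    intro n
    constructor
    · intro h
      refine ⟨?_, h d' ?_, h d ?_⟩
      · have h1 := h 0 (Finset.mem_insert_self _ _)
        rwa [sub_zero] at h1
      · exact Finset.mem_insert_of_mem (Finset.mem_insert_self _ _)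
      · exact Finset.mem_insert_of_mem (Finset.mem_insert_of_mem (Finset.mem_singleton_self _))
    · rintro ⟨h1, h2, h3⟩ h hh
      rw [Finset.mem_insert, Finset.mem_insert, Finset.mem_singleton] at hh
      rcases hh with rfl | rfl | rfl
      · rwa [sub_zero]
      · exact h2
      · exact h3
  have h1 : SC.card ≤ cnt x {0, d', d} := by
    unfold cnt
    refine Finset.card_le_card ?_
    intro n hn
    rw [hSC, Finset.mem_filter, hc] at hn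
    rw [Finset.mem_filter, hcnt]
    exact ⟨hn.1, hn.2.1.1, hn.2.2.1.1, hn.2.2.2.1⟩
  have h2 : cnt x {0, d', d} ≤ SC.card + SP1.card + SP2.card := by
    unfold cnt
    refine (Finset.card_le_card (t := (SC ∪ SP1) ∪ SP2) ?_).trans
      ((Finset.card_union_le _ _).trans (Nat.add_le_add_right (Finset.card_union_le _ _) _))
    intro n hn
    rw [Finset.mem_filter, hcnt] at hn
    obtain ⟨hr, p1, p2, p3⟩ := hn
    rw [Finset.mem_union, Finset.mem_union, hSC, hSP1, hSP2, Finset.mem_filter, Finset.mem_filter,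
      Finset.mem_filter]
    have hnx : (n : ℝ) ≤ x := by
      rw [Finset.mem_range] at hr
      have h3 : n ≤ ⌊x⌋₊ := by omega
      exact (Nat.le_floor_iff hx0).1 h3
    by_cases e2 : (((n : ℤ) - d' : ℤ) : ℝ) ≤ x ^ (1 / 4 : ℝ)
    · exact Or.inl (Or.inr ⟨hr, p2, e2⟩)
    · by_cases e3 : (((n : ℤ) - d : ℤ) : ℝ) ≤ x ^ (1 / 4 : ℝ)
      · exact Or.inr ⟨hr, p3, e3⟩
      · refine Or.inl (Or.inl ⟨hr, ?_⟩)
        rw [not_le] at e2 e3
        have g1 : (1 : ℝ) ≤ (d' : ℝ) := by exact_mod_cast hd'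
        have g2 : (1 : ℝ) ≤ (d : ℝ) := by exact_mod_cast hd
        rw [hc]
        push_cast at e2 e3
        refine ⟨⟨p1, ?_, ?_⟩, ⟨p2, ?_, ?_⟩, ⟨p3, ?_, ?_⟩⟩
        · push_cast
          linarith
        · push_cast
          linarith
        · push_cast
          linarith
        · push_cast
          linarith
        · push_cast
          linarith
        · push_cast
          linarith
  have h3 : (SP1.card : ℝ) ≤ x ^ (1 / 4 : ℝ) := by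
    refine Bjb_F x hx0 d' SP1 ?_
    intro n hn
    rw [hSP1, Finset.mem_filter] at hn
    exact hn.2
  have h4 : (SP2.card : ℝ) ≤ x ^ (1 / 4 : ℝ) := by
    refine Bjb_F x hx0 d SP2 ?_
    intro n hn
    rw [hSP2, Finset.mem_filter] at hn
    exact hn.2
  have h1' : (SC.card : ℝ) ≤ (cnt x {0, d', d} : ℝ) := by exact_mod_cast h1
  have h2' : (cnt x {0, d', d} : ℝ) ≤ SC.card + SP1.card + SP2.card := by exact_mod_cast h2
  rw [hT, abs_sub_comm, ← mul_sub, abs_of_nonneg]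
  · exact mul_le_mul_of_nonneg_left (by linarith) (by positivity)
  · exact mul_nonneg (by positivity) (by linarith)

private lemma Bjb_Tnn {x : ℝ} (hx : 1 ≤ x) (d' d : ℤ) : 0 ≤ BjbT x d' d := by
  unfold BjbT
  exact Finset.sum_nonneg fun n _ =>
    mul_nonneg (mul_nonneg (La_nonneg hx _) (La_nonneg hx _)) (La_nonneg hx _)

private lemma Bjb_exp (x : ℝ) (D' D : Finset ℤ) :
    ∑ n ∈ Finset.range (⌊x⌋₊ + 1), La x (n : ℤ) * nf D' (La x) (n : ℤ) * nf D (La x) (n : ℤ)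
      = ∑ d' ∈ D', ∑ d ∈ D.erase d', BjbT x d' d
        + ∑ d' ∈ D', (if d' ∈ D then BjbT x d' d' else 0) := by
  have h1 : ∀ n ∈ Finset.range (⌊x⌋₊ + 1),
      La x (n : ℤ) * nf D' (La x) (n : ℤ) * nf D (La x) (n : ℤ)
        = ∑ d' ∈ D', ∑ d ∈ D, La x (n : ℤ) * La x ((n : ℤ) - d') * La x ((n : ℤ) - d) := by
    intro n _
    unfold nf
    have h3 : La x (n : ℤ) * ∑ d ∈ D', La x ((n : ℤ) - d)
        = ∑ d ∈ D', La x (n : ℤ) * La x ((n : ℤ) - d) := Finset.mul_sum _ _ _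
    rw [h3, Finset.sum_mul_sum]
  rw [Finset.sum_congr rfl h1, Finset.sum_comm, ← Finset.sum_add_distrib]
  refine Finset.sum_congr rfl fun d' _ => ?_
  rw [Finset.sum_comm]
  have h2 : ∑ d ∈ D, ∑ n ∈ Finset.range (⌊x⌋₊ + 1),
      La x (n : ℤ) * La x ((n : ℤ) - d') * La x ((n : ℤ) - d) = ∑ d ∈ D, BjbT x d' d := rfl
  rw [h2]
  by_cases h : d' ∈ D
  · rw [if_pos h, ← Finset.sum_erase_add D _ h]
  · rw [if_neg h, add_zero, Finset.erase_eq_of_notMem h]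

private lemma Bjb_diag {x : ℝ} (hx : 1 ≤ x) (H : ℕ) (D' D : Finset ℤ)
    (hD' : D' ⊆ Finset.Icc 1 (H : ℤ)) :
    0 ≤ ∑ d' ∈ D', (if d' ∈ D then BjbT x d' d' else 0) ∧
    ∑ d' ∈ D', (if d' ∈ D then BjbT x d' d' else 0)
      ≤ Real.log x * ∑ n ∈ Finset.range (⌊x⌋₊ + 1),
        La x (n : ℤ) * nf (Finset.Icc 1 (H : ℤ)) (La x) (n : ℤ) := by
  constructor
  · refine Finset.sum_nonneg fun d' _ => ?_
    split_ifs
    · exact Bjb_Tnn hx _ _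
    · exact le_rfl
  · have h1 : ∑ d' ∈ D', (if d' ∈ D then BjbT x d' d' else 0) ≤ ∑ d' ∈ D', BjbT x d' d' := by
      refine Finset.sum_le_sum fun d' _ => ?_
      split_ifs
      · exact le_rfl
      · exact Bjb_Tnn hx _ _
    have h2 : ∑ d' ∈ D', BjbT x d' d' ≤ ∑ d' ∈ Finset.Icc 1 (H : ℤ), BjbT x d' d' :=
      Finset.sum_le_sum_of_subset_of_nonneg hD' fun d' _ _ => Bjb_Tnn hx _ _
    refine h1.trans (h2.trans ?_)
    unfold BjbT
    rw [Finset.sum_comm, Finset.mul_sum]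
    refine Finset.sum_le_sum fun n _ => ?_
    unfold nf
    rw [Finset.mul_sum, Finset.mul_sum]
    refine Finset.sum_le_sum fun d' _ => ?_
    have g1 := La_nonneg hx (n : ℤ)
    have g2 := La_nonneg hx ((n : ℤ) - d')
    have g3 := La_le hx ((n : ℤ) - d')
    rw [mul_comm (Real.log x)]
    exact mul_le_mul_of_nonneg_left g3 (mul_nonneg g1 g2)

private lemma Bjb_card {H : ℕ} {D : Finset ℤ} (hD : D ⊆ Finset.Icc 1 (H : ℤ)) :
    (D.card : ℝ) ≤ (H : ℝ) := by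
  have h1 := Finset.card_le_card hD
  rw [Int.card_Icc] at h1
  have h2 : D.card ≤ H := by omega
  exact_mod_cast h2

private lemma Bjb_SS {H : ℕ} {D' D : Finset ℤ} (hD' : D' ⊆ Finset.Icc 1 (H : ℤ))
    (hD : D ⊆ Finset.Icc 1 (H : ℤ)) (g : ℤ → ℤ → ℝ) (B : ℝ) (hB : 0 ≤ B)
    (hg : ∀ d' ∈ D', ∀ d ∈ D, |g d' d| ≤ B) :
    |∑ d' ∈ D', ∑ d ∈ D.erase d', g d' d| ≤ (H : ℝ) ^ 2 * B := by
  have h1 : ∀ d' ∈ D', |∑ d ∈ D.erase d', g d' d| ≤ (H : ℝ) * B := by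
    intro d' hd'
    refine (Finset.abs_sum_le_sum_abs _ _).trans ?_
    refine (Finset.sum_le_card_nsmul _ _ B fun d hd => hg d' hd' d (Finset.mem_of_mem_erase hd)).trans ?_
    rw [nsmul_eq_mul]
    refine mul_le_mul_of_nonneg_right ?_ hB
    exact Bjb_card ((Finset.erase_subset _ _).trans hD)
  refine (Finset.abs_sum_le_sum_abs _ _).trans ?_
  refine (Finset.sum_le_card_nsmul _ _ _ h1).trans ?_
  rw [nsmul_eq_mul]
  have h2 := Bjb_card hD'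
  have h3 : (D'.card : ℝ) * ((H : ℝ) * B) ≤ (H : ℝ) * ((H : ℝ) * B) :=
    mul_le_mul_of_nonneg_right h2 (by positivity)
  linarith

private lemma Bjb_mono {H : ℕ} {D' D : Finset ℤ} (hD' : D' ⊆ Finset.Icc 1 (H : ℤ))
    (hD : D ⊆ Finset.Icc 1 (H : ℤ)) (g : ℤ → ℤ → ℝ) (hg : ∀ d' d, 0 ≤ g d' d) :
    ∑ d' ∈ D', ∑ d ∈ D.erase d', g d' d
      ≤ ∑ d' ∈ Finset.Icc (1 : ℤ) (H : ℤ), ∑ d ∈ (Finset.Icc (1 : ℤ) (H : ℤ)).erase d', g d' d := by
  refine le_trans (Finset.sum_le_sum fun d' _ => ?_)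
    (Finset.sum_le_sum_of_subset_of_nonneg hD' fun d' _ _ => Finset.sum_nonneg fun d _ => hg d' d)
  exact Finset.sum_le_sum_of_subset_of_nonneg (Finset.erase_subset_erase _ hD) fun d _ _ => hg d' d

private lemma Bjb_abs {D' D : Finset ℤ} (g : ℤ → ℤ → ℝ) :
    |∑ d' ∈ D', ∑ d ∈ D.erase d', g d' d| ≤ ∑ d' ∈ D', ∑ d ∈ D.erase d', |g d' d| := by
  refine (Finset.abs_sum_le_sum_abs _ _).trans (Finset.sum_le_sum fun d' _ => ?_)
  exact Finset.abs_sum_le_sum_abs _ _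

private lemma Bjb_log (a : ℝ) (ha : 0 < a) :
    ∃ X : ℝ, ∀ x : ℝ, X ≤ x → (Real.log x) ^ 3 * (2 * x ^ (1 / 4 : ℝ)) ≤ a * x := by
  have e1 := (isLittleO_log_rpow_rpow_atTop (3 : ℝ) (show (0 : ℝ) < 3 / 4 by norm_num)).def
    (show (0 : ℝ) < a / 2 by positivity)
  obtain ⟨X, hX⟩ := Filter.eventually_atTop.mp e1
  refine ⟨max X 1, fun x hx => ?_⟩
  have hx1 : 1 ≤ x := (le_max_right _ _).trans hx
  have hx0 : 0 < x := by linarith
  have hL : 0 ≤ Real.log x := Real.log_nonneg hx1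
  have h1 := hX x ((le_max_left _ _).trans hx)
  rw [Real.norm_of_nonneg (Real.rpow_nonneg hL _), Real.norm_of_nonneg (Real.rpow_nonneg hx0.le _)] at h1
  have h2 : (Real.log x) ^ (3 : ℝ) = (Real.log x) ^ 3 := by
    have h3 := Real.rpow_natCast (Real.log x) 3
    rw [← h3]
    norm_num
  rw [h2] at h1
  have h4 : x ^ (3 / 4 : ℝ) * x ^ (1 / 4 : ℝ) = x := by
    rw [← Real.rpow_add hx0]
    norm_num
  have h5 : 0 ≤ x ^ (1 / 4 : ℝ) := Real.rpow_nonneg hx0.le _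
  calc (Real.log x) ^ 3 * (2 * x ^ (1 / 4 : ℝ)) ≤ a / 2 * x ^ (3 / 4 : ℝ) * (2 * x ^ (1 / 4 : ℝ)) :=
        mul_le_mul_of_nonneg_right h1 (by positivity)
    _ = a * (x ^ (3 / 4 : ℝ) * x ^ (1 / 4 : ℝ)) := by ring
    _ = a * x := by rw [h4]

private lemma Bjb_core (ε : ℝ) (hε : 0 < ε) : ∃ K X : ℝ, ∀ x : ℝ, X ≤ x → 1 ≤ x ∧ 1 ≤ Real.log x ∧
    ∀ H : ℕ, K * Real.log x ≤ (H : ℝ) → (H : ℝ) ≤ (Real.log x) ^ 2 →
    ∀ D' D : Finset ℤ, D' ⊆ Finset.Icc 1 (H : ℤ) → D ⊆ Finset.Icc 1 (H : ℤ) →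
    |(∑ n ∈ Finset.range (⌊x⌋₊ + 1), La x (n : ℤ) * nf D' (La x) (n : ℤ) * nf D (La x) (n : ℤ)
        - ((⌊x⌋₊ : ℝ) + 1) * ∑ d' ∈ D', ∑ d ∈ D.erase d', sW x {0, d', d})
      - ((Real.log x) ^ 3 * ∑ d' ∈ D', ∑ d ∈ D.erase d', (cnt x {0, d', d} : ℝ)
        - x * ∑ d' ∈ D', ∑ d ∈ D.erase d', sing {0, d', d})|
      ≤ ε * ((⌊x⌋₊ : ℝ) + 1) * (H : ℝ) ^ 2 := by
  obtain ⟨C, X3, hC, h3⟩ := Mo3
  obtain ⟨X1, h1⟩ := Mo1
  obtain ⟨XB, hB⟩ := Bt3 (ε / 8) (by positivity)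
  obtain ⟨XL, hXL⟩ := Bjb_log (ε / 4) (by positivity)
  refine ⟨1 + 4 * (2 + C / 4) / ε,
    max X3 (max X1 (max XB (max XL (max (Real.exp 1) ((ε / 8 + 4) * (8 / ε)))))), fun x hx => ?_⟩
  have x3 : X3 ≤ x := (le_max_left _ _).trans hx
  have hx' := (le_max_right _ _).trans hx
  have x1 : X1 ≤ x := (le_max_left _ _).trans hx'
  have hx'' := (le_max_right _ _).trans hx'
  have xB : XB ≤ x := (le_max_left _ _).trans hx''
  have hx3 := (le_max_right _ _).trans hx''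
  have xL : XL ≤ x := (le_max_left _ _).trans hx3
  have hx4 := (le_max_right _ _).trans hx3
  have hxe : Real.exp 1 ≤ x := (le_max_left _ _).trans hx4
  have hxE : (ε / 8 + 4) * (8 / ε) ≤ x := (le_max_right _ _).trans hx4
  have hx0 : 0 < x := lt_of_lt_of_le (Real.exp_pos 1) hxe
  have hx1 : 1 ≤ x := by
    have h1 : (1 : ℝ) ≤ Real.exp 1 := Real.one_le_exp (by norm_num)
    linarith
  have hL1 : 1 ≤ Real.log x := by
    have h1 := Real.log_le_log (Real.exp_pos 1) hxe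
    rwa [Real.log_exp] at h1
  refine ⟨hx1, hL1, fun H hKH hHL D' D hD' hD => ?_⟩
  obtain ⟨L, hLd⟩ : ∃ L : ℝ, L = Real.log x := ⟨_, rfl⟩
  obtain ⟨N, hN⟩ : ∃ N : ℝ, N = (⌊x⌋₊ : ℝ) + 1 := ⟨_, rfl⟩
  have hNx : x ≤ N := by rw [hN]; exact (Nat.lt_floor_add_one x).le
  have hNx1 : N ≤ x + 1 := by
    rw [hN]
    have := Nat.floor_le hx0.le
    linarith
  have hK4 : 0 ≤ 4 * (2 + C / 4) / ε := by positivity
  have hLH : Real.log x ≤ (H : ℝ) := by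
    have h5 : 0 ≤ 4 * (2 + C / 4) / ε * Real.log x := mul_nonneg hK4 (by linarith)
    linarith
  have hH0 : (0 : ℝ) < H := by linarith
  -- the diagonal
  have a1 := h1 x x1
  have a3 := h3 x x3 H hLH hHL
  rw [← hN] at a1 a3
  have hdiag := Bjb_diag hx1 H D' D hD'
  have hI : ∑ n ∈ Finset.range (⌊x⌋₊ + 1), La x (n : ℤ) * nf (Finset.Icc 1 (H : ℤ)) (La x) (n : ℤ)
      ≤ (2 + C / 4) * N * H := by
    have h5 : ∀ n ∈ Finset.range (⌊x⌋₊ + 1),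
        La x (n : ℤ) * nf (Finset.Icc 1 (H : ℤ)) (La x) (n : ℤ)
          ≤ (H : ℝ) * La x (n : ℤ)
            + 1 / (4 * (H : ℝ)) * (La x (n : ℤ) * (nf (Finset.Icc 1 (H : ℤ)) (La x) (n : ℤ)) ^ 2) := by
      intro n _
      have g1 := La_nonneg hx1 (n : ℤ)
      obtain ⟨t, ht⟩ : ∃ t, t = nf (Finset.Icc 1 (H : ℤ)) (La x) (n : ℤ) := ⟨_, rfl⟩
      rw [← ht]
      have g2 : t ≤ H + 1 / (4 * (H : ℝ)) * t ^ 2 := by
        have g3 : H + 1 / (4 * (H : ℝ)) * t ^ 2 - t = (2 * H - t) ^ 2 / (4 * H) := by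
          field_simp
          ring
        have g4 : 0 ≤ (2 * H - t) ^ 2 / (4 * (H : ℝ)) := by positivity
        linarith
      have g5 := mul_le_mul_of_nonneg_left g2 g1
      linarith
    refine (Finset.sum_le_sum h5).trans ?_
    rw [Finset.sum_add_distrib, ← Finset.mul_sum, ← Finset.mul_sum]
    have g6 := mul_le_mul_of_nonneg_left a1 hH0.le
    have g7 : 1 / (4 * (H : ℝ)) * (∑ n ∈ Finset.range (⌊x⌋₊ + 1),
        La x (n : ℤ) * (nf (Finset.Icc 1 (H : ℤ)) (La x) (n : ℤ)) ^ 2)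
          ≤ 1 / (4 * (H : ℝ)) * (C * N * (H : ℝ) ^ 2) :=
      mul_le_mul_of_nonneg_left a3 (by positivity)
    have g8 : 1 / (4 * (H : ℝ)) * (C * N * (H : ℝ) ^ 2) = C / 4 * N * H := by
      field_simp
    linarith
  have hN0 : 0 < N := by linarith
  have hdiag2 : ∑ d' ∈ D', (if d' ∈ D then BjbT x d' d' else 0) ≤ ε / 4 * N * (H : ℝ) ^ 2 := by
    refine hdiag.2.trans ?_
    have g1 : Real.log x * (∑ n ∈ Finset.range (⌊x⌋₊ + 1),
        La x (n : ℤ) * nf (Finset.Icc 1 (H : ℤ)) (La x) (n : ℤ))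
          ≤ Real.log x * ((2 + C / 4) * N * H) := mul_le_mul_of_nonneg_left hI (by linarith)
    refine g1.trans ?_
    have g2 : 4 * (2 + C / 4) / ε * Real.log x ≤ H := by
      have h5 : (1 + 4 * (2 + C / 4) / ε) * Real.log x
        = Real.log x + 4 * (2 + C / 4) / ε * Real.log x := by ring
      linarith
    have g3 : (2 + C / 4) * Real.log x ≤ ε / 4 * H := by
      have h5 : (2 + C / 4) * Real.log x = ε / 4 * (4 * (2 + C / 4) / ε * Real.log x) := by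
        field_simp
      rw [h5]
      exact mul_le_mul_of_nonneg_left g2 (by positivity)
    have g4 : (2 + C / 4) * Real.log x * (N * H) ≤ ε / 4 * H * (N * H) :=
      mul_le_mul_of_nonneg_right g3 (by positivity)
    linarith
  -- the counts
  have hE1 : |∑ d' ∈ D', ∑ d ∈ D.erase d', (BjbT x d' d - L ^ 3 * (cnt x {0, d', d} : ℝ))|
      ≤ ε / 4 * N * (H : ℝ) ^ 2 := by
    refine (Bjb_SS hD' hD _ (L ^ 3 * (2 * x ^ (1 / 4 : ℝ))) ?_ ?_).trans ?_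
    · rw [hLd]
      have : 0 ≤ x ^ (1 / 4 : ℝ) := Real.rpow_nonneg hx0.le _
      positivity
    · intro d' hd' d hd
      rw [hLd]
      exact Bjb_T hx1 (Finset.mem_Icc.1 (hD' hd')).1 (Finset.mem_Icc.1 (hD hd)).1
    · have g1 := hXL x xL
      rw [← hLd] at g1
      have g2 : (H : ℝ) ^ 2 * (L ^ 3 * (2 * x ^ (1 / 4 : ℝ))) ≤ (H : ℝ) ^ 2 * (ε / 4 * x) :=
        mul_le_mul_of_nonneg_left g1 (by positivity)
      have g3 : (H : ℝ) ^ 2 * (ε / 4 * x) ≤ (H : ℝ) ^ 2 * (ε / 4 * N) :=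
        mul_le_mul_of_nonneg_left (mul_le_mul_of_nonneg_left hNx (by positivity)) (by positivity)
      linarith
  -- the singular series
  have hBH := hB x xB H hLH hHL
  have hS1 : ∑ d' ∈ D', ∑ d ∈ D.erase d', |sing {0, d', d} - sW x {0, d', d}|
      ≤ ε / 8 * (H : ℝ) ^ 2 :=
    (Bjb_mono hD' hD (fun d' d => |sing {0, d', d} - sW x {0, d', d}|)
      (fun _ _ => abs_nonneg _)).trans hBH
  have hW : (WW (yy x) : ℝ) ≤ H := by
    have h5 := WW_yy_pow_le hL1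
    have h6 : (1 : ℝ) ≤ (WW (yy x) : ℝ) := by exact_mod_cast WW_pos (yy x)
    have h7 : (WW (yy x) : ℝ) ≤ (WW (yy x) : ℝ) ^ 34 := le_self_pow₀ h6 (by norm_num)
    have h8 : Real.sqrt (Real.log x) ≤ Real.log x := by
      rw [Real.sqrt_le_left (by linarith)]
      nlinarith
    linarith
  have hS2 : ∑ d' ∈ D', ∑ d ∈ D.erase d', sW x {0, d', d} ≤ 4 * (H : ℝ) ^ 2 := by
    refine (Bjb_mono hD' hD (fun d' d => sW x {0, d', d}) (fun _ _ => sW_nonneg _ _)).trans ?_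
    have h5 := sW_sum2 x 0 (H : ℤ) 0 (H : ℤ) (by positivity) le_rfl (by positivity) le_rfl
    have h6 : Finset.Ioc (0 : ℤ) (H : ℤ) = Finset.Icc (1 : ℤ) (H : ℤ) := by
      ext a
      rw [Finset.mem_Ioc, Finset.mem_Icc]
      omega
    rw [h6] at h5
    refine h5.trans ?_
    push_cast
    have h7 : (0 : ℝ) ≤ (WW (yy x) : ℝ) := Nat.cast_nonneg _
    have h8 : ((H : ℝ) - 0 + (WW (yy x) : ℝ)) * ((H : ℝ) - 0 + (WW (yy x) : ℝ))
        ≤ (2 * H) * (2 * H) :=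
      mul_le_mul (by linarith) (by linarith) (by linarith) (by linarith)
    linarith
  have hS3 : |∑ d' ∈ D', ∑ d ∈ D.erase d', sing {0, d', d}| ≤ (ε / 8 + 4) * (H : ℝ) ^ 2 := by
    refine (Bjb_abs (fun d' d => sing {0, d', d})).trans ?_
    have h5 : ∑ d' ∈ D', ∑ d ∈ D.erase d', |sing {0, d', d}|
        ≤ ∑ d' ∈ D', ∑ d ∈ D.erase d', (|sing {0, d', d} - sW x {0, d', d}| + sW x {0, d', d}) := by
      refine Finset.sum_le_sum fun d' _ => Finset.sum_le_sum fun d _ => ?_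
      have h6 := abs_add_le (sing {0, d', d} - sW x {0, d', d}) (sW x {0, d', d})
      rw [sub_add_cancel, abs_of_nonneg (sW_nonneg x {0, d', d})] at h6
      exact h6
    refine h5.trans ?_
    simp only [Finset.sum_add_distrib]
    linarith
  have hE2 : |N * ∑ d' ∈ D', ∑ d ∈ D.erase d', sW x {0, d', d}
      - x * ∑ d' ∈ D', ∑ d ∈ D.erase d', sing {0, d', d}| ≤ ε / 4 * N * (H : ℝ) ^ 2 := by
    obtain ⟨A, hA⟩ : ∃ A, A = ∑ d' ∈ D', ∑ d ∈ D.erase d', sW x {0, d', d} := ⟨_, rfl⟩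
    obtain ⟨B, hBd⟩ : ∃ B, B = ∑ d' ∈ D', ∑ d ∈ D.erase d', sing {0, d', d} := ⟨_, rfl⟩
    rw [← hA, ← hBd]
    rw [← hBd] at hS3
    have h5 : |B - A| ≤ ε / 8 * (H : ℝ) ^ 2 := by
      rw [hA, hBd, ← Finset.sum_sub_distrib]
      have h6 : ∀ d' ∈ D', (∑ d ∈ D.erase d', sing {0, d', d} - ∑ d ∈ D.erase d', sW x {0, d', d})
          = ∑ d ∈ D.erase d', (sing {0, d', d} - sW x {0, d', d}) :=
        fun d' _ => (Finset.sum_sub_distrib _ _).symm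
      rw [Finset.sum_congr rfl h6]
      exact (Bjb_abs (fun d' d => sing {0, d', d} - sW x {0, d', d})).trans hS1
    have h6 : N * A - x * B = (N - x) * B - N * (B - A) := by ring
    rw [h6]
    have h7 : |(N - x) * B| ≤ 1 * ((ε / 8 + 4) * (H : ℝ) ^ 2) := by
      rw [abs_mul]
      refine mul_le_mul ?_ hS3 (abs_nonneg _) (by norm_num)
      rw [abs_le]
      constructor <;> linarith
    have h8 : |N * (B - A)| ≤ N * (ε / 8 * (H : ℝ) ^ 2) := by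
      rw [abs_mul, abs_of_pos hN0]
      exact mul_le_mul_of_nonneg_left h5 hN0.le
    have h9 : |(N - x) * B - N * (B - A)| ≤ |(N - x) * B| + |N * (B - A)| := abs_sub _ _
    have h10 : (ε / 8 + 4) * (H : ℝ) ^ 2 ≤ ε / 8 * N * (H : ℝ) ^ 2 := by
      refine mul_le_mul_of_nonneg_right ?_ (by positivity)
      have h11 : ε / 8 * ((ε / 8 + 4) * (8 / ε)) ≤ ε / 8 * N :=
        mul_le_mul_of_nonneg_left (hxE.trans hNx) (by positivity)
      have h12 : ε / 8 * ((ε / 8 + 4) * (8 / ε)) = ε / 8 + 4 := by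
        field_simp
      linarith
    linarith
  rw [Bjb_exp, ← hN, ← hLd]
  have hE1' : ∑ d' ∈ D', ∑ d ∈ D.erase d', (BjbT x d' d - L ^ 3 * (cnt x {0, d', d} : ℝ))
      = ∑ d' ∈ D', ∑ d ∈ D.erase d', BjbT x d' d
        - L ^ 3 * ∑ d' ∈ D', ∑ d ∈ D.erase d', (cnt x {0, d', d} : ℝ) := by
    simp only [Finset.sum_sub_distrib, Finset.mul_sum]
  rw [hE1'] at hE1
  rw [abs_le] at hE1 hE2 ⊢
  have hd1 := hdiag.1
  have hp : 0 ≤ ε / 4 * N * (H : ℝ) ^ 2 := by positivity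
  constructor
  · linarith [hE1.1, hE1.2, hE2.1, hE2.2]
  · linarith [hE1.1, hE1.2, hE2.1, hE2.2]

private lemma Bjb_sum (D' D : Finset ℕ) (g : ℤ → ℤ → ℝ) :
    ∑ d' ∈ D'.image (fun m : ℕ => (m : ℤ)), ∑ d ∈ (D.image (fun m : ℕ => (m : ℤ))).erase d', g d' d
      = ∑ m' ∈ D', ∑ m ∈ D.erase m', g (m' : ℤ) (m : ℤ) := by
  have hinj : Function.Injective (fun m : ℕ => (m : ℤ)) := fun a b h => by
    have h' : (a : ℤ) = (b : ℤ) := h
    exact_mod_cast h'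
  rw [Finset.sum_image (fun a _ b _ h => hinj h)]
  refine Finset.sum_congr rfl fun m' _ => ?_
  rw [← Finset.image_erase hinj, Finset.sum_image (fun a _ b _ h => hinj h)]

private lemma Bjb_img {H : ℕ} {D : Finset ℕ} (hD : D ⊆ Finset.Icc 1 H) :
    D.image (fun m : ℕ => (m : ℤ)) ⊆ Finset.Icc 1 (H : ℤ) := by
  intro a ha
  rw [Finset.mem_image] at ha
  obtain ⟨m, hm, rfl⟩ := ha
  have h1 := Finset.mem_Icc.1 (hD hm)
  rw [Finset.mem_Icc]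
  omega

private lemma Bjb_conv {H : ℕ} {D : Finset ℤ} (hD : D ⊆ Finset.Icc 1 (H : ℤ)) :
    ∃ E : Finset ℕ, E ⊆ Finset.Icc 1 H ∧ D = E.image (fun m : ℕ => (m : ℤ)) := by
  refine ⟨D.image Int.toNat, ?_, ?_⟩
  · intro a ha
    rw [Finset.mem_image] at ha
    obtain ⟨m, hm, rfl⟩ := ha
    have h1 := Finset.mem_Icc.1 (hD hm)
    rw [Finset.mem_Icc]
    omega
  · ext a
    rw [Finset.mem_image]
    constructor
    · intro ha
      have h1 := Finset.mem_Icc.1 (hD ha)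
      exact ⟨a.toNat, Finset.mem_image_of_mem _ ha, by omega⟩
    · rintro ⟨m, hm, rfl⟩
      rw [Finset.mem_image] at hm
      obtain ⟨b, hb, rfl⟩ := hm
      have h1 := Finset.mem_Icc.1 (hD hb)
      have h2 : ((b.toNat : ℕ) : ℤ) = b := Int.toNat_of_nonneg (by omega)
      rw [h2]
      exact hb

private lemma Bjb_ms {x : ℝ} (hL : 1 ≤ Real.log x) (D' D : Finset ℕ) :
    (Real.log x) ^ 3 * ∑ d' ∈ D', ∑ d ∈ D.erase d', ((cnt x {0, (d' : ℤ), (d : ℤ)} : ℝ)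
        - sing {0, (d' : ℤ), (d : ℤ)} * x / (Real.log x) ^ 3)
      = (Real.log x) ^ 3 * ∑ d' ∈ D', ∑ d ∈ D.erase d', (cnt x {0, (d' : ℤ), (d : ℤ)} : ℝ)
        - x * ∑ d' ∈ D', ∑ d ∈ D.erase d', sing {0, (d' : ℤ), (d : ℤ)} := by
  have h0 : (Real.log x) ^ 3 ≠ 0 := by positivity
  rw [Finset.mul_sum, Finset.mul_sum, Finset.mul_sum, ← Finset.sum_sub_distrib]
  refine Finset.sum_congr rfl fun d' _ => ?_
  rw [Finset.mul_sum, Finset.mul_sum, Finset.mul_sum, ← Finset.sum_sub_distrib]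
  refine Finset.sum_congr rfl fun d _ => ?_
  field_simp

theorem Bj3 (ε : ℝ) (hε : 0 < ε) : ∃ δ K X : ℝ, 0 < δ ∧ ∀ x : ℝ, X ≤ x → ∀ H : ℕ, K * Real.log x ≤ (H : ℝ) →
    (H : ℝ) ≤ (Real.log x) ^ 2 → MeanTriples x H δ →
    ∀ D' D : Finset ℤ, D' ⊆ Finset.Icc 1 (H : ℤ) → D ⊆ Finset.Icc 1 (H : ℤ) → TL x H ε D' D := by
  obtain ⟨K, X, h⟩ := Bjb_core (ε / 2) (by positivity)
  refine ⟨ε / 2, K, X, by positivity, fun x hx H hK hL hM D' D hD' hD => ?_⟩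
  obtain ⟨hx1, hL1, h'⟩ := h x hx
  have h1 := h' H hK hL D' D hD' hD
  obtain ⟨E', hE', rfl⟩ := Bjb_conv hD'
  obtain ⟨E, hE, rfl⟩ := Bjb_conv hD
  unfold TL
  rw [Bjb_sum E' E (fun d' d => (cnt x {0, d', d} : ℝ)), Bjb_sum E' E (fun d' d => sing {0, d', d})] at h1
  rw [← Bjb_ms hL1] at h1
  have h2 := hM E' E hE' hE
  have hL3 : 0 < (Real.log x) ^ 3 := by positivity
  have h3 := mul_le_mul_of_nonneg_left h2 hL3.le
  rw [← abs_of_pos hL3, ← abs_mul, abs_of_pos hL3] at h3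
  have h4 : (Real.log x) ^ 3 * (ε / 2 * ((H : ℝ) ^ 2 * x / (Real.log x) ^ 3)) = ε / 2 * x * (H : ℝ) ^ 2 := by
    field_simp
  rw [h4] at h3
  have hNx : x ≤ (⌊x⌋₊ : ℝ) + 1 := (Nat.lt_floor_add_one x).le
  have h5 : ε / 2 * x * (H : ℝ) ^ 2 ≤ ε / 2 * ((⌊x⌋₊ : ℝ) + 1) * (H : ℝ) ^ 2 :=
    mul_le_mul_of_nonneg_right (mul_le_mul_of_nonneg_left hNx (by positivity)) (by positivity)
  rw [abs_le] at h1 h3 ⊢
  constructor
  · linarith [h1.1, h1.2, h3.1, h3.2]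
  · linarith [h1.1, h1.2, h3.1, h3.2]

theorem Bj4 (ε : ℝ) (hε : 0 < ε) : ∃ δ K X : ℝ, 0 < δ ∧ ∀ x : ℝ, X ≤ x → ∀ H : ℕ, K * Real.log x ≤ (H : ℝ) →
    (H : ℝ) ≤ (Real.log x) ^ 2 →
    (∀ D' D : Finset ℤ, D' ⊆ Finset.Icc 1 (H : ℤ) → D ⊆ Finset.Icc 1 (H : ℤ) → TL x H δ D' D) →
    MeanTriples x H ε := by
  obtain ⟨K, X, h⟩ := Bjb_core (ε / 4) (by positivity)
  refine ⟨ε / 4, K, X, by positivity, fun x hx H hK hL hM E' E hE' hE => ?_⟩
  obtain ⟨hx1, hL1, h'⟩ := h x hx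
  have hD' := Bjb_img hE'
  have hD := Bjb_img hE
  have h1 := h' H hK hL _ _ hD' hD
  have h2 := hM _ _ hD' hD
  unfold TL at h2
  rw [Bjb_sum E' E (fun d' d => (cnt x {0, d', d} : ℝ)), Bjb_sum E' E (fun d' d => sing {0, d', d})] at h1
  rw [← Bjb_ms hL1] at h1
  have hL3 : 0 < (Real.log x) ^ 3 := by positivity
  have hx0 : 0 ≤ x := by linarith
  have hNx : (⌊x⌋₊ : ℝ) + 1 ≤ 2 * x := by
    have := Nat.floor_le hx0
    linarith
  have h5 : ε / 4 * ((⌊x⌋₊ : ℝ) + 1) * (H : ℝ) ^ 2 ≤ ε / 4 * (2 * x) * (H : ℝ) ^ 2 :=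
    mul_le_mul_of_nonneg_right (mul_le_mul_of_nonneg_left hNx (by positivity)) (by positivity)
  have h4 : (Real.log x) ^ 3 * (ε * ((H : ℝ) ^ 2 * x / (Real.log x) ^ 3)) = ε * x * (H : ℝ) ^ 2 := by
    field_simp
  refine le_of_mul_le_mul_left ?_ hL3
  rw [h4, ← abs_of_pos hL3, ← abs_mul, abs_of_pos hL3]
  rw [abs_le] at h1 h2 ⊢
  constructor
  · linarith [h1.1, h1.2, h2.1, h2.2]
  · linarith [h1.1, h1.2, h2.1, h2.2]

end Pool.Agent.H12.DM
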