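import Pool.Agent.H12.DM.Bja
import Pool.Agent.H12.DM.Bjb
import Pool.Agent.H12.DM.Bjc
import Pool.Agent.H12.DM.Bc
import Pool.Agent.H12.DM.Be
import Pool.Agent.H12.DM.Bf
import Pool.Agent.H12.DM.Bg
import Pool.Agent.H12.DM.Bh
import Pool.Agent.H12.DM.Bi

/-!
# Bk: the equivalence

All the properties `SW`, `SP`, `FL`, `PL`, `TL`, `MeanPairs`, `MeanTriples`, `Equi` are monotone in the constant. Everything for `K L ≤ H ≤ L^2`, `x` large, all `D ⊆ Icc 1 H`; `A ⟹ B` means: for every `ε` there are `δ, K, X` such that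
`A` with `δ` implies `B` with `ε`. Chains (choose the constants backwards):
* `SW ⟹ SP ⟹ PL, TL` (`Be1`, `Bf1`, `Bf2`), `SW ⟹ FL` (`Be3`), so (`Bj2`, `Bj4`, `Bj6`): (S) `SW` (for all `D`) implies `MeanPairs`, `MeanTriples` and `Equi`.
* `MeanPairs ⟹ PL ⟹ SW` (`Bj1`, `Bc`), then (S).
* `Equi ⟹ FL ⟹ SW` (`Bj5`, `Be2`), then (S).
* `MeanTriples ⟹ TL` (`Bj3`) `⟹` third moment (`Bg`) `⟹ SW` for `D = Icc 1 H` (`Bh`) `⟹ SP` for `D = Icc 1 H` (`Be1`) `⟹ PL` for all `D` (`Bi`, using `TL` again) `⟹ SW` for all `D` (`Bc`), then (S).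
-/

set_option autoImplicit false

namespace Pool.Agent.H12.DM

open Finset Pool.Agent.H17 Pool.Agent.H6.MF Pool.Agent.H6.MB

/-- `A` with a small constant implies `B` with the constant `ε` -/
def Bk_Imp (A B : ℝ → ℕ → ℝ → Prop) : Prop := ∀ ε : ℝ, 0 < ε → ∃ δ K X : ℝ, 0 < δ ∧
  ∀ x : ℝ, X ≤ x → ∀ H : ℕ, K * Real.log x ≤ (H : ℝ) → (H : ℝ) ≤ (Real.log x) ^ 2 → A x H δ → B x H ε

/-- `A` is monotone -/
def Bk_Mono (A : ℝ → ℕ → ℝ → Prop) : Prop := ∀ x : ℝ, 1 ≤ x → ∀ H : ℕ, ∀ δ δ' : ℝ, δ ≤ δ' →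
  A x H δ → A x H δ'

theorem Bk_log {x : ℝ} (hx : 1 ≤ x) {K K' : ℝ} (h : K ≤ K') {H : ℕ} (hH : K' * Real.log x ≤ (H : ℝ)) :
    K * Real.log x ≤ (H : ℝ) :=
  (mul_le_mul_of_nonneg_right h (Real.log_nonneg hx)).trans hH

theorem Bk_trans {A B C : ℝ → ℕ → ℝ → Prop} (h1 : Bk_Imp A B) (h2 : Bk_Imp B C) : Bk_Imp A C := by
  intro ε hε
  obtain ⟨δ, K, X, hδ, h⟩ := h2 ε hε
  obtain ⟨δ', K', X', hδ', h'⟩ := h1 δ hδ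
  refine ⟨δ', max K K', max 1 (max X X'), hδ', fun x hx H hH1 hH2 hA => ?_⟩
  simp only [max_le_iff] at hx
  exact h x hx.2.1 H (Bk_log hx.1 (le_max_left _ _) hH1) hH2
    (h' x hx.2.2 H (Bk_log hx.1 (le_max_right _ _) hH1) hH2 hA)

theorem Bk_and {A B C : ℝ → ℕ → ℝ → Prop} (hA : Bk_Mono A) (h1 : Bk_Imp A B) (h2 : Bk_Imp A C) :
    Bk_Imp A (fun x H δ => B x H δ ∧ C x H δ) := by
  intro ε hε
  obtain ⟨δ, K, X, hδ, h⟩ := h1 ε hε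
  obtain ⟨δ', K', X', hδ', h'⟩ := h2 ε hε
  refine ⟨min δ δ', max K K', max 1 (max X X'), lt_min hδ hδ', fun x hx H hH1 hH2 hAx => ?_⟩
  simp only [max_le_iff] at hx
  exact ⟨h x hx.2.1 H (Bk_log hx.1 (le_max_left _ _) hH1) hH2
      (hA x hx.1 H _ _ (min_le_left _ _) hAx),
    h' x hx.2.2 H (Bk_log hx.1 (le_max_right _ _) hH1) hH2
      (hA x hx.1 H _ _ (min_le_right _ _) hAx)⟩

theorem Bk_refl (A : ℝ → ℕ → ℝ → Prop) : Bk_Imp A A :=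
  fun ε hε => ⟨ε, 0, 0, hε, fun _ _ _ _ _ h => h⟩

/-- from a statement with `log x ≤ H` -/
theorem Bk_one {A B : ℝ → ℕ → ℝ → Prop} (h : ∀ ε : ℝ, 0 < ε → ∃ δ X : ℝ, 0 < δ ∧
    ∀ x : ℝ, X ≤ x → ∀ H : ℕ, Real.log x ≤ (H : ℝ) → (H : ℝ) ≤ (Real.log x) ^ 2 → A x H δ →
      B x H ε) : Bk_Imp A B := by
  intro ε hε
  obtain ⟨δ, X, hδ, h1⟩ := h ε hε
  exact ⟨δ, 1, X, hδ, fun x hx H hH1 hH2 hA => h1 x hx H (by rwa [one_mul] at hH1) hH2 hA⟩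

/-- `SW` for all sets -/
def Bk_SW (x : ℝ) (H : ℕ) (δ : ℝ) : Prop := ∀ D : Finset ℤ, D ⊆ Finset.Icc 1 (H : ℤ) → SW x H δ D

/-- `SP` for all sets -/
def Bk_SP (x : ℝ) (H : ℕ) (δ : ℝ) : Prop := ∀ D : Finset ℤ, D ⊆ Finset.Icc 1 (H : ℤ) → SP x H δ D

/-- `PL` for all sets -/
def Bk_PL (x : ℝ) (H : ℕ) (δ : ℝ) : Prop := ∀ D : Finset ℤ, D ⊆ Finset.Icc 1 (H : ℤ) → PL x H δ D

/-- `FL` for all sets -/
def Bk_FL (x : ℝ) (H : ℕ) (δ : ℝ) : Prop := ∀ D : Finset ℤ, D ⊆ Finset.Icc 1 (H : ℤ) → FL x H δ D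

/-- `TL` for all sets -/
def Bk_TL (x : ℝ) (H : ℕ) (δ : ℝ) : Prop := ∀ D' D : Finset ℤ, D' ⊆ Finset.Icc 1 (H : ℤ) →
  D ⊆ Finset.Icc 1 (H : ℤ) → TL x H δ D' D

/-- `SW` for the interval -/
def Bk_SW1 (x : ℝ) (H : ℕ) (δ : ℝ) : Prop := SW x H δ (Finset.Icc 1 (H : ℤ))

/-- `SP` for the interval -/
def Bk_SP1 (x : ℝ) (H : ℕ) (δ : ℝ) : Prop := SP x H δ (Finset.Icc 1 (H : ℤ))

/-- the third moment -/
def Bk_M3 (x : ℝ) (H : ℕ) (δ : ℝ) : Prop :=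
  ∑ n ∈ rgH x H, (nf (Finset.Icc 1 (H : ℤ)) (La x) (n : ℤ)) ^ 3 ≤ (1 + δ) * ((⌊x⌋₊ : ℝ) + 1) * (H : ℝ) ^ 3

theorem Bk_mono_SW : Bk_Mono Bk_SW := by
  intro x hx H δ δ' h hA D hD
  refine (hA D hD).trans ?_
  rw [mul_assoc, mul_assoc]
  exact mul_le_mul_of_nonneg_right h (by positivity)

theorem Bk_mono_TL : Bk_Mono Bk_TL := by
  intro x hx H δ δ' h hA D' D hD' hD
  refine (hA D' D hD' hD).trans ?_
  rw [mul_assoc, mul_assoc]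
  exact mul_le_mul_of_nonneg_right h (by positivity)

theorem Bk_mono_MP : Bk_Mono MeanPairs := by
  intro x hx H δ δ' h hA D hD
  exact (hA D hD).trans (mul_le_mul_of_nonneg_right h (by positivity))

theorem Bk_mono_MT : Bk_Mono MeanTriples := by
  intro x hx H δ δ' h hA D' D hD' hD
  have hL := Real.log_nonneg hx
  exact (hA D' D hD' hD).trans (mul_le_mul_of_nonneg_right h (by positivity))

theorem Bk_mono_Eq : Bk_Mono Equi := by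
  intro x hx H δ δ' h hA D hD
  have hL := Real.log_nonneg hx
  exact (hA D hD).trans (mul_le_mul_of_nonneg_right h (by positivity))

theorem Bk_PL_SW : Bk_Imp Bk_PL Bk_SW := Bc

theorem Bk_SW_SP : Bk_Imp Bk_SW Bk_SP := by
  intro ε hε
  obtain ⟨δ, K, X, hδ, h⟩ := Be1 ε hε
  exact ⟨δ, K, X, hδ, fun x hx H h1 h2 hA D hD => h x hx H h1 h2 D hD (hA D hD)⟩

theorem Bk_SW1_SP1 : Bk_Imp Bk_SW1 Bk_SP1 := by
  intro ε hε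
  obtain ⟨δ, K, X, hδ, h⟩ := Be1 ε hε
  exact ⟨δ, K, X, hδ, fun x hx H h1 h2 hA => h x hx H h1 h2 _ (Finset.Subset.refl _) hA⟩

theorem Bk_FL_SW : Bk_Imp Bk_FL Bk_SW := by
  refine Bk_one fun ε hε => ?_
  obtain ⟨δ, X, hδ, h⟩ := Be2 ε hε
  exact ⟨δ, X, hδ, fun x hx H h1 h2 hA D hD => h x hx H h1 h2 D hD (hA D hD)⟩

theorem Bk_SW_FL : Bk_Imp Bk_SW Bk_FL := by
  refine Bk_one fun ε hε => ?_
  obtain ⟨δ, X, hδ, h⟩ := Be3 ε hε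
  exact ⟨δ, X, hδ, fun x hx H h1 h2 hA D hD => h x hx H h1 h2 D hD (hA D hD)⟩

theorem Bk_SP_PL : Bk_Imp Bk_SP Bk_PL := by
  refine Bk_one fun ε hε => ?_
  obtain ⟨δ, X, hδ, h⟩ := Bf1 ε hε
  exact ⟨δ, X, hδ, fun x hx H h1 h2 hA D hD => h x hx H h1 h2 D hD (hA D hD)⟩

theorem Bk_SP_TL : Bk_Imp Bk_SP Bk_TL := by
  refine Bk_one fun ε hε => ?_
  obtain ⟨δ, X, hδ, h⟩ := Bf2 ε hε
  exact ⟨δ, X, hδ, fun x hx H h1 h2 hA D' D hD' hD => h x hx H h1 h2 D' D hD' hD (hA D' hD')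
    (hA D hD)⟩

theorem Bk_TL_SP1 : Bk_Imp Bk_TL Bk_SP1 := by
  have h1 : Bk_Imp Bk_TL Bk_M3 := Bg
  have h2 : Bk_Imp Bk_M3 Bk_SW1 := Bk_one Bh
  exact Bk_trans (Bk_trans h1 h2) Bk_SW1_SP1

theorem Bk_TL_PL : Bk_Imp Bk_TL Bk_PL := by
  have h1 : Bk_Imp (fun x H δ => Bk_SP1 x H δ ∧ Bk_TL x H δ) Bk_PL := by
    refine Bk_one fun ε hε => ?_
    obtain ⟨δ, X, hδ, h⟩ := Bi ε hε
    exact ⟨δ, X, hδ, fun x hx H h1 h2 hA D hD => h x hx H h1 h2 hA.1 D hD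
      (hA.2 _ D (Finset.Subset.refl _) hD)⟩
  exact Bk_trans (Bk_and Bk_mono_TL Bk_TL_SP1 (Bk_refl _)) h1

theorem Bk_SW_MP : Bk_Imp Bk_SW MeanPairs :=
  Bk_trans Bk_SW_SP (Bk_trans Bk_SP_PL (Bk_one Bj2))

theorem Bk_SW_MT : Bk_Imp Bk_SW MeanTriples :=
  Bk_trans Bk_SW_SP (Bk_trans Bk_SP_TL Bj4)

theorem Bk_SW_Eq : Bk_Imp Bk_SW Equi := Bk_trans Bk_SW_FL (Bk_one Bj6)

theorem Bk_MP_SW : Bk_Imp MeanPairs Bk_SW := Bk_trans (Bk_one Bj1) Bk_PL_SW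

theorem Bk_MT_SW : Bk_Imp MeanTriples Bk_SW := Bk_trans (Bk_trans Bj3 Bk_TL_PL) Bk_PL_SW

theorem Bk_Eq_SW : Bk_Imp Equi Bk_SW := Bk_trans (Bk_one Bj5) Bk_FL_SW

theorem MEfin (ε : ℝ) (hε : 0 < ε) : ∃ δ K X : ℝ, 0 < δ ∧ ∀ x : ℝ, X ≤ x → ∀ H : ℕ, K * Real.log x ≤ (H : ℝ) →
    (H : ℝ) ≤ (Real.log x) ^ 2 →
    (MeanPairs x H δ → MeanTriples x H ε ∧ Equi x H ε) ∧
    (MeanTriples x H δ → MeanPairs x H ε ∧ Equi x H ε) ∧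
    (Equi x H δ → MeanPairs x H ε ∧ MeanTriples x H ε) := by
  obtain ⟨δ1, K1, X1, hδ1, h1⟩ :=
    Bk_trans Bk_MP_SW (Bk_and Bk_mono_SW Bk_SW_MT Bk_SW_Eq) ε hε
  obtain ⟨δ2, K2, X2, hδ2, h2⟩ :=
    Bk_trans Bk_MT_SW (Bk_and Bk_mono_SW Bk_SW_MP Bk_SW_Eq) ε hε
  obtain ⟨δ3, K3, X3, hδ3, h3⟩ :=
    Bk_trans Bk_Eq_SW (Bk_and Bk_mono_SW Bk_SW_MP Bk_SW_MT) ε hε
  refine ⟨min δ1 (min δ2 δ3), max K1 (max K2 K3), max 1 (max X1 (max X2 X3)),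
    lt_min hδ1 (lt_min hδ2 hδ3), fun x hx H hH1 hH2 => ?_⟩
  simp only [max_le_iff] at hx
  obtain ⟨hx, hx1, hx2, hx3⟩ := hx
  refine ⟨fun h => ?_, fun h => ?_, fun h => ?_⟩
  · exact h1 x hx1 H (Bk_log hx (le_max_left _ _) hH1) hH2
      (Bk_mono_MP x hx H _ _ (min_le_left _ _) h)
  · exact h2 x hx2 H (Bk_log hx ((le_max_left _ _).trans (le_max_right _ _)) hH1) hH2
      (Bk_mono_MT x hx H _ _ ((min_le_right _ _).trans (min_le_left _ _)) h)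
  · exact h3 x hx3 H (Bk_log hx ((le_max_right _ _).trans (le_max_right _ _)) hH1) hH2
      (Bk_mono_Eq x hx H _ _ ((min_le_right _ _).trans (min_le_right _ _)) h)

end Pool.Agent.H12.DM
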