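import Pool.Agent.H12.DM.Bu
import Pool.Agent.H12.DM.Bj
import Pool.Agent.H12.DM.Bb

/-!
# Bl: local Fourier uniformity of the primes and small windows

`L = log x`, `N = ⌊x⌋₊ + 1`, `φ = wp (yy x) ≤ W ≤ √L`, `f = fB x = La - Mi`, `L ≤ H ≤ L^2`, `x` large. Let `u(n,d) = (1 if n - d is prime, else 0) - (φ/L) (1 if gcd(n-d, W) = 1, else 0)` be the function in `LocFour`.
For `x^(1/4) + H < n < N` and `1 ≤ d ≤ H`: `L u(n,d) = f(n - d)` (`x^(1/4) < n - d ≤ x`, `Mi(n-d) = Mm(n-d)`). For all `n`: `|L u(n,d)| ≤ L + φ ≤ 2L` and `|f| ≤ 2L`. So for weights `|w| ≤ 1`, for the other `n ∈ rgH x H` (at most `x^(1/4) + 2H + 2`), both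
`(∑_d w(d) f(n-d))^2` and `(∑_d w(d) L u(n,d))^2` are `≤ (2HL)^2`; hence
`|∑_{n∈rgH} (wf H w f n)^2 - L^2 ∑_{n<N} (∑_d w(d) u(n,d))^2| ≤ (x^(1/4) + 2H + 2) * 8 H^2 L^2 ≤ η N` for `x` large, any fixed `η` (`H ≤ L^2`).
* `Bl1`: `LocFour x H δ` gives for all `θ`: `∑_{rgH} (wf cos)^2 + (wf sin)^2 ≤ L^2 δ H^2 x/L^2 + 2ηN ≤ 2δ N H^2`; `Bu2` (`f` vanishes outside `[0,N)`: `fB_out`) with `w` the indicator of `D`: `SW x H (8δ) D`. So `δ = ε/8` works.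
* `Bl2`: `SW x H δ D` for all `D ⊆ Icc 1 H`: `Bu1` with `M = N + H`, `w = cos`, `sin`: `∑_{rgH} (wf cos)^2 + (wf sin)^2 ≤ 20 δ N H^2`, so `L^2 ∑_{n<N} (…) ≤ 20 δ N H^2 + 2ηN`; divide by `L^2`, `N ≤ 2x`: `≤ 50 δ H^2 x/L^2`. `δ = ε/50`.
-/

set_option autoImplicit false

namespace Pool.Agent.H12.DM

open Finset Pool.Agent.H17 Pool.Agent.H6.MF Pool.Agent.H6.MB

/-- indicator of the primes minus its model `(W / (φ(W) log x)) 1_{gcd(m,W) = 1}` -/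
noncomputable def pm (x : ℝ) (m : ℤ) : ℝ :=
  (if isP m then 1 else 0) - wp (yy x) / Real.log x * (if Int.gcd m (WW (yy x) : ℤ) = 1 then 1 else 0)

/-- local Fourier uniformity of the primes in windows of length `H`: for every frequency `θ` the exponential sums over
the windows are small in mean square -/
def LocFour (x : ℝ) (H : ℕ) (δ : ℝ) : Prop :=
  ∀ θ : ℝ, ∑ n ∈ Finset.range (⌊x⌋₊ + 1),
    ((∑ d ∈ Finset.Icc (1 : ℤ) (H : ℤ), Real.cos (2 * Real.pi * θ * d) * pm x ((n : ℤ) - d)) ^ 2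
      + (∑ d ∈ Finset.Icc (1 : ℤ) (H : ℤ), Real.sin (2 * Real.pi * θ * d) * pm x ((n : ℤ) - d)) ^ 2)
    ≤ δ * ((H : ℝ) ^ 2 * x / (Real.log x) ^ 2)

/-- the window sum of `pm` -/
noncomputable def Bl_B (x : ℝ) (H : ℕ) (w : ℤ → ℝ) (n : ℤ) : ℝ :=
  ∑ d ∈ Finset.Icc (1 : ℤ) (H : ℤ), w d * pm x (n - d)

lemma Bl_wp_le {x : ℝ} (hL : 1 ≤ Real.log x) : wp (yy x) ≤ Real.log x := by
  have hW1 : (1 : ℝ) ≤ (WW (yy x) : ℝ) := by exact_mod_cast WW_pos (yy x)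
  have h1 : wp (yy x) ≤ (WW (yy x) : ℝ) := by
    unfold wp
    rw [div_le_iff₀ (tot_pos_real _)]
    have h2 : (1 : ℝ) ≤ ((WW (yy x)).totient : ℝ) := by
      exact_mod_cast Nat.totient_pos.mpr (WW_pos (yy x))
    nlinarith
  have h3 : (WW (yy x) : ℝ) ≤ Real.sqrt (Real.log x) := by
    refine le_trans ?_ (WW_yy_pow_le hL)
    exact le_self_pow₀ hW1 (by norm_num)
  have h4 : Real.sqrt (Real.log x) ≤ Real.log x := by
    rw [Real.sqrt_le_left (by linarith)]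
    nlinarith
  linarith

lemma Bl_fB_abs {x : ℝ} (hx : 1 ≤ x) (hL : 1 ≤ Real.log x) (n : ℤ) : |fB x n| ≤ Real.log x := by
  unfold fB
  have h1 := La_nonneg hx n
  have h2 := La_le hx n
  have h3 := Mi_nonneg x n
  have h4 := (Mi_le x n).trans ((Mm_le (yy x) n).trans (Bl_wp_le hL))
  rw [abs_le]
  constructor <;> linarith

lemma Bl_pm_abs {x : ℝ} (hL : 1 ≤ Real.log x) (n : ℤ) : |Real.log x * pm x n| ≤ Real.log x := by
  have hw0 := wp_pos (yy x)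
  have hw1 := Bl_wp_le hL
  have hL0 : Real.log x ≠ 0 := by linarith
  unfold pm
  have e : Real.log x * ((if isP n then (1 : ℝ) else 0) - wp (yy x) / Real.log x *
      (if Int.gcd n (WW (yy x) : ℤ) = 1 then (1 : ℝ) else 0)) =
      Real.log x * (if isP n then (1 : ℝ) else 0) - wp (yy x) *
      (if Int.gcd n (WW (yy x) : ℤ) = 1 then (1 : ℝ) else 0) := by
    field_simp
  rw [e, abs_le]
  split_ifs <;> constructor <;> linarith

lemma Bl_sum_abs {H : ℕ} {B : ℝ} (w g : ℤ → ℝ) (hw : ∀ d, |w d| ≤ 1) (hg : ∀ m, |g m| ≤ B) (n : ℤ) :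
    |∑ d ∈ Finset.Icc (1 : ℤ) (H : ℤ), w d * g (n - d)| ≤ (H : ℝ) * B := by
  refine (Finset.abs_sum_le_sum_abs _ _).trans ?_
  have h1 : ∀ d ∈ Finset.Icc (1 : ℤ) (H : ℤ), |w d * g (n - d)| ≤ B := by
    intro d _
    rw [abs_mul]
    have h2 := hw d
    have h3 := hg (n - d)
    have h4 := abs_nonneg (g (n - d))
    have h5 := abs_nonneg (w d)
    nlinarith
  refine (Finset.sum_le_sum h1).trans (le_of_eq ?_)
  rw [Finset.sum_const, nsmul_eq_mul]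
  congr 1
  rw [Int.card_Icc]
  have : ((H : ℤ) + 1 - 1).toNat = H := by omega
  rw [this]

lemma Bl_main {x : ℝ} {H : ℕ} (hx : 1 ≤ x) (hL : 1 ≤ Real.log x) (w : ℤ → ℝ) {n : ℕ}
    (h1 : x ^ (1 / 4 : ℝ) + (H : ℝ) < (n : ℝ)) (h2 : n < ⌊x⌋₊ + 1) :
    wf H w (fB x) (n : ℤ) = Real.log x * Bl_B x H w (n : ℤ) := by
  have hL0 : Real.log x ≠ 0 := by linarith
  have hx4 : (0 : ℝ) ≤ x ^ (1 / 4 : ℝ) := Real.rpow_nonneg (by linarith) _
  unfold wf Bl_B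
  rw [Finset.mul_sum]
  apply Finset.sum_congr rfl
  intro d hd
  rw [Finset.mem_Icc] at hd
  have hd1 : (d : ℝ) ≤ (H : ℝ) := by exact_mod_cast hd.2
  have hd0 : (1 : ℝ) ≤ (d : ℝ) := by exact_mod_cast hd.1
  have hnx : (n : ℝ) ≤ x := by
    have h3 : n ≤ ⌊x⌋₊ := by omega
    exact (Nat.le_floor_iff (by linarith)).1 h3
  have hlow : x ^ (1 / 4 : ℝ) < ((((n : ℤ) - d : ℤ)) : ℝ) := by
    push_cast
    linarith
  have hup : ((((n : ℤ) - d : ℤ)) : ℝ) ≤ x := by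
    push_cast
    linarith
  have hpos : 0 ≤ (n : ℤ) - d := by
    have : (0 : ℝ) ≤ ((((n : ℤ) - d : ℤ)) : ℝ) := by linarith
    exact_mod_cast this
  have hlt : (n : ℤ) - d < ((⌊x⌋₊ + 1 : ℕ) : ℤ) := by
    have : (n : ℤ) < ((⌊x⌋₊ + 1 : ℕ) : ℤ) := by exact_mod_cast h2
    omega
  have hfB : fB x ((n : ℤ) - d) = Real.log x * pm x ((n : ℤ) - d) := by
    unfold fB
    rw [Mi_of_mem hpos hlt]
    unfold La Mm pm
    have e1 : (if isP ((n : ℤ) - d) ∧ x ^ (1 / 4 : ℝ) < ((((n : ℤ) - d : ℤ)) : ℝ) ∧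
        ((((n : ℤ) - d : ℤ)) : ℝ) ≤ x then Real.log x else 0) =
        Real.log x * (if isP ((n : ℤ) - d) then (1 : ℝ) else 0) := by
      by_cases hp : isP ((n : ℤ) - d)
      · rw [if_pos ⟨hp, hlow, hup⟩, if_pos hp, mul_one]
      · rw [if_neg (fun h => hp h.1), if_neg hp, mul_zero]
    have e2 : (if Int.gcd ((n : ℤ) - d) (WW (yy x) : ℤ) = 1 then wp (yy x) else 0) =
        wp (yy x) * (if Int.gcd ((n : ℤ) - d) (WW (yy x) : ℤ) = 1 then (1 : ℝ) else 0) := by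
      split_ifs <;> simp
    rw [e1, e2]
    field_simp
  rw [hfB]
  ring

lemma Bl_event (η : ℝ) (hη : 0 < η) : ∃ X : ℝ, ∀ x : ℝ, X ≤ x → 1 ≤ x ∧ 1 ≤ Real.log x ∧
    (Real.log x) ^ 8 ≤ η / 4 * x ^ (1 / 4 : ℝ) := by
  have h1 : ∀ᶠ x : ℝ in Filter.atTop, 1 ≤ x := Filter.eventually_ge_atTop 1
  have h2 : ∀ᶠ x : ℝ in Filter.atTop, 1 ≤ Real.log x :=
    Real.tendsto_log_atTop.eventually_ge_atTop 1
  have h5 := (isLittleO_log_rpow_rpow_atTop (8 : ℝ) (s := 1 / 4) (by norm_num)).bound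
    (by positivity : (0 : ℝ) < η / 4)
  obtain ⟨X, hX⟩ := Filter.eventually_atTop.1 (h1.and (h2.and h5))
  refine ⟨X, fun x hx => ?_⟩
  obtain ⟨g1, g2, g5⟩ := hX x hx
  refine ⟨g1, g2, ?_⟩
  rw [Real.norm_of_nonneg (by positivity), Real.norm_of_nonneg (by positivity)] at g5
  have g6 : Real.log x ^ (8 : ℝ) = Real.log x ^ 8 := by
    rw [← Real.rpow_natCast]
    norm_num
  rw [g6] at g5
  exact g5

lemma Bl_cmp (η : ℝ) (hη : 0 < η) : ∃ X : ℝ, ∀ x : ℝ, X ≤ x → 1 ≤ x ∧ 1 ≤ Real.log x ∧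
    ∀ H : ℕ, Real.log x ≤ (H : ℝ) → (H : ℝ) ≤ (Real.log x) ^ 2 → ∀ w : ℤ → ℝ, (∀ d, |w d| ≤ 1) →
    |∑ n ∈ rgH x H, (wf H w (fB x) (n : ℤ)) ^ 2
      - (Real.log x) ^ 2 * ∑ n ∈ Finset.range (⌊x⌋₊ + 1), (Bl_B x H w (n : ℤ)) ^ 2| ≤ η * ((⌊x⌋₊ : ℝ) + 1) := by
  obtain ⟨X, hX⟩ := Bl_event η hη
  refine ⟨X, fun x hx => ?_⟩
  obtain ⟨hx1, hL, hL8⟩ := hX x hx
  refine ⟨hx1, hL, fun H hH1 hH2 w hw => ?_⟩
  set L := Real.log x with hLd
  set N : ℕ := ⌊x⌋₊ + 1 with hN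
  have hH0 : (0 : ℝ) ≤ H := Nat.cast_nonneg H
  have hx4 : (1 : ℝ) ≤ x ^ (1 / 4 : ℝ) := Real.one_le_rpow hx1 (by norm_num)
  set t : ℝ := x ^ (1 / 4 : ℝ) with ht
  have ht4 : t ^ 4 = x := by
    rw [ht, ← Real.rpow_natCast, ← Real.rpow_mul (by linarith)]
    norm_num
  set G : ℕ → ℝ := fun n => (wf H w (fB x) (n : ℤ)) ^ 2 with hG
  set K : ℕ → ℝ := fun n => if n < N then (L * Bl_B x H w (n : ℤ)) ^ 2 else 0 with hK
  have hG0 : ∀ n, 0 ≤ G n := fun n => sq_nonneg _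
  have hK0 : ∀ n, 0 ≤ K n := fun n => by
    simp only [hK]
    split_ifs
    · exact sq_nonneg _
    · exact le_rfl
  have hGB : ∀ n, G n ≤ ((H : ℝ) * L) ^ 2 := fun n => by
    simp only [hG]
    rw [← sq_abs]
    exact pow_le_pow_left₀ (abs_nonneg _) (Bl_sum_abs w (fB x) hw (fun m => Bl_fB_abs hx1 hL m) (n : ℤ)) 2
  have hKB : ∀ n, K n ≤ ((H : ℝ) * L) ^ 2 := fun n => by
    simp only [hK]
    split_ifs
    · have e : L * Bl_B x H w (n : ℤ) = ∑ d ∈ Finset.Icc (1 : ℤ) (H : ℤ), w d * (fun m => L * pm x m) ((n : ℤ) - d) := by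
        unfold Bl_B
        rw [Finset.mul_sum]
        apply Finset.sum_congr rfl
        intro d _
        show L * (w d * pm x ((n : ℤ) - d)) = w d * (L * pm x ((n : ℤ) - d))
        ring
      rw [e, ← sq_abs]
      exact pow_le_pow_left₀ (abs_nonneg _)
        (Bl_sum_abs w (fun m => L * pm x m) hw (fun m => Bl_pm_abs hL m) (n : ℤ)) 2
    · positivity
  have hsumK : L ^ 2 * ∑ n ∈ Finset.range N, (Bl_B x H w (n : ℤ)) ^ 2 = ∑ n ∈ rgH x H, K n := by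
    have e1 : ∑ n ∈ rgH x H, K n = ∑ n ∈ Finset.range N, K n + ∑ k ∈ Finset.range H, K (N + k) :=
      Finset.sum_range_add _ _ _
    rw [e1]
    have e2 : ∑ k ∈ Finset.range H, K (N + k) = 0 := by
      apply Finset.sum_eq_zero
      intro k _
      simp only [hK]
      rw [if_neg (by omega)]
    rw [e2, add_zero, Finset.mul_sum]
    apply Finset.sum_congr rfl
    intro n hn
    rw [Finset.mem_range] at hn
    simp only [hK]
    rw [if_pos hn]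
    ring
  rw [hsumK, ← Finset.sum_sub_distrib]
  refine (Finset.abs_sum_le_sum_abs _ _).trans ?_
  set E : Finset ℕ := (rgH x H).filter (fun n : ℕ => ¬ (t + (H : ℝ) < (n : ℝ) ∧ n < N)) with hE
  have h1 : ∀ n ∈ rgH x H, |G n - K n| ≤ if ¬ (t + (H : ℝ) < (n : ℝ) ∧ n < N) then ((H : ℝ) * L) ^ 2 else 0 := by
    intro n _
    by_cases hc : t + (H : ℝ) < (n : ℝ) ∧ n < N
    · rw [if_neg (not_not.2 hc)]
      have e : G n = K n := by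
        simp only [hG, hK]
        rw [if_pos hc.2, Bl_main hx1 hL w hc.1 hc.2]
      rw [e, sub_self, abs_zero]
    · rw [if_pos hc, abs_le]
      have a1 := hG0 n
      have a2 := hK0 n
      have a3 := hGB n
      have a4 := hKB n
      constructor <;> linarith
  refine (Finset.sum_le_sum h1).trans ?_
  rw [← Finset.sum_filter, Finset.sum_const, nsmul_eq_mul, ← hE]
  have hcard : E.card ≤ (⌊t + (H : ℝ)⌋₊ + 1) + H := by
    have hsub : E ⊆ Finset.range (⌊t + (H : ℝ)⌋₊ + 1) ∪ Finset.Ico N (N + H) := by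
      intro n hn
      rw [hE, Finset.mem_filter] at hn
      obtain ⟨hn1, hn2⟩ := hn
      have hn1' : n < N + H := Finset.mem_range.1 hn1
      rw [Finset.mem_union, Finset.mem_range, Finset.mem_Ico]
      by_cases hnN : n < N
      · left
        have h3 : (n : ℝ) ≤ t + (H : ℝ) := by
          by_contra hcon
          push Not at hcon
          exact hn2 ⟨hcon, hnN⟩
        have h4 : n ≤ ⌊t + (H : ℝ)⌋₊ := Nat.le_floor h3
        omega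
      · right
        omega
    refine (Finset.card_le_card hsub).trans ((Finset.card_union_le _ _).trans ?_)
    rw [Finset.card_range, Nat.card_Ico]
    omega
  have hcardR : (E.card : ℝ) ≤ t + 2 * (H : ℝ) + 1 := by
    have h5 : (E.card : ℝ) ≤ (((⌊t + (H : ℝ)⌋₊ + 1) + H : ℕ) : ℝ) := by exact_mod_cast hcard
    have h6 : ((⌊t + (H : ℝ)⌋₊ : ℕ) : ℝ) ≤ t + (H : ℝ) := Nat.floor_le (by positivity)
    push_cast at h5
    linarith
  have hHL : ((H : ℝ) * L) ^ 2 ≤ L ^ 6 := by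
    have h7 : (H : ℝ) * L ≤ L ^ 3 := by
      calc (H : ℝ) * L ≤ L ^ 2 * L := mul_le_mul_of_nonneg_right hH2 (by linarith)
        _ = L ^ 3 := by ring
    calc ((H : ℝ) * L) ^ 2 ≤ (L ^ 3) ^ 2 := pow_le_pow_left₀ (by positivity) h7 2
      _ = L ^ 6 := by ring
  have hL6 : L ^ 6 ≤ L ^ 8 := pow_le_pow_right₀ hL (by norm_num)
  have hL60 : 0 ≤ L ^ 6 := by positivity
  have hxN : x ≤ (⌊x⌋₊ : ℝ) + 1 := (Nat.lt_floor_add_one x).le
  calc (E.card : ℝ) * ((H : ℝ) * L) ^ 2 ≤ (t + 2 * (H : ℝ) + 1) * L ^ 6 :=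
        mul_le_mul hcardR hHL (sq_nonneg _) (by positivity)
    _ ≤ (t + 2 * L ^ 2 + 1) * L ^ 6 := by
        apply mul_le_mul_of_nonneg_right _ hL60
        linarith
    _ = t * L ^ 6 + 2 * L ^ 8 + L ^ 6 := by ring
    _ ≤ t * L ^ 8 + 2 * L ^ 8 + L ^ 8 := by
        have := mul_le_mul_of_nonneg_left hL6 (by linarith : (0 : ℝ) ≤ t)
        linarith
    _ = (t + 3) * L ^ 8 := by ring
    _ ≤ (4 * t) * (η / 4 * t) := by
        apply mul_le_mul (by linarith) hL8 (by positivity) (by positivity)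
    _ = η * t ^ 2 := by ring
    _ ≤ η * t ^ 4 := by
        apply mul_le_mul_of_nonneg_left _ hη.le
        exact pow_le_pow_right₀ hx4 (by norm_num)
    _ ≤ η * ((⌊x⌋₊ : ℝ) + 1) := by
        rw [ht4]
        exact mul_le_mul_of_nonneg_left hxN hη.le

theorem Bl1 (ε : ℝ) (hε : 0 < ε) : ∃ δ X : ℝ, 0 < δ ∧ ∀ x : ℝ, X ≤ x → ∀ H : ℕ, Real.log x ≤ (H : ℝ) →
    (H : ℝ) ≤ (Real.log x) ^ 2 → LocFour x H δ → ∀ D : Finset ℤ, D ⊆ Finset.Icc 1 (H : ℤ) → SW x H ε D := by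
  obtain ⟨X, hX⟩ := Bl_cmp (ε / 16) (by positivity)
  refine ⟨ε / 8, X, by positivity, fun x hx H hH1 hH2 hF D hD => ?_⟩
  obtain ⟨hx1, hL, hcmp⟩ := hX x hx
  have hLpos : 0 < Real.log x := by linarith
  have hN0 : (0 : ℝ) < (⌊x⌋₊ : ℝ) + 1 := by positivity
  have hxN : x ≤ (⌊x⌋₊ : ℝ) + 1 := (Nat.lt_floor_add_one x).le
  have hH1' : (1 : ℝ) ≤ (H : ℝ) := by linarith
  have hHsq : (1 : ℝ) ≤ (H : ℝ) ^ 2 := one_le_pow₀ hH1'
  have key := Bu2 (⌊x⌋₊ + 1) H (fB x) (2 * (ε / 8) * ((⌊x⌋₊ : ℝ) + 1) * (H : ℝ) ^ 2)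
    (fun n hn => fB_out (by linarith) hn) (by
      intro θ
      have hc := (abs_le.1 (hcmp H hH1 hH2 (fun d => Real.cos (2 * Real.pi * θ * d)) (fun d => Real.abs_cos_le_one _))).2
      have hs := (abs_le.1 (hcmp H hH1 hH2 (fun d => Real.sin (2 * Real.pi * θ * d)) (fun d => Real.abs_sin_le_one _))).2
      have hF' := hF θ
      rw [Finset.sum_add_distrib] at hF' ⊢
      have e1 : ∑ n ∈ Finset.range (⌊x⌋₊ + 1), (Bl_B x H (fun d => Real.cos (2 * Real.pi * θ * d)) (n : ℤ)) ^ 2 +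
          ∑ n ∈ Finset.range (⌊x⌋₊ + 1), (Bl_B x H (fun d => Real.sin (2 * Real.pi * θ * d)) (n : ℤ)) ^ 2
          ≤ ε / 8 * ((H : ℝ) ^ 2 * x / (Real.log x) ^ 2) := hF'
      have e2 : (Real.log x) ^ 2 * (∑ n ∈ Finset.range (⌊x⌋₊ + 1), (Bl_B x H (fun d => Real.cos (2 * Real.pi * θ * d)) (n : ℤ)) ^ 2 +
          ∑ n ∈ Finset.range (⌊x⌋₊ + 1), (Bl_B x H (fun d => Real.sin (2 * Real.pi * θ * d)) (n : ℤ)) ^ 2)
          ≤ ε / 8 * ((H : ℝ) ^ 2 * x) := by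
        have := mul_le_mul_of_nonneg_left e1 (sq_nonneg (Real.log x))
        have e3 : (Real.log x) ^ 2 * (ε / 8 * ((H : ℝ) ^ 2 * x / (Real.log x) ^ 2)) = ε / 8 * ((H : ℝ) ^ 2 * x) := by
          field_simp
        linarith
      have e4 : ε / 8 * ((H : ℝ) ^ 2 * x) ≤ ε / 8 * ((H : ℝ) ^ 2 * ((⌊x⌋₊ : ℝ) + 1)) := by
        apply mul_le_mul_of_nonneg_left _ (by positivity)
        exact mul_le_mul_of_nonneg_left hxN (by positivity)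
      have e5 : 2 * (ε / 16 * ((⌊x⌋₊ : ℝ) + 1)) ≤ ε / 8 * ((H : ℝ) ^ 2 * ((⌊x⌋₊ : ℝ) + 1)) := by
        have : (⌊x⌋₊ : ℝ) + 1 ≤ (H : ℝ) ^ 2 * ((⌊x⌋₊ : ℝ) + 1) := le_mul_of_one_le_left hN0.le hHsq
        have := mul_le_mul_of_nonneg_left this (by positivity : (0 : ℝ) ≤ ε / 8)
        linarith
      have e6 : ∀ g : ℕ → ℝ, ∑ n ∈ Finset.range (⌊x⌋₊ + 1 + H), g n = ∑ n ∈ rgH x H, g n := fun _ => rfl
      rw [e6, e6]
      linarith)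
    (fun d => if d ∈ D then 1 else 0) (by
      intro d
      split_ifs <;> simp)
  unfold SW
  have e7 : ∀ n : ℤ, wf H (fun d => if d ∈ D then (1 : ℝ) else 0) (fB x) n = nf D (fB x) n := by
    intro n
    unfold wf nf
    simp only [ite_mul, one_mul, zero_mul]
    rw [← Finset.sum_filter]
    congr 1
    ext d
    rw [Finset.mem_filter]
    exact ⟨fun h => h.2, fun h => ⟨hD h, h⟩⟩
  simp only [e7] at key
  refine le_trans ?_ (key.trans (le_of_eq ?_))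
  · exact le_of_eq rfl
  · ring

theorem Bl2 (ε : ℝ) (hε : 0 < ε) : ∃ δ X : ℝ, 0 < δ ∧ ∀ x : ℝ, X ≤ x → ∀ H : ℕ, Real.log x ≤ (H : ℝ) →
    (H : ℝ) ≤ (Real.log x) ^ 2 → (∀ D : Finset ℤ, D ⊆ Finset.Icc 1 (H : ℤ) → SW x H δ D) → LocFour x H ε := by
  obtain ⟨X, hX⟩ := Bl_cmp (ε / 50) (by positivity)
  refine ⟨ε / 50, X, by positivity, fun x hx H hH1 hH2 hS θ => ?_⟩
  obtain ⟨hx1, hL, hcmp⟩ := hX x hx
  have hLpos : 0 < Real.log x := by linarith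
  have hN0 : (0 : ℝ) < (⌊x⌋₊ : ℝ) + 1 := by positivity
  have hNx : (⌊x⌋₊ : ℝ) + 1 ≤ 2 * x := by
    have := Nat.floor_le (by linarith : (0 : ℝ) ≤ x)
    linarith
  have hH1' : (1 : ℝ) ≤ (H : ℝ) := by linarith
  have hHsq : (1 : ℝ) ≤ (H : ℝ) ^ 2 := one_le_pow₀ hH1'
  have key := Bu1 (⌊x⌋₊ + 1 + H) H (fB x) (ε / 50 * ((⌊x⌋₊ : ℝ) + 1) * (H : ℝ) ^ 2) (fun D hD => hS D hD)
  have kc : ∑ n ∈ rgH x H, (wf H (fun d => Real.cos (2 * Real.pi * θ * d)) (fB x) (n : ℤ)) ^ 2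
      ≤ 10 * (ε / 50 * ((⌊x⌋₊ : ℝ) + 1) * (H : ℝ) ^ 2) := key _ (fun d => Real.abs_cos_le_one _)
  have ks : ∑ n ∈ rgH x H, (wf H (fun d => Real.sin (2 * Real.pi * θ * d)) (fB x) (n : ℤ)) ^ 2
      ≤ 10 * (ε / 50 * ((⌊x⌋₊ : ℝ) + 1) * (H : ℝ) ^ 2) := key _ (fun d => Real.abs_sin_le_one _)
  have hc := (abs_le.1 (hcmp H hH1 hH2 (fun d => Real.cos (2 * Real.pi * θ * d)) (fun d => Real.abs_cos_le_one _))).1
  have hs := (abs_le.1 (hcmp H hH1 hH2 (fun d => Real.sin (2 * Real.pi * θ * d)) (fun d => Real.abs_sin_le_one _))).1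
  rw [Finset.sum_add_distrib]
  show ∑ n ∈ Finset.range (⌊x⌋₊ + 1), (Bl_B x H (fun d => Real.cos (2 * Real.pi * θ * d)) (n : ℤ)) ^ 2 +
          ∑ n ∈ Finset.range (⌊x⌋₊ + 1), (Bl_B x H (fun d => Real.sin (2 * Real.pi * θ * d)) (n : ℤ)) ^ 2
          ≤ ε * ((H : ℝ) ^ 2 * x / (Real.log x) ^ 2)
  have e1 : (Real.log x) ^ 2 * (∑ n ∈ Finset.range (⌊x⌋₊ + 1), (Bl_B x H (fun d => Real.cos (2 * Real.pi * θ * d)) (n : ℤ)) ^ 2 +
          ∑ n ∈ Finset.range (⌊x⌋₊ + 1), (Bl_B x H (fun d => Real.sin (2 * Real.pi * θ * d)) (n : ℤ)) ^ 2)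
      ≤ ε * ((H : ℝ) ^ 2 * x) := by
    have e2 : (⌊x⌋₊ : ℝ) + 1 ≤ ((⌊x⌋₊ : ℝ) + 1) * (H : ℝ) ^ 2 := le_mul_of_one_le_right hN0.le hHsq
    have e3 : ((⌊x⌋₊ : ℝ) + 1) * (H : ℝ) ^ 2 ≤ 2 * x * (H : ℝ) ^ 2 := mul_le_mul_of_nonneg_right hNx (by positivity)
    have e4 := mul_le_mul_of_nonneg_left e2 (by positivity : (0 : ℝ) ≤ ε / 50)
    have e5 := mul_le_mul_of_nonneg_left e3 (by positivity : (0 : ℝ) ≤ ε / 50)
    have e6 : (0 : ℝ) ≤ ε * ((H : ℝ) ^ 2 * x) := by positivity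
    linarith
  rw [show ε * ((H : ℝ) ^ 2 * x / (Real.log x) ^ 2) = ε * ((H : ℝ) ^ 2 * x) / (Real.log x) ^ 2 by ring,
    le_div_iff₀ (by positivity), mul_comm]
  exact e1

end Pool.Agent.H12.DM
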