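import Pool.Agent.H12.DM.Bk
import Pool.Agent.H12.DM.Bl

/-!
# Bm: the four equivalent statements

Everything for `K L ≤ H ≤ L^2`, `x` large. As in `Bk` (whose header and proof contain the chains: the proof of `MEfin` in `Bk.lean` can be copied and shortened; use only statements of the imported rows). All properties are monotone in the constant.
* (S) `SW` (for all `D ⊆ Icc 1 H`) implies `MeanPairs`, `MeanTriples`, `Equi` (via `Be1`, `Bf1`, `Bf2`, `Be3`, `Bj2`, `Bj4`, `Bj6`) and `LocFour` (`Bl2`).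
* Each of the four implies `SW`: `MeanPairs` (`Bj1`, `Bc`), `Equi` (`Bj5`, `Be2`), `LocFour` (`Bl1`), `MeanTriples` (`Bj3`, `Bg`, `Bh`, `Be1`, `Bi`, `Bc`).
State both as lemmas (`ME4a`, `ME4b` below) and combine.
-/

set_option autoImplicit false

namespace Pool.Agent.H12.DM

open Finset Pool.Agent.H17 Pool.Agent.H6.MF Pool.Agent.H6.MB

theorem Bm_mono_LF : Bk_Mono LocFour := by
  intro x hx H δ δ' h hA θ
  exact (hA θ).trans (mul_le_mul_of_nonneg_right h (by positivity))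

theorem Bm_SW_all : Bk_Imp Bk_SW
    (fun x H δ => MeanPairs x H δ ∧ MeanTriples x H δ ∧ Equi x H δ ∧ LocFour x H δ) :=
  Bk_and Bk_mono_SW Bk_SW_MP (Bk_and Bk_mono_SW Bk_SW_MT
    (Bk_and Bk_mono_SW Bk_SW_Eq (Bk_one Bl2)))

theorem Bm_or {A B C : ℝ → ℕ → ℝ → Prop} (hA : Bk_Mono A) (hB : Bk_Mono B) (h1 : Bk_Imp A C)
    (h2 : Bk_Imp B C) : Bk_Imp (fun x H δ => A x H δ ∨ B x H δ) C := by
  intro ε hε
  obtain ⟨δ, K, X, hδ, h⟩ := h1 ε hε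
  obtain ⟨δ', K', X', hδ', h'⟩ := h2 ε hε
  refine ⟨min δ δ', max K K', max 1 (max X X'), lt_min hδ hδ', fun x hx H hH1 hH2 hAx => ?_⟩
  simp only [max_le_iff] at hx
  rcases hAx with hAx | hAx
  · exact h x hx.2.1 H (Bk_log hx.1 (le_max_left _ _) hH1) hH2
      (hA x hx.1 H _ _ (min_le_left _ _) hAx)
  · exact h' x hx.2.2 H (Bk_log hx.1 (le_max_right _ _) hH1) hH2
      (hB x hx.1 H _ _ (min_le_right _ _) hAx)

theorem Bm_mono_or {A B : ℝ → ℕ → ℝ → Prop} (hA : Bk_Mono A) (hB : Bk_Mono B) :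
    Bk_Mono (fun x H δ => A x H δ ∨ B x H δ) := by
  intro x hx H δ δ' h hAB
  rcases hAB with h1 | h1
  · exact Or.inl (hA x hx H δ δ' h h1)
  · exact Or.inr (hB x hx H δ δ' h h1)

theorem Bm_any_SW : Bk_Imp
    (fun x H δ => MeanPairs x H δ ∨ MeanTriples x H δ ∨ Equi x H δ ∨ LocFour x H δ) Bk_SW :=
  Bm_or Bk_mono_MP (Bm_mono_or Bk_mono_MT (Bm_mono_or Bk_mono_Eq Bm_mono_LF)) Bk_MP_SW
    (Bm_or Bk_mono_MT (Bm_mono_or Bk_mono_Eq Bm_mono_LF) Bk_MT_SW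
      (Bm_or Bk_mono_Eq Bm_mono_LF Bk_Eq_SW (Bk_one Bl1)))

theorem ME4a (ε : ℝ) (hε : 0 < ε) : ∃ δ K X : ℝ, 0 < δ ∧ ∀ x : ℝ, X ≤ x → ∀ H : ℕ, K * Real.log x ≤ (H : ℝ) →
    (H : ℝ) ≤ (Real.log x) ^ 2 → (∀ D : Finset ℤ, D ⊆ Finset.Icc 1 (H : ℤ) → SW x H δ D) →
    MeanPairs x H ε ∧ MeanTriples x H ε ∧ Equi x H ε ∧ LocFour x H ε :=
  Bm_SW_all ε hε

theorem ME4b (ε : ℝ) (hε : 0 < ε) : ∃ δ K X : ℝ, 0 < δ ∧ ∀ x : ℝ, X ≤ x → ∀ H : ℕ, K * Real.log x ≤ (H : ℝ) →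
    (H : ℝ) ≤ (Real.log x) ^ 2 → (MeanPairs x H δ ∨ MeanTriples x H δ ∨ Equi x H δ ∨ LocFour x H δ) →
    ∀ D : Finset ℤ, D ⊆ Finset.Icc 1 (H : ℤ) → SW x H ε D :=
  Bm_any_SW ε hε

theorem ME4 (ε : ℝ) (hε : 0 < ε) : ∃ δ K X : ℝ, 0 < δ ∧ ∀ x : ℝ, X ≤ x → ∀ H : ℕ, K * Real.log x ≤ (H : ℝ) →
    (H : ℝ) ≤ (Real.log x) ^ 2 → (MeanPairs x H δ ∨ MeanTriples x H δ ∨ Equi x H δ ∨ LocFour x H δ) →
    MeanPairs x H ε ∧ MeanTriples x H ε ∧ Equi x H ε ∧ LocFour x H ε :=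
  Bk_trans Bm_any_SW Bm_SW_all ε hε

end Pool.Agent.H12.DM
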