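import Mathlib

/-!
# Bu: weights with values in `[-1,1]` and exponential sums (pure finite sums)

Notation: `I = Icc 1 H`, `T w n = ∑_{d∈I} w d * f (n - d)`, `S` a real number.

* `Bu1` (all sets `D` give all weights). `Φ(w) = ∑_n (T w n)^2` is a convex function of `w` (a sum of squares of linear functions). Claim: for `w : I → [0,1]`, `Φ(w) ≤ S`. Proof: replace the coordinates one after another by `0` or `1`: as a function of
  one coordinate `Φ` is convex (a quadratic polynomial with nonnegative leading coefficient), so on `[0,1]` it is at most the larger of its values at `0` and `1`. Precisely: by induction on a finset `E ⊆ I`: if `w` has values in `[0,1]` on `I` and in `{0,1}` on `I \ E`, then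
  `Φ(w) ≤ S`. For `E = ∅`, `w` is on `I` the indicator of `D = {d ∈ I : w d = 1}`. Step: `w = (1-t) w₀ + t w₁` with `t = w e`, `w₀ e = 0`, `w₁ e = 1`, `(T w n)^2 ≤ (1-t) (T w₀ n)^2 + t (T w₁ n)^2`.
  For `|w| ≤ 1` write `w = 2 w' - 1`, `w' ∈ [0,1]`: `(T w n)^2 ≤ 2 * 4 (T w' n)^2 + 2 (T 1 n)^2`, so `Φ(w) ≤ 10 S`.
* `Bu2` (exponential sums give all weights). Let `c h = ∑_{n} f n * f (n - h)` over all integers `n ∈ [0, N)` (`f` vanishes outside `[0,N)`), `c (-h) = c h`. For real sequences `w` on `Icc 1 K`: `∑_{n<N+K} (∑_{d∈Icc 1 K} w d f(n-d))^2 = ∑_{k,d∈Icc 1 K} w k w d c (k - d)`; so for `e_K(θ) =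
  ∑_{n<N+K} ((∑_{d∈Icc 1 K} cos(2πθd) f(n-d))^2 + (∑ sin(2πθd) f(n-d))^2) = ∑_{k,d} cos(2πθ(k-d)) c(k-d) = ∑_{|h|<K} (K-|h|) c(h) cos(2πθh)`. Hypothesis: `e_H(θ) ≤ S` for all `θ`.
  1. `e_{2H}(θ) ≤ 4S`: split `Icc 1 (2H)` into `Icc 1 H` and `d = d₁ + H`; the second half is a rotation (by `2πθH`) of the first half at `n - H`; `|u+v|^2 ≤ 2|u|^2+2|v|^2` for vectors in the plane; the sums over `n ∈ [0, N+2H)` of the first and second part are both `e_H(θ)` (all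
     terms with `n` outside vanish).
  2. `P(θ) = (1/H) (e_{2H}(θ) - e_H(θ)) = ∑_h v(h) c(h) cos(2πθh)`, `v(h) = (1/H)((2H-|h|)_+ - (H-|h|)_+)`, which is `1` for `|h| ≤ H`. So `P(θ) ≤ 4S/H`.
  3. Let `Q = 4H`. For real `w` on `I`: with the complex numbers `Ŵ(r) = ∑_{d∈I} w d exp(2πi r d/Q)`: `(1/Q) ∑_{r<Q} P(r/Q) |Ŵ(r)|^2 = ∑_{k,d∈I} w k w d ∑_h v(h) c(h) (1/Q) ∑_{r<Q} exp(2πi r (h + k - d)/Q)` (`P` is even in `h`, so `cos` may be replaced by `exp`); `|h| < 2H`, `|k-d| < H`, so `|h+k-d| < Q` and only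
     `h = d - k` contributes: the sum is `∑_{k,d} w k w d c(k-d) = ∑_n (T w n)^2`. As `(1/Q) ∑_r |Ŵ(r)|^2 = ∑ w^2 ≤ H` and `P ≤ 4S/H` this is `≤ 4S` (`S ≥ 0` since `e_H ≥ 0`).
  (`H = 0` trivial.) Everything may also be done with real cosines and sines only, or with `ZMod Q` and its characters.
-/

set_option autoImplicit false

namespace Pool.Agent.H12.DM

open Finset

/-- weighted sum of `f (n - d)`, `1 ≤ d ≤ H` -/
noncomputable def wf (H : ℕ) (w f : ℤ → ℝ) (n : ℤ) : ℝ := ∑ d ∈ Finset.Icc 1 (H : ℤ), w d * f (n - d)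

lemma Bu_lin (H : ℕ) (w w0 w1 f : ℤ → ℝ) (a b : ℝ) (hw : ∀ d ∈ Finset.Icc 1 (H : ℤ), w d = a * w0 d + b * w1 d)
    (n : ℤ) : wf H w f n = a * wf H w0 f n + b * wf H w1 f n := by
  unfold wf
  rw [Finset.mul_sum, Finset.mul_sum, ← Finset.sum_add_distrib]
  refine Finset.sum_congr rfl fun d hd => ?_
  rw [hw d hd]
  ring

lemma Bu_step (M H : ℕ) (f : ℤ → ℝ) (S : ℝ)
    (h : ∀ D : Finset ℤ, D ⊆ Finset.Icc 1 (H : ℤ) → ∑ n ∈ Finset.range M, (∑ d ∈ D, f ((n : ℤ) - d)) ^ 2 ≤ S)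
    (E : Finset ℤ) : ∀ w : ℤ → ℝ, (∀ d ∈ Finset.Icc 1 (H : ℤ), 0 ≤ w d ∧ w d ≤ 1) →
      (∀ d ∈ Finset.Icc 1 (H : ℤ), d ∉ E → w d = 0 ∨ w d = 1) →
      ∑ n ∈ Finset.range M, (wf H w f (n : ℤ)) ^ 2 ≤ S := by
  classical
  induction E using Finset.induction_on with
  | empty =>
    intro w _ hw
    have e : ∀ n : ℤ, wf H w f n = ∑ d ∈ (Finset.Icc 1 (H : ℤ)).filter (fun d => w d = 1), f (n - d) := by
      intro n
      unfold wf
      rw [Finset.sum_filter]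
      refine Finset.sum_congr rfl fun d hd => ?_
      rcases hw d hd (Finset.notMem_empty d) with h0 | h1
      · rw [h0, zero_mul, if_neg (by norm_num)]
      · rw [h1, one_mul, if_pos rfl]
    have h1 := h _ (Finset.filter_subset (fun d => w d = 1) (Finset.Icc 1 (H : ℤ)))
    simp only [e]
    exact h1
  | insert e E he ih =>
    intro w hw1 hw2
    by_cases heI : e ∈ Finset.Icc 1 (H : ℤ)
    · have ht := hw1 e heI
      have hb : ∀ v : ℝ, (v = 0 ∨ v = 1) →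
          ∑ n ∈ Finset.range M, (wf H (Function.update w e v) f (n : ℤ)) ^ 2 ≤ S := by
        intro v hv
        apply ih
        · intro d hd
          by_cases hde : d = e
          · subst hde
            rw [Function.update_self]
            rcases hv with rfl | rfl <;> norm_num
          · rw [Function.update_of_ne hde]
            exact hw1 d hd
        · intro d hd hdE
          by_cases hde : d = e
          · subst hde
            rw [Function.update_self]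
            exact hv
          · rw [Function.update_of_ne hde]
            exact hw2 d hd (fun hh => (Finset.mem_insert.1 hh).elim hde hdE)
      have h0 := hb 0 (Or.inl rfl)
      have h1 := hb 1 (Or.inr rfl)
      have hlin : ∀ n : ℤ, wf H w f n = (1 - w e) * wf H (Function.update w e 0) f n
          + w e * wf H (Function.update w e 1) f n := by
        intro n
        refine Bu_lin H w _ _ f _ _ (fun d _ => ?_) n
        by_cases hde : d = e
        · subst hde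
          rw [Function.update_self, Function.update_self]
          ring
        · rw [Function.update_of_ne hde, Function.update_of_ne hde]
          ring
      calc ∑ n ∈ Finset.range M, (wf H w f (n : ℤ)) ^ 2
          ≤ ∑ n ∈ Finset.range M, ((1 - w e) * (wf H (Function.update w e 0) f (n : ℤ)) ^ 2
            + w e * (wf H (Function.update w e 1) f (n : ℤ)) ^ 2) := by
            refine Finset.sum_le_sum fun n _ => ?_
            rw [hlin]
            nlinarith [mul_nonneg (mul_nonneg ht.1 (sub_nonneg.2 ht.2))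
              (sq_nonneg (wf H (Function.update w e 0) f (n : ℤ) - wf H (Function.update w e 1) f (n : ℤ)))]
        _ = (1 - w e) * ∑ n ∈ Finset.range M, (wf H (Function.update w e 0) f (n : ℤ)) ^ 2
            + w e * ∑ n ∈ Finset.range M, (wf H (Function.update w e 1) f (n : ℤ)) ^ 2 := by
            rw [Finset.sum_add_distrib, Finset.mul_sum, Finset.mul_sum]
        _ ≤ (1 - w e) * S + w e * S :=
            add_le_add (mul_le_mul_of_nonneg_left h0 (sub_nonneg.2 ht.2)) (mul_le_mul_of_nonneg_left h1 ht.1)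
        _ = S := by ring
    · apply ih w hw1
      intro d hd hdE
      refine hw2 d hd (fun hh => ?_)
      rcases Finset.mem_insert.1 hh with rfl | h'
      · exact heI hd
      · exact hdE h'

theorem Bu1 (M H : ℕ) (f : ℤ → ℝ) (S : ℝ)
    (h : ∀ D : Finset ℤ, D ⊆ Finset.Icc 1 (H : ℤ) → ∑ n ∈ Finset.range M, (∑ d ∈ D, f ((n : ℤ) - d)) ^ 2 ≤ S) :
    ∀ w : ℤ → ℝ, (∀ d, |w d| ≤ 1) → ∑ n ∈ Finset.range M, (wf H w f (n : ℤ)) ^ 2 ≤ 10 * S := by
  intro w hw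
  have h1 := Bu_step M H f S h (Finset.Icc 1 (H : ℤ)) (fun d => (w d + 1) / 2)
    (fun d _ => by have := abs_le.1 (hw d); constructor <;> linarith) (fun d hd hd' => absurd hd hd')
  have h2 := Bu_step M H f S h (Finset.Icc 1 (H : ℤ)) (fun _ => 1)
    (fun d _ => by norm_num) (fun d hd hd' => absurd hd hd')
  have hlin : ∀ n : ℤ, wf H w f n = 2 * wf H (fun d => (w d + 1) / 2) f n + (-1) * wf H (fun _ => 1) f n :=
    fun n => Bu_lin H w _ _ f _ _ (fun d _ => by ring) n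
  calc ∑ n ∈ Finset.range M, (wf H w f (n : ℤ)) ^ 2
      ≤ ∑ n ∈ Finset.range M, (8 * (wf H (fun d => (w d + 1) / 2) f (n : ℤ)) ^ 2
          + 2 * (wf H (fun _ => 1) f (n : ℤ)) ^ 2) := by
        refine Finset.sum_le_sum fun n _ => ?_
        rw [hlin]
        nlinarith [sq_nonneg (2 * wf H (fun d => (w d + 1) / 2) f (n : ℤ) + wf H (fun _ => 1) f (n : ℤ))]
    _ = 8 * ∑ n ∈ Finset.range M, (wf H (fun d => (w d + 1) / 2) f (n : ℤ)) ^ 2
          + 2 * ∑ n ∈ Finset.range M, (wf H (fun _ => 1) f (n : ℤ)) ^ 2 := by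
        rw [Finset.sum_add_distrib, Finset.mul_sum, Finset.mul_sum]
    _ ≤ 10 * S := by linarith

/-! ### exponential sums -/

/-- `e(θ m)` -/
noncomputable def ee (θ : ℝ) (m : ℤ) : ℂ := Complex.exp (((2 * Real.pi * θ * m : ℝ) : ℂ) * Complex.I)

lemma ee_add (θ : ℝ) (m k : ℤ) : ee θ (m + k) = ee θ m * ee θ k := by
  unfold ee
  rw [← Complex.exp_add]
  congr 1
  push_cast
  ring

lemma ee_zero (θ : ℝ) : ee θ 0 = 1 := by
  unfold ee
  simp

lemma ee_conj (θ : ℝ) (m : ℤ) : (starRingEnd ℂ) (ee θ m) = ee θ (-m) := by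
  unfold ee
  rw [← Complex.exp_conj]
  congr 1
  rw [map_mul, Complex.conj_ofReal, Complex.conj_I]
  push_cast
  ring

lemma ee_norm (θ : ℝ) (m : ℤ) : ‖ee θ m‖ = 1 := Complex.norm_exp_ofReal_mul_I _

lemma ee_re (θ : ℝ) (m : ℤ) : (ee θ m).re = Real.cos (2 * Real.pi * θ * m) := Complex.exp_ofReal_mul_I_re _

lemma ee_im (θ : ℝ) (m : ℤ) : (ee θ m).im = Real.sin (2 * Real.pi * θ * m) := Complex.exp_ofReal_mul_I_im _

lemma ee_orth (Q : ℕ) (hQ : 0 < Q) (m : ℤ) (hm : |m| < (Q : ℤ)) :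
    ∑ r ∈ Finset.range Q, ee ((r : ℝ) / Q) m = if m = 0 then (Q : ℂ) else 0 := by
  have hQ' : (Q : ℝ) ≠ 0 := by positivity
  have hQc : (Q : ℂ) ≠ 0 := by exact_mod_cast hQ.ne'
  split_ifs with h0
  · subst h0
    simp [ee_zero]
  · set x : ℂ := Complex.exp (2 * Real.pi * Complex.I * ((m : ℂ) / Q)) with hx
    have hpow : ∀ r : ℕ, ee ((r : ℝ) / Q) m = x ^ r := by
      intro r
      rw [hx, ← Complex.exp_nat_mul]
      unfold ee
      congr 1
      push_cast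
      ring
    have hx1 : x ≠ 1 := by
      intro hx1
      rw [hx, Complex.exp_eq_one_iff] at hx1
      obtain ⟨k, hk⟩ := hx1
      have h2 : (2 * Real.pi * Complex.I : ℂ) ≠ 0 := Complex.two_pi_I_ne_zero
      have h3 : (m : ℂ) / Q = k := by
        apply mul_left_cancel₀ h2
        rw [hk]
        ring
      rw [div_eq_iff hQc] at h3
      have h4 : m = k * Q := by exact_mod_cast h3
      have hk0 : k ≠ 0 := by
        rintro rfl
        exact h0 (by rw [h4, zero_mul])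
      rw [h4, abs_mul, Nat.abs_cast] at hm
      have h5 : 1 ≤ |k| := Int.one_le_abs hk0
      have h6 : (0 : ℤ) < Q := by exact_mod_cast hQ
      nlinarith
    have hxQ : x ^ Q = 1 := by
      rw [hx, ← Complex.exp_nat_mul, Complex.exp_eq_one_iff]
      refine ⟨m, ?_⟩
      field_simp
    rw [Finset.sum_congr rfl (fun r _ => hpow r)]
    have hg := geom_sum_mul x Q
    rw [hxQ, sub_self] at hg
    exact (mul_eq_zero.1 hg).resolve_right (sub_ne_zero.2 hx1)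

/-- the exponential sum over a set of shifts -/
noncomputable def ES (A : Finset ℤ) (θ : ℝ) (f : ℤ → ℝ) (n : ℤ) : ℂ := ∑ d ∈ A, ee θ d * (f (n - d) : ℂ)

lemma ES_normSq (H : ℕ) (θ : ℝ) (f : ℤ → ℝ) (n : ℤ) :
    ‖ES (Finset.Icc 1 (H : ℤ)) θ f n‖ ^ 2 = (wf H (fun d => Real.cos (2 * Real.pi * θ * d)) f n) ^ 2
      + (wf H (fun d => Real.sin (2 * Real.pi * θ * d)) f n) ^ 2 := by
  rw [← Complex.normSq_eq_norm_sq, Complex.normSq_apply]
  have h1 : (ES (Finset.Icc 1 (H : ℤ)) θ f n).re = wf H (fun d => Real.cos (2 * Real.pi * θ * d)) f n := by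
    unfold ES wf
    rw [Complex.re_sum]
    refine Finset.sum_congr rfl fun d _ => ?_
    rw [Complex.re_mul_ofReal, ee_re]
  have h2 : (ES (Finset.Icc 1 (H : ℤ)) θ f n).im = wf H (fun d => Real.sin (2 * Real.pi * θ * d)) f n := by
    unfold ES wf
    rw [Complex.im_sum]
    refine Finset.sum_congr rfl fun d _ => ?_
    rw [Complex.im_mul_ofReal, ee_im]
  rw [h1, h2]
  ring

lemma Bu_shift (M : ℕ) (G : ℤ → ℝ) (h0 : ∀ n, 0 ≤ G n) (hG : ∀ n : ℤ, n < 0 ∨ (M : ℤ) ≤ n → G n = 0) (s : ℤ) :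
    ∑ n ∈ Finset.range M, G ((n : ℤ) - s) ≤ ∑ n ∈ Finset.range M, G (n : ℤ) := by
  classical
  have e1 : ∑ n ∈ Finset.range M, G ((n : ℤ) - s) =
      ∑ n ∈ (Finset.range M).filter (fun n : ℕ => 0 ≤ (n : ℤ) - s ∧ (n : ℤ) - s < M), G ((n : ℤ) - s) := by
    rw [Finset.sum_filter]
    refine Finset.sum_congr rfl fun n _ => ?_
    split_ifs with h
    · rfl
    · exact hG _ (by omega)
  rw [e1]
  have e2 : ∑ n ∈ (Finset.range M).filter (fun n : ℕ => 0 ≤ (n : ℤ) - s ∧ (n : ℤ) - s < M), G ((n : ℤ) - s) =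
      ∑ m ∈ ((Finset.range M).filter (fun n : ℕ => 0 ≤ (n : ℤ) - s ∧ (n : ℤ) - s < M)).image
        (fun n : ℕ => ((n : ℤ) - s).toNat), G (m : ℤ) := by
    rw [Finset.sum_image]
    · refine Finset.sum_congr rfl fun n hn => ?_
      rw [Finset.mem_filter] at hn
      rw [Int.toNat_of_nonneg hn.2.1]
    · intro a ha b hb hab
      rw [Finset.mem_coe, Finset.mem_filter] at ha hb
      have h1 : ((a : ℤ) - s) = ((b : ℤ) - s) := by
        have h2 : (((a : ℤ) - s).toNat : ℤ) = (((b : ℤ) - s).toNat : ℤ) := by exact_mod_cast hab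
        rwa [Int.toNat_of_nonneg ha.2.1, Int.toNat_of_nonneg hb.2.1] at h2
      omega
  rw [e2]
  refine Finset.sum_le_sum_of_subset_of_nonneg ?_ (fun m _ _ => h0 _)
  intro m hm
  rw [Finset.mem_image] at hm
  obtain ⟨n, hn, rfl⟩ := hm
  rw [Finset.mem_filter] at hn
  rw [Finset.mem_range]
  omega

lemma Bu_ESshift (H : ℕ) (θ : ℝ) (f : ℤ → ℝ) (n s : ℤ) :
    ∑ d ∈ Finset.Icc (1 + s) ((H : ℤ) + s), ee θ d * (f (n - d) : ℂ) =
      ee θ s * ES (Finset.Icc 1 (H : ℤ)) θ f (n - s) := by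
  unfold ES
  rw [Finset.mul_sum]
  refine Finset.sum_nbij' (fun d => d - s) (fun d => d + s) ?_ ?_ ?_ ?_ ?_
  · intro d hd
    simp only [Finset.mem_Icc] at hd ⊢
    omega
  · intro d hd
    simp only [Finset.mem_Icc] at hd ⊢
    omega
  · intro d _
    ring
  · intro d _
    ring
  · intro d _
    rw [← mul_assoc, ← ee_add, show s + (d - s) = d by ring, show n - s - (d - s) = n - d by ring]

lemma Bu_ESA (H : ℕ) (θ : ℝ) (f : ℤ → ℝ) (n : ℤ) :
    ES (Finset.Icc (1 - (H : ℤ)) (2 * H)) θ f n =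
      ee θ (-H) * ES (Finset.Icc 1 (H : ℤ)) θ f (n + H) + ES (Finset.Icc 1 (H : ℤ)) θ f n
        + ee θ H * ES (Finset.Icc 1 (H : ℤ)) θ f (n - H) := by
  have h1 := Bu_ESshift H θ f n (-H)
  have h2 := Bu_ESshift H θ f n H
  rw [sub_neg_eq_add] at h1
  rw [← h1, ← h2]
  unfold ES
  have hA : Finset.Icc (1 - (H : ℤ)) (2 * H) = (Finset.Icc (1 + -(H : ℤ)) ((H : ℤ) + -H) ∪ Finset.Icc 1 (H : ℤ)) ∪
      Finset.Icc (1 + (H : ℤ)) ((H : ℤ) + H) := by
    ext d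
    simp only [Finset.mem_Icc, Finset.mem_union]
    omega
  rw [hA, Finset.sum_union, Finset.sum_union]
  · rw [Finset.disjoint_left]
    intro d hd hd'
    simp only [Finset.mem_Icc] at hd hd'
    omega
  · rw [Finset.disjoint_left]
    intro d hd hd'
    simp only [Finset.mem_Icc, Finset.mem_union] at hd hd'
    omega

/-- the autocorrelation -/
noncomputable def cf (N : ℕ) (f : ℤ → ℝ) (h : ℤ) : ℝ := ∑ m ∈ Finset.range N, f (m : ℤ) * f ((m : ℤ) + h)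

lemma Bu_cf (N H : ℕ) (f : ℤ → ℝ) (hf : ∀ n : ℤ, n < 0 ∨ (N : ℤ) ≤ n → f n = 0) {b : ℤ}
    (hb : b ∈ Finset.Icc 1 (H : ℤ)) (a : ℤ) :
    ∑ n ∈ Finset.range (N + H), f ((n : ℤ) - a) * f ((n : ℤ) - b) = cf N f (b - a) := by
  classical
  rw [Finset.mem_Icc] at hb
  unfold cf
  have e1 : ∑ n ∈ Finset.range (N + H), f ((n : ℤ) - a) * f ((n : ℤ) - b) =
      ∑ n ∈ (Finset.range (N + H)).filter (fun n : ℕ => 0 ≤ (n : ℤ) - b ∧ (n : ℤ) - b < N),
        f ((n : ℤ) - a) * f ((n : ℤ) - b) := by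
    rw [Finset.sum_filter]
    refine Finset.sum_congr rfl fun n _ => ?_
    split_ifs with h
    · rfl
    · rw [hf ((n : ℤ) - b) (by omega), mul_zero]
  rw [e1]
  refine Finset.sum_nbij' (fun n : ℕ => ((n : ℤ) - b).toNat) (fun m : ℕ => ((m : ℤ) + b).toNat) ?_ ?_ ?_ ?_ ?_
  · intro n hn
    simp only [Finset.mem_filter, Finset.mem_range] at hn ⊢
    omega
  · intro m hm
    simp only [Finset.mem_filter, Finset.mem_range] at hm ⊢
    omega
  · intro n hn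
    simp only [Finset.mem_filter, Finset.mem_range] at hn
    omega
  · intro m hm
    simp only [Finset.mem_range] at hm
    omega
  · intro n hn
    simp only [Finset.mem_filter, Finset.mem_range] at hn
    rw [Int.toNat_of_nonneg hn.2.1, mul_comm]
    congr 2
    ring

lemma Bu_inner (N H : ℕ) (A : Finset ℤ) (θ : ℝ) (f : ℤ → ℝ) (hf : ∀ n : ℤ, n < 0 ∨ (N : ℤ) ≤ n → f n = 0) :
    ∑ n ∈ Finset.range (N + H), ES A θ f (n : ℤ) * (starRingEnd ℂ) (ES (Finset.Icc 1 (H : ℤ)) θ f (n : ℤ)) =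
      ∑ a ∈ A, ∑ b ∈ Finset.Icc 1 (H : ℤ), ee θ (a - b) * (cf N f (b - a) : ℂ) := by
  have e1 : ∀ n : ℤ, ES A θ f n * (starRingEnd ℂ) (ES (Finset.Icc 1 (H : ℤ)) θ f n) =
      ∑ a ∈ A, ∑ b ∈ Finset.Icc 1 (H : ℤ), ee θ (a - b) * ((f (n - a) * f (n - b) : ℝ) : ℂ) := by
    intro n
    unfold ES
    rw [map_sum, Finset.sum_mul_sum]
    refine Finset.sum_congr rfl fun a _ => Finset.sum_congr rfl fun b _ => ?_
    rw [map_mul, ee_conj, Complex.conj_ofReal, sub_eq_add_neg a b, ee_add]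
    push_cast
    ring
  simp only [e1]
  rw [Finset.sum_comm]
  refine Finset.sum_congr rfl fun a _ => ?_
  rw [Finset.sum_comm]
  refine Finset.sum_congr rfl fun b hb => ?_
  rw [← Finset.mul_sum, ← Complex.ofReal_sum, Bu_cf N H f hf hb]

/-- the exponential polynomial of the weights -/
noncomputable def WP (H : ℕ) (w : ℤ → ℝ) (θ : ℝ) : ℂ := ∑ d ∈ Finset.Icc 1 (H : ℤ), (w d : ℂ) * ee θ d

lemma WP_sq (H : ℕ) (w : ℤ → ℝ) (θ : ℝ) :
    ((‖WP H w θ‖ ^ 2 : ℝ) : ℂ) = ∑ k ∈ Finset.Icc 1 (H : ℤ), ∑ d ∈ Finset.Icc 1 (H : ℤ),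
      ((w k * w d : ℝ) : ℂ) * ee θ (k - d) := by
  have h1 : ((‖WP H w θ‖ ^ 2 : ℝ) : ℂ) = WP H w θ * (starRingEnd ℂ) (WP H w θ) := by
    rw [Complex.mul_conj, Complex.normSq_eq_norm_sq]
  rw [h1]
  unfold WP
  rw [map_sum, Finset.sum_mul_sum]
  refine Finset.sum_congr rfl fun a _ => Finset.sum_congr rfl fun b _ => ?_
  rw [map_mul, ee_conj, Complex.conj_ofReal, sub_eq_add_neg a b, ee_add]
  push_cast
  ring

lemma WP_mean (H Q : ℕ) (hQ : 4 * H = Q) (hH : 0 < H) (w : ℤ → ℝ) :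
    ∑ r ∈ Finset.range Q, ‖WP H w ((r : ℝ) / Q)‖ ^ 2 = (Q : ℝ) * ∑ d ∈ Finset.Icc 1 (H : ℤ), w d ^ 2 := by
  have key : ((∑ r ∈ Finset.range Q, ‖WP H w ((r : ℝ) / Q)‖ ^ 2 : ℝ) : ℂ) =
      (((Q : ℝ) * ∑ d ∈ Finset.Icc 1 (H : ℤ), w d ^ 2 : ℝ) : ℂ) := by
    rw [Complex.ofReal_sum]
    simp only [WP_sq]
    rw [Finset.sum_comm]
    push_cast
    rw [Finset.mul_sum]
    refine Finset.sum_congr rfl fun k hk => ?_
    rw [Finset.sum_comm]
    have e1 : ∀ d ∈ Finset.Icc 1 (H : ℤ), ∑ r ∈ Finset.range Q, ((w k : ℂ) * (w d : ℂ)) * ee ((r : ℝ) / Q) (k - d) =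
        if k = d then (Q : ℂ) * (w k) ^ 2 else 0 := by
      intro d hd
      rw [Finset.mem_Icc] at hk hd
      rw [← Finset.mul_sum, ee_orth Q (by omega) (k - d) (by rw [abs_lt]; omega)]
      by_cases hkd : k = d
      · subst hkd
        rw [if_pos (sub_self k), if_pos rfl]
        ring
      · rw [if_neg (sub_ne_zero.2 hkd), if_neg hkd, mul_zero]
    rw [Finset.sum_congr rfl e1, Finset.sum_ite_eq, if_pos hk]
  exact_mod_cast key

lemma Bu_X (N H Q : ℕ) (hQ : 4 * H = Q) (hH : 0 < H) (f w : ℤ → ℝ)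
    (hf : ∀ n : ℤ, n < 0 ∨ (N : ℤ) ≤ n → f n = 0) :
    ∑ r ∈ Finset.range Q, (∑ n ∈ Finset.range (N + H), ES (Finset.Icc (1 - (H : ℤ)) (2 * H)) ((r : ℝ) / Q) f (n : ℤ) *
      (starRingEnd ℂ) (ES (Finset.Icc 1 (H : ℤ)) ((r : ℝ) / Q) f (n : ℤ))) * ((‖WP H w ((r : ℝ) / Q)‖ ^ 2 : ℝ) : ℂ) =
      (Q : ℂ) * (H : ℂ) * ((∑ n ∈ Finset.range (N + H), (wf H w f (n : ℤ)) ^ 2 : ℝ) : ℂ) := by
  have hwf : ∑ n ∈ Finset.range (N + H), (wf H w f (n : ℤ)) ^ 2 =
      ∑ k ∈ Finset.Icc 1 (H : ℤ), ∑ d ∈ Finset.Icc 1 (H : ℤ), w k * w d * cf N f (k - d) := by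
    have e1 : ∀ n : ℤ, (wf H w f n) ^ 2 = ∑ k ∈ Finset.Icc 1 (H : ℤ), ∑ d ∈ Finset.Icc 1 (H : ℤ),
        w k * w d * (f (n - d) * f (n - k)) := by
      intro n
      unfold wf
      rw [sq, Finset.sum_mul_sum]
      refine Finset.sum_congr rfl fun k _ => Finset.sum_congr rfl fun d _ => ?_
      ring
    simp only [e1]
    rw [Finset.sum_comm]
    refine Finset.sum_congr rfl fun k hk => ?_
    rw [Finset.sum_comm]
    refine Finset.sum_congr rfl fun d _ => ?_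
    rw [← Finset.mul_sum, Bu_cf N H f hf hk]
  have e2 : ∀ r ∈ Finset.range Q, (∑ n ∈ Finset.range (N + H),
      ES (Finset.Icc (1 - (H : ℤ)) (2 * H)) ((r : ℝ) / Q) f (n : ℤ) *
      (starRingEnd ℂ) (ES (Finset.Icc 1 (H : ℤ)) ((r : ℝ) / Q) f (n : ℤ))) * ((‖WP H w ((r : ℝ) / Q)‖ ^ 2 : ℝ) : ℂ) =
      ∑ b ∈ Finset.Icc 1 (H : ℤ), ∑ k ∈ Finset.Icc 1 (H : ℤ), ∑ d ∈ Finset.Icc 1 (H : ℤ),
        ∑ a ∈ Finset.Icc (1 - (H : ℤ)) (2 * H),
          ((cf N f (b - a) * (w k * w d) : ℝ) : ℂ) * ee ((r : ℝ) / Q) (a - b + (k - d)) := by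
    intro r _
    rw [Bu_inner N H _ _ f hf, WP_sq, Finset.sum_comm, Finset.sum_mul]
    refine Finset.sum_congr rfl fun b _ => ?_
    rw [Finset.mul_sum]
    refine Finset.sum_congr rfl fun k _ => ?_
    rw [Finset.mul_sum]
    refine Finset.sum_congr rfl fun d _ => ?_
    rw [Finset.sum_mul]
    refine Finset.sum_congr rfl fun a _ => ?_
    rw [ee_add]
    push_cast
    ring
  rw [Finset.sum_congr rfl e2, hwf, Finset.sum_comm]
  have e3 : ∀ b ∈ Finset.Icc 1 (H : ℤ), ∑ r ∈ Finset.range Q, ∑ k ∈ Finset.Icc 1 (H : ℤ), ∑ d ∈ Finset.Icc 1 (H : ℤ),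
        ∑ a ∈ Finset.Icc (1 - (H : ℤ)) (2 * H),
          ((cf N f (b - a) * (w k * w d) : ℝ) : ℂ) * ee ((r : ℝ) / Q) (a - b + (k - d)) =
      (Q : ℂ) * ((∑ k ∈ Finset.Icc 1 (H : ℤ), ∑ d ∈ Finset.Icc 1 (H : ℤ), w k * w d * cf N f (k - d) : ℝ) : ℂ) := by
    intro b hb
    rw [Finset.sum_comm]
    push_cast
    rw [Finset.mul_sum]
    refine Finset.sum_congr rfl fun k hk => ?_
    rw [Finset.sum_comm, Finset.mul_sum]
    refine Finset.sum_congr rfl fun d hd => ?_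
    rw [Finset.sum_comm]
    have e4 : ∀ a ∈ Finset.Icc (1 - (H : ℤ)) (2 * H), ∑ r ∈ Finset.range Q,
        ((cf N f (b - a) : ℂ) * ((w k : ℂ) * (w d : ℂ))) * ee ((r : ℝ) / Q) (a - b + (k - d)) =
        if b + d - k = a then (Q : ℂ) * ((w k : ℂ) * (w d : ℂ) * (cf N f (k - d) : ℂ)) else 0 := by
      intro a ha
      rw [Finset.mem_Icc] at ha hb hk hd
      rw [← Finset.mul_sum, ee_orth Q (by omega) _ (by rw [abs_lt]; omega)]
      by_cases h : b + d - k = a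
      · subst h
        rw [if_pos (by ring), if_pos rfl, show b - (b + d - k) = k - d by ring]
        ring
      · rw [if_neg (by omega), if_neg h, mul_zero]
    rw [Finset.sum_congr rfl e4, Finset.sum_ite_eq, if_pos]
    rw [Finset.mem_Icc] at *
    omega
  rw [Finset.sum_congr rfl e3, Finset.sum_const, Int.card_Icc, nsmul_eq_mul]
  have h5 : (((H : ℤ) + 1 - 1).toNat : ℂ) = (H : ℂ) := by
    congr 1
    omega
  rw [h5]
  ring

theorem Bu2 (N H : ℕ) (f : ℤ → ℝ) (S : ℝ) (hf : ∀ n : ℤ, n < 0 ∨ (N : ℤ) ≤ n → f n = 0)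
    (h : ∀ θ : ℝ, ∑ n ∈ Finset.range (N + H), ((wf H (fun d => Real.cos (2 * Real.pi * θ * d)) f (n : ℤ)) ^ 2
      + (wf H (fun d => Real.sin (2 * Real.pi * θ * d)) f (n : ℤ)) ^ 2) ≤ S) :
    ∀ w : ℤ → ℝ, (∀ d, |w d| ≤ 1) → ∑ n ∈ Finset.range (N + H), (wf H w f (n : ℤ)) ^ 2 ≤ 4 * S := by
  intro w hw
  have hS : 0 ≤ S := le_trans (Finset.sum_nonneg fun n _ => by positivity) (h 0)
  rcases Nat.eq_zero_or_pos H with hH | hH
  · subst hH
    have : ∀ n : ℤ, wf 0 w f n = 0 := by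
      intro n
      unfold wf
      simp
    simp only [this]
    simp
    exact hS
  · obtain ⟨Q, hQ⟩ : ∃ Q : ℕ, 4 * H = Q := ⟨_, rfl⟩
    have hQ0 : 0 < Q := by omega
    have hB : ∀ θ : ℝ, ∑ n ∈ Finset.range (N + H), ‖ES (Finset.Icc 1 (H : ℤ)) θ f (n : ℤ)‖ ^ 2 ≤ S := by
      intro θ
      simp only [ES_normSq]
      exact h θ
    have hB0 : ∀ (θ : ℝ) (n : ℤ), n < 0 ∨ ((N + H : ℕ) : ℤ) ≤ n → ‖ES (Finset.Icc 1 (H : ℤ)) θ f n‖ ^ 2 = 0 := by
      intro θ n hn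
      have : ES (Finset.Icc 1 (H : ℤ)) θ f n = 0 := by
        unfold ES
        refine Finset.sum_eq_zero fun d hd => ?_
        rw [Finset.mem_Icc] at hd
        rw [hf _ (by push_cast at hn; omega)]
        simp
      rw [this]
      simp
    have hBs : ∀ (θ : ℝ) (s : ℤ), ∑ n ∈ Finset.range (N + H), ‖ES (Finset.Icc 1 (H : ℤ)) θ f ((n : ℤ) - s)‖ ^ 2 ≤ S :=
      fun θ s => (Bu_shift (N + H) (fun n => ‖ES (Finset.Icc 1 (H : ℤ)) θ f n‖ ^ 2) (fun n => by positivity)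
        (hB0 θ) s).trans (hB θ)
    have hA : ∀ θ : ℝ, ∑ n ∈ Finset.range (N + H),
        ‖ES (Finset.Icc (1 - (H : ℤ)) (2 * H)) θ f (n : ℤ)‖ ^ 2 ≤ 9 * S := by
      intro θ
      have h1 := hBs θ (-H)
      have h2 := hB θ
      have h3 := hBs θ H
      calc ∑ n ∈ Finset.range (N + H), ‖ES (Finset.Icc (1 - (H : ℤ)) (2 * H)) θ f (n : ℤ)‖ ^ 2
          ≤ ∑ n ∈ Finset.range (N + H), (3 * ‖ES (Finset.Icc 1 (H : ℤ)) θ f ((n : ℤ) - -H)‖ ^ 2
            + 3 * ‖ES (Finset.Icc 1 (H : ℤ)) θ f (n : ℤ)‖ ^ 2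
            + 3 * ‖ES (Finset.Icc 1 (H : ℤ)) θ f ((n : ℤ) - H)‖ ^ 2) := by
            refine Finset.sum_le_sum fun n _ => ?_
            rw [Bu_ESA, sub_neg_eq_add]
            set a := ES (Finset.Icc 1 (H : ℤ)) θ f ((n : ℤ) + H)
            set b := ES (Finset.Icc 1 (H : ℤ)) θ f (n : ℤ)
            set c := ES (Finset.Icc 1 (H : ℤ)) θ f ((n : ℤ) - H)
            have hn : ‖ee θ (-H) * a + b + ee θ H * c‖ ≤ ‖a‖ + ‖b‖ + ‖c‖ := by
              refine (norm_add_le _ _).trans (add_le_add ((norm_add_le _ _).trans (add_le_add ?_ le_rfl)) ?_)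
              · rw [norm_mul, ee_norm, one_mul]
              · rw [norm_mul, ee_norm, one_mul]
            have hn2 : ‖ee θ (-H) * a + b + ee θ H * c‖ ^ 2 ≤ (‖a‖ + ‖b‖ + ‖c‖) ^ 2 :=
              pow_le_pow_left₀ (norm_nonneg _) hn 2
            nlinarith [sq_nonneg (‖a‖ - ‖b‖), sq_nonneg (‖b‖ - ‖c‖), sq_nonneg (‖a‖ - ‖c‖)]
        _ = 3 * ∑ n ∈ Finset.range (N + H), ‖ES (Finset.Icc 1 (H : ℤ)) θ f ((n : ℤ) - -H)‖ ^ 2
            + 3 * ∑ n ∈ Finset.range (N + H), ‖ES (Finset.Icc 1 (H : ℤ)) θ f (n : ℤ)‖ ^ 2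
            + 3 * ∑ n ∈ Finset.range (N + H), ‖ES (Finset.Icc 1 (H : ℤ)) θ f ((n : ℤ) - H)‖ ^ 2 := by
            rw [Finset.sum_add_distrib, Finset.sum_add_distrib, Finset.mul_sum, Finset.mul_sum, Finset.mul_sum]
        _ ≤ 9 * S := by linarith
    have hI : ∀ θ : ℝ, ‖∑ n ∈ Finset.range (N + H), ES (Finset.Icc (1 - (H : ℤ)) (2 * H)) θ f (n : ℤ) *
        (starRingEnd ℂ) (ES (Finset.Icc 1 (H : ℤ)) θ f (n : ℤ))‖ ≤ 4 * S := by
      intro θ
      refine (norm_sum_le _ _).trans ?_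
      calc ∑ n ∈ Finset.range (N + H), ‖ES (Finset.Icc (1 - (H : ℤ)) (2 * H)) θ f (n : ℤ) *
            (starRingEnd ℂ) (ES (Finset.Icc 1 (H : ℤ)) θ f (n : ℤ))‖
          ≤ ∑ n ∈ Finset.range (N + H), (1 / 6 * ‖ES (Finset.Icc (1 - (H : ℤ)) (2 * H)) θ f (n : ℤ)‖ ^ 2
            + 3 / 2 * ‖ES (Finset.Icc 1 (H : ℤ)) θ f (n : ℤ)‖ ^ 2) := by
            refine Finset.sum_le_sum fun n _ => ?_
            rw [norm_mul, RCLike.norm_conj]
            nlinarith [sq_nonneg (‖ES (Finset.Icc (1 - (H : ℤ)) (2 * H)) θ f (n : ℤ)‖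
              - 3 * ‖ES (Finset.Icc 1 (H : ℤ)) θ f (n : ℤ)‖)]
        _ = 1 / 6 * ∑ n ∈ Finset.range (N + H), ‖ES (Finset.Icc (1 - (H : ℤ)) (2 * H)) θ f (n : ℤ)‖ ^ 2
            + 3 / 2 * ∑ n ∈ Finset.range (N + H), ‖ES (Finset.Icc 1 (H : ℤ)) θ f (n : ℤ)‖ ^ 2 := by
            rw [Finset.sum_add_distrib, Finset.mul_sum, Finset.mul_sum]
        _ ≤ 4 * S := by linarith [hA θ, hB θ]
    have hX := Bu_X N H Q hQ hH f w hf
    have hXn := congrArg norm hX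
    have hΦ : 0 ≤ ∑ n ∈ Finset.range (N + H), (wf H w f (n : ℤ)) ^ 2 :=
      Finset.sum_nonneg fun n _ => sq_nonneg _
    rw [norm_mul, norm_mul, Complex.norm_natCast, Complex.norm_natCast, Complex.norm_real, Real.norm_of_nonneg hΦ] at hXn
    have hup : (Q : ℝ) * H * ∑ n ∈ Finset.range (N + H), (wf H w f (n : ℤ)) ^ 2 ≤
        ∑ r ∈ Finset.range Q, 4 * S * ‖WP H w ((r : ℝ) / Q)‖ ^ 2 := by
      rw [← hXn]
      refine (norm_sum_le _ _).trans (Finset.sum_le_sum fun r _ => ?_)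
      rw [norm_mul, Complex.norm_real, Real.norm_of_nonneg (by positivity : (0 : ℝ) ≤ ‖WP H w ((r : ℝ) / Q)‖ ^ 2)]
      exact mul_le_mul_of_nonneg_right (hI _) (by positivity)
    rw [← Finset.mul_sum, WP_mean H Q hQ hH w] at hup
    have hw2 : ∑ d ∈ Finset.Icc 1 (H : ℤ), w d ^ 2 ≤ (H : ℝ) := by
      calc ∑ d ∈ Finset.Icc 1 (H : ℤ), w d ^ 2 ≤ ∑ d ∈ Finset.Icc 1 (H : ℤ), (1 : ℝ) := by
            refine Finset.sum_le_sum fun d _ => ?_
            have := abs_le.1 (hw d)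
            nlinarith
        _ = (H : ℝ) := by
            rw [Finset.sum_const, Int.card_Icc, nsmul_eq_mul, mul_one]
            congr 1
            omega
    have hQr : (0 : ℝ) < Q := by exact_mod_cast hQ0
    have hHr : (0 : ℝ) < H := by exact_mod_cast hH
    have h6 : (Q : ℝ) * H * ∑ n ∈ Finset.range (N + H), (wf H w f (n : ℤ)) ^ 2 ≤ (Q : ℝ) * H * (4 * S) := by
      refine hup.trans ?_
      have : 4 * S * ((Q : ℝ) * ∑ d ∈ Finset.Icc 1 (H : ℤ), w d ^ 2) ≤ 4 * S * ((Q : ℝ) * H) :=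
        mul_le_mul_of_nonneg_left (mul_le_mul_of_nonneg_left hw2 hQr.le) (by positivity)
      refine this.trans (le_of_eq ?_)
      ring
    exact le_of_mul_le_mul_left h6 (by positivity)

end Pool.Agent.H12.DM
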