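import Pool.Agent.H12.DM.Cg

/-!
# Cd: crude correlation bounds (with exponents)

`w = yy x ≥ y`, `c₀ = wp y`, `Up = Mm w (V + 1) + c₀`, `E = ∑_{a∈s} e a ≤ 4`, `|s| ≤ 3`. (Uses `off_bound` of `Cg` - only its statement.)

For `u,v,t ≥ 0` and `1 ≤ e ≤ 4`: `(u+v+t)^e ≤ 27 (u^e + v^e + t^e)`. Hence
`∏_{a∈s} Up(n+a)^{e a} ≤ 27^3 ∏_{a∈s} ((Mm w V)^{e a} + (Mm w)^{e a} + c₀^{e a})(n+a)`; expand the product: a sum of at most `27` terms
indexed by the partitions `s = s₁ ⊔ s₂ ⊔ s₃` (`Finset.prod_add` twice, or treat it as a sum over functions `s → Fin 3`). By `Mm_split`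
`Mm w = Mm y * rr ≤ c₀ * rr`, so the term is `≤ c₀^E * ∏_{a ∈ s₁ ∪ s₂} rr(n+a)^{e a} * ∏_{a∈s₁} V(n+a)^{e a}` (`c₀ ≥ 1`, `c₀^E ≤ c₀^4`).
Sum over all `n < N`, as the sum over the `WW y` classes modulo `WW y`, with `Tr`:
`≤ N * avg₁ * avg₂ + WW y * x^{1/2}`, and `WW y * x^{1/2} ≤ N` for large `x`. By `rr_upper` (if `s₁ ∪ s₂ ≠ ∅`; otherwise `avg₁ = 1`)
`avg₁ ≤ (wp w/c₀)^{∑_{s₁∪s₂} (e-1)} P₁` and by `GoodV` (if `s₁ ≠ ∅`, else `avg₂ = 1`; put the exponent `1` outside `s₁`)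
`avg₂ ≤ 5 ρ^{∑_{s₁} (e-1)} P₂`, `ρ = (EP w z)⁻¹ ≥ 1`. As `wp w/c₀ ≤ wp w`, `ρ ≥ 1`, `wp w ≥ 1`:
`(wp w/c₀)^{∑_{s₁∪s₂}(e-1)} ρ^{∑_{s₁}(e-1)} ≤ (wp w * ρ)^{∑_s (e-1)}` and `wp w * ρ = (EP 0 z)⁻¹` (`wp_eq`, `EP_mul`, `w ≤ z`), which is
`≤ log z/c ≤ log x/c` (`mer2`, `z ≤ x` since `dl b ≤ 1`). The exponent `∑_s (e-1) ≤ 3`, so the constant is absolute.
`P₁ P₂ ≤ ∏_{q ∈ s.offDiag} gf y (q.1 - q.2)` by `off_bound` (applied to `s₁ ∪ s₂` and `s₁`, then `offDiag` is monotone and `gf ≥ 1`).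
-/

set_option autoImplicit false

namespace Pool.Agent.H12.DM

open Finset Pool.Agent.H17 Pool.Agent.H6.MF Pool.Agent.H6.MB

lemma Cd_pw {u v : ℝ} (hu : 0 ≤ u) (hv : 0 ≤ v) {e : ℕ} (h4 : e ≤ 4) :
    (u + (v + 1)) ^ e ≤ 64 * (u ^ e + (v ^ e + 1)) := by
  have a1 := add_pow_le hu (by positivity : (0 : ℝ) ≤ v + 1) e
  have a2 := add_pow_le hv (zero_le_one (α := ℝ)) e
  rw [one_pow] at a2
  have b1 : (2 : ℝ) ^ (e - 1) ≤ 8 := by
    calc (2 : ℝ) ^ (e - 1) ≤ 2 ^ 3 := pow_le_pow_right₀ (by norm_num) (by omega)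
      _ = 8 := by norm_num
  have c1 : 0 ≤ u ^ e := by positivity
  have c2 : 0 ≤ v ^ e + 1 := by positivity
  have c3 : 0 ≤ u ^ e + (v + 1) ^ e := by positivity
  have d1 : (v + 1) ^ e ≤ 8 * (v ^ e + 1) := le_trans a2 (mul_le_mul_of_nonneg_right b1 c2)
  have d2 : (u + (v + 1)) ^ e ≤ 8 * (u ^ e + (v + 1) ^ e) :=
    le_trans a1 (mul_le_mul_of_nonneg_right b1 c3)
  nlinarith

lemma Cd_prod {s : Finset ℤ} {e : ℤ → ℕ} (he : ∀ a ∈ s, e a ≤ 4) (hs : s.card ≤ 3)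
    (hE : ∑ a ∈ s, e a ≤ 4) {c0 : ℝ} (hc0 : 1 ≤ c0) (R V U : ℤ → ℝ) (hR : ∀ a ∈ s, 0 ≤ R a)
    (hV : ∀ a ∈ s, 0 ≤ V a) (hU0 : ∀ a ∈ s, 0 ≤ U a)
    (hU : ∀ a ∈ s, U a ≤ c0 * (R a * V a + (R a + 1))) :
    ∏ a ∈ s, U a ^ e a ≤ c0 ^ 4 * 64 ^ 3 * ∑ B ∈ s.powerset, ∑ A ∈ (s \ B).powerset,
      (∏ a ∈ B ∪ A, R a ^ e a) * ∏ a ∈ B, V a ^ e a := by
  have h1 : ∏ a ∈ s, U a ^ e a
      ≤ ∏ a ∈ s, (c0 ^ e a * (64 * ((R a * V a) ^ e a + (R a ^ e a + 1)))) := by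
    refine Finset.prod_le_prod (fun a ha => pow_nonneg (hU0 a ha) _) (fun a ha => ?_)
    refine le_trans (pow_le_pow_left₀ (hU0 a ha) (hU a ha) _) ?_
    rw [mul_pow]
    refine mul_le_mul_of_nonneg_left ?_ (by positivity)
    exact Cd_pw (mul_nonneg (hR a ha) (hV a ha)) (hR a ha) (he a ha)
  have h2 : ∏ a ∈ s, (c0 ^ e a * (64 * ((R a * V a) ^ e a + (R a ^ e a + 1))))
      = c0 ^ (∑ a ∈ s, e a) * 64 ^ s.card * ∏ a ∈ s, ((R a * V a) ^ e a + (R a ^ e a + 1)) := by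
    rw [Finset.prod_mul_distrib, Finset.prod_mul_distrib, Finset.prod_pow_eq_pow_sum, Finset.prod_const,
      mul_assoc]
  have h3 : ∏ a ∈ s, ((R a * V a) ^ e a + (R a ^ e a + 1)) = ∑ B ∈ s.powerset, ∑ A ∈ (s \ B).powerset,
      (∏ a ∈ B ∪ A, R a ^ e a) * ∏ a ∈ B, V a ^ e a := by
    rw [Finset.prod_add]
    refine Finset.sum_congr rfl (fun B _ => ?_)
    rw [Finset.prod_add_one, Finset.mul_sum]
    refine Finset.sum_congr rfl (fun A hA => ?_)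
    have hd : Disjoint B A := by
      rw [Finset.disjoint_left]
      intro a ha ha'
      exact (Finset.mem_sdiff.1 (Finset.mem_powerset.1 hA ha')).2 ha
    rw [Finset.prod_union hd]
    have h4 : ∏ a ∈ B, (R a * V a) ^ e a = (∏ a ∈ B, R a ^ e a) * ∏ a ∈ B, V a ^ e a := by
      rw [← Finset.prod_mul_distrib]
      exact Finset.prod_congr rfl (fun a _ => mul_pow _ _ _)
    rw [h4]
    ring
  rw [h2] at h1
  refine le_trans h1 ?_
  rw [← h3]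
  have h5 : 0 ≤ ∏ a ∈ s, ((R a * V a) ^ e a + (R a ^ e a + 1)) := by
    refine Finset.prod_nonneg (fun a ha => ?_)
    have := hR a ha
    have := hV a ha
    positivity
  refine mul_le_mul_of_nonneg_right ?_ h5
  have h6 : c0 ^ (∑ a ∈ s, e a) ≤ c0 ^ 4 := pow_le_pow_right₀ hc0 hE
  have h7 : (64 : ℝ) ^ s.card ≤ 64 ^ 3 := pow_le_pow_right₀ (by norm_num) hs
  have h8 : (0 : ℝ) ≤ c0 ^ 4 := by positivity
  exact mul_le_mul h6 h7 (by positivity) h8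

lemma Cd_avg0 {P : ℕ} {G : ℤ → ℝ} (h : ∀ m, 0 ≤ G m) : 0 ≤ avgP P G :=
  div_nonneg (Finset.sum_nonneg (fun m _ => h _)) (Nat.cast_nonneg _)

lemma Cd_avg1 (P : ℕ) : avgP P (fun _ => 1) ≤ 1 := by
  unfold avgP
  rw [Finset.sum_const, Finset.card_range, nsmul_eq_mul, mul_one]
  exact div_self_le_one _

lemma Cd_a1 {y w : ℕ} (h : y ≤ w) (A : Finset ℤ) (hA : A.card ≤ 4) (e : ℤ → ℕ) (he : ∀ a ∈ A, 1 ≤ e a) :
    avgP (PR (y : ℝ) (w : ℝ)) (fun m => ∏ a ∈ A, rr y w (m + a) ^ e a)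
      ≤ (wp w / wp y) ^ (∑ a ∈ A, (e a - 1)) *
        ∏ p ∈ (PI (y : ℝ) (w : ℝ)).filter (fun p : ℕ => ∃ a ∈ A, ∃ a' ∈ A, a ≠ a' ∧ (p : ℤ) ∣ a - a'),
          (1 + 14 / (p : ℝ)) := by
  rcases A.eq_empty_or_nonempty with rfl | hne
  · simp only [Finset.prod_empty, Finset.sum_empty, pow_zero, one_mul, Finset.notMem_empty, false_and,
      exists_false, Finset.filter_false]
    exact Cd_avg1 _
  · exact rr_upper h A (Finset.card_pos.2 hne) hA e he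

lemma Cd_a2 {b : ℕ} {x : ℝ} {V : ℤ → ℝ} (hV : GoodV b x V) (B : Finset ℤ) (hB : B.card ≤ 4) (e : ℤ → ℕ)
    (he : ∀ a ∈ B, 1 ≤ e a ∧ e a ≤ 4) :
    avgP (PR (yy x : ℝ) (x ^ dl b)) (fun m => ∏ a ∈ B, V (m + a) ^ e a)
      ≤ 5 * (EP (yy x : ℝ) (x ^ dl b))⁻¹ ^ (∑ a ∈ B, (e a - 1)) *
        ∏ p ∈ (PI (yy x : ℝ) (x ^ dl b)).filter (fun p : ℕ => ∃ a ∈ B, ∃ a' ∈ B, a ≠ a' ∧ (p : ℤ) ∣ a - a'),
          (1 + 14 / (p : ℝ)) := by
  rcases B.eq_empty_or_nonempty with rfl | hne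
  · simp only [Finset.prod_empty, Finset.sum_empty, pow_zero, mul_one, Finset.notMem_empty, false_and,
      exists_false, Finset.filter_false]
    exact le_trans (Cd_avg1 _) (by norm_num)
  · let e' : ℤ → ℕ := fun a => if a ∈ B then e a else 1
    have he' : ∀ a, 1 ≤ e' a ∧ e' a ≤ 4 := by
      intro a
      by_cases ha : a ∈ B
      · simp only [e', if_pos ha]
        exact he a ha
      · simp only [e', if_neg ha]
        norm_num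
    have h0 : ∀ a ∈ B, e' a = e a := fun a ha => if_pos ha
    have h1 := hV.2.2.2.1 B (Finset.card_pos.2 hne) hB e' he'
    have h2 : (fun m : ℤ => ∏ a ∈ B, V (m + a) ^ e' a) = fun m : ℤ => ∏ a ∈ B, V (m + a) ^ e a := by
      funext m
      exact Finset.prod_congr rfl (fun a ha => by rw [h0 a ha])
    have h3 : ∑ a ∈ B, (e' a - 1) = ∑ a ∈ B, (e a - 1) :=
      Finset.sum_congr rfl (fun a ha => by rw [h0 a ha])
    rw [h2, h3] at h1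
    refine le_trans h1 ?_
    have h4 : 1 + 4 * (1 / 2 : ℝ) ^ b ≤ 5 := by
      have : (1 / 2 : ℝ) ^ b ≤ 1 := pow_le_one₀ (by norm_num) (by norm_num)
      linarith
    have h5 : 0 ≤ (EP (yy x : ℝ) (x ^ dl b))⁻¹ := inv_nonneg.2 (EP_pos _ _).le
    refine mul_le_mul_of_nonneg_right (mul_le_mul_of_nonneg_right h4 (pow_nonneg h5 _)) ?_
    exact Finset.prod_nonneg (fun p _ => by positivity)

lemma Cd_P1 (f : Finset ℕ) : 0 ≤ ∏ p ∈ f, (1 + 14 / (p : ℝ)) :=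
  Finset.prod_nonneg (fun p _ => by positivity)

lemma Cd_ev (b y : ℕ) : ∃ X : ℝ, ∀ x : ℝ, X ≤ x → 1 ≤ x ∧ 1 ≤ Real.log x ∧ 2 ≤ x ^ dl b ∧ (yy x : ℝ) ≤ x ^ dl b ∧
    (WW y : ℝ) * x ^ (1 / 2 : ℝ) ≤ (⌊x⌋₊ : ℝ) + 1 := by
  have h1 : ∀ᶠ x : ℝ in Filter.atTop, 1 ≤ x ∧ 1 ≤ Real.log x ∧ 2 ≤ x ^ dl b ∧ (yy x : ℝ) ≤ x ^ dl b ∧
      (WW y : ℝ) * x ^ (1 / 2 : ℝ) ≤ (⌊x⌋₊ : ℝ) + 1 := by
    have e1 := tendsto_rpow_atTop (dl_pos b)
    have e2 := tendsto_rpow_atTop (show (0 : ℝ) < 1 / 2 by norm_num)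
    have e3 := (isLittleO_log_rpow_atTop (dl_pos b)).bound (show (0 : ℝ) < 1 by norm_num)
    filter_upwards [Filter.eventually_ge_atTop (1 : ℝ), Real.tendsto_log_atTop.eventually_ge_atTop 1,
      e1.eventually_ge_atTop 2, e2.eventually_ge_atTop (WW y : ℝ), e3] with x a1 a2 a3 a4 a5
    refine ⟨a1, a2, a3, ?_, ?_⟩
    · rw [one_mul, Real.norm_of_nonneg (by linarith), Real.norm_of_nonneg (by positivity)] at a5
      have hll : 0 ≤ Real.log (Real.log x) := Real.log_nonneg a2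
      have b1 : (yy x : ℝ) ≤ Real.log (Real.log x) / 100 := Nat.floor_le (by positivity)
      have b2 : Real.log (Real.log x) ≤ Real.log x - 1 := Real.log_le_sub_one_of_pos (by linarith)
      linarith
    · have c1 : x < (⌊x⌋₊ : ℝ) + 1 := Nat.lt_floor_add_one x
      have c2 : x ^ (1 / 2 : ℝ) * x ^ (1 / 2 : ℝ) = x := by
        rw [← Real.rpow_add (by linarith)]
        norm_num
      have c3 : (WW y : ℝ) * x ^ (1 / 2 : ℝ) ≤ x ^ (1 / 2 : ℝ) * x ^ (1 / 2 : ℝ) :=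
        mul_le_mul_of_nonneg_right a4 (by positivity)
      linarith
  exact Filter.eventually_atTop.1 h1

lemma Cd_gf (y : ℕ) {A s : Finset ℤ} (h : A ⊆ s) :
    ∏ q ∈ A.offDiag, gf y (q.1 - q.2) ≤ ∏ q ∈ s.offDiag, gf y (q.1 - q.2) := by
  rw [← Finset.prod_sdiff (Finset.offDiag_mono h)]
  have h1 : 1 ≤ ∏ q ∈ s.offDiag \ A.offDiag, gf y (q.1 - q.2) :=
    Finset.one_le_prod (fun q _ => one_le_gf _ _)
  have h2 : 0 ≤ ∏ q ∈ A.offDiag, gf y (q.1 - q.2) :=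
    Finset.prod_nonneg (fun q _ => le_trans zero_le_one (one_le_gf _ _))
  nlinarith

theorem Cd : ∃ C : ℝ, 0 < C ∧ ∀ b y : ℕ, 3 ≤ y → ∃ X : ℝ, ∀ x : ℝ, X ≤ x → ∀ V : ℤ → ℝ, GoodV b x V →
    ∀ s : Finset ℤ, 1 ≤ s.card → s.card ≤ 3 → ∀ e : ℤ → ℕ, (∀ a ∈ s, 1 ≤ e a) → ∑ a ∈ s, e a ≤ 4 →
    ∑ n ∈ Finset.range (⌊x⌋₊ + 1), ∏ a ∈ s, Up x y V ((n : ℤ) + a) ^ e a
      ≤ C * (wp y) ^ 4 * ((⌊x⌋₊ : ℝ) + 1) * (Real.log x) ^ (∑ a ∈ s, (e a - 1)) *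
        ∏ q ∈ s.offDiag, gf y (q.1 - q.2) := by
  obtain ⟨c, hc, hmer⟩ := mer2
  set C0 : ℝ := max 1 (1 / c) with hC0
  have hC01 : 1 ≤ C0 := le_max_left _ _
  have hC0c : 1 / c ≤ C0 := le_max_right _ _
  refine ⟨64 ^ 3 * 64 * (5 * C0 ^ 3 + 1), by positivity, ?_⟩
  intro b y hy
  obtain ⟨X1, hX1⟩ := Tr b y
  obtain ⟨X2, hX2⟩ := Cd_ev b y
  refine ⟨max X1 X2, ?_⟩
  intro x hx V hV s hs1 hs3 e he hE
  obtain ⟨hyw, htr⟩ := hX1 x (le_trans (le_max_left _ _) hx)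
  obtain ⟨hx1, hL1, hz2, hwz, hWN⟩ := hX2 x (le_trans (le_max_right _ _) hx)
  have htr := htr V hV
  have hxpos : 0 < x := by linarith
  set N : ℝ := (⌊x⌋₊ : ℝ) + 1 with hN
  have hNpos : 0 < N := by positivity
  set w : ℕ := yy x with hw
  set z : ℝ := x ^ dl b with hz
  set ρ : ℝ := (EP (w : ℝ) z)⁻¹ with hρ
  have hρ1 : 1 ≤ ρ := (one_le_inv₀ (EP_pos _ _)).2 (EP_le_one _ _)
  have hwp1 : 1 ≤ wp w := one_le_wp w
  have hc01 : 1 ≤ wp y := one_le_wp y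
  set Es : ℕ := ∑ a ∈ s, (e a - 1) with hEs
  set G : ℝ := ∏ q ∈ s.offDiag, gf y (q.1 - q.2) with hG
  have hG1 : 1 ≤ G := Finset.one_le_prod (fun q _ => one_le_gf _ _)
  have he4 : ∀ a ∈ s, e a ≤ 4 := fun a ha =>
    le_trans (Finset.single_le_sum (f := e) (fun i _ => Nat.zero_le _) ha) hE
  have hEs3 : Es ≤ 3 := by
    have h1 : Es + s.card = ∑ a ∈ s, e a := by
      rw [hEs, Finset.card_eq_sum_ones, ← Finset.sum_add_distrib]
      exact Finset.sum_congr rfl (fun a ha => Nat.sub_add_cancel (he a ha))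
    omega
  -- the size of the sieve factor
  have hsieve : wp w * ρ ≤ Real.log x * C0 := by
    rw [wp_eq, hρ, ← mul_inv, ← EP_mul (Nat.cast_nonneg w) hwz]
    have h1 := hmer z hz2
    have hlz : 0 < Real.log z := Real.log_pos (by linarith)
    have hlzx : Real.log z ≤ Real.log x := by
      refine Real.log_le_log (by linarith) ?_
      rw [hz]
      have h2 : dl b ≤ 1 := by
        unfold dl
        rw [div_le_one (by positivity)]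
        have : (0 : ℝ) ≤ b := Nat.cast_nonneg b
        linarith
      calc x ^ dl b ≤ x ^ (1 : ℝ) := Real.rpow_le_rpow_of_exponent_le hx1 h2
        _ = x := Real.rpow_one x
    have h3 : (EP 0 z)⁻¹ ≤ (c / Real.log z)⁻¹ := inv_anti₀ (by positivity) h1
    rw [inv_div] at h3
    refine le_trans h3 ?_
    rw [div_eq_mul_one_div]
    exact mul_le_mul hlzx hC0c (by positivity) (by linarith)
  have hLE : 1 ≤ Real.log x ^ Es := one_le_pow₀ hL1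
  -- the bound for one term
  have hterm : ∀ B ∈ s.powerset, ∀ A ∈ (s \ B).powerset,
      ∑ n ∈ Finset.range (⌊x⌋₊ + 1), (∏ a ∈ B ∪ A, rr y w ((n : ℤ) + a) ^ e a) * ∏ a ∈ B, V ((n : ℤ) + a) ^ e a
        ≤ (5 * C0 ^ 3 + 1) * (N * Real.log x ^ Es * G) := by
    intro B hB A hA
    have hBs : B ⊆ s := Finset.mem_powerset.1 hB
    have hAs : A ⊆ s := fun a ha => (Finset.mem_sdiff.1 (Finset.mem_powerset.1 hA ha)).1
    have hDs : B ∪ A ⊆ s := Finset.union_subset hBs hAs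
    have hDc : (B ∪ A).card ≤ 4 := le_trans (Finset.card_le_card hDs) (by omega)
    have hBc : B.card ≤ 4 := le_trans (Finset.card_le_card hBs) (by omega)
    set a1 : ℝ := avgP (PR (y : ℝ) (w : ℝ)) (fun m => ∏ a ∈ B ∪ A, rr y w (m + a) ^ e a) with ha1
    set a2 : ℝ := avgP (PR (w : ℝ) z) (fun m => ∏ a ∈ B, V (m + a) ^ e a) with ha2
    have ha20 : 0 ≤ a2 := Cd_avg0 (fun m => Finset.prod_nonneg (fun a _ => pow_nonneg (hV.1 _) _))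
    have b1 := Cd_a1 hyw (B ∪ A) hDc e (fun a ha => he a (hDs ha))
    have b2 := Cd_a2 hV B hBc e (fun a ha => ⟨he a (hBs ha), he4 a (hBs ha)⟩)
    set P1 : ℝ := ∏ p ∈ (PI (y : ℝ) (w : ℝ)).filter
      (fun p : ℕ => ∃ a ∈ B ∪ A, ∃ a' ∈ B ∪ A, a ≠ a' ∧ (p : ℤ) ∣ a - a'), (1 + 14 / (p : ℝ)) with hP1
    set P2 : ℝ := ∏ p ∈ (PI (w : ℝ) z).filter
      (fun p : ℕ => ∃ a ∈ B, ∃ a' ∈ B, a ≠ a' ∧ (p : ℤ) ∣ a - a'), (1 + 14 / (p : ℝ)) with hP2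
    have hP10 : 0 ≤ P1 := Cd_P1 _
    have hP20 : 0 ≤ P2 := Cd_P1 _
    have hPP : P1 * P2 ≤ G := by
      refine le_trans (off_bound y (Nat.cast_le.2 hyw) (by positivity) (B ∪ A) B
        Finset.subset_union_left) (Cd_gf y hDs)
    have c1 : (wp w / wp y) ^ (∑ a ∈ B ∪ A, (e a - 1)) ≤ wp w ^ Es := by
      have h1 : wp w / wp y ≤ wp w := div_le_self (by linarith) hc01
      have h2 : 0 ≤ wp w / wp y := by have := wp_pos y; have := wp_pos w; positivity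
      refine le_trans (pow_le_pow_left₀ h2 h1 _) (pow_le_pow_right₀ hwp1 ?_)
      exact Finset.sum_le_sum_of_subset hDs
    have c2 : ρ ^ (∑ a ∈ B, (e a - 1)) ≤ ρ ^ Es :=
      pow_le_pow_right₀ hρ1 (Finset.sum_le_sum_of_subset hBs)
    have c3 : wp w ^ Es * ρ ^ Es ≤ Real.log x ^ Es * C0 ^ 3 := by
      rw [← mul_pow]
      have h1 : 0 ≤ wp w * ρ := by positivity
      refine le_trans (pow_le_pow_left₀ h1 hsieve _) ?_
      rw [mul_pow]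
      exact mul_le_mul_of_nonneg_left (pow_le_pow_right₀ hC01 hEs3) (by positivity)
    have d1 : a1 ≤ wp w ^ Es * P1 := le_trans b1 (mul_le_mul_of_nonneg_right c1 hP10)
    have d2 : a2 ≤ 5 * ρ ^ Es * P2 := by
      refine le_trans b2 (mul_le_mul_of_nonneg_right ?_ hP20)
      exact mul_le_mul_of_nonneg_left c2 (by norm_num)
    have hwE : 0 ≤ wp w ^ Es := by have := wp_pos w; positivity
    have hρE : 0 ≤ ρ ^ Es := by positivity
    have d3 : a1 * a2 ≤ 5 * C0 ^ 3 * (Real.log x ^ Es * G) := by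
      calc a1 * a2 ≤ (wp w ^ Es * P1) * (5 * ρ ^ Es * P2) := mul_le_mul d1 d2 ha20 (by positivity)
        _ = 5 * (wp w ^ Es * ρ ^ Es) * (P1 * P2) := by ring
        _ ≤ 5 * (Real.log x ^ Es * C0 ^ 3) * G := by
          refine mul_le_mul (mul_le_mul_of_nonneg_left c3 (by norm_num)) hPP (by positivity) (by positivity)
        _ = 5 * C0 ^ 3 * (Real.log x ^ Es * G) := by ring
    -- the sum over the classes
    have hY0 : 0 < WW y := WW_pos y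
    have hYr : (0 : ℝ) < (WW y : ℝ) := WW_pos_real y
    have f1 : ∑ n ∈ Finset.range (⌊x⌋₊ + 1),
        (∏ a ∈ B ∪ A, rr y w ((n : ℤ) + a) ^ e a) * ∏ a ∈ B, V ((n : ℤ) + a) ^ e a
        = ∑ t ∈ Finset.range (WW y), ∑ n ∈ (Finset.range (⌊x⌋₊ + 1)).filter (fun n => n % WW y = t),
          (∏ a ∈ B ∪ A, rr y w ((n : ℤ) + a) ^ e a) * ∏ a ∈ B, V ((n : ℤ) + a) ^ e a := by
      rw [Finset.sum_fiberwise_of_maps_to]
      intro n _
      exact Finset.mem_range.2 (Nat.mod_lt _ hY0)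
    rw [f1]
    have f2 : ∀ t ∈ Finset.range (WW y), ∑ n ∈ (Finset.range (⌊x⌋₊ + 1)).filter (fun n => n % WW y = t),
          (∏ a ∈ B ∪ A, rr y w ((n : ℤ) + a) ^ e a) * ∏ a ∈ B, V ((n : ℤ) + a) ^ e a
          ≤ N / (WW y : ℝ) * (a1 * a2) + x ^ (1 / 2 : ℝ) := by
      intro t ht
      have h1 := htr t (Finset.mem_range.1 ht) (B ∪ A) B hDc e e (fun a ha => he4 a (hDs ha))
        (le_trans (Finset.sum_le_sum_of_subset hBs) hE)
      have h2 := (abs_le.1 h1).2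
      linarith
    refine le_trans (Finset.sum_le_sum f2) ?_
    rw [Finset.sum_const, Finset.card_range, nsmul_eq_mul]
    have f3 : (WW y : ℝ) * (N / (WW y : ℝ) * (a1 * a2) + x ^ (1 / 2 : ℝ))
        = N * (a1 * a2) + (WW y : ℝ) * x ^ (1 / 2 : ℝ) := by
      field_simp
    rw [f3]
    have f4 : N ≤ N * (Real.log x ^ Es * G) := by
      have : 1 ≤ Real.log x ^ Es * G := one_le_mul_of_one_le_of_one_le hLE hG1
      nlinarith
    have f5 : N * (a1 * a2) ≤ N * (5 * C0 ^ 3 * (Real.log x ^ Es * G)) :=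
      mul_le_mul_of_nonneg_left d3 hNpos.le
    linarith
  -- the pointwise bound
  have hpt : ∀ n ∈ Finset.range (⌊x⌋₊ + 1), ∏ a ∈ s, Up x y V ((n : ℤ) + a) ^ e a
      ≤ wp y ^ 4 * 64 ^ 3 * ∑ B ∈ s.powerset, ∑ A ∈ (s \ B).powerset,
        (∏ a ∈ B ∪ A, rr y w ((n : ℤ) + a) ^ e a) * ∏ a ∈ B, V ((n : ℤ) + a) ^ e a := by
    intro n _
    refine Cd_prod he4 hs3 hE hc01 (fun a => rr y w ((n : ℤ) + a)) (fun a => V ((n : ℤ) + a))
      (fun a => Up x y V ((n : ℤ) + a)) (fun a _ => rr_nonneg _ _ _) (fun a _ => hV.1 _) ?_ ?_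
    · intro a _
      show 0 ≤ Up x y V ((n : ℤ) + a)
      unfold Up
      have h1 := hV.1 ((n : ℤ) + a)
      have h2 := Mm_nonneg (yy x) ((n : ℤ) + a)
      positivity
    · intro a _
      show Up x y V ((n : ℤ) + a) ≤ wp y * (rr y w ((n : ℤ) + a) * V ((n : ℤ) + a) + (rr y w ((n : ℤ) + a) + 1))
      unfold Up
      have h1 := hV.1 ((n : ℤ) + a)
      have h2 : Mm (yy x) ((n : ℤ) + a) ≤ wp y * rr y w ((n : ℤ) + a) := by
        rw [Mm_split hyw]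
        exact mul_le_mul_of_nonneg_right (Mm_le _ _) (rr_nonneg _ _ _)
      have h3 := mul_le_mul_of_nonneg_right h2 (by linarith : (0 : ℝ) ≤ V ((n : ℤ) + a) + 1)
      linarith
  refine le_trans (Finset.sum_le_sum hpt) ?_
  rw [← Finset.mul_sum, Finset.sum_comm]
  have hsum : ∑ B ∈ s.powerset, ∑ n ∈ Finset.range (⌊x⌋₊ + 1), ∑ A ∈ (s \ B).powerset,
        (∏ a ∈ B ∪ A, rr y w ((n : ℤ) + a) ^ e a) * ∏ a ∈ B, V ((n : ℤ) + a) ^ e a
      ≤ 64 * ((5 * C0 ^ 3 + 1) * (N * Real.log x ^ Es * G)) := by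
    set M : ℝ := (5 * C0 ^ 3 + 1) * (N * Real.log x ^ Es * G) with hM
    have hM0 : 0 ≤ M := by positivity
    have hpow : ∀ T : Finset ℤ, T ⊆ s → (T.powerset.card : ℝ) ≤ 8 := by
      intro T hT
      rw [Finset.card_powerset]
      have : 2 ^ T.card ≤ 2 ^ 3 := Nat.pow_le_pow_right (by norm_num) (le_trans (Finset.card_le_card hT) hs3)
      exact_mod_cast this
    have h1 : ∀ B ∈ s.powerset, ∑ n ∈ Finset.range (⌊x⌋₊ + 1), ∑ A ∈ (s \ B).powerset,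
        (∏ a ∈ B ∪ A, rr y w ((n : ℤ) + a) ^ e a) * ∏ a ∈ B, V ((n : ℤ) + a) ^ e a ≤ 8 * M := by
      intro B hB
      rw [Finset.sum_comm]
      refine le_trans (Finset.sum_le_sum (fun A hA => hterm B hB A hA)) ?_
      rw [Finset.sum_const, nsmul_eq_mul]
      exact mul_le_mul_of_nonneg_right (hpow _ Finset.sdiff_subset) hM0
    refine le_trans (Finset.sum_le_sum h1) ?_
    rw [Finset.sum_const, nsmul_eq_mul]
    have h2 := mul_le_mul_of_nonneg_right (hpow s (Finset.Subset.refl _)) (by positivity : 0 ≤ 8 * M)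
    linarith
  have hw4 : 0 ≤ wp y ^ 4 * 64 ^ 3 := by have := wp_pos y; positivity
  refine le_trans (mul_le_mul_of_nonneg_left hsum hw4) (le_of_eq ?_)
  ring

end Pool.Agent.H12.DM
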