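import Pool.Agent.H12.DM.Tr
import Pool.Agent.H12.DM.Ob

/-!
# Cg: the main correlation estimate

`Y = WW y`, `w = yy x ≥ y`, `N = ⌊x⌋₊ + 1`, `c₀ = wp y`. `U = Uu x V = Mm w (V+1)`, `D = Dd x y V = Mm w V - Mm y`. By `Mm_split`
`Mm w n = Mm y n * r n`, `r = rr y w`, so `U n = Mm y n * r n * (V n + 1)` and `D n = Mm y n * (r n * V n - 1)`.

Split the sum over `n` into the classes `n % Y = t`, `t < Y`. On the class `Mm y (n + a) = Mm y (t + a)` (`Mm_period`), so the sum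
over the class is `m₀ * ∑_{n % Y = t} r(n) r(n+h) (V n + 1)(V(n+h)+1)(r(n+k)V(n+k) - 1)(r(n+l)V(n+l) - 1)` with
`0 ≤ m₀ = Mm y t * Mm y (t+h) * Mm y (t+k) * Mm y (t+l) ≤ c₀^4`. Expand into 16 terms: for `A ⊆ {0,h}` and `B ⊆ {k,l}`
`(-1)^{|B|} X_{A,B}`, `X_{A,B}(n) = ∏_{a ∈ {0,h} ∪ B} r(n+a) * ∏_{a ∈ A ∪ B} V(n+a)`
(all four points are distinct). By `Tr` with exponents `1`:
`∑_{n % Y = t} X_{A,B} = (N/Y) * avg₁ * avg₂ + O*(x^{1/2})`.
* `|B| = 0` or `2` (8 terms, sign `+`): by `rr_upper` (exponent sum `∑ (1-1) = 0`) and the fourth part of `GoodV` (`avg₂ = 1` if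
  `A ∪ B = ∅`): `avg₁ avg₂ ≤ (1 + 4 (1/2)^b) * P`, where `P` is the product of `1 + 14/p` over the primes `p > y` that divide a
  difference of two of the points `0,h,k,l` (the primes in `PI y w` and in `PI w z` are different), and `P ≤ GG y h k l` (every such
  `p` divides one of the six differences in `GG`; `GG` is the product over the six differences of the product over all prime
  divisors `> y`): `GG_bound` in `Ob.lean`.
* `|B| = 1` (8 terms, sign `-`): `avg₁ ≥ max 0 (1 - 100/y)` (`rr_lower`, 3 points, `rr ≥ 0`) and `avg₂ ≥ max 0 (1 - 100/w)` (fifth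
  part of `GoodV`, between 1 and 3 points), so `avg₁ avg₂ ≥ 1 - 200/y`.
So the class sum is `≤ m₀ * ((N/Y) * 8 * ((1 + 4 (1/2)^b) GG - 1 + 200/y) + 16 x^{1/2})`, and
`(1 + 4 (1/2)^b) GG - 1 ≤ 5 (GG - 1) + 4 (1/2)^b`; the bracket is `≥ 0`, so `m₀ ≤ c₀^4` may be inserted. Sum over the `Y` classes:
`≤ c₀^4 * (N * 8 * (5 (GG-1) + 4 (1/2)^b + 200/y) + 16 Y x^{1/2})` and `16 Y x^{1/2} ≤ N (1/2)^b` for `x ≥ X(b,y)`. `C = 2000` works.
-/

set_option autoImplicit false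

namespace Pool.Agent.H12.DM

open Finset Pool.Agent.H17 Pool.Agent.H6.MF Pool.Agent.H6.MB

lemma Cg_exp (r V : ℤ → ℝ) (S0 S1 : Finset ℤ) (hd : Disjoint S0 S1) :
    (∏ a ∈ S0, r a * (V a + 1)) * ∏ a ∈ S1, (1 - r a * V a)
      = ∑ A ∈ S0.powerset, ∑ B ∈ S1.powerset,
          (-1) ^ B.card * ((∏ a ∈ S0 ∪ B, r a) * ∏ a ∈ A ∪ B, V a) := by
  have h1 : (∏ a ∈ S0, r a * (V a + 1)) = ∑ A ∈ S0.powerset, (∏ a ∈ S0, r a) * ∏ a ∈ A, V a := by
    rw [Finset.prod_mul_distrib, Finset.prod_add_one, Finset.mul_sum]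
  have h2 : ∏ a ∈ S1, (1 - r a * V a)
      = ∑ B ∈ S1.powerset, (-1) ^ B.card * ((∏ a ∈ B, r a) * ∏ a ∈ B, V a) := by
    have : ∏ a ∈ S1, (1 - r a * V a) = ∏ a ∈ S1, (1 + (-1) * (r a * V a)) :=
      Finset.prod_congr rfl fun a _ => by ring
    rw [this, Finset.prod_one_add]
    refine Finset.sum_congr rfl fun B _ => ?_
    rw [Finset.prod_mul_distrib, Finset.prod_const, Finset.prod_mul_distrib]
  rw [h1, h2, Finset.sum_mul_sum]
  refine Finset.sum_congr rfl fun A hA => Finset.sum_congr rfl fun B hB => ?_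
  have hA' := Finset.mem_powerset.1 hA
  have hB' := Finset.mem_powerset.1 hB
  rw [Finset.prod_union (hd.mono_right hB'), Finset.prod_union (hd.mono hA' hB')]
  ring

lemma Cg_PR_pos (u v : ℝ) : 0 < PR u v := by
  unfold PR
  refine Finset.prod_pos fun p hp => ?_
  exact (Finset.mem_filter.1 hp).2.1.pos

lemma Cg_avg_nonneg {P : ℕ} {G : ℤ → ℝ} (hG : ∀ n, 0 ≤ G n) : 0 ≤ avgP P G := by
  unfold avgP
  exact div_nonneg (Finset.sum_nonneg fun m _ => hG _) (Nat.cast_nonneg _)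

lemma Cg_one_le_prod (F : Finset ℕ) : (1 : ℝ) ≤ ∏ p ∈ F, (1 + 14 / (p : ℝ)) := by
  refine Finset.one_le_prod fun p _ => ?_
  have : (0 : ℝ) ≤ 14 / p := by positivity
  linarith

/-- the class sums -/
noncomputable def CgT (x : ℝ) (y : ℕ) (V : ℤ → ℝ) (t : ℕ) (s s' : Finset ℤ) : ℝ :=
  ∑ n ∈ (Finset.range (⌊x⌋₊ + 1)).filter (fun n => n % WW y = t),
    ((∏ a ∈ s, rr y (yy x) ((n : ℤ) + a)) * ∏ a ∈ s', V ((n : ℤ) + a))

/-- the statement of `Tr` for exponents one -/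
def CgTr (b : ℕ) (x : ℝ) (y : ℕ) (V : ℤ → ℝ) (t : ℕ) : Prop :=
  ∀ s s' : Finset ℤ, s.card ≤ 4 → s'.card ≤ 4 →
    |CgT x y V t s s' - ((⌊x⌋₊ : ℝ) + 1) / (WW y : ℝ) *
        (avgP (PR (y : ℝ) (yy x : ℝ)) (fun m => ∏ a ∈ s, rr y (yy x) (m + a)) *
          avgP (PR (yy x : ℝ) (x ^ dl b)) (fun m => ∏ a ∈ s', V (m + a)))| ≤ x ^ (1 / 2 : ℝ)

lemma Cg_upper {b y : ℕ} {x : ℝ} {V : ℤ → ℝ} {t : ℕ} (hx : 0 ≤ x) (hV : GoodV b x V) (hyw : y ≤ yy x)
    (hT : CgTr b x y V t) {h k l : ℤ} (s s' : Finset ℤ) (hs : s ⊆ {0, h, k, l}) (hs' : s' ⊆ {0, h, k, l})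
    (hs1 : 1 ≤ s.card) :
    CgT x y V t s s' ≤ ((⌊x⌋₊ : ℝ) + 1) / (WW y : ℝ) * ((1 + 4 * (1 / 2 : ℝ) ^ b) * GG y h k l)
      + x ^ (1 / 2 : ℝ) := by
  have hc : s.card ≤ 4 := (Finset.card_le_card hs).trans Finset.card_le_four
  have hc' : s'.card ≤ 4 := (Finset.card_le_card hs').trans Finset.card_le_four
  have h0 := (abs_le.1 (hT s s' hc hc')).2
  have hu := rr_upper hyw s hs1 hc (fun _ => 1) (fun _ _ => le_rfl)
  simp only [pow_one, Nat.sub_self, Finset.sum_const_zero, pow_zero, one_mul] at hu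
  have hGG := GG_bound y (u := (yy x : ℝ)) (v := x ^ dl b) (by exact_mod_cast hyw)
    (Real.rpow_nonneg hx _) h k l s s' hs hs'
  set Q1 := ∏ p ∈ (PI (y : ℝ) (yy x : ℝ)).filter
    (fun p : ℕ => ∃ a ∈ s, ∃ a' ∈ s, a ≠ a' ∧ (p : ℤ) ∣ a - a'), (1 + 14 / (p : ℝ)) with hQ1
  set Q2 := ∏ p ∈ (PI (yy x : ℝ) (x ^ dl b)).filter
    (fun p : ℕ => ∃ a ∈ s', ∃ a' ∈ s', a ≠ a' ∧ (p : ℤ) ∣ a - a'), (1 + 14 / (p : ℝ)) with hQ2
  have hQ1' : 1 ≤ Q1 := Cg_one_le_prod _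
  have hQ2' : 1 ≤ Q2 := Cg_one_le_prod _
  have hE : (1 : ℝ) ≤ 1 + 4 * (1 / 2 : ℝ) ^ b := by
    have : (0 : ℝ) ≤ (1 / 2 : ℝ) ^ b := by positivity
    linarith
  have ha2 : avgP (PR (yy x : ℝ) (x ^ dl b)) (fun m => ∏ a ∈ s', V (m + a))
      ≤ (1 + 4 * (1 / 2 : ℝ) ^ b) * Q2 := by
    rcases Nat.eq_zero_or_pos s'.card with h0' | h1'
    · have hse : s' = ∅ := Finset.card_eq_zero.1 h0'
      have : avgP (PR (yy x : ℝ) (x ^ dl b)) (fun m => ∏ a ∈ s', V (m + a)) = 1 := by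
        unfold avgP
        have hP : (0 : ℝ) < (PR (yy x : ℝ) (x ^ dl b) : ℝ) := by exact_mod_cast Cg_PR_pos _ _
        rw [hse]
        simp only [Finset.prod_empty, Finset.sum_const, Finset.card_range, nsmul_eq_mul, mul_one]
        exact div_self hP.ne'
      rw [this]
      exact one_le_mul_of_one_le_of_one_le hE hQ2'
    · have := hV.2.2.2.1 s' h1' hc' (fun _ => 1) (fun _ => ⟨le_rfl, by norm_num⟩)
      simp only [pow_one, Nat.sub_self, Finset.sum_const_zero, pow_zero, mul_one] at this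
      exact this
  have ha2n : 0 ≤ avgP (PR (yy x : ℝ) (x ^ dl b)) (fun m => ∏ a ∈ s', V (m + a)) :=
    Cg_avg_nonneg fun n => Finset.prod_nonneg fun a _ => hV.1 _
  have hprod : avgP (PR (y : ℝ) (yy x : ℝ)) (fun m => ∏ a ∈ s, rr y (yy x) (m + a)) *
      avgP (PR (yy x : ℝ) (x ^ dl b)) (fun m => ∏ a ∈ s', V (m + a))
        ≤ (1 + 4 * (1 / 2 : ℝ) ^ b) * GG y h k l := by
    calc _ ≤ Q1 * ((1 + 4 * (1 / 2 : ℝ) ^ b) * Q2) :=
          mul_le_mul hu ha2 ha2n (by linarith)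
      _ = (1 + 4 * (1 / 2 : ℝ) ^ b) * (Q1 * Q2) := by ring
      _ ≤ _ := mul_le_mul_of_nonneg_left hGG (by linarith)
  have hNY : 0 ≤ ((⌊x⌋₊ : ℝ) + 1) / (WW y : ℝ) := by positivity
  have := mul_le_mul_of_nonneg_left hprod hNY
  linarith

lemma Cg_lower {b y : ℕ} {x : ℝ} {V : ℤ → ℝ} {t : ℕ} (hV : GoodV b x V) (hy : 3 ≤ y) (hyw : y ≤ yy x)
    (hT : CgTr b x y V t) (s s' : Finset ℤ) (hs1 : 1 ≤ s.card) (hs3 : s.card ≤ 3)
    (hs1' : 1 ≤ s'.card) (hs3' : s'.card ≤ 3) :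
    ((⌊x⌋₊ : ℝ) + 1) / (WW y : ℝ) * (1 - 200 / (y : ℝ)) - x ^ (1 / 2 : ℝ) ≤ CgT x y V t s s' := by
  have h0 := (abs_le.1 (hT s s' (by omega) (by omega))).1
  have h1 := rr_lower hy hyw s hs1 hs3
  have h2 := hV.2.2.2.2 s' hs1' hs3'
  have hy0 : (0 : ℝ) < y := by
    have : (3 : ℝ) ≤ y := by exact_mod_cast hy
    linarith
  have hyw' : (y : ℝ) ≤ (yy x : ℝ) := by exact_mod_cast hyw
  have h3 : 100 / (yy x : ℝ) ≤ 100 / (y : ℝ) := div_le_div_of_nonneg_left (by norm_num) hy0 hyw'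
  have n1 : 0 ≤ avgP (PR (y : ℝ) (yy x : ℝ)) (fun m => ∏ a ∈ s, rr y (yy x) (m + a)) :=
    Cg_avg_nonneg fun n => Finset.prod_nonneg fun a _ => rr_nonneg _ _ _
  have n2 : 0 ≤ avgP (PR (yy x : ℝ) (x ^ dl b)) (fun m => ∏ a ∈ s', V (m + a)) :=
    Cg_avg_nonneg fun n => Finset.prod_nonneg fun a _ => hV.1 _
  set a1 := avgP (PR (y : ℝ) (yy x : ℝ)) (fun m => ∏ a ∈ s, rr y (yy x) (m + a))
  set a2 := avgP (PR (yy x : ℝ) (x ^ dl b)) (fun m => ∏ a ∈ s', V (m + a))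
  have e200 : 200 / (y : ℝ) = 2 * (100 / (y : ℝ)) := by ring
  have hprod : 1 - 200 / (y : ℝ) ≤ a1 * a2 := by
    rw [e200]
    set q := 100 / (y : ℝ)
    have hq0 : 0 ≤ q := by positivity
    rcases le_total 0 (1 - q) with hq | hq
    · have h2' : 1 - q ≤ a2 := by linarith
      calc 1 - 2 * q ≤ (1 - q) * (1 - q) := by nlinarith [sq_nonneg q]
        _ ≤ a1 * a2 := mul_le_mul h1 h2' hq n1
    · have : 0 ≤ a1 * a2 := mul_nonneg n1 n2
      linarith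
  have hNY : 0 ≤ ((⌊x⌋₊ : ℝ) + 1) / (WW y : ℝ) := by positivity
  have := mul_le_mul_of_nonneg_left hprod hNY
  linarith

lemma Cg_powerset_two (f : Finset ℤ → ℝ) {k l : ℤ} (hkl : k ≠ l) :
    ∑ B ∈ ({k, l} : Finset ℤ).powerset, f B = f ∅ + f {l} + (f {k} + f {k, l}) := by
  have h1 : k ∉ ({l} : Finset ℤ) := by simpa using hkl
  rw [Finset.sum_powerset_insert h1]
  have h2 : ∀ g : Finset ℤ → ℝ, ∑ B ∈ ({l} : Finset ℤ).powerset, g B = g ∅ + g {l} := by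
    intro g
    have : ({l} : Finset ℤ) = insert l ∅ := rfl
    rw [this, Finset.sum_powerset_insert (Finset.notMem_empty l)]
    simp
  rw [h2, h2]
  simp

/-- the class sum of the product -/
lemma Cg_class {b y : ℕ} {x : ℝ} {V : ℤ → ℝ} {t : ℕ} (hx : 0 ≤ x) (hV : GoodV b x V) (hy : 3 ≤ y)
    (hyw : y ≤ yy x) (hT : CgTr b x y V t) {h k l : ℤ} (hh : h ≠ 0) (hk : k ≠ 0) (hl : l ≠ 0) (hhk : h ≠ k)
    (hhl : h ≠ l) (hkl : k ≠ l) :
    ∑ n ∈ (Finset.range (⌊x⌋₊ + 1)).filter (fun n => n % WW y = t),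
        (((∏ a ∈ ({0, h} : Finset ℤ), rr y (yy x) ((n : ℤ) + a) * (V ((n : ℤ) + a) + 1)) *
          ∏ a ∈ ({k, l} : Finset ℤ), (1 - rr y (yy x) ((n : ℤ) + a) * V ((n : ℤ) + a))))
      ≤ ((⌊x⌋₊ : ℝ) + 1) / (WW y : ℝ) * (8 * ((1 + 4 * (1 / 2 : ℝ) ^ b) * GG y h k l - 1 + 200 / (y : ℝ)))
        + 16 * x ^ (1 / 2 : ℝ) := by
  have hd : Disjoint ({0, h} : Finset ℤ) {k, l} := by
    rw [Finset.disjoint_left]
    intro a ha hb
    simp only [Finset.mem_insert, Finset.mem_singleton] at ha hb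
    omega
  have e1 : ∑ n ∈ (Finset.range (⌊x⌋₊ + 1)).filter (fun n => n % WW y = t),
        (((∏ a ∈ ({0, h} : Finset ℤ), rr y (yy x) ((n : ℤ) + a) * (V ((n : ℤ) + a) + 1)) *
          ∏ a ∈ ({k, l} : Finset ℤ), (1 - rr y (yy x) ((n : ℤ) + a) * V ((n : ℤ) + a))))
      = ∑ A ∈ ({0, h} : Finset ℤ).powerset, ∑ B ∈ ({k, l} : Finset ℤ).powerset,
          (-1) ^ B.card * CgT x y V t ({0, h} ∪ B) (A ∪ B) := by
    have : ∀ n : ℕ, (((∏ a ∈ ({0, h} : Finset ℤ), rr y (yy x) ((n : ℤ) + a) * (V ((n : ℤ) + a) + 1)) *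
          ∏ a ∈ ({k, l} : Finset ℤ), (1 - rr y (yy x) ((n : ℤ) + a) * V ((n : ℤ) + a))))
        = ∑ A ∈ ({0, h} : Finset ℤ).powerset, ∑ B ∈ ({k, l} : Finset ℤ).powerset,
          (-1) ^ B.card * ((∏ a ∈ ({0, h} : Finset ℤ) ∪ B, rr y (yy x) ((n : ℤ) + a)) *
            ∏ a ∈ A ∪ B, V ((n : ℤ) + a)) := fun n =>
      Cg_exp (fun a => rr y (yy x) ((n : ℤ) + a)) (fun a => V ((n : ℤ) + a)) _ _ hd
    rw [Finset.sum_congr rfl fun n _ => this n, Finset.sum_comm]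
    refine Finset.sum_congr rfl fun A _ => ?_
    rw [Finset.sum_comm]
    refine Finset.sum_congr rfl fun B _ => ?_
    rw [← Finset.mul_sum]
    rfl
  rw [e1]
  have hsub : ∀ B ⊆ ({k, l} : Finset ℤ), ({0, h} ∪ B : Finset ℤ) ⊆ {0, h, k, l} := by
    intro B hB a ha
    rcases Finset.mem_union.1 ha with ha | ha
    · simp only [Finset.mem_insert, Finset.mem_singleton] at ha ⊢
      tauto
    · have := hB ha
      simp only [Finset.mem_insert, Finset.mem_singleton] at this ⊢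
      tauto
  set NY := ((⌊x⌋₊ : ℝ) + 1) / (WW y : ℝ)
  set EG := (1 + 4 * (1 / 2 : ℝ) ^ b) * GG y h k l
  set R := x ^ (1 / 2 : ℝ)
  have hup : ∀ A ⊆ ({0, h} : Finset ℤ), ∀ B ⊆ ({k, l} : Finset ℤ),
      CgT x y V t ({0, h} ∪ B) (A ∪ B) ≤ NY * EG + R := by
    intro A hA B hB
    refine Cg_upper hx hV hyw hT _ _ (hsub B hB) ?_ ?_
    · exact (Finset.union_subset_union_left hA).trans (hsub B hB)
    · exact Finset.card_pos.2 ⟨0, by simp⟩
  have hlow : ∀ A ⊆ ({0, h} : Finset ℤ), ∀ B ⊆ ({k, l} : Finset ℤ), B.card = 1 →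
      NY * (1 - 200 / (y : ℝ)) - R ≤ CgT x y V t ({0, h} ∪ B) (A ∪ B) := by
    intro A hA B hB hB1
    have hA2 : A.card ≤ 2 := (Finset.card_le_card hA).trans Finset.card_le_two
    have c1 : ({0, h} ∪ B : Finset ℤ).card ≤ 3 := by
      have := Finset.card_union_le ({0, h} : Finset ℤ) B
      have h2 : ({0, h} : Finset ℤ).card ≤ 2 := Finset.card_le_two
      omega
    have c2 : (A ∪ B).card ≤ 3 := by
      have := Finset.card_union_le A B
      omega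
    have c3 : 1 ≤ (A ∪ B).card := by
      have := Finset.card_le_card (Finset.subset_union_right : B ⊆ A ∪ B)
      omega
    exact Cg_lower hV hy hyw hT _ _ (Finset.card_pos.2 ⟨0, by simp⟩) c1 c3 c2
  have hA : ∀ A ∈ ({0, h} : Finset ℤ).powerset, ∑ B ∈ ({k, l} : Finset ℤ).powerset,
          (-1) ^ B.card * CgT x y V t ({0, h} ∪ B) (A ∪ B)
        ≤ NY * (2 * (EG - 1 + 200 / (y : ℝ))) + 4 * R := by
    intro A hA
    have hA := Finset.mem_powerset.1 hA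
    rw [Cg_powerset_two _ hkl]
    have u1 := hup A hA ∅ (Finset.empty_subset _)
    have u2 := hup A hA {k, l} (Finset.Subset.refl _)
    have l1 := hlow A hA {l} (by intro a ha; simp only [Finset.mem_singleton] at ha; simp [ha])
      (Finset.card_singleton _)
    have l2 := hlow A hA {k} (by intro a ha; simp only [Finset.mem_singleton] at ha; simp [ha])
      (Finset.card_singleton _)
    rw [Finset.card_empty, Finset.card_singleton, Finset.card_singleton, Finset.card_pair hkl]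
    simp only [pow_zero, one_mul, pow_one, neg_mul, even_two, Even.neg_pow, one_pow]
    nlinarith [u1, u2, l1, l2]
  have hc : (({0, h} : Finset ℤ).powerset.card : ℝ) = 4 := by
    rw [Finset.card_powerset, Finset.card_pair (Ne.symm hh)]
    norm_num
  calc _ ≤ ∑ A ∈ ({0, h} : Finset ℤ).powerset, (NY * (2 * (EG - 1 + 200 / (y : ℝ))) + 4 * R) :=
        Finset.sum_le_sum hA
    _ = _ := by
        rw [Finset.sum_const, nsmul_eq_mul, hc]
        ring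

/-- the pointwise identity on a class -/
lemma Cg_point {y : ℕ} {x : ℝ} {V : ℤ → ℝ} {t : ℕ} (hyw : y ≤ yy x) {h k l : ℤ} (hh : h ≠ 0)
    (hkl : k ≠ l) {n : ℕ} (hn : n % WW y = t) :
    Uu x V (n : ℤ) * Uu x V ((n : ℤ) + h) * Dd x y V ((n : ℤ) + k) * Dd x y V ((n : ℤ) + l)
      = (Mm y t * Mm y ((t : ℤ) + h) * Mm y ((t : ℤ) + k) * Mm y ((t : ℤ) + l)) *
        ((∏ a ∈ ({0, h} : Finset ℤ), rr y (yy x) ((n : ℤ) + a) * (V ((n : ℤ) + a) + 1)) *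
          ∏ a ∈ ({k, l} : Finset ℤ), (1 - rr y (yy x) ((n : ℤ) + a) * V ((n : ℤ) + a))) := by
  have hper : ∀ a : ℤ, Mm y ((n : ℤ) + a) = Mm y ((t : ℤ) + a) := by
    intro a
    have hn' : (n : ℤ) = (t : ℤ) + ((n / WW y : ℕ) : ℤ) * (WW y : ℤ) := by
      have := Nat.mod_add_div n (WW y)
      rw [hn] at this
      calc (n : ℤ) = ((t + WW y * (n / WW y) : ℕ) : ℤ) := by rw [this]
        _ = _ := by push_cast; ring
    have : (n : ℤ) + a = ((t : ℤ) + a) + ((n / WW y : ℕ) : ℤ) * (WW y : ℤ) := by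
      rw [hn']
      have e : ((t : ℤ) + ((n / WW y : ℕ) : ℤ) * (WW y : ℤ)) + a
        = ((t : ℤ) + a) + ((n / WW y : ℕ) : ℤ) * (WW y : ℤ) := by ring
      rw [← hn'] at e ⊢
      exact e
    rw [this, Mm_period]
  have hU : ∀ a : ℤ, Uu x V ((n : ℤ) + a)
      = Mm y ((t : ℤ) + a) * (rr y (yy x) ((n : ℤ) + a) * (V ((n : ℤ) + a) + 1)) := by
    intro a
    unfold Uu
    rw [Mm_split hyw, hper a]
    ring
  have hD : ∀ a : ℤ, Dd x y V ((n : ℤ) + a)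
      = Mm y ((t : ℤ) + a) * (rr y (yy x) ((n : ℤ) + a) * V ((n : ℤ) + a) - 1) := by
    intro a
    unfold Dd
    rw [Mm_split hyw, hper a]
    ring
  rw [Finset.prod_pair (Ne.symm hh), Finset.prod_pair hkl]
  have h0 := hU 0
  rw [add_zero, add_zero] at h0
  rw [h0, hU h, hD k, hD l, add_zero]
  ring

theorem Cg : ∃ C : ℝ, 0 < C ∧ ∀ b y : ℕ, 3 ≤ y → ∃ X : ℝ, ∀ x : ℝ, X ≤ x → ∀ V : ℤ → ℝ, GoodV b x V → ∀ h k l : ℤ,
    h ≠ 0 → k ≠ 0 → l ≠ 0 → h ≠ k → h ≠ l → k ≠ l →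
    ∑ n ∈ Finset.range (⌊x⌋₊ + 1),
        Uu x V (n : ℤ) * Uu x V ((n : ℤ) + h) * Dd x y V ((n : ℤ) + k) * Dd x y V ((n : ℤ) + l)
      ≤ C * (wp y) ^ 4 * ((⌊x⌋₊ : ℝ) + 1) * ((1 / 2 : ℝ) ^ b + 1 / (y : ℝ) + (GG y h k l - 1)) := by
  refine ⟨2000, by norm_num, fun b y hy => ?_⟩
  obtain ⟨X0, hX0⟩ := Tr b y
  refine ⟨max X0 (max 1 ((16 * (WW y : ℝ) * 2 ^ b) ^ 2)), ?_⟩
  intro x hx V hV h k l hh hk hl hhk hhl hkl
  have hx0 : X0 ≤ x := (le_max_left _ _).trans hx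
  have hx1 : 1 ≤ x := ((le_max_left _ _).trans (le_max_right _ _)).trans hx
  have hx2 : (16 * (WW y : ℝ) * 2 ^ b) ^ 2 ≤ x := ((le_max_right _ _).trans (le_max_right _ _)).trans hx
  have hxn : 0 ≤ x := by linarith
  obtain ⟨hyw, hTr⟩ := hX0 x hx0
  have hT : ∀ t : ℕ, t < WW y → CgTr b x y V t := by
    intro t ht s s' hs hs'
    have := hTr V hV t ht s s' hs (fun _ => 1) (fun _ => 1) (fun _ _ => by norm_num) (by simpa using hs')
    simp only [pow_one] at this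
    exact this
  have hYpos : (0 : ℝ) < (WW y : ℝ) := WW_pos_real y
  set N : ℝ := (⌊x⌋₊ : ℝ) + 1 with hN
  have hNx : x ≤ N := (Nat.lt_floor_add_one x).le
  have hNpos : 0 < N := by positivity
  set G := GG y h k l with hG
  have hG1 : 1 ≤ G := one_le_GG y h k l
  set q : ℝ := (1 / 2 : ℝ) ^ b with hq
  have hq0 : 0 ≤ q := by positivity
  have hq1 : q ≤ 1 := pow_le_one₀ (by norm_num) (by norm_num)
  have hy0 : (0 : ℝ) < y := by
    have : (3 : ℝ) ≤ y := by exact_mod_cast hy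
    linarith
  set K : ℝ := 8 * ((1 + 4 * q) * G - 1 + 200 / (y : ℝ)) with hK
  have hK0 : 0 ≤ K := by
    have h1 : 1 ≤ (1 + 4 * q) * G := one_le_mul_of_one_le_of_one_le (by linarith) hG1
    have h2 : 0 ≤ 200 / (y : ℝ) := by positivity
    rw [hK]
    linarith
  set R := x ^ (1 / 2 : ℝ) with hR
  have hR0 : 0 ≤ R := Real.rpow_nonneg hxn _
  -- the sum over a class
  have hcls : ∀ t ∈ Finset.range (WW y),
      ∑ n ∈ (Finset.range (⌊x⌋₊ + 1)).filter (fun n => n % WW y = t),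
        Uu x V (n : ℤ) * Uu x V ((n : ℤ) + h) * Dd x y V ((n : ℤ) + k) * Dd x y V ((n : ℤ) + l)
      ≤ wp y ^ 4 * (N / (WW y : ℝ) * K + 16 * R) := by
    intro t ht
    have ht := Finset.mem_range.1 ht
    have hc := Cg_class hxn hV hy hyw (hT t ht) hh hk hl hhk hhl hkl
    set m0 := Mm y t * Mm y ((t : ℤ) + h) * Mm y ((t : ℤ) + k) * Mm y ((t : ℤ) + l) with hm0
    have hm00 : 0 ≤ m0 :=
      mul_nonneg (mul_nonneg (mul_nonneg (Mm_nonneg _ _) (Mm_nonneg _ _)) (Mm_nonneg _ _)) (Mm_nonneg _ _)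
    have hwp := (wp_pos y).le
    have hm04 : m0 ≤ wp y ^ 4 := by
      calc m0 ≤ wp y * wp y * wp y * wp y := by
            refine mul_le_mul (mul_le_mul (mul_le_mul (Mm_le _ _) (Mm_le _ _) (Mm_nonneg _ _) hwp)
              (Mm_le _ _) (Mm_nonneg _ _) (by positivity)) (Mm_le _ _) (Mm_nonneg _ _) (by positivity)
        _ = wp y ^ 4 := by ring
    have e : ∑ n ∈ (Finset.range (⌊x⌋₊ + 1)).filter (fun n => n % WW y = t),
        Uu x V (n : ℤ) * Uu x V ((n : ℤ) + h) * Dd x y V ((n : ℤ) + k) * Dd x y V ((n : ℤ) + l)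
        = m0 * ∑ n ∈ (Finset.range (⌊x⌋₊ + 1)).filter (fun n => n % WW y = t),
        (((∏ a ∈ ({0, h} : Finset ℤ), rr y (yy x) ((n : ℤ) + a) * (V ((n : ℤ) + a) + 1)) *
          ∏ a ∈ ({k, l} : Finset ℤ), (1 - rr y (yy x) ((n : ℤ) + a) * V ((n : ℤ) + a)))) := by
      rw [Finset.mul_sum]
      refine Finset.sum_congr rfl fun n hn => ?_
      exact Cg_point hyw hh hkl (Finset.mem_filter.1 hn).2
    rw [e]
    have hb0 : 0 ≤ N / (WW y : ℝ) * K + 16 * R := by positivity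
    calc _ ≤ m0 * (N / (WW y : ℝ) * K + 16 * R) := mul_le_mul_of_nonneg_left hc hm00
      _ ≤ _ := mul_le_mul_of_nonneg_right hm04 hb0
  have hsum : ∑ n ∈ Finset.range (⌊x⌋₊ + 1),
        Uu x V (n : ℤ) * Uu x V ((n : ℤ) + h) * Dd x y V ((n : ℤ) + k) * Dd x y V ((n : ℤ) + l)
      ≤ ∑ t ∈ Finset.range (WW y), wp y ^ 4 * (N / (WW y : ℝ) * K + 16 * R) := by
    rw [← Finset.sum_fiberwise_of_maps_to (s := Finset.range (⌊x⌋₊ + 1)) (t := Finset.range (WW y))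
      (g := fun n => n % WW y) (fun n _ => Finset.mem_range.2 (Nat.mod_lt _ (WW_pos y)))]
    exact Finset.sum_le_sum hcls
  refine hsum.trans ?_
  rw [Finset.sum_const, Finset.card_range, nsmul_eq_mul]
  have e1 : (WW y : ℝ) * (wp y ^ 4 * (N / (WW y : ℝ) * K + 16 * R))
      = wp y ^ 4 * (N * K + 16 * (WW y : ℝ) * R) := by
    field_simp
  rw [e1]
  -- the error
  have hRR : R * R = x := by
    rw [hR, ← Real.rpow_add (by linarith)]
    norm_num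
  have h2b : (2 : ℝ) ^ b * q = 1 := by
    rw [hq, ← mul_pow]
    norm_num
  have hR1 : 16 * (WW y : ℝ) * 2 ^ b ≤ R := by
    have : (16 * (WW y : ℝ) * 2 ^ b) ^ 2 ≤ R ^ 2 := by
      rw [sq R, hRR]
      exact hx2
    exact le_of_sq_le_sq this hR0
  have herr : 16 * (WW y : ℝ) * R ≤ N * q := by
    have h1 : 16 * (WW y : ℝ) ≤ R * q := by
      calc 16 * (WW y : ℝ) = 16 * (WW y : ℝ) * (2 ^ b * q) := by rw [h2b, mul_one]
        _ = (16 * (WW y : ℝ) * 2 ^ b) * q := by ring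
        _ ≤ R * q := mul_le_mul_of_nonneg_right hR1 hq0
    calc 16 * (WW y : ℝ) * R ≤ R * q * R := mul_le_mul_of_nonneg_right h1 hR0
      _ = x * q := by rw [← hRR]; ring
      _ ≤ N * q := mul_le_mul_of_nonneg_right hNx hq0
  have hKle : K + q ≤ 2000 * (q + 1 / (y : ℝ) + (G - 1)) := by
    have hiy : 0 ≤ 1 / (y : ℝ) := by positivity
    have e200 : 200 / (y : ℝ) = 200 * (1 / (y : ℝ)) := by ring
    rw [hK, e200]
    have : q * (G - 1) ≤ G - 1 := by nlinarith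
    nlinarith
  have hwp4 : 0 ≤ wp y ^ 4 := by
    have := (wp_pos y).le
    positivity
  calc wp y ^ 4 * (N * K + 16 * (WW y : ℝ) * R) ≤ wp y ^ 4 * (N * (K + q)) := by
        refine mul_le_mul_of_nonneg_left ?_ hwp4
        nlinarith
    _ ≤ wp y ^ 4 * (N * (2000 * (q + 1 / (y : ℝ) + (G - 1)))) :=
        mul_le_mul_of_nonneg_left (mul_le_mul_of_nonneg_left hKle hNpos.le) hwp4
    _ = _ := by ring

end Pool.Agent.H12.DM
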