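import Mathlib

/-!
# Da: separation step of the dense model theorem (finite-dimensional Hahn-Banach)

`⟨h, φ⟩ = ∑ i, m i * h i * φ i`; `E = ι → ℝ`; `C = convexHull ℝ F`. Assume that no `g` with `0 ≤ g ≤ 1` satisfies `|⟨f - g, φ⟩| ≤ ε` for all `φ ∈ F`.

1. `O = {h : ∃ r < ε, ∀ φ ∈ F, ⟨h, φ⟩ ≤ r}` is convex, open (`|⟨h - h', φ⟩| ≤ ∑ m i |h i - h' i|` uniformly in `φ ∈ F`, as `|φ| ≤ 1`) and contains `0` (`r = 0`).
   `T = {f - g : 0 ≤ g ≤ 1}` is convex. They are disjoint: for `g` there is `φ ∈ F` with `|⟨f-g,φ⟩| > ε`, and replacing `φ` by `-φ ∈ F` we may assume `⟨f-g,φ⟩ > ε`.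
2. `geometric_hahn_banach_open` (`O` open convex, `T` convex, disjoint): a continuous linear `ℓ` and `u` with `ℓ h < u` for `h ∈ O`, `u ≤ ℓ h` for `h ∈ T`. `0 ∈ O` gives `u > 0`;
   replace `ℓ` by `(ε/u) ℓ`: so `ℓ h < ε` on `O`, `ε ≤ ℓ h` on `T`. Write `ℓ h = ∑ i, h i * ψ i`, `ψ i = ℓ (Pi.single i 1)`.
3. Claim: `ψ` lies in the closure of `K' = {fun i => m i * θ i : θ ∈ C}` (convex). Otherwise `geometric_hahn_banach_point_closed`-type separation of the point `ψ` from the closed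
   convex set `closure K'` gives `h` (a linear functional on `E` is `x ↦ ∑ x i * h i`) and a real `s'` with `∑ m i θ i h i < s'` for all `θ ∈ C` (in particular `⟨h,φ⟩ < s'` for all `φ ∈ F`) and
   `s' < ∑ ψ i h i = ℓ h`. As `F` is nonempty and symmetric, `s' > 0` (`⟨h,φ⟩ < s'` and `-⟨h,φ⟩ < s'`). For `0 < r < ε` the vector `(r/s') h` is in `O`, so `(r/s') ℓ h < ε`; choose
   `r` with `ε s'/ℓ h < r < ε` (possible as `s' < ℓ h`): contradiction.
4. So for every `η > 0` there is `θ ∈ C` with `|ψ i - m i θ i| ≤ η` for all `i`. Choose `η` with `η * ∑ i, (|f i| + 1) ≤ ε/8`. For `0 ≤ g ≤ 1`: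
   `ε ≤ ℓ (f - g) = ∑ (f i - g i) ψ i ≤ ∑ m i θ i (f i - g i) + η ∑ |f i - g i| ≤ ∑ m i (f i - g i) θ i + ε/8`.
-/

set_option autoImplicit false

namespace Pool.Agent.H12.DM

open Finset

/-- the open set of the separation -/
private def Da_O {ι : Type} [Fintype ι] (m : ι → ℝ) (F : Set (ι → ℝ)) (ε : ℝ) : Set (ι → ℝ) :=
  {h | ∃ r : ℝ, r < ε ∧ ∀ φ ∈ F, ∑ i, m i * h i * φ i ≤ r}

private theorem Da_O_convex {ι : Type} [Fintype ι] (m : ι → ℝ) (F : Set (ι → ℝ)) (ε : ℝ) :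
    Convex ℝ (Da_O m F ε) := by
  rintro x ⟨r1, hr1, hx⟩ y ⟨r2, hr2, hy⟩ a b ha hb hab
  refine ⟨a * r1 + b * r2, ?_, ?_⟩
  · have h1 : a * r1 ≤ a * ε := mul_le_mul_of_nonneg_left hr1.le ha
    have h2 : b * r2 ≤ b * ε := mul_le_mul_of_nonneg_left hr2.le hb
    have h3 : a * ε + b * ε = ε := by rw [← add_mul, hab, one_mul]
    rcases ha.lt_or_eq with ha' | ha'
    · have h4 : a * r1 < a * ε := mul_lt_mul_of_pos_left hr1 ha'
      linarith
    · have hb' : b = 1 := by linarith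
      rw [← ha', hb']
      linarith
  · intro φ hφ
    have h1 : ∑ i, m i * (a • x + b • y) i * φ i =
        a * (∑ i, m i * x i * φ i) + b * (∑ i, m i * y i * φ i) := by
      rw [Finset.mul_sum, Finset.mul_sum, ← Finset.sum_add_distrib]
      refine Finset.sum_congr rfl (fun i _ => ?_)
      rw [Pi.add_apply, Pi.smul_apply, Pi.smul_apply, smul_eq_mul, smul_eq_mul]
      ring
    rw [h1]
    exact add_le_add (mul_le_mul_of_nonneg_left (hx φ hφ) ha)
      (mul_le_mul_of_nonneg_left (hy φ hφ) hb)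

private theorem Da_O_open {ι : Type} [Fintype ι] (m : ι → ℝ) (F : Set (ι → ℝ)) (ε : ℝ)
    (hm : ∀ i, 0 ≤ m i) (hF : ∀ φ ∈ F, ∀ i, |φ i| ≤ 1) :
    IsOpen (Da_O m F ε) := by
  rw [Metric.isOpen_iff]
  rintro h ⟨r, hr, hh⟩
  have hM : 0 < ∑ i, m i + 1 := by
    have := Finset.sum_nonneg (fun i (_ : i ∈ (Finset.univ : Finset ι)) => hm i)
    linarith
  refine ⟨(ε - r) / (2 * (∑ i, m i + 1)), by
    apply div_pos
    · linarith
    · linarith, ?_⟩
  intro h' hh'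
  rw [Metric.mem_ball] at hh'
  refine ⟨r + (ε - r) / 2, by linarith, ?_⟩
  intro φ hφ
  have h1 : ∑ i, m i * h' i * φ i = ∑ i, m i * h i * φ i + ∑ i, m i * ((h' i - h i) * φ i) := by
    rw [← Finset.sum_add_distrib]
    refine Finset.sum_congr rfl (fun i _ => ?_)
    ring
  have h2 : ∑ i, m i * ((h' i - h i) * φ i) ≤
      ∑ i, m i * ((ε - r) / (2 * (∑ i, m i + 1))) := by
    refine Finset.sum_le_sum (fun i _ => mul_le_mul_of_nonneg_left ?_ (hm i))
    have h3 : |h' i - h i| ≤ (ε - r) / (2 * (∑ i, m i + 1)) := by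
      have h4 : dist (h' i) (h i) ≤ dist h' h := dist_le_pi_dist h' h i
      rw [Real.dist_eq] at h4
      exact h4.trans hh'.le
    have h5 : |(h' i - h i) * φ i| ≤ (ε - r) / (2 * (∑ i, m i + 1)) := by
      rw [abs_mul]
      calc |h' i - h i| * |φ i| ≤ |h' i - h i| * 1 :=
            mul_le_mul_of_nonneg_left (hF φ hφ i) (abs_nonneg _)
        _ = |h' i - h i| := mul_one _
        _ ≤ _ := h3
    exact (le_abs_self _).trans h5
  rw [← Finset.sum_mul] at h2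
  have h3 : (∑ i, m i) * ((ε - r) / (2 * (∑ i, m i + 1))) ≤ (ε - r) / 2 := by
    rw [← mul_div_assoc, div_le_div_iff₀ (by linarith) (by norm_num)]
    nlinarith
  rw [h1]
  have h4 := hh φ hφ
  linarith

private theorem Da_lin {ι : Type} [Fintype ι] (ℓ : (ι → ℝ) →ₗ[ℝ] ℝ) :
    ∃ w : ι → ℝ, ∀ x : ι → ℝ, ℓ x = ∑ i, x i * w i := by
  classical
  refine ⟨fun i => ℓ (fun j => if i = j then 1 else 0), fun x => ?_⟩
  rw [LinearMap.pi_apply_eq_sum_univ ℓ x]
  rfl

theorem Da_sep {ι : Type} [Fintype ι] (m f : ι → ℝ) (F : Set (ι → ℝ)) (ε : ℝ) (hε : 0 < ε)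
    (hm : ∀ i, 0 ≤ m i) (hne : F.Nonempty) (hF : ∀ φ ∈ F, ∀ i, |φ i| ≤ 1) (hsym : ∀ φ ∈ F, (fun i => -φ i) ∈ F)
    (hno : ¬ ∃ g : ι → ℝ, (∀ i, 0 ≤ g i ∧ g i ≤ 1) ∧ ∀ φ ∈ F, |∑ i, m i * (f i - g i) * φ i| ≤ ε) :
    ∃ θ ∈ convexHull ℝ F, ∀ g : ι → ℝ, (∀ i, 0 ≤ g i ∧ g i ≤ 1) →
      7 / 8 * ε ≤ ∑ i, m i * (f i - g i) * θ i := by
  have hTconv : Convex ℝ {h : ι → ℝ | ∃ g : ι → ℝ, (∀ i, 0 ≤ g i ∧ g i ≤ 1) ∧
      h = fun i => f i - g i} := by
    rintro x ⟨g1, hg1, rfl⟩ y ⟨g2, hg2, rfl⟩ a b ha hb hab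
    refine ⟨fun i => a * g1 i + b * g2 i, ?_, ?_⟩
    · intro i
      constructor
      · exact add_nonneg (mul_nonneg ha (hg1 i).1) (mul_nonneg hb (hg2 i).1)
      · have h1 : a * g1 i ≤ a * 1 := mul_le_mul_of_nonneg_left (hg1 i).2 ha
        have h2 : b * g2 i ≤ b * 1 := mul_le_mul_of_nonneg_left (hg2 i).2 hb
        show a * g1 i + b * g2 i ≤ 1
        linarith
    · funext i
      rw [Pi.add_apply, Pi.smul_apply, Pi.smul_apply, smul_eq_mul, smul_eq_mul]
      show a * (f i - g1 i) + b * (f i - g2 i) = f i - (a * g1 i + b * g2 i)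
      have h1 : f i = (a + b) * f i := by rw [hab, one_mul]
      linear_combination -h1
  have hdisj : Disjoint (Da_O m F ε) {h : ι → ℝ | ∃ g : ι → ℝ, (∀ i, 0 ≤ g i ∧ g i ≤ 1) ∧
      h = fun i => f i - g i} := by
    rw [Set.disjoint_left]
    rintro h ⟨r, hr, hh⟩ ⟨g, hg, rfl⟩
    apply hno
    refine ⟨g, hg, fun φ hφ => ?_⟩
    rw [abs_le]
    constructor
    · have h1 := hh _ (hsym φ hφ)
      have h2 : ∑ i, m i * (fun i => f i - g i) i * (fun i => -φ i) i =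
          -∑ i, m i * (f i - g i) * φ i := by
        rw [← Finset.sum_neg_distrib]
        refine Finset.sum_congr rfl (fun i _ => ?_)
        show m i * (f i - g i) * (-φ i) = -(m i * (f i - g i) * φ i)
        ring
      rw [h2] at h1
      linarith
    · have h1 := hh _ hφ
      have h2 : ∑ i, m i * (fun i => f i - g i) i * φ i = ∑ i, m i * (f i - g i) * φ i := rfl
      rw [h2] at h1
      linarith
  obtain ⟨ℓ, u, hℓ1, hℓ2⟩ := geometric_hahn_banach_open (Da_O_convex m F ε)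
    (Da_O_open m F ε hm hF) hTconv hdisj
  have hu : 0 < u := by
    have h1 := hℓ1 0 ⟨0, hε, fun φ _ => by simp⟩
    rw [map_zero] at h1
    exact h1
  obtain ⟨w, hw⟩ := Da_lin (ℓ : (ι → ℝ) →ₗ[ℝ] ℝ)
  have hw' : ∀ x : ι → ℝ, ℓ x = ∑ i, x i * w i := hw
  obtain ⟨ψ, hψ⟩ : ∃ ψ : ι → ℝ, ∀ x : ι → ℝ, ∑ i, x i * ψ i = ε / u * ℓ x := by
    refine ⟨fun i => ε / u * w i, fun x => ?_⟩
    rw [hw', Finset.mul_sum]
    refine Finset.sum_congr rfl (fun i _ => ?_)
    ring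
  have hεu : 0 < ε / u := div_pos hε hu
  have hεu' : ε / u * u = ε := div_mul_cancel₀ ε hu.ne'
  have hO : ∀ x ∈ Da_O m F ε, ∑ i, x i * ψ i < ε := by
    intro x hx
    rw [hψ]
    calc ε / u * ℓ x < ε / u * u := mul_lt_mul_of_pos_left (hℓ1 x hx) hεu
      _ = ε := hεu'
  have hT : ∀ g : ι → ℝ, (∀ i, 0 ≤ g i ∧ g i ≤ 1) → ε ≤ ∑ i, (f i - g i) * ψ i := by
    intro g hg
    have h1 := hψ (fun i => f i - g i)
    have h2 : ∑ i, (fun i => f i - g i) i * ψ i = ∑ i, (f i - g i) * ψ i := rfl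
    rw [← h2, h1]
    calc ε = ε / u * u := hεu'.symm
      _ ≤ ε / u * ℓ (fun i => f i - g i) :=
        mul_le_mul_of_nonneg_left (hℓ2 _ ⟨g, hg, rfl⟩) hεu.le
  -- the convex set of products
  let A : (ι → ℝ) →ₗ[ℝ] (ι → ℝ) :=
    { toFun := fun θ i => m i * θ i
      map_add' := fun x y => by
        funext i
        show m i * (x i + y i) = m i * x i + m i * y i
        ring
      map_smul' := fun c x => by
        funext i
        show m i * (c * x i) = c * (m i * x i)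
        ring }
  have hK : Convex ℝ (A '' convexHull ℝ F) := (convex_convexHull ℝ F).linear_image A
  have hcl : ψ ∈ closure (A '' convexHull ℝ F) := by
    by_contra hψn
    obtain ⟨ℓ', s', h1, h2⟩ := geometric_hahn_banach_closed_point hK.closure isClosed_closure hψn
    obtain ⟨h, hh⟩ := Da_lin (ℓ' : (ι → ℝ) →ₗ[ℝ] ℝ)
    have hh' : ∀ x : ι → ℝ, ℓ' x = ∑ i, x i * h i := hh
    have hφs : ∀ φ ∈ F, ∑ i, m i * h i * φ i < s' := by
      intro φ hφ
      have h3 := h1 (A φ) (subset_closure ⟨φ, subset_convexHull ℝ F hφ, rfl⟩)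
      rw [hh'] at h3
      refine lt_of_eq_of_lt ?_ h3
      refine Finset.sum_congr rfl (fun i _ => ?_)
      show m i * h i * φ i = m i * φ i * h i
      ring
    have hs' : 0 < s' := by
      obtain ⟨φ, hφ⟩ := hne
      have h3 := hφs φ hφ
      have h4 := hφs _ (hsym φ hφ)
      have h5 : ∑ i, m i * h i * (fun i => -φ i) i = -∑ i, m i * h i * φ i := by
        rw [← Finset.sum_neg_distrib]
        refine Finset.sum_congr rfl (fun i _ => ?_)
        show m i * h i * (-φ i) = -(m i * h i * φ i)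
        ring
      rw [h5] at h4
      linarith
    rw [hh'] at h2
    set D : ℝ := ∑ i, ψ i * h i with hD
    have hD0 : 0 < D := hs'.trans h2
    have hmem : (fun i => ε / D * h i) ∈ Da_O m F ε := by
      refine ⟨ε / D * s', ?_, ?_⟩
      · rw [div_mul_eq_mul_div, div_lt_iff₀ hD0]
        exact mul_lt_mul_of_pos_left h2 hε
      · intro φ hφ
        have h3 : ∑ i, m i * (fun i => ε / D * h i) i * φ i =
            ε / D * ∑ i, m i * h i * φ i := by
          rw [Finset.mul_sum]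
          refine Finset.sum_congr rfl (fun i _ => ?_)
          show m i * (ε / D * h i) * φ i = ε / D * (m i * h i * φ i)
          ring
        rw [h3]
        exact mul_le_mul_of_nonneg_left (hφs φ hφ).le (div_pos hε hD0).le
    have h3 := hO _ hmem
    have h4 : ∑ i, (fun i => ε / D * h i) i * ψ i = ε / D * D := by
      rw [hD, Finset.mul_sum]
      refine Finset.sum_congr rfl (fun i _ => ?_)
      show ε / D * h i * ψ i = ε / D * (ψ i * h i)
      ring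
    rw [h4, div_mul_cancel₀ ε hD0.ne'] at h3
    exact lt_irrefl _ h3
  have hS : 0 ≤ ∑ i, (|f i| + 1) := Finset.sum_nonneg (fun i _ => by positivity)
  obtain ⟨b, ⟨θ, hθ, rfl⟩, hb⟩ := Metric.mem_closure_iff.1 hcl
    (ε / (8 * (∑ i, (|f i| + 1) + 1))) (by positivity)
  refine ⟨θ, hθ, fun g hg => ?_⟩
  have h1 := hT g hg
  have h2 : ∑ i, (f i - g i) * ψ i = ∑ i, m i * (f i - g i) * θ i +
      ∑ i, (f i - g i) * (ψ i - m i * θ i) := by
    rw [← Finset.sum_add_distrib]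
    refine Finset.sum_congr rfl (fun i _ => ?_)
    ring
  have h3 : ∑ i, (f i - g i) * (ψ i - m i * θ i) ≤
      ∑ i, (|f i| + 1) * (ε / (8 * (∑ i, (|f i| + 1) + 1))) := by
    refine Finset.sum_le_sum (fun i _ => ?_)
    have h4 : |ψ i - m i * θ i| ≤ ε / (8 * (∑ i, (|f i| + 1) + 1)) := by
      have h5 : dist (ψ i) (A θ i) ≤ dist ψ (A θ) := dist_le_pi_dist ψ (A θ) i
      rw [Real.dist_eq] at h5
      exact h5.trans hb.le
    have h6 : |f i - g i| ≤ |f i| + 1 := by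
      have h7 : |f i - g i| ≤ |f i| + |g i| := abs_sub (f i) (g i)
      have h8 : |g i| ≤ 1 := by
        rw [abs_le]
        exact ⟨by linarith [(hg i).1], (hg i).2⟩
      linarith
    calc (f i - g i) * (ψ i - m i * θ i) ≤ |(f i - g i) * (ψ i - m i * θ i)| := le_abs_self _
      _ = |f i - g i| * |ψ i - m i * θ i| := abs_mul _ _
      _ ≤ (|f i| + 1) * (ε / (8 * (∑ i, (|f i| + 1) + 1))) :=
        mul_le_mul h6 h4 (abs_nonneg _) (by positivity)
  rw [← Finset.sum_mul] at h3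
  have h4 : (∑ i, (|f i| + 1)) * (ε / (8 * (∑ i, (|f i| + 1) + 1))) ≤ 1 / 8 * ε := by
    rw [← mul_div_assoc, div_le_iff₀ (by positivity)]
    nlinarith
  linarith

end Pool.Agent.H12.DM
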