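import Pool.Agent.H12.DM.Da

/-!
# Db: the abstract dense model theorem

Weierstrass (`exists_polynomial_near_of_continuousOn`): a polynomial `P` with `|P(t) - max t 0| ≤ ε/16` for `-1 ≤ t ≤ 1`; `k = P.natDegree`, `A = ∑_j |coeff_j|`, `δ = ε/(8 (A+1))`.
Suppose that no `g` exists; `Da_sep` gives `θ ∈ convexHull ℝ F`; `|θ i| ≤ 1` (the set of such functions is convex and contains `F`).

* Products: for `j ≤ k`, `|∑ m i (ν i - 1) θ_i^j| ≤ δ`. More generally: for lists `l₁` of elements of `convexHull ℝ F` and `l₂` of elements of `F` with `l₁.length + l₂.length ≤ k`: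
  `|∑ m i (ν i - 1) ∏ l₁ ∏ l₂| ≤ δ`. Induction on `l₁`: for `l₁ = θ :: l`, the set of `θ'` with `|∑ m (ν-1) θ' ∏ l ∏ l₂| ≤ δ` is convex and contains `F` (induction
  hypothesis for `l` and `φ :: l₂`), so it contains `convexHull ℝ F` (`convexHull_min`).
* Take `g i = 1` if `0 < θ i` and `0` otherwise: `7ε/8 + ∑ m i max(θ i, 0) ≤ ∑ m i f i θ i`. On the other hand `f i θ i ≤ f i max(θ i,0) ≤ f i (P(θ i) + ε/16) ≤ ν i (P(θ i) + ε/16)` (as
  `P(θ i) + ε/16 ≥ max(θ i,0) ≥ 0` and `0 ≤ f i ≤ ν i`), so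
  `∑ m f θ ≤ ∑ m (P(θ) + ε/16) + ∑ m (ν - 1)(P(θ) + ε/16) ≤ ∑ m max(θ,0) + (ε/8) ∑ m + (A + ε/16) δ ≤ ∑ m max(θ,0) + ε/4 + ε/8` (`∑ m ≤ 2`, `ε ≤ 1`; the empty list
  gives `|∑ m (ν-1)| ≤ δ`). Contradiction to `7ε/8 > 3ε/8`.
-/

set_option autoImplicit false

namespace Pool.Agent.H12.DM

open Finset

theorem Db (ε : ℝ) (hε : 0 < ε) (hε1 : ε ≤ 1) : ∃ (k : ℕ) (δ : ℝ), 0 < δ ∧
    ∀ (ι : Type) [Fintype ι] (m ν f : ι → ℝ) (F : Set (ι → ℝ)),
      (∀ i, 0 ≤ m i) → ∑ i, m i ≤ 2 → (∀ i, 0 ≤ f i ∧ f i ≤ ν i) → F.Nonempty →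
      (∀ φ ∈ F, ∀ i, |φ i| ≤ 1) → (∀ φ ∈ F, (fun i => -φ i) ∈ F) →
      (∀ l : List (ι → ℝ), l.length ≤ k → (∀ φ ∈ l, φ ∈ F) →
        |∑ i, m i * (ν i - 1) * (l.map (fun φ => φ i)).prod| ≤ δ) →
      ∃ g : ι → ℝ, (∀ i, 0 ≤ g i ∧ g i ≤ 1) ∧ ∀ φ ∈ F, |∑ i, m i * (f i - g i) * φ i| ≤ ε := by
  obtain ⟨P, hP⟩ := exists_polynomial_near_of_continuousOn (-1) 1 (fun t => max t 0)
    (by fun_prop) (ε / 16) (by positivity)
  obtain ⟨A, hAdef⟩ : ∃ A : ℝ, A = ∑ j ∈ range (P.natDegree + 1), |P.coeff j| := ⟨_, rfl⟩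
  have hA : 0 ≤ A := by
    rw [hAdef]
    exact sum_nonneg fun j _ => abs_nonneg _
  obtain ⟨δ, hδ⟩ : ∃ δ : ℝ, δ = ε / (8 * (A + 1)) := ⟨_, rfl⟩
  have hδpos : 0 < δ := by
    rw [hδ]
    positivity
  refine ⟨P.natDegree, δ, hδpos, ?_⟩
  intro ι _ m ν f F hm hm2 hf hne hF hsym hpr
  by_contra hno
  obtain ⟨θ, hθ, hsep⟩ := Da_sep m f F ε hε hm hne hF hsym hno
  have hθb : ∀ i, |θ i| ≤ 1 := by
    have h1 : convexHull ℝ F ⊆ {h : ι → ℝ | ∀ i, |h i| ≤ 1} := by
      refine convexHull_min (fun φ hφ => hF φ hφ) ?_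
      intro x hx y hy a b ha hb hab i
      have e : (a • x + b • y) i = a * x i + b * y i := rfl
      rw [e]
      calc |a * x i + b * y i| ≤ |a * x i| + |b * y i| := abs_add_le _ _
        _ = a * |x i| + b * |y i| := by rw [abs_mul, abs_mul, abs_of_nonneg ha, abs_of_nonneg hb]
        _ ≤ a * 1 + b * 1 := add_le_add (mul_le_mul_of_nonneg_left (hx i) ha)
            (mul_le_mul_of_nonneg_left (hy i) hb)
        _ = 1 := by rw [mul_one, mul_one, hab]
    exact h1 hθ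
  have hlist : ∀ (l₁ l₂ : List (ι → ℝ)), l₁.length + l₂.length ≤ P.natDegree →
      (∀ φ ∈ l₁, φ ∈ convexHull ℝ F) → (∀ φ ∈ l₂, φ ∈ F) →
      |∑ i, m i * (ν i - 1) * ((l₁.map (fun φ => φ i)).prod * (l₂.map (fun φ => φ i)).prod)| ≤ δ := by
    intro l₁
    induction l₁ with
    | nil =>
      intro l₂ hl _ h2
      have h := hpr l₂ (by simpa using hl) h2
      simpa using h
    | cons θ' l ih =>
      intro l₂ hl h1 h2
      obtain ⟨w, hw⟩ : ∃ w : ι → ℝ, w = fun i => m i * (ν i - 1) *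
          ((l.map (fun φ => φ i)).prod * (l₂.map (fun φ => φ i)).prod) := ⟨_, rfl⟩
      have h3 : convexHull ℝ F ⊆ {h : ι → ℝ | |∑ i, w i * h i| ≤ δ} := by
        refine convexHull_min (fun φ hφ => ?_) ?_
        · have h4 := ih (φ :: l₂) (by
            simp only [List.length_cons] at hl ⊢
            omega) (fun ψ hψ => h1 ψ (List.mem_cons_of_mem _ hψ)) (by
            intro ψ hψ
            rcases List.mem_cons.1 hψ with rfl | h5
            · exact hφ
            · exact h2 ψ h5)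
          show |∑ i, w i * φ i| ≤ δ
          refine le_of_eq_of_le ?_ h4
          congr 1
          refine sum_congr rfl fun i _ => ?_
          rw [hw, List.map_cons, List.prod_cons]
          ring
        · intro x hx y hy a b ha hb hab
          show |∑ i, w i * (a • x + b • y) i| ≤ δ
          have e : ∑ i, w i * (a • x + b • y) i = a * ∑ i, w i * x i + b * ∑ i, w i * y i := by
            rw [mul_sum, mul_sum, ← sum_add_distrib]
            refine sum_congr rfl fun i _ => ?_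
            have e : (a • x + b • y) i = a * x i + b * y i := rfl
            rw [e]
            ring
          rw [e]
          have hx' : |∑ i, w i * x i| ≤ δ := hx
          have hy' : |∑ i, w i * y i| ≤ δ := hy
          calc |a * ∑ i, w i * x i + b * ∑ i, w i * y i|
              ≤ |a * ∑ i, w i * x i| + |b * ∑ i, w i * y i| := abs_add_le _ _
            _ = a * |∑ i, w i * x i| + b * |∑ i, w i * y i| := by
                rw [abs_mul, abs_mul, abs_of_nonneg ha, abs_of_nonneg hb]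
            _ ≤ a * δ + b * δ := add_le_add (mul_le_mul_of_nonneg_left hx' ha)
                (mul_le_mul_of_nonneg_left hy' hb)
            _ = δ := by rw [← add_mul, hab, one_mul]
      have h4 : |∑ i, w i * θ' i| ≤ δ := h3 (h1 θ' List.mem_cons_self)
      refine le_of_eq_of_le ?_ h4
      congr 1
      refine sum_congr rfl fun i _ => ?_
      rw [hw, List.map_cons, List.prod_cons]
      ring
  have hpow : ∀ j : ℕ, j ≤ P.natDegree → |∑ i, m i * (ν i - 1) * θ i ^ j| ≤ δ := by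
    intro j hj
    have h := hlist (List.replicate j θ) [] (by simpa using hj)
      (fun φ hφ => by
        rw [List.eq_of_mem_replicate hφ]
        exact hθ) (by simp)
    simpa [List.map_replicate, List.prod_replicate] using h
  have hQ : ∀ i, max (θ i) 0 ≤ P.eval (θ i) + ε / 16 ∧ P.eval (θ i) + ε / 16 ≤ max (θ i) 0 + ε / 8 := by
    intro i
    have h1 := hP (θ i) (abs_le.1 (hθb i))
    rw [abs_lt] at h1
    constructor <;> linarith [h1.1, h1.2]
  have h1 := hsep (fun i => if 0 < θ i then 1 else 0) (fun i => by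
    show (0 : ℝ) ≤ (if 0 < θ i then 1 else 0) ∧ (if 0 < θ i then (1 : ℝ) else 0) ≤ 1
    split_ifs
    · exact ⟨zero_le_one, le_rfl⟩
    · exact ⟨le_rfl, zero_le_one⟩)
  have h2 : ∑ i, m i * (f i - (if 0 < θ i then (1 : ℝ) else 0)) * θ i =
      ∑ i, m i * (f i * θ i) - ∑ i, m i * max (θ i) 0 := by
    rw [← sum_sub_distrib]
    refine sum_congr rfl fun i _ => ?_
    by_cases h : 0 < θ i
    · rw [if_pos h, max_eq_left h.le]
      ring
    · rw [if_neg h, max_eq_right (not_lt.1 h)]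
      ring
  have h3 : ∑ i, m i * (f i * θ i) ≤ ∑ i, m i * (ν i * (P.eval (θ i) + ε / 16)) := by
    refine sum_le_sum fun i _ => mul_le_mul_of_nonneg_left ?_ (hm i)
    have hq := (hQ i).1
    have hf0 := (hf i).1
    have hf1 := (hf i).2
    have ht : θ i ≤ max (θ i) 0 := le_max_left _ _
    have ht0 : 0 ≤ max (θ i) 0 := le_max_right _ _
    calc f i * θ i ≤ f i * (P.eval (θ i) + ε / 16) := mul_le_mul_of_nonneg_left (ht.trans hq) hf0
      _ ≤ ν i * (P.eval (θ i) + ε / 16) := mul_le_mul_of_nonneg_right hf1 (ht0.trans hq)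
  have h4 : ∑ i, m i * (ν i * (P.eval (θ i) + ε / 16)) =
      ∑ i, m i * (P.eval (θ i) + ε / 16) + ∑ i, m i * (ν i - 1) * (P.eval (θ i) + ε / 16) := by
    rw [← sum_add_distrib]
    refine sum_congr rfl fun i _ => ?_
    ring
  have h5 : ∑ i, m i * (P.eval (θ i) + ε / 16) ≤ ∑ i, m i * max (θ i) 0 + ε / 4 := by
    calc ∑ i, m i * (P.eval (θ i) + ε / 16) ≤ ∑ i, m i * (max (θ i) 0 + ε / 8) :=
          sum_le_sum fun i _ => mul_le_mul_of_nonneg_left (hQ i).2 (hm i)
      _ = ∑ i, m i * max (θ i) 0 + (∑ i, m i) * (ε / 8) := by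
          rw [sum_mul, ← sum_add_distrib]
          refine sum_congr rfl fun i _ => ?_
          ring
      _ ≤ ∑ i, m i * max (θ i) 0 + 2 * (ε / 8) := by
          have := mul_le_mul_of_nonneg_right hm2 (by positivity : (0 : ℝ) ≤ ε / 8)
          linarith
      _ = _ := by ring
  have h6 : ∑ i, m i * (ν i - 1) * (P.eval (θ i) + ε / 16) =
      ∑ j ∈ range (P.natDegree + 1), P.coeff j * ∑ i, m i * (ν i - 1) * θ i ^ j +
        ε / 16 * ∑ i, m i * (ν i - 1) * θ i ^ 0 := by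
    simp_rw [mul_sum]
    rw [sum_comm, ← sum_add_distrib]
    refine sum_congr rfl fun i _ => ?_
    rw [Polynomial.eval_eq_sum_range, pow_zero, mul_add, mul_sum]
    congr 1
    · refine sum_congr rfl fun j _ => ?_
      ring
    · ring
  have h7 : ∑ j ∈ range (P.natDegree + 1), P.coeff j * ∑ i, m i * (ν i - 1) * θ i ^ j ≤ A * δ := by
    rw [hAdef, sum_mul]
    refine sum_le_sum fun j hj => ?_
    rw [mem_range] at hj
    refine (le_abs_self _).trans ?_
    rw [abs_mul]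
    exact mul_le_mul_of_nonneg_left (hpow j (by omega)) (abs_nonneg _)
  have h8 : ε / 16 * ∑ i, m i * (ν i - 1) * θ i ^ 0 ≤ 1 * δ := by
    refine (le_abs_self _).trans ?_
    rw [abs_mul, abs_of_nonneg (by positivity : (0 : ℝ) ≤ ε / 16)]
    exact mul_le_mul (by linarith) (hpow 0 (Nat.zero_le _)) (abs_nonneg _) zero_le_one
  have h9 : (A + 1) * δ = ε / 8 := by
    rw [hδ]
    field_simp
  have h10 : A * δ + 1 * δ = ε / 8 := by
    rw [← h9]
    ring
  have h11 : 7 / 8 * ε ≤ ∑ i, m i * (f i * θ i) - ∑ i, m i * max (θ i) 0 := by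
    rw [← h2]
    exact h1
  linarith

end Pool.Agent.H12.DM
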