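import Pool.Agent.H6.MB.Defs

/-!
# DM: a dense model for sets of primes in windows (MP_1039f5_nt). Definitions and basic facts.

Notation used in all headers: `L = log x`, `N = ⌊x⌋₊ + 1`, `w = yy x`, `W = WW w`, `φ = wp w = W / φ(W) = wphi x`.
`y` is a fixed natural number (chosen before `x`), `Y = WW y`. `z = x^(dl b)`, `ρ = 1 / EP w z`.
-/

set_option autoImplicit false

namespace Pool.Agent.H12.DM

open Finset Pool.Agent.H17 Pool.Agent.H6.MF Pool.Agent.H6.MB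

/-- `Y / φ(Y)` for `Y = WW y`, the product of the primes `≤ y` -/
noncomputable def wp (y : ℕ) : ℝ := (WW y : ℝ) / ((WW y).totient : ℝ)

/-- the indicator function of the integers coprime to `WW y`, normalised to have mean `1` -/
noncomputable def Mm (y : ℕ) (n : ℤ) : ℝ := if Int.gcd n (WW y : ℤ) = 1 then wp y else 0

/-- `log x` times the indicator function of the primes in `(x^(1/4), x]` -/
noncomputable def La (x : ℝ) (n : ℤ) : ℝ :=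
  if isP n ∧ x ^ (1 / 4 : ℝ) < (n : ℝ) ∧ (n : ℝ) ≤ x then Real.log x else 0

/-- the sum of `f (n - d)` over `d ∈ D` -/
noncomputable def nf (D : Finset ℤ) (f : ℤ → ℝ) (n : ℤ) : ℝ := ∑ d ∈ D, f (n - d)

/-- the range `0 ≤ n < N + H` -/
noncomputable def rgH (x : ℝ) (H : ℕ) : Finset ℕ := Finset.range (⌊x⌋₊ + 1 + H)

/-- `∏_{p ∣ h, p > y} (1 + 14/p)` -/
noncomputable def gf (y : ℕ) (h : ℤ) : ℝ := ∏ p ∈ h.natAbs.primeFactors.filter (fun p => y < p), (1 + 14 / (p : ℝ))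

/-- the product of `gf` over the six differences of `0, h, k, l` -/
noncomputable def GG (y : ℕ) (h k l : ℤ) : ℝ :=
  gf y h * gf y k * gf y l * gf y (h - k) * gf y (h - l) * gf y (k - l)

/-- the level of the sieve with accuracy parameter `b` -/
noncomputable def dl (b : ℕ) : ℝ := 1 / (40 * (4 * (b : ℝ) + 8))

/-- the primes in `(y, w]` as a sieve weight with mean one -/
noncomputable def rr (y w : ℕ) (n : ℤ) : ℝ :=
  ∏ p ∈ PI (y : ℝ) (w : ℝ), (if (p : ℤ) ∣ n then 0 else (1 - 1 / (p : ℝ))⁻¹)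

/-- the properties of the (normalised) Brun-Hooley weight for the primes in `(yy x, x^(dl b)]` -/
def GoodV (b : ℕ) (x : ℝ) (V : ℤ → ℝ) : Prop :=
  (∀ n, 0 ≤ V n) ∧
  (∀ n : ℤ, (∀ p ∈ PI (yy x : ℝ) (x ^ dl b), ¬ (p : ℤ) ∣ n) → V n = (EP (yy x : ℝ) (x ^ dl b))⁻¹) ∧
  TD (PR (yy x : ℝ) (x ^ dl b)) (x ^ (1 / 30 : ℝ)) V ∧
  (∀ s : Finset ℤ, 1 ≤ s.card → s.card ≤ 4 → ∀ e : ℤ → ℕ, (∀ a, 1 ≤ e a ∧ e a ≤ 4) →
    avgP (PR (yy x : ℝ) (x ^ dl b)) (fun m => ∏ a ∈ s, V (m + a) ^ e a)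
      ≤ (1 + 4 * (1 / 2 : ℝ) ^ b) * (EP (yy x : ℝ) (x ^ dl b))⁻¹ ^ (∑ a ∈ s, (e a - 1)) *
        ∏ p ∈ (PI (yy x : ℝ) (x ^ dl b)).filter (fun p : ℕ => ∃ a ∈ s, ∃ a' ∈ s, a ≠ a' ∧ (p : ℤ) ∣ a - a'),
          (1 + 14 / (p : ℝ))) ∧
  (∀ s : Finset ℤ, 1 ≤ s.card → s.card ≤ 3 →
    1 - 100 / (yy x : ℝ) ≤ avgP (PR (yy x : ℝ) (x ^ dl b)) (fun m => ∏ a ∈ s, V (m + a)))

/-- `M (V + 1)` -/
noncomputable def Uu (x : ℝ) (V : ℤ → ℝ) (n : ℤ) : ℝ := Mm (yy x) n * (V n + 1)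

/-- `M V - M₀` -/
noncomputable def Dd (x : ℝ) (y : ℕ) (V : ℤ → ℝ) (n : ℤ) : ℝ := Mm (yy x) n * V n - Mm y n

/-- `M (V + 1) + φ₀` -/
noncomputable def Up (x : ℝ) (y : ℕ) (V : ℤ → ℝ) (n : ℤ) : ℝ := Mm (yy x) n * (V n + 1) + wp y

/-- the dual functions -/
noncomputable def dual (H : ℕ) (c q : ℤ → ℝ) (n : ℤ) : ℝ :=
  (1 / (6 * (H : ℝ))) * ∑ d ∈ Finset.Icc (-(H : ℤ)) (H : ℤ), c d * q (n - d)

/-- admissible data for dual functions: `|c| ≤ 1`, `|q| ≤ 1 + M` -/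
def Adm (x : ℝ) (c q : ℤ → ℝ) : Prop := (∀ d, |c d| ≤ 1) ∧ (∀ n, |q n| ≤ 1 + Mm (yy x) n)

/-! ### basic facts -/

lemma WW_pos_real (y : ℕ) : (0 : ℝ) < WW y := by exact_mod_cast WW_pos y

lemma tot_pos_real (y : ℕ) : (0 : ℝ) < (WW y).totient := by
  exact_mod_cast Nat.totient_pos.mpr (WW_pos y)

lemma one_le_wp (y : ℕ) : 1 ≤ wp y := by
  unfold wp
  rw [one_le_div (tot_pos_real y)]
  exact_mod_cast Nat.totient_le _

lemma wp_pos (y : ℕ) : 0 < wp y := lt_of_lt_of_le one_pos (one_le_wp y)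

lemma wphi_eq_wp (x : ℝ) : wphi x = wp (yy x) := rfl

lemma Mm_nonneg (y : ℕ) (n : ℤ) : 0 ≤ Mm y n := by
  unfold Mm
  split_ifs
  · exact (wp_pos y).le
  · exact le_rfl

lemma Mm_le (y : ℕ) (n : ℤ) : Mm y n ≤ wp y := by
  unfold Mm
  split_ifs
  · exact le_rfl
  · exact (wp_pos y).le

lemma Mm_period (y : ℕ) (n k : ℤ) : Mm y (n + k * (WW y : ℤ)) = Mm y n := by
  unfold Mm
  rw [Int.gcd_add_mul_right_left]

lemma La_nonneg {x : ℝ} (hx : 1 ≤ x) (n : ℤ) : 0 ≤ La x n := by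
  unfold La
  split_ifs
  · exact Real.log_nonneg hx
  · exact le_rfl

lemma La_le {x : ℝ} (hx : 1 ≤ x) (n : ℤ) : La x n ≤ Real.log x := by
  unfold La
  split_ifs
  · exact le_rfl
  · exact Real.log_nonneg hx

lemma one_le_gf (y : ℕ) (h : ℤ) : 1 ≤ gf y h := by
  unfold gf
  refine Finset.one_le_prod fun p _ => ?_
  have : (0 : ℝ) ≤ 14 / p := by positivity
  linarith

lemma gf_neg (y : ℕ) (h : ℤ) : gf y (-h) = gf y h := by
  unfold gf
  rw [Int.natAbs_neg]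

lemma one_le_GG (y : ℕ) (h k l : ℤ) : 1 ≤ GG y h k l := by
  unfold GG
  have a := one_le_gf y h
  have b := one_le_gf y k
  have c := one_le_gf y l
  have d := one_le_gf y (h - k)
  have e := one_le_gf y (h - l)
  have f := one_le_gf y (k - l)
  have ab := one_le_mul_of_one_le_of_one_le a b
  have abc := one_le_mul_of_one_le_of_one_le ab c
  have abcd := one_le_mul_of_one_le_of_one_le abc d
  have abcde := one_le_mul_of_one_le_of_one_le abcd e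
  exact one_le_mul_of_one_le_of_one_le abcde f

lemma Uu_nonneg {b : ℕ} {x : ℝ} {V : ℤ → ℝ} (hV : GoodV b x V) (n : ℤ) : 0 ≤ Uu x V n := by
  unfold Uu
  have := hV.1 n
  have := Mm_nonneg (yy x) n
  positivity

lemma dl_pos (b : ℕ) : 0 < dl b := by unfold dl; positivity

lemma nf_nonneg {D : Finset ℤ} {f : ℤ → ℝ} (hf : ∀ n, 0 ≤ f n) (n : ℤ) : 0 ≤ nf D f n :=
  Finset.sum_nonneg fun d _ => hf _

end Pool.Agent.H12.DM
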