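import Pool.Agent.H12.DM.Lf
import Pool.Agent.H12.DM.Mp

/-!
# R12: pairs and triples of the model

`N = ⌊x⌋₊ + 1`, `M = Mm (yy x)`, `G n = M n g n`, `F = f - G`, `x` large, `K log x ≤ H ≤ (log x)^2`.
* `nfG`: `nf D G n = 30 H * dual H 1_D (G/5) n` (`1_D` the indicator of `D ⊆ Icc 1 H ⊆ Icc (-H) H`), and the data `(1_D, G/5)` are admissible (`|G n/5| ≤ M n`). Also
  `0 ≤ nf D G n ≤ 5 ∑_{d∈Icc 1 H} M(n-d) ≤ 10 H` (`Mm_sum`).
* `R12p`: `∑ f nf D f - ∑ G nf D G = ∑ f nf D F + ∑ F nf D G` (sums over `n < N`). First: `≤ (∑_{n<N} La)^{1/2} (∑ La (nf D F)^2)^{1/2} ≤ √2 N^{1/2} (ε₃ N H^2)^{1/2}` (`f ≤ La`, Cauchy-Schwarz, `Mo1`, `Lf` with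
  `ε₃ = ε^2/8`). Second: `≤ 30 H ε' N` by `Dense`, `ε' ≤ ε/60`.
* `R12t`: `∑ f nf D' f nf D f - ∑ G nf D' G nf D G = ∑ f (nf D' F)(nf D f) + ∑ f (nf D' G)(nf D F) + ∑ F (nf D' G)(nf D G)`. First:
  `≤ (∑ La (nf D' F)^2)^{1/2} (∑ La (nf (Icc 1 H) La)^2)^{1/2} ≤ (ε₃ N H^2)^{1/2} (C N H^2)^{1/2}` (`Lf`, `Mo3`; `0 ≤ nf D f ≤ nf (Icc 1 H) (La x)`). Second:
  `≤ (∑ La (10H)^2)^{1/2} (∑ La (nf D F)^2)^{1/2} ≤ (200 N H^2)^{1/2} (ε₃ N H^2)^{1/2}`. Third: `≤ (30 H)^2 ε' N`. (`Dense` for a smaller `ε'` implies `Dense` for a larger one.)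
-/

set_option autoImplicit false

namespace Pool.Agent.H12.DM

open Finset Pool.Agent.H17 Pool.Agent.H6.MF Pool.Agent.H6.MB

lemma r12_nf_sub (D : Finset ℤ) (f G : ℤ → ℝ) (n : ℤ) :
    nf D (fun n => f n - G n) n = nf D f n - nf D G n := by
  unfold nf
  rw [Finset.sum_sub_distrib]

lemma r12_G_nonneg (x : ℝ) (g : ℤ → ℝ) (hg : ∀ n, 0 ≤ g n ∧ g n ≤ 5) (n : ℤ) :
    0 ≤ Mm (yy x) n * g n := mul_nonneg (Mm_nonneg _ _) (hg n).1

lemma r12_sum_Mm (y : ℕ) (H : ℕ) (n : ℤ) :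
    ∑ d ∈ Finset.Icc 1 (H : ℤ), Mm y (n - d) ≤ (H : ℝ) + (WW y : ℝ) := by
  have h1 := Mm_sum y n (-(H : ℤ) - 1) H
  refine le_trans (le_of_eq ?_) h1
  refine Finset.sum_nbij' (fun d => -d) (fun i => -i) ?_ ?_ ?_ ?_ ?_
  · intro d hd
    rw [Finset.mem_Icc] at hd
    rw [Finset.mem_Ioc]
    constructor <;> omega
  · intro i hi
    rw [Finset.mem_Ioc] at hi
    rw [Finset.mem_Icc]
    constructor <;> omega
  · intro d _
    exact neg_neg d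
  · intro i _
    exact neg_neg i
  · intro d _
    rw [sub_eq_add_neg]

lemma r12_nfG_nonneg (x : ℝ) (g : ℤ → ℝ) (hg : ∀ n, 0 ≤ g n ∧ g n ≤ 5) (D : Finset ℤ) (n : ℤ) :
    0 ≤ nf D (fun n => Mm (yy x) n * g n) n :=
  nf_nonneg (fun m => r12_G_nonneg x g hg m) n

lemma r12_nfG_le (x : ℝ) (hL : 1 ≤ Real.log x) (H : ℕ) (hH : Real.log x ≤ (H : ℝ)) (g : ℤ → ℝ)
    (hg : ∀ n, 0 ≤ g n ∧ g n ≤ 5) (D : Finset ℤ) (hD : D ⊆ Finset.Icc 1 (H : ℤ)) (n : ℤ) :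
    nf D (fun n => Mm (yy x) n * g n) n ≤ 10 * (H : ℝ) := by
  have hW : (WW (yy x) : ℝ) ≤ Real.log x := FOU_W hL
  have h1 := r12_sum_Mm (yy x) H n
  unfold nf
  calc ∑ d ∈ D, Mm (yy x) (n - d) * g (n - d)
      ≤ ∑ d ∈ D, Mm (yy x) (n - d) * 5 :=
        Finset.sum_le_sum fun d _ => mul_le_mul_of_nonneg_left (hg _).2 (Mm_nonneg _ _)
    _ ≤ ∑ d ∈ Finset.Icc 1 (H : ℤ), Mm (yy x) (n - d) * 5 :=
        Finset.sum_le_sum_of_subset_of_nonneg hD fun d _ _ =>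
          mul_nonneg (Mm_nonneg _ _) (by norm_num)
    _ = (∑ d ∈ Finset.Icc 1 (H : ℤ), Mm (yy x) (n - d)) * 5 := by rw [Finset.sum_mul]
    _ ≤ 10 * (H : ℝ) := by linarith

/-- the data of the dual function for `nf D G` -/
noncomputable def r12c (D : Finset ℤ) (d : ℤ) : ℝ := if d ∈ D then 1 else 0

lemma r12_nfG_dual (x : ℝ) (H : ℕ) (hH : 0 < (H : ℝ)) (g : ℤ → ℝ)
    (D : Finset ℤ) (hD : D ⊆ Finset.Icc 1 (H : ℤ)) (n : ℤ) :
    nf D (fun n => Mm (yy x) n * g n) n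
      = 30 * (H : ℝ) * dual H (r12c D) (fun m => Mm (yy x) m * g m / 5) n := by
  unfold dual nf r12c
  have h1 : ∑ d ∈ Finset.Icc (-(H : ℤ)) (H : ℤ), (if d ∈ D then (1 : ℝ) else 0) *
      (Mm (yy x) (n - d) * g (n - d) / 5)
      = ∑ d ∈ D, Mm (yy x) (n - d) * g (n - d) / 5 := by
    have h2 : ∀ d ∈ Finset.Icc (-(H : ℤ)) (H : ℤ), (if d ∈ D then (1 : ℝ) else 0) *
      (Mm (yy x) (n - d) * g (n - d) / 5) =
        if d ∈ D then Mm (yy x) (n - d) * g (n - d) / 5 else 0 := by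
      intro d _
      split_ifs
      · rw [one_mul]
      · rw [zero_mul]
    rw [Finset.sum_congr rfl h2, Finset.sum_ite_mem, Finset.inter_eq_right.2]
    intro d hd
    have h3 := Finset.mem_Icc.1 (hD hd)
    rw [Finset.mem_Icc]
    constructor <;> omega
  rw [h1, ← Finset.sum_div]
  field_simp
  ring

lemma r12_adm (x : ℝ) (g : ℤ → ℝ) (hg : ∀ n, 0 ≤ g n ∧ g n ≤ 5) (D : Finset ℤ) :
    Adm x (r12c D) (fun m => Mm (yy x) m * g m / 5) := by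
  constructor
  · intro d
    unfold r12c
    split_ifs
    · rw [abs_one]
    · rw [abs_zero]; exact zero_le_one
  · intro n
    have h0 := Mm_nonneg (yy x) n
    have h1 := mul_nonneg h0 (hg n).1
    have h2 := mul_le_mul_of_nonneg_left (hg n).2 h0
    rw [abs_of_nonneg (by positivity)]
    linarith

lemma r12_mono {x : ℝ} {H : ℕ} {ε' ε'' : ℝ} {f g : ℤ → ℝ} (h : Dense x H ε' f g) (hε : ε' ≤ ε'') :
    Dense x H ε'' f g := by
  obtain ⟨h1, h2, h3, h4, h5⟩ := h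
  have hN : (0 : ℝ) ≤ (⌊x⌋₊ : ℝ) + 1 := by positivity
  refine ⟨h1, h2, h3, ?_, ?_⟩
  · intro c q hc
    exact (h4 c q hc).trans (mul_le_mul_of_nonneg_right hε hN)
  · intro c q c' q' hc hc'
    exact (h5 c q c' q' hc hc').trans (mul_le_mul_of_nonneg_right hε hN)

lemma r12_Lf_range {x : ℝ} (hx : 1 ≤ x) (H : ℕ) (v : ℤ → ℝ) {B : ℝ}
    (h : ∑ n ∈ rgH x H, La x (n : ℤ) * (v (n : ℤ)) ^ 2 ≤ B) :
    ∑ n ∈ Finset.range (⌊x⌋₊ + 1), La x (n : ℤ) * (v (n : ℤ)) ^ 2 ≤ B := by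
  refine le_trans (Finset.sum_le_sum_of_subset_of_nonneg ?_ ?_) h
  · unfold rgH
    exact Finset.range_subset_range.2 (Nat.le_add_right _ _)
  · intro n _ _
    exact mul_nonneg (La_nonneg hx _) (sq_nonneg _)

lemma r12_amgm (v a : ℝ) (ha : 0 < a) : |v| ≤ a / 2 + v ^ 2 / (2 * a) := by
  have h1 : 0 ≤ (|v| - a) ^ 2 := sq_nonneg _
  have h2 : |v| ^ 2 = v ^ 2 := sq_abs v
  have h3 : a / 2 + v ^ 2 / (2 * a) - |v| = (|v| - a) ^ 2 / (2 * a) := by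
    rw [← h2]; field_simp; ring
  have h4 : 0 ≤ (|v| - a) ^ 2 / (2 * a) := by positivity
  linarith

lemma r12_prod (v w a : ℝ) (ha : 0 < a) : |v| * |w| ≤ v ^ 2 / (2 * a) + a / 2 * w ^ 2 := by
  have h1 : 0 ≤ (|v| - a * |w|) ^ 2 := sq_nonneg _
  have h2 : |v| ^ 2 = v ^ 2 := sq_abs v
  have h2' : |w| ^ 2 = w ^ 2 := sq_abs w
  have h3 : v ^ 2 / (2 * a) + a / 2 * w ^ 2 - |v| * |w| = (|v| - a * |w|) ^ 2 / (2 * a) := by
    rw [← h2, ← h2']; field_simp; ring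
  have h4 : 0 ≤ (|v| - a * |w|) ^ 2 / (2 * a) := by positivity
  linarith

theorem R12p (ε : ℝ) (hε : 0 < ε) : ∃ ε' : ℝ, 0 < ε' ∧ ∃ K X : ℝ, ∀ x : ℝ, X ≤ x → ∀ H : ℕ, K * Real.log x ≤ (H : ℝ) →
    (H : ℝ) ≤ (Real.log x) ^ 2 → ∀ f g : ℤ → ℝ, Dense x H ε' f g → ∀ D : Finset ℤ, D ⊆ Finset.Icc 1 (H : ℤ) →
    |∑ n ∈ Finset.range (⌊x⌋₊ + 1), f (n : ℤ) * nf D f (n : ℤ)
        - ∑ n ∈ Finset.range (⌊x⌋₊ + 1), (Mm (yy x) (n : ℤ) * g (n : ℤ)) * nf D (fun n => Mm (yy x) n * g n) (n : ℤ)|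
      ≤ ε * ((⌊x⌋₊ : ℝ) + 1) * (H : ℝ) := by
  obtain ⟨ε₁, hε₁, K₁, X₁, hLf⟩ := Lf (ε ^ 2 / 8) (by positivity)
  obtain ⟨X₂, hMo1⟩ := Mo1
  refine ⟨min ε₁ (ε / 60), lt_min hε₁ (by positivity), max K₁ 1,
    max (max X₁ X₂) (Real.exp 1), ?_⟩
  intro x hx H hKH hHL f g hD D hDs
  have hxX₁ : X₁ ≤ x := le_trans (le_trans (le_max_left _ _) (le_max_left _ _)) hx
  have hxX₂ : X₂ ≤ x := le_trans (le_trans (le_max_right _ _) (le_max_left _ _)) hx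
  have hxe : Real.exp 1 ≤ x := le_trans (le_max_right _ _) hx
  have hx0 : 0 < x := lt_of_lt_of_le (Real.exp_pos _) hxe
  have hL : 1 ≤ Real.log x := (Real.le_log_iff_exp_le hx0).2 hxe
  have hx1 : 1 ≤ x := le_trans (by have := Real.add_one_le_exp (1 : ℝ); linarith) hxe
  have hK₁ : K₁ * Real.log x ≤ (H : ℝ) :=
    le_trans (mul_le_mul_of_nonneg_right (le_max_left _ _) (by linarith)) hKH
  have hH : Real.log x ≤ (H : ℝ) := by
    have h1 := mul_le_mul_of_nonneg_right (le_max_right K₁ 1) (by linarith : 0 ≤ Real.log x)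
    rw [one_mul] at h1
    linarith
  have hH0 : 0 < (H : ℝ) := by linarith
  obtain ⟨hf, hg, hg0, hd1, hd2⟩ := hD
  have hLf' := r12_Lf_range hx1 H (fun n => nf D (fun n => f n - Mm (yy x) n * g n) n)
    (hLf x hxX₁ H hK₁ hHL f g (r12_mono ⟨hf, hg, hg0, hd1, hd2⟩ (min_le_left _ _)) D hDs)
  have hM1 := hMo1 x hxX₂
  set N : ℝ := (⌊x⌋₊ : ℝ) + 1 with hN
  have hN0 : 0 < N := by positivity
  have hsplit : ∑ n ∈ Finset.range (⌊x⌋₊ + 1), f (n : ℤ) * nf D f (n : ℤ)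
        - ∑ n ∈ Finset.range (⌊x⌋₊ + 1), (Mm (yy x) (n : ℤ) * g (n : ℤ)) *
            nf D (fun n => Mm (yy x) n * g n) (n : ℤ)
      = ∑ n ∈ Finset.range (⌊x⌋₊ + 1), f (n : ℤ) *
            nf D (fun n => f n - Mm (yy x) n * g n) (n : ℤ)
        + ∑ n ∈ Finset.range (⌊x⌋₊ + 1), (f (n : ℤ) - Mm (yy x) (n : ℤ) * g (n : ℤ)) *
            nf D (fun n => Mm (yy x) n * g n) (n : ℤ) := by
    rw [← Finset.sum_sub_distrib, ← Finset.sum_add_distrib]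
    refine Finset.sum_congr rfl fun n _ => ?_
    rw [r12_nf_sub]
    ring
  have hb1 : |∑ n ∈ Finset.range (⌊x⌋₊ + 1), f (n : ℤ) *
      nf D (fun n => f n - Mm (yy x) n * g n) (n : ℤ)| ≤ ε / 2 * N * H := by
    have hterm : ∀ n ∈ Finset.range (⌊x⌋₊ + 1),
        |f (n : ℤ) * nf D (fun n => f n - Mm (yy x) n * g n) (n : ℤ)| ≤
          ε * H / 8 * La x (n : ℤ) + 2 / (ε * H) * (La x (n : ℤ) *
            (nf D (fun n => f n - Mm (yy x) n * g n) (n : ℤ)) ^ 2) := by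
      intro n _
      have h1 := hf (n : ℤ)
      have h2 := r12_amgm (nf D (fun n => f n - Mm (yy x) n * g n) (n : ℤ)) (ε * H / 4)
        (by positivity)
      have h3 := La_nonneg hx1 (n : ℤ)
      rw [abs_mul, abs_of_nonneg h1.1]
      generalize nf D (fun n => f n - Mm (yy x) n * g n) (n : ℤ) = v at h2 ⊢
      calc f (n : ℤ) * |v| ≤ La x (n : ℤ) * |v| := mul_le_mul_of_nonneg_right h1.2 (abs_nonneg _)
        _ ≤ La x (n : ℤ) * (ε * H / 4 / 2 + v ^ 2 / (2 * (ε * H / 4))) :=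
          mul_le_mul_of_nonneg_left h2 h3
        _ = ε * H / 8 * La x (n : ℤ) + 2 / (ε * H) * (La x (n : ℤ) * v ^ 2) := by
          field_simp; ring
    refine le_trans (Finset.abs_sum_le_sum_abs _ _) (le_trans (Finset.sum_le_sum hterm) ?_)
    rw [Finset.sum_add_distrib, ← Finset.mul_sum, ← Finset.mul_sum]
    have h4 := mul_le_mul_of_nonneg_left hM1 (by positivity : 0 ≤ ε * H / 8)
    have h5 := mul_le_mul_of_nonneg_left hLf' (by positivity : 0 ≤ 2 / (ε * H))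
    refine le_trans (add_le_add h4 h5) (le_of_eq ?_)
    field_simp
    ring
  have hb2 : |∑ n ∈ Finset.range (⌊x⌋₊ + 1), (f (n : ℤ) - Mm (yy x) (n : ℤ) * g (n : ℤ)) *
            nf D (fun n => Mm (yy x) n * g n) (n : ℤ)| ≤ ε / 2 * N * H := by
    have h1 : ∑ n ∈ Finset.range (⌊x⌋₊ + 1), (f (n : ℤ) - Mm (yy x) (n : ℤ) * g (n : ℤ)) *
            nf D (fun n => Mm (yy x) n * g n) (n : ℤ) = 30 * (H : ℝ) *
        ∑ n ∈ Finset.range (⌊x⌋₊ + 1), (f (n : ℤ) - Mm (yy x) (n : ℤ) * g (n : ℤ)) *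
          dual H (r12c D) (fun m => Mm (yy x) m * g m / 5) (n : ℤ) := by
      rw [Finset.mul_sum]
      refine Finset.sum_congr rfl fun n _ => ?_
      rw [r12_nfG_dual x H hH0 g D hDs]
      ring
    rw [h1, abs_mul, abs_of_nonneg (by positivity)]
    have h2 := hd1 _ _ (r12_adm x g hg D)
    have h3 : min ε₁ (ε / 60) * N ≤ ε / 60 * N :=
      mul_le_mul_of_nonneg_right (min_le_right _ _) hN0.le
    have h4 := mul_le_mul_of_nonneg_left (le_trans h2 h3) (by positivity : 0 ≤ 30 * (H : ℝ))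
    refine le_trans h4 (le_of_eq ?_)
    ring
  rw [hsplit]
  refine le_trans (abs_add_le _ _) ?_
  linarith

theorem R12t (ε : ℝ) (hε : 0 < ε) : ∃ ε' : ℝ, 0 < ε' ∧ ∃ K X : ℝ, ∀ x : ℝ, X ≤ x → ∀ H : ℕ, K * Real.log x ≤ (H : ℝ) →
    (H : ℝ) ≤ (Real.log x) ^ 2 → ∀ f g : ℤ → ℝ, Dense x H ε' f g → ∀ D' D : Finset ℤ, D' ⊆ Finset.Icc 1 (H : ℤ) →
    D ⊆ Finset.Icc 1 (H : ℤ) →
    |∑ n ∈ Finset.range (⌊x⌋₊ + 1), f (n : ℤ) * nf D' f (n : ℤ) * nf D f (n : ℤ)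
        - ∑ n ∈ Finset.range (⌊x⌋₊ + 1), (Mm (yy x) (n : ℤ) * g (n : ℤ)) *
            nf D' (fun n => Mm (yy x) n * g n) (n : ℤ) * nf D (fun n => Mm (yy x) n * g n) (n : ℤ)|
      ≤ ε * ((⌊x⌋₊ : ℝ) + 1) * (H : ℝ) ^ 2 := by
  obtain ⟨C, X₃, hC, hMo3⟩ := Mo3
  obtain ⟨ε₃, hε₃0, hε₃1, hε₃2⟩ : ∃ ε₃ : ℝ, 0 < ε₃ ∧ ε₃ ≤ ε ^ 2 / (16 * C) ∧ ε₃ ≤ ε ^ 2 / 3200 :=
    ⟨min (ε ^ 2 / (16 * C)) (ε ^ 2 / 3200), lt_min (by positivity) (by positivity),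
      min_le_left _ _, min_le_right _ _⟩
  obtain ⟨ε₁, hε₁, K₁, X₁, hLf⟩ := Lf ε₃ hε₃0
  obtain ⟨X₂, hMo1⟩ := Mo1
  refine ⟨min ε₁ (ε / 1800), lt_min hε₁ (by positivity), max K₁ 1,
    max (max (max X₁ X₂) X₃) (Real.exp 1), ?_⟩
  intro x hx H hKH hHL f g hD D' D hDs' hDs
  have hx123 : max (max X₁ X₂) X₃ ≤ x := le_trans (le_max_left _ _) hx
  have hxX₁ : X₁ ≤ x := le_trans (le_trans (le_max_left _ _) (le_max_left _ _)) hx123
  have hxX₂ : X₂ ≤ x := le_trans (le_trans (le_max_right _ _) (le_max_left _ _)) hx123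
  have hxX₃ : X₃ ≤ x := le_trans (le_max_right _ _) hx123
  have hxe : Real.exp 1 ≤ x := le_trans (le_max_right _ _) hx
  have hx0 : 0 < x := lt_of_lt_of_le (Real.exp_pos _) hxe
  have hL : 1 ≤ Real.log x := (Real.le_log_iff_exp_le hx0).2 hxe
  have hx1 : 1 ≤ x := le_trans (by have := Real.add_one_le_exp (1 : ℝ); linarith) hxe
  have hK₁ : K₁ * Real.log x ≤ (H : ℝ) :=
    le_trans (mul_le_mul_of_nonneg_right (le_max_left _ _) (by linarith)) hKH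
  have hH : Real.log x ≤ (H : ℝ) := by
    have h1 := mul_le_mul_of_nonneg_right (le_max_right K₁ 1) (by linarith : 0 ≤ Real.log x)
    rw [one_mul] at h1
    linarith
  have hH0 : 0 < (H : ℝ) := by linarith
  obtain ⟨hf, hg, hg0, hd1, hd2⟩ := hD
  have hLD := r12_Lf_range hx1 H (fun n => nf D (fun n => f n - Mm (yy x) n * g n) n)
    (hLf x hxX₁ H hK₁ hHL f g (r12_mono ⟨hf, hg, hg0, hd1, hd2⟩ (min_le_left _ _)) D hDs)
  have hLD' := r12_Lf_range hx1 H (fun n => nf D' (fun n => f n - Mm (yy x) n * g n) n)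
    (hLf x hxX₁ H hK₁ hHL f g (r12_mono ⟨hf, hg, hg0, hd1, hd2⟩ (min_le_left _ _)) D' hDs')
  have hM1 := hMo1 x hxX₂
  have hM3 := hMo3 x hxX₃ H hH hHL
  set N : ℝ := (⌊x⌋₊ : ℝ) + 1 with hN
  have hN0 : 0 < N := by positivity
  have hsplit : ∑ n ∈ Finset.range (⌊x⌋₊ + 1), f (n : ℤ) * nf D' f (n : ℤ) * nf D f (n : ℤ)
        - ∑ n ∈ Finset.range (⌊x⌋₊ + 1), (Mm (yy x) (n : ℤ) * g (n : ℤ)) *
            nf D' (fun n => Mm (yy x) n * g n) (n : ℤ) * nf D (fun n => Mm (yy x) n * g n) (n : ℤ)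
      = (∑ n ∈ Finset.range (⌊x⌋₊ + 1), f (n : ℤ) *
            nf D' (fun n => f n - Mm (yy x) n * g n) (n : ℤ) * nf D f (n : ℤ)
        + ∑ n ∈ Finset.range (⌊x⌋₊ + 1), f (n : ℤ) *
            nf D' (fun n => Mm (yy x) n * g n) (n : ℤ) *
            nf D (fun n => f n - Mm (yy x) n * g n) (n : ℤ))
        + ∑ n ∈ Finset.range (⌊x⌋₊ + 1), (f (n : ℤ) - Mm (yy x) (n : ℤ) * g (n : ℤ)) *
            (nf D' (fun n => Mm (yy x) n * g n) (n : ℤ) *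
            nf D (fun n => Mm (yy x) n * g n) (n : ℤ)) := by
    rw [← Finset.sum_sub_distrib, ← Finset.sum_add_distrib, ← Finset.sum_add_distrib]
    refine Finset.sum_congr rfl fun n _ => ?_
    rw [r12_nf_sub, r12_nf_sub]
    ring
  have hb1 : |∑ n ∈ Finset.range (⌊x⌋₊ + 1), f (n : ℤ) *
      nf D' (fun n => f n - Mm (yy x) n * g n) (n : ℤ) * nf D f (n : ℤ)| ≤
        ε / 4 * N * (H : ℝ) ^ 2 := by
    have hterm : ∀ n ∈ Finset.range (⌊x⌋₊ + 1),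
        |f (n : ℤ) * nf D' (fun n => f n - Mm (yy x) n * g n) (n : ℤ) * nf D f (n : ℤ)| ≤
          2 * C / ε * (La x (n : ℤ) * (nf D' (fun n => f n - Mm (yy x) n * g n) (n : ℤ)) ^ 2)
          + ε / (8 * C) * (La x (n : ℤ) *
            (nf (Finset.Icc 1 (H : ℤ)) (La x) (n : ℤ)) ^ 2) := by
      intro n _
      have h1 := hf (n : ℤ)
      have h3 := La_nonneg hx1 (n : ℤ)
      have hw0 : 0 ≤ nf D f (n : ℤ) := nf_nonneg (fun m => (hf m).1) _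
      have hw1 : nf D f (n : ℤ) ≤ nf (Finset.Icc 1 (H : ℤ)) (La x) (n : ℤ) := by
        unfold nf
        refine le_trans (Finset.sum_le_sum fun d _ => (hf _).2) ?_
        exact Finset.sum_le_sum_of_subset_of_nonneg hDs fun d _ _ => La_nonneg hx1 _
      have h2 := r12_prod (nf D' (fun n => f n - Mm (yy x) n * g n) (n : ℤ))
        (nf (Finset.Icc 1 (H : ℤ)) (La x) (n : ℤ)) (ε / (4 * C)) (by positivity)
      rw [abs_mul, abs_mul, abs_of_nonneg h1.1, abs_of_nonneg hw0]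
      rw [abs_of_nonneg (le_trans hw0 hw1)] at h2
      generalize nf D' (fun n => f n - Mm (yy x) n * g n) (n : ℤ) = v at h2 ⊢
      generalize nf (Finset.Icc 1 (H : ℤ)) (La x) (n : ℤ) = w' at h2 hw1 ⊢
      generalize nf D f (n : ℤ) = w at hw0 hw1 ⊢
      calc f (n : ℤ) * |v| * w ≤ La x (n : ℤ) * |v| * w' :=
            mul_le_mul (mul_le_mul_of_nonneg_right h1.2 (abs_nonneg _)) hw1 hw0
              (mul_nonneg h3 (abs_nonneg _))
        _ = La x (n : ℤ) * (|v| * w') := by ring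
        _ ≤ La x (n : ℤ) * (v ^ 2 / (2 * (ε / (4 * C))) + ε / (4 * C) / 2 * w' ^ 2) :=
          mul_le_mul_of_nonneg_left h2 h3
        _ = 2 * C / ε * (La x (n : ℤ) * v ^ 2) + ε / (8 * C) * (La x (n : ℤ) * w' ^ 2) := by
          field_simp; ring
    refine le_trans (Finset.abs_sum_le_sum_abs _ _) (le_trans (Finset.sum_le_sum hterm) ?_)
    rw [Finset.sum_add_distrib, ← Finset.mul_sum, ← Finset.mul_sum]
    have h4 := mul_le_mul_of_nonneg_left hLD' (by positivity : 0 ≤ 2 * C / ε)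
    have h5 := mul_le_mul_of_nonneg_left hM3 (by positivity : 0 ≤ ε / (8 * C))
    have h6 : 2 * C / ε * (ε₃ * N * (H : ℝ) ^ 2) ≤ ε / 8 * N * (H : ℝ) ^ 2 := by
      have h7 : 2 * C / ε * (ε₃ * N * (H : ℝ) ^ 2) ≤
          2 * C / ε * (ε ^ 2 / (16 * C) * N * (H : ℝ) ^ 2) := by
        apply mul_le_mul_of_nonneg_left _ (by positivity)
        apply mul_le_mul_of_nonneg_right _ (by positivity)
        exact mul_le_mul_of_nonneg_right hε₃1 hN0.le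
      refine le_trans h7 (le_of_eq ?_)
      field_simp
      ring
    have h7 : ε / (8 * C) * (C * N * (H : ℝ) ^ 2) = ε / 8 * N * (H : ℝ) ^ 2 := by
      field_simp
    linarith
  have hb2 : |∑ n ∈ Finset.range (⌊x⌋₊ + 1), f (n : ℤ) *
      nf D' (fun n => Mm (yy x) n * g n) (n : ℤ) *
      nf D (fun n => f n - Mm (yy x) n * g n) (n : ℤ)| ≤ ε / 4 * N * (H : ℝ) ^ 2 := by
    have hterm : ∀ n ∈ Finset.range (⌊x⌋₊ + 1),
        |f (n : ℤ) * nf D' (fun n => Mm (yy x) n * g n) (n : ℤ) *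
          nf D (fun n => f n - Mm (yy x) n * g n) (n : ℤ)| ≤
          ε / 16 * (H : ℝ) ^ 2 * La x (n : ℤ)
          + 400 / ε * (La x (n : ℤ) * (nf D (fun n => f n - Mm (yy x) n * g n) (n : ℤ)) ^ 2) := by
      intro n _
      have h1 := hf (n : ℤ)
      have h3 := La_nonneg hx1 (n : ℤ)
      have hw0 := r12_nfG_nonneg x g hg D' (n : ℤ)
      have hw1 := r12_nfG_le x hL H hH g hg D' hDs' (n : ℤ)
      have h2 := r12_amgm (nf D (fun n => f n - Mm (yy x) n * g n) (n : ℤ)) (ε / 80 * H)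
        (by positivity)
      rw [abs_mul, abs_mul, abs_of_nonneg h1.1, abs_of_nonneg hw0]
      generalize nf D (fun n => f n - Mm (yy x) n * g n) (n : ℤ) = v at h2 ⊢
      generalize nf D' (fun n => Mm (yy x) n * g n) (n : ℤ) = w at hw0 hw1 ⊢
      calc f (n : ℤ) * w * |v| ≤ La x (n : ℤ) * (10 * H) * |v| :=
            mul_le_mul_of_nonneg_right (mul_le_mul h1.2 hw1 hw0 h3) (abs_nonneg _)
        _ ≤ La x (n : ℤ) * (10 * H) * (ε / 80 * H / 2 + v ^ 2 / (2 * (ε / 80 * H))) :=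
          mul_le_mul_of_nonneg_left h2 (by positivity)
        _ = ε / 16 * (H : ℝ) ^ 2 * La x (n : ℤ) + 400 / ε * (La x (n : ℤ) * v ^ 2) := by
          field_simp; ring
    refine le_trans (Finset.abs_sum_le_sum_abs _ _) (le_trans (Finset.sum_le_sum hterm) ?_)
    rw [Finset.sum_add_distrib, ← Finset.mul_sum, ← Finset.mul_sum]
    have h4 := mul_le_mul_of_nonneg_left hLD (by positivity : 0 ≤ 400 / ε)
    have h5 := mul_le_mul_of_nonneg_left hM1 (by positivity : 0 ≤ ε / 16 * (H : ℝ) ^ 2)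
    have h6 : 400 / ε * (ε₃ * N * (H : ℝ) ^ 2) ≤ ε / 8 * N * (H : ℝ) ^ 2 := by
      have h7 : 400 / ε * (ε₃ * N * (H : ℝ) ^ 2) ≤
          400 / ε * (ε ^ 2 / 3200 * N * (H : ℝ) ^ 2) := by
        apply mul_le_mul_of_nonneg_left _ (by positivity)
        apply mul_le_mul_of_nonneg_right _ (by positivity)
        exact mul_le_mul_of_nonneg_right hε₃2 hN0.le
      refine le_trans h7 (le_of_eq ?_)
      field_simp
      ring
    have h7 : ε / 16 * (H : ℝ) ^ 2 * (2 * N) = ε / 8 * N * (H : ℝ) ^ 2 := by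
      ring
    linarith
  have hb3 : |∑ n ∈ Finset.range (⌊x⌋₊ + 1), (f (n : ℤ) - Mm (yy x) (n : ℤ) * g (n : ℤ)) *
            (nf D' (fun n => Mm (yy x) n * g n) (n : ℤ) *
            nf D (fun n => Mm (yy x) n * g n) (n : ℤ))| ≤ ε / 2 * N * (H : ℝ) ^ 2 := by
    have h1 : ∑ n ∈ Finset.range (⌊x⌋₊ + 1), (f (n : ℤ) - Mm (yy x) (n : ℤ) * g (n : ℤ)) *
            (nf D' (fun n => Mm (yy x) n * g n) (n : ℤ) *
            nf D (fun n => Mm (yy x) n * g n) (n : ℤ)) = 900 * (H : ℝ) ^ 2 *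
        ∑ n ∈ Finset.range (⌊x⌋₊ + 1), (f (n : ℤ) - Mm (yy x) (n : ℤ) * g (n : ℤ)) *
          (dual H (r12c D') (fun m => Mm (yy x) m * g m / 5) (n : ℤ) *
          dual H (r12c D) (fun m => Mm (yy x) m * g m / 5) (n : ℤ)) := by
      rw [Finset.mul_sum]
      refine Finset.sum_congr rfl fun n _ => ?_
      rw [r12_nfG_dual x H hH0 g D hDs, r12_nfG_dual x H hH0 g D' hDs']
      ring
    rw [h1, abs_mul, abs_of_nonneg (by positivity)]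
    have h2 := hd2 _ _ _ _ (r12_adm x g hg D') (r12_adm x g hg D)
    have h3 : min ε₁ (ε / 1800) * N ≤ ε / 1800 * N :=
      mul_le_mul_of_nonneg_right (min_le_right _ _) hN0.le
    have h4 := mul_le_mul_of_nonneg_left (le_trans h2 h3)
      (by positivity : 0 ≤ 900 * (H : ℝ) ^ 2)
    refine le_trans h4 (le_of_eq ?_)
    ring
  rw [hsplit]
  refine le_trans (abs_add_le _ _) (le_trans (add_le_add (abs_add_le _ _) le_rfl) ?_)
  linarith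

end Pool.Agent.H12.DM
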