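import Pool.Agent.H12.DM.R8
import Pool.Agent.H12.DM.R12

/-!
# Fin: the dense model theorem for sets of primes

`L = log x`, `N = ⌊x⌋₊ + 1`, `M = Mm (yy x)`, `φ = wp (yy x) ≤ WW (yy x)`, `φ^68 ≤ L` or so (`WW_yy_pow_le`). We may assume `ε ≤ 1`. Put `f n = La x n` if `n ≥ 0` and `n.toNat ∈ Q`, `0` otherwise, so
`0 ≤ f ≤ La x`. Take `g` from `R8` for a small `ε' ≤ ε/10`, also at most the `ε'` of `R12p (ε/4)`, `R12t (ε/4)`. Then `Dense x H ε' f g` holds (`4 + ε' ≤ 5`; `R12` needs it for its own `ε'`: monotone in `ε'`).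
`G n = M n * g n`.

1. `∑_{n<N} f n = L * #{p ∈ Q : p > x^(1/4)}`, which differs from `L * Q.card` by at most `L (x^(1/4) + 1)`; with the first estimate of `R8`: difference `≤ ε' N + L(x^(1/4)+1) ≤ ε x`.
2. Pairs: for `d ≥ 1`, `∑_{n<N} f n f(n-d) = L^2 #{p ∈ Q : p > x^(1/4), p - d ∈ Q, p - d > x^(1/4)}`, which differs from `L^2 * pc Q d` by at most `L^2 (x^(1/4) + H + 2)` (the `p ∈ Q` with `p - d ≤ x^(1/4)`; natural
   subtraction: `p - d ∈ Q` implies `p > d`, as `0 ∉ Q`). Sum over `d ∈ D` (`≤ H` values): `≤ H L^2 (x^(1/4) + H + 2) ≤ (ε/4) H x`. `∑_{d∈D} ∑_n f n f(n-d) = ∑_n f n * nf D f n` (cast `D` to a finset of integers,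
   `D.map Nat.castEmbedding` or `image`), the same for `G`; `R12p`.
3. Triples: for `d' ≠ d` the same with error `L^3 (x^(1/4) + H + 2)` per pair `(d', d)`, in total `≤ H^2 L^3 (x^(1/4)+H+2) ≤ (ε/8) H^2 x`. The sums in `R12t` contain also the terms `d' = d`:
   * primes: `∑_{d ∈ D ∩ D'} ∑_n f(n) f(n-d)^2 ≤ L ∑_n La(n) nf (Icc 1 H) La (n) ≤ L (∑ La)^{1/2} (∑ La nf^2)^{1/2} ≤ L (2N)^{1/2} (C N H^2)^{1/2} = √(2C) L N H ≤ (ε/8) N H^2` (`Mo1`, `Mo3`, `H ≥ K L` with `K` large).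
   * model: `∑_{d∈D∩D'} ∑_n G(n) G(n-d)^2 ≤ N H (5φ)^3 ≤ (ε/8) N H^2`, as `φ^3 ≤ L^(1/10) = o(H)`.
`N ≤ x + 1 ≤ 2x`; adjust constants.
-/

set_option autoImplicit false

namespace Pool.Agent.H12.DM

open Finset Pool.Agent.H17 Pool.Agent.H6.MF Pool.Agent.H6.MB

/-- the number of `p ∈ Q` with `p - d ∈ Q` (for a set `Q` of primes, `d ≥ 1`) -/
def pc (Q : Finset ℕ) (d : ℕ) : ℕ := (Q.filter (fun p => p - d ∈ Q)).card

/-- the number of `p ∈ Q` with `p - d' ∈ Q` and `p - d ∈ Q` -/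
def tc (Q : Finset ℕ) (d' d : ℕ) : ℕ := (Q.filter (fun p => p - d' ∈ Q ∧ p - d ∈ Q)).card

lemma Fin_cnt (N : ℕ) (a b : ℕ → ℝ) (R : ℝ) (hR : 0 ≤ R) (h1 : ∀ n, |a n - b n| ≤ 1)
    (h2 : ∀ n : ℕ, R < n → a n = b n) :
    |∑ n ∈ Finset.range N, a n - ∑ n ∈ Finset.range N, b n| ≤ R + 1 := by
  rw [← Finset.sum_sub_distrib]
  refine (Finset.abs_sum_le_sum_abs _ _).trans ?_
  have h3 : ∑ n ∈ Finset.range N, |a n - b n| ≤
      ∑ n ∈ Finset.range N, (if n ∈ Finset.range (⌊R⌋₊ + 1) then (1 : ℝ) else 0) := by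
    refine Finset.sum_le_sum fun n _ => ?_
    by_cases hn : n ∈ Finset.range (⌊R⌋₊ + 1)
    · rw [if_pos hn]
      exact h1 n
    · rw [if_neg hn]
      rw [Finset.mem_range, not_lt] at hn
      have : R < n := by
        rw [← Nat.floor_lt hR]
        omega
      rw [h2 n this, sub_self, abs_zero]
  refine h3.trans ?_
  rw [Finset.sum_boole]
  have h4 : ((Finset.range N).filter fun n => n ∈ Finset.range (⌊R⌋₊ + 1)).card ≤ ⌊R⌋₊ + 1 := by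
    refine (Finset.card_le_card ?_).trans (Finset.card_range _).le
    intro n hn
    exact (Finset.mem_filter.1 hn).2
  have h5 : (((Finset.range N).filter fun n => n ∈ Finset.range (⌊R⌋₊ + 1)).card : ℝ) ≤
      (⌊R⌋₊ : ℝ) + 1 := by exact_mod_cast h4
  have h6 := Nat.floor_le hR
  linarith

/-- the indicator function of the elements of `Q` greater than `x^(1/4)` -/
noncomputable def Fin_chi (x : ℝ) (Q : Finset ℕ) (n : ℤ) : ℝ :=
  if n.toNat ∈ Q ∧ x ^ (1 / 4 : ℝ) < (n : ℝ) then 1 else 0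

/-- the function of the set `Q` -/
noncomputable def Fin_f (x : ℝ) (Q : Finset ℕ) (n : ℤ) : ℝ := if n.toNat ∈ Q then La x n else 0

lemma Fin_chi_nonneg (x : ℝ) (Q : Finset ℕ) (n : ℤ) : 0 ≤ Fin_chi x Q n := by
  unfold Fin_chi
  split_ifs
  · exact zero_le_one
  · exact le_rfl

lemma Fin_chi_le (x : ℝ) (Q : Finset ℕ) (n : ℤ) : Fin_chi x Q n ≤ 1 := by
  unfold Fin_chi
  split_ifs
  · exact le_rfl
  · exact zero_le_one

lemma Fin_f_eq {x : ℝ} {Q : Finset ℕ} (hQ : ∀ p ∈ Q, p.Prime ∧ (p : ℝ) ≤ x) (n : ℤ) :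
    Fin_f x Q n = Real.log x * Fin_chi x Q n := by
  unfold Fin_f Fin_chi La
  by_cases h : n.toNat ∈ Q
  · rw [if_pos h]
    by_cases h2 : x ^ (1 / 4 : ℝ) < (n : ℝ)
    · have h3 : (n : ℝ) ≤ x := by
        have h4 : (n : ℝ) ≤ (n.toNat : ℝ) := by exact_mod_cast Int.self_le_toNat n
        exact h4.trans (hQ _ h).2
      rw [if_pos ⟨(hQ _ h).1, h2, h3⟩, if_pos ⟨h, h2⟩, mul_one]
    · rw [if_neg (fun h3 => h2 h3.2.1), if_neg (fun h3 => h2 h3.2), mul_zero]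
  · rw [if_neg h, if_neg (fun h3 => h h3.1), mul_zero]

lemma Fin_f_bd {x : ℝ} (hx : 1 ≤ x) (Q : Finset ℕ) (n : ℤ) :
    0 ≤ Fin_f x Q n ∧ Fin_f x Q n ≤ La x n := by
  unfold Fin_f
  have h := La_nonneg hx n
  split_ifs
  · exact ⟨h, le_rfl⟩
  · exact ⟨le_rfl, h⟩

lemma Fin_chi_big {x : ℝ} {Q : Finset ℕ} {H : ℕ} {n d : ℕ} (hd : d ≤ H)
    (hn : x ^ (1 / 4 : ℝ) + H < n) :
    Fin_chi x Q ((n : ℤ) - d) = if n - d ∈ Q then 1 else 0 := by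
  unfold Fin_chi
  have h1 : ((n : ℤ) - d).toNat = n - d := by omega
  have h2 : (d : ℝ) ≤ H := by exact_mod_cast hd
  have h3 : x ^ (1 / 4 : ℝ) < (((n : ℤ) - d : ℤ) : ℝ) := by
    push_cast
    linarith
  rw [h1]
  by_cases h : n - d ∈ Q
  · rw [if_pos ⟨h, h3⟩, if_pos h]
  · rw [if_neg (fun h4 => h h4.1), if_neg h]

lemma Fin_card (Q : Finset ℕ) (N : ℕ) (h : ∀ p ∈ Q, p < N) (r : ℕ → Prop) [DecidablePred r] :
    ((Q.filter r).card : ℝ) = ∑ n ∈ Finset.range N, (if n ∈ Q then 1 else 0) *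
      (if r n then (1 : ℝ) else 0) := by
  have h1 : ∀ n ∈ Finset.range N, (if n ∈ Q then (1 : ℝ) else 0) * (if r n then (1 : ℝ) else 0) =
      if (n ∈ Q ∧ r n) then 1 else 0 := by
    intro n _
    by_cases h1 : n ∈ Q
    · by_cases h2 : r n
      · rw [if_pos h1, if_pos h2, if_pos ⟨h1, h2⟩, mul_one]
      · rw [if_neg h2, mul_zero, if_neg (fun h3 : n ∈ Q ∧ r n => h2 h3.2)]
    · rw [if_neg h1, zero_mul, if_neg (fun h3 : n ∈ Q ∧ r n => h1 h3.1)]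
  rw [Finset.sum_congr rfl h1, Finset.sum_boole]
  congr 2
  ext n
  rw [Finset.mem_filter, Finset.mem_filter, Finset.mem_range]
  exact ⟨fun h2 => ⟨h n h2.1, h2⟩, fun h2 => h2.2⟩

lemma Fin_sub {a b : ℝ} (ha0 : 0 ≤ a) (ha1 : a ≤ 1) (hb0 : 0 ≤ b) (hb1 : b ≤ 1) : |a - b| ≤ 1 := by
  rw [abs_le]
  constructor <;> linarith

lemma Fin_ite (p : Prop) [Decidable p] : (0 : ℝ) ≤ (if p then 1 else 0) ∧
    (if p then (1 : ℝ) else 0) ≤ 1 := by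
  split_ifs
  · exact ⟨zero_le_one, le_rfl⟩
  · exact ⟨le_rfl, zero_le_one⟩

lemma Fin_c1 {x : ℝ} (hx : 0 ≤ x) {Q : Finset ℕ} {H : ℕ} (N : ℕ) (h : ∀ p ∈ Q, p < N) :
    |(Q.card : ℝ) - ∑ n ∈ Finset.range N, Fin_chi x Q (n : ℤ)| ≤ x ^ (1 / 4 : ℝ) + H + 1 := by
  have h0 : (Q.card : ℝ) = ∑ n ∈ Finset.range N, (if n ∈ Q then 1 else 0) *
      (if True then (1 : ℝ) else 0) := by
    rw [← Fin_card Q N h (fun _ => True), Finset.filter_true_of_mem (fun _ _ => trivial)]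
  rw [h0]
  refine Fin_cnt N _ _ _ (by positivity) (fun n => ?_) (fun n hn => ?_)
  · have a := Fin_ite (n ∈ Q)
    have b1 := Fin_chi_nonneg x Q n
    have b2 := Fin_chi_le x Q n
    rw [if_pos trivial, mul_one]
    exact Fin_sub a.1 a.2 b1 b2
  · have h1 := Fin_chi_big (Q := Q) (Nat.zero_le H) hn
    rw [Nat.cast_zero, sub_zero, Nat.sub_zero] at h1
    rw [h1, if_pos trivial, mul_one]

lemma Fin_c2 {x : ℝ} (hx : 0 ≤ x) {Q : Finset ℕ} {H : ℕ} (N : ℕ) (h : ∀ p ∈ Q, p < N) {d : ℕ}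
    (hd : d ≤ H) :
    |(pc Q d : ℝ) - ∑ n ∈ Finset.range N, Fin_chi x Q (n : ℤ) * Fin_chi x Q ((n : ℤ) - d)|
      ≤ x ^ (1 / 4 : ℝ) + H + 1 := by
  unfold pc
  rw [Fin_card Q N h (fun p => p - d ∈ Q)]
  refine Fin_cnt N _ _ _ (by positivity) (fun n => ?_) (fun n hn => ?_)
  · have a := Fin_ite (n ∈ Q)
    have a' := Fin_ite (n - d ∈ Q)
    exact Fin_sub (mul_nonneg a.1 a'.1) (mul_le_one₀ a.2 a'.1 a'.2)
      (mul_nonneg (Fin_chi_nonneg _ _ _) (Fin_chi_nonneg _ _ _))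
      (mul_le_one₀ (Fin_chi_le _ _ _) (Fin_chi_nonneg _ _ _) (Fin_chi_le _ _ _))
  · have h1 := Fin_chi_big (Q := Q) (Nat.zero_le H) hn
    rw [Nat.cast_zero, sub_zero, Nat.sub_zero] at h1
    rw [h1, Fin_chi_big hd hn]

lemma Fin_c3 {x : ℝ} (hx : 0 ≤ x) {Q : Finset ℕ} {H : ℕ} (N : ℕ) (h : ∀ p ∈ Q, p < N) {d' d : ℕ}
    (hd' : d' ≤ H) (hd : d ≤ H) :
    |(tc Q d' d : ℝ) - ∑ n ∈ Finset.range N, Fin_chi x Q (n : ℤ) * Fin_chi x Q ((n : ℤ) - d') *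
      Fin_chi x Q ((n : ℤ) - d)| ≤ x ^ (1 / 4 : ℝ) + H + 1 := by
  unfold tc
  rw [Fin_card Q N h (fun p => p - d' ∈ Q ∧ p - d ∈ Q)]
  have e : ∀ n : ℕ, (if (n - d' ∈ Q ∧ n - d ∈ Q) then (1 : ℝ) else 0) =
      (if n - d' ∈ Q then 1 else 0) * (if n - d ∈ Q then 1 else 0) := by
    intro n
    by_cases h1 : n - d' ∈ Q
    · by_cases h2 : n - d ∈ Q
      · rw [if_pos ⟨h1, h2⟩, if_pos h1, if_pos h2, mul_one]
      · rw [if_neg (fun h3 => h2 h3.2), if_neg h2, mul_zero]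
    · rw [if_neg (fun h3 => h1 h3.1), if_neg h1, zero_mul]
  refine Fin_cnt N _ _ _ (by positivity) (fun n => ?_) (fun n hn => ?_)
  · have a := Fin_ite (n ∈ Q)
    have a' := Fin_ite (n - d' ∈ Q ∧ n - d ∈ Q)
    have b := mul_nonneg (Fin_chi_nonneg x Q (n : ℤ)) (Fin_chi_nonneg x Q ((n : ℤ) - d'))
    have b' := mul_le_one₀ (Fin_chi_le x Q (n : ℤ)) (Fin_chi_nonneg x Q ((n : ℤ) - d'))
      (Fin_chi_le x Q ((n : ℤ) - d'))
    exact Fin_sub (mul_nonneg a.1 a'.1) (mul_le_one₀ a.2 a'.1 a'.2)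
      (mul_nonneg b (Fin_chi_nonneg _ _ _))
      (mul_le_one₀ b' (Fin_chi_nonneg _ _ _) (Fin_chi_le _ _ _))
  · have h1 := Fin_chi_big (Q := Q) (Nat.zero_le H) hn
    rw [Nat.cast_zero, sub_zero, Nat.sub_zero] at h1
    rw [h1, Fin_chi_big hd hn, Fin_chi_big hd' hn, e]
    ring

/-- `D` as a set of integers -/
def Fin_Z (D : Finset ℕ) : Finset ℤ := D.map Nat.castEmbedding

lemma Fin_Z_sub {D : Finset ℕ} {H : ℕ} (h : D ⊆ Finset.Icc 1 H) :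
    Fin_Z D ⊆ Finset.Icc 1 (H : ℤ) := by
  intro z hz
  unfold Fin_Z at hz
  rw [Finset.mem_map] at hz
  obtain ⟨d, hd, rfl⟩ := hz
  have h1 := Finset.mem_Icc.1 (h hd)
  rw [Finset.mem_Icc, Nat.castEmbedding_apply]
  omega

lemma Fin_nf (D : Finset ℕ) (F : ℤ → ℝ) (n : ℤ) :
    nf (Fin_Z D) F n = ∑ d ∈ D, F (n - (d : ℤ)) := by
  unfold nf Fin_Z
  rw [Finset.sum_map]
  rfl

lemma Fin_S2 (N : ℕ) (D : Finset ℕ) (F : ℤ → ℝ) :
    ∑ n ∈ Finset.range N, F (n : ℤ) * nf (Fin_Z D) F (n : ℤ) =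
      ∑ d ∈ D, ∑ n ∈ Finset.range N, F (n : ℤ) * F ((n : ℤ) - d) := by
  rw [Finset.sum_comm]
  refine Finset.sum_congr rfl fun n _ => ?_
  rw [Fin_nf, Finset.mul_sum]

lemma Fin_S3 (N : ℕ) (D' D : Finset ℕ) (F : ℤ → ℝ) :
    ∑ n ∈ Finset.range N, F (n : ℤ) * nf (Fin_Z D') F (n : ℤ) * nf (Fin_Z D) F (n : ℤ) =
      ∑ d' ∈ D', ∑ d ∈ D, ∑ n ∈ Finset.range N, F (n : ℤ) * F ((n : ℤ) - d') * F ((n : ℤ) - d) := by
  have e : ∀ d' ∈ D', ∑ d ∈ D, ∑ n ∈ Finset.range N, F (n : ℤ) * F ((n : ℤ) - d') * F ((n : ℤ) - d) =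
      ∑ n ∈ Finset.range N, ∑ d ∈ D, F (n : ℤ) * F ((n : ℤ) - d') * F ((n : ℤ) - d) :=
    fun d' _ => Finset.sum_comm
  rw [Finset.sum_congr rfl e, Finset.sum_comm]
  refine Finset.sum_congr rfl fun n _ => ?_
  rw [Fin_nf, Fin_nf, Finset.mul_sum D', Finset.sum_mul]
  refine Finset.sum_congr rfl fun d' _ => ?_
  rw [Finset.mul_sum]

/-- the diagonal -/
noncomputable def Fin_dg (N : ℕ) (D' D : Finset ℕ) (F : ℤ → ℝ) : ℝ :=
  ∑ d' ∈ D', (if d' ∈ D then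
    ∑ n ∈ Finset.range N, F (n : ℤ) * F ((n : ℤ) - d') * F ((n : ℤ) - d') else 0)

lemma Fin_S4 (N : ℕ) (D' D : Finset ℕ) (F : ℤ → ℝ) :
    ∑ n ∈ Finset.range N, F (n : ℤ) * nf (Fin_Z D') F (n : ℤ) * nf (Fin_Z D) F (n : ℤ) =
      ∑ d' ∈ D', ∑ d ∈ D.erase d', ∑ n ∈ Finset.range N,
        F (n : ℤ) * F ((n : ℤ) - d') * F ((n : ℤ) - d) + Fin_dg N D' D F := by
  unfold Fin_dg
  rw [Fin_S3, ← Finset.sum_add_distrib]
  refine Finset.sum_congr rfl fun d' _ => ?_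
  by_cases h : d' ∈ D
  · rw [if_pos h, Finset.sum_erase_add _ _ h]
  · rw [if_neg h, add_zero, Finset.erase_eq_of_notMem h]

lemma Fin_dg_nonneg (N : ℕ) (D' D : Finset ℕ) {F : ℤ → ℝ} (hF : ∀ n, 0 ≤ F n) :
    0 ≤ Fin_dg N D' D F := by
  unfold Fin_dg
  refine Finset.sum_nonneg fun d' _ => ?_
  split_ifs
  · exact Finset.sum_nonneg fun n _ => mul_nonneg (mul_nonneg (hF _) (hF _)) (hF _)
  · exact le_rfl

lemma Fin_dg_le (N : ℕ) (D' D : Finset ℕ) {F : ℤ → ℝ} (hF : ∀ n, 0 ≤ F n) :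
    Fin_dg N D' D F ≤ ∑ d' ∈ D', ∑ n ∈ Finset.range N,
      F (n : ℤ) * F ((n : ℤ) - d') * F ((n : ℤ) - d') := by
  unfold Fin_dg
  refine Finset.sum_le_sum fun d' _ => ?_
  split_ifs
  · exact le_rfl
  · exact Finset.sum_nonneg fun n _ => mul_nonneg (mul_nonneg (hF _) (hF _)) (hF _)

lemma Fin_dg_model (N : ℕ) {H : ℕ} {D' : Finset ℕ} (D : Finset ℕ) (hD : D' ⊆ Finset.Icc 1 H)
    {F : ℤ → ℝ} {B : ℝ} (hF : ∀ n, 0 ≤ F n) (hB : ∀ n, F n ≤ B) :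
    Fin_dg N D' D F ≤ H * (N * B ^ 3) := by
  have hB0 : 0 ≤ B := (hF 0).trans (hB 0)
  refine (Fin_dg_le N D' D hF).trans ?_
  have h1 : ∀ d' ∈ D', ∑ n ∈ Finset.range N, F (n : ℤ) * F ((n : ℤ) - d') * F ((n : ℤ) - d') ≤
      N * B ^ 3 := by
    intro d' _
    have h2 : ∀ n ∈ Finset.range N, F (n : ℤ) * F ((n : ℤ) - d') * F ((n : ℤ) - d') ≤ B ^ 3 := by
      intro n _
      have h3 : F (n : ℤ) * F ((n : ℤ) - d') ≤ B * B := mul_le_mul (hB _) (hB _) (hF _) hB0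
      have h4 := mul_le_mul h3 (hB ((n : ℤ) - d')) (hF _) (mul_nonneg hB0 hB0)
      calc _ ≤ _ := h4
        _ = B ^ 3 := by ring
    have h3 := Finset.sum_le_card_nsmul _ _ _ h2
    rwa [Finset.card_range, nsmul_eq_mul] at h3
  have h2 := Finset.sum_le_card_nsmul _ _ _ h1
  rw [nsmul_eq_mul] at h2
  refine h2.trans (mul_le_mul_of_nonneg_right ?_ (by positivity))
  have h3 := Finset.card_le_card hD
  rw [Nat.card_Icc] at h3
  have h4 : D'.card ≤ H := by omega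
  exact_mod_cast h4

lemma Fin_dg_f {x : ℝ} (hx : 1 ≤ x) {H : ℕ} (Q : Finset ℕ) {D' : Finset ℕ} (D : Finset ℕ)
    (hD : D' ⊆ Finset.Icc 1 H) (N : ℕ) :
    Fin_dg N D' D (Fin_f x Q) ≤ Real.log x * ∑ n ∈ Finset.range N, La x (n : ℤ) *
      nf (Finset.Icc 1 (H : ℤ)) (La x) (n : ℤ) := by
  have hL : 0 ≤ Real.log x := Real.log_nonneg hx
  refine (Fin_dg_le N D' D (fun n => (Fin_f_bd hx Q n).1)).trans ?_
  have h1 : ∑ d' ∈ D', ∑ n ∈ Finset.range N,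
      Fin_f x Q (n : ℤ) * Fin_f x Q ((n : ℤ) - d') * Fin_f x Q ((n : ℤ) - d') ≤
      ∑ d' ∈ D', ∑ n ∈ Finset.range N, Real.log x * (La x (n : ℤ) * La x ((n : ℤ) - d')) := by
    refine Finset.sum_le_sum fun d' _ => Finset.sum_le_sum fun n _ => ?_
    have a := Fin_f_bd hx Q (n : ℤ)
    have b := Fin_f_bd hx Q ((n : ℤ) - d')
    have c := La_le hx ((n : ℤ) - d')
    have h2 : Fin_f x Q (n : ℤ) * Fin_f x Q ((n : ℤ) - d') ≤ La x (n : ℤ) * La x ((n : ℤ) - d') :=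
      mul_le_mul a.2 b.2 b.1 (La_nonneg hx _)
    rw [mul_comm (Real.log x)]
    exact mul_le_mul h2 (b.2.trans c) b.1 (mul_nonneg (La_nonneg hx _) (La_nonneg hx _))
  refine h1.trans ?_
  rw [Finset.sum_comm, Finset.mul_sum]
  refine Finset.sum_le_sum fun n _ => ?_
  rw [← Finset.mul_sum, ← Finset.mul_sum, ← Fin_nf]
  refine mul_le_mul_of_nonneg_left (mul_le_mul_of_nonneg_left ?_ (La_nonneg hx _)) hL
  unfold nf
  exact Finset.sum_le_sum_of_subset_of_nonneg (Fin_Z_sub hD) fun d _ _ => La_nonneg hx _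

/-- the diagonal of the primes -/
lemma Fin_amgm (N : ℕ) (a T : ℕ → ℝ) (ha : ∀ n, 0 ≤ a n) (L lam : ℝ) (hl : 0 < lam) :
    L * ∑ n ∈ Finset.range N, a n * T n ≤ L ^ 2 / (2 * lam) * ∑ n ∈ Finset.range N, a n +
      lam / 2 * ∑ n ∈ Finset.range N, a n * T n ^ 2 := by
  rw [Finset.mul_sum, Finset.mul_sum, Finset.mul_sum, ← Finset.sum_add_distrib]
  refine Finset.sum_le_sum fun n _ => ?_
  have h1 : L * T n ≤ L ^ 2 / (2 * lam) + lam / 2 * T n ^ 2 := by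
    have h2 : 0 ≤ (L - lam * T n) ^ 2 / (2 * lam) := by positivity
    have h3 : (L - lam * T n) ^ 2 / (2 * lam) = L ^ 2 / (2 * lam) + lam / 2 * T n ^ 2 - L * T n := by
      field_simp
      ring
    rw [h3] at h2
    linarith
  have h2 := mul_le_mul_of_nonneg_left h1 (ha n)
  calc L * (a n * T n) = a n * (L * T n) := by ring
    _ ≤ _ := h2
    _ = _ := by ring

lemma Fin_grow (c : ℝ) (hc : 0 < c) : ∃ X : ℝ, ∀ x : ℝ, X ≤ x →
    1 ≤ Real.log x ∧ Real.log x ^ 3 * (x ^ (1 / 4 : ℝ) + Real.log x ^ 2 + 1) ≤ c * x := by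
  have hc3 : 0 < c / 3 := by positivity
  have h1 := (isLittleO_log_rpow_rpow_atTop (r := 3) (s := 3 / 4) (by norm_num)).bound hc3
  have h2 := (Real.isLittleO_pow_log_id_atTop (n := 5)).bound hc3
  have h3 := (Real.isLittleO_pow_log_id_atTop (n := 3)).bound hc3
  have h4 : ∀ᶠ x : ℝ in Filter.atTop, Real.exp 1 ≤ x := Filter.eventually_ge_atTop _
  obtain ⟨X, hX⟩ := Filter.eventually_atTop.1 (h1.and (h2.and (h3.and h4)))
  refine ⟨X, fun x hx => ?_⟩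
  obtain ⟨g1, g2, g3, g4⟩ := hX x hx
  have hx0 : 0 < x := (Real.exp_pos 1).trans_le g4
  have hL : 1 ≤ Real.log x := (Real.le_log_iff_exp_le hx0).2 g4
  obtain ⟨L, hLd⟩ : ∃ L, L = Real.log x := ⟨_, rfl⟩
  rw [← hLd] at g1 g2 g3 hL ⊢
  have hL0 : 0 ≤ L := by linarith
  have e3 : L ^ (3 : ℝ) = L ^ 3 := by
    rw [show (3 : ℝ) = ((3 : ℕ) : ℝ) by norm_num, Real.rpow_natCast]
  rw [e3, Real.norm_of_nonneg (by positivity), Real.norm_of_nonneg (by positivity)] at g1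
  rw [Real.norm_of_nonneg (by positivity), id, Real.norm_of_nonneg hx0.le] at g2 g3
  refine ⟨hL, ?_⟩
  have e4 : x ^ (3 / 4 : ℝ) * x ^ (1 / 4 : ℝ) = x := by
    rw [← Real.rpow_add hx0, show (3 / 4 + 1 / 4 : ℝ) = 1 by norm_num, Real.rpow_one]
  have g1' : L ^ 3 * x ^ (1 / 4 : ℝ) ≤ c / 3 * x := by
    calc L ^ 3 * x ^ (1 / 4 : ℝ) ≤ c / 3 * x ^ (3 / 4 : ℝ) * x ^ (1 / 4 : ℝ) :=
          mul_le_mul_of_nonneg_right g1 (by positivity)
      _ = c / 3 * (x ^ (3 / 4 : ℝ) * x ^ (1 / 4 : ℝ)) := by ring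
      _ = _ := by rw [e4]
  have e5 : L ^ 3 * (x ^ (1 / 4 : ℝ) + L ^ 2 + 1) = L ^ 3 * x ^ (1 / 4 : ℝ) + L ^ 5 + L ^ 3 := by ring
  rw [e5]
  linarith

lemma Fin_wp {x : ℝ} (hL : 1 ≤ Real.log x) : wp (yy x) ^ 3 ≤ Real.log x := by
  have h1 := WW_yy_pow_le hL
  have hW : (1 : ℝ) ≤ WW (yy x) := by exact_mod_cast WW_pos (yy x)
  have h2 : wp (yy x) ≤ WW (yy x) := by
    unfold wp
    refine div_le_self (by linarith) ?_
    exact_mod_cast Nat.totient_pos.mpr (WW_pos (yy x))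
  have h3 : wp (yy x) ^ 3 ≤ (WW (yy x) : ℝ) ^ 3 := pow_le_pow_left₀ (wp_pos _).le h2 3
  have h4 : (WW (yy x) : ℝ) ^ 3 ≤ (WW (yy x) : ℝ) ^ 34 := pow_le_pow_right₀ hW (by norm_num)
  have h5 : Real.sqrt (Real.log x) ≤ Real.log x := by
    rw [Real.sqrt_le_left (by linarith)]
    nlinarith
  linarith

lemma Fin_mono {x : ℝ} {H : ℕ} {e e' : ℝ} {f g : ℤ → ℝ} (h : Dense x H e f g) (he : e ≤ e') :
    Dense x H e' f g := by
  obtain ⟨h1, h2, h3, h4, h5⟩ := h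
  have hN : (0 : ℝ) ≤ (⌊x⌋₊ : ℝ) + 1 := by positivity
  exact ⟨h1, h2, h3, fun c q hc => (h4 c q hc).trans (mul_le_mul_of_nonneg_right he hN),
    fun c q c' q' hc hc' => (h5 c q c' q' hc hc').trans (mul_le_mul_of_nonneg_right he hN)⟩

theorem DMfin (ε : ℝ) (hε : 0 < ε) : ∃ K X : ℝ, ∀ x : ℝ, X ≤ x → ∀ H : ℕ, K * Real.log x ≤ (H : ℝ) →
    (H : ℝ) ≤ (Real.log x) ^ 2 → ∀ Q : Finset ℕ, (∀ p ∈ Q, p.Prime ∧ (p : ℝ) ≤ x) →
    ∃ g : ℤ → ℝ, (∀ n, 0 ≤ g n ∧ g n ≤ 4 + ε) ∧ (∀ n < 0, g n = 0) ∧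
      |(Q.card : ℝ) * Real.log x - ∑ n ∈ Finset.range (⌊x⌋₊ + 1), Mm (yy x) (n : ℤ) * g (n : ℤ)| ≤ ε * x ∧
      (∀ D : Finset ℕ, D ⊆ Finset.Icc 1 H →
        |(∑ d ∈ D, (pc Q d : ℝ)) * (Real.log x) ^ 2
          - ∑ d ∈ D, ∑ n ∈ Finset.range (⌊x⌋₊ + 1),
              (Mm (yy x) (n : ℤ) * g (n : ℤ)) * (Mm (yy x) ((n : ℤ) - d) * g ((n : ℤ) - d))| ≤ ε * (H : ℝ) * x) ∧
      (∀ D' D : Finset ℕ, D' ⊆ Finset.Icc 1 H → D ⊆ Finset.Icc 1 H →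
        |(∑ d' ∈ D', ∑ d ∈ D.erase d', (tc Q d' d : ℝ)) * (Real.log x) ^ 3
          - ∑ d' ∈ D', ∑ d ∈ D.erase d', ∑ n ∈ Finset.range (⌊x⌋₊ + 1),
              (Mm (yy x) (n : ℤ) * g (n : ℤ)) * (Mm (yy x) ((n : ℤ) - d') * g ((n : ℤ) - d')) *
                (Mm (yy x) ((n : ℤ) - d) * g ((n : ℤ) - d))| ≤ ε * (H : ℝ) ^ 2 * x) := by
  obtain ⟨e, he0, he1, heε⟩ : ∃ e : ℝ, 0 < e ∧ e ≤ 1 ∧ e ≤ ε :=
    ⟨min ε 1, lt_min hε one_pos, min_le_right _ _, min_le_left _ _⟩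
  obtain ⟨ep, hep, Kp, Xp, hp⟩ := R12p (e / 8) (by positivity)
  obtain ⟨et, het, Kt, Xt, ht⟩ := R12t (e / 8) (by positivity)
  obtain ⟨e', he'0, he'1, he'2, he'3⟩ : ∃ e' : ℝ, 0 < e' ∧ e' ≤ e / 8 ∧ e' ≤ ep ∧ e' ≤ et :=
    ⟨min (e / 8) (min ep et), lt_min (by positivity) (lt_min hep het), min_le_left _ _,
      (min_le_right _ _).trans (min_le_left _ _), (min_le_right _ _).trans (min_le_right _ _)⟩
  obtain ⟨K8, X8, h8⟩ := R8 e' he'0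
  obtain ⟨C, X3, hC, h3⟩ := Mo3
  obtain ⟨X1, h1⟩ := Mo1
  obtain ⟨X0, h0⟩ := Fin_grow (e / 8) (by positivity)
  obtain ⟨K, hK1, hK2, hK3, hK4, hK5, hK6⟩ : ∃ K : ℝ, Kp ≤ K ∧ Kt ≤ K ∧ K8 ≤ K ∧ 1 ≤ K ∧
      1000 / e ≤ K ∧ 128 * C / e ^ 2 ≤ K :=
    ⟨max Kp (max Kt (max K8 (max 1 (max (1000 / e) (128 * C / e ^ 2))))), by simp, by simp, by simp,
      by simp, by simp, by simp⟩
  refine ⟨K, max Xp (max Xt (max X8 (max X3 (max X1 (max X0 1))))), fun x hx H hH1 hH2 Q hQ => ?_⟩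
  simp only [max_le_iff] at hx
  obtain ⟨hxp, hxt, hx8, hx3, hx1, hx0, hx⟩ := hx
  obtain ⟨hL, hgr⟩ := h0 x hx0
  have hL0 : 0 ≤ Real.log x := by linarith
  have hKL : Real.log x ≤ K * Real.log x := by nlinarith
  have hHL : Real.log x ≤ H := hKL.trans hH1
  have hb : ∀ n, 0 ≤ Fin_f x Q n ∧ Fin_f x Q n ≤ La x n := Fin_f_bd hx Q
  obtain ⟨g, hg1, hg2, hg3, hg4, hg5⟩ := h8 x hx8 H
    ((mul_le_mul_of_nonneg_right hK3 hL0).trans hH1) hH2 (Fin_f x Q) hb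
  have hD : Dense x H e' (Fin_f x Q) g :=
    ⟨hb, fun n => ⟨(hg1 n).1, (hg1 n).2.trans (by linarith)⟩, hg2, hg4, hg5⟩
  have hfp := hp x hxp H ((mul_le_mul_of_nonneg_right hK1 hL0).trans hH1) hH2 _ _
    (Fin_mono hD he'2)
  have hft := ht x hxt H ((mul_le_mul_of_nonneg_right hK2 hL0).trans hH1) hH2 _ _
    (Fin_mono hD he'3)
  have m3 := h3 x hx3 H hHL hH2
  have m1 := h1 x hx1
  obtain ⟨N, hN⟩ : ∃ N : ℕ, N = ⌊x⌋₊ + 1 := ⟨_, rfl⟩
  have hNr : (N : ℝ) = (⌊x⌋₊ : ℝ) + 1 := by rw [hN]; push_cast; rfl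
  have hNx : (N : ℝ) ≤ 2 * x := by
    have := Nat.floor_le (show 0 ≤ x by linarith)
    linarith
  have hN0 : (0 : ℝ) ≤ N := Nat.cast_nonneg _
  have hQN : ∀ p ∈ Q, p < N := by
    intro p hp
    rw [hN]
    exact Nat.lt_succ_of_le (Nat.le_floor (hQ p hp).2)
  rw [← hN] at hg3 hfp hft m3 m1 ⊢
  rw [← hNr] at hg3 hfp hft m3 m1
  obtain ⟨G, hG⟩ : ∃ G : ℤ → ℝ, G = fun n => Mm (yy x) n * g n := ⟨_, rfl⟩
  have hGn : ∀ n, G n = Mm (yy x) n * g n := fun n => by rw [hG]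
  have hG0 : ∀ n, 0 ≤ G n := fun n => by
    rw [hGn]
    exact mul_nonneg (Mm_nonneg _ _) (hg1 n).1
  have hG5 : ∀ n, G n ≤ 5 * wp (yy x) := fun n => by
    rw [hGn, mul_comm 5]
    exact mul_le_mul (Mm_le _ _) ((hg1 n).2.trans (by linarith)) (hg1 n).1 (wp_pos _).le
  rw [← hG] at hfp hft
  simp only [← hGn] at hg3 hfp hft
  obtain ⟨L, hLd⟩ : ∃ L, L = Real.log x := ⟨_, rfl⟩
  have hfL : ∀ n, Fin_f x Q n = L * Fin_chi x Q n := by
    rw [hLd]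
    exact Fin_f_eq hQ
  obtain ⟨E0, hE0⟩ : ∃ E0 : ℝ, E0 = x ^ (1 / 4 : ℝ) + H + 1 := ⟨_, rfl⟩
  have hE0p : 0 ≤ E0 := by rw [hE0]; positivity
  have hwp := Fin_wp hL
  rw [← hLd] at hL hgr hL0 hKL hHL hH1 hH2 hwp ⊢
  have hEL : L ^ 3 * E0 ≤ e / 8 * x := by
    refine (mul_le_mul_of_nonneg_left ?_ (by positivity)).trans hgr
    rw [hE0]
    linarith
  have hE1 : L * E0 ≤ e / 8 * x := by
    refine (mul_le_mul_of_nonneg_right ?_ hE0p).trans hEL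
    nlinarith [mul_nonneg hL0 hL0]
  have hE2 : L ^ 2 * E0 ≤ e / 8 * x := by
    refine (mul_le_mul_of_nonneg_right ?_ hE0p).trans hEL
    exact pow_le_pow_right₀ hL (by norm_num)
  have hH0 : (0 : ℝ) ≤ H := Nat.cast_nonneg _
  have hx00 : 0 ≤ x := by linarith
  have heN : e / 8 * N ≤ e / 4 * x := by nlinarith
  refine ⟨g, fun n => ⟨(hg1 n).1, (hg1 n).2.trans (by linarith)⟩, fun n hn => hg2 n (Or.inl hn),
    ?_, ?_, ?_⟩
  · simp only [← hGn]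
    have c1 := Fin_c1 hx00 (Q := Q) (H := H) N hQN
    rw [← hE0] at c1
    have e1 : ∑ n ∈ Finset.range N, (Fin_f x Q (n : ℤ) - G (n : ℤ)) =
        L * ∑ n ∈ Finset.range N, Fin_chi x Q (n : ℤ) - ∑ n ∈ Finset.range N, G (n : ℤ) := by
      rw [Finset.sum_sub_distrib, Finset.mul_sum]
      simp only [hfL]
    rw [e1] at hg3
    have e2 : (Q.card : ℝ) * L - ∑ n ∈ Finset.range N, G (n : ℤ) =
        L * ((Q.card : ℝ) - ∑ n ∈ Finset.range N, Fin_chi x Q (n : ℤ)) +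
        (L * ∑ n ∈ Finset.range N, Fin_chi x Q (n : ℤ) - ∑ n ∈ Finset.range N, G (n : ℤ)) := by ring
    rw [e2]
    refine (abs_add_le _ _).trans ?_
    rw [abs_mul, abs_of_nonneg hL0]
    have h5 : L * |(Q.card : ℝ) - ∑ n ∈ Finset.range N, Fin_chi x Q (n : ℤ)| ≤ L * E0 :=
      mul_le_mul_of_nonneg_left c1 hL0
    have h6 : e' * N ≤ e / 8 * N := mul_le_mul_of_nonneg_right he'1 hN0
    have h7 : e * x ≤ ε * x := mul_le_mul_of_nonneg_right heε hx00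
    have h8 : 0 ≤ e * x := mul_nonneg he0.le hx00
    linarith
  · simp only [← hGn]
    intro D hDH
    have hp' := hfp (Fin_Z D) (Fin_Z_sub hDH)
    rw [Fin_S2, Fin_S2] at hp'
    have e1 : ∑ d ∈ D, ∑ n ∈ Finset.range N, Fin_f x Q (n : ℤ) * Fin_f x Q ((n : ℤ) - d) =
        L ^ 2 * ∑ d ∈ D, ∑ n ∈ Finset.range N, Fin_chi x Q (n : ℤ) * Fin_chi x Q ((n : ℤ) - d) := by
      rw [Finset.mul_sum]
      refine Finset.sum_congr rfl fun d _ => ?_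
      rw [Finset.mul_sum]
      refine Finset.sum_congr rfl fun n _ => ?_
      rw [hfL, hfL]
      ring
    rw [e1] at hp'
    have c2 : |∑ d ∈ D, (pc Q d : ℝ) -
        ∑ d ∈ D, ∑ n ∈ Finset.range N, Fin_chi x Q (n : ℤ) * Fin_chi x Q ((n : ℤ) - d)| ≤ H * E0 := by
      rw [← Finset.sum_sub_distrib]
      refine (Finset.abs_sum_le_sum_abs _ _).trans ?_
      have h5 : ∀ d ∈ D, |(pc Q d : ℝ) -
          ∑ n ∈ Finset.range N, Fin_chi x Q (n : ℤ) * Fin_chi x Q ((n : ℤ) - d)| ≤ E0 := by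
        intro d hd
        rw [hE0]
        exact Fin_c2 hx00 N hQN (Finset.mem_Icc.1 (hDH hd)).2
      have h6 := Finset.sum_le_card_nsmul _ _ _ h5
      rw [nsmul_eq_mul] at h6
      refine h6.trans (mul_le_mul_of_nonneg_right ?_ hE0p)
      have h7 := Finset.card_le_card hDH
      rw [Nat.card_Icc] at h7
      have h8 : D.card ≤ H := by omega
      exact_mod_cast h8
    obtain ⟨S, hS⟩ : ∃ S, S = ∑ d ∈ D, ∑ n ∈ Finset.range N,
      Fin_chi x Q (n : ℤ) * Fin_chi x Q ((n : ℤ) - d) := ⟨_, rfl⟩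
    obtain ⟨U, hU⟩ : ∃ U, U = ∑ d ∈ D, (pc Q d : ℝ) := ⟨_, rfl⟩
    obtain ⟨T, hT⟩ : ∃ T, T = ∑ d ∈ D, ∑ n ∈ Finset.range N, G (n : ℤ) * G ((n : ℤ) - d) := ⟨_, rfl⟩
    rw [← hS, ← hT] at hp'
    rw [← hS, ← hU] at c2
    rw [← hU, ← hT]
    have e2 : U * L ^ 2 - T = L ^ 2 * (U - S) + (L ^ 2 * S - T) := by ring
    rw [e2]
    refine (abs_add_le _ _).trans ?_
    rw [abs_mul, abs_of_nonneg (by positivity : 0 ≤ L ^ 2)]
    have h5 : L ^ 2 * |U - S| ≤ H * (e / 8 * x) := by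
      calc L ^ 2 * |U - S| ≤ L ^ 2 * (H * E0) := mul_le_mul_of_nonneg_left c2 (by positivity)
        _ = H * (L ^ 2 * E0) := by ring
        _ ≤ _ := mul_le_mul_of_nonneg_left hE2 hH0
    have h6 : e / 8 * N * H ≤ e / 4 * x * H := mul_le_mul_of_nonneg_right heN hH0
    have h7 : e * (H * x) ≤ ε * (H * x) := mul_le_mul_of_nonneg_right heε (by positivity)
    have h8 : 0 ≤ e * (H * x) := by positivity
    linarith
  · simp only [← hGn]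
    intro D' D hDH' hDH
    have hp' := hft (Fin_Z D') (Fin_Z D) (Fin_Z_sub hDH') (Fin_Z_sub hDH)
    rw [Fin_S4, Fin_S4] at hp'
    have e1 : ∑ d' ∈ D', ∑ d ∈ D.erase d', ∑ n ∈ Finset.range N,
        Fin_f x Q (n : ℤ) * Fin_f x Q ((n : ℤ) - d') * Fin_f x Q ((n : ℤ) - d) =
        L ^ 3 * ∑ d' ∈ D', ∑ d ∈ D.erase d', ∑ n ∈ Finset.range N,
          Fin_chi x Q (n : ℤ) * Fin_chi x Q ((n : ℤ) - d') * Fin_chi x Q ((n : ℤ) - d) := by
      rw [Finset.mul_sum]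
      refine Finset.sum_congr rfl fun d' _ => ?_
      rw [Finset.mul_sum]
      refine Finset.sum_congr rfl fun d _ => ?_
      rw [Finset.mul_sum]
      refine Finset.sum_congr rfl fun n _ => ?_
      rw [hfL, hfL, hfL]
      ring
    rw [e1] at hp'
    have c3 : |∑ d' ∈ D', ∑ d ∈ D.erase d', (tc Q d' d : ℝ) -
        ∑ d' ∈ D', ∑ d ∈ D.erase d', ∑ n ∈ Finset.range N,
          Fin_chi x Q (n : ℤ) * Fin_chi x Q ((n : ℤ) - d') * Fin_chi x Q ((n : ℤ) - d)| ≤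
        H * (H * E0) := by
      rw [← Finset.sum_sub_distrib]
      refine (Finset.abs_sum_le_sum_abs _ _).trans ?_
      have h5 : ∀ d' ∈ D', |∑ d ∈ D.erase d', (tc Q d' d : ℝ) -
          ∑ d ∈ D.erase d', ∑ n ∈ Finset.range N,
            Fin_chi x Q (n : ℤ) * Fin_chi x Q ((n : ℤ) - d') * Fin_chi x Q ((n : ℤ) - d)| ≤
          H * E0 := by
        intro d' hd'
        rw [← Finset.sum_sub_distrib]
        refine (Finset.abs_sum_le_sum_abs _ _).trans ?_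
        have h6 : ∀ d ∈ D.erase d', |(tc Q d' d : ℝ) - ∑ n ∈ Finset.range N,
            Fin_chi x Q (n : ℤ) * Fin_chi x Q ((n : ℤ) - d') * Fin_chi x Q ((n : ℤ) - d)| ≤ E0 := by
          intro d hd
          rw [hE0]
          exact Fin_c3 hx00 N hQN (Finset.mem_Icc.1 (hDH' hd')).2
            (Finset.mem_Icc.1 (hDH (Finset.mem_of_mem_erase hd))).2
        have h7 := Finset.sum_le_card_nsmul _ _ _ h6
        rw [nsmul_eq_mul] at h7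
        refine h7.trans (mul_le_mul_of_nonneg_right ?_ hE0p)
        have h8 := Finset.card_le_card ((Finset.erase_subset d' D).trans hDH)
        rw [Nat.card_Icc] at h8
        have h9 : (D.erase d').card ≤ H := by omega
        exact_mod_cast h9
      have h6 := Finset.sum_le_card_nsmul _ _ _ h5
      rw [nsmul_eq_mul] at h6
      refine h6.trans (mul_le_mul_of_nonneg_right ?_ (by positivity))
      have h7 := Finset.card_le_card hDH'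
      rw [Nat.card_Icc] at h7
      have h8 : D'.card ≤ H := by omega
      exact_mod_cast h8
    have d1 : Fin_dg N D' D (Fin_f x Q) ≤ e / 8 * N * H ^ 2 := by
      refine (Fin_dg_f hx Q D hDH' N).trans ?_
      rw [← hLd]
      have hlam : 0 < e / (8 * C) := by positivity
      refine (Fin_amgm N (fun n => La x (n : ℤ)) _ (fun n => La_nonneg hx _) L _ hlam).trans ?_
      have q1 : e / (8 * C) / 2 * ∑ n ∈ Finset.range N, La x (n : ℤ) *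
          nf (Finset.Icc 1 (H : ℤ)) (La x) (n : ℤ) ^ 2 ≤ e / (8 * C) / 2 * (C * N * H ^ 2) :=
        mul_le_mul_of_nonneg_left m3 (by positivity)
      have q2 : e / (8 * C) / 2 * (C * N * H ^ 2) = e / 16 * (N * H ^ 2) := by
        field_simp
        ring
      have q3 : L ^ 2 / (2 * (e / (8 * C))) * ∑ n ∈ Finset.range N, La x (n : ℤ) ≤
          L ^ 2 / (2 * (e / (8 * C))) * (2 * N) := mul_le_mul_of_nonneg_left m1 (by positivity)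
      have q4 : L ^ 2 / (2 * (e / (8 * C))) * (2 * N) = e / 16 * (N * (128 * C / e ^ 2 * L ^ 2)) := by
        field_simp
        ring
      have q5 : 128 * C / e ^ 2 * L ^ 2 ≤ H ^ 2 := by
        have q6 : (K * L) ^ 2 ≤ (H : ℝ) ^ 2 := pow_le_pow_left₀ (by positivity) hH1 2
        refine le_trans ?_ q6
        rw [mul_pow]
        refine mul_le_mul_of_nonneg_right ?_ (by positivity)
        nlinarith
      have q7 : e / 16 * (N * (128 * C / e ^ 2 * L ^ 2)) ≤ e / 16 * (N * H ^ 2) :=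
        mul_le_mul_of_nonneg_left (mul_le_mul_of_nonneg_left q5 hN0) (by positivity)
      linarith
    have d2 : Fin_dg N D' D G ≤ e / 8 * N * H ^ 2 := by
      refine (Fin_dg_model N D hDH' hG0 hG5).trans ?_
      have q1 : (5 * wp (yy x)) ^ 3 ≤ e / 8 * H := by
        have q2 : 1000 / e * L ≤ H := (mul_le_mul_of_nonneg_right hK5 hL0).trans hH1
        have q3 : e / 8 * (1000 / e * L) ≤ e / 8 * H := mul_le_mul_of_nonneg_left q2 (by positivity)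
        have q4 : e / 8 * (1000 / e * L) = 125 * L := by
          field_simp
          ring
        have q5 : (5 * wp (yy x)) ^ 3 = 125 * wp (yy x) ^ 3 := by ring
        rw [q5]
        linarith
      calc (H : ℝ) * (N * (5 * wp (yy x)) ^ 3) ≤ H * (N * (e / 8 * H)) := by
            refine mul_le_mul_of_nonneg_left (mul_le_mul_of_nonneg_left q1 hN0) hH0
        _ = _ := by ring
    have n1 := Fin_dg_nonneg N D' D (F := Fin_f x Q) (fun n => (hb n).1)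
    have n2 := Fin_dg_nonneg N D' D hG0
    obtain ⟨S, hS⟩ : ∃ S, S = ∑ d' ∈ D', ∑ d ∈ D.erase d', ∑ n ∈ Finset.range N,
      Fin_chi x Q (n : ℤ) * Fin_chi x Q ((n : ℤ) - d') * Fin_chi x Q ((n : ℤ) - d) := ⟨_, rfl⟩
    obtain ⟨U, hU⟩ : ∃ U, U = ∑ d' ∈ D', ∑ d ∈ D.erase d', (tc Q d' d : ℝ) := ⟨_, rfl⟩
    obtain ⟨T, hT⟩ : ∃ T, T = ∑ d' ∈ D', ∑ d ∈ D.erase d', ∑ n ∈ Finset.range N,
      G (n : ℤ) * G ((n : ℤ) - d') * G ((n : ℤ) - d) := ⟨_, rfl⟩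
    rw [← hS, ← hT] at hp'
    rw [← hS, ← hU] at c3
    rw [← hU, ← hT]
    have e2 : U * L ^ 3 - T = L ^ 3 * (U - S) + ((L ^ 3 * S + Fin_dg N D' D (Fin_f x Q) -
      (T + Fin_dg N D' D G)) + (Fin_dg N D' D G - Fin_dg N D' D (Fin_f x Q))) := by ring
    have h5 : L ^ 3 * |U - S| ≤ H * (H * (e / 8 * x)) := by
      calc L ^ 3 * |U - S| ≤ L ^ 3 * (H * (H * E0)) := mul_le_mul_of_nonneg_left c3 (by positivity)
        _ = H * (H * (L ^ 3 * E0)) := by ring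
        _ ≤ _ := mul_le_mul_of_nonneg_left (mul_le_mul_of_nonneg_left hEL hH0) hH0
    have h6 : e / 8 * N * H ^ 2 ≤ e / 4 * x * H ^ 2 := mul_le_mul_of_nonneg_right heN (by positivity)
    have h7 : e * (H ^ 2 * x) ≤ ε * (H ^ 2 * x) := mul_le_mul_of_nonneg_right heε (by positivity)
    have h8 : 0 ≤ e * (H ^ 2 * x) := by positivity
    have h9 : |Fin_dg N D' D G - Fin_dg N D' D (Fin_f x Q)| ≤ e / 8 * N * H ^ 2 := by
      rw [abs_le]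
      constructor <;> linarith
    rw [e2]
    refine (abs_add_le _ _).trans ?_
    rw [abs_mul, abs_of_nonneg (by positivity : 0 ≤ L ^ 3)]
    have h10 := abs_add_le (L ^ 3 * S + Fin_dg N D' D (Fin_f x Q) - (T + Fin_dg N D' D G))
      (Fin_dg N D' D G - Fin_dg N D' D (Fin_f x Q))
    linarith

end Pool.Agent.H12.DM
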