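import Pool.Agent.H12.DM.Df
import Pool.Agent.H6.MB.ASC

/-!
# K1: the sharp majorant and its variance in windows

`L = log x`, `N = ⌊x⌋₊ + 1`, `W = WW (yy x)`, `φ = wphi x = wp (yy x)`. Let `η₀ = min (η/400) (1/100)` and `(ν₀, μ, c, C)` from `MAJ η₀`; `ν = ν₀/μ`.

1. Majorant: if `La x n ≠ 0` then `n` is a prime `> x^(1/4)`, so (`x` large, `x^(1/4) > yy x`) coprime to `W`, `Mm (yy x) n = φ`, `ν₀ n ≥ 1`, and
   `μ ≤ (4 + 32 η₀) φ/L`, so `La x n = L ≤ (4 + 32η₀) φ/μ ≤ (4+η) φ ν n`.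
2. Size: for `0 ≤ m < N + H`, `H ≤ L^2`, write `m = n + a` with `0 ≤ n < N`, `0 ≤ a ≤ L^2` and let `t = n % W`; the third sum of `MAJ` contains `ν₀(m)^2`, so
   `ν₀(m)^2 ≤ C (N/W) μ`, `ν(m)^2 ≤ C N/μ ≤ C N L/(c φ)`, and this is `≤ x^(3/2)` for large `x`.
3. Variance. Let `t < W`, `κ : ℕ → ℝ`, first `0 ≤ κ ≤ 1`. Put `κ'(e) = κ(e) Mm (t+e)` (`Mm (b+e) = Mm (t+e)` for `b` in the class `t`, `Mm_period`), so `0 ≤ κ' ≤ φ` and
   `∑_{e<H} κ' ≤ ∑_{e<H} Mm (t+e) ≤ H + W ≤ 2H` (each full period has sum `W`: `wp * φ(W) = W`).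
   `∑_{b∈cls x t} (∑_e κ'(e) (ν(b+e) - 1))^2 = ∑_{e,e'} κ'(e)κ'(e') ∑_b (ν(b+e)ν(b+e') - ν(b+e) - ν(b+e') + 1)`.
   * `e ≠ e'` (both `< H ≤ 3L^2`): by `MAJ` (second, first) and `#cls ≤ N/W + 1` (`ASC_cls_card`):
     `∑_b(…) ≤ (1+η₀)(N/W) - 2(1-η₀)(N/W) + N/W + 1 = 3η₀ (N/W) + 1 ≤ 4η₀ (N/W)`.
   * `e = e'`: `∑_b (ν(b+e) - 1)^2 ≤ ∑_b ν(b+e)^2 + ∑_b 1 ≤ C (N/W)/μ + 2 (N/W) ≤ (C L/(cφ) + 2)(N/W)` and
     `∑_e κ'(e)^2 ≤ φ * 2H`: contribution `≤ 2H (C L/c + 2φ) (N/W) ≤ C' H L (N/W)` (`φ ≤ W ≤ L`, `FOU_W`-type bound `MAJ_W`).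
   Total `≤ (N/W) (4 η₀ (2H)^2 + C' H L) ≤ (N/W) H^2 (16 η₀ + C'/K)`.
   General `κ` with `|κ| ≤ 1`: `κ = κ⁺ - κ⁻` and `(u-v)^2 ≤ 2u^2 + 2v^2`: total `≤ 4 (16η₀ + C'/K) (N/W) H^2 ≤ η (N/W) H^2` for `K` large.
-/

set_option autoImplicit false

namespace Pool.Agent.H12.DM

open Finset Pool.Agent.H17 Pool.Agent.H6.MF Pool.Agent.H6.MB

/-- `ν` is a majorant with small variance in windows of length `H` -/
def GoodN (η x : ℝ) (H : ℕ) (ν : ℤ → ℝ) : Prop :=
  (∀ n, 0 ≤ ν n) ∧ (∀ n : ℤ, La x n ≤ (4 + η) * Mm (yy x) n * ν n) ∧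
  (∀ n : ℤ, 0 ≤ n → n < (⌊x⌋₊ : ℤ) + 1 + H → ν n ≤ x ^ (3 / 4 : ℝ)) ∧
  (∀ t : ℕ, t < WW (yy x) → ∀ κ : ℕ → ℝ, (∀ e, |κ e| ≤ 1) →
    ∑ b ∈ cls x t, (∑ e ∈ Finset.range H, κ e * Mm (yy x) ((b : ℤ) + e) * (ν ((b : ℤ) + e) - 1)) ^ 2
      ≤ η * (((⌊x⌋₊ : ℝ) + 1) / (WW (yy x) : ℝ)) * (H : ℝ) ^ 2)

lemma K1_var (S : Finset ℕ) (H : ℕ) (κ : ℕ → ℝ) (F : ℕ → ℕ → ℝ) (N' η₀ C₁ φ T : ℝ) (hκ : ∀ e, 0 ≤ κ e)
    (hκφ : ∀ e, κ e ≤ φ) (hT : ∑ e ∈ Finset.range H, κ e ≤ T) (hF : ∀ e b, 0 ≤ F e b)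
    (h1 : ∀ e ∈ Finset.range H, (1 - η₀) * N' ≤ ∑ b ∈ S, F e b)
    (h2 : ∀ e ∈ Finset.range H, ∀ e' ∈ Finset.range H, e ≠ e' → ∑ b ∈ S, F e b * F e' b ≤ (1 + η₀) * N')
    (h3 : ∀ e ∈ Finset.range H, ∑ b ∈ S, F e b ^ 2 ≤ C₁ * N')
    (hS : (S.card : ℝ) ≤ N' + 1) (hN1 : 1 ≤ η₀ * N') (hη₀ : 0 < η₀) (hη₁ : η₀ ≤ 1) (hN' : 0 < N') (hC₁ : 0 ≤ C₁) :
    ∑ b ∈ S, (∑ e ∈ Finset.range H, κ e * (F e b - 1)) ^ 2 ≤ N' * ((C₁ + 2) * φ * T + 4 * η₀ * T ^ 2) := by
  obtain ⟨T', hT'⟩ : ∃ T', T' = ∑ e ∈ Finset.range H, κ e := ⟨_, rfl⟩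
  rw [← hT'] at hT
  have hT'0 : 0 ≤ T' := by rw [hT']; exact Finset.sum_nonneg fun e _ => hκ e
  have hφ : 0 ≤ φ := (hκ 0).trans (hκφ 0)
  have e1 : ∀ b ∈ S, (∑ e ∈ Finset.range H, κ e * (F e b - 1)) ^ 2
      = ∑ e ∈ Finset.range H, ∑ e' ∈ Finset.range H, κ e * κ e' * ((F e b - 1) * (F e' b - 1)) := by
    intro b _
    rw [sq, Finset.sum_mul_sum]
    refine Finset.sum_congr rfl fun e _ => Finset.sum_congr rfl fun e' _ => ?_
    ring
  rw [Finset.sum_congr rfl e1, Finset.sum_comm]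
  have hN'1 : 1 ≤ N' := by
    have : η₀ * N' ≤ 1 * N' := mul_le_mul_of_nonneg_right hη₁ hN'.le
    linarith
  have e2 : ∀ e ∈ Finset.range H, ∑ b ∈ S, ∑ e' ∈ Finset.range H, κ e * κ e' * ((F e b - 1) * (F e' b - 1))
      ≤ κ e * ((C₁ + 2) * φ * N') + κ e * (T' * (4 * η₀ * N')) := by
    intro e he
    rw [Finset.sum_comm, ← Finset.add_sum_erase _ _ he]
    refine add_le_add ?_ ?_
    · rw [← Finset.mul_sum]
      have a1 : ∑ b ∈ S, (F e b - 1) * (F e b - 1) ≤ (C₁ + 2) * N' := by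
        calc ∑ b ∈ S, (F e b - 1) * (F e b - 1) ≤ ∑ b ∈ S, (F e b ^ 2 + 1) := by
              refine Finset.sum_le_sum fun b _ => ?_
              have := hF e b
              linarith [sq_nonneg (F e b), show (F e b - 1) * (F e b - 1) = F e b ^ 2 - 2 * F e b + 1 by ring]
          _ = ∑ b ∈ S, F e b ^ 2 + S.card := by
              rw [Finset.sum_add_distrib, Finset.sum_const, nsmul_eq_mul, mul_one]
          _ ≤ C₁ * N' + (N' + 1) := add_le_add (h3 e he) hS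
          _ ≤ _ := by linarith
      calc κ e * κ e * ∑ b ∈ S, (F e b - 1) * (F e b - 1) ≤ κ e * κ e * ((C₁ + 2) * N') :=
            mul_le_mul_of_nonneg_left a1 (mul_nonneg (hκ e) (hκ e))
        _ ≤ κ e * φ * ((C₁ + 2) * N') :=
            mul_le_mul_of_nonneg_right (mul_le_mul_of_nonneg_left (hκφ e) (hκ e)) (by positivity)
        _ = _ := by ring
    · calc ∑ e' ∈ (Finset.range H).erase e, ∑ b ∈ S, κ e * κ e' * ((F e b - 1) * (F e' b - 1))
          ≤ ∑ e' ∈ (Finset.range H).erase e, κ e * (κ e' * (4 * η₀ * N')) := by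
            refine Finset.sum_le_sum fun e' he' => ?_
            have he'' := Finset.mem_erase.1 he'
            rw [← Finset.mul_sum]
            have a1 : ∑ b ∈ S, (F e b - 1) * (F e' b - 1) ≤ 4 * η₀ * N' := by
              have a2 : ∑ b ∈ S, (F e b - 1) * (F e' b - 1)
                  = ∑ b ∈ S, F e b * F e' b - ∑ b ∈ S, F e b - ∑ b ∈ S, F e' b + S.card := by
                have : ∀ b ∈ S, (F e b - 1) * (F e' b - 1) = F e b * F e' b - F e b - F e' b + 1 := fun b _ => by ring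
                rw [Finset.sum_congr rfl this, Finset.sum_add_distrib, Finset.sum_sub_distrib,
                  Finset.sum_sub_distrib, Finset.sum_const, nsmul_eq_mul, mul_one]
              rw [a2]
              have b1 := h1 e he
              have b2 := h1 e' he''.2
              have b3 := h2 e he e' he''.2 (Ne.symm he''.1)
              nlinarith
            calc κ e * κ e' * ∑ b ∈ S, (F e b - 1) * (F e' b - 1) ≤ κ e * κ e' * (4 * η₀ * N') :=
                  mul_le_mul_of_nonneg_left a1 (mul_nonneg (hκ e) (hκ e'))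
              _ = _ := by ring
        _ ≤ ∑ e' ∈ Finset.range H, κ e * (κ e' * (4 * η₀ * N')) :=
            Finset.sum_le_sum_of_subset_of_nonneg (Finset.erase_subset _ _) fun e' _ _ =>
              mul_nonneg (hκ e) (mul_nonneg (hκ e') (by positivity))
        _ = κ e * (T' * (4 * η₀ * N')) := by
            rw [← Finset.mul_sum, ← Finset.sum_mul, ← hT']
  refine (Finset.sum_le_sum e2).trans ?_
  rw [Finset.sum_add_distrib, ← Finset.sum_mul, ← Finset.sum_mul, ← hT']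
  have a1 : T' * ((C₁ + 2) * φ * N') ≤ T * ((C₁ + 2) * φ * N') :=
    mul_le_mul_of_nonneg_right hT (by positivity)
  have a2 : T' * (T' * (4 * η₀ * N')) ≤ T * (T * (4 * η₀ * N')) :=
    mul_le_mul hT (mul_le_mul_of_nonneg_right hT (by positivity)) (by positivity) (hT'0.trans hT)
  calc T' * ((C₁ + 2) * φ * N') + T' * (T' * (4 * η₀ * N')) ≤ T * ((C₁ + 2) * φ * N') + T * (T * (4 * η₀ * N')) :=
        add_le_add a1 a2
    _ = _ := by ring

lemma K1_pm (S : Finset ℕ) (H : ℕ) (κ : ℕ → ℝ) (G : ℕ → ℕ → ℝ) (B : ℝ) (hκ : ∀ e, |κ e| ≤ 1)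
    (h : ∀ κ' : ℕ → ℝ, (∀ e, 0 ≤ κ' e) → (∀ e, κ' e ≤ 1) →
      ∑ b ∈ S, (∑ e ∈ Finset.range H, κ' e * G e b) ^ 2 ≤ B) :
    ∑ b ∈ S, (∑ e ∈ Finset.range H, κ e * G e b) ^ 2 ≤ 4 * B := by
  have h1 := h (fun e => max (κ e) 0) (fun e => le_max_right _ _)
    (fun e => max_le ((le_abs_self _).trans (hκ e)) zero_le_one)
  have h2 := h (fun e => max (-κ e) 0) (fun e => le_max_right _ _)
    (fun e => max_le ((neg_le_abs _).trans (hκ e)) zero_le_one)
  calc ∑ b ∈ S, (∑ e ∈ Finset.range H, κ e * G e b) ^ 2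
      ≤ ∑ b ∈ S, (2 * (∑ e ∈ Finset.range H, max (κ e) 0 * G e b) ^ 2 +
          2 * (∑ e ∈ Finset.range H, max (-κ e) 0 * G e b) ^ 2) := by
        refine Finset.sum_le_sum fun b _ => ?_
        have e1 : ∑ e ∈ Finset.range H, κ e * G e b = ∑ e ∈ Finset.range H, max (κ e) 0 * G e b
            - ∑ e ∈ Finset.range H, max (-κ e) 0 * G e b := by
          rw [← Finset.sum_sub_distrib]
          refine Finset.sum_congr rfl fun e _ => ?_
          rw [← sub_mul]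
          congr 1
          exact (max_zero_sub_eq_self (κ e)).symm
        rw [e1]
        generalize ∑ e ∈ Finset.range H, max (κ e) 0 * G e b = u
        generalize ∑ e ∈ Finset.range H, max (-κ e) 0 * G e b = v
        nlinarith [sq_nonneg (u + v)]
    _ ≤ 2 * B + 2 * B := by
        rw [Finset.sum_add_distrib, ← Finset.mul_sum, ← Finset.mul_sum]
        exact add_le_add (mul_le_mul_of_nonneg_left h1 (by norm_num)) (mul_le_mul_of_nonneg_left h2 (by norm_num))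
    _ = _ := by ring

lemma K1_growth (C' : ℝ) (hC' : 0 < C') : ∃ X : ℝ, ∀ x : ℝ, X ≤ x →
    1 ≤ x ∧ 1 ≤ Real.log x ∧ Real.log x ≤ x ^ (1 / 4 : ℝ) ∧ C' * Real.log x ≤ x ^ (1 / 2 : ℝ) := by
  have h0 := (isLittleO_log_rpow_atTop (show (0 : ℝ) < 1 / 4 by norm_num)).bound (show (0 : ℝ) < 1 by norm_num)
  have h1 := (isLittleO_log_rpow_atTop (show (0 : ℝ) < 1 / 2 by norm_num)).bound (show (0 : ℝ) < 1 / C' by positivity)
  have h2 : ∀ᶠ x : ℝ in Filter.atTop, 1 ≤ Real.log x :=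
    Real.tendsto_log_atTop.eventually_ge_atTop 1
  obtain ⟨X, hX⟩ := Filter.eventually_atTop.1 (h0.and (h1.and (h2.and (Filter.eventually_ge_atTop 1))))
  refine ⟨X, fun x hx => ?_⟩
  obtain ⟨a0, a1, a2, a3⟩ := hX x hx
  have hx0 : 0 ≤ x := by linarith
  rw [Real.norm_eq_abs, Real.norm_eq_abs, abs_of_nonneg (by linarith : (0 : ℝ) ≤ Real.log x),
    abs_of_nonneg (Real.rpow_nonneg hx0 _)] at a0 a1
  refine ⟨a3, a2, by linarith, ?_⟩
  calc C' * Real.log x ≤ C' * (1 / C' * x ^ (1 / 2 : ℝ)) := mul_le_mul_of_nonneg_left a1 hC'.le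
    _ = _ := by field_simp

lemma K1_Mm_shift (y : ℕ) {b t : ℕ} (h : b % WW y = t) (e : ℤ) : Mm y ((b : ℤ) + e) = Mm y ((t : ℤ) + e) := by
  have h1 : (b : ℤ) + e = ((t : ℤ) + e) + ((b / WW y : ℕ) : ℤ) * (WW y : ℤ) := by
    have := Nat.mod_add_div b (WW y)
    rw [h] at this
    have h2 : (b : ℤ) = (t : ℤ) + (WW y : ℤ) * ((b / WW y : ℕ) : ℤ) := by exact_mod_cast this.symm
    linarith
  rw [h1, Mm_period]

lemma K1_Mm_sum (y t H : ℕ) : ∑ e ∈ Finset.range H, Mm y ((t : ℤ) + (e : ℤ)) ≤ (H : ℝ) + WW y := by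
  have h1 : ∀ e ∈ Finset.range H, Mm y ((t : ℤ) + (e : ℤ)) = if (WW y).Coprime (t + e) then wp y else 0 := by
    intro e _
    unfold Mm
    have : Int.gcd ((t : ℤ) + (e : ℤ)) (WW y : ℤ) = Nat.gcd (t + e) (WW y) := by
      rw [← Nat.cast_add]; exact Int.gcd_natCast_natCast _ _
    rw [this]
    by_cases hh : (WW y).Coprime (t + e)
    · rw [if_pos hh, if_pos (by rw [Nat.gcd_comm]; exact hh)]
    · rw [if_neg hh, if_neg (by rw [Nat.gcd_comm]; exact hh)]
  rw [Finset.sum_congr rfl h1, Finset.sum_ite, Finset.sum_const_zero, add_zero, Finset.sum_const, nsmul_eq_mul]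
  have h2 : ((Finset.range H).filter (fun e => (WW y).Coprime (t + e))).card
      = ((Finset.Ico t (t + H)).filter (fun n => (WW y).Coprime n)).card := by
    refine Finset.card_bij (fun e _ => t + e) ?_ ?_ ?_
    · intro e he
      rw [Finset.mem_filter, Finset.mem_range] at he
      rw [Finset.mem_filter, Finset.mem_Ico]
      exact ⟨⟨by omega, by omega⟩, he.2⟩
    · intro a _ b _ hab
      omega
    · intro n hn
      rw [Finset.mem_filter, Finset.mem_Ico] at hn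
      refine ⟨n - t, ?_, by omega⟩
      rw [Finset.mem_filter, Finset.mem_range]
      refine ⟨by omega, ?_⟩
      rw [show t + (n - t) = n by omega]
      exact hn.2
  have h3 := Nat.Ico_filter_coprime_le t H (WW_pos y).ne'
  rw [h2]
  have hphi := tot_pos_real y
  have hW := WW_pos_real y
  calc (((Finset.Ico t (t + H)).filter (fun n => (WW y).Coprime n)).card : ℝ) * wp y
      ≤ (((WW y).totient * (H / WW y + 1) : ℕ) : ℝ) * wp y :=
        mul_le_mul_of_nonneg_right (by exact_mod_cast h3) (wp_pos y).le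
    _ = (WW y : ℝ) * ((H / WW y : ℕ) : ℝ) + WW y := by
        unfold wp
        push_cast
        field_simp
    _ ≤ (H : ℝ) + WW y := by
        have : WW y * (H / WW y) ≤ H := Nat.mul_div_le _ _
        have h5 : (WW y : ℝ) * ((H / WW y : ℕ) : ℝ) ≤ H := by exact_mod_cast this
        linarith

lemma K1_wp_le (y : ℕ) : wp y ≤ WW y := by
  unfold wp
  have h1 : (1 : ℝ) ≤ (WW y).totient := by
    exact_mod_cast Nat.totient_pos.mpr (WW_pos y)
  exact div_le_self (WW_pos_real y).le h1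

theorem K1 (η : ℝ) (hη : 0 < η) : ∃ K X : ℝ, ∀ x : ℝ, X ≤ x → ∃ ν : ℤ → ℝ, ∀ H : ℕ, K * Real.log x ≤ (H : ℝ) →
    (H : ℝ) ≤ (Real.log x) ^ 2 → GoodN η x H ν := by
  obtain ⟨η₀, hη₀def⟩ : ∃ η₀, η₀ = min (η / 400) (1 / 100) := ⟨_, rfl⟩
  have hη₀ : 0 < η₀ := by rw [hη₀def]; exact lt_min (by positivity) (by norm_num)
  have hη₀1 : η₀ ≤ 1 / 100 := by rw [hη₀def]; exact min_le_right _ _
  have hη₀2 : η₀ ≤ η / 400 := by rw [hη₀def]; exact min_le_left _ _
  obtain ⟨C, c, X₁, hC, hc, hX₁⟩ := MAJ η₀ hη₀ hη₀1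
  obtain ⟨X₂, hX₂⟩ := ASC_large η₀ hη₀
  obtain ⟨X₃, hX₃⟩ := K1_growth (2 * C / c) (by positivity)
  refine ⟨max 1 (16 * (C / c + 2) / η), max X₁ (max X₂ X₃), fun x hx => ?_⟩
  obtain ⟨ν₀, μ, hν0, hν1, hμ1, hμ2, hM1, hM2, hM3⟩ := hX₁ x (le_trans (le_max_left _ _) hx)
  obtain ⟨hx0, hN1, -⟩ := hX₂ x (le_trans (le_trans (le_max_left _ _) (le_max_right _ _)) hx)
  obtain ⟨hx1, hL1, hLx, hCL⟩ := hX₃ x (le_trans (le_trans (le_max_right _ _) (le_max_right _ _)) hx)
  obtain ⟨L, hLdef⟩ : ∃ L, L = Real.log x := ⟨_, rfl⟩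
  have hL0 : 0 < Real.log x := by linarith
  have hxpos : 0 < x := by linarith
  have hWpos : (0 : ℝ) < (WW (yy x) : ℝ) := WW_pos_real _
  have hW1 : (1 : ℝ) ≤ (WW (yy x) : ℝ) := by exact_mod_cast WW_pos (yy x)
  have hWL : (WW (yy x) : ℝ) ≤ Real.log x := MAJ_W hL1
  have hφ1 : 1 ≤ wphi x := by rw [wphi_eq_wp]; exact one_le_wp _
  have hφW : wphi x ≤ WW (yy x) := by rw [wphi_eq_wp]; exact K1_wp_le _
  have hφL : wphi x ≤ Real.log x := hφW.trans hWL
  have hφ0 : 0 < wphi x := by linarith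
  have hμ0 : 0 < μ := lt_of_lt_of_le (by positivity) hμ1
  have hN0 : (0 : ℝ) < (⌊x⌋₊ : ℝ) + 1 := by positivity
  have hN'0 : 0 < ((⌊x⌋₊ : ℝ) + 1) / (WW (yy x) : ℝ) := by positivity
  refine ⟨fun n => ν₀ n / μ, fun H hH1 hH2 => ⟨?_, ?_, ?_, ?_⟩⟩
  · intro n
    exact div_nonneg (hν0 n) hμ0.le
  · intro n
    by_cases hn : isP n ∧ x ^ (1 / 4 : ℝ) < (n : ℝ) ∧ (n : ℝ) ≤ x
    · obtain ⟨hp, hn1, hn2⟩ := hn
      have hLa : La x n = Real.log x := by
        unfold La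
        rw [if_pos ⟨hp, hn1, hn2⟩]
      have hnat : ((n.toNat : ℕ) : ℤ) = n := by
        have hpp : n.toNat.Prime := hp
        have := hpp.pos
        omega
      have hpp : n.toNat.Prime := hp
      have hnr : ((n.toNat : ℕ) : ℝ) = (n : ℝ) := by
        have h1 : ((n.toNat : ℕ) : ℝ) = (((n.toNat : ℕ) : ℤ) : ℝ) := (Int.cast_natCast _).symm
        rw [h1, hnat]
      have hgt : x ^ (1 / 4 : ℝ) < ((n.toNat : ℕ) : ℝ) := by rw [hnr]; exact hn1
      have hν := hν1 n.toNat hpp hgt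
      rw [hnat] at hν
      have hcop : Int.gcd n (WW (yy x) : ℤ) = 1 := by
        rw [← hnat, Int.gcd_natCast_natCast]
        have : (n.toNat).Coprime (WW (yy x)) := by
          rw [coprime_WW]
          intro p hpP hdvd
          have hp1 := mem_PP.mp hpP
          rw [Nat.prime_dvd_prime_iff_eq hp1.2 hpp] at hdvd
          have hyy : (yy x : ℝ) ≤ Real.log x := by
            have h1 : (yy x : ℝ) ≤ Real.log (Real.log x) / 100 :=
              Nat.floor_le (div_nonneg (Real.log_nonneg hL1) (by norm_num))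
            have h2 : Real.log (Real.log x) ≤ Real.log x := Real.log_le_self hL0.le
            linarith
          have : (p : ℝ) ≤ yy x := by exact_mod_cast hp1.1
          rw [hdvd] at this
          linarith
        exact this
      have hMm : Mm (yy x) n = wphi x := by
        unfold Mm
        rw [if_pos hcop, wphi_eq_wp]
      rw [hLa, hMm]
      have h1 : Real.log x * μ ≤ (4 + 32 * η₀) * wphi x := by
        calc Real.log x * μ ≤ Real.log x * ((4 + 32 * η₀) * (wphi x / Real.log x)) :=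
              mul_le_mul_of_nonneg_left hμ2 hL0.le
          _ = _ := by field_simp
      have h2 : (4 + 32 * η₀) * wphi x ≤ (4 + η) * wphi x * ν₀ n := by
        have : (4 + 32 * η₀) * wphi x ≤ (4 + η) * wphi x :=
          mul_le_mul_of_nonneg_right (by linarith) hφ0.le
        calc (4 + 32 * η₀) * wphi x ≤ (4 + η) * wphi x * 1 := by linarith
          _ ≤ _ := mul_le_mul_of_nonneg_left hν (by positivity)
      show Real.log x ≤ (4 + η) * wphi x * (ν₀ n / μ)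
      rw [← mul_div_assoc, le_div_iff₀ hμ0]
      exact h1.trans h2
    · have hLa : La x n = 0 := by
        unfold La
        rw [if_neg hn]
      rw [hLa]
      exact mul_nonneg (mul_nonneg (by positivity) (Mm_nonneg _ _)) (div_nonneg (hν0 n) hμ0.le)
  · intro n hn0 hnN
    obtain ⟨b, hb⟩ : ∃ b : ℕ, b = min n.toNat ⌊x⌋₊ := ⟨_, rfl⟩
    obtain ⟨a, ha⟩ : ∃ a : ℕ, a = n.toNat - b := ⟨_, rfl⟩
    have hba : (b : ℤ) + (a : ℤ) = n := by omega
    have hbN : b < ⌊x⌋₊ + 1 := by omega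
    have haH : a ≤ H := by omega
    have haL : (a : ℝ) ≤ 3 * (Real.log x) ^ 2 := by
      have : (a : ℝ) ≤ H := by exact_mod_cast haH
      have h2 := sq_nonneg (Real.log x)
      linarith
    have hcls : b ∈ cls x (b % WW (yy x)) := by
      unfold cls
      rw [Finset.mem_filter, Finset.mem_range]
      exact ⟨hbN, rfl⟩
    have h3 := hM3 (b % WW (yy x)) (Nat.mod_lt _ (WW_pos _)) a haL
    have h4 : ν₀ n ^ 2 ≤ C * (((⌊x⌋₊ : ℝ) + 1) / (WW (yy x) : ℝ) * μ) := by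
      refine le_trans ?_ h3
      have := Finset.single_le_sum (f := fun n : ℕ => ν₀ ((n : ℤ) + a) ^ 2) (fun i _ => sq_nonneg _) hcls
      simp only [hba] at this
      exact this
    have hmuL : c / Real.log x ≤ μ := by
      refine le_trans ?_ hμ1
      calc c / Real.log x = c * (1 / Real.log x) := by ring
        _ ≤ c * (wphi x / Real.log x) :=
          mul_le_mul_of_nonneg_left (div_le_div_of_nonneg_right hφ1 hL0.le) hc.le
    have h5 : (ν₀ n / μ) ^ 2 ≤ (x ^ (3 / 4 : ℝ)) ^ 2 := by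
      have e1 : (x ^ (3 / 4 : ℝ)) ^ 2 = x * x ^ (1 / 2 : ℝ) := by
        rw [← Real.rpow_natCast, ← Real.rpow_mul hx0]
        nth_rewrite 2 [← Real.rpow_one x]
        rw [← Real.rpow_add hxpos]
        norm_num
      rw [e1, div_pow, div_le_iff₀ (by positivity)]
      refine h4.trans ?_
      have b1 : ((⌊x⌋₊ : ℝ) + 1) / (WW (yy x) : ℝ) ≤ 2 * x := by
        have : (⌊x⌋₊ : ℝ) ≤ x := Nat.floor_le hx0
        calc ((⌊x⌋₊ : ℝ) + 1) / (WW (yy x) : ℝ) ≤ (⌊x⌋₊ : ℝ) + 1 := div_le_self hN0.le hW1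
          _ ≤ 2 * x := by linarith
      have b2 : C ≤ C / c * Real.log x * μ := by
        have : c ≤ μ * Real.log x := by rwa [div_le_iff₀ hL0] at hmuL
        calc C = C / c * c := by field_simp
          _ ≤ C / c * (μ * Real.log x) := mul_le_mul_of_nonneg_left this (by positivity)
          _ = _ := by ring
      calc C * (((⌊x⌋₊ : ℝ) + 1) / (WW (yy x) : ℝ) * μ) ≤ (C / c * Real.log x * μ) * ((2 * x) * μ) :=
            mul_le_mul b2 (mul_le_mul_of_nonneg_right b1 hμ0.le) (by positivity) (by positivity)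
        _ = (2 * C / c * Real.log x) * (x * μ ^ 2) := by ring
        _ ≤ x ^ (1 / 2 : ℝ) * (x * μ ^ 2) := mul_le_mul_of_nonneg_right hCL (by positivity)
        _ = _ := by ring
    exact le_of_sq_le_sq h5 (Real.rpow_nonneg hx0 _)
  · intro t ht κ hκ
    have hK1 : Real.log x ≤ (H : ℝ) := by
      refine le_trans ?_ hH1
      calc Real.log x = 1 * Real.log x := by ring
        _ ≤ _ := mul_le_mul_of_nonneg_right (le_max_left _ _) hL0.le
    have hK2 : 16 * (C / c + 2) * Real.log x ≤ η * H := by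
      have h1 : 16 * (C / c + 2) / η * Real.log x ≤ (H : ℝ) :=
        le_trans (mul_le_mul_of_nonneg_right (le_max_right _ _) hL0.le) hH1
      calc 16 * (C / c + 2) * Real.log x = η * (16 * (C / c + 2) / η * Real.log x) := by field_simp
        _ ≤ _ := mul_le_mul_of_nonneg_left h1 hη.le
    have hH0 : (0 : ℝ) < H := by linarith
    have hcong : ∀ b ∈ cls x t, (∑ e ∈ Finset.range H, κ e * Mm (yy x) ((b : ℤ) + e) * (ν₀ ((b : ℤ) + e) / μ - 1)) ^ 2
        = (∑ e ∈ Finset.range H, κ e * (Mm (yy x) ((t : ℤ) + e) * (ν₀ ((b : ℤ) + e) / μ - 1))) ^ 2 := by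
      intro b hb
      have hb' : b % WW (yy x) = t := by
        unfold cls at hb
        exact (Finset.mem_filter.1 hb).2
      congr 1
      refine Finset.sum_congr rfl fun e _ => ?_
      rw [K1_Mm_shift (yy x) hb']
      ring
    show ∑ b ∈ cls x t, (∑ e ∈ Finset.range H, κ e * Mm (yy x) ((b : ℤ) + e) * (ν₀ ((b : ℤ) + e) / μ - 1)) ^ 2 ≤ _
    rw [Finset.sum_congr rfl hcong]
    obtain ⟨N', hN'⟩ : ∃ N' : ℝ, N' = ((⌊x⌋₊ : ℝ) + 1) / (WW (yy x) : ℝ) := ⟨_, rfl⟩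
    have hmain := K1_pm (cls x t) H κ (fun e b => Mm (yy x) ((t : ℤ) + e) * (ν₀ ((b : ℤ) + e) / μ - 1))
      (N' * ((C / μ + 2) * wphi x * (2 * H) + 4 * η₀ * (2 * H) ^ 2)) hκ (by
        intro κ' hk0 hk1
        have h3L : ∀ e ∈ Finset.range H, (e : ℝ) ≤ 3 * (Real.log x) ^ 2 := by
          intro e he
          have h1 : (e : ℝ) ≤ H := by exact_mod_cast (Finset.mem_range.1 he).le
          have h2 := sq_nonneg (Real.log x)
          linarith
        have hv := K1_var (cls x t) H (fun e => κ' e * Mm (yy x) ((t : ℤ) + e)) (fun e b => ν₀ ((b : ℤ) + e) / μ)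
          N' η₀ (C / μ) (wphi x) (2 * H)
          (fun e => mul_nonneg (hk0 e) (Mm_nonneg _ _))
          (fun e => by
            rw [wphi_eq_wp]
            calc κ' e * Mm (yy x) ((t : ℤ) + e) ≤ 1 * wp (yy x) :=
                  mul_le_mul (hk1 e) (Mm_le _ _) (Mm_nonneg _ _) zero_le_one
              _ = _ := one_mul _)
          (by
            calc ∑ e ∈ Finset.range H, κ' e * Mm (yy x) ((t : ℤ) + e) ≤ ∑ e ∈ Finset.range H, Mm (yy x) ((t : ℤ) + e) := by
                  refine Finset.sum_le_sum fun e _ => ?_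
                  exact mul_le_of_le_one_left (Mm_nonneg _ _) (hk1 e)
              _ ≤ (H : ℝ) + WW (yy x) := K1_Mm_sum _ _ _
              _ ≤ 2 * H := by linarith)
          (fun e b => div_nonneg (hν0 _) hμ0.le)
          (fun e he => by
            have h1 := hM1 t ht e (h3L e he)
            rw [← Finset.sum_div, le_div_iff₀ hμ0, hN']
            refine le_trans (le_of_eq ?_) h1
            ring)
          (fun e he e' he' hee => by
            have h1 := hM2 t ht e e' hee (h3L e he) (h3L e' he')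
            have h2 : ∑ b ∈ cls x t, ν₀ ((b : ℤ) + e) / μ * (ν₀ ((b : ℤ) + e') / μ)
                = (∑ b ∈ cls x t, ν₀ ((b : ℤ) + e) * ν₀ ((b : ℤ) + e')) / μ ^ 2 := by
              rw [Finset.sum_div]
              refine Finset.sum_congr rfl fun b _ => ?_
              field_simp
            rw [h2, div_le_iff₀ (by positivity), hN']
            refine le_trans h1 (le_of_eq ?_)
            ring)
          (fun e he => by
            have h1 := hM3 t ht e (h3L e he)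
            have h2 : ∑ b ∈ cls x t, (ν₀ ((b : ℤ) + e) / μ) ^ 2
                = (∑ b ∈ cls x t, ν₀ ((b : ℤ) + e) ^ 2) / μ ^ 2 := by
              rw [Finset.sum_div]
              refine Finset.sum_congr rfl fun b _ => ?_
              rw [div_pow]
            rw [h2, div_le_iff₀ (by positivity), hN']
            refine le_trans h1 (le_of_eq ?_)
            field_simp)
          (by rw [hN']; exact ASC_cls_card x t) (by rw [hN']; exact hN1) hη₀ (by linarith) (by rw [hN']; exact hN'0)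
          (by positivity)
        refine le_trans (le_of_eq ?_) hv
        refine Finset.sum_congr rfl fun b _ => ?_
        congr 1
        refine Finset.sum_congr rfl fun e _ => ?_
        ring)
    refine hmain.trans ?_
    rw [← hN']
    have hN'pos : 0 < N' := by rw [hN']; exact hN'0
    have hCmu : C / μ * wphi x ≤ C / c * Real.log x := by
      rw [div_mul_eq_mul_div, div_le_iff₀ hμ0]
      calc C * wphi x = C / c * Real.log x * (c * (wphi x / Real.log x)) := by field_simp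
        _ ≤ C / c * Real.log x * μ := mul_le_mul_of_nonneg_left hμ1 (by positivity)
    have h1 : (C / μ + 2) * wphi x ≤ (C / c + 2) * Real.log x := by
      calc (C / μ + 2) * wphi x = C / μ * wphi x + 2 * wphi x := by ring
        _ ≤ C / c * Real.log x + 2 * Real.log x := by linarith
        _ = _ := by ring
    have h2 : 4 * ((C / μ + 2) * wphi x * (2 * H)) ≤ η / 2 * (H : ℝ) ^ 2 := by
      calc 4 * ((C / μ + 2) * wphi x * (2 * H)) ≤ 4 * ((C / c + 2) * Real.log x * (2 * H)) := by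
            have := mul_le_mul_of_nonneg_right h1 (by positivity : (0 : ℝ) ≤ 2 * H)
            linarith
        _ = (16 * (C / c + 2) * Real.log x) * (H / 2) := by ring
        _ ≤ (η * H) * (H / 2) := mul_le_mul_of_nonneg_right hK2 (by positivity)
        _ = _ := by ring
    have h3 : 4 * (4 * η₀ * (2 * (H : ℝ)) ^ 2) ≤ η / 2 * (H : ℝ) ^ 2 := by
      calc 4 * (4 * η₀ * (2 * (H : ℝ)) ^ 2) = 64 * η₀ * (H : ℝ) ^ 2 := by ring
        _ ≤ η / 2 * (H : ℝ) ^ 2 := mul_le_mul_of_nonneg_right (by linarith) (by positivity)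
    calc 4 * (N' * ((C / μ + 2) * wphi x * (2 * H) + 4 * η₀ * (2 * H) ^ 2))
        = N' * (4 * ((C / μ + 2) * wphi x * (2 * H)) + 4 * (4 * η₀ * (2 * (H : ℝ)) ^ 2)) := by ring
      _ ≤ N' * (η / 2 * (H : ℝ) ^ 2 + η / 2 * (H : ℝ) ^ 2) :=
        mul_le_mul_of_nonneg_left (add_le_add h2 h3) hN'pos.le
      _ = _ := by ring

end Pool.Agent.H12.DM
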