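import Pool.Agent.H12.DM.R9
import Pool.Agent.H12.DM.Vc

/-!
# Lf: small windows in `L²` with respect to the primes

`F n = f n - M n g n`, `M = Mm (yy x)`. Apply `Vc` with `ε₁ = ε/2`: `b, y, K, V`. By `Vmaj`, `La x n ≤ (1/dl b) M n V n` for all `n`. Hence `|F n| ≤ La x n + 5 M n ≤ (1/dl b + 5) M n (V n + 1) = (1/dl b + 5) Uu x V n`
(`1/dl b ≥ 1`, `V ≥ 0`), and `F` vanishes outside `[0, N)` (`La x n = 0` for `n < 0` and for `n > x`; `N = ⌊x⌋₊ + 1`). So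
`∑_{rgH} La (nf D F)^2 ≤ (1/dl b) ∑ M V (nf D F)^2 ≤ (1/dl b) wp y ∑_{rgH} (nf D F)^2 + ε₁ dl b N H^2`, `dl b ≤ 1`, and by `R9` with
`ε₂ = ε dl b/(2 wp y)` (this determines `ε'`) the first part is `≤ (ε/2) N H^2`.
-/

set_option autoImplicit false

namespace Pool.Agent.H12.DM

open Finset Pool.Agent.H17 Pool.Agent.H6.MF Pool.Agent.H6.MB

theorem Lf_dl_le (b : ℕ) : dl b ≤ 1 := by
  unfold dl
  rw [div_le_one (by positivity)]
  have : (0 : ℝ) ≤ b := Nat.cast_nonneg b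
  linarith

theorem Lf_La_zero {x : ℝ} (hx : 0 ≤ x) {n : ℤ} (hn : n < 0 ∨ ((⌊x⌋₊ + 1 : ℕ) : ℤ) ≤ n) :
    La x n = 0 := by
  unfold La
  rw [if_neg]
  rintro ⟨_, h1, h2⟩
  rcases hn with hn | hn
  · have h3 : (n : ℝ) < 0 := by exact_mod_cast hn
    have h4 : (0 : ℝ) ≤ x ^ (1 / 4 : ℝ) := Real.rpow_nonneg hx _
    linarith
  · have h3 : (((⌊x⌋₊ + 1 : ℕ) : ℤ) : ℝ) ≤ n := by exact_mod_cast hn
    have h4 := Nat.lt_floor_add_one x
    push_cast at h3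
    linarith

theorem Lf (ε : ℝ) (hε : 0 < ε) : ∃ ε' : ℝ, 0 < ε' ∧ ∃ K X : ℝ, ∀ x : ℝ, X ≤ x → ∀ H : ℕ, K * Real.log x ≤ (H : ℝ) →
    (H : ℝ) ≤ (Real.log x) ^ 2 → ∀ f g : ℤ → ℝ, Dense x H ε' f g → ∀ D : Finset ℤ, D ⊆ Finset.Icc 1 (H : ℤ) →
    ∑ n ∈ rgH x H, La x (n : ℤ) * (nf D (fun n => f n - Mm (yy x) n * g n) (n : ℤ)) ^ 2
      ≤ ε * ((⌊x⌋₊ : ℝ) + 1) * (H : ℝ) ^ 2 := by
  obtain ⟨b, y, K, X1, hVc⟩ := Vc (ε / 2) (half_pos hε)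
  obtain ⟨X2, hVm⟩ := Vmaj b
  have hd := dl_pos b
  have hd1 := Lf_dl_le b
  have hw := wp_pos y
  obtain ⟨ε', hε', X3, hR9⟩ := R9 (ε * dl b / (2 * wp y)) (by positivity)
  refine ⟨ε', hε', max K 1, max (max X1 X2) (max X3 1), fun x hx H hKH hH2 f g hfg D hD => ?_⟩
  have hxX1 : X1 ≤ x := (le_max_left _ _).trans ((le_max_left _ _).trans hx)
  have hxX2 : X2 ≤ x := (le_max_right _ _).trans ((le_max_left _ _).trans hx)
  have hxX3 : X3 ≤ x := (le_max_left _ _).trans ((le_max_right _ _).trans hx)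
  have hx1 : 1 ≤ x := (le_max_right _ _).trans ((le_max_right _ _).trans hx)
  have hL0 : 0 ≤ Real.log x := Real.log_nonneg hx1
  have hK1 : K * Real.log x ≤ (H : ℝ) :=
    (mul_le_mul_of_nonneg_right (le_max_left _ _) hL0).trans hKH
  have hK2 : Real.log x ≤ (H : ℝ) := by
    have := (mul_le_mul_of_nonneg_right (le_max_right K 1) hL0).trans hKH
    linarith
  obtain ⟨V, hV, hVc'⟩ := hVc x hxX1
  have hVm' := hVm x hxX2 V hV
  have hS := hR9 x hxX3 H hK2 hH2 f g hfg D hD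
  set F : ℤ → ℝ := fun n => f n - Mm (yy x) n * g n with hF
  have hFb : ∀ n, |F n| ≤ (1 / dl b + 5) * Uu x V n := by
    intro n
    have h1 := hfg.1 n
    have h2 := hfg.2.1 n
    have h3 := hVm' n
    have h4 := Mm_nonneg (yy x) n
    have h5 := hV.1 n
    have h6 : 0 < 1 / dl b := by positivity
    have h7 : 0 ≤ Mm (yy x) n * V n := mul_nonneg h4 h5
    have h8 : 0 ≤ Mm (yy x) n * g n := mul_nonneg h4 h2.1
    have h9 : Mm (yy x) n * g n ≤ 5 * Mm (yy x) n := by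
      have := mul_le_mul_of_nonneg_left h2.2 h4
      linarith
    have h10 : 0 ≤ 1 / dl b * (Mm (yy x) n * V n) := mul_nonneg h6.le h7
    have h11 : 0 ≤ 1 / dl b * Mm (yy x) n := mul_nonneg h6.le h4
    have e : (1 / dl b + 5) * Uu x V n = 1 / dl b * (Mm (yy x) n * V n) + 1 / dl b * Mm (yy x) n +
        5 * (Mm (yy x) n * V n) + 5 * Mm (yy x) n := by
      unfold Uu
      ring
    rw [e, abs_le]
    simp only [hF]
    constructor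
    · linarith [h1.1]
    · linarith [h1.2]
  have hF0 : ∀ n : ℤ, n < 0 ∨ ((⌊x⌋₊ + 1 : ℕ) : ℤ) ≤ n → F n = 0 := by
    intro n hn
    have h1 := hfg.1 n
    rw [Lf_La_zero (by linarith) hn] at h1
    have h2 : f n = 0 := le_antisymm h1.2 h1.1
    simp only [hF]
    rw [h2, hfg.2.2.1 n hn, mul_zero, sub_zero]
  have hT := hVc' H hK1 hH2 D hD F hFb hF0
  have hN : (0 : ℝ) ≤ ((⌊x⌋₊ : ℝ) + 1) * (H : ℝ) ^ 2 := by positivity
  calc ∑ n ∈ rgH x H, La x (n : ℤ) * (nf D F (n : ℤ)) ^ 2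
      ≤ ∑ n ∈ rgH x H, 1 / dl b * (Mm (yy x) (n : ℤ) * V (n : ℤ) * (nf D F (n : ℤ)) ^ 2) := by
        refine Finset.sum_le_sum fun n _ => ?_
        have h1 := mul_le_mul_of_nonneg_right (hVm' (n : ℤ)) (sq_nonneg (nf D F (n : ℤ)))
        linarith
    _ = 1 / dl b * ∑ n ∈ rgH x H, Mm (yy x) (n : ℤ) * V (n : ℤ) * (nf D F (n : ℤ)) ^ 2 := by
        rw [Finset.mul_sum]
    _ ≤ 1 / dl b * (wp y * (ε * dl b / (2 * wp y) * ((⌊x⌋₊ : ℝ) + 1) * (H : ℝ) ^ 2) +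
          ε / 2 * (dl b) ^ 2 * ((⌊x⌋₊ : ℝ) + 1) * (H : ℝ) ^ 2) := by
        refine mul_le_mul_of_nonneg_left (hT.trans ?_) (by positivity)
        have h1 := mul_le_mul_of_nonneg_left hS hw.le
        linarith
    _ = ε / 2 * (((⌊x⌋₊ : ℝ) + 1) * (H : ℝ) ^ 2) + ε / 2 * dl b * (((⌊x⌋₊ : ℝ) + 1) * (H : ℝ) ^ 2) := by
        field_simp
    _ ≤ ε * ((⌊x⌋₊ : ℝ) + 1) * (H : ℝ) ^ 2 := by
        have h1 : ε / 2 * dl b * (((⌊x⌋₊ : ℝ) + 1) * (H : ℝ) ^ 2) ≤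
            ε / 2 * (((⌊x⌋₊ : ℝ) + 1) * (H : ℝ) ^ 2) := by
          refine mul_le_mul_of_nonneg_right ?_ hN
          nlinarith
        linarith

end Pool.Agent.H12.DM
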