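import Pool.Agent.H12.DM.Df

/-!
# Ms: sums of `Mm` over intervals

* `Mm_sum`: `Mm y` has period `Y = WW y` (`Mm_period`) and `∑_{i<Y} Mm y i = wp y * φ(Y) = Y` (`Nat.totient` counts the `i < Y` coprime to `Y`; `Int.gcd (i:ℤ) Y = Nat.gcd i Y`). The sum over
  any `Y` consecutive integers is the same. An interval of `j` integers is contained in `⌊j/Y⌋ + 1` consecutive blocks of length `Y`, so (all terms `≥ 0`) the sum is
  `≤ (⌊j/Y⌋ + 1) Y ≤ j + Y`.
* `dual_le`: `|dual H c q n| ≤ (1/(6H)) ∑_{|d| ≤ H} (1 + Mm (yy x) (n-d)) ≤ (1/(6H)) ((2H+1) + (2H+1+W)) ≤ 1` if `W + 2 ≤ 2H`; `W = WW (yy x)`, `W^34 ≤ √(log x)` (`WW_yy_pow_le`), so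
  `W + 2 ≤ 2 log x ≤ 2H` for large `x`.
-/

set_option autoImplicit false

namespace Pool.Agent.H12.DM

open Finset Pool.Agent.H17 Pool.Agent.H6.MF Pool.Agent.H6.MB

theorem Ms_full (y : ℕ) (t u : ℤ) :
    ∑ i ∈ Finset.Ioc u (u + (WW y : ℕ)), Mm y (t + i) = (WW y : ℝ) := by
  have hY : 0 < WW y := WW_pos y
  have hYz : (1 : ℤ) ≤ (WW y : ℤ) := by exact_mod_cast hY
  obtain ⟨K, hK⟩ : ∃ K : ℤ, K = ((t + u).natAbs : ℤ) := ⟨_, rfl⟩
  have hK0 : 0 ≤ K := by rw [hK]; exact Int.natCast_nonneg _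
  have hK1 : -(t + u) ≤ K := by rw [hK]; omega
  have hKY : K ≤ K * (WW y : ℤ) := by nlinarith
  obtain ⟨n0, hn0⟩ : ∃ n : ℕ, (n : ℤ) = t + u + 1 + K * (WW y : ℤ) :=
    ⟨(t + u + 1 + K * (WW y : ℤ)).toNat, Int.toNat_of_nonneg (by linarith)⟩
  have h1 : ∑ i ∈ Finset.Ioc u (u + (WW y : ℕ)), Mm y (t + i) =
      ∑ x ∈ Finset.Ico n0 (n0 + WW y), Mm y (x : ℤ) := by
    refine Finset.sum_nbij' (fun i => (t + i + K * (WW y : ℤ)).toNat)
      (fun x : ℕ => (x : ℤ) - t - K * (WW y : ℤ)) ?_ ?_ ?_ ?_ ?_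
    · intro i hi
      rw [Finset.mem_Ioc] at hi
      have h0 : 0 ≤ t + i + K * (WW y : ℤ) := by linarith [hi.1]
      rw [Finset.mem_Ico]
      have h2 : (((t + i + K * (WW y : ℤ)).toNat : ℕ) : ℤ) = t + i + K * (WW y : ℤ) :=
        Int.toNat_of_nonneg h0
      constructor
      · have : (n0 : ℤ) ≤ ((t + i + K * (WW y : ℤ)).toNat : ℕ) := by rw [h2, hn0]; linarith [hi.1]
        exact_mod_cast this
      · have : (((t + i + K * (WW y : ℤ)).toNat : ℕ) : ℤ) < ((n0 + WW y : ℕ) : ℤ) := by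
          rw [h2]; push_cast; rw [hn0]; linarith [hi.2]
        exact_mod_cast this
    · intro x hx
      rw [Finset.mem_Ico] at hx
      have hx1 : (n0 : ℤ) ≤ x := by exact_mod_cast hx.1
      have hx2 : (x : ℤ) < n0 + WW y := by exact_mod_cast hx.2
      rw [Finset.mem_Ioc]
      constructor
      · linarith
      · linarith
    · intro i hi
      rw [Finset.mem_Ioc] at hi
      have h0 : 0 ≤ t + i + K * (WW y : ℤ) := by linarith [hi.1]
      show (((t + i + K * (WW y : ℤ)).toNat : ℕ) : ℤ) - t - K * (WW y : ℤ) = i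
      rw [Int.toNat_of_nonneg h0]
      ring
    · intro x hx
      show (t + ((x : ℤ) - t - K * (WW y : ℤ)) + K * (WW y : ℤ)).toNat = x
      rw [show t + ((x : ℤ) - t - K * (WW y : ℤ)) + K * (WW y : ℤ) = (x : ℤ) by ring,
        Int.toNat_natCast]
    · intro i hi
      rw [Finset.mem_Ioc] at hi
      have h0 : 0 ≤ t + i + K * (WW y : ℤ) := by linarith [hi.1]
      show Mm y (t + i) = Mm y (((t + i + K * (WW y : ℤ)).toNat : ℕ) : ℤ)
      rw [Int.toNat_of_nonneg h0, Mm_period]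
  have h2 : ∀ x ∈ Finset.Ico n0 (n0 + WW y), Mm y (x : ℤ) =
      if (WW y).Coprime x then wp y else 0 := by
    intro x _
    unfold Mm
    rw [Int.gcd_natCast_natCast, Nat.gcd_comm]
  rw [h1, Finset.sum_congr rfl h2, ← Finset.sum_filter, Finset.sum_const,
    Nat.filter_coprime_Ico_eq_totient, nsmul_eq_mul]
  unfold wp
  have := tot_pos_real y
  field_simp

theorem Mm_sum (y : ℕ) (t u : ℤ) (j : ℕ) :
    ∑ i ∈ Finset.Ioc u (u + j), Mm y (t + i) ≤ (j : ℝ) + (WW y : ℝ) := by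
  have hYR : (0 : ℝ) < WW y := WW_pos_real y
  induction j using Nat.strong_induction_on generalizing u with
  | _ j ih =>
    rcases le_or_gt j (WW y) with h | h
    · have hsub : Finset.Ioc u (u + (j : ℕ)) ⊆ Finset.Ioc u (u + (WW y : ℕ)) := by
        apply Finset.Ioc_subset_Ioc_right
        have : (j : ℤ) ≤ (WW y : ℤ) := by exact_mod_cast h
        linarith
      calc ∑ i ∈ Finset.Ioc u (u + (j : ℕ)), Mm y (t + i)
          ≤ ∑ i ∈ Finset.Ioc u (u + (WW y : ℕ)), Mm y (t + i) :=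
            Finset.sum_le_sum_of_subset_of_nonneg hsub fun i _ _ => Mm_nonneg _ _
        _ = (WW y : ℝ) := Ms_full y t u
        _ ≤ (j : ℝ) + (WW y : ℝ) := by
            have : (0 : ℝ) ≤ j := Nat.cast_nonneg _
            linarith
    · obtain ⟨k, rfl⟩ : ∃ k, j = WW y + k := ⟨j - WW y, by omega⟩
      have hun : Finset.Ioc u (u + ((WW y + k : ℕ) : ℤ)) = Finset.Ioc u (u + (WW y : ℕ)) ∪
          Finset.Ioc (u + (WW y : ℕ)) (u + (WW y : ℕ) + (k : ℕ)) := by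
        rw [Finset.Ioc_union_Ioc_eq_Ioc (by omega) (by omega)]
        push_cast
        rw [add_assoc]
      have hdis : Disjoint (Finset.Ioc u (u + (WW y : ℕ)))
          (Finset.Ioc (u + (WW y : ℕ)) (u + (WW y : ℕ) + (k : ℕ))) :=
        Finset.Ioc_disjoint_Ioc_of_le le_rfl
      rw [hun, Finset.sum_union hdis, Ms_full]
      have := ih k (by have := WW_pos y; omega) (u + (WW y : ℕ))
      push_cast
      linarith

theorem dual_le : ∃ X : ℝ, ∀ x : ℝ, X ≤ x → ∀ H : ℕ, Real.log x ≤ (H : ℝ) → ∀ c q : ℤ → ℝ, Adm x c q →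
    ∀ n : ℤ, |dual H c q n| ≤ 1 := by
  have e2 : ∀ᶠ x : ℝ in Filter.atTop, 4 ≤ Real.log x :=
    Real.tendsto_log_atTop.eventually_ge_atTop 4
  obtain ⟨X, hX⟩ := Filter.eventually_atTop.1 e2
  refine ⟨X, fun x hx H hH c q hcq n => ?_⟩
  have hL := hX x hx
  have hH0 : (0 : ℝ) < H := by linarith
  have hW : (WW (yy x) : ℝ) + 2 ≤ 2 * H := by
    have h1 := WW_yy_pow_le (x := x) (by linarith)
    have hW1 : (1 : ℝ) ≤ (WW (yy x) : ℝ) := by exact_mod_cast WW_pos (yy x)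
    have h2 : (WW (yy x) : ℝ) ≤ (WW (yy x) : ℝ) ^ 34 := le_self_pow₀ hW1 (by norm_num)
    have h3 : Real.sqrt (Real.log x) ≤ Real.log x := by
      rw [Real.sqrt_le_left (by linarith)]
      nlinarith
    linarith
  have hterm : ∀ d : ℤ, |c d * q (n - d)| ≤ 1 + Mm (yy x) (n - d) := by
    intro d
    rw [abs_mul]
    have h1 := hcq.1 d
    have h2 := hcq.2 (n - d)
    have h3 := abs_nonneg (q (n - d))
    calc |c d| * |q (n - d)| ≤ 1 * |q (n - d)| := mul_le_mul_of_nonneg_right h1 h3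
      _ ≤ _ := by rw [one_mul]; exact h2
  have hrefl : ∑ d ∈ Finset.Icc (-(H : ℤ)) (H : ℤ), Mm (yy x) (n - d) =
      ∑ i ∈ Finset.Ioc (-(H : ℤ) - 1) (-(H : ℤ) - 1 + ((2 * H + 1 : ℕ) : ℤ)), Mm (yy x) (n + i) := by
    refine Finset.sum_nbij' (fun d => -d) (fun i => -i) ?_ ?_ ?_ ?_ ?_
    · intro d hd
      rw [Finset.mem_Icc] at hd
      rw [Finset.mem_Ioc]
      push_cast
      constructor <;> linarith [hd.1, hd.2]
    · intro i hi
      rw [Finset.mem_Ioc] at hi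
      rw [Finset.mem_Icc]
      push_cast at hi
      constructor
      · linarith [hi.2]
      · have := hi.1
        omega
    · intro d _
      exact neg_neg d
    · intro i _
      exact neg_neg i
    · intro d _
      rw [sub_eq_add_neg]
  have hsum : ∑ d ∈ Finset.Icc (-(H : ℤ)) (H : ℤ), (1 + Mm (yy x) (n - d)) ≤
      6 * (H : ℝ) := by
    rw [Finset.sum_add_distrib, hrefl, Finset.sum_const, Int.card_Icc, nsmul_eq_mul, mul_one]
    have h1 := Mm_sum (yy x) n (-(H : ℤ) - 1) (2 * H + 1)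
    have h2 : (((H : ℤ) + 1 - -(H : ℤ)).toNat : ℝ) = 2 * H + 1 := by
      have : ((H : ℤ) + 1 - -(H : ℤ)).toNat = 2 * H + 1 := by omega
      rw [this]
      push_cast
      ring
    rw [h2]
    push_cast at h1 ⊢
    linarith
  have habs : |∑ d ∈ Finset.Icc (-(H : ℤ)) (H : ℤ), c d * q (n - d)| ≤ 6 * (H : ℝ) :=
    (Finset.abs_sum_le_sum_abs _ _).trans ((Finset.sum_le_sum fun d _ => hterm d).trans hsum)
  unfold dual
  rw [abs_mul, abs_of_pos (by positivity)]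
  calc 1 / (6 * (H : ℝ)) * |∑ d ∈ Finset.Icc (-(H : ℤ)) (H : ℤ), c d * q (n - d)|
      ≤ 1 / (6 * (H : ℝ)) * (6 * (H : ℝ)) := mul_le_mul_of_nonneg_left habs (by positivity)
    _ = 1 := by field_simp

end Pool.Agent.H12.DM
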