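import Pool.Agent.H12.DM.K1
import Pool.Agent.H12.DM.Ms

/-!
# R7: `ν - 1` is orthogonal to products of dual functions

`L = log x`, `N = ⌊x⌋₊ + 1`, `W = WW (yy x)`, `M = Mm (yy x)`, `φ = wp (yy x) ≤ W ≤ L` (`WW_yy_pow_le`). `x` large, `L ≤ H ≤ L^2`.

0. For every integer interval `J` of length (number of elements) `j`: `∑_{y∈J} M(t + y) ≤ j + W` (`M` has period `W` and sum `W` over a period; an interval of `j` elements is covered by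
   `⌈j/W⌉` periods): `Mm_sum` in `Ms.lean`. So `|dual H c q n| ≤ (1/(6H)) ((2H+1) + (2H+1+W)) ≤ 1` for `x` large: `dual_le`.
1. Windows: let `Z n = M n (ν n - 1) ∏_i dual H (c i) (q i) n` for all integers `n ≥ 0`. `∑_{b<N} ∑_{e<H} Z(b+e)` counts every `n ∈ [H, N)` exactly `H` times, and the others
   (`n < H`, `N ≤ n < N+H`) at most `H` times, so `|H ∑_{n<N} Z n - ∑_{b<N} ∑_{e<H} Z(b+e)| ≤ 2H * H * max |Z| ≤ 2 H^2 φ (x^(3/4) + 1)` (`GoodN`, `dual_le`).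
2. For `b` and `0 ≤ e < H`: `dual H c q (b+e) = (1/(6H)) ∑_{y ∈ Icc (-H) (2H)} c'(e - y) q(b + y)`, where `c'(d) = c d` if `|d| ≤ H` and `0` otherwise (substitute `y = e - d`). Multiply out
   (`Finset.prod_univ_sum`): `∏_i dual … (b+e) = (6H)^{-r} ∑_{y : Fin r → Icc (-H) (2H)} ∏_i c'_i(e - y_i) ∏_i q_i(b+y_i)`. So
   `∑_{e<H} Z(b+e) = (6H)^{-r} ∑_y ∏_i q_i(b+y_i) ∑_{e<H} κ_y(e) M(b+e)(ν(b+e) - 1)`, `κ_y(e) = ∏_i c'_i(e - y_i) ∈ [-1,1]`.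
3. For `b ∈ cls x t`: `|q_i(b+y_i)| ≤ 1 + M(b+y_i) = 1 + M(t+y_i)`. By Cauchy-Schwarz, `GoodN` and `#cls x t ≤ N/W + 1 ≤ 2 N/W` (`ASC_cls_card`):
   `∑_{b∈cls x t} |∑_e κ_y(e) M(b+e) (ν(b+e)-1)| ≤ √(2N/W) √(η (N/W)) H ≤ 2 √η (N/W) H`.
   Sum over `y`: `∑_y ∏_i (1 + M(t+y_i)) = ∏_i ∑_{y∈Icc (-H)(2H)} (1 + M(t+y)) ≤ ((3H+1) + (3H+1+W))^r ≤ (7H)^r`. Sum over the `W` classes:
   `|∑_{b<N} ∑_{e<H} Z(b+e)| ≤ (7/6)^r 2 √η N H ≤ 2^{r+1} √η N H`.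
4. Divide by `H`: `|∑_{n<N} Z n| ≤ 2^{r+1} √η N + 2 H φ (x^(3/4)+1) ≤ (2^{r+2} √η + x^(-1/10)) N` for `x` large (`2 L^3 * 2 x^(3/4) ≤ x^(9/10)`).
-/

set_option autoImplicit false

namespace Pool.Agent.H12.DM

open Finset Pool.Agent.H17 Pool.Agent.H6.MF Pool.Agent.H6.MB

private theorem R7_shift (F : ℕ → ℝ) (N H : ℕ) (B : ℝ) (hF : ∀ m, m < N + H → |F m| ≤ B) :
    ∀ e : ℕ, e ≤ H →
      |∑ n ∈ Finset.range N, F n - ∑ b ∈ Finset.range N, F (b + e)| ≤ 2 * e * B := by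
  intro e
  induction e with
  | zero =>
    intro _
    simp
  | succ e ih =>
    intro he
    have h1 := ih (by omega)
    have h2 : ∑ b ∈ Finset.range N, F (b + (e + 1)) =
        ∑ b ∈ Finset.range N, F (b + e) + F (N + e) - F e := by
      have h3 := Finset.sum_range_succ (fun b => F (b + e)) N
      have h4 := Finset.sum_range_succ' (fun b => F (b + e)) N
      rw [h3] at h4
      have h5 : ∑ b ∈ Finset.range N, F (b + (e + 1)) = ∑ b ∈ Finset.range N, F (b + 1 + e) :=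
        Finset.sum_congr rfl fun b _ => by rw [show b + (e + 1) = b + 1 + e by ring]
      rw [h5, h4, zero_add]
      ring
    rw [h2]
    have h6 := abs_le.1 (hF (N + e) (by omega))
    have h7 := abs_le.1 (hF e (by omega))
    have h8 := abs_le.1 h1
    rw [abs_le]
    push_cast
    constructor
    · linarith [h6.1, h6.2, h7.1, h7.2, h8.1, h8.2]
    · linarith [h6.1, h6.2, h7.1, h7.2, h8.1, h8.2]

private theorem R7_win (F : ℕ → ℝ) (N H : ℕ) (B : ℝ) (hB : 0 ≤ B)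
    (hF : ∀ m, m < N + H → |F m| ≤ B) :
    |(H : ℝ) * ∑ n ∈ Finset.range N, F n - ∑ b ∈ Finset.range N, ∑ e ∈ Finset.range H, F (b + e)|
      ≤ 2 * (H : ℝ) ^ 2 * B := by
  have h1 : (H : ℝ) * ∑ n ∈ Finset.range N, F n -
      ∑ b ∈ Finset.range N, ∑ e ∈ Finset.range H, F (b + e) =
      ∑ e ∈ Finset.range H,
        (∑ n ∈ Finset.range N, F n - ∑ b ∈ Finset.range N, F (b + e)) := by
    rw [Finset.sum_sub_distrib, Finset.sum_const, Finset.card_range, nsmul_eq_mul,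
      Finset.sum_comm]
  rw [h1]
  refine (Finset.abs_sum_le_sum_abs _ _).trans ?_
  have h2 : ∀ e ∈ Finset.range H,
      |∑ n ∈ Finset.range N, F n - ∑ b ∈ Finset.range N, F (b + e)| ≤ 2 * H * B := by
    intro e he
    rw [Finset.mem_range] at he
    refine (R7_shift F N H B hF e he.le).trans ?_
    have h3 : (e : ℝ) ≤ H := by exact_mod_cast he.le
    nlinarith
  refine (Finset.sum_le_sum h2).trans ?_
  rw [Finset.sum_const, Finset.card_range, nsmul_eq_mul]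
  nlinarith

private theorem R7_dual (H : ℕ) (c q : ℤ → ℝ) (b : ℤ) (e : ℕ) (he : e < H) :
    dual H c q (b + e) = (1 / (6 * (H : ℝ))) * ∑ y ∈ Finset.Icc (-(H : ℤ)) (2 * (H : ℤ)),
      (if |(e : ℤ) - y| ≤ (H : ℤ) then c ((e : ℤ) - y) else 0) * q (b + y) := by
  unfold dual
  congr 1
  refine Finset.sum_of_injOn (fun d => (e : ℤ) - d) ?_ ?_ ?_ ?_
  · intro d _ d' _ h
    have h' : (e : ℤ) - d = (e : ℤ) - d' := h
    linarith
  · intro d hd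
    rw [Finset.mem_coe, Finset.mem_Icc] at hd
    show (e : ℤ) - d ∈ ((Finset.Icc (-(H : ℤ)) (2 * (H : ℤ)) : Finset ℤ) : Set ℤ)
    rw [Finset.mem_coe, Finset.mem_Icc]
    constructor <;> omega
  · intro y _ hy
    rw [if_neg, zero_mul]
    intro h
    apply hy
    rw [abs_le] at h
    refine ⟨(e : ℤ) - y, ?_, by show (e : ℤ) - ((e : ℤ) - y) = y; ring⟩
    rw [Finset.mem_coe, Finset.mem_Icc]
    exact h
  · intro d hd
    rw [Finset.mem_Icc] at hd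
    show c d * q (b + e - d) = (if |(e : ℤ) - ((e : ℤ) - d)| ≤ (H : ℤ) then
      c ((e : ℤ) - ((e : ℤ) - d)) else 0) * q (b + ((e : ℤ) - d))
    rw [show (e : ℤ) - ((e : ℤ) - d) = d by ring, if_pos (abs_le.2 hd),
      show b + ((e : ℤ) - d) = b + e - d by ring]

private theorem R7_prod (r H : ℕ) (c q : Fin r → ℤ → ℝ) (b : ℤ) (e : ℕ) (he : e < H) :
    ∏ i, dual H (c i) (q i) (b + e) = (1 / (6 * (H : ℝ))) ^ r *
      ∑ y ∈ Fintype.piFinset (fun _ : Fin r => Finset.Icc (-(H : ℤ)) (2 * (H : ℤ))),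
        (∏ i, (if |(e : ℤ) - y i| ≤ (H : ℤ) then c i ((e : ℤ) - y i) else 0)) *
          ∏ i, q i (b + y i) := by
  rw [Finset.prod_congr rfl fun i _ => R7_dual H (c i) (q i) b e he, Finset.prod_mul_distrib,
    Finset.prod_const, Finset.card_univ, Fintype.card_fin, Finset.prod_univ_sum]
  congr 1
  refine Finset.sum_congr rfl fun y _ => ?_
  rw [Finset.prod_mul_distrib]

private theorem R7_cs (S : Finset ℕ) (V : ℕ → ℝ) (A D : ℝ) (hD : 0 ≤ D) (hA : 0 ≤ A)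
    (h1 : (S.card : ℝ) ≤ 2 * A) (E : ℝ) (h2 : ∑ b ∈ S, V b ^ 2 ≤ E)
    (h3 : 2 * A * E ≤ D ^ 2) : ∑ b ∈ S, |V b| ≤ D := by
  have h4 := sq_sum_le_card_mul_sum_sq (s := S) (f := fun b => |V b|)
  have h5 : ∑ b ∈ S, |V b| ^ 2 = ∑ b ∈ S, V b ^ 2 :=
    Finset.sum_congr rfl fun b _ => sq_abs _
  rw [h5] at h4
  have h6 : (0 : ℝ) ≤ ∑ b ∈ S, V b ^ 2 := Finset.sum_nonneg fun b _ => sq_nonneg _
  have h7 : (∑ b ∈ S, |V b|) ^ 2 ≤ D ^ 2 := by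
    refine h4.trans (le_trans ?_ h3)
    exact mul_le_mul h1 h2 h6 (by linarith)
  exact (pow_le_pow_iff_left₀ (Finset.sum_nonneg fun b _ => abs_nonneg _) hD two_ne_zero).1 h7

private theorem R7_sum (x : ℝ) (H : ℕ) (hWH : (WW (yy x) : ℝ) + 2 ≤ (H : ℝ)) (t : ℤ) :
    ∑ y ∈ Finset.Icc (-(H : ℤ)) (2 * (H : ℤ)), (1 + Mm (yy x) (t + y)) ≤ 7 * (H : ℝ) := by
  have h1 : Finset.Icc (-(H : ℤ)) (2 * (H : ℤ)) =
      Finset.Ioc (-(H : ℤ) - 1) (-(H : ℤ) - 1 + ((3 * H + 1 : ℕ) : ℤ)) := by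
    ext y
    rw [Finset.mem_Icc, Finset.mem_Ioc]
    push_cast
    omega
  rw [Finset.sum_add_distrib, h1]
  have h2 := Mm_sum (yy x) t (-(H : ℤ) - 1) (3 * H + 1)
  have h3 : ∑ _y ∈ Finset.Ioc (-(H : ℤ) - 1) (-(H : ℤ) - 1 + ((3 * H + 1 : ℕ) : ℤ)), (1 : ℝ) =
      3 * (H : ℝ) + 1 := by
    rw [Finset.sum_const, Int.card_Ioc, nsmul_eq_mul, mul_one]
    have h4 : (-(H : ℤ) - 1 + ((3 * H + 1 : ℕ) : ℤ) - (-(H : ℤ) - 1)).toNat = 3 * H + 1 := by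
      omega
    rw [h4]
    push_cast
    ring
  rw [h3]
  push_cast at h2 ⊢
  linarith

private theorem R7_cls (r : ℕ) (x : ℝ) (H : ℕ) (hH0 : 0 < H)
    (hWH : (WW (yy x) : ℝ) + 2 ≤ (H : ℝ)) (hWN : (WW (yy x) : ℝ) ≤ (⌊x⌋₊ : ℝ) + 1) (η : ℝ)
    (hη : 0 < η) (ν : ℤ → ℝ) (c q : Fin r → ℤ → ℝ) (hcq : ∀ i, Adm x (c i) (q i)) (t : ℕ)
    (hν : ∀ κ : ℕ → ℝ, (∀ e, |κ e| ≤ 1) →
      ∑ b ∈ cls x t, (∑ e ∈ Finset.range H,
        κ e * Mm (yy x) ((b : ℤ) + e) * (ν ((b : ℤ) + e) - 1)) ^ 2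
        ≤ η * (((⌊x⌋₊ : ℝ) + 1) / (WW (yy x) : ℝ)) * (H : ℝ) ^ 2) :
    |∑ b ∈ cls x t, ∑ e ∈ Finset.range H, Mm (yy x) ((b : ℤ) + e) * (ν ((b : ℤ) + e) - 1) *
      ∏ i, dual H (c i) (q i) ((b : ℤ) + e)| ≤
      2 ^ (r + 1) * Real.sqrt η * (((⌊x⌋₊ : ℝ) + 1) / (WW (yy x) : ℝ)) * (H : ℝ) := by
  obtain ⟨A, hA⟩ : ∃ A : ℝ, A = ((⌊x⌋₊ : ℝ) + 1) / (WW (yy x) : ℝ) := ⟨_, rfl⟩
  rw [← hA] at hν ⊢
  have hH : (0 : ℝ) < H := by exact_mod_cast hH0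
  have hW0 : (0 : ℝ) < WW (yy x) := WW_pos_real (yy x)
  have hA1 : 1 ≤ A := by
    rw [hA, one_le_div hW0]
    exact hWN
  have hcard : ((cls x t).card : ℝ) ≤ 2 * A := by
    have h := ASC_cls_card x t
    rw [← hA] at h
    linarith
  have hM : ∀ b ∈ cls x t, ∀ y : ℤ, Mm (yy x) ((b : ℤ) + y) = Mm (yy x) ((t : ℤ) + y) := by
    intro b hb y
    unfold cls at hb
    rw [Finset.mem_filter] at hb
    have h1 : (b : ℤ) + y = ((t : ℤ) + y) + ((b / WW (yy x) : ℕ) : ℤ) * (WW (yy x) : ℤ) := by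
      have h2 := Nat.div_add_mod b (WW (yy x))
      rw [hb.2] at h2
      have h3 : ((WW (yy x) : ℕ) : ℤ) * ((b / WW (yy x) : ℕ) : ℤ) + (t : ℤ) = (b : ℤ) := by
        exact_mod_cast h2
      rw [← h3]
      ring
    rw [h1, Mm_period]
  obtain ⟨κ, hκ⟩ : ∃ κ : (Fin r → ℤ) → ℕ → ℝ, ∀ y e, κ y e =
      ∏ i, (if |(e : ℤ) - y i| ≤ (H : ℤ) then c i ((e : ℤ) - y i) else 0) := ⟨_, fun _ _ => rfl⟩
  have hκ1 : ∀ y e, |κ y e| ≤ 1 := by
    intro y e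
    rw [hκ, Finset.abs_prod]
    refine Finset.prod_le_one (fun i _ => abs_nonneg _) fun i _ => ?_
    split_ifs
    · exact (hcq i).1 _
    · rw [abs_zero]
      exact zero_le_one
  obtain ⟨V, hV⟩ : ∃ V : (Fin r → ℤ) → ℕ → ℝ, ∀ y b, V y b = ∑ e ∈ Finset.range H,
      κ y e * Mm (yy x) ((b : ℤ) + e) * (ν ((b : ℤ) + e) - 1) := ⟨_, fun _ _ => rfl⟩
  have key : ∀ b : ℕ, ∑ e ∈ Finset.range H, Mm (yy x) ((b : ℤ) + e) * (ν ((b : ℤ) + e) - 1) *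
      ∏ i, dual H (c i) (q i) ((b : ℤ) + e) = (1 / (6 * (H : ℝ))) ^ r *
      ∑ y ∈ Fintype.piFinset (fun _ : Fin r => Finset.Icc (-(H : ℤ)) (2 * (H : ℤ))),
        (∏ i, q i ((b : ℤ) + y i)) * V y b := by
    intro b
    have h1 : ∀ e ∈ Finset.range H, Mm (yy x) ((b : ℤ) + e) * (ν ((b : ℤ) + e) - 1) *
        ∏ i, dual H (c i) (q i) ((b : ℤ) + e) = (1 / (6 * (H : ℝ))) ^ r *
        ∑ y ∈ Fintype.piFinset (fun _ : Fin r => Finset.Icc (-(H : ℤ)) (2 * (H : ℤ))),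
          (∏ i, q i ((b : ℤ) + y i)) *
            (κ y e * Mm (yy x) ((b : ℤ) + e) * (ν ((b : ℤ) + e) - 1)) := by
      intro e he
      rw [R7_prod r H c q b e (Finset.mem_range.1 he), mul_left_comm, Finset.mul_sum]
      congr 1
      refine Finset.sum_congr rfl fun y _ => ?_
      rw [hκ]
      ring
    rw [Finset.sum_congr rfl h1, ← Finset.mul_sum, Finset.sum_comm]
    congr 1
    refine Finset.sum_congr rfl fun y _ => ?_
    rw [← Finset.mul_sum, hV]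
  have hVb : ∀ y, ∑ b ∈ cls x t, |V y b| ≤ 2 * Real.sqrt η * A * H := by
    intro y
    have h1 := hν (κ y) (hκ1 y)
    refine R7_cs (cls x t) (V y) A _ (by positivity) (by linarith) hcard
      (η * A * (H : ℝ) ^ 2) ?_ ?_
    · rw [Finset.sum_congr rfl fun b _ => by rw [hV]]
      exact h1
    · have h2 : (2 * Real.sqrt η * A * H) ^ 2 = 4 * (Real.sqrt η) ^ 2 * A ^ 2 * (H : ℝ) ^ 2 := by
        ring
      rw [h2, Real.sq_sqrt hη.le]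
      have h3 : 0 ≤ η * A ^ 2 * (H : ℝ) ^ 2 := by positivity
      nlinarith
  have hq : ∀ b ∈ cls x t, ∀ y : Fin r → ℤ, |∏ i, q i ((b : ℤ) + y i)| ≤
      ∏ i, (1 + Mm (yy x) ((t : ℤ) + y i)) := by
    intro b hb y
    rw [Finset.abs_prod]
    refine Finset.prod_le_prod (fun i _ => abs_nonneg _) fun i _ => ?_
    rw [← hM b hb]
    exact (hcq i).2 _
  have hG0 : ∀ y : Fin r → ℤ, 0 ≤ ∏ i, (1 + Mm (yy x) ((t : ℤ) + y i)) := fun y =>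
    Finset.prod_nonneg fun i _ => by
      have := Mm_nonneg (yy x) ((t : ℤ) + y i)
      linarith
  have h6 : (0 : ℝ) ≤ (1 / (6 * (H : ℝ))) ^ r := by positivity
  have hD0 : 0 ≤ 2 * Real.sqrt η * A * (H : ℝ) := by positivity
  calc |∑ b ∈ cls x t, ∑ e ∈ Finset.range H, Mm (yy x) ((b : ℤ) + e) * (ν ((b : ℤ) + e) - 1) *
      ∏ i, dual H (c i) (q i) ((b : ℤ) + e)|
      ≤ ∑ b ∈ cls x t, |∑ e ∈ Finset.range H, Mm (yy x) ((b : ℤ) + e) *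
          (ν ((b : ℤ) + e) - 1) * ∏ i, dual H (c i) (q i) ((b : ℤ) + e)| :=
        Finset.abs_sum_le_sum_abs _ _
    _ ≤ ∑ b ∈ cls x t, (1 / (6 * (H : ℝ))) ^ r *
          ∑ y ∈ Fintype.piFinset (fun _ : Fin r => Finset.Icc (-(H : ℤ)) (2 * (H : ℤ))),
            (∏ i, (1 + Mm (yy x) ((t : ℤ) + y i))) * |V y b| := by
        refine Finset.sum_le_sum fun b hb => ?_
        rw [key, abs_mul, abs_of_nonneg h6]
        refine mul_le_mul_of_nonneg_left ?_ h6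
        refine (Finset.abs_sum_le_sum_abs _ _).trans (Finset.sum_le_sum fun y _ => ?_)
        rw [abs_mul]
        exact mul_le_mul_of_nonneg_right (hq b hb y) (abs_nonneg _)
    _ = (1 / (6 * (H : ℝ))) ^ r *
          ∑ y ∈ Fintype.piFinset (fun _ : Fin r => Finset.Icc (-(H : ℤ)) (2 * (H : ℤ))),
            (∏ i, (1 + Mm (yy x) ((t : ℤ) + y i))) * ∑ b ∈ cls x t, |V y b| := by
        rw [← Finset.mul_sum, Finset.sum_comm]
        congr 1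
        refine Finset.sum_congr rfl fun y _ => ?_
        rw [Finset.mul_sum]
    _ ≤ (1 / (6 * (H : ℝ))) ^ r *
          ∑ y ∈ Fintype.piFinset (fun _ : Fin r => Finset.Icc (-(H : ℤ)) (2 * (H : ℤ))),
            (∏ i, (1 + Mm (yy x) ((t : ℤ) + y i))) * (2 * Real.sqrt η * A * (H : ℝ)) :=
        mul_le_mul_of_nonneg_left (Finset.sum_le_sum fun y _ =>
          mul_le_mul_of_nonneg_left (hVb y) (hG0 y)) h6
    _ = (1 / (6 * (H : ℝ))) ^ r *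
          ((∏ _i : Fin r, ∑ y ∈ Finset.Icc (-(H : ℤ)) (2 * (H : ℤ)),
            (1 + Mm (yy x) ((t : ℤ) + y))) * (2 * Real.sqrt η * A * (H : ℝ))) := by
        rw [← Finset.sum_mul, Finset.prod_univ_sum]
    _ ≤ (1 / (6 * (H : ℝ))) ^ r * ((7 * (H : ℝ)) ^ r * (2 * Real.sqrt η * A * (H : ℝ))) := by
        refine mul_le_mul_of_nonneg_left (mul_le_mul_of_nonneg_right ?_ hD0) h6
        rw [Finset.prod_const, Finset.card_univ, Fintype.card_fin]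
        refine pow_le_pow_left₀ ?_ (R7_sum x H hWH t) r
        refine Finset.sum_nonneg fun y _ => ?_
        have := Mm_nonneg (yy x) ((t : ℤ) + y)
        linarith
    _ = (7 / 6) ^ r * (2 * Real.sqrt η * A * (H : ℝ)) := by
        rw [← mul_assoc, ← mul_pow]
        congr 2
        field_simp
    _ ≤ 2 ^ r * (2 * Real.sqrt η * A * (H : ℝ)) :=
        mul_le_mul_of_nonneg_right (pow_le_pow_left₀ (by norm_num) (by norm_num) r) hD0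
    _ = 2 ^ (r + 1) * Real.sqrt η * A * (H : ℝ) := by ring

theorem R7 (r : ℕ) : ∃ X : ℝ, ∀ x : ℝ, X ≤ x → ∀ H : ℕ, Real.log x ≤ (H : ℝ) → (H : ℝ) ≤ (Real.log x) ^ 2 →
    ∀ η : ℝ, 0 < η → η ≤ 1 → ∀ ν : ℤ → ℝ, GoodN η x H ν → ∀ c q : Fin r → ℤ → ℝ, (∀ i, Adm x (c i) (q i)) →
    |∑ n ∈ Finset.range (⌊x⌋₊ + 1), Mm (yy x) (n : ℤ) * (ν (n : ℤ) - 1) * ∏ i, dual H (c i) (q i) (n : ℤ)|
      ≤ (2 ^ (r + 2) * Real.sqrt η + x ^ (-(1 / 10) : ℝ)) * ((⌊x⌋₊ : ℝ) + 1) := by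
  obtain ⟨X1, hX1⟩ := dual_le
  have hev : ∀ᶠ x : ℝ in Filter.atTop, 4 * Real.log x ^ 3 ≤ x ^ (3 / 20 : ℝ) ∧ 4 ≤ Real.log x ∧
      1 ≤ x := by
    have h1 := (isLittleO_log_rpow_rpow_atTop (3 : ℝ) (show (0 : ℝ) < 3 / 20 by norm_num)).def
      (show (0 : ℝ) < 1 / 4 by norm_num)
    filter_upwards [h1, Real.tendsto_log_atTop.eventually_ge_atTop 4,
      Filter.eventually_ge_atTop (1 : ℝ)] with x a1 a2 a3
    refine ⟨?_, a2, a3⟩
    rw [Real.norm_of_nonneg (Real.rpow_nonneg (by linarith) _),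
      Real.norm_of_nonneg (Real.rpow_nonneg (by linarith) _)] at a1
    have h2 : Real.log x ^ (3 : ℝ) = Real.log x ^ 3 := by
      rw [← Real.rpow_natCast]
      norm_num
    rw [h2] at a1
    linarith
  obtain ⟨X2, hX2⟩ := Filter.eventually_atTop.1 hev
  refine ⟨max X1 X2, ?_⟩
  intro x hx H hH1 hH2 η hη0 hη1 ν hν c q hcq
  obtain ⟨b1, b2, b3⟩ := hX2 x ((le_max_right _ _).trans hx)
  have hdual := hX1 x ((le_max_left _ _).trans hx) H hH1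
  have hHr : (4 : ℝ) ≤ H := b2.trans hH1
  have hH0 : 0 < H := by
    rcases Nat.eq_zero_or_pos H with h | h
    · rw [h, Nat.cast_zero] at hHr
      linarith
    · exact h
  have hx0 : (0 : ℝ) < x := by linarith
  have hxN : x ≤ (⌊x⌋₊ : ℝ) + 1 := (Nat.lt_floor_add_one x).le
  have hW1 : (1 : ℝ) ≤ WW (yy x) := by
    have h := WW_pos_real (yy x)
    have h' : 0 < WW (yy x) := by exact_mod_cast h
    exact_mod_cast h'
  have hWs : (WW (yy x) : ℝ) ≤ Real.sqrt (Real.log x) :=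
    (le_self_pow₀ hW1 (by norm_num : (34 : ℕ) ≠ 0)).trans (WW_yy_pow_le (by linarith))
  have hs2 : Real.sqrt (Real.log x) + 2 ≤ Real.log x := by
    have h1 : (2 : ℝ) ≤ Real.sqrt (Real.log x) := Real.le_sqrt_of_sq_le (by linarith)
    have h2 := Real.sq_sqrt (show (0 : ℝ) ≤ Real.log x by linarith)
    nlinarith
  have hWH : (WW (yy x) : ℝ) + 2 ≤ (H : ℝ) := by linarith
  have hlogx : Real.log x ≤ x := (Real.log_le_sub_one_of_pos hx0).trans (by linarith)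
  have hWN : (WW (yy x) : ℝ) ≤ (⌊x⌋₊ : ℝ) + 1 := by linarith
  have hwp : wp (yy x) ≤ Real.log x := by
    have h1 : wp (yy x) ≤ WW (yy x) := by
      unfold wp
      refine div_le_self (by linarith) ?_
      have h := tot_pos_real (yy x)
      have h' : 0 < (WW (yy x)).totient := by exact_mod_cast h
      exact_mod_cast h'
    linarith
  obtain ⟨g1, g2, g3, g4⟩ := hν
  obtain ⟨Z, hZ⟩ : ∃ Z : ℕ → ℝ, ∀ n, Z n = Mm (yy x) (n : ℤ) * (ν (n : ℤ) - 1) *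
      ∏ i, dual H (c i) (q i) (n : ℤ) := ⟨_, fun _ => rfl⟩
  rw [Finset.sum_congr rfl fun n _ => (hZ n).symm]
  have hx34 : (1 : ℝ) ≤ x ^ (3 / 4 : ℝ) := Real.one_le_rpow b3 (by norm_num)
  have hZb : ∀ m, m < (⌊x⌋₊ + 1) + H → |Z m| ≤ Real.log x * (x ^ (3 / 4 : ℝ) + 1) := by
    intro m hm
    rw [hZ, abs_mul, abs_mul]
    have e1 : |Mm (yy x) (m : ℤ)| ≤ Real.log x := by
      rw [abs_of_nonneg (Mm_nonneg _ _)]
      exact (Mm_le _ _).trans hwp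
    have e2 : |ν (m : ℤ) - 1| ≤ x ^ (3 / 4 : ℝ) + 1 := by
      have h1 := g1 (m : ℤ)
      have h2 := g3 (m : ℤ) (by positivity) (by exact_mod_cast hm)
      rw [abs_le]
      constructor <;> linarith
    have e3 : |∏ i, dual H (c i) (q i) (m : ℤ)| ≤ 1 := by
      rw [Finset.abs_prod]
      exact Finset.prod_le_one (fun i _ => abs_nonneg _) fun i _ => hdual (c i) (q i) (hcq i) _
    have e4 : |Mm (yy x) (m : ℤ)| * |ν (m : ℤ) - 1| ≤ Real.log x * (x ^ (3 / 4 : ℝ) + 1) :=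
      mul_le_mul e1 e2 (abs_nonneg _) (by linarith)
    calc |Mm (yy x) (m : ℤ)| * |ν (m : ℤ) - 1| * |∏ i, dual H (c i) (q i) (m : ℤ)|
        ≤ |Mm (yy x) (m : ℤ)| * |ν (m : ℤ) - 1| * 1 :=
          mul_le_mul_of_nonneg_left e3 (mul_nonneg (abs_nonneg _) (abs_nonneg _))
      _ ≤ _ := by rw [mul_one]; exact e4
  have hwin := R7_win Z (⌊x⌋₊ + 1) H _ (by nlinarith) hZb
  have hmain : |∑ b ∈ Finset.range (⌊x⌋₊ + 1), ∑ e ∈ Finset.range H, Z (b + e)| ≤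
      2 ^ (r + 1) * Real.sqrt η * ((⌊x⌋₊ : ℝ) + 1) * (H : ℝ) := by
    rw [← Finset.sum_fiberwise_of_maps_to (s := Finset.range (⌊x⌋₊ + 1))
      (t := Finset.range (WW (yy x))) (g := fun n => n % WW (yy x))
      (fun n _ => Finset.mem_range.2 (Nat.mod_lt _ (WW_pos _)))]
    refine (Finset.abs_sum_le_sum_abs _ _).trans ?_
    have h1 : ∀ t ∈ Finset.range (WW (yy x)),
        |∑ b ∈ (Finset.range (⌊x⌋₊ + 1)).filter (fun n => n % WW (yy x) = t),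
          ∑ e ∈ Finset.range H, Z (b + e)| ≤
        2 ^ (r + 1) * Real.sqrt η * (((⌊x⌋₊ : ℝ) + 1) / (WW (yy x) : ℝ)) * (H : ℝ) := by
      intro t ht
      have h2 := R7_cls r x H hH0 hWH hWN η hη0 ν c q hcq t (g4 t (Finset.mem_range.1 ht))
      refine le_trans (le_of_eq ?_) h2
      congr 1
      refine Finset.sum_congr rfl fun b _ => Finset.sum_congr rfl fun e _ => ?_
      rw [hZ, Nat.cast_add]
    refine (Finset.sum_le_sum h1).trans (le_of_eq ?_)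
    rw [Finset.sum_const, Finset.card_range, nsmul_eq_mul]
    have h3 : (WW (yy x) : ℝ) ≠ 0 := by linarith
    field_simp
  have hfin : 2 * (H : ℝ) * (Real.log x * (x ^ (3 / 4 : ℝ) + 1)) ≤
      x ^ (-(1 / 10) : ℝ) * ((⌊x⌋₊ : ℝ) + 1) := by
    have h1 : x ^ (-(1 / 10) : ℝ) * x ≤ x ^ (-(1 / 10) : ℝ) * ((⌊x⌋₊ : ℝ) + 1) :=
      mul_le_mul_of_nonneg_left hxN (Real.rpow_nonneg hx0.le _)
    refine le_trans ?_ h1
    have h2 : x ^ (-(1 / 10) : ℝ) * x = x ^ (3 / 20 : ℝ) * x ^ (3 / 4 : ℝ) := by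
      nth_rw 2 [← Real.rpow_one x]
      rw [← Real.rpow_add hx0, ← Real.rpow_add hx0]
      norm_num
    rw [h2]
    have h3 : 2 * (H : ℝ) * (Real.log x * (x ^ (3 / 4 : ℝ) + 1)) ≤
        2 * (Real.log x) ^ 2 * (Real.log x * (x ^ (3 / 4 : ℝ) + x ^ (3 / 4 : ℝ))) := by
      refine mul_le_mul (by linarith) ?_ ?_ (by positivity)
      · exact mul_le_mul_of_nonneg_left (by linarith) (by linarith)
      · exact mul_nonneg (by linarith) (by linarith)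
    refine h3.trans ?_
    have h4 : 2 * (Real.log x) ^ 2 * (Real.log x * (x ^ (3 / 4 : ℝ) + x ^ (3 / 4 : ℝ))) =
        (4 * Real.log x ^ 3) * x ^ (3 / 4 : ℝ) := by ring
    rw [h4]
    exact mul_le_mul_of_nonneg_right b1 (by linarith)
  have hHp : (0 : ℝ) < H := by linarith
  have hS : (H : ℝ) * |∑ n ∈ Finset.range (⌊x⌋₊ + 1), Z n| ≤
      (H : ℝ) * (2 ^ (r + 1) * Real.sqrt η * ((⌊x⌋₊ : ℝ) + 1) +
        2 * (H : ℝ) * (Real.log x * (x ^ (3 / 4 : ℝ) + 1))) := by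
    have h1 : (H : ℝ) * |∑ n ∈ Finset.range (⌊x⌋₊ + 1), Z n| =
        |(H : ℝ) * ∑ n ∈ Finset.range (⌊x⌋₊ + 1), Z n| := by
      rw [abs_mul, abs_of_pos hHp]
    rw [h1]
    have h2 := abs_sub_abs_le_abs_sub ((H : ℝ) * ∑ n ∈ Finset.range (⌊x⌋₊ + 1), Z n)
      (∑ b ∈ Finset.range (⌊x⌋₊ + 1), ∑ e ∈ Finset.range H, Z (b + e))
    have h3 : (H : ℝ) * (2 ^ (r + 1) * Real.sqrt η * ((⌊x⌋₊ : ℝ) + 1) +
        2 * (H : ℝ) * (Real.log x * (x ^ (3 / 4 : ℝ) + 1))) =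
        2 ^ (r + 1) * Real.sqrt η * ((⌊x⌋₊ : ℝ) + 1) * (H : ℝ) +
        2 * (H : ℝ) ^ 2 * (Real.log x * (x ^ (3 / 4 : ℝ) + 1)) := by ring
    rw [h3]
    linarith
  have hS2 := le_of_mul_le_mul_left hS hHp
  refine hS2.trans ?_
  have h9 : 0 ≤ 2 ^ (r + 1) * Real.sqrt η * ((⌊x⌋₊ : ℝ) + 1) := by positivity
  have h10 : (2 ^ (r + 2) * Real.sqrt η + x ^ (-(1 / 10) : ℝ)) * ((⌊x⌋₊ : ℝ) + 1) =
      2 * (2 ^ (r + 1) * Real.sqrt η * ((⌊x⌋₊ : ℝ) + 1)) +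
      x ^ (-(1 / 10) : ℝ) * ((⌊x⌋₊ : ℝ) + 1) := by ring
  rw [h10]
  linarith

end Pool.Agent.H12.DM
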