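import Pool.Agent.H12.DM.R7
import Pool.Agent.H12.DM.Db

/-!
# R8: existence of the dense model

`N = ⌊x⌋₊ + 1`, `M = Mm (yy x)`. We may assume `ε ≤ 1`. Let `(k, δ)` be as in `Db` for `ε/10`; choose `0 < η ≤ ε` with `2^{r+2} √η ≤ δ/2` for all `r ≤ 2k`; `K`, `X` from `K1 η`, `R7 r`
(`r ≤ 2k`) and such that `x^(-1/10) ≤ δ/2`. Fix `x`, `H`, `f`; `ν` from `K1`.

`ι = {n : Fin N // Int.gcd n (WW (yy x)) = 1}` (or all of `Fin N`), `m n = M n/N`, `∑ m ≤ (N + W)/N ≤ 2` (`Mm_sum`), `ν`, `f' n = f n/((4+η) wp (yy x))` for `n` coprime to `W` (`0` otherwise), so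
`0 ≤ f' ≤ ν` by `GoodN`. `F` = the set of the functions `± 1`, `± dual H c q`, `± dual H c q * dual H c' q'` with admissible data (restricted to `ι`); `|φ| ≤ 1` (`dual_le`); symmetric.
A product of at most `k` elements of `F` is `±` a product of `r ≤ 2k` dual functions, so by `R7` the hypothesis of `Db` holds (division by `N`). `Db` gives `g'`; put
`g n = (4+η) g' n` for `0 ≤ n < N` (coprime to `W`; `0` for the other `n`) and `g n = 0` otherwise; `0 ≤ g ≤ 4 + η ≤ 4 + ε`. For `n < N` not coprime to `W`: `M n = 0` and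
`f n = 0` (`La x n = 0`: primes `> x^(1/4) > yy x` are coprime to `W`). So for `φ ∈ F`:
`|∑_{n<N} (f n - M n g n) φ n| = (4+η) N |∑_ι m (f' - g') φ| ≤ 5 N ε/10 ≤ ε N`.
-/

set_option autoImplicit false

namespace Pool.Agent.H12.DM

open Finset Pool.Agent.H17 Pool.Agent.H6.MF Pool.Agent.H6.MB

theorem R8_range (N : ℕ) (h : ℤ → ℝ) :
    ∑ n ∈ Finset.range N, h (n : ℤ) = ∑ i ∈ Finset.Ioc (-1 : ℤ) (-1 + (N : ℤ)), h i := by
  apply Finset.sum_nbij (fun n : ℕ => (n : ℤ))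
  · intro n hn
    rw [Finset.mem_range] at hn
    rw [Finset.mem_Ioc]
    omega
  · intro a _ b _ hab
    have h1 : (a : ℤ) = (b : ℤ) := hab
    exact_mod_cast h1
  · intro i hi
    rw [Finset.mem_coe, Finset.mem_Ioc] at hi
    refine ⟨i.toNat, ?_, ?_⟩
    · rw [Finset.mem_coe, Finset.mem_range]
      omega
    · exact Int.toNat_of_nonneg (by omega)
  · intro n _
    rfl

/-- signed products of at most two dual functions -/
def R8_F (x : ℝ) (H N : ℕ) : Set (Fin N → ℝ) := fun φ =>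
  ∃ (s : ℝ) (L : List ((ℤ → ℝ) × (ℤ → ℝ))), (s = 1 ∨ s = -1) ∧ L.length ≤ 2 ∧
    (∀ p ∈ L, Adm x p.1 p.2) ∧
    ∀ i : Fin N, φ i = s * (L.map (fun p => dual H p.1 p.2 ((i : ℕ) : ℤ))).prod

theorem R8_prod (x : ℝ) (H N : ℕ) (l : List (Fin N → ℝ)) (hl : ∀ φ ∈ l, R8_F x H N φ) :
    ∃ (s : ℝ) (L : List ((ℤ → ℝ) × (ℤ → ℝ))), (s = 1 ∨ s = -1) ∧ L.length ≤ 2 * l.length ∧
    (∀ p ∈ L, Adm x p.1 p.2) ∧ ∀ i : Fin N, (l.map (fun φ => φ i)).prod =
      s * (L.map (fun p => dual H p.1 p.2 ((i : ℕ) : ℤ))).prod := by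
  induction l with
  | nil =>
    refine ⟨1, [], Or.inl rfl, le_rfl, ?_, ?_⟩
    · intro p hp
      simp at hp
    · intro i
      simp
  | cons φ l ih =>
    obtain ⟨s, L, hs, hL, hA, hp⟩ := ih (fun ψ hψ => hl ψ (List.mem_cons_of_mem _ hψ))
    obtain ⟨s', L', hs', hL', hA', hp'⟩ := hl φ List.mem_cons_self
    refine ⟨s' * s, L' ++ L, ?_, ?_, ?_, ?_⟩
    · rcases hs with rfl | rfl <;> rcases hs' with rfl | rfl <;> norm_num
    · rw [List.length_append, List.length_cons]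
      omega
    · intro p hpm
      rcases List.mem_append.1 hpm with h | h
      · exact hA' p h
      · exact hA p h
    · intro i
      rw [List.map_cons, List.prod_cons, hp i, hp' i, List.map_append, List.prod_append]
      ring

theorem R8_abs (x : ℝ) (H : ℕ) (hd : ∀ c q : ℤ → ℝ, Adm x c q → ∀ n : ℤ, |dual H c q n| ≤ 1)
    (n : ℤ) (L : List ((ℤ → ℝ) × (ℤ → ℝ))) (hA : ∀ p ∈ L, Adm x p.1 p.2) :
    |(L.map (fun p => dual H p.1 p.2 n)).prod| ≤ 1 := by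
  induction L with
  | nil => simp
  | cons p L ih =>
    rw [List.map_cons, List.prod_cons, abs_mul]
    exact mul_le_one₀ (hd _ _ (hA p List.mem_cons_self) n) (abs_nonneg _)
      (ih (fun q hq => hA q (List.mem_cons_of_mem _ hq)))

theorem R8 (ε : ℝ) (hε : 0 < ε) : ∃ K X : ℝ, ∀ x : ℝ, X ≤ x → ∀ H : ℕ, K * Real.log x ≤ (H : ℝ) →
    (H : ℝ) ≤ (Real.log x) ^ 2 → ∀ f : ℤ → ℝ, (∀ n, 0 ≤ f n ∧ f n ≤ La x n) →
    ∃ g : ℤ → ℝ, (∀ n, 0 ≤ g n ∧ g n ≤ 4 + ε) ∧ (∀ n : ℤ, n < 0 ∨ ((⌊x⌋₊ + 1 : ℕ) : ℤ) ≤ n → g n = 0) ∧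
      |∑ n ∈ Finset.range (⌊x⌋₊ + 1), (f (n : ℤ) - Mm (yy x) (n : ℤ) * g (n : ℤ))| ≤ ε * ((⌊x⌋₊ : ℝ) + 1) ∧
      (∀ c q : ℤ → ℝ, Adm x c q →
        |∑ n ∈ Finset.range (⌊x⌋₊ + 1), (f (n : ℤ) - Mm (yy x) (n : ℤ) * g (n : ℤ)) * dual H c q (n : ℤ)|
          ≤ ε * ((⌊x⌋₊ : ℝ) + 1)) ∧
      (∀ c q c' q' : ℤ → ℝ, Adm x c q → Adm x c' q' →
        |∑ n ∈ Finset.range (⌊x⌋₊ + 1), (f (n : ℤ) - Mm (yy x) (n : ℤ) * g (n : ℤ)) *
            (dual H c q (n : ℤ) * dual H c' q' (n : ℤ))| ≤ ε * ((⌊x⌋₊ : ℝ) + 1)) := by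
  obtain ⟨ε₁, he₁⟩ : ∃ e : ℝ, e = min ε 1 := ⟨_, rfl⟩
  have h10 : 0 < ε₁ := he₁ ▸ lt_min hε one_pos
  have h1ε : ε₁ ≤ ε := he₁ ▸ min_le_left _ _
  have h11 : ε₁ ≤ 1 := he₁ ▸ min_le_right _ _
  obtain ⟨k, δ, hδ, hDb⟩ := Db (ε₁ / 10) (by positivity) (by linarith)
  obtain ⟨η, hη⟩ : ∃ e : ℝ, e = min ε₁ ((δ / 2 ^ (2 * k + 3)) ^ 2) := ⟨_, rfl⟩
  have hη0 : 0 < η := by
    rw [hη]
    exact lt_min h10 (by positivity)
  have hηε : η ≤ ε₁ := hη ▸ min_le_left _ _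
  have hη1 : η ≤ 1 := hηε.trans h11
  have hsq : Real.sqrt η ≤ δ / 2 ^ (2 * k + 3) := by
    rw [Real.sqrt_le_left (by positivity)]
    exact hη ▸ min_le_right _ _
  obtain ⟨K, X1, hK1⟩ := K1 η hη0
  obtain ⟨X2, hX2⟩ := dual_le
  have hR7 := fun r => R7 r
  choose Xr hXr using hR7
  have htend : Filter.Tendsto (fun x : ℝ => x ^ (-(1 / 10) : ℝ)) Filter.atTop (nhds 0) :=
    tendsto_rpow_neg_atTop (by norm_num)
  have hev : ∀ᶠ x : ℝ in Filter.atTop, x ^ (-(1 / 10) : ℝ) ≤ δ / 2 := by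
    filter_upwards [htend.eventually_lt_const (show (0 : ℝ) < δ / 2 by positivity)] with x hx
    exact hx.le
  obtain ⟨X3, hX3⟩ := Filter.eventually_atTop.1 hev
  obtain ⟨X4, hX4⟩ := Filter.eventually_atTop.1
    (Real.tendsto_log_atTop.eventually_ge_atTop (1 : ℝ))
  refine ⟨max K 1, |X1| + |X2| + |X3| + |X4| + 3 + ∑ r ∈ Finset.range (2 * k + 1), |Xr r|, ?_⟩
  intro x hx H hH1 hH2 f hf
  have hs0 : 0 ≤ ∑ r ∈ Finset.range (2 * k + 1), |Xr r| := Finset.sum_nonneg fun r _ => abs_nonneg _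
  have a1 := le_abs_self X1
  have a2 := le_abs_self X2
  have a3 := le_abs_self X3
  have a4 := le_abs_self X4
  have b1 := abs_nonneg X1
  have b2 := abs_nonneg X2
  have b3 := abs_nonneg X3
  have b4 := abs_nonneg X4
  have hx3 : 3 ≤ x := by linarith
  have hlog : 1 ≤ Real.log x := hX4 x (by linarith)
  have hxr : ∀ r ≤ 2 * k, Xr r ≤ x := by
    intro r hr
    have h1 : |Xr r| ≤ ∑ r ∈ Finset.range (2 * k + 1), |Xr r| :=
      Finset.single_le_sum (f := fun r => |Xr r|) (fun i _ => abs_nonneg _)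
        (Finset.mem_range.2 (by omega))
    have h2 := le_abs_self (Xr r)
    linarith
  have hHK : K * Real.log x ≤ (H : ℝ) :=
    (mul_le_mul_of_nonneg_right (le_max_left K 1) (by linarith)).trans hH1
  have hHL : Real.log x ≤ (H : ℝ) := by
    have h1 : 1 * Real.log x ≤ max K 1 * Real.log x :=
      mul_le_mul_of_nonneg_right (le_max_right K 1) (by linarith)
    linarith
  obtain ⟨ν, hν⟩ := hK1 x (by linarith)
  have hG := hν H hHK hH2
  obtain ⟨hν0, hνL, hνx, hνv⟩ := hG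
  have hdual := hX2 x (by linarith) H hHL
  have hwp := wp_pos (yy x)
  obtain ⟨N, hN⟩ : ∃ N : ℕ, N = ⌊x⌋₊ + 1 := ⟨_, rfl⟩
  have hNr : ((⌊x⌋₊ : ℝ) + 1) = (N : ℝ) := by
    rw [hN]
    push_cast
    ring
  have hN0 : (0 : ℝ) < N := by
    rw [← hNr]
    positivity
  have hNx : x ≤ (N : ℝ) := by
    rw [← hNr]
    exact (Nat.lt_floor_add_one x).le
  have hcop : ∀ n : ℤ, Mm (yy x) n * f n / wp (yy x) = f n := by
    intro n
    by_cases hn : Int.gcd n (WW (yy x) : ℤ) = 1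
    · have : Mm (yy x) n = wp (yy x) := by
        unfold Mm
        rw [if_pos hn]
      rw [this]
      field_simp
    · have h0 : Mm (yy x) n = 0 := by
        unfold Mm
        rw [if_neg hn]
      have h1 := hνL n
      rw [h0] at h1
      have h2 := hf n
      have h3 : f n = 0 := by
        apply le_antisymm _ h2.1
        linarith
      rw [h3]
      simp
  have hf' : ∀ i : Fin N, 0 ≤ f ((i : ℕ) : ℤ) / ((4 + η) * wp (yy x)) ∧
      f ((i : ℕ) : ℤ) / ((4 + η) * wp (yy x)) ≤ ν ((i : ℕ) : ℤ) := by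
    intro i
    have h2 := hf ((i : ℕ) : ℤ)
    have h40 : 0 < (4 + η) * wp (yy x) := by positivity
    refine ⟨div_nonneg h2.1 h40.le, ?_⟩
    rw [div_le_iff₀ h40]
    have h1 := hνL ((i : ℕ) : ℤ)
    have h3 : (4 + η) * Mm (yy x) ((i : ℕ) : ℤ) * ν ((i : ℕ) : ℤ) ≤
        (4 + η) * wp (yy x) * ν ((i : ℕ) : ℤ) := by
      apply mul_le_mul_of_nonneg_right _ (hν0 _)
      exact mul_le_mul_of_nonneg_left (Mm_le _ _) (by positivity)
    linarith
  have hsum2 : ∑ i : Fin N, Mm (yy x) ((i : ℕ) : ℤ) / (N : ℝ) ≤ 2 := by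
    rw [← Finset.sum_div, div_le_iff₀ hN0, Finset.sum_range (fun n : ℕ => Mm (yy x) (n : ℤ)) |>.symm,
      R8_range]
    have h1 := Mm_sum (yy x) 0 (-1) N
    simp only [zero_add] at h1
    have h2 := MAJ_W hlog
    have h3 : Real.log x ≤ x := (Real.log_le_sub_one_of_pos (by linarith)).trans (by linarith)
    linarith
  obtain ⟨g', hg', hφ⟩ := hDb (Fin N) (fun i => Mm (yy x) ((i : ℕ) : ℤ) / (N : ℝ))
    (fun i => ν ((i : ℕ) : ℤ)) (fun i => f ((i : ℕ) : ℤ) / ((4 + η) * wp (yy x))) (R8_F x H N)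
    (fun i => div_nonneg (Mm_nonneg _ _) hN0.le) hsum2 hf'
    ⟨fun _ => 1, 1, [], Or.inl rfl, by simp, by simp, by simp⟩
    (by
      rintro φ ⟨s, L, hs, hL, hA, hp⟩ i
      rw [hp i, abs_mul]
      have h1 := R8_abs x H hdual ((i : ℕ) : ℤ) L hA
      have h2 : |s| = 1 := by rcases hs with rfl | rfl <;> norm_num
      rw [h2, one_mul]
      exact h1)
    (by
      rintro φ ⟨s, L, hs, hL, hA, hp⟩
      refine ⟨-s, L, ?_, hL, hA, ?_⟩
      · rcases hs with rfl | rfl <;> norm_num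
      · intro i
        change -φ i = _
        rw [hp i]
        ring)
    (by
      intro l hl hlF
      obtain ⟨s, L, hs, hL, hA, hp⟩ := R8_prod x H N l hlF
      have hr : L.length ≤ 2 * k := by omega
      have h1 := hXr L.length x (hxr _ hr) H hHL hH2 η hη0 hη1 ν ⟨hν0, hνL, hνx, hνv⟩
        (fun i => (L.get i).1) (fun i => (L.get i).2) (fun i => hA _ (List.get_mem L i))
      have hLp : ∀ n : ℤ, ∏ i : Fin L.length, dual H (L.get i).1 (L.get i).2 n =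
          (L.map (fun p => dual H p.1 p.2 n)).prod := by
        intro n
        exact Fin.prod_univ_fun_getElem L (fun p => dual H p.1 p.2 n)
      have h2 : |∑ n ∈ Finset.range N, Mm (yy x) (n : ℤ) * (ν (n : ℤ) - 1) *
          (L.map (fun p => dual H p.1 p.2 (n : ℤ))).prod| ≤ δ * N := by
        rw [← hN] at h1
        simp only [hLp] at h1
        refine h1.trans ?_
        rw [hNr]
        apply mul_le_mul_of_nonneg_right _ hN0.le
        have h3 : (2 : ℝ) ^ (L.length + 2) ≤ 2 ^ (2 * k + 2) :=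
          pow_le_pow_right₀ (by norm_num) (by omega)
        have h4 : (2 : ℝ) ^ (L.length + 2) * Real.sqrt η ≤ 2 ^ (2 * k + 2) * (δ / 2 ^ (2 * k + 3)) :=
          mul_le_mul h3 hsq (Real.sqrt_nonneg _) (by positivity)
        have h5 : (2 : ℝ) ^ (2 * k + 2) * (δ / 2 ^ (2 * k + 3)) = δ / 2 := by
          obtain ⟨a, ha⟩ : ∃ a : ℝ, a = 2 ^ (2 * k + 2) := ⟨_, rfl⟩
          have ha0 : a ≠ 0 := by
            rw [ha]
            positivity
          rw [show (2 : ℝ) ^ (2 * k + 3) = 2 ^ (2 * k + 2) * 2 by rw [← pow_succ], ← ha]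
          field_simp
        have h6 := hX3 x (by linarith)
        linarith
      have h7 : ∑ i : Fin N, Mm (yy x) ((i : ℕ) : ℤ) / (N : ℝ) * (ν ((i : ℕ) : ℤ) - 1) *
          (l.map (fun φ => φ i)).prod = s / N * ∑ n ∈ Finset.range N, Mm (yy x) (n : ℤ) *
            (ν (n : ℤ) - 1) * (L.map (fun p => dual H p.1 p.2 (n : ℤ))).prod := by
        rw [Finset.sum_range (fun n : ℕ => Mm (yy x) (n : ℤ) *
            (ν (n : ℤ) - 1) * (L.map (fun p => dual H p.1 p.2 (n : ℤ))).prod), Finset.mul_sum]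
        apply Finset.sum_congr rfl
        intro i _
        rw [hp i]
        ring
      rw [h7, abs_mul, abs_div]
      have h8 : |s| = 1 := by rcases hs with rfl | rfl <;> norm_num
      rw [h8, Nat.abs_cast, div_mul_eq_mul_div, one_mul, div_le_iff₀ hN0]
      exact h2)
  obtain ⟨g, hg⟩ : ∃ g : ℤ → ℝ, g = fun n => if h : 0 ≤ n ∧ n.toNat < N then
      (4 + η) * g' ⟨n.toNat, h.2⟩ else 0 := ⟨_, rfl⟩
  have hgn : ∀ i : Fin N, g ((i : ℕ) : ℤ) = (4 + η) * g' i := by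
    intro i
    rw [hg]
    have h1 : 0 ≤ ((i : ℕ) : ℤ) ∧ ((i : ℕ) : ℤ).toNat < N := ⟨by omega, by
      rw [Int.toNat_natCast]
      exact i.2⟩
    change (if h : 0 ≤ ((i : ℕ) : ℤ) ∧ ((i : ℕ) : ℤ).toNat < N then
      (4 + η) * g' ⟨((i : ℕ) : ℤ).toNat, h.2⟩ else 0) = _
    rw [dif_pos h1]
    rfl
  have key : ∀ ψ : ℤ → ℝ, R8_F x H N (fun i => ψ ((i : ℕ) : ℤ)) →
      |∑ n ∈ Finset.range N, (f (n : ℤ) - Mm (yy x) (n : ℤ) * g (n : ℤ)) * ψ (n : ℤ)| ≤ ε * N := by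
    intro ψ hψ
    have h1 := hφ _ hψ
    have h2 : ∑ n ∈ Finset.range N, (f (n : ℤ) - Mm (yy x) (n : ℤ) * g (n : ℤ)) * ψ (n : ℤ) =
        ((4 + η) * N) * ∑ i : Fin N, Mm (yy x) ((i : ℕ) : ℤ) / (N : ℝ) *
          (f ((i : ℕ) : ℤ) / ((4 + η) * wp (yy x)) - g' i) * ψ ((i : ℕ) : ℤ) := by
      rw [Finset.sum_range (fun n : ℕ => (f (n : ℤ) - Mm (yy x) (n : ℤ) * g (n : ℤ)) * ψ (n : ℤ)),
        Finset.mul_sum]
      apply Finset.sum_congr rfl
      intro i _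
      rw [hgn i]
      have h3 := hcop ((i : ℕ) : ℤ)
      have h4 : (4 + η) * (N : ℝ) * (Mm (yy x) ((i : ℕ) : ℤ) / (N : ℝ) *
          (f ((i : ℕ) : ℤ) / ((4 + η) * wp (yy x)) - g' i) * ψ ((i : ℕ) : ℤ)) =
          (Mm (yy x) ((i : ℕ) : ℤ) * f ((i : ℕ) : ℤ) / wp (yy x) -
            Mm (yy x) ((i : ℕ) : ℤ) * ((4 + η) * g' i)) * ψ ((i : ℕ) : ℤ) := by
        have h5 : (4 + η) ≠ 0 := by positivity
        field_simp
      rw [h4, h3]
    rw [h2, abs_mul, abs_of_pos (by positivity)]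
    calc (4 + η) * (N : ℝ) * |∑ i : Fin N, Mm (yy x) ((i : ℕ) : ℤ) / (N : ℝ) *
          (f ((i : ℕ) : ℤ) / ((4 + η) * wp (yy x)) - g' i) * ψ ((i : ℕ) : ℤ)|
        ≤ (4 + η) * N * (ε₁ / 10) := mul_le_mul_of_nonneg_left h1 (by positivity)
      _ ≤ ε * N := by
          have h6 : (4 + η) * (ε₁ / 10) ≤ ε := by nlinarith
          calc (4 + η) * (N : ℝ) * (ε₁ / 10) = ((4 + η) * (ε₁ / 10)) * N := by ring
            _ ≤ ε * N := mul_le_mul_of_nonneg_right h6 hN0.le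
  rw [← hN, hNr]
  refine ⟨g, ?_, ?_, ?_, ?_, ?_⟩
  · intro n
    rw [hg]
    by_cases h : 0 ≤ n ∧ n.toNat < N
    · simp only [dif_pos h]
      have h1 := hg' ⟨n.toNat, h.2⟩
      refine ⟨mul_nonneg (by positivity) h1.1, ?_⟩
      calc (4 + η) * g' ⟨n.toNat, h.2⟩ ≤ (4 + η) * 1 :=
            mul_le_mul_of_nonneg_left h1.2 (by positivity)
        _ ≤ 4 + ε := by linarith
    · simp only [dif_neg h]
      exact ⟨le_rfl, by linarith⟩
  · intro n hn
    rw [hg]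
    have h : ¬ (0 ≤ n ∧ n.toNat < N) := by omega
    simp only [dif_neg h]
  · have h1 := key (fun _ => 1) ⟨1, [], Or.inl rfl, by simp, by simp, by simp⟩
    simpa only [mul_one] using h1
  · intro c q hcq
    exact key (fun n => dual H c q n) ⟨1, [(c, q)], Or.inl rfl, by simp, by simpa using hcq,
      by simp⟩
  · intro c q c' q' hcq hcq'
    refine key (fun n => dual H c q n * dual H c' q' n) ⟨1, [(c, q), (c', q')], Or.inl rfl,
      by simp, ?_, by simp⟩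
    intro p hp
    rcases List.mem_cons.1 hp with rfl | hp
    · exact hcq
    · rw [List.mem_singleton] at hp
      rw [hp]
      exact hcq'

end Pool.Agent.H12.DM
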