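import Pool.Agent.H12.DM.Ms
import Pool.Agent.H12.DM.Mo

/-!
# R9: small pairings with dual functions give small windows in `L²`

`L = log x`, `N = ⌊x⌋₊ + 1`, `M = Mm (yy x)`, `F n = f n - M n g n` (`Hyp` below), `F` vanishes outside `[0,N)` (`La x n = 0` for `n < 0` or `n > x`; `g = 0` there). `D ⊆ Icc 1 H`.
`Dense x H ε' f g` collects the hypotheses.

1. `S₁ = ∑_{n∈rgH} |nf D F n|`: with `u n = sign (nf D F n)` for `0 ≤ n < N + H`, `0` otherwise: `S₁ = ∑_n u(n) ∑_{d∈D} F(n-d) = ∑_{m<N} F(m) ∑_{d∈D} u(m+d)` (for `0 ≤ m < N`, `d ∈ D`, `m + d ∈ [0,N+H)`)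
   `= 6H ∑_{m<N} F(m) dual H c u m` with `c(d) = 1` if `-d ∈ D`, else `0`. The data are admissible (`|u| ≤ 1 ≤ 1 + M`). So `S₁ ≤ 6 H ε' N`.
2. `|nf D F n| ≤ nf (Icc 1 H) (La x) n + 5 ∑_{d∈Icc 1 H} M(n-d) ≤ nf (Icc 1 H) (La x) n + 10 H` (`Mm_sum`, `W ≤ L ≤ H`). So `S₄ = ∑_{rgH} |nf D F n|^4 ≤ 8 C N H^4 + 8 (10H)^4 * 2N =: C₁ N H^4` (`Mo4`; `(a+b)^4 ≤ 8(a^4+b^4)`,
   `#rgH = N + H ≤ 2N`).
3. For real `t` and `T > 0`: `t^2 ≤ T |t| + t^4/T^2`. With `T = A H`: `∑ (nf)^2 ≤ A H S₁ + S₄/(A^2H^2) ≤ (6 A ε' + C₁/A^2) N H^2`. Choose `A = √(2 C₁/ε)`, `ε' = ε/(12 A)`.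
-/

set_option autoImplicit false

namespace Pool.Agent.H12.DM

open Finset Pool.Agent.H17 Pool.Agent.H6.MF Pool.Agent.H6.MB

/-- `M g` is a model of `f` up to `ε` -/
def Dense (x : ℝ) (H : ℕ) (ε : ℝ) (f g : ℤ → ℝ) : Prop :=
  (∀ n, 0 ≤ f n ∧ f n ≤ La x n) ∧ (∀ n, 0 ≤ g n ∧ g n ≤ 5) ∧
  (∀ n : ℤ, n < 0 ∨ ((⌊x⌋₊ + 1 : ℕ) : ℤ) ≤ n → g n = 0) ∧
  (∀ c q : ℤ → ℝ, Adm x c q →
    |∑ n ∈ Finset.range (⌊x⌋₊ + 1), (f (n : ℤ) - Mm (yy x) (n : ℤ) * g (n : ℤ)) * dual H c q (n : ℤ)|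
      ≤ ε * ((⌊x⌋₊ : ℝ) + 1)) ∧
  (∀ c q c' q' : ℤ → ℝ, Adm x c q → Adm x c' q' →
    |∑ n ∈ Finset.range (⌊x⌋₊ + 1), (f (n : ℤ) - Mm (yy x) (n : ℤ) * g (n : ℤ)) *
        (dual H c q (n : ℤ) * dual H c' q' (n : ℤ))| ≤ ε * ((⌊x⌋₊ : ℝ) + 1))

/-- `La` vanishes outside `[0, ⌊x⌋₊]` -/
lemma La_out {x : ℝ} (hx : 0 ≤ x) {n : ℤ} (hn : n < 0 ∨ ((⌊x⌋₊ + 1 : ℕ) : ℤ) ≤ n) : La x n = 0 := by
  unfold La
  rw [if_neg]
  rintro ⟨_, h1, h2⟩
  rcases hn with h | h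
  · have h3 : (0 : ℝ) ≤ x ^ (1 / 4 : ℝ) := Real.rpow_nonneg hx _
    have h4 : ((n : ℤ) : ℝ) < 0 := by exact_mod_cast h
    linarith
  · have h3 : x < (⌊x⌋₊ : ℝ) + 1 := Nat.lt_floor_add_one x
    have h4 : (((⌊x⌋₊ + 1 : ℕ) : ℤ) : ℝ) ≤ (n : ℝ) := by exact_mod_cast h
    push_cast at h4
    linarith

/-- the sum of windows against `u` is a pairing of `F` with a dual function -/
lemma pair_eq (N H : ℕ) (hH : 0 < H) (F u : ℤ → ℝ) (hF : ∀ n : ℤ, n < 0 ∨ (N : ℤ) ≤ n → F n = 0)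
    (D : Finset ℤ) (hD : D ⊆ Finset.Icc 1 (H : ℤ)) :
    ∑ n ∈ Finset.range (N + H), u (n : ℤ) * nf D F (n : ℤ) =
      (6 * (H : ℝ)) * ∑ n ∈ Finset.range N, F (n : ℤ) * dual H (fun d => if -d ∈ D then 1 else 0) u (n : ℤ) := by
  have hH' : (H : ℝ) ≠ 0 := by exact_mod_cast hH.ne'
  have h1 : ∀ n : ℤ, dual H (fun d => if -d ∈ D then 1 else 0) u n =
      (1 / (6 * (H : ℝ))) * ∑ d ∈ D, u (n + d) := by
    intro n
    unfold dual
    congr 1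
    dsimp only
    simp only [ite_mul, one_mul, zero_mul]
    rw [← Finset.sum_filter]
    refine Finset.sum_nbij' (fun d => -d) (fun d => -d) ?_ ?_ ?_ ?_ ?_
    · intro d hd
      rw [Finset.mem_filter] at hd
      exact hd.2
    · intro d hd
      rw [Finset.mem_filter, neg_neg]
      refine ⟨?_, hd⟩
      have := hD hd
      rw [Finset.mem_Icc] at this ⊢
      constructor <;> omega
    · intro d _; exact neg_neg d
    · intro d _; exact neg_neg d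
    · intro d _
      rw [← sub_eq_add_neg]
  simp only [h1]
  rw [Finset.mul_sum]
  have h2 : ∀ n : ℕ, 6 * (H : ℝ) * (F (n : ℤ) * ((1 / (6 * (H : ℝ))) * ∑ d ∈ D, u ((n : ℤ) + d))) =
      ∑ d ∈ D, F (n : ℤ) * u ((n : ℤ) + d) := by
    intro n
    rw [← Finset.mul_sum]
    field_simp
  simp only [h2]
  rw [Finset.sum_comm]
  have h3 : ∀ n : ℕ, u (n : ℤ) * nf D F (n : ℤ) = ∑ d ∈ D, u (n : ℤ) * F ((n : ℤ) - d) := by
    intro n
    unfold nf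
    rw [Finset.mul_sum]
  simp only [h3]
  rw [Finset.sum_comm]
  refine Finset.sum_congr rfl fun d hd => ?_
  have hd' := hD hd
  rw [Finset.mem_Icc] at hd'
  obtain ⟨e, rfl⟩ : ∃ e : ℕ, d = (e : ℤ) := ⟨d.toNat, by omega⟩
  have h4 : ∑ n ∈ Finset.range N, F (n : ℤ) * u ((n : ℤ) + (e : ℤ)) =
      ∑ n ∈ Finset.Ico (0 + e) (N + e), u (n : ℤ) * F ((n : ℤ) - (e : ℤ)) := by
    rw [← Finset.sum_Ico_add' (fun n : ℕ => u (n : ℤ) * F ((n : ℤ) - (e : ℤ))) 0 N e,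
      Finset.range_eq_Ico]
    refine Finset.sum_congr rfl fun n _ => ?_
    push_cast
    rw [add_sub_cancel_right, mul_comm]
  rw [h4]
  symm
  apply Finset.sum_subset
  · intro n hn
    rw [Finset.mem_Ico] at hn
    rw [Finset.mem_range]
    omega
  · intro n _ hn
    rw [Finset.mem_Ico] at hn
    rw [hF _ _, mul_zero]
    by_cases h5 : (n : ℤ) - (e : ℤ) < 0
    · exact Or.inl h5
    · right
      by_contra h6
      apply hn
      constructor <;> omega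

/-- interpolation between first and fourth moment -/
lemma sq_le_lin_quart (t T : ℝ) (hT : 0 < T) : t ^ 2 ≤ T * |t| + t ^ 4 / T ^ 2 := by
  have h0 : 0 ≤ |t| := abs_nonneg t
  have h1 : t ^ 2 = |t| ^ 2 := (sq_abs t).symm
  have h2 : t ^ 4 = |t| ^ 4 := by
    rw [show t ^ 4 = (t ^ 2) ^ 2 by ring, h1]; ring
  rw [h1, h2]
  generalize |t| = s at *
  rcases le_total s T with h | h
  · have : 0 ≤ s ^ 4 / T ^ 2 := by positivity
    nlinarith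
  · have h3 : s ^ 2 ≤ s ^ 4 / T ^ 2 := by
      rw [le_div_iff₀ (by positivity)]
      have : T ^ 2 ≤ s ^ 2 := by gcongr
      nlinarith [sq_nonneg s]
    have : 0 ≤ T * s := by positivity
    linarith

theorem R9 (ε : ℝ) (hε : 0 < ε) : ∃ ε' : ℝ, 0 < ε' ∧ ∃ X : ℝ, ∀ x : ℝ, X ≤ x → ∀ H : ℕ, Real.log x ≤ (H : ℝ) →
    (H : ℝ) ≤ (Real.log x) ^ 2 → ∀ f g : ℤ → ℝ, Dense x H ε' f g → ∀ D : Finset ℤ, D ⊆ Finset.Icc 1 (H : ℤ) →
    ∑ n ∈ rgH x H, (nf D (fun n => f n - Mm (yy x) n * g n) (n : ℤ)) ^ 2 ≤ ε * ((⌊x⌋₊ : ℝ) + 1) * (H : ℝ) ^ 2 := by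
  obtain ⟨C, X₀, hC, hMo⟩ := Mo4
  set C₁ : ℝ := 8 * C + 160000 with hC₁
  have hC₁pos : 0 < C₁ := by positivity
  set A : ℝ := Real.sqrt (2 * C₁ / ε) with hA
  have hApos : 0 < A := Real.sqrt_pos.mpr (by positivity)
  have hA2 : A ^ 2 = 2 * C₁ / ε := Real.sq_sqrt (by positivity)
  have hev1 := eventually_log_pow_le 2 (show (0 : ℝ) < 1 by norm_num)
  have hev2 := Real.tendsto_log_atTop.eventually_ge_atTop 1
  obtain ⟨X₁, hX₁⟩ := Filter.eventually_atTop.mp (hev1.and hev2)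
  refine ⟨ε / (12 * A), by positivity, max (max X₀ X₁) 1, ?_⟩
  intro x hx H hH1 hH2 f g hfg D hD
  have hx0 : X₀ ≤ x := ((le_max_left _ _).trans (le_max_left _ _)).trans hx
  have hx1 : X₁ ≤ x := ((le_max_right _ _).trans (le_max_left _ _)).trans hx
  have hx2 : 1 ≤ x := (le_max_right _ _).trans hx
  obtain ⟨hl1, hl2⟩ := hX₁ x hx1
  rw [one_mul] at hl1
  obtain ⟨hf, hg, hg0, hpair, -⟩ := hfg
  have hHpos' : (0 : ℝ) < H := by linarith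
  have hHpos : 0 < H := by exact_mod_cast hHpos'
  set N : ℕ := ⌊x⌋₊ + 1 with hN
  have hNx : x ≤ (⌊x⌋₊ : ℝ) + 1 := (Nat.lt_floor_add_one x).le
  have hNcast : ((N : ℕ) : ℝ) = (⌊x⌋₊ : ℝ) + 1 := by rw [hN]; push_cast; ring
  have hHN : (H : ℝ) ≤ (⌊x⌋₊ : ℝ) + 1 := by linarith
  set F : ℤ → ℝ := fun n => f n - Mm (yy x) n * g n with hF
  have hF0 : ∀ n : ℤ, n < 0 ∨ (N : ℤ) ≤ n → F n = 0 := by
    intro n hn
    have h1 : f n = 0 := by
      have := hf n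
      rw [La_out (by linarith) hn] at this
      exact le_antisymm this.2 this.1
    rw [hF]
    dsimp only
    rw [h1, hg0 n hn, mul_zero, sub_zero]
  -- W ≤ H
  have hWH : ((WW (yy x) : ℕ) : ℝ) ≤ H := by
    have h1 : (1 : ℝ) ≤ ((WW (yy x) : ℕ) : ℝ) := by exact_mod_cast WW_pos (yy x)
    have h2 := WW_yy_pow_le hl2
    have h3 : ((WW (yy x) : ℕ) : ℝ) ≤ ((WW (yy x) : ℕ) : ℝ) ^ 34 := le_self_pow₀ h1 (by norm_num)
    have h4 : Real.sqrt (Real.log x) ≤ Real.log x := by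
      rw [Real.sqrt_le_left (by linarith)]
      nlinarith
    linarith
  -- first moment
  have hS1 : ∑ n ∈ rgH x H, |nf D F (n : ℤ)| ≤ 6 * (H : ℝ) * (ε / (12 * A) * ((⌊x⌋₊ : ℝ) + 1)) := by
    set u : ℤ → ℝ := fun n => if 0 ≤ nf D F n then 1 else -1 with hu
    have hu1 : ∀ n, |u n| = 1 := by
      intro n
      rw [hu]
      dsimp only
      split_ifs <;> simp
    have hu2 : ∀ n, |nf D F n| = u n * nf D F n := by
      intro n
      rw [hu]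
      dsimp only
      split_ifs with h
      · rw [abs_of_nonneg h, one_mul]
      · rw [abs_of_neg (not_le.mp h)]; ring
    have h1 : ∑ n ∈ rgH x H, |nf D F (n : ℤ)| = ∑ n ∈ Finset.range (N + H), u (n : ℤ) * nf D F (n : ℤ) := by
      unfold rgH
      exact Finset.sum_congr rfl fun n _ => hu2 _
    rw [h1, pair_eq N H hHpos F u hF0 D hD]
    apply mul_le_mul_of_nonneg_left _ (by positivity)
    refine (le_abs_self _).trans (hpair _ _ ⟨?_, ?_⟩)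
    · intro d
      dsimp only
      split_ifs <;> simp
    · intro n
      rw [hu1]
      have := Mm_nonneg (yy x) n
      linarith
  -- fourth moment
  have hb : ∀ n : ℤ, |nf D F n| ≤ nf (Finset.Icc 1 (H : ℤ)) (La x) n + 10 * (H : ℝ) := by
    intro n
    have h1 : |nf D F n| ≤ ∑ d ∈ Finset.Icc 1 (H : ℤ), (La x (n - d) + 5 * Mm (yy x) (n - d)) := by
      unfold nf
      refine (Finset.abs_sum_le_sum_abs _ _).trans ?_
      refine (Finset.sum_le_sum fun d _ => ?_).trans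
        (Finset.sum_le_sum_of_subset_of_nonneg hD fun d _ _ => ?_)
      · rw [hF]
        dsimp only
        have a1 := hf (n - d)
        have a2 := hg (n - d)
        have a3 := Mm_nonneg (yy x) (n - d)
        have a4 : Mm (yy x) (n - d) * g (n - d) ≤ Mm (yy x) (n - d) * 5 :=
          mul_le_mul_of_nonneg_left a2.2 a3
        have a5 : 0 ≤ Mm (yy x) (n - d) * g (n - d) := mul_nonneg a3 a2.1
        rw [abs_le]
        constructor <;> linarith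
      · have a3 := Mm_nonneg (yy x) (n - d)
        have a4 := La_nonneg hx2 (n - d)
        linarith
    rw [Finset.sum_add_distrib, ← Finset.mul_sum] at h1
    have h2 : ∑ d ∈ Finset.Icc 1 (H : ℤ), Mm (yy x) (n - d) ≤ (H : ℝ) + (WW (yy x) : ℝ) := by
      refine le_trans (le_of_eq ?_) (Mm_sum (yy x) n (-(H : ℤ) - 1) H)
      refine Finset.sum_nbij' (fun d => -d) (fun d => -d) ?_ ?_ ?_ ?_ ?_
      · intro d hd
        rw [Finset.mem_Icc] at hd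
        rw [Finset.mem_Ioc]
        constructor <;> omega
      · intro d hd
        rw [Finset.mem_Ioc] at hd
        rw [Finset.mem_Icc]
        constructor <;> omega
      · intro d _; exact neg_neg d
      · intro d _; exact neg_neg d
      · intro d _
        rw [← sub_eq_add_neg]
    unfold nf at h1 ⊢
    linarith
  have hS4 : ∑ n ∈ rgH x H, (nf D F (n : ℤ)) ^ 4 ≤ C₁ * ((⌊x⌋₊ : ℝ) + 1) * (H : ℝ) ^ 4 := by
    have h1 : ∀ n : ℤ, (nf D F n) ^ 4 ≤ 8 * (nf (Finset.Icc 1 (H : ℤ)) (La x) n) ^ 4 + 80000 * (H : ℝ) ^ 4 := by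
      intro n
      have a1 : (nf D F n) ^ 4 = |nf D F n| ^ 4 := by
        have h := sq_abs (nf D F n)
        calc (nf D F n) ^ 4 = ((nf D F n) ^ 2) ^ 2 := by ring
          _ = (|nf D F n| ^ 2) ^ 2 := by rw [h]
          _ = |nf D F n| ^ 4 := by ring
      have a2 : 0 ≤ nf (Finset.Icc 1 (H : ℤ)) (La x) n := nf_nonneg (La_nonneg hx2) n
      have a3 := hb n
      rw [a1]
      calc |nf D F n| ^ 4 ≤ (nf (Finset.Icc 1 (H : ℤ)) (La x) n + 10 * (H : ℝ)) ^ 4 := by gcongr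
        _ ≤ 8 * ((nf (Finset.Icc 1 (H : ℤ)) (La x) n) ^ 4 + (10 * (H : ℝ)) ^ 4) := by
            generalize nf (Finset.Icc 1 (H : ℤ)) (La x) n = a at *
            have := add_pow_le a2 (show 0 ≤ 10 * (H : ℝ) by positivity) 4
            norm_num at this
            linarith
        _ = _ := by ring
    calc ∑ n ∈ rgH x H, (nf D F (n : ℤ)) ^ 4
        ≤ ∑ n ∈ rgH x H, (8 * (nf (Finset.Icc 1 (H : ℤ)) (La x) (n : ℤ)) ^ 4 + 80000 * (H : ℝ) ^ 4) :=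
          Finset.sum_le_sum fun n _ => h1 _
      _ = 8 * ∑ n ∈ rgH x H, (nf (Finset.Icc 1 (H : ℤ)) (La x) (n : ℤ)) ^ 4
          + (N + H : ℕ) * (80000 * (H : ℝ) ^ 4) := by
          rw [Finset.sum_add_distrib, ← Finset.mul_sum, Finset.sum_const, rgH, Finset.card_range,
            nsmul_eq_mul]
      _ ≤ 8 * (C * ((⌊x⌋₊ : ℝ) + 1) * (H : ℝ) ^ 4) + (2 * ((⌊x⌋₊ : ℝ) + 1)) * (80000 * (H : ℝ) ^ 4) := by
          have b1 := hMo x hx0 H hH1 (by nlinarith [sq_nonneg (Real.log x)])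
          have b2 : ((N + H : ℕ) : ℝ) ≤ 2 * ((⌊x⌋₊ : ℝ) + 1) := by
            push_cast
            rw [hNcast]
            linarith
          gcongr
      _ = C₁ * ((⌊x⌋₊ : ℝ) + 1) * (H : ℝ) ^ 4 := by rw [hC₁]; ring
  -- conclusion
  have hN0 : (0 : ℝ) < (⌊x⌋₊ : ℝ) + 1 := by positivity
  have hT : 0 < A * (H : ℝ) := by positivity
  calc ∑ n ∈ rgH x H, (nf D F (n : ℤ)) ^ 2
      ≤ ∑ n ∈ rgH x H, (A * (H : ℝ) * |nf D F (n : ℤ)| + (nf D F (n : ℤ)) ^ 4 / (A * (H : ℝ)) ^ 2) :=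
        Finset.sum_le_sum fun n _ => sq_le_lin_quart _ _ hT
    _ = A * (H : ℝ) * ∑ n ∈ rgH x H, |nf D F (n : ℤ)|
        + (∑ n ∈ rgH x H, (nf D F (n : ℤ)) ^ 4) / (A * (H : ℝ)) ^ 2 := by
        rw [Finset.sum_add_distrib, ← Finset.mul_sum, ← Finset.sum_div]
    _ ≤ A * (H : ℝ) * (6 * (H : ℝ) * (ε / (12 * A) * ((⌊x⌋₊ : ℝ) + 1)))
        + (C₁ * ((⌊x⌋₊ : ℝ) + 1) * (H : ℝ) ^ 4) / (A * (H : ℝ)) ^ 2 := by gcongr
    _ = ε * ((⌊x⌋₊ : ℝ) + 1) * (H : ℝ) ^ 2 := by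
        rw [mul_pow, hA2]
        field_simp
        ring

end Pool.Agent.H12.DM
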