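import Pool.Agent.H12.DM.Rr

/-!
# Tr: sums over residue classes of products of `rr` and `V`

`Y = WW y`, `w = yy x` (`w ≥ y` for large `x`, `tendsto_yy`), `P₁ = PR y w`, `P₂ = PR w z`, `z = x^(dl b)` (`w ≤ z` for large `x`).

* `TD_per`: a function `F` with period `P` and `|F| ≤ B` is `TD P (P * B)`: `D = {(P, c) : 0 ≤ c < P}`, `lam (P,c) = F c`
  (for given `n` exactly one `c`, `c = n % P`, satisfies `P ∣ n - c`).
* `X₁ m = ∏_{a∈s} rr (m+a)^{e a}` has period `P₁` (`rr_period`) and `0 ≤ X₁ ≤ (wp w)^16 ≤ W^16` (`rr_le`, `wp y ≥ 1`,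
  `wp w ≤ W` since `φ(W) ≥ 1`); `P₁ ≤ W` (`PR y w ∣ WW w`). So `TD P₁ (W^17)`, and `W^34 ≤ √(log x)`, so the bound is `≤ log x`.
* `X₂ m = ∏_{a∈s'} V (m+a)^{f a}`: `TD P₂ ((x^(1/30))^(∑ f a))` by `TD_add_shift`, `TD_pow`, `TD_prod`; as `∑_{s'} f ≤ 4` and
  `x ≥ 1` the bound is `≤ x^(4/30)`.
* `TD_mono` to the modulus `P₁ * P₂` and `TD_mul`: `X₁ X₂` is `TD (P₁ P₂) (log x * x^(4/30))`.
* `avg_mul` (`P₁`, `P₂` are coprime: `MAJ_cop`): `avgP (P₁ P₂) (X₁ X₂) = avgP P₁ X₁ * avgP P₂ X₂` (periods: `rr_period`, `TD_period`).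
* `TRN` with `W := WW y`, coprime to `P₁ P₂` (`MAJ_copW` for each factor, all primes in `PI y w`, `PI w z` are `> y`), `N = ⌊x⌋₊ + 1`:
  error `≤ log x * x^(4/30) ≤ x^(1/2)` for large `x`.
-/

set_option autoImplicit false

namespace Pool.Agent.H12.DM

open Finset Pool.Agent.H17 Pool.Agent.H6.MF Pool.Agent.H6.MB

theorem TD_per {P : ℕ} (hP : 0 < P) {B : ℝ} {F : ℤ → ℝ} (hF : ∀ n k : ℤ, F (n + k * (P : ℤ)) = F n)
    (hB : ∀ n, |F n| ≤ B) : TD P ((P : ℝ) * B) F := by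
  have hfun : (fun n : ℤ => ∑ c ∈ range P, if (P : ℤ) ∣ n - (c : ℤ) then F (c : ℤ) else 0) = F := by
    funext n
    have hPz : (0 : ℤ) < (P : ℤ) := by exact_mod_cast hP
    have hm0 : 0 ≤ n % (P : ℤ) := Int.emod_nonneg _ hPz.ne'
    have hm1 : n % (P : ℤ) < (P : ℤ) := Int.emod_lt_of_pos _ hPz
    have hmt : (((n % (P : ℤ)).toNat : ℕ) : ℤ) = n % (P : ℤ) := Int.toNat_of_nonneg hm0
    have hdec : n = n % (P : ℤ) + n / (P : ℤ) * (P : ℤ) := by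
      have := Int.emod_add_mul_ediv n (P : ℤ)
      linarith
    rw [sum_eq_single (n % (P : ℤ)).toNat]
    · rw [hmt, if_pos ⟨n / (P : ℤ), by linarith⟩]
      conv_rhs => rw [hdec]
      exact (hF _ _).symm
    · intro c hc hne
      rw [if_neg]
      intro hd
      apply hne
      rw [mem_range] at hc
      have hc0 : (0 : ℤ) ≤ (c : ℤ) := Int.natCast_nonneg c
      have hc1 : (c : ℤ) < (P : ℤ) := by exact_mod_cast hc
      have h1 : n % (P : ℤ) = (c : ℤ) % (P : ℤ) := (Int.modEq_iff_dvd.2 hd).symm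
      rw [Int.emod_eq_of_lt hc0 hc1] at h1
      rw [h1, Int.toNat_natCast]
    · intro hn
      exfalso
      apply hn
      rw [mem_range]
      omega
  have h := TD_sum (range P) (P := P) (B := fun c : ℕ => |F (c : ℤ)|)
    (F := fun (c : ℕ) (n : ℤ) => if (P : ℤ) ∣ n - (c : ℤ) then F (c : ℤ) else 0)
    (fun c _ => TD_ind hP dvd_rfl (c : ℤ) (F (c : ℤ)))
  rw [hfun] at h
  refine TD_mono h dvd_rfl ?_
  calc ∑ c ∈ range P, |F (c : ℤ)| ≤ ∑ _c ∈ range P, B := sum_le_sum fun c _ => hB _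
    _ = (P : ℝ) * B := by rw [sum_const, card_range, nsmul_eq_mul]

theorem Tr (b y : ℕ) : ∃ X : ℝ, ∀ x : ℝ, X ≤ x → y ≤ yy x ∧ ∀ V : ℤ → ℝ, GoodV b x V → ∀ t : ℕ, t < WW y →
    ∀ s s' : Finset ℤ, s.card ≤ 4 → ∀ e f : ℤ → ℕ, (∀ a ∈ s, e a ≤ 4) → ∑ a ∈ s', f a ≤ 4 →
    |∑ n ∈ (Finset.range (⌊x⌋₊ + 1)).filter (fun n => n % WW y = t),
        ((∏ a ∈ s, rr y (yy x) ((n : ℤ) + a) ^ e a) * ∏ a ∈ s', V ((n : ℤ) + a) ^ f a)
      - ((⌊x⌋₊ : ℝ) + 1) / (WW y : ℝ) *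
        (avgP (PR (y : ℝ) (yy x : ℝ)) (fun m => ∏ a ∈ s, rr y (yy x) (m + a) ^ e a) *
          avgP (PR (yy x : ℝ) (x ^ dl b)) (fun m => ∏ a ∈ s', V (m + a) ^ f a))| ≤ x ^ (1 / 2 : ℝ) := by
  have hpos : 0 < WW y := WW_pos y
  have e1 : ∀ᶠ x : ℝ in Filter.atTop, y ≤ yy x := tendsto_yy.eventually_ge_atTop y
  have e2 : ∀ᶠ x : ℝ in Filter.atTop, 1 ≤ Real.log x :=
    Real.tendsto_log_atTop.eventually_ge_atTop 1
  have e3 := (isLittleO_log_rpow_atTop (show (0 : ℝ) < 1 / 3 by norm_num)).bound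
    (show (0 : ℝ) < 1 by norm_num)
  obtain ⟨X, hX⟩ := Filter.eventually_atTop.1 (e1.and (e2.and (e3.and
    (Filter.eventually_ge_atTop (1 : ℝ)))))
  refine ⟨X, fun x hx => ?_⟩
  obtain ⟨hy, hL, hLx, hx1⟩ := hX x hx
  refine ⟨hy, fun V hV t ht s s' hs e f he hf => ?_⟩
  have hx0 : 0 < x := by linarith
  have hL0 : 0 < Real.log x := by linarith
  have hLx' : Real.log x ≤ x ^ (1 / 3 : ℝ) := by
    rw [Real.norm_eq_abs, Real.norm_eq_abs, abs_of_pos hL0,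
      abs_of_pos (Real.rpow_pos_of_pos hx0 _), one_mul] at hLx
    exact hLx
  have hz0 : (0 : ℝ) ≤ x ^ dl b := Real.rpow_nonneg hx0.le _
  obtain ⟨w, hw⟩ : ∃ w, w = yy x := ⟨_, rfl⟩
  have hyw : y ≤ w := by rw [hw]; exact hy
  have hW1 : (1 : ℝ) ≤ (WW w : ℝ) := by exact_mod_cast WW_pos w
  have hWL : ((WW w : ℕ) : ℝ) ^ 17 ≤ Real.log x := by
    have h1 := WW_yy_pow_le hL
    rw [← hw] at h1
    have h2 : Real.sqrt (Real.log x) ≤ Real.log x := by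
      rw [Real.sqrt_le_left hL0.le]
      nlinarith
    exact (pow_le_pow_right₀ hW1 (by norm_num)).trans (h1.trans h2)
  have hP1 : 0 < PR (y : ℝ) (w : ℝ) := MAJ_PR_pos _ _
  have hP2 : 0 < PR (w : ℝ) (x ^ dl b) := MAJ_PR_pos _ _
  have hP12 : 0 < PR (y : ℝ) (w : ℝ) * PR (w : ℝ) (x ^ dl b) := Nat.mul_pos hP1 hP2
  have hPW : ((PR (y : ℝ) (w : ℝ) : ℕ) : ℝ) ≤ (WW w : ℝ) := by
    have h1 : PR (y : ℝ) (w : ℝ) ∣ WW w := by
      unfold PR WW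
      apply prod_dvd_prod_of_subset
      intro p hp
      rw [MAJ_mem (Nat.cast_nonneg _)] at hp
      rw [mem_PP]
      exact ⟨by exact_mod_cast hp.2.2, hp.1⟩
    exact_mod_cast Nat.le_of_dvd (WW_pos w) h1
  have hwp : wp w / wp y ≤ (WW w : ℝ) := by
    have h1 : wp w / wp y ≤ wp w := div_le_self (wp_pos w).le (one_le_wp y)
    have h2 : wp w ≤ (WW w : ℝ) := by
      unfold wp
      apply div_le_self (by linarith)
      exact_mod_cast Nat.totient_pos.mpr (WW_pos w)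
    exact h1.trans h2
  have hrr0 : ∀ n, 0 ≤ rr y w n := rr_nonneg y w
  have hrrW : ∀ n, rr y w n ≤ (WW w : ℝ) := fun n => (rr_le hyw n).trans hwp
  have hX1per : ∀ n k : ℤ, (fun m : ℤ => ∏ a ∈ s, rr y w (m + a) ^ e a)
      (n + k * (PR (y : ℝ) (w : ℝ) : ℤ)) = (fun m : ℤ => ∏ a ∈ s, rr y w (m + a) ^ e a) n := by
    intro n k
    refine prod_congr rfl fun a _ => ?_
    rw [show n + k * (PR (y : ℝ) (w : ℝ) : ℤ) + a = (n + a) + k * (PR (y : ℝ) (w : ℝ) : ℤ) by ring,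
      rr_period]
  have hX1B : ∀ n : ℤ, |(fun m : ℤ => ∏ a ∈ s, rr y w (m + a) ^ e a) n| ≤ (WW w : ℝ) ^ 16 := by
    intro n
    have h0 : 0 ≤ ∏ a ∈ s, rr y w (n + a) ^ e a := prod_nonneg fun a _ => pow_nonneg (hrr0 _) _
    have h1 : ∏ a ∈ s, rr y w (n + a) ^ e a ≤ ∏ _a ∈ s, (WW w : ℝ) ^ 4 := by
      refine prod_le_prod (fun a _ => pow_nonneg (hrr0 _) _) fun a ha => ?_
      exact (pow_le_pow_left₀ (hrr0 _) (hrrW _) _).trans (pow_le_pow_right₀ hW1 (he a ha))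
    have h2 : ∏ _a ∈ s, (WW w : ℝ) ^ 4 ≤ (WW w : ℝ) ^ 16 := by
      rw [prod_const, ← pow_mul]
      exact pow_le_pow_right₀ hW1 (by omega)
    show |∏ a ∈ s, rr y w (n + a) ^ e a| ≤ _
    rw [abs_of_nonneg h0]
    exact h1.trans h2
  have hTD1 := TD_per hP1 hX1per hX1B
  have hB1 : ((PR (y : ℝ) (w : ℝ) : ℕ) : ℝ) * (WW w : ℝ) ^ 16 ≤ Real.log x := by
    calc ((PR (y : ℝ) (w : ℝ) : ℕ) : ℝ) * (WW w : ℝ) ^ 16 ≤ (WW w : ℝ) * (WW w : ℝ) ^ 16 :=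
          mul_le_mul_of_nonneg_right hPW (by positivity)
      _ = (WW w : ℝ) ^ 17 := by ring
      _ ≤ Real.log x := hWL
  have hTDV : TD (PR (w : ℝ) (x ^ dl b)) (x ^ (1 / 30 : ℝ)) V := by
    rw [hw]
    exact hV.2.2.1
  have hTD2 : TD (PR (w : ℝ) (x ^ dl b)) (∏ a ∈ s', (x ^ (1 / 30 : ℝ)) ^ f a)
      (fun m : ℤ => ∏ a ∈ s', V (m + a) ^ f a) :=
    TD_prod s' hP2 fun a _ => TD_pow hP2 (TD_add_shift hTDV a) (f a)
  have hx30 : (1 : ℝ) ≤ x ^ (1 / 30 : ℝ) := Real.one_le_rpow hx1 (by norm_num)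
  have hB2 : ∏ a ∈ s', (x ^ (1 / 30 : ℝ)) ^ f a ≤ (x ^ (1 / 30 : ℝ)) ^ 4 := by
    rw [prod_pow_eq_pow_sum]
    exact pow_le_pow_right₀ hx30 hf
  have hTD1' := TD_mono hTD1 (Dvd.intro (PR (w : ℝ) (x ^ dl b)) rfl) hB1
  have hTD2' := TD_mono hTD2 (Dvd.intro_left (PR (y : ℝ) (w : ℝ)) rfl) hB2
  have hTD := TD_mul hP12 hTD1' hTD2'
  have hcop : (PR (y : ℝ) (w : ℝ)).Coprime (PR (w : ℝ) (x ^ dl b)) :=
    MAJ_cop (Nat.cast_nonneg _) hz0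
  have havg := avg_mul hP1 hP2 hcop (F := fun m : ℤ => ∏ a ∈ s, rr y w (m + a) ^ e a)
    (G := fun m : ℤ => ∏ a ∈ s', V (m + a) ^ f a) hX1per
    (fun n k => TD_period hTD2 n k)
  have hcW : (WW y).Coprime (PR (y : ℝ) (w : ℝ) * PR (w : ℝ) (x ^ dl b)) := by
    apply Nat.Coprime.mul_right
    · exact MAJ_copW (Nat.cast_nonneg _) le_rfl
    · exact MAJ_copW hz0 (by exact_mod_cast hyw)
  have hmain := TRN hTD hpos hcW ht (⌊x⌋₊ + 1) hP12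
  rw [havg] at hmain
  rw [← hw]
  have hcast : (((⌊x⌋₊ + 1 : ℕ)) : ℝ) = (⌊x⌋₊ : ℝ) + 1 := by push_cast; ring
  rw [hcast] at hmain
  refine hmain.trans ?_
  calc Real.log x * (x ^ (1 / 30 : ℝ)) ^ 4 ≤ x ^ (1 / 3 : ℝ) * (x ^ (1 / 30 : ℝ)) ^ 4 :=
        mul_le_mul_of_nonneg_right hLx' (by positivity)
    _ = x ^ (7 / 15 : ℝ) := by
        rw [← Real.rpow_natCast, ← Real.rpow_mul hx0.le, ← Real.rpow_add hx0]
        norm_num
    _ ≤ x ^ (1 / 2 : ℝ) := Real.rpow_le_rpow_of_exponent_le hx1 (by norm_num)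

end Pool.Agent.H12.DM
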