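import Pool.Agent.H12.DM.Df

/-!
# Va: Cauchy-Schwarz (pure finite sums)
-/

set_option autoImplicit false

namespace Pool.Agent.H12.DM

open Finset

lemma Va_shift (N H k : ℕ) (hk : k ≤ H) (φ : ℤ → ℝ)
    (h0 : ∀ n : ℤ, n < k ∨ (N : ℤ) + k ≤ n → φ n = 0) :
    ∑ n ∈ Finset.range (N + H), φ (n : ℤ) = ∑ b ∈ Finset.range N, φ ((b : ℤ) + k) := by
  have h1 : ∑ b ∈ Finset.range N, φ ((b : ℤ) + k) =
      ∑ n ∈ (Finset.range N).image (fun b => b + k), φ (n : ℤ) := by
    rw [Finset.sum_image]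
    · exact Finset.sum_congr rfl fun b _ => by push_cast; rfl
    · intro i _ j _ hij
      exact Nat.add_right_cancel hij
  rw [h1]
  symm
  refine Finset.sum_subset ?_ ?_
  · intro n hn
    obtain ⟨b, hb, rfl⟩ := Finset.mem_image.1 hn
    have := Finset.mem_range.1 hb
    exact Finset.mem_range.2 (by omega)
  · intro n _ hn
    refine h0 n ?_
    by_contra hcon
    push Not at hcon
    refine hn (Finset.mem_image.2 ⟨n - k, Finset.mem_range.2 ?_, ?_⟩) <;> omega

lemma Va_pairs (H : ℕ) (D : Finset ℤ) (hD : D ⊆ Finset.Icc 1 (H : ℤ)) (F : ℤ → ℤ → ℝ) :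
    ∑ k ∈ D, ∑ d ∈ D, F k d = ∑ h ∈ Finset.Ioo (-(H : ℤ)) (H : ℤ),
      ∑ k ∈ D.filter (fun k => k - h ∈ D), F k (k - h) := by
  have h1 : ∀ k ∈ D, ∑ d ∈ D, F k d = ∑ h ∈ Finset.Ioo (-(H : ℤ)) (H : ℤ),
      if k - h ∈ D then F k (k - h) else 0 := by
    intro k hk
    rw [← Finset.sum_filter]
    refine Finset.sum_nbij' (fun d => k - d) (fun h => k - h) ?_ ?_ ?_ ?_ ?_
    · intro d hd
      have e1 := Finset.mem_Icc.1 (hD hk)
      have e2 := Finset.mem_Icc.1 (hD hd)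
      rw [Finset.mem_filter, Finset.mem_Ioo]
      refine ⟨⟨by omega, by omega⟩, ?_⟩
      rwa [sub_sub_cancel]
    · intro h hh
      exact (Finset.mem_filter.1 hh).2
    · intro d _
      exact sub_sub_cancel _ _
    · intro d _
      exact sub_sub_cancel _ _
    · intro d _
      simp only [sub_sub_cancel]
  rw [Finset.sum_congr rfl h1, Finset.sum_comm]
  refine Finset.sum_congr rfl fun h _ => ?_
  rw [Finset.sum_filter]

theorem Va (N H : ℕ) (D : Finset ℤ) (hD : D ⊆ Finset.Icc 1 (H : ℤ)) (f g : ℤ → ℝ)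
    (hf : ∀ n : ℤ, n < 0 ∨ (N : ℤ) ≤ n → f n = 0) :
    (∑ n ∈ Finset.range (N + H), g (n : ℤ) * (nf D f (n : ℤ)) ^ 2) ^ 2 ≤
      (∑ h ∈ Finset.Ioo (-(H : ℤ)) (H : ℤ), ∑ b ∈ Finset.range N, |f (b : ℤ)| * |f ((b : ℤ) + h)|) *
      (∑ h ∈ Finset.Ioo (-(H : ℤ)) (H : ℤ), ∑ b ∈ Finset.range N, |f (b : ℤ)| * |f ((b : ℤ) + h)| *
        (∑ k ∈ D.filter (fun k => k - h ∈ D), g ((b : ℤ) + k)) ^ 2) := by
  have hS : ∑ n ∈ Finset.range (N + H), g (n : ℤ) * (nf D f (n : ℤ)) ^ 2 =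
      ∑ h ∈ Finset.Ioo (-(H : ℤ)) (H : ℤ), ∑ b ∈ Finset.range N,
        f (b : ℤ) * f ((b : ℤ) + h) * ∑ k ∈ D.filter (fun k => k - h ∈ D), g ((b : ℤ) + k) := by
    calc ∑ n ∈ Finset.range (N + H), g (n : ℤ) * (nf D f (n : ℤ)) ^ 2
        = ∑ k ∈ D, ∑ d ∈ D, ∑ n ∈ Finset.range (N + H),
            g (n : ℤ) * f ((n : ℤ) - k) * f ((n : ℤ) - d) := by
          have h1 : ∀ n ∈ Finset.range (N + H), g (n : ℤ) * (nf D f (n : ℤ)) ^ 2 =
              ∑ k ∈ D, ∑ d ∈ D, g (n : ℤ) * f ((n : ℤ) - k) * f ((n : ℤ) - d) := by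
            intro n _
            unfold nf
            rw [sq, Finset.sum_mul_sum, Finset.mul_sum]
            refine Finset.sum_congr rfl fun k _ => ?_
            rw [Finset.mul_sum]
            exact Finset.sum_congr rfl fun d _ => by ring
          rw [Finset.sum_congr rfl h1, Finset.sum_comm]
          exact Finset.sum_congr rfl fun k _ => Finset.sum_comm
      _ = ∑ k ∈ D, ∑ d ∈ D, ∑ b ∈ Finset.range N,
            g ((b : ℤ) + k) * f (b : ℤ) * f ((b : ℤ) + k - d) := by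
          refine Finset.sum_congr rfl fun k hk => Finset.sum_congr rfl fun d hd => ?_
          have e1 := Finset.mem_Icc.1 (hD hk)
          obtain ⟨m, rfl⟩ : ∃ m : ℕ, k = m := ⟨k.toNat, by omega⟩
          rw [Va_shift N H m (by omega) (fun n => g n * f (n - m) * f (n - d))]
          · exact Finset.sum_congr rfl fun b _ => by simp only [add_sub_cancel_right]
          · intro n hn
            rw [hf (n - m) (by omega)]
            ring
      _ = ∑ h ∈ Finset.Ioo (-(H : ℤ)) (H : ℤ), ∑ k ∈ D.filter (fun k => k - h ∈ D),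
            ∑ b ∈ Finset.range N, g ((b : ℤ) + k) * f (b : ℤ) * f ((b : ℤ) + k - (k - h)) :=
          Va_pairs H D hD (fun k d => ∑ b ∈ Finset.range N,
            g ((b : ℤ) + k) * f (b : ℤ) * f ((b : ℤ) + k - d))
      _ = _ := by
          refine Finset.sum_congr rfl fun h _ => ?_
          rw [Finset.sum_comm]
          refine Finset.sum_congr rfl fun b _ => ?_
          rw [Finset.mul_sum]
          refine Finset.sum_congr rfl fun k _ => ?_
          have : (b : ℤ) + k - (k - h) = b + h := by ring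
          rw [this]
          ring
  rw [hS, ← Finset.sum_product', ← Finset.sum_product', ← Finset.sum_product']
  refine Finset.sum_sq_le_sum_mul_sum_of_sq_le_mul _ (fun i _ => by positivity)
    (fun i _ => by positivity) ?_
  intro i _
  have e1 := sq_abs (f (i.2 : ℤ))
  have e2 := sq_abs (f ((i.2 : ℤ) + i.1))
  rw [mul_pow, mul_pow, ← e1, ← e2]
  exact le_of_eq (by ring)

end Pool.Agent.H12.DM
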