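import Pool.Agent.H12.DM.Cd
import Pool.Agent.H12.DM.Ga
import Pool.Agent.H12.DM.Va

/-!
# Vb: the difference between the majorant and `Mm y` against squares of windows

`L = log x`, `N = ⌊x⌋₊ + 1`, `c₀ = wp y`, `g = Dd x y V`, `U = Uu x V`, `|f| ≤ C₂ U`, `C₀` the maximum of the constants of `Cg`, `Cd`, `Ga1`, `Ga2`, `Ga3`.
Let `S` be the sum on the left. `Va` gives `S^2 ≤ A * B` with
`A = ∑_h ∑_{b<N} |f(b)||f(b+h)|`, `B = ∑_h ∑_{b<N} |f(b)||f(b+h)| Q^2`, `Q = ∑_{k∈D, k-h∈D} g(b+k)`, `h ∈ Ioo (-H) H`.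
(`0 ≤ U ≤ Up`; `|g| ≤ Up`, as `|Mm w V - Mm y| ≤ Mm w V + c₀`; `rgH x H = range (N + H)`.)

* `A ≤ C₂^2 ∑_h ∑_b Up(b) Up(b+h)`. For `h = 0`: `Cd` with `s = {0}`, `e = 2`: `≤ C₀ c₀^4 N L` (the `offDiag` of a singleton is empty). For
  `h ≠ 0`: `Cd` with `s = {0,h}`, `e = 1`: `≤ C₀ c₀^4 N gf(h)^2` (`offDiag {0,h} = {(0,h),(h,0)}`, `gf` even), sum over `h`: `Ga1`. With `L ≤ H`:
  `A ≤ C₂^2 * 2 (C₀+1)^2 c₀^4 N H`.
* `B`, `h ≠ 0`: `|f(b)||f(b+h)| ≤ C₂^2 U(b) U(b+h)`; `Q^2 = ∑_{k,l ∈ D_h} g(b+k) g(b+l)`, `D_h = D.filter (k - h ∈ D)`; every `k ∈ D_h` satisfies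
  `1 ≤ k ≤ H` and `k ≠ h` (as `k - h ≥ 1`). Exchange sums: `∑_{k,l∈D_h} ∑_b U(b)U(b+h)g(b+k)g(b+l)`.
  - `k ≠ l`: by `Cg` (the four points `0,h,k,l` are distinct) `≤ θ := C₀ c₀^4 N ((1/2)^b + 1/y + (GG - 1))`, and `θ ≥ 0`; so the sum over
    `k ≠ l` in `D_h` is at most the sum of `θ` over all `k ∈ (Icc 1 H).erase h`, `l ∈ ((Icc 1 H).erase h).erase k`. Sum over `h ≠ 0`: number of
    triples `≤ 2 H^3`, and `Ga3`: `≤ C₀ c₀^4 N H^3 (2 (1/2)^b + (2 + C₀)/y)`.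
  - `k = l`: `≤ ∑_b Up(b) Up(b+h) Up(b+k)^2 ≤ C₀ c₀^4 N L ∏ gf^2` (`Cd`, `s = {0,h,k}`, `e = (1,1,2)`, `∏_{offDiag} gf = (gf h gf k gf (h-k))^2`); sum over `h`
    and `k`: `Ga2` (`a = h`, `c = k`): `≤ C₀^2 c₀^4 N L H^2`.
* `B`, `h = 0`: `≤ C₂^2 ∑_b U(b)^2 (∑_{k∈D} g(b+k))^2 ≤ C₂^2 ∑_{k,l∈Icc 1 H} ∑_b Up(b)^2 Up(b+k) Up(b+l)`. `k ≠ l`: `Cd` with `s = {0,k,l}`, `e = (2,1,1)` and `Ga2`
  (`a = k`, `c = l`): `≤ C₀^2 c₀^4 N L H^2`. `k = l`: `Cd` with `s = {0,k}`, `e = (2,2)`: `≤ C₀ c₀^4 N L^2 gf(k)^2`, sum over `k` (`Ga1`): `≤ C₀^2 c₀^4 N L^2 H ≤ C₀^2 c₀^4 N L H^2`.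
* Total: `B ≤ C₂^2 * C₃ c₀^4 N H^3 ((1/2)^b + 1/y + L/H)`, `C₃ = 10 (C₀+1)^2`.
So `S ≤ √(A B) ≤ C C₂^2 c₀^4 √(…) N H^2` (if `S ≤ 0` nothing to prove).
-/

set_option autoImplicit false

namespace Pool.Agent.H12.DM

open Finset Pool.Agent.H17 Pool.Agent.H6.MF Pool.Agent.H6.MB

lemma Vb_A (N H : ℕ) (hH : 1 ≤ H) (P f gq : ℤ → ℝ) (C₂ K L C₀ : ℝ) (hC₂ : 0 ≤ C₂) (hP : ∀ n, 0 ≤ P n)
    (hK : 0 ≤ K) (hf : ∀ n, |f n| ≤ C₂ * P n) (hL : L ≤ H)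
    (h1 : ∑ b ∈ Finset.range N, P (b : ℤ) * P (b : ℤ) ≤ K * L)
    (h2 : ∀ h : ℤ, h ≠ 0 → ∑ b ∈ Finset.range N, P (b : ℤ) * P ((b : ℤ) + h) ≤ K * gq h ^ 2)
    (h3 : ∑ h ∈ (Finset.Ioo (-(H : ℤ)) (H : ℤ)).erase 0, gq h ^ 2 ≤ C₀ * (H : ℝ)) :
    ∑ h ∈ Finset.Ioo (-(H : ℤ)) (H : ℤ), ∑ b ∈ Finset.range N, |f (b : ℤ)| * |f ((b : ℤ) + h)|
      ≤ C₂ ^ 2 * (K * ((1 + C₀) * H)) := by
  have hpt : ∀ h : ℤ, ∑ b ∈ Finset.range N, |f (b : ℤ)| * |f ((b : ℤ) + h)|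
      ≤ C₂ ^ 2 * ∑ b ∈ Finset.range N, P (b : ℤ) * P ((b : ℤ) + h) := by
    intro h
    rw [Finset.mul_sum]
    refine Finset.sum_le_sum fun b _ => ?_
    calc |f (b : ℤ)| * |f ((b : ℤ) + h)| ≤ (C₂ * P (b : ℤ)) * (C₂ * P ((b : ℤ) + h)) :=
          mul_le_mul (hf _) (hf _) (abs_nonneg _) (mul_nonneg hC₂ (hP _))
      _ = _ := by ring
  have h0 : (0 : ℤ) ∈ Finset.Ioo (-(H : ℤ)) (H : ℤ) := by
    rw [Finset.mem_Ioo]; constructor <;> omega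
  calc ∑ h ∈ Finset.Ioo (-(H : ℤ)) (H : ℤ), ∑ b ∈ Finset.range N, |f (b : ℤ)| * |f ((b : ℤ) + h)|
      ≤ ∑ h ∈ Finset.Ioo (-(H : ℤ)) (H : ℤ), C₂ ^ 2 * ∑ b ∈ Finset.range N, P (b : ℤ) * P ((b : ℤ) + h) :=
        Finset.sum_le_sum fun h _ => hpt h
    _ = C₂ ^ 2 * (∑ h ∈ Finset.Ioo (-(H : ℤ)) (H : ℤ), ∑ b ∈ Finset.range N, P (b : ℤ) * P ((b : ℤ) + h)) := by
        rw [Finset.mul_sum]
    _ = C₂ ^ 2 * (∑ b ∈ Finset.range N, P (b : ℤ) * P ((b : ℤ) + 0) +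
          ∑ h ∈ (Finset.Ioo (-(H : ℤ)) (H : ℤ)).erase 0, ∑ b ∈ Finset.range N, P (b : ℤ) * P ((b : ℤ) + h)) := by
        rw [Finset.add_sum_erase _ (fun h : ℤ => ∑ b ∈ Finset.range N, P (b : ℤ) * P ((b : ℤ) + h)) h0]
    _ ≤ C₂ ^ 2 * (K * L + K * (C₀ * H)) := by
        refine mul_le_mul_of_nonneg_left (add_le_add ?_ ?_) (sq_nonneg _)
        · simpa using h1
        · calc ∑ h ∈ (Finset.Ioo (-(H : ℤ)) (H : ℤ)).erase 0, ∑ b ∈ Finset.range N, P (b : ℤ) * P ((b : ℤ) + h)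
              ≤ ∑ h ∈ (Finset.Ioo (-(H : ℤ)) (H : ℤ)).erase 0, K * gq h ^ 2 :=
                Finset.sum_le_sum fun h hh => h2 h (Finset.ne_of_mem_erase hh)
            _ = K * ∑ h ∈ (Finset.Ioo (-(H : ℤ)) (H : ℤ)).erase 0, gq h ^ 2 := by rw [Finset.mul_sum]
            _ ≤ _ := mul_le_mul_of_nonneg_left h3 hK
    _ ≤ _ := by
        refine mul_le_mul_of_nonneg_left ?_ (sq_nonneg _)
        have := mul_le_mul_of_nonneg_left hL hK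
        calc K * L + K * (C₀ * H) ≤ K * H + K * (C₀ * H) := by linarith
          _ = _ := by ring

lemma Vb_quad (N : ℕ) (E F : Finset ℤ) (hEF : E ⊆ F) (W : ℕ → ℝ) (g : ℤ → ℝ) (α : ℤ → ℝ) (β : ℤ → ℤ → ℝ)
    (hα : ∀ k ∈ F, 0 ≤ α k) (hβ : ∀ k ∈ F, ∀ l ∈ F.erase k, 0 ≤ β k l)
    (h1 : ∀ k ∈ F, ∑ b ∈ Finset.range N, W b * (g ((b : ℤ) + k) * g ((b : ℤ) + k)) ≤ α k)
    (h2 : ∀ k ∈ F, ∀ l ∈ F.erase k, ∑ b ∈ Finset.range N, W b * (g ((b : ℤ) + k) * g ((b : ℤ) + l)) ≤ β k l) :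
    ∑ b ∈ Finset.range N, W b * (∑ k ∈ E, g ((b : ℤ) + k)) ^ 2 ≤ ∑ k ∈ F, (α k + ∑ l ∈ F.erase k, β k l) := by
  have e1 : ∀ b ∈ Finset.range N, W b * (∑ k ∈ E, g ((b : ℤ) + k)) ^ 2
      = ∑ k ∈ E, ∑ l ∈ E, W b * (g ((b : ℤ) + k) * g ((b : ℤ) + l)) := by
    intro b _
    rw [sq, Finset.sum_mul_sum, Finset.mul_sum]
    refine Finset.sum_congr rfl fun k _ => ?_
    rw [Finset.mul_sum]
  rw [Finset.sum_congr rfl e1, Finset.sum_comm]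
  have e2 : ∀ k ∈ E, ∑ b ∈ Finset.range N, ∑ l ∈ E, W b * (g ((b : ℤ) + k) * g ((b : ℤ) + l))
      ≤ α k + ∑ l ∈ F.erase k, β k l := by
    intro k hk
    rw [Finset.sum_comm, ← Finset.add_sum_erase _ _ hk]
    refine add_le_add (h1 k (hEF hk)) ?_
    calc ∑ l ∈ E.erase k, ∑ b ∈ Finset.range N, W b * (g ((b : ℤ) + k) * g ((b : ℤ) + l))
        ≤ ∑ l ∈ E.erase k, β k l :=
          Finset.sum_le_sum fun l hl => h2 k (hEF hk) l (Finset.erase_subset_erase _ hEF hl)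
      _ ≤ ∑ l ∈ F.erase k, β k l :=
          Finset.sum_le_sum_of_subset_of_nonneg (Finset.erase_subset_erase _ hEF)
            fun l hl _ => hβ k (hEF hk) l hl
  refine (Finset.sum_le_sum e2).trans ?_
  exact Finset.sum_le_sum_of_subset_of_nonneg hEF
    fun k hk _ => add_nonneg (hα k hk) (Finset.sum_nonneg fun l hl => hβ k hk l hl)

lemma Vb_pp {u v p q a b : ℝ} (hu : 0 ≤ u) (hv : 0 ≤ v) (hup : u ≤ p) (hvq : v ≤ q) (s t : ℝ) (hs : |s| ≤ a) (ht : |t| ≤ b) :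
    u * v * (s * t) ≤ p * q * (a * b) := by
  have h1 : s * t ≤ a * b := by
    calc s * t ≤ |s * t| := le_abs_self _
      _ = |s| * |t| := abs_mul _ _
      _ ≤ a * b := mul_le_mul hs ht (abs_nonneg _) ((abs_nonneg _).trans hs)
  have h2 : 0 ≤ a * b := mul_nonneg ((abs_nonneg _).trans hs) ((abs_nonneg _).trans ht)
  calc u * v * (s * t) ≤ u * v * (a * b) := mul_le_mul_of_nonneg_left h1 (mul_nonneg hu hv)
    _ ≤ p * q * (a * b) := mul_le_mul_of_nonneg_right (mul_le_mul hup hvq hv (hu.trans hup)) h2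

lemma Vb_B (N H : ℕ) (hH : 1 ≤ H) (D : Finset ℤ) (hD : D ⊆ Finset.Icc 1 (H : ℤ)) (U g P f gq : ℤ → ℝ)
    (G : ℤ → ℤ → ℤ → ℝ) (C₂ K L C₀ ε : ℝ) (hC₂ : 0 ≤ C₂) (hU : ∀ n, 0 ≤ U n) (hUP : ∀ n, U n ≤ P n)
    (hg : ∀ n, |g n| ≤ P n) (hK : 0 ≤ K) (hL0 : 0 ≤ L) (hL : L ≤ H) (hε : 0 ≤ ε) (hC₀ : 0 ≤ C₀)
    (hG : ∀ h k l, 0 ≤ G h k l - 1) (hf : ∀ n, |f n| ≤ C₂ * U n)
    (h3 : ∀ h k : ℤ, h ≠ 0 → k ≠ 0 → h ≠ k →
      ∑ b ∈ Finset.range N, P (b : ℤ) * P ((b : ℤ) + h) * (P ((b : ℤ) + k) * P ((b : ℤ) + k))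
        ≤ K * L * (gq h * gq k * gq (h - k)) ^ 2)
    (h4 : ∀ k l : ℤ, k ≠ 0 → l ≠ 0 → k ≠ l →
      ∑ b ∈ Finset.range N, P (b : ℤ) * P (b : ℤ) * (P ((b : ℤ) + k) * P ((b : ℤ) + l))
        ≤ K * L * (gq k * gq l * gq (k - l)) ^ 2)
    (h5 : ∀ k : ℤ, k ≠ 0 → ∑ b ∈ Finset.range N, P (b : ℤ) * P (b : ℤ) * (P ((b : ℤ) + k) * P ((b : ℤ) + k))
        ≤ K * L ^ 2 * gq k ^ 2)
    (hc : ∀ h k l : ℤ, h ≠ 0 → k ≠ 0 → l ≠ 0 → h ≠ k → h ≠ l → k ≠ l →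
      ∑ b ∈ Finset.range N, U (b : ℤ) * U ((b : ℤ) + h) * (g ((b : ℤ) + k) * g ((b : ℤ) + l))
        ≤ K * (ε + (G h k l - 1)))
    (g1 : ∑ h ∈ Finset.Icc (1 : ℤ) (H : ℤ), gq h ^ 2 ≤ C₀ * (H : ℝ))
    (g2 : ∑ a ∈ (Finset.Icc (-(H : ℤ)) (H : ℤ)).erase 0, ∑ c ∈ (Finset.Icc (1 : ℤ) (H : ℤ)).erase a,
      (gq a * gq c * gq (a - c)) ^ 2 ≤ C₀ * (H : ℝ) ^ 2)
    (g3 : ∑ h ∈ (Finset.Ioo (-(H : ℤ)) (H : ℤ)).erase 0, ∑ k ∈ (Finset.Icc (1 : ℤ) (H : ℤ)).erase h,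
      ∑ l ∈ ((Finset.Icc (1 : ℤ) (H : ℤ)).erase h).erase k, (G h k l - 1) ≤ C₀ * ε * (H : ℝ) ^ 3) :
    ∑ h ∈ Finset.Ioo (-(H : ℤ)) (H : ℤ), ∑ b ∈ Finset.range N, |f (b : ℤ)| * |f ((b : ℤ) + h)| *
        (∑ k ∈ D.filter (fun k => k - h ∈ D), g ((b : ℤ) + k)) ^ 2
      ≤ C₂ ^ 2 * (K * ((3 * C₀ + 2) * (ε + L / H) * (H : ℝ) ^ 3)) := by
  have hP : ∀ n, 0 ≤ P n := fun n => (hU n).trans (hUP n)
  have hHr : (0 : ℝ) < H := by exact_mod_cast hH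
  have h0 : (0 : ℤ) ∈ Finset.Ioo (-(H : ℤ)) (H : ℤ) := by
    rw [Finset.mem_Ioo]; constructor <;> omega
  have hpt : ∀ h : ℤ, ∑ b ∈ Finset.range N, |f (b : ℤ)| * |f ((b : ℤ) + h)| *
        (∑ k ∈ D.filter (fun k => k - h ∈ D), g ((b : ℤ) + k)) ^ 2
      ≤ C₂ ^ 2 * ∑ b ∈ Finset.range N, (U (b : ℤ) * U ((b : ℤ) + h)) *
        (∑ k ∈ D.filter (fun k => k - h ∈ D), g ((b : ℤ) + k)) ^ 2 := by
    intro h
    rw [Finset.mul_sum]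
    refine Finset.sum_le_sum fun b _ => ?_
    calc |f (b : ℤ)| * |f ((b : ℤ) + h)| * (∑ k ∈ D.filter (fun k => k - h ∈ D), g ((b : ℤ) + k)) ^ 2
        ≤ (C₂ * U (b : ℤ)) * (C₂ * U ((b : ℤ) + h)) * (∑ k ∈ D.filter (fun k => k - h ∈ D), g ((b : ℤ) + k)) ^ 2 :=
          mul_le_mul_of_nonneg_right
            (mul_le_mul (hf _) (hf _) (abs_nonneg _) (mul_nonneg hC₂ (hU _))) (sq_nonneg _)
      _ = _ := by ring
  -- h = 0
  have hzero : ∑ b ∈ Finset.range N, (U (b : ℤ) * U ((b : ℤ) + 0)) *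
        (∑ k ∈ D.filter (fun k => k - 0 ∈ D), g ((b : ℤ) + k)) ^ 2
      ≤ K * L ^ 2 * (C₀ * H) + K * L * (C₀ * (H : ℝ) ^ 2) := by
    have hq := Vb_quad N (D.filter (fun k => k - 0 ∈ D)) (Finset.Icc (1 : ℤ) (H : ℤ))
      (fun k hk => hD (Finset.mem_filter.1 hk).1) (fun b => U (b : ℤ) * U ((b : ℤ) + 0)) g
      (fun k => K * L ^ 2 * gq k ^ 2) (fun k l => K * L * (gq k * gq l * gq (k - l)) ^ 2)
      (fun k _ => by positivity) (fun k _ l _ => by positivity)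
      (fun k hk => by
        have hk0 : k ≠ 0 := by have := (Finset.mem_Icc.1 hk).1; omega
        refine le_trans (Finset.sum_le_sum fun b _ => ?_) (h5 k hk0)
        simp only [add_zero]
        exact Vb_pp (hU _) (hU _) (hUP _) (hUP _) _ _ (hg _) (hg _))
      (fun k hk l hl => by
        have hk0 : k ≠ 0 := by have := (Finset.mem_Icc.1 hk).1; omega
        have hl' := Finset.mem_erase.1 hl
        have hl0 : l ≠ 0 := by have := (Finset.mem_Icc.1 hl'.2).1; omega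
        refine le_trans (Finset.sum_le_sum fun b _ => ?_) (h4 k l hk0 hl0 (Ne.symm hl'.1))
        simp only [add_zero]
        exact Vb_pp (hU _) (hU _) (hUP _) (hUP _) _ _ (hg _) (hg _))
    refine hq.trans ?_
    rw [Finset.sum_add_distrib]
    refine add_le_add ?_ ?_
    · rw [← Finset.mul_sum]
      exact mul_le_mul_of_nonneg_left g1 (by positivity)
    · have e1 : ∑ k ∈ Finset.Icc (1 : ℤ) (H : ℤ), ∑ l ∈ (Finset.Icc (1 : ℤ) (H : ℤ)).erase k,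
            K * L * (gq k * gq l * gq (k - l)) ^ 2
          = K * L * ∑ k ∈ Finset.Icc (1 : ℤ) (H : ℤ), ∑ l ∈ (Finset.Icc (1 : ℤ) (H : ℤ)).erase k,
            (gq k * gq l * gq (k - l)) ^ 2 := by
        rw [Finset.mul_sum]
        refine Finset.sum_congr rfl fun k _ => ?_
        rw [Finset.mul_sum]
      rw [e1]
      refine mul_le_mul_of_nonneg_left (le_trans ?_ g2) (by positivity)
      refine Finset.sum_le_sum_of_subset_of_nonneg ?_ fun k _ _ => Finset.sum_nonneg fun l _ => sq_nonneg _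
      intro k hk
      rw [Finset.mem_Icc] at hk
      rw [Finset.mem_erase, Finset.mem_Icc]
      refine ⟨by omega, by omega, by omega⟩
  -- h ≠ 0
  have hne : ∀ h ∈ (Finset.Ioo (-(H : ℤ)) (H : ℤ)).erase 0,
      ∑ b ∈ Finset.range N, (U (b : ℤ) * U ((b : ℤ) + h)) *
        (∑ k ∈ D.filter (fun k => k - h ∈ D), g ((b : ℤ) + k)) ^ 2
      ≤ ∑ k ∈ (Finset.Icc (1 : ℤ) (H : ℤ)).erase h, (K * L * (gq h * gq k * gq (h - k)) ^ 2 +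
          ∑ l ∈ ((Finset.Icc (1 : ℤ) (H : ℤ)).erase h).erase k, K * (ε + (G h k l - 1))) := by
    intro h hh
    have hh0 : h ≠ 0 := Finset.ne_of_mem_erase hh
    refine Vb_quad N (D.filter (fun k => k - h ∈ D)) ((Finset.Icc (1 : ℤ) (H : ℤ)).erase h)
      (fun k hk => ?_) (fun b => U (b : ℤ) * U ((b : ℤ) + h)) g
      (fun k => K * L * (gq h * gq k * gq (h - k)) ^ 2) (fun k l => K * (ε + (G h k l - 1)))
      (fun k _ => by positivity) (fun k _ l _ => mul_nonneg hK (add_nonneg hε (hG _ _ _)))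
      (fun k hk => ?_) (fun k hk l hl => ?_)
    · have hk' := Finset.mem_filter.1 hk
      rw [Finset.mem_erase]
      refine ⟨?_, hD hk'.1⟩
      have := (Finset.mem_Icc.1 (hD hk'.2)).1
      omega
    · have hk' := Finset.mem_erase.1 hk
      have hk0 : k ≠ 0 := by have := (Finset.mem_Icc.1 hk'.2).1; omega
      refine le_trans (Finset.sum_le_sum fun b _ => ?_) (h3 h k hh0 hk0 (Ne.symm hk'.1))
      exact Vb_pp (hU _) (hU _) (hUP _) (hUP _) _ _ (hg _) (hg _)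
    · have hk' := Finset.mem_erase.1 hk
      have hk0 : k ≠ 0 := by have := (Finset.mem_Icc.1 hk'.2).1; omega
      have hl' := Finset.mem_erase.1 hl
      have hl'' := Finset.mem_erase.1 hl'.2
      have hl0 : l ≠ 0 := by have := (Finset.mem_Icc.1 hl''.2).1; omega
      exact hc h k l hh0 hk0 hl0 (Ne.symm hk'.1) (Ne.symm hl''.1) (Ne.symm hl'.1)
  have hcardI : ∀ S : Finset ℤ, S ⊆ Finset.Icc (1 : ℤ) (H : ℤ) → (S.card : ℝ) ≤ H := by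
    intro S hS
    have := Finset.card_le_card hS
    rw [Int.card_Icc] at this
    have h2 : S.card ≤ H := by omega
    exact_mod_cast h2
  have hcardJ : (((Finset.Ioo (-(H : ℤ)) (H : ℤ)).erase 0).card : ℝ) ≤ 2 * H := by
    have := Finset.card_le_card (Finset.erase_subset (0 : ℤ) (Finset.Ioo (-(H : ℤ)) (H : ℤ)))
    rw [Int.card_Ioo] at this
    have h2 : ((Finset.Ioo (-(H : ℤ)) (H : ℤ)).erase 0).card ≤ 2 * H := by omega
    exact_mod_cast h2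
  have hsum : ∑ h ∈ (Finset.Ioo (-(H : ℤ)) (H : ℤ)).erase 0,
      ∑ k ∈ (Finset.Icc (1 : ℤ) (H : ℤ)).erase h, (K * L * (gq h * gq k * gq (h - k)) ^ 2 +
          ∑ l ∈ ((Finset.Icc (1 : ℤ) (H : ℤ)).erase h).erase k, K * (ε + (G h k l - 1)))
      ≤ K * L * (C₀ * (H : ℝ) ^ 2) + K * (ε * (2 * (H : ℝ) ^ 3) + C₀ * ε * (H : ℝ) ^ 3) := by
    have e0 : ∑ h ∈ (Finset.Ioo (-(H : ℤ)) (H : ℤ)).erase 0,
      ∑ k ∈ (Finset.Icc (1 : ℤ) (H : ℤ)).erase h, (K * L * (gq h * gq k * gq (h - k)) ^ 2 +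
          ∑ l ∈ ((Finset.Icc (1 : ℤ) (H : ℤ)).erase h).erase k, K * (ε + (G h k l - 1)))
      = K * L * (∑ h ∈ (Finset.Ioo (-(H : ℤ)) (H : ℤ)).erase 0,
          ∑ k ∈ (Finset.Icc (1 : ℤ) (H : ℤ)).erase h, (gq h * gq k * gq (h - k)) ^ 2) +
        K * (ε * (∑ h ∈ (Finset.Ioo (-(H : ℤ)) (H : ℤ)).erase 0,
          ∑ k ∈ (Finset.Icc (1 : ℤ) (H : ℤ)).erase h, ∑ l ∈ ((Finset.Icc (1 : ℤ) (H : ℤ)).erase h).erase k, (1 : ℝ)) +
          ∑ h ∈ (Finset.Ioo (-(H : ℤ)) (H : ℤ)).erase 0, ∑ k ∈ (Finset.Icc (1 : ℤ) (H : ℤ)).erase h,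
            ∑ l ∈ ((Finset.Icc (1 : ℤ) (H : ℤ)).erase h).erase k, (G h k l - 1)) := by
      simp only [Finset.mul_sum, Finset.sum_add_distrib, mul_add, mul_one]
    rw [e0]
    refine add_le_add (mul_le_mul_of_nonneg_left (le_trans ?_ g2) (by positivity))
      (mul_le_mul_of_nonneg_left (add_le_add (mul_le_mul_of_nonneg_left ?_ hε) g3) hK)
    · refine Finset.sum_le_sum_of_subset_of_nonneg ?_ fun k _ _ => Finset.sum_nonneg fun l _ => sq_nonneg _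
      refine Finset.erase_subset_erase _ ?_
      exact Finset.Ioo_subset_Icc_self
    · calc ∑ h ∈ (Finset.Ioo (-(H : ℤ)) (H : ℤ)).erase 0,
          ∑ k ∈ (Finset.Icc (1 : ℤ) (H : ℤ)).erase h, ∑ l ∈ ((Finset.Icc (1 : ℤ) (H : ℤ)).erase h).erase k, (1 : ℝ)
          ≤ ∑ h ∈ (Finset.Ioo (-(H : ℤ)) (H : ℤ)).erase 0, ∑ k ∈ (Finset.Icc (1 : ℤ) (H : ℤ)).erase h, (H : ℝ) := by
            refine Finset.sum_le_sum fun h _ => Finset.sum_le_sum fun k _ => ?_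
            rw [Finset.sum_const, nsmul_eq_mul, mul_one]
            exact hcardI _ ((Finset.erase_subset _ _).trans (Finset.erase_subset _ _))
        _ ≤ ∑ h ∈ (Finset.Ioo (-(H : ℤ)) (H : ℤ)).erase 0, (H : ℝ) * H := by
            refine Finset.sum_le_sum fun h _ => ?_
            rw [Finset.sum_const, nsmul_eq_mul]
            exact mul_le_mul_of_nonneg_right (hcardI _ (Finset.erase_subset _ _)) hHr.le
        _ ≤ 2 * H * ((H : ℝ) * H) := by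
            rw [Finset.sum_const, nsmul_eq_mul]
            exact mul_le_mul_of_nonneg_right hcardJ (by positivity)
        _ = 2 * (H : ℝ) ^ 3 := by ring
  calc ∑ h ∈ Finset.Ioo (-(H : ℤ)) (H : ℤ), ∑ b ∈ Finset.range N, |f (b : ℤ)| * |f ((b : ℤ) + h)| *
        (∑ k ∈ D.filter (fun k => k - h ∈ D), g ((b : ℤ) + k)) ^ 2
      ≤ ∑ h ∈ Finset.Ioo (-(H : ℤ)) (H : ℤ), C₂ ^ 2 * ∑ b ∈ Finset.range N, (U (b : ℤ) * U ((b : ℤ) + h)) *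
        (∑ k ∈ D.filter (fun k => k - h ∈ D), g ((b : ℤ) + k)) ^ 2 := Finset.sum_le_sum fun h _ => hpt h
    _ = C₂ ^ 2 * ∑ h ∈ Finset.Ioo (-(H : ℤ)) (H : ℤ), ∑ b ∈ Finset.range N, (U (b : ℤ) * U ((b : ℤ) + h)) *
        (∑ k ∈ D.filter (fun k => k - h ∈ D), g ((b : ℤ) + k)) ^ 2 := by rw [Finset.mul_sum]
    _ = C₂ ^ 2 * (∑ b ∈ Finset.range N, (U (b : ℤ) * U ((b : ℤ) + 0)) *
        (∑ k ∈ D.filter (fun k => k - 0 ∈ D), g ((b : ℤ) + k)) ^ 2 +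
        ∑ h ∈ (Finset.Ioo (-(H : ℤ)) (H : ℤ)).erase 0, ∑ b ∈ Finset.range N, (U (b : ℤ) * U ((b : ℤ) + h)) *
        (∑ k ∈ D.filter (fun k => k - h ∈ D), g ((b : ℤ) + k)) ^ 2) := by
        rw [Finset.add_sum_erase _ (fun h : ℤ => ∑ b ∈ Finset.range N, (U (b : ℤ) * U ((b : ℤ) + h)) *
          (∑ k ∈ D.filter (fun k => k - h ∈ D), g ((b : ℤ) + k)) ^ 2) h0]
    _ ≤ C₂ ^ 2 * ((K * L ^ 2 * (C₀ * H) + K * L * (C₀ * (H : ℝ) ^ 2)) +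
          (K * L * (C₀ * (H : ℝ) ^ 2) + K * (ε * (2 * (H : ℝ) ^ 3) + C₀ * ε * (H : ℝ) ^ 3))) :=
        mul_le_mul_of_nonneg_left (add_le_add hzero ((Finset.sum_le_sum hne).trans hsum)) (sq_nonneg _)
    _ ≤ _ := by
        refine mul_le_mul_of_nonneg_left ?_ (sq_nonneg _)
        have hKL : K * L ^ 2 * (C₀ * H) ≤ K * L * (C₀ * (H : ℝ) ^ 2) := by
          have : L * (K * L * C₀ * H) ≤ H * (K * L * C₀ * H) := mul_le_mul_of_nonneg_right hL (by positivity)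
          calc K * L ^ 2 * (C₀ * H) = L * (K * L * C₀ * H) := by ring
            _ ≤ H * (K * L * C₀ * H) := this
            _ = _ := by ring
        have hLH : L / H * (H : ℝ) ^ 3 = L * (H : ℝ) ^ 2 := by field_simp
        have e : K * ((3 * C₀ + 2) * (ε + L / H) * (H : ℝ) ^ 3)
            = K * (3 * C₀ + 2) * (ε * (H : ℝ) ^ 3) + K * (3 * C₀ + 2) * (L / H * (H : ℝ) ^ 3) := by ring
        rw [e, hLH]
        have p1 : 0 ≤ K * (C₀ * (ε * (H : ℝ) ^ 3)) := by positivity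
        have p2 : 0 ≤ K * (L * (H : ℝ) ^ 2) := by positivity
        have e3 : K * (ε * (2 * (H : ℝ) ^ 3) + C₀ * ε * (H : ℝ) ^ 3) = 2 * (K * (ε * (H : ℝ) ^ 3)) + K * (C₀ * (ε * (H : ℝ) ^ 3)) := by ring
        have e4 : K * L * (C₀ * (H : ℝ) ^ 2) = K * (C₀ * (L * (H : ℝ) ^ 2)) := by ring
        have e5 : K * (3 * C₀ + 2) * (ε * (H : ℝ) ^ 3) = 3 * (K * (C₀ * (ε * (H : ℝ) ^ 3))) + 2 * (K * (ε * (H : ℝ) ^ 3)) := by ring
        have e6 : K * (3 * C₀ + 2) * (L * (H : ℝ) ^ 2) = 3 * (K * (C₀ * (L * (H : ℝ) ^ 2))) + 2 * (K * (L * (H : ℝ) ^ 2)) := by ring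
        rw [e3, e5, e6]
        rw [e4] at hKL ⊢
        linarith

lemma Vb_od2 (F : ℤ → ℝ) (hF : ∀ h, F (-h) = F h) (h : ℤ) (h0 : h ≠ 0) :
    ∏ q ∈ ({0, h} : Finset ℤ).offDiag, F (q.1 - q.2) = F h ^ 2 := by
  have hs : ({0, h} : Finset ℤ).offDiag = {(0, h), (h, 0)} := by
    ext ⟨a, b⟩
    simp only [Finset.mem_offDiag, Finset.mem_insert, Finset.mem_singleton, Prod.mk.injEq]
    constructor
    · rintro ⟨ha | ha, hb | hb, hab⟩ <;> subst ha <;> subst hb <;> simp_all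
    · rintro (⟨ha, hb⟩ | ⟨ha, hb⟩) <;> subst ha <;> subst hb <;> simp [h0, Ne.symm h0]
  rw [hs, Finset.prod_insert (by simp [h0, Ne.symm h0]), Finset.prod_singleton]
  simp only [zero_sub, sub_zero, hF]
  ring

lemma Vb_od3 (F : ℤ → ℝ) (hF : ∀ h, F (-h) = F h) (h k : ℤ) (h0 : h ≠ 0) (k0 : k ≠ 0) (hk : h ≠ k) :
    ∏ q ∈ ({0, h, k} : Finset ℤ).offDiag, F (q.1 - q.2) = (F h * F k * F (h - k)) ^ 2 := by
  have hs : ({0, h, k} : Finset ℤ).offDiag = {(0, h), (h, 0), (0, k), (k, 0), (h, k), (k, h)} := by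
    ext ⟨a, b⟩
    simp only [Finset.mem_offDiag, Finset.mem_insert, Finset.mem_singleton, Prod.mk.injEq]
    constructor
    · rintro ⟨ha | ha | ha, hb | hb | hb, hab⟩ <;> subst ha <;> subst hb <;> simp_all
    · rintro (⟨ha, hb⟩ | ⟨ha, hb⟩ | ⟨ha, hb⟩ | ⟨ha, hb⟩ | ⟨ha, hb⟩ | ⟨ha, hb⟩) <;> subst ha <;> subst hb <;>
        simp [h0, Ne.symm h0, k0, Ne.symm k0, hk, Ne.symm hk]
  have h0' := Ne.symm h0
  have k0' := Ne.symm k0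
  have hk' := Ne.symm hk
  rw [hs, Finset.prod_insert (by simp [h0, h0', k0, k0', hk, hk']),
    Finset.prod_insert (by simp [h0, h0', k0, k0', hk, hk']),
    Finset.prod_insert (by simp [h0, h0', k0, k0', hk, hk']),
    Finset.prod_insert (by simp [h0, h0', k0, k0', hk, hk']),
    Finset.prod_insert (by simp [h0, h0', k0, k0', hk, hk']), Finset.prod_singleton]
  have e : F (k - h) = F (h - k) := by rw [← hF, neg_sub]
  simp only [zero_sub, sub_zero, hF, e]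
  ring

theorem Vb : ∃ C : ℝ, 0 < C ∧ ∀ b y : ℕ, 3 ≤ y → ∃ X : ℝ, ∀ x : ℝ, X ≤ x → ∀ V : ℤ → ℝ, GoodV b x V →
    ∀ H : ℕ, Real.log x ≤ (H : ℝ) → (H : ℝ) ≤ (Real.log x) ^ 2 → ∀ D : Finset ℤ, D ⊆ Finset.Icc 1 (H : ℤ) →
    ∀ C₂ : ℝ, 0 ≤ C₂ → ∀ f : ℤ → ℝ, (∀ n, |f n| ≤ C₂ * Uu x V n) →
    (∀ n : ℤ, n < 0 ∨ ((⌊x⌋₊ + 1 : ℕ) : ℤ) ≤ n → f n = 0) →
    ∑ n ∈ rgH x H, Dd x y V (n : ℤ) * (nf D f (n : ℤ)) ^ 2
      ≤ C * C₂ ^ 2 * (wp y) ^ 4 * Real.sqrt ((1 / 2 : ℝ) ^ b + 1 / (y : ℝ) + Real.log x / (H : ℝ)) *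
        ((⌊x⌋₊ : ℝ) + 1) * (H : ℝ) ^ 2 := by
  obtain ⟨c1, hc1, Hg⟩ := Cg
  obtain ⟨c2, hc2, Hd⟩ := Cd
  obtain ⟨c3, hc3, H1⟩ := Ga1
  obtain ⟨c4, hc4, H2⟩ := Ga2
  obtain ⟨c5, hc5, H3⟩ := Ga3
  obtain ⟨C₀, hC₀def⟩ : ∃ C₀, C₀ = c1 + c2 + c3 + c4 + c5 := ⟨_, rfl⟩
  have hC₀ : 0 < C₀ := by rw [hC₀def]; positivity
  refine ⟨C₀ * (3 * C₀ + 2), by positivity, ?_⟩
  intro b y hy
  obtain ⟨X1, hX1⟩ := Hg b y hy
  obtain ⟨X2, hX2⟩ := Hd b y hy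
  obtain ⟨X3, hX3⟩ := H1 y (by omega)
  obtain ⟨X4, hX4⟩ := H2 y (by omega)
  obtain ⟨X5, hX5⟩ := H3 y (by omega)
  refine ⟨max (max (max X1 X2) (max X3 X4)) (max X5 (Real.exp 1)), ?_⟩
  intro x hx V hV H hH1 hH2 D hD C₂ hC₂ f hf hfs
  have hx1 : X1 ≤ x := le_trans (le_trans (le_trans (le_max_left _ _) (le_max_left _ _)) (le_max_left _ _)) hx
  have hx2 : X2 ≤ x := le_trans (le_trans (le_trans (le_max_right _ _) (le_max_left _ _)) (le_max_left _ _)) hx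
  have hx3 : X3 ≤ x := le_trans (le_trans (le_trans (le_max_left _ _) (le_max_right _ _)) (le_max_left _ _)) hx
  have hx4 : X4 ≤ x := le_trans (le_trans (le_trans (le_max_right _ _) (le_max_right _ _)) (le_max_left _ _)) hx
  have hx5 : X5 ≤ x := le_trans (le_trans (le_max_left _ _) (le_max_right _ _)) hx
  have hxe : Real.exp 1 ≤ x := le_trans (le_trans (le_max_right _ _) (le_max_right _ _)) hx
  have hx0 : 0 < x := lt_of_lt_of_le (Real.exp_pos 1) hxe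
  have hL1 : 1 ≤ Real.log x := (Real.le_log_iff_exp_le hx0).2 hxe
  have hHr1 : (1 : ℝ) ≤ H := hL1.trans hH1
  have hHn : 1 ≤ H := by exact_mod_cast hHr1
  have hHr : (0 : ℝ) < H := by linarith
  replace hX1 := hX1 x hx1 V hV
  replace hX2 := hX2 x hx2 V hV
  replace hX3 := hX3 x hx3 H hH1 hH2
  replace hX4 := hX4 x hx4 H hH1 hH2
  replace hX5 := hX5 x hx5 H hH1 hH2
  obtain ⟨L, hLdef⟩ : ∃ L, L = Real.log x := ⟨_, rfl⟩
  rw [← hLdef] at hL1 hH1 hH2 ⊢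
  simp only [← hLdef] at hX2
  obtain ⟨ν, hν⟩ : ∃ ν : ℝ, ν = (⌊x⌋₊ : ℝ) + 1 := ⟨_, rfl⟩
  have hν0 : 0 < ν := by rw [hν]; positivity
  simp only [← hν] at hX1 hX2 ⊢
  obtain ⟨w4, hw4⟩ : ∃ w4 : ℝ, w4 = wp y ^ 4 := ⟨_, rfl⟩
  have hw40 : 0 < w4 := by rw [hw4]; exact pow_pos (wp_pos y) 4
  simp only [← hw4] at hX1 hX2 ⊢
  obtain ⟨K, hK⟩ : ∃ K : ℝ, K = C₀ * w4 * ν := ⟨_, rfl⟩
  have hK0 : 0 < K := by rw [hK]; positivity
  have hyr : (0 : ℝ) < y := by exact_mod_cast (by omega : 0 < y)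
  obtain ⟨ε, hε⟩ : ∃ ε : ℝ, ε = (1 / 2 : ℝ) ^ b + 1 / (y : ℝ) := ⟨_, rfl⟩
  have hε0 : 0 ≤ ε := by rw [hε]; positivity
  have hyε : 1 / (y : ℝ) ≤ ε := by
    rw [hε]
    have : (0 : ℝ) ≤ (1 / 2 : ℝ) ^ b := by positivity
    linarith
  simp only [← hε] at hX1 ⊢
  have hVn : ∀ n, 0 ≤ V n := hV.1
  have hUn : ∀ n, 0 ≤ Uu x V n := fun n => Uu_nonneg hV n
  have hwp : 0 < wp y := wp_pos y
  have hUP : ∀ n, Uu x V n ≤ Up x y V n := by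
    intro n
    unfold Up Uu
    linarith
  have hgP : ∀ n, |Dd x y V n| ≤ Up x y V n := by
    intro n
    unfold Dd Up
    have a1 := Mm_nonneg (yy x) n
    have a2 := Mm_nonneg y n
    have a3 := Mm_le y n
    have a4 : 0 ≤ Mm (yy x) n * V n := mul_nonneg a1 (hVn n)
    have a5 : Mm (yy x) n * (V n + 1) = Mm (yy x) n * V n + Mm (yy x) n := by ring
    rw [a5, abs_le]
    constructor <;> linarith
  have hPn : ∀ n, 0 ≤ Up x y V n := fun n => (hUn n).trans (hUP n)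
  have hKd : ∀ t : ℝ, 0 ≤ t → c2 * w4 * ν * t ≤ K * t := by
    intro t ht
    refine mul_le_mul_of_nonneg_right ?_ ht
    rw [hK]
    have : c2 ≤ C₀ := by rw [hC₀def]; linarith
    exact mul_le_mul_of_nonneg_right (mul_le_mul_of_nonneg_right this hw40.le) hν0.le
  -- crude bounds
  have P1 : ∑ b ∈ Finset.range (⌊x⌋₊ + 1), Up x y V (b : ℤ) * Up x y V (b : ℤ) ≤ K * L := by
    have h := hX2 {0} (by simp) (by simp) (fun _ => 2) (by simp) (by simp)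
    refine le_trans (le_of_eq ?_) (h.trans (le_trans (le_of_eq ?_) (hKd L (by linarith))))
    · refine Finset.sum_congr rfl fun n _ => ?_
      rw [Finset.prod_singleton, add_zero]
      ring
    · have e : ({0} : Finset ℤ).offDiag = ∅ := by simp
      rw [e, Finset.prod_empty, Finset.sum_singleton]
      norm_num
  have P2 : ∀ h : ℤ, h ≠ 0 → ∑ b ∈ Finset.range (⌊x⌋₊ + 1), Up x y V (b : ℤ) * Up x y V ((b : ℤ) + h)
      ≤ K * gf y h ^ 2 := by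
    intro h h0
    have hn : (0 : ℤ) ∉ ({h} : Finset ℤ) := by simpa using Ne.symm h0
    have hcard : ({0, h} : Finset ℤ).card = 2 := by
      rw [Finset.card_insert_of_notMem hn, Finset.card_singleton]
    have hh := hX2 {0, h} (by rw [hcard]; norm_num) (by rw [hcard]; norm_num) (fun _ => 1) (by simp)
      (by rw [Finset.sum_const, hcard]; norm_num)
    refine le_trans (le_of_eq ?_) (hh.trans (le_trans (le_of_eq ?_) (hKd (gf y h ^ 2) (sq_nonneg _))))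
    · refine Finset.sum_congr rfl fun n _ => ?_
      rw [Finset.prod_insert hn, Finset.prod_singleton, add_zero, pow_one, pow_one]
    · rw [Vb_od2 (gf y) (gf_neg y) h h0]
      norm_num
  have P3 : ∀ h k : ℤ, h ≠ 0 → k ≠ 0 → h ≠ k →
      ∑ b ∈ Finset.range (⌊x⌋₊ + 1), Up x y V (b : ℤ) * Up x y V ((b : ℤ) + h) *
        (Up x y V ((b : ℤ) + k) * Up x y V ((b : ℤ) + k)) ≤ K * L * (gf y h * gf y k * gf y (h - k)) ^ 2 := by
    intro h k h0 k0 hk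
    have hn : (0 : ℤ) ∉ ({h, k} : Finset ℤ) := by simp [Ne.symm h0, Ne.symm k0]
    have hn2 : h ∉ ({k} : Finset ℤ) := by simpa using hk
    have hcard : ({0, h, k} : Finset ℤ).card = 3 := by
      rw [Finset.card_insert_of_notMem hn, Finset.card_insert_of_notMem hn2, Finset.card_singleton]
    have hh := hX2 {0, h, k} (by rw [hcard]; norm_num) (by rw [hcard]) (fun a => if a = k then 2 else 1)
      (by intro a _; split_ifs <;> norm_num)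
      (by rw [Finset.sum_insert hn, Finset.sum_insert hn2, Finset.sum_singleton]; simp [hk, Ne.symm k0])
    refine le_trans (le_of_eq ?_) (hh.trans (le_trans (le_of_eq ?_)
      (le_trans (hKd (L * (gf y h * gf y k * gf y (h - k)) ^ 2) (by positivity)) (le_of_eq (by ring)))))
    · refine Finset.sum_congr rfl fun n _ => ?_
      rw [Finset.prod_insert hn, Finset.prod_insert hn2, Finset.prod_singleton, add_zero, if_neg (Ne.symm k0),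
        if_neg hk, if_pos rfl]
      ring
    · rw [Vb_od3 (gf y) (gf_neg y) h k h0 k0 hk, Finset.sum_insert hn, Finset.sum_insert hn2, Finset.sum_singleton,
        if_neg (Ne.symm k0), if_neg hk, if_pos rfl]
      norm_num
      ring
  have P4 : ∀ k l : ℤ, k ≠ 0 → l ≠ 0 → k ≠ l →
      ∑ b ∈ Finset.range (⌊x⌋₊ + 1), Up x y V (b : ℤ) * Up x y V (b : ℤ) *
        (Up x y V ((b : ℤ) + k) * Up x y V ((b : ℤ) + l)) ≤ K * L * (gf y k * gf y l * gf y (k - l)) ^ 2 := by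
    intro h k h0 k0 hk
    have hn : (0 : ℤ) ∉ ({h, k} : Finset ℤ) := by simp [Ne.symm h0, Ne.symm k0]
    have hn2 : h ∉ ({k} : Finset ℤ) := by simpa using hk
    have hcard : ({0, h, k} : Finset ℤ).card = 3 := by
      rw [Finset.card_insert_of_notMem hn, Finset.card_insert_of_notMem hn2, Finset.card_singleton]
    have hh := hX2 {0, h, k} (by rw [hcard]; norm_num) (by rw [hcard]) (fun a => if a = 0 then 2 else 1)
      (by intro a _; split_ifs <;> norm_num)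
      (by rw [Finset.sum_insert hn, Finset.sum_insert hn2, Finset.sum_singleton]; simp [h0, k0])
    refine le_trans (le_of_eq ?_) (hh.trans (le_trans (le_of_eq ?_)
      (le_trans (hKd (L * (gf y h * gf y k * gf y (h - k)) ^ 2) (by positivity)) (le_of_eq (by ring)))))
    · refine Finset.sum_congr rfl fun n _ => ?_
      rw [Finset.prod_insert hn, Finset.prod_insert hn2, Finset.prod_singleton, add_zero, if_neg h0,
        if_neg k0, if_pos rfl]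
      ring
    · rw [Vb_od3 (gf y) (gf_neg y) h k h0 k0 hk, Finset.sum_insert hn, Finset.sum_insert hn2, Finset.sum_singleton,
        if_neg h0, if_neg k0, if_pos rfl]
      norm_num
      ring
  have P5 : ∀ k : ℤ, k ≠ 0 → ∑ b ∈ Finset.range (⌊x⌋₊ + 1), Up x y V (b : ℤ) * Up x y V (b : ℤ) *
        (Up x y V ((b : ℤ) + k) * Up x y V ((b : ℤ) + k)) ≤ K * L ^ 2 * gf y k ^ 2 := by
    intro h h0
    have hn : (0 : ℤ) ∉ ({h} : Finset ℤ) := by simpa using Ne.symm h0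
    have hcard : ({0, h} : Finset ℤ).card = 2 := by
      rw [Finset.card_insert_of_notMem hn, Finset.card_singleton]
    have hh := hX2 {0, h} (by rw [hcard]; norm_num) (by rw [hcard]; norm_num) (fun _ => 2) (by simp)
      (by rw [Finset.sum_const, hcard]; norm_num)
    refine le_trans (le_of_eq ?_) (hh.trans (le_trans (le_of_eq ?_)
      (le_trans (hKd (L ^ 2 * gf y h ^ 2) (by positivity)) (le_of_eq (by ring)))))
    · refine Finset.sum_congr rfl fun n _ => ?_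
      rw [Finset.prod_insert hn, Finset.prod_singleton, add_zero]
      ring
    · rw [Vb_od2 (gf y) (gf_neg y) h h0, Finset.sum_const, hcard]
      norm_num
      ring
  have hcorr : ∀ h k l : ℤ, h ≠ 0 → k ≠ 0 → l ≠ 0 → h ≠ k → h ≠ l → k ≠ l →
      ∑ b ∈ Finset.range (⌊x⌋₊ + 1), Uu x V (b : ℤ) * Uu x V ((b : ℤ) + h) *
        (Dd x y V ((b : ℤ) + k) * Dd x y V ((b : ℤ) + l)) ≤ K * (ε + (GG y h k l - 1)) := by
    intro h k l a1 a2 a3 a4 a5 a6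
    have hh := hX1 h k l a1 a2 a3 a4 a5 a6
    have hnn : 0 ≤ ε + (GG y h k l - 1) := by
      have := one_le_GG y h k l
      linarith
    refine le_trans (le_of_eq ?_) (hh.trans ?_)
    · refine Finset.sum_congr rfl fun n _ => ?_
      ring
    · refine mul_le_mul_of_nonneg_right ?_ hnn
      rw [hK]
      have : c1 ≤ C₀ := by rw [hC₀def]; linarith
      exact mul_le_mul_of_nonneg_right (mul_le_mul_of_nonneg_right this hw40.le) hν0.le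
  have g1a : ∑ h ∈ (Finset.Ioo (-(H : ℤ)) (H : ℤ)).erase 0, gf y h ^ 2 ≤ C₀ * (H : ℝ) :=
    hX3.1.trans (mul_le_mul_of_nonneg_right (by rw [hC₀def]; linarith) hHr.le)
  have g1b : ∑ h ∈ Finset.Icc (1 : ℤ) (H : ℤ), gf y h ^ 2 ≤ C₀ * (H : ℝ) :=
    hX3.2.trans (mul_le_mul_of_nonneg_right (by rw [hC₀def]; linarith) hHr.le)
  have g2 : ∑ a ∈ (Finset.Icc (-(H : ℤ)) (H : ℤ)).erase 0, ∑ c ∈ (Finset.Icc (1 : ℤ) (H : ℤ)).erase a,
      (gf y a * gf y c * gf y (a - c)) ^ 2 ≤ C₀ * (H : ℝ) ^ 2 :=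
    hX4.trans (mul_le_mul_of_nonneg_right (by rw [hC₀def]; linarith) (by positivity))
  have g3 : ∑ h ∈ (Finset.Ioo (-(H : ℤ)) (H : ℤ)).erase 0, ∑ k ∈ (Finset.Icc (1 : ℤ) (H : ℤ)).erase h,
      ∑ l ∈ ((Finset.Icc (1 : ℤ) (H : ℤ)).erase h).erase k, (GG y h k l - 1) ≤ C₀ * ε * (H : ℝ) ^ 3 := by
    refine hX5.trans (mul_le_mul_of_nonneg_right ?_ (by positivity))
    have h5 : c5 ≤ C₀ := by rw [hC₀def]; linarith
    calc c5 / (y : ℝ) = c5 * (1 / (y : ℝ)) := by ring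
      _ ≤ C₀ * ε := mul_le_mul h5 hyε (by positivity) hC₀.le
  have hA := Vb_A (⌊x⌋₊ + 1) H hHn (Up x y V) f (gf y) C₂ K L C₀ hC₂ hPn hK0.le
    (fun n => (hf n).trans (mul_le_mul_of_nonneg_left (hUP n) hC₂)) hH1 P1 P2 g1a
  have hB := Vb_B (⌊x⌋₊ + 1) H hHn D hD (Uu x V) (Dd x y V) (Up x y V) f (gf y) (GG y) C₂ K L C₀ ε hC₂ hUn hUP hgP
    hK0.le (by linarith) hH1 hε0 hC₀.le (fun h k l => by have := one_le_GG y h k l; linarith) hf P3 P4 P5 hcorr g1b g2 g3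
  have hS := Va (⌊x⌋₊ + 1) H D hD f (Dd x y V) hfs
  have hrg : rgH x H = Finset.range (⌊x⌋₊ + 1 + H) := rfl
  rw [hrg]
  obtain ⟨S, hSdef⟩ : ∃ S : ℝ, S = ∑ n ∈ Finset.range (⌊x⌋₊ + 1 + H), Dd x y V (n : ℤ) * (nf D f (n : ℤ)) ^ 2 := ⟨_, rfl⟩
  rw [← hSdef] at hS ⊢
  have hη0 : 0 ≤ ε + L / H := by positivity
  obtain ⟨R, hR⟩ : ∃ R : ℝ, R = C₀ * (3 * C₀ + 2) * C₂ ^ 2 * w4 * Real.sqrt (ε + L / H) * ν * (H : ℝ) ^ 2 := ⟨_, rfl⟩
  have hR0 : 0 ≤ R := by rw [hR]; positivity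
  rw [← hR]
  have hfin : S ^ 2 ≤ R ^ 2 := by
    refine hS.trans ((mul_le_mul hA hB (Finset.sum_nonneg fun h _ => Finset.sum_nonneg fun b _ => by positivity)
      (by positivity)).trans ?_)
    have e1 : R ^ 2 = (C₂ ^ 2 * K * (H : ℝ) ^ 2 * (3 * C₀ + 2)) ^ 2 * (ε + L / H) := by
      rw [hR, hK]
      have := Real.sq_sqrt hη0
      calc (C₀ * (3 * C₀ + 2) * C₂ ^ 2 * w4 * Real.sqrt (ε + L / H) * ν * (H : ℝ) ^ 2) ^ 2
          = (C₂ ^ 2 * (C₀ * w4 * ν) * (H : ℝ) ^ 2 * (3 * C₀ + 2)) ^ 2 * (Real.sqrt (ε + L / H) ^ 2) := by ring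
        _ = _ := by rw [this]
    rw [e1]
    have e2 : C₂ ^ 2 * (K * ((1 + C₀) * (H : ℝ))) * (C₂ ^ 2 * (K * ((3 * C₀ + 2) * (ε + L / H) * (H : ℝ) ^ 3)))
        = (1 + C₀) * ((C₂ ^ 2 * K * (H : ℝ) ^ 2) ^ 2 * (3 * C₀ + 2) * (ε + L / H)) := by ring
    have e3 : (C₂ ^ 2 * K * (H : ℝ) ^ 2 * (3 * C₀ + 2)) ^ 2 * (ε + L / H)
        = (3 * C₀ + 2) * ((C₂ ^ 2 * K * (H : ℝ) ^ 2) ^ 2 * (3 * C₀ + 2) * (ε + L / H)) := by ring
    rw [e2, e3]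
    exact mul_le_mul_of_nonneg_right (by linarith) (by positivity)
  exact (abs_le_of_sq_le_sq' hfin hR0).2

end Pool.Agent.H12.DM
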